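import Pool.Agent.Lib.H46P.Defs

/-!
# Chunk A1: first lemmas on injective norms

All by unfolding; `inj_succ_iff`: `ev (x :: xs) T = ev xs (fun I => ∑ k, x k * T (k :: I))` by
induction on `xs` (linearity, `Finset.sum_comm`).
`sum_sq_le`: put `v k = ev xs (fun I => T (k :: I))` and apply the hypothesis to
`x k = conj (v k)`: `∑ ‖v k‖^2 ≤ c * nrm v * ∏` and `nrm v ^ 2 = ∑ ‖v k‖^2`; divide by `nrm v`
(or it is zero).
-/

namespace Pool.Agent.H46P

open Finset
open scoped BigOperators ComplexConjugate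

variable {κ : Type*} [Fintype κ]

theorem ev_congr {n : ℕ} {T S : List κ → ℂ} (h : ∀ I : List κ, I.length = n → T I = S I)
    (xs : List (κ → ℂ)) (hx : xs.length = n) : ev xs T = ev xs S := by
  subst hx
  induction xs generalizing T S with
  | nil => exact h [] rfl
  | cons x xs ih =>
    rw [ev_cons, ev_cons]
    refine Finset.sum_congr rfl fun k _ => ?_
    rw [ih (fun I hI => h (k :: I) (by rw [List.length_cons, List.length_cons, hI]))]

theorem ev_add (xs : List (κ → ℂ)) (T S : List κ → ℂ) :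
    ev xs (fun I => T I + S I) = ev xs T + ev xs S := by
  induction xs generalizing T S with
  | nil => rfl
  | cons x xs ih =>
    rw [ev_cons, ev_cons, ev_cons, ← Finset.sum_add_distrib]
    refine Finset.sum_congr rfl fun k _ => ?_
    rw [ih (fun I => T (k :: I)) (fun I => S (k :: I)), mul_add]

theorem ev_smul (xs : List (κ → ℂ)) (a : ℂ) (T : List κ → ℂ) :
    ev xs (fun I => a * T I) = a * ev xs T := by
  induction xs generalizing T with
  | nil => rfl
  | cons x xs ih =>
    rw [ev_cons, ev_cons, Finset.mul_sum]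
    refine Finset.sum_congr rfl fun k _ => ?_
    rw [ih (fun I => T (k :: I))]
    ring

theorem ev_sum {α : Type*} (s : Finset α) (xs : List (κ → ℂ)) (T : α → List κ → ℂ) :
    ev xs (fun I => ∑ i ∈ s, T i I) = ∑ i ∈ s, ev xs (T i) := by
  induction xs generalizing T with
  | nil => rfl
  | cons x xs ih =>
    rw [ev_cons]
    simp only [ev_cons]
    rw [Finset.sum_comm]
    refine Finset.sum_congr rfl fun k _ => ?_
    rw [ih (fun i I => T i (k :: I)), Finset.mul_sum]

theorem ev_cons' (x : κ → ℂ) (xs : List (κ → ℂ)) (T : List κ → ℂ) :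
    ev (x :: xs) T = ev xs (fun I => ∑ k, x k * T (k :: I)) := by
  rw [ev_sum, ev_cons]
  refine Finset.sum_congr rfl fun k _ => ?_
  rw [ev_smul xs (x k) (fun I => T (k :: I))]

theorem inj_congr {n : ℕ} {T S : List κ → ℂ} {c : ℝ}
    (h : ∀ I : List κ, I.length = n → T I = S I) (hT : Inj n T c) : Inj n S c := by
  intro xs hx
  rw [← ev_congr h xs hx]
  exact hT xs hx

theorem a1_prod_nonneg (xs : List (κ → ℂ)) : 0 ≤ (xs.map nrm).prod := by
  refine List.prod_nonneg ?_
  intro a ha
  obtain ⟨x, _, rfl⟩ := List.mem_map.1 ha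
  exact nrm_nonneg x

theorem inj_mono {n : ℕ} {T : List κ → ℂ} {c c' : ℝ} (hT : Inj n T c) (h : c ≤ c') :
    Inj n T c' := by
  intro xs hx
  refine (hT xs hx).trans (mul_le_mul_of_nonneg_right h ?_)
  exact a1_prod_nonneg xs

theorem inj_add {n : ℕ} {T S : List κ → ℂ} {c d : ℝ} (hT : Inj n T c) (hS : Inj n S d) :
    Inj n (fun I => T I + S I) (c + d) := by
  intro xs hx
  rw [ev_add, add_mul]
  exact (norm_add_le _ _).trans (add_le_add (hT xs hx) (hS xs hx))

theorem inj_smul {n : ℕ} {T : List κ → ℂ} {c : ℝ} (a : ℂ) (hT : Inj n T c) :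
    Inj n (fun I => a * T I) (‖a‖ * c) := by
  intro xs hx
  rw [ev_smul, norm_mul, mul_assoc]
  exact mul_le_mul_of_nonneg_left (hT xs hx) (norm_nonneg a)

theorem inj_sum {α : Type*} (s : Finset α) {n : ℕ} {T : α → List κ → ℂ} {c : α → ℝ}
    (hT : ∀ i ∈ s, Inj n (T i) (c i)) : Inj n (fun I => ∑ i ∈ s, T i I) (∑ i ∈ s, c i) := by
  intro xs hx
  rw [ev_sum, Finset.sum_mul]
  exact (norm_sum_le _ _).trans (Finset.sum_le_sum fun i hi => hT i hi xs hx)

theorem inj_zero_iff {T : List κ → ℂ} {c : ℝ} : Inj 0 T c ↔ ‖T []‖ ≤ c := by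
  constructor
  · intro h
    have := h [] rfl
    simpa using this
  · intro h xs hx
    rw [List.length_eq_zero_iff] at hx
    subst hx
    simpa using h

theorem inj_succ_iff {n : ℕ} {T : List κ → ℂ} {c : ℝ} :
    Inj (n + 1) T c ↔ ∀ x : κ → ℂ, Inj n (fun I => ∑ k, x k * T (k :: I)) (c * nrm x) := by
  constructor
  · intro h x xs hx
    rw [← ev_cons']
    have h1 := h (x :: xs) (by rw [List.length_cons, hx])
    rw [List.map_cons, List.prod_cons, ← mul_assoc] at h1
    exact h1
  · intro h xs hx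
    cases xs with
    | nil => simp at hx
    | cons x xs =>
      rw [ev_cons', List.map_cons, List.prod_cons, ← mul_assoc]
      exact h x xs (by simpa using hx)

/-- Fixing the first leg at a letter. -/
theorem inj_head {n : ℕ} {T : List κ → ℂ} {c : ℝ} (hT : Inj (n + 1) T c) (k : κ) :
    Inj n (fun I => T (k :: I)) c := by
  classical
  have h := inj_succ_iff.1 hT (Pi.single k 1)
  have h1 : nrm (Pi.single k (1 : ℂ) : κ → ℂ) = 1 := by
    unfold nrm
    rw [Finset.sum_eq_single k]
    · simp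
    · intro j _ hj
      rw [Pi.single_eq_of_ne hj]
      simp
    · intro hk
      exact absurd (Finset.mem_univ k) hk
  rw [h1, mul_one] at h
  refine inj_congr ?_ h
  intro I _
  rw [Finset.sum_eq_single k]
  · simp
  · intro j _ hj
    rw [Pi.single_eq_of_ne hj, zero_mul]
  · intro hk
    exact absurd (Finset.mem_univ k) hk

theorem sum_sq_le {n : ℕ} {T : List κ → ℂ} {c : ℝ} (hc : 0 ≤ c) (hT : Inj (n + 1) T c)
    (xs : List (κ → ℂ)) (hx : xs.length = n) :
    ∑ k, ‖ev xs (fun I => T (k :: I))‖ ^ 2 ≤ (c * (xs.map nrm).prod) ^ 2 := by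
  set v : κ → ℂ := fun k => ev xs (fun I => T (k :: I)) with hv
  have hP := a1_prod_nonneg xs
  have h := inj_succ_iff.1 hT (fun k => conj (v k)) xs hx
  rw [← ev_cons', ev_cons] at h
  have h1 : ∑ k, conj (v k) * ev xs (fun I => T (k :: I)) = ((∑ k, ‖v k‖ ^ 2 : ℝ) : ℂ) := by
    push_cast
    refine Finset.sum_congr rfl fun k _ => ?_
    rw [mul_comm, ← Complex.mul_conj', hv]
  have h2 : nrm (fun k => conj (v k)) ^ 2 = ∑ k, ‖v k‖ ^ 2 := by
    rw [nrm_sq]
    refine Finset.sum_congr rfl fun k _ => ?_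
    rw [RCLike.norm_conj]
  have hnn : 0 ≤ nrm (fun k => conj (v k)) := nrm_nonneg _
  rw [h1, ← h2, Complex.norm_real, Real.norm_of_nonneg (by positivity)] at h
  have h3 : ∑ k, ‖ev xs (fun I => T (k :: I))‖ ^ 2 = nrm (fun k => conj (v k)) ^ 2 := h2.symm
  rw [h3]
  generalize nrm (fun k => conj (v k)) = N at *
  have h4 : N ≤ c * (xs.map nrm).prod := by
    rcases hnn.eq_or_lt with h0 | hpos
    · rw [← h0]
      positivity
    · have h5 : N * N ≤ (c * (xs.map nrm).prod) * N := by nlinarith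
      exact le_of_mul_le_mul_right h5 hpos
  exact pow_le_pow_left₀ hnn h4 2

end Pool.Agent.H46P
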