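import Pool.Agent.Lib.H46P.A9

/-!
# Chunk A10: the commutator bound (Lemma 2 of `PROOF.md`)

For `p ≤ a` let `R p = opF A p (fun I => op A b S * op A (a - p) (fun J => T (I ++ J)))`, so that
`R a = op A a T * op A b S` (`opF_mul_right`, `op_zero`), `R 0 = op A b S * op A a T`.
By `opF_snoc` and `letter_op` (as in A9)
`R (p+1) = (-1)^b • R p + ∑ l ∈ range b, (-1)^l • Sh A p (a-p-1) (b-1) (mv p T) S_l`,
`S_l (k :: J) = S (ins l (σ k) J)` (this is `mv l S` with `σ` on the first leg: `inj_mv`, `inj_map_head`);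
(the contracted letter `k` is the shared index `x` of `Sh`).  By `shuffle`, using
`(1 + (b-1)/g)^p ≤ exp (b p / g) ≤ exp 1` and `p + (a-p-1) + (b-1) = a + b - 2`:
`‖R (p+1) - (-1)^b • R p‖ ≤ b * exp 1 * gam^(a+b-2) * (c c')`.  Induction:
`‖R p - (-1)^(b p) • R 0‖ ≤ p * b * exp 1 * gam^(a+b-2) * (c c')`.
-/

namespace Pool.Agent.H46P

open Finset
open scoped BigOperators ComplexConjugate InnerProductSpace

variable {κ : Type*} [Fintype κ] [DecidableEq κ]
  {E : Type*} [NormedAddCommGroup E] [InnerProductSpace ℂ E] [CompleteSpace E]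

/-- the partially commuted product -/
noncomputable def Rp (A : κ → E →L[ℂ] E) (a b : ℕ) (T S : List κ → ℂ) (p : ℕ) : E →L[ℂ] E :=
  opF A p (fun I => op A b S * op A (a - p) (fun J => T (I ++ J)))

theorem rp_succ {σ : κ → κ} {A : κ → E →L[ℂ] E} (hA : CAR σ A) (a b : ℕ) (T S : List κ → ℂ) (p : ℕ) (hp : p + 1 ≤ a) :
    Rp A a b T S (p + 1) = (-1 : ℂ) ^ b • Rp A a b T S p + ∑ l ∈ range b, (-1 : ℂ) ^ l •
      Sh A p (a - p - 1) (b - 1) (mv p T) (fun I => match I with | [] => 0 | k :: J => mv l S (σ k :: J)) := by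
  unfold Rp
  rw [opF_snoc]
  have h2 : ∀ I : List κ, I.length = p →
      ∑ k, A k * (op A b S * op A (a - (p + 1)) (fun J => T (I ++ [k] ++ J))) =
      (-1 : ℂ) ^ b • (op A b S * op A (a - p) (fun J => T (I ++ J))) +
      ∑ k, ∑ l ∈ range b, (-1 : ℂ) ^ l • (op A (b - 1) (fx l (σ k) S) *
        op A (a - p - 1) (fun J => mv p T (k :: (I ++ J)))) := by
    intro I hI
    have e0 : a - p = (a - p - 1) + 1 := by omega
    have e3 : a - (p + 1) = a - p - 1 := by omega
    have e1 : ∀ k, (fun J => mv p T (k :: (I ++ J))) = fun J => T (I ++ [k] ++ J) := by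
      intro k
      funext J
      change T (ins p k (I ++ J)) = _
      rw [← hI, ins_append]
      simp
    have e4 : op A (a - p) (fun J => T (I ++ J)) = ∑ k, A k * op A (a - p - 1) (fun J => T (I ++ k :: J)) := by
      conv_lhs => rw [e0]
      rw [op_succ]
    rw [e4, e3, Finset.mul_sum, Finset.smul_sum, ← Finset.sum_add_distrib]
    refine Finset.sum_congr rfl fun k _ => ?_
    have e2 : (fun J => T (I ++ k :: J)) = fun J => T (I ++ [k] ++ J) := by
      funext J
      simp
    rw [e1 k, ← mul_assoc (A k), letter_op hA, add_mul, Finset.sum_mul]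
    congr 1
    rw [smul_mul_assoc, mul_assoc, e2]
  rw [opF_congr A p h2, opF_add, opF_smul, opF_sum]
  congr 1
  have h3 : ∀ k, opF A p (fun I => ∑ l ∈ range b, (-1 : ℂ) ^ l • (op A (b - 1) (fx l (σ k) S) *
        op A (a - p - 1) (fun J => mv p T (k :: (I ++ J))))) =
      ∑ l ∈ range b, (-1 : ℂ) ^ l • opF A p (fun I => op A (b - 1) (fx l (σ k) S) *
        op A (a - p - 1) (fun J => mv p T (k :: (I ++ J)))) := by
    intro k
    rw [opF_sum]
    refine Finset.sum_congr rfl fun l _ => ?_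
    rw [opF_smul]
  rw [Finset.sum_congr rfl fun k _ => h3 k, Finset.sum_comm]
  refine Finset.sum_congr rfl fun l _ => ?_
  rw [← Finset.smul_sum]
  rfl

theorem exp_bound {g : ℝ} (hg : 1 ≤ g) {a b p : ℕ} (hb : 1 ≤ b) (hpa : p ≤ a) (hab : (a * b : ℝ) ≤ g) :
    (1 + ((b - 1 : ℕ) : ℝ) / g) ^ p ≤ Real.exp 1 := by
  have hg0 : 0 < g := by linarith
  have h1 : (1 + ((b - 1 : ℕ) : ℝ) / g) ≤ Real.exp (((b - 1 : ℕ) : ℝ) / g) := by
    rw [add_comm]
    exact Real.add_one_le_exp _
  have h2 : (1 + ((b - 1 : ℕ) : ℝ) / g) ^ p ≤ Real.exp (((b - 1 : ℕ) : ℝ) / g) ^ p := by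
    gcongr
  refine h2.trans ?_
  rw [← Real.exp_nat_mul]
  apply Real.exp_le_exp.2
  have h3 : ((b - 1 : ℕ) : ℝ) ≤ b := by exact_mod_cast Nat.sub_le b 1
  have h4 : (p : ℝ) ≤ a := by exact_mod_cast hpa
  rw [← mul_div_assoc, div_le_one hg0]
  calc (p : ℝ) * ((b - 1 : ℕ) : ℝ) ≤ a * b := by gcongr
    _ ≤ g := hab

theorem commutator {σ : κ → κ} {A : κ → E →L[ℂ] E} (hA : CAR σ A) {g : ℝ} (hg : 1 ≤ g)
    {a b : ℕ} (ha : 1 ≤ a) (hb : 1 ≤ b) (hab : (a * b : ℝ) ≤ g)
    (hP : ∀ d, d < a ∨ d < b → Pd A g d) {T S : List κ → ℂ} {c c' : ℝ}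
    (hc : 0 ≤ c) (hc' : 0 ≤ c') (hT : Inj a T c) (hS : Inj b S c') :
    ‖op A a T * op A b S - (-1 : ℂ) ^ (a * b) • (op A b S * op A a T)‖ ≤
      Real.exp 1 * (a * b) * gam κ g ^ (a + b - 2) * (c * c') := by
  have hgam : 0 ≤ gam κ g := Real.sqrt_nonneg _
  have hg0 : 0 < g := by linarith
  have key : ∀ p : ℕ, p ≤ a → ‖Rp A a b T S p - (-1 : ℂ) ^ (p * b) • Rp A a b T S 0‖ ≤
      Real.exp 1 * (p * b) * gam κ g ^ (a + b - 2) * (c * c') := by
    intro p
    induction p with
    | zero =>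
      intro _
      rw [zero_mul, pow_zero, one_smul, sub_self, norm_zero]
      positivity
    | succ p ih =>
      intro hp
      have hsh : ∀ l ∈ range b, ‖(-1 : ℂ) ^ l • Sh A p (a - p - 1) (b - 1) (mv p T)
          (fun I => match I with | [] => 0 | k :: J => mv l S (σ k :: J))‖ ≤
          Real.exp 1 * gam κ g ^ (a + b - 2) * (c * c') := by
        intro l hl
        have hl' : l < b := Finset.mem_range.1 hl
        rw [neg_pow_smul]
        have e1 : p + (a - p - 1) + 1 = a - 1 + 1 := by omega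
        have e2 : a - 1 + 1 = a := by omega
        have e3 : b - 1 + 1 = b := by omega
        have i1 : Inj (p + (a - p - 1) + 1) (mv p T) c := by
          rw [e1]
          exact inj_mv (by omega) (by rw [e2]; exact hT)
        have i2 : Inj (b - 1 + 1) (fun I => match I with | [] => 0 | k :: J => mv l S (σ k :: J)) c' :=
          inj_map_head hA.inv (inj_mv (by omega) (by rw [e3]; exact hS))
        refine (shuffle hA hg p (a - p - 1) (b - 1) (fun d hd => hP d ?_) hc hc' i1 i2).trans ?_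
        · rcases hd with hd | hd
          · left; omega
          · right; omega
        · have e4 : p + (a - p - 1) + (b - 1) = a + b - 2 := by omega
          rw [e4]
          gcongr
          exact exp_bound hg hb (by omega : p ≤ a) hab
      have h5 : ‖∑ l ∈ range b, (-1 : ℂ) ^ l • Sh A p (a - p - 1) (b - 1) (mv p T)
          (fun I => match I with | [] => 0 | k :: J => mv l S (σ k :: J))‖ ≤
          b * (Real.exp 1 * gam κ g ^ (a + b - 2) * (c * c')) := by
        refine (norm_sum_le_of_le _ hsh).trans ?_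
        rw [Finset.sum_const, Finset.card_range, nsmul_eq_mul]
      have e : Rp A a b T S (p + 1) - (-1 : ℂ) ^ ((p + 1) * b) • Rp A a b T S 0 =
          (-1 : ℂ) ^ b • (Rp A a b T S p - (-1 : ℂ) ^ (p * b) • Rp A a b T S 0) +
          ∑ l ∈ range b, (-1 : ℂ) ^ l • Sh A p (a - p - 1) (b - 1) (mv p T)
            (fun I => match I with | [] => 0 | k :: J => mv l S (σ k :: J)) := by
        have e1 : (-1 : ℂ) ^ ((p + 1) * b) = (-1) ^ b * (-1) ^ (p * b) := by
          rw [← pow_add]
          congr 1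
          ring
        rw [rp_succ hA a b T S p hp, e1, smul_sub, smul_smul]
        abel
      rw [e]
      refine (norm_add_le _ _).trans ?_
      rw [neg_pow_smul]
      refine (add_le_add (ih (by omega)) h5).trans (le_of_eq ?_)
      push_cast
      ring
  have h0 : Rp A a b T S 0 = op A b S * op A a T := rfl
  have ha' : Rp A a b T S a = op A a T * op A b S := by
    unfold Rp
    rw [Nat.sub_self]
    have e : (fun I : List κ => op A b S * op A 0 (fun J => T (I ++ J))) =
        fun I => algebraMap ℂ (E →L[ℂ] E) (T I) * op A b S := by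
      funext I
      rw [op_zero, List.append_nil, Algebra.commutes]
    rw [e, opF_mul_right]
    rfl
  have h := key a le_rfl
  rw [h0, ha'] at h
  exact h

end Pool.Agent.H46P
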