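import Pool.Agent.Lib.H46P.A1

/-!
# Chunk A2: moving a leg to the front

`ev_ins`: induction on `l` (generalizing `xs`, `T`).
-/

namespace Pool.Agent.H46P

open Finset
open scoped BigOperators ComplexConjugate

variable {κ : Type*} [Fintype κ]

theorem ev_ins (l : ℕ) (x : κ → ℂ) (xs : List (κ → ℂ)) (hl : l ≤ xs.length) (T : List κ → ℂ) :
    ev (ins l x xs) T = ∑ k, x k * ev xs (fun I => T (ins l k I)) := by
  induction l generalizing xs T with
  | zero =>
    rw [ins_zero, ev_cons]
    simp only [ins_zero]
  | succ l ih =>
    cases xs with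
    | nil => simp at hl
    | cons y ys =>
      rw [ins_succ_cons, ev_cons]
      have hl' : l ≤ ys.length := by simpa using hl
      have h1 : ∀ j, ev (ins l x ys) (fun I => T (j :: I)) =
          ∑ k, x k * ev ys (fun I => T (j :: ins l k I)) := fun j => ih ys hl' (fun I => T (j :: I))
      simp only [h1, ev_cons, ins_succ_cons, Finset.mul_sum]
      rw [Finset.sum_comm]
      refine Finset.sum_congr rfl fun k _ => Finset.sum_congr rfl fun j _ => ?_
      ring

theorem ev_mv (l : ℕ) (x : κ → ℂ) (xs : List (κ → ℂ)) (hl : l ≤ xs.length) (T : List κ → ℂ) :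
    ev (x :: xs) (mv l T) = ev (ins l x xs) T := by
  rw [ev_ins l x xs hl T, ev_cons]
  rfl

theorem a2_prod {α : Type*} (l : ℕ) (x : α) (xs : List α) (f : α → ℝ) :
    ((ins l x xs).map f).prod = f x * (xs.map f).prod := by
  induction l generalizing xs with
  | zero => simp
  | succ l ih =>
    cases xs with
    | nil => simp [ins]
    | cons y ys =>
      rw [ins_succ_cons, List.map_cons, List.prod_cons, ih ys, List.map_cons, List.prod_cons]
      ring

theorem inj_mv {n l : ℕ} (hl : l ≤ n) {T : List κ → ℂ} {c : ℝ} (hT : Inj (n + 1) T c) :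
    Inj (n + 1) (mv l T) c := by
  intro xs hx
  cases xs with
  | nil => simp at hx
  | cons x xs =>
    have hx' : xs.length = n := by simpa using hx
    rw [ev_mv l x xs (by rw [hx']; exact hl)]
    have h := hT (ins l x xs) (by rw [length_ins, hx'])
    rw [a2_prod l x xs nrm] at h
    rw [List.map_cons, List.prod_cons]
    exact h

theorem inj_fx {n l : ℕ} (hl : l ≤ n) {T : List κ → ℂ} {c : ℝ} (hT : Inj (n + 1) T c) (k : κ) :
    Inj n (fx l k T) c := by
  exact inj_head (inj_mv hl hT) k

/-- a leg in the middle, written with `++` -/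
theorem ins_append {α : Type*} (k : α) (I J : List α) : ins I.length k (I ++ J) = I ++ k :: J := by
  induction I with
  | nil => simp
  | cons i I ih =>
    rw [List.length_cons, List.cons_append, ins_succ_cons, ih]
    rfl

end Pool.Agent.H46P
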