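import Pool.Agent.Lib.H46P.A2

/-!
# Chunk A3: conjugation, letter bijections, reversal

`inj_map`: `ev xs (fun I => T (I.map σ)) = ev (xs.map (fun x => x ∘ σ)) T` (change of variables
`k ↦ σ k` in each sum, induction on `xs`), and `nrm (x ∘ σ) = nrm x`.
`ev_reverse`: induction on `xs`; first show `ev (xs ++ [x]) T = ∑ k, x k * ev xs (fun I => T (I ++ [k]))`
(this is `ev_ins` with `l = xs.length`, or induction).
-/

namespace Pool.Agent.H46P

open Finset
open scoped BigOperators ComplexConjugate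

variable {κ : Type*} [Fintype κ]

theorem nrm_conj (x : κ → ℂ) : nrm (fun k => conj (x k)) = nrm x := by
  unfold nrm
  simp

theorem a3_ev_conj (xs : List (κ → ℂ)) (T : List κ → ℂ) :
    ev xs (fun I => conj (T I)) = conj (ev (xs.map fun x k => conj (x k)) T) := by
  induction xs generalizing T with
  | nil => simp
  | cons x xs ih =>
    rw [ev_cons, List.map_cons, ev_cons, map_sum]
    refine Finset.sum_congr rfl fun k _ => ?_
    rw [ih, map_mul]
    simp

theorem a3_reindex {β : Type*} [AddCommMonoid β] {σ : κ → κ} (hσ : ∀ k, σ (σ k) = k)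
    (f : κ → β) : ∑ k, f (σ k) = ∑ k, f k :=
  Equiv.sum_comp ⟨σ, σ, hσ, hσ⟩ f

theorem a3_nrm_comp {σ : κ → κ} (hσ : ∀ k, σ (σ k) = k) (x : κ → ℂ) : nrm (x ∘ σ) = nrm x := by
  unfold nrm
  congr 1
  exact a3_reindex hσ (fun k => ‖x k‖ ^ 2)

theorem a3_ev_map {σ : κ → κ} (hσ : ∀ k, σ (σ k) = k) (xs : List (κ → ℂ)) (T : List κ → ℂ) :
    ev xs (fun I => T (I.map σ)) = ev (xs.map fun x => x ∘ σ) T := by
  induction xs generalizing T with
  | nil => simp
  | cons x xs ih =>
    rw [ev_cons, List.map_cons, ev_cons,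
      ← a3_reindex hσ (fun k => (x ∘ σ) k * ev (xs.map fun x => x ∘ σ) fun I => T (k :: I))]
    refine Finset.sum_congr rfl fun k _ => ?_
    simp only [Function.comp, hσ]
    exact congrArg (fun z => x k * z) (ih (fun I => T (σ k :: I)))

theorem inj_conj {n : ℕ} {T : List κ → ℂ} {c : ℝ} (hT : Inj n T c) :
    Inj n (fun I => conj (T I)) c := by
  intro xs hx
  rw [a3_ev_conj]
  have h1 := hT (xs.map fun x k => conj (x k)) (by rw [List.length_map, hx])
  rw [List.map_map] at h1
  have h2 : (nrm ∘ fun (x : κ → ℂ) k => conj (x k)) = nrm := funext fun x => nrm_conj x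
  rw [h2] at h1
  rw [RCLike.norm_conj]
  exact h1

theorem inj_map {σ : κ → κ} (hσ : ∀ k, σ (σ k) = k) {n : ℕ} {T : List κ → ℂ} {c : ℝ}
    (hT : Inj n T c) : Inj n (fun I => T (I.map σ)) c := by
  intro xs hx
  rw [a3_ev_map hσ]
  have h1 := hT (xs.map fun x => x ∘ σ) (by rw [List.length_map, hx])
  rw [List.map_map] at h1
  have h2 : (nrm ∘ fun (x : κ → ℂ) => x ∘ σ) = nrm := funext fun x => a3_nrm_comp hσ x
  rw [h2] at h1
  exact h1

/-- `σ` on the first leg only. -/
theorem inj_map_head {σ : κ → κ} (hσ : ∀ k, σ (σ k) = k) {n : ℕ} {T : List κ → ℂ} {c : ℝ}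
    (hT : Inj (n + 1) T c) :
    Inj (n + 1) (fun I => match I with | [] => 0 | k :: J => T (σ k :: J)) c := by
  intro xs hx
  obtain ⟨x, ys, rfl⟩ : ∃ x ys, xs = x :: ys := by
    cases xs with
    | nil => simp at hx
    | cons x ys => exact ⟨x, ys, rfl⟩
  have h1 := hT ((x ∘ σ) :: ys) (by simpa using hx)
  rw [List.map_cons, a3_nrm_comp hσ] at h1
  rw [List.map_cons]
  refine le_trans (le_of_eq ?_) h1
  congr 1
  rw [ev_cons, ev_cons,
    ← a3_reindex hσ (fun k => (x ∘ σ) k * ev ys fun I => T (k :: I))]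
  refine Finset.sum_congr rfl fun k _ => ?_
  simp only [Function.comp, hσ]

theorem ev_snoc (x : κ → ℂ) (xs : List (κ → ℂ)) (T : List κ → ℂ) :
    ev (xs ++ [x]) T = ∑ k, x k * ev xs (fun I => T (I ++ [k])) := by
  induction xs generalizing T with
  | nil => simp
  | cons y ys ih =>
    rw [List.cons_append, ev_cons]
    simp only [ih, ev_cons, List.cons_append, Finset.mul_sum]
    rw [Finset.sum_comm]
    refine Finset.sum_congr rfl fun k _ => Finset.sum_congr rfl fun j _ => ?_
    ring

theorem ev_reverse (xs : List (κ → ℂ)) (T : List κ → ℂ) :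
    ev xs (fun I => T I.reverse) = ev xs.reverse T := by
  induction xs generalizing T with
  | nil => simp
  | cons x xs ih =>
    rw [List.reverse_cons, ev_snoc, ev_cons]
    refine Finset.sum_congr rfl fun k _ => ?_
    rw [← ih]
    simp only [List.reverse_cons]

theorem inj_reverse {n : ℕ} {T : List κ → ℂ} {c : ℝ} (hT : Inj n T c) :
    Inj n (fun I => T I.reverse) c := by
  intro xs hx
  rw [ev_reverse]
  have h1 := hT xs.reverse (by rw [List.length_reverse, hx])
  rw [List.map_reverse, List.prod_reverse] at h1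
  exact h1

end Pool.Agent.H46P
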