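import Pool.Agent.Lib.H46P.A3

/-!
# Chunk A4: contractions

`ev_append`: `ev (xs ++ ys) T = ev xs (fun I => ev ys (fun J => T (I ++ J)))`, induction.
`inj_sb`: for `xs = X ++ Y ++ Z` with lengths `p, a, q`,
`ev (X ++ Y ++ Z) (sb p a T S) = ∑ k, u k * v k`, where `u k = ev (X ++ Z) (fun I => T (ins p k I))`,
`v k = ev Y (fun J => S (k :: J))`. By `sum_sq_le` (for `mv p T`, which is `Inj` by `inj_mv`, and for
`S`) and Cauchy-Schwarz it is at most `c ∏_X ∏_Z * c' ∏_Y`.
`inj_prod`: product of two tensors without contraction (`ev (X ++ Y) = ev X T * ev Y S`).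
`inj_mat`: matrix product of tensors with two outer legs: for `xs = x :: z :: X ++ Y`,
`ev = ∑ y, (ev (x :: X) T(. :: y :: .)) * (ev (z :: Y) S(y :: . :: .))`; apply `sum_sq_le` to `mv 1 T`
and to `S`.
-/

namespace Pool.Agent.H46P

open Finset
open scoped BigOperators ComplexConjugate

variable {κ : Type*} [Fintype κ]

theorem a4_nn (xs : List (κ → ℂ)) : 0 ≤ (xs.map nrm).prod := by
  refine List.prod_nonneg fun r hr => ?_
  obtain ⟨x, _, rfl⟩ := List.mem_map.1 hr
  exact nrm_nonneg x

theorem a4_cs {u v : κ → ℂ} {a b : ℝ} (ha : 0 ≤ a) (hb : 0 ≤ b) (hu : ∑ k, ‖u k‖ ^ 2 ≤ a ^ 2)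
    (hv : ∑ k, ‖v k‖ ^ 2 ≤ b ^ 2) : ‖∑ k, u k * v k‖ ≤ a * b := by
  have h1 : ‖∑ k, u k * v k‖ ≤ ∑ k, ‖u k‖ * ‖v k‖ := by
    refine (norm_sum_le _ _).trans (le_of_eq ?_)
    refine Finset.sum_congr rfl fun k _ => norm_mul _ _
  refine h1.trans ?_
  have h2 := Finset.sum_mul_sq_le_sq_mul_sq Finset.univ (fun k => ‖u k‖) (fun k => ‖v k‖)
  have h3 : (∑ k, ‖u k‖ ^ 2) * ∑ k, ‖v k‖ ^ 2 ≤ a ^ 2 * b ^ 2 :=
    mul_le_mul hu hv (Finset.sum_nonneg fun _ _ => by positivity) (by positivity)
  have h4 : (∑ k, ‖u k‖ * ‖v k‖) ^ 2 ≤ (a * b) ^ 2 := by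
    rw [mul_pow]
    exact h2.trans h3
  exact (pow_le_pow_iff_left₀ (Finset.sum_nonneg fun _ _ => by positivity) (mul_nonneg ha hb) (by norm_num)).1 h4

theorem ev_append (xs ys : List (κ → ℂ)) (T : List κ → ℂ) :
    ev (xs ++ ys) T = ev xs (fun I => ev ys (fun J => T (I ++ J))) := by
  induction xs generalizing T with
  | nil => rfl
  | cons x xs ih =>
    rw [List.cons_append, ev_cons, ev_cons]
    refine Finset.sum_congr rfl fun k _ => ?_
    rw [ih]
    rfl

theorem a4_td {a : ℕ} (X Y : List (κ → ℂ)) (hX : X.length = a) (f : List κ → List κ → ℂ) :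
    ev (X ++ Y) (fun L => f (L.take a) (L.drop a)) = ev X (fun I => ev Y (fun J => f I J)) := by
  rw [ev_append]
  refine ev_congr (n := a) (fun I hI => ?_) X hX
  congr 1
  funext J
  rw [List.take_left' hI, List.drop_left' hI]

theorem inj_sb {p a q : ℕ} {T S : List κ → ℂ} {c c' : ℝ} (hc : 0 ≤ c) (hc' : 0 ≤ c')
    (hT : Inj (p + 1 + q) T c) (hS : Inj (a + 1) S c') :
    Inj (p + a + q) (sb p a T S) (c * c') := by
  intro xs hx
  obtain ⟨X, hX⟩ : ∃ X, X = xs.take p := ⟨_, rfl⟩
  obtain ⟨Y, hY⟩ : ∃ Y, Y = (xs.drop p).take a := ⟨_, rfl⟩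
  obtain ⟨Z, hZ⟩ : ∃ Z, Z = (xs.drop p).drop a := ⟨_, rfl⟩
  have lX : X.length = p := by
    rw [hX, List.length_take]
    omega
  have lY : Y.length = a := by
    rw [hY, List.length_take, List.length_drop]
    omega
  have lZ : Z.length = q := by
    rw [hZ, List.length_drop, List.length_drop]
    omega
  have hxs : xs = X ++ (Y ++ Z) := by
    rw [hX, hY, hZ, List.take_append_drop, List.take_append_drop]
  have hT' : Inj (p + q + 1) (mv p T) c := inj_mv (by omega) (by
    have : p + 1 + q = p + q + 1 := by ring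
    rwa [this] at hT)
  have h1 : ev xs (sb p a T S) = ∑ k, ev (X ++ Z) (fun I => mv p T (k :: I)) * ev Y (fun J => S (k :: J)) := by
    rw [hxs, ev_append]
    have e1 : ∀ I : List κ, I.length = p → ev (Y ++ Z) (fun J => sb p a T S (I ++ J)) =
        ∑ k, ev Z (fun K => T (I ++ k :: K)) * ev Y (fun J => S (k :: J)) := by
      intro I hI
      rw [ev_append]
      have e2 : ∀ J : List κ, J.length = a → ev Z (fun K => sb p a T S (I ++ (J ++ K))) =
          ∑ k, ev Z (fun K => T (I ++ k :: K)) * S (k :: J) := by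
        intro J hJ
        have e3 : (fun K => sb p a T S (I ++ (J ++ K))) = fun K => ∑ k, S (k :: J) * T (I ++ k :: K) := by
          funext K
          unfold sb
          refine Finset.sum_congr rfl fun k _ => ?_
          have t1 : (I ++ (J ++ K)).take p = I := List.take_left' hI
          have t2 : (I ++ (J ++ K)).drop p = J ++ K := List.drop_left' hI
          have t3 : (I ++ (J ++ K)).drop (p + a) = K := by
            rw [← List.drop_drop, t2]
            exact List.drop_left' hJ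
          have t4 : (J ++ K).take a = J := List.take_left' hJ
          rw [t1, t2, t3, t4, mul_comm]
        rw [e3, ev_sum]
        refine Finset.sum_congr rfl fun k _ => ?_
        rw [ev_smul, mul_comm]
      rw [ev_congr e2 Y lY, ev_sum]
      refine Finset.sum_congr rfl fun k _ => ?_
      rw [ev_smul]
    rw [ev_congr e1 X lX]
    have e4 : (fun I => ∑ k, ev Z (fun K => T (I ++ k :: K)) * ev Y (fun J => S (k :: J))) =
        fun I => ∑ k, ev Y (fun J => S (k :: J)) * ev Z (fun K => T (I ++ k :: K)) := by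
      funext I
      refine Finset.sum_congr rfl fun k _ => ?_
      rw [mul_comm]
    rw [e4, ev_sum]
    refine Finset.sum_congr rfl fun k _ => ?_
    rw [ev_smul, mul_comm, ev_append]
    congr 1
    refine ev_congr (n := p) (fun I hI => ?_) X lX
    congr 1
    funext K
    show T (I ++ k :: K) = T (ins p k (I ++ K))
    rw [← hI, ins_append]
  rw [h1]
  have h2 := sum_sq_le hc hT' (X ++ Z) (by rw [List.length_append, lX, lZ])
  have h3 := sum_sq_le hc' hS Y lY
  refine (a4_cs (mul_nonneg hc (a4_nn _)) (mul_nonneg hc' (a4_nn _)) h2 h3).trans (le_of_eq ?_)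
  rw [hxs]
  simp only [List.map_append, List.prod_append]
  ring

theorem inj_prod {a b : ℕ} {T S : List κ → ℂ} {c c' : ℝ} (hc : 0 ≤ c) (hc' : 0 ≤ c')
    (hT : Inj a T c) (hS : Inj b S c') :
    Inj (a + b) (fun L => T (L.take a) * S (L.drop a)) (c * c') := by
  intro xs hx
  obtain ⟨X, hX⟩ : ∃ X, X = xs.take a := ⟨_, rfl⟩
  obtain ⟨Y, hY⟩ : ∃ Y, Y = xs.drop a := ⟨_, rfl⟩
  have lX : X.length = a := by
    rw [hX, List.length_take]
    omega
  have lY : Y.length = b := by
    rw [hY, List.length_drop]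
    omega
  have hxs : xs = X ++ Y := by
    rw [hX, hY, List.take_append_drop]
  rw [hxs, a4_td X Y lX (fun I J => T I * S J)]
  have e1 : (fun I => ev Y (fun J => T I * S J)) = fun I => ev Y S * T I := by
    funext I
    rw [ev_smul, mul_comm]
  rw [e1, ev_smul, norm_mul, List.map_append, List.prod_append]
  have h1 := hT X lX
  have h2 := hS Y lY
  calc ‖ev Y S‖ * ‖ev X T‖ ≤ (c' * (Y.map nrm).prod) * (c * (X.map nrm).prod) :=
        mul_le_mul h2 h1 (norm_nonneg _) (mul_nonneg hc' (a4_nn Y))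
    _ = _ := by ring

theorem inj_mat {a b : ℕ} {T S : List κ → ℂ} {c c' : ℝ} (hc : 0 ≤ c) (hc' : 0 ≤ c')
    (hT : Inj (a + 2) T c) (hS : Inj (b + 2) S c') :
    Inj (a + b + 2) (fun L => match L with
      | x :: z :: I => ∑ y, T (x :: y :: I.take a) * S (y :: z :: I.drop a)
      | _ => 0) (c * c') := by
  intro xs hx
  obtain ⟨x, xs1, rfl⟩ : ∃ x xs1, xs = x :: xs1 := by
    cases xs with
    | nil => simp at hx
    | cons x xs => exact ⟨x, xs, rfl⟩
  obtain ⟨z, W, rfl⟩ : ∃ z W, xs1 = z :: W := by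
    cases xs1 with
    | nil => simp at hx
    | cons x xs => exact ⟨x, xs, rfl⟩
  simp only [List.length_cons] at hx
  obtain ⟨X, hX⟩ : ∃ X, X = W.take a := ⟨_, rfl⟩
  obtain ⟨Y, hY⟩ : ∃ Y, Y = W.drop a := ⟨_, rfl⟩
  have lX : X.length = a := by
    rw [hX, List.length_take]
    omega
  have lY : Y.length = b := by
    rw [hY, List.length_drop]
    omega
  have hW : W = X ++ Y := by
    rw [hX, hY, List.take_append_drop]
  have h1 : ev (x :: z :: W) (fun L => match L with
      | x :: z :: I => ∑ y, T (x :: y :: I.take a) * S (y :: z :: I.drop a)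
      | _ => 0) = ∑ y, ev (x :: X) (fun I => mv 1 T (y :: I)) * ev (z :: Y) (fun J => S (y :: J)) := by
    have e0 : ev (x :: z :: W) (fun L => match L with
      | x :: z :: I => ∑ y, T (x :: y :: I.take a) * S (y :: z :: I.drop a)
      | _ => 0) = ∑ k1, x k1 * ∑ k2, z k2 *
        ev W (fun I => ∑ y, T (k1 :: y :: I.take a) * S (y :: k2 :: I.drop a)) := rfl
    have e1 : ∀ k1 k2, ev W (fun I => ∑ y, T (k1 :: y :: I.take a) * S (y :: k2 :: I.drop a)) =
        ∑ y, ev X (fun I => T (k1 :: y :: I)) * ev Y (fun J => S (y :: k2 :: J)) := by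
      intro k1 k2
      rw [ev_sum]
      refine Finset.sum_congr rfl fun y _ => ?_
      rw [hW, a4_td X Y lX (fun I J => T (k1 :: y :: I) * S (y :: k2 :: J))]
      have e2 : (fun I => ev Y (fun J => T (k1 :: y :: I) * S (y :: k2 :: J))) =
          fun I => ev Y (fun J => S (y :: k2 :: J)) * T (k1 :: y :: I) := by
        funext I
        rw [ev_smul, mul_comm]
      rw [e2, ev_smul, mul_comm]
    rw [e0]
    simp only [e1]
    have e3 : ∀ y, ev (x :: X) (fun I => mv 1 T (y :: I)) * ev (z :: Y) (fun J => S (y :: J)) =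
        ∑ k1, ∑ k2, x k1 * (z k2 * (ev X (fun I => T (k1 :: y :: I)) * ev Y (fun J => S (y :: k2 :: J)))) := by
      intro y
      have e4 : ev (x :: X) (fun I => mv 1 T (y :: I)) = ∑ k1, x k1 * ev X (fun I => T (k1 :: y :: I)) := by
        rw [ev_cons]
        refine Finset.sum_congr rfl fun k _ => ?_
        congr 1
      rw [e4, ev_cons, Finset.sum_mul_sum]
      refine Finset.sum_congr rfl fun k1 _ => Finset.sum_congr rfl fun k2 _ => ?_
      ring
    simp only [e3, Finset.mul_sum]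
    rw [Finset.sum_comm_cycle]
  rw [h1]
  have h2 := sum_sq_le hc (inj_mv (n := a + 1) (l := 1) (by omega) hT) (x :: X) (by rw [List.length_cons, lX])
  have h3 := sum_sq_le hc' hS (z :: Y) (by rw [List.length_cons, lY])
  refine (a4_cs (mul_nonneg hc (a4_nn _)) (mul_nonneg hc' (a4_nn _)) h2 h3).trans (le_of_eq ?_)
  rw [hW]
  simp only [List.map_cons, List.prod_cons, List.map_append, List.prod_append]
  ring

end Pool.Agent.H46P
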