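import Pool.Agent.Lib.H46P.A1

/-!
# Chunk A5: linearity, congruence and products of word operators (any ring / algebra)

All by induction on `n` (generalizing the tensor).
-/

namespace Pool.Agent.H46P

open Finset
open scoped BigOperators ComplexConjugate

variable {κ : Type*} [Fintype κ] {R : Type*} [Ring R]

theorem opF_congr (A : κ → R) (n : ℕ) {F G : List κ → R}
    (h : ∀ I : List κ, I.length = n → F I = G I) : opF A n F = opF A n G := by
  induction n generalizing F G with
  | zero => exact h [] rfl
  | succ n ih =>
    rw [opF_succ, opF_succ]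
    refine Finset.sum_congr rfl fun k _ => ?_
    rw [ih fun I hI => h (k :: I) (by rw [List.length_cons, hI])]

theorem opF_add (A : κ → R) (n : ℕ) (F G : List κ → R) :
    opF A n (fun I => F I + G I) = opF A n F + opF A n G := by
  induction n generalizing F G with
  | zero => rfl
  | succ n ih =>
    simp only [opF_succ, ih, mul_add, Finset.sum_add_distrib]

theorem opF_sum {α : Type*} (s : Finset α) (A : κ → R) (n : ℕ) (F : α → List κ → R) :
    opF A n (fun I => ∑ i ∈ s, F i I) = ∑ i ∈ s, opF A n (F i) := by
  induction n generalizing F with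
  | zero => rfl
  | succ n ih =>
    simp only [opF_succ, ih, Finset.mul_sum]
    rw [Finset.sum_comm]

theorem opF_mul_right (A : κ → R) (n : ℕ) (F : List κ → R) (r : R) :
    opF A n (fun I => F I * r) = opF A n F * r := by
  induction n generalizing F with
  | zero => rfl
  | succ n ih =>
    simp only [opF_succ, ih, Finset.sum_mul, mul_assoc]

theorem opF_snoc (A : κ → R) (n : ℕ) (F : List κ → R) :
    opF A (n + 1) F = opF A n (fun I => ∑ k, A k * F (I ++ [k])) := by
  induction n generalizing F with
  | zero => rfl
  | succ n ih =>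
    rw [opF_succ, opF_succ]
    refine Finset.sum_congr rfl fun k _ => ?_
    rw [ih]
    rfl

theorem opF_opF (A : κ → R) (a b : ℕ) (F : List κ → R) :
    opF A (a + b) F = opF A a (fun I => opF A b (fun J => F (I ++ J))) := by
  induction a generalizing F with
  | zero =>
    rw [zero_add]
    rfl
  | succ a ih =>
    have h1 : a + 1 + b = a + b + 1 := by omega
    rw [h1, opF_succ, opF_succ]
    refine Finset.sum_congr rfl fun k _ => ?_
    rw [ih]
    rfl

variable [Algebra ℂ R]

theorem opF_smul (A : κ → R) (n : ℕ) (c : ℂ) (F : List κ → R) :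
    opF A n (fun I => c • F I) = c • opF A n F := by
  induction n generalizing F with
  | zero => rfl
  | succ n ih =>
    simp only [opF_succ, ih, mul_smul_comm, Finset.smul_sum]

theorem op_congr (A : κ → R) (n : ℕ) {T S : List κ → ℂ}
    (h : ∀ I : List κ, I.length = n → T I = S I) : op A n T = op A n S :=
  opF_congr A n fun I hI => by rw [h I hI]

theorem op_add (A : κ → R) (n : ℕ) (T S : List κ → ℂ) :
    op A n (fun I => T I + S I) = op A n T + op A n S := by
  unfold op
  rw [← opF_add]
  simp only [map_add]

theorem op_sum {α : Type*} (s : Finset α) (A : κ → R) (n : ℕ) (T : α → List κ → ℂ) :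
    op A n (fun I => ∑ i ∈ s, T i I) = ∑ i ∈ s, op A n (T i) := by
  unfold op
  rw [← opF_sum]
  simp only [map_sum]

theorem op_smul (A : κ → R) (n : ℕ) (c : ℂ) (T : List κ → ℂ) :
    op A n (fun I => c * T I) = c • op A n T := by
  unfold op
  rw [← opF_smul]
  simp only [map_mul, Algebra.smul_def]

theorem op_mul (A : κ → R) (a b : ℕ) (T S : List κ → ℂ) :
    op A a T * op A b S = op A (a + b) (fun L => T (L.take a) * S (L.drop a)) := by
  unfold op
  rw [← opF_mul_right, opF_opF]
  refine opF_congr A a fun I hI => ?_
  rw [← Algebra.smul_def, ← opF_smul]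
  refine opF_congr A b fun J _ => ?_
  show _ = algebraMap ℂ R (T ((I ++ J).take a) * S ((I ++ J).drop a))
  rw [List.take_left' hI, List.drop_left' hI, map_mul, Algebra.smul_def]

/-- Matrix product of word operators with two outer legs. -/
theorem op_mat (A : κ → R) (a b : ℕ) (T S : List κ → ℂ) (x z : κ) :
    ∑ y, op A a (fun I => T (x :: y :: I)) * op A b (fun I => S (y :: z :: I)) =
      op A (a + b) (fun L => ∑ y, T (x :: y :: L.take a) * S (y :: z :: L.drop a)) := by
  simp only [op_mul]
  rw [op_sum]

/-- A word operator with a substituted tensor. -/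
theorem op_sb (A : κ → R) (p a q : ℕ) (T S : List κ → ℂ) :
    op A (p + a + q) (sb p a T S) =
      opF A p (fun I => ∑ k, op A a (fun J => S (k :: J)) * op A q (fun J => T (I ++ k :: J))) := by
  unfold op
  rw [add_assoc, opF_opF]
  refine opF_congr A p fun I hI => ?_
  have h1 : ∀ k, opF A a (fun J => algebraMap ℂ R (S (k :: J))) *
      opF A q (fun J => algebraMap ℂ R (T (I ++ k :: J))) =
      op A (a + q) (fun L => S (k :: L.take a) * T (I ++ k :: L.drop a)) := fun k =>
    op_mul A a q (fun J => S (k :: J)) (fun J => T (I ++ k :: J))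
  simp only [h1]
  rw [← op_sum]
  unfold op
  refine opF_congr A (a + q) fun J _ => ?_
  congr 1
  unfold sb
  refine Finset.sum_congr rfl fun k _ => ?_
  rw [List.take_left' hI, List.drop_left' hI, ← List.drop_drop, List.drop_left' hI, mul_comm]

end Pool.Agent.H46P
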