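import Pool.Agent.Lib.H46P.A5

/-!
# Chunk A6: adjoints of word operators; the sum of `A_k^* A_k`

`adjoint_op`: induction on `n`, using `opF_snoc` for the right hand side:
`(∑ A_k op n T_k)^* = ∑ (op n T_k)^* A_{σ k}`.
`sum_sq`: `∑ ‖A k ψ‖^2 = ∑ re ⟪ψ, A (σ k) (A k ψ)⟫`; the two sums `∑ A (σ k) A k` and
`∑ A k A (σ k)` are equal (reindex by `σ`) and add up to `card κ • 1`.
`row_col`: `⟪φ, ∑ B_i (C_i ψ)⟫ = ∑ ⟪B_i^* φ, C_i ψ⟫` and Cauchy-Schwarz twice.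
-/

namespace Pool.Agent.H46P

open Finset
open scoped BigOperators ComplexConjugate InnerProductSpace

variable {κ : Type*} [Fintype κ] [DecidableEq κ]
  {E : Type*} [NormedAddCommGroup E] [InnerProductSpace ℂ E] [CompleteSpace E]

/-- conjugate reversed tensor -/
def dg {κ : Type*} (σ : κ → κ) (T : List κ → ℂ) : List κ → ℂ :=
  fun I => (starRingEnd ℂ) (T ((I.map σ).reverse))

theorem a6_reindex {κ : Type*} [Fintype κ] {β : Type*} [AddCommMonoid β] {σ : κ → κ}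
    (hσ : ∀ k, σ (σ k) = k) (f : κ → β) : ∑ k, f (σ k) = ∑ k, f k :=
  Equiv.sum_comp ⟨σ, σ, hσ, hσ⟩ f

theorem a6_sum_apply {ι : Type*} [Fintype ι] (B : ι → E →L[ℂ] E) (ψ : E) :
    (∑ i, B i) ψ = ∑ i, B i ψ := by
  simp

theorem adjoint_op {σ : κ → κ} {A : κ → E →L[ℂ] E} (hA : CAR σ A) (n : ℕ) (T : List κ → ℂ) :
    ContinuousLinearMap.adjoint (op A n T) = op A n (dg σ T) := by
  rw [← ContinuousLinearMap.star_eq_adjoint]
  induction n generalizing T with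
  | zero =>
    rw [op_zero, op_zero, ← algebraMap_star_comm]
    rfl
  | succ n ih =>
    have h1 : op A (n + 1) (dg σ T) = ∑ k, op A n (dg σ (fun I => T (σ k :: I))) * A k := by
      unfold op
      rw [opF_snoc, opF_sum]
      refine Finset.sum_congr rfl fun k _ => ?_
      rw [← opF_mul_right]
      refine opF_congr A n fun I _ => ?_
      rw [Algebra.commutes]
      congr 2
      unfold dg
      simp
    rw [h1, op_succ, star_sum]
    simp only [star_mul, ih]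
    rw [← a6_reindex hA.inv (fun k => op A n (dg σ fun I => T (k :: I)) * star (A k))]
    refine Finset.sum_congr rfl fun k _ => ?_
    simp only [ContinuousLinearMap.star_eq_adjoint, hA.adj, hA.inv]

theorem sum_sq {σ : κ → κ} {A : κ → E →L[ℂ] E} (hA : CAR σ A) (ψ : E) :
    ∑ k, ‖A k ψ‖ ^ 2 = Fintype.card κ / 2 * ‖ψ‖ ^ 2 := by
  have h1 : ∀ k, ‖A k ψ‖ ^ 2 = (inner ℂ ψ ((A (σ k) * A k) ψ)).re := by
    intro k
    rw [← hA.adj k]
    show _ = (inner ℂ ψ (ContinuousLinearMap.adjoint (A k) (A k ψ))).re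
    rw [ContinuousLinearMap.adjoint_inner_right, ← inner_self_eq_norm_sq (𝕜 := ℂ)]
    rfl
  have h2 : ∑ k, A (σ k) * A k = ∑ k, A k * A (σ k) := by
    rw [← a6_reindex hA.inv (fun k => A k * A (σ k))]
    refine Finset.sum_congr rfl fun k _ => ?_
    rw [hA.inv]
  have h3 : (∑ k, A (σ k) * A k) + ∑ k, A (σ k) * A k = (Fintype.card κ : ℂ) • 1 := by
    conv_lhs => enter [1]; rw [h2]
    rw [← Finset.sum_add_distrib]
    have h4 : ∀ k, A k * A (σ k) + A (σ k) * A k = 1 := fun k => by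
      rw [hA.car, if_pos rfl]
    simp only [h4]
    rw [Finset.sum_const, Finset.card_univ, ← Nat.cast_smul_eq_nsmul ℂ]
  have h4 : ∑ k, ‖A k ψ‖ ^ 2 = (inner ℂ ψ ((∑ k, A (σ k) * A k) ψ)).re := by
    simp only [h1]
    rw [a6_sum_apply, inner_sum, Complex.re_sum]
  have h5 : (inner ℂ ψ ((∑ k, A (σ k) * A k) ψ)).re + (inner ℂ ψ ((∑ k, A (σ k) * A k) ψ)).re =
      Fintype.card κ * ‖ψ‖ ^ 2 := by
    have h6 : (∑ k, A (σ k) * A k) ψ + (∑ k, A (σ k) * A k) ψ = (Fintype.card κ : ℂ) • ψ := by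
      have h7 := congrArg (fun B : E →L[ℂ] E => B ψ) h3
      exact h7
    have h7 : (inner ℂ ψ ψ : ℂ) = ((‖ψ‖ ^ 2 : ℝ) : ℂ) := by
      rw [inner_self_eq_norm_sq_to_K]
      norm_cast
    rw [← Complex.add_re, ← inner_add_right, h6, inner_smul_right, h7, ← Complex.ofReal_natCast,
      ← Complex.ofReal_mul, Complex.ofReal_re]
  rw [h4]
  linarith

theorem row_col {ι : Type*} [Fintype ι] (B C : ι → E →L[ℂ] E) {β γ : ℝ} (hβ : 0 ≤ β)
    (hγ : 0 ≤ γ) (hB : ∀ φ, ∑ i, ‖ContinuousLinearMap.adjoint (B i) φ‖ ^ 2 ≤ (β * ‖φ‖) ^ 2)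
    (hC : ∀ ψ, ∑ i, ‖C i ψ‖ ^ 2 ≤ (γ * ‖ψ‖) ^ 2) : ‖∑ i, B i * C i‖ ≤ β * γ := by
  refine ContinuousLinearMap.opNorm_le_bound _ (mul_nonneg hβ hγ) fun ψ => ?_
  set φ : E := (∑ i, B i * C i) ψ with hφ
  have h1 : ‖φ‖ ^ 2 ≤ β * ‖φ‖ * (γ * ‖ψ‖) := by
    have h2 : ‖φ‖ ^ 2 = ∑ i, (inner ℂ (ContinuousLinearMap.adjoint (B i) φ) (C i ψ)).re := by
      have h3 : φ = ∑ i, B i (C i ψ) := by
        rw [hφ, a6_sum_apply]
        rfl
      have h4 : (inner ℂ φ φ).re = ∑ i, (inner ℂ φ (B i (C i ψ))).re := by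
        conv_lhs => enter [1, 3]; rw [h3]
        rw [inner_sum, Complex.re_sum]
      rw [← inner_self_eq_norm_sq (𝕜 := ℂ)]
      refine h4.trans (Finset.sum_congr rfl fun i _ => ?_)
      rw [ContinuousLinearMap.adjoint_inner_left]
    rw [h2]
    calc ∑ i, (inner ℂ (ContinuousLinearMap.adjoint (B i) φ) (C i ψ)).re
        ≤ ∑ i, ‖ContinuousLinearMap.adjoint (B i) φ‖ * ‖C i ψ‖ := by
          refine Finset.sum_le_sum fun i _ => ?_
          exact (Complex.re_le_norm _).trans (norm_inner_le_norm _ _)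
      _ ≤ β * ‖φ‖ * (γ * ‖ψ‖) := by
          refine abs_le_of_sq_le_sq' ?_ (by positivity) |>.2
          calc (∑ i, ‖ContinuousLinearMap.adjoint (B i) φ‖ * ‖C i ψ‖) ^ 2
              ≤ (∑ i, ‖ContinuousLinearMap.adjoint (B i) φ‖ ^ 2) * ∑ i, ‖C i ψ‖ ^ 2 :=
                Finset.sum_mul_sq_le_sq_mul_sq _ _ _
            _ ≤ (β * ‖φ‖) ^ 2 * (γ * ‖ψ‖) ^ 2 :=
                mul_le_mul (hB φ) (hC ψ) (by positivity) (by positivity)
            _ = (β * ‖φ‖ * (γ * ‖ψ‖)) ^ 2 := by ring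
  rcases (norm_nonneg φ).eq_or_lt with h3 | h3
  · rw [← h3]
    positivity
  · have h4 : ‖φ‖ * ‖φ‖ ≤ ‖φ‖ * (β * γ * ‖ψ‖) := by
      calc ‖φ‖ * ‖φ‖ = ‖φ‖ ^ 2 := by ring
        _ ≤ _ := h1
        _ = ‖φ‖ * (β * γ * ‖ψ‖) := by ring
    exact le_of_mul_le_mul_left h4 h3

end Pool.Agent.H46P
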