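import Pool.Agent.Lib.H46P.A6

/-!
# Chunk A7: moving a letter through a word

Induction on `n` generalizing `T`.  Step: `A k * ∑ j, A j * op n T_j =
∑ j, ([j = σ k] - A j * A k) * op n T_j = op n T_{σ k} - ∑ j, A j * (A k * op n T_j)`, the induction
hypothesis, and `fx (l+1) (σ k) T (j :: I) = fx l (σ k) T_j I` (definition of `ins`);
`Finset.sum_range_succ'`.
-/

namespace Pool.Agent.H46P

open Finset
open scoped BigOperators ComplexConjugate InnerProductSpace

variable {κ : Type*} [Fintype κ] [DecidableEq κ]
  {E : Type*} [NormedAddCommGroup E] [InnerProductSpace ℂ E] [CompleteSpace E]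

theorem letter_op {σ : κ → κ} {A : κ → E →L[ℂ] E} (hA : CAR σ A) (k : κ) (n : ℕ)
    (T : List κ → ℂ) :
    A k * op A n T = (-1 : ℂ) ^ n • (op A n T * A k) +
      ∑ l ∈ range n, (-1 : ℂ) ^ l • op A (n - 1) (fx l (σ k) T) := by
  induction n generalizing T with
  | zero =>
    rw [op_zero, range_zero, sum_empty, add_zero, pow_zero, one_smul]
    exact (Algebra.commutes _ _).symm
  | succ n ih =>
    have h1 : ∀ j, A k * (A j * op A n (fun I => T (j :: I))) =
        (if j = σ k then op A n (fun I => T (j :: I)) else 0) -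
          A j * (A k * op A n (fun I => T (j :: I))) := by
      intro j
      have h2 : A k * A j = (if j = σ k then 1 else 0) - A j * A k :=
        eq_sub_of_add_eq (hA.car k j)
      rw [← mul_assoc, h2, sub_mul, mul_assoc]
      congr 1
      split_ifs
      · rw [one_mul]
      · rw [zero_mul]
    rw [op_succ, mul_sum, sum_congr rfl fun j _ => h1 j, sum_sub_distrib,
      sum_ite_eq' univ (σ k), if_pos (mem_univ _), sum_range_succ' (fun l => (-1 : ℂ) ^ l •
        op A (n + 1 - 1) (fx l (σ k) T)), Nat.add_sub_cancel]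
    have h3 : fx 0 (σ k) T = fun I => T (σ k :: I) := by
      funext I
      simp only [fx, ins_zero]
    have h4 : ∀ l ∈ range n, (-1 : ℂ) ^ (l + 1) • op A n (fx (l + 1) (σ k) T) =
        -((-1 : ℂ) ^ l • ∑ j, A j * op A (n - 1) (fx l (σ k) (fun I => T (j :: I)))) := by
      intro l hl
      have hn : n = (n - 1) + 1 := by
        have := mem_range.1 hl
        omega
      have h5 : op A n (fx (l + 1) (σ k) T) =
          ∑ j, A j * op A (n - 1) (fx l (σ k) (fun I => T (j :: I))) := by
        conv_lhs => rw [hn]
        rw [op_succ]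
        rfl
      rw [h5, pow_succ, mul_neg, mul_one, neg_smul]
    have h6 : ∑ j, A j * (A k * op A n (fun I => T (j :: I))) =
        (-1 : ℂ) ^ n • ((∑ j, A j * op A n (fun I => T (j :: I))) * A k) +
        ∑ l ∈ range n, (-1 : ℂ) ^ l •
          ∑ j, A j * op A (n - 1) (fx l (σ k) (fun I => T (j :: I))) := by
      rw [sum_congr rfl fun j _ => by rw [ih (fun I => T (j :: I)), mul_add], sum_add_distrib]
      congr 1
      · rw [sum_mul, smul_sum]
        refine sum_congr rfl fun j _ => ?_
        rw [mul_smul_comm, mul_assoc]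
      · simp_rw [mul_sum, smul_sum]
        rw [sum_comm]
        refine sum_congr rfl fun l _ => sum_congr rfl fun j _ => ?_
        rw [mul_smul_comm]
    rw [h6, sum_congr rfl h4, sum_neg_distrib, pow_zero, one_smul, h3, pow_succ, mul_neg, mul_one,
      neg_smul]
    abel

end Pool.Agent.H46P
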