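import Pool.Agent.Lib.H46P.A4
import Pool.Agent.Lib.H46P.A7

/-!
# Chunk A8: the base case of the shuffle lemma

`pd_adj`: the adjoint of `op A d T_x` is `op A d (dg σ T_x)` (`adjoint_op`); apply `Pd` to
`T' (x :: I) = dg σ (fun J => T (x :: J)) I`; `Inj (d+1) T' c`: by `inj_succ_iff`: for a vector `x`,
`∑ x_k conj (T (k :: (I.map σ).reverse)) = conj (∑ conj x_k T (k :: ...))`, and `inj_conj`, `inj_map`,
`inj_reverse`, `nrm_conj`.
`shuffle0`: `row_col` with `pd_adj` (for `S`, `b`) and `Pd` (for `T`, `a`).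
-/

namespace Pool.Agent.H46P

open Finset
open scoped BigOperators ComplexConjugate InnerProductSpace

variable {κ : Type*} [Fintype κ] [DecidableEq κ]
  {E : Type*} [NormedAddCommGroup E] [InnerProductSpace ℂ E] [CompleteSpace E]

theorem inj_dg {σ : κ → κ} (hσ : ∀ k, σ (σ k) = k) {n : ℕ} {T : List κ → ℂ} {c : ℝ}
    (hT : Inj n T c) : Inj n (dg σ T) c :=
  inj_conj (inj_map hσ (inj_reverse hT))

theorem pd_adj {σ : κ → κ} {A : κ → E →L[ℂ] E} (hA : CAR σ A) {g : ℝ} {d : ℕ} (hP : Pd A g d)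
    {T : List κ → ℂ} {c : ℝ} (hc : 0 ≤ c) (hT : Inj (d + 1) T c) (ψ : E) :
    ∑ x, ‖ContinuousLinearMap.adjoint (op A d (fun I => T (x :: I))) ψ‖ ^ 2 ≤
      (gam κ g ^ d * c * ‖ψ‖) ^ 2 := by
  have hT' : Inj (d + 1) (fun L => match L with
      | [] => 0
      | x :: I => dg σ (fun J => T (x :: J)) I) c := by
    rw [inj_succ_iff] at hT ⊢
    intro x
    have h1 := inj_dg hA.inv (hT fun k => conj (x k))
    rw [nrm_conj] at h1
    refine inj_congr (fun I _ => ?_) h1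
    unfold dg
    simp [map_sum, map_mul]
  have h2 := hP _ c hc hT' ψ
  refine le_trans (le_of_eq ?_) h2
  refine Finset.sum_congr rfl fun x _ => ?_
  rw [adjoint_op hA]

theorem shuffle0 {σ : κ → κ} {A : κ → E →L[ℂ] E} (hA : CAR σ A) {g : ℝ} {a b : ℕ}
    (ha : Pd A g a) (hb : Pd A g b) {T S : List κ → ℂ} {c c' : ℝ} (hc : 0 ≤ c) (hc' : 0 ≤ c')
    (hT : Inj (a + 1) T c) (hS : Inj (b + 1) S c') :
    ‖∑ x, op A b (fun J => S (x :: J)) * op A a (fun I => T (x :: I))‖ ≤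
      gam κ g ^ (a + b) * (c * c') := by
  have hg : 0 ≤ gam κ g := Real.sqrt_nonneg _
  refine (row_col (fun x => op A b (fun J => S (x :: J))) (fun x => op A a (fun I => T (x :: I)))
    (β := gam κ g ^ b * c') (γ := gam κ g ^ a * c) (by positivity) (by positivity)
    (fun φ => pd_adj hA hb hc' hS φ) (fun ψ => ha T c hc hT ψ)).trans (le_of_eq ?_)
  rw [pow_add]
  ring

end Pool.Agent.H46P
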