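import Pool.Agent.Lib.H46P.A8

/-!
# Chunk A9: the shuffle lemma (Lemma 1 of `PROOF.md`)

Induction on `p`, generalizing `b q T S`.  `p = 0`: `shuffle0` (`opF A 0 F = F []`).
Step `p + 1`: by `opF_snoc` the sum is
`∑ x, opF A p (fun I => ∑ k, A k * (op A b S_x * op A q (fun J => T (x :: (I ++ [k] ++ J)))))`; replace
`A k * op A b S_x` by `letter_op`: first term: `(-1)^b • Sh p b (q+1)` (`op_succ` backwards);
the others: for each `l < b` and each `k` the operator
`(-1)^l • ∑ x, opF A p (fun I => op A (b-1) (fun J => S' (x :: J)) * op A q (fun J => T' (x :: (I ++ J))))`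
with `S' = fx (l+1) (σ k) S`, `T' = fx (p+1) k T` (`T' (x :: (I ++ J)) = T (x :: (I ++ k :: J))` if
`I.length = p`, by `ins_append`; use `opF_congr`), `Inj` by `inj_fx`.  Induction hypothesis with
`b - 1`: at most `(1 + b/g)^p * gam^(p+q+b-1) * c c'`; there are `b * card κ` such terms and
`card κ * gam^(p+q+b-1) = gam^(p+1+q+b) / g` (`gam^2 = g * card κ`).  Total
`(1+b/g)^p * gam^(p+1+q+b) * (1 + b/g)`.
If `card κ = 0` everything is `0`.
-/

namespace Pool.Agent.H46P

open Finset
open scoped BigOperators ComplexConjugate InnerProductSpace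

variable {κ : Type*} [Fintype κ] [DecidableEq κ]
  {E : Type*} [NormedAddCommGroup E] [InnerProductSpace ℂ E] [CompleteSpace E]

/-- the shuffled operator -/
noncomputable def Sh (A : κ → E →L[ℂ] E) (p q b : ℕ) (T S : List κ → ℂ) : E →L[ℂ] E :=
  ∑ x, opF A p (fun I => op A b (fun J => S (x :: J)) * op A q (fun J => T (x :: (I ++ J))))

theorem sh_succ {σ : κ → κ} {A : κ → E →L[ℂ] E} (hA : CAR σ A) (p q b : ℕ) (T S : List κ → ℂ) :
    Sh A (p + 1) q b T S = (-1 : ℂ) ^ b • Sh A p (q + 1) b T S +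
      ∑ k, ∑ l ∈ range b, (-1 : ℂ) ^ l • Sh A p q (b - 1) (fx (p + 1) k T) (fx (l + 1) (σ k) S) := by
  unfold Sh
  have h1 : ∀ x, opF A (p + 1) (fun I => op A b (fun J => S (x :: J)) * op A q (fun J => T (x :: (I ++ J)))) =
      (-1 : ℂ) ^ b • opF A p (fun I => op A b (fun J => S (x :: J)) * op A (q + 1) (fun J => T (x :: (I ++ J)))) +
      ∑ k, ∑ l ∈ range b, (-1 : ℂ) ^ l • opF A p (fun I => op A (b - 1) (fun J => fx (l + 1) (σ k) S (x :: J)) *
        op A q (fun J => fx (p + 1) k T (x :: (I ++ J)))) := by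
    intro x
    rw [opF_snoc]
    have h2 : ∀ I : List κ, I.length = p →
        ∑ k, A k * (op A b (fun J => S (x :: J)) * op A q (fun J => T (x :: (I ++ [k] ++ J)))) =
        (-1 : ℂ) ^ b • (op A b (fun J => S (x :: J)) * op A (q + 1) (fun J => T (x :: (I ++ J)))) +
        ∑ k, ∑ l ∈ range b, (-1 : ℂ) ^ l • (op A (b - 1) (fun J => fx (l + 1) (σ k) S (x :: J)) *
          op A q (fun J => fx (p + 1) k T (x :: (I ++ J)))) := by
      intro I hI
      have e1 : ∀ k, (fun J => fx (p + 1) k T (x :: (I ++ J))) = fun J => T (x :: (I ++ [k] ++ J)) := by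
        intro k
        funext J
        change T (x :: ins p k (I ++ J)) = _
        rw [← hI, ins_append]
        simp
      rw [op_succ, Finset.mul_sum, Finset.smul_sum, ← Finset.sum_add_distrib]
      refine Finset.sum_congr rfl fun k _ => ?_
      have e2 : (fun J => T (x :: (I ++ k :: J))) = fun J => T (x :: (I ++ [k] ++ J)) := by
        funext J
        simp
      rw [e1 k, ← mul_assoc (A k), letter_op hA, add_mul, Finset.sum_mul]
      congr 1
      rw [smul_mul_assoc, mul_assoc, e2]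
    rw [opF_congr A p h2, opF_add, opF_smul, opF_sum]
    congr 1
    refine Finset.sum_congr rfl fun k _ => ?_
    rw [opF_sum]
    refine Finset.sum_congr rfl fun l _ => ?_
    rw [opF_smul]
  rw [Finset.sum_congr rfl fun x _ => h1 x, Finset.sum_add_distrib, Finset.smul_sum]
  congr 1
  rw [Finset.sum_comm]
  refine Finset.sum_congr rfl fun k _ => ?_
  rw [Finset.sum_comm]
  refine Finset.sum_congr rfl fun l _ => ?_
  rw [Finset.smul_sum]

theorem gam_sq {g : ℝ} (hg : 1 ≤ g) : gam κ g ^ 2 = g * Fintype.card κ := by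
  rw [gam, Real.sq_sqrt]
  positivity

theorem neg_pow_smul (b : ℕ) (X : E →L[ℂ] E) : ‖(-1 : ℂ) ^ b • X‖ = ‖X‖ := by
  rw [norm_smul, norm_pow, norm_neg, norm_one, one_pow, one_mul]

theorem shuffle {σ : κ → κ} {A : κ → E →L[ℂ] E} (hA : CAR σ A) {g : ℝ} (hg : 1 ≤ g)
    (p q b : ℕ) (hP : ∀ d, d ≤ p + q ∨ d ≤ b → Pd A g d) {T S : List κ → ℂ} {c c' : ℝ}
    (hc : 0 ≤ c) (hc' : 0 ≤ c') (hT : Inj (p + q + 1) T c) (hS : Inj (b + 1) S c') :
    ‖Sh A p q b T S‖ ≤ (1 + b / g) ^ p * gam κ g ^ (p + q + b) * (c * c') := by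
  have hgam : 0 ≤ gam κ g := Real.sqrt_nonneg _
  have hg0 : 0 < g := by linarith
  induction p generalizing q b T S with
  | zero =>
    rw [pow_zero, one_mul, zero_add]
    rw [zero_add] at hT
    exact shuffle0 hA (hP q (Or.inl (by omega))) (hP b (Or.inr le_rfl)) hc hc' hT hS
  | succ p ih =>
    rw [sh_succ hA]
    have h1 : ‖(-1 : ℂ) ^ b • Sh A p (q + 1) b T S‖ ≤ (1 + b / g) ^ p * gam κ g ^ (p + (q + 1) + b) * (c * c') := by
      rw [neg_pow_smul]
      refine ih (q + 1) b (fun d hd => hP d ?_) ?_ hS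
      · rcases hd with hd | hd
        · left; omega
        · right; exact hd
      · have e : p + (q + 1) + 1 = p + 1 + q + 1 := by omega
        rw [e]
        exact hT
    have h2 : ∀ k : κ, ∀ l ∈ range b,
        ‖(-1 : ℂ) ^ l • Sh A p q (b - 1) (fx (p + 1) k T) (fx (l + 1) (σ k) S)‖ ≤
          (1 + b / g) ^ p * gam κ g ^ (p + q + (b - 1)) * (c * c') := by
      intro k l hl
      have hl' : l < b := Finset.mem_range.1 hl
      rw [neg_pow_smul]
      refine (ih q (b - 1) (fun d hd => hP d ?_) ?_ ?_).trans ?_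
      · rcases hd with hd | hd
        · left; omega
        · right; omega
      · have e : p + 1 + q + 1 = p + q + 1 + 1 := by omega
        rw [e] at hT
        exact inj_fx (by omega) hT k
      · have e : b - 1 + 1 = b := by omega
        rw [e]
        exact inj_fx (by omega) hS (σ k)
      · have h3 : (((b - 1 : ℕ) : ℝ)) ≤ b := by exact_mod_cast Nat.sub_le b 1
        gcongr
    have h4 : ‖∑ k, ∑ l ∈ range b, (-1 : ℂ) ^ l • Sh A p q (b - 1) (fx (p + 1) k T) (fx (l + 1) (σ k) S)‖ ≤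
        Fintype.card κ * (b * ((1 + b / g) ^ p * gam κ g ^ (p + q + (b - 1)) * (c * c'))) := by
      refine (norm_sum_le_of_le _ fun k _ => norm_sum_le_of_le _ (h2 k)).trans ?_
      rw [Finset.sum_const, Finset.sum_const, Finset.card_range, Finset.card_univ, nsmul_eq_mul, nsmul_eq_mul]
    refine (norm_add_le _ _).trans ((add_le_add h1 h4).trans (le_of_eq ?_))
    rcases Nat.eq_zero_or_pos b with rfl | hb
    · have e : p + (q + 1) + 0 = p + 1 + q + 0 := by omega
      rw [e, pow_succ]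
      push_cast
      ring
    · obtain ⟨b', rfl⟩ : ∃ b', b = b' + 1 := ⟨b - 1, by omega⟩
      have e1 : p + (q + 1) + (b' + 1) = p + q + b' + 2 := by omega
      have e2 : p + 1 + q + (b' + 1) = p + q + b' + 2 := by omega
      rw [Nat.add_sub_cancel, e1, e2, pow_add _ _ 2, gam_sq hg, pow_succ _ p]
      field_simp

end Pool.Agent.H46P
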