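import Pool.Agent.Lib.H46P.Defs

/-!
# Part B: definitions for the almost commuting Bessel theorem

`F : (ι → ℕ) → E` is the family of coefficients of an `E`-valued polynomial on `ℂ^ι`; only the
values on `St ι n = {α | ∑ α i = n}` matter in degree `n`.
-/

namespace Pool.Agent.H46P

open Finset
open scoped BigOperators ComplexConjugate InnerProductSpace

variable {ι : Type*} [Fintype ι] [DecidableEq ι]
  {E : Type*} [NormedAddCommGroup E] [InnerProductSpace ℂ E]

/-- multi-indices of degree `n` -/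
def St (ι : Type*) [Fintype ι] [DecidableEq ι] (n : ℕ) : Finset (ι → ℕ) := Finset.piAntidiag univ n

theorem mem_St {n : ℕ} {α : ι → ℕ} : α ∈ St ι n ↔ ∑ i, α i = n := by
  simp [St, Finset.mem_piAntidiag]

/-- `α!` -/
def fa (α : ι → ℕ) : ℕ := ∏ i, (α i).factorial

/-- value of the polynomial at `z` (degree `n` part) -/
noncomputable def pv (n : ℕ) (F : (ι → ℕ) → E) (z : ι → ℂ) : E :=
  ∑ α ∈ St ι n, (∏ i, z i ^ α i) • F α

/-- inner product in degree `n` -/
noncomputable def ip (n : ℕ) (F G : (ι → ℕ) → E) : ℂ :=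
  ∑ α ∈ St ι n, (fa α : ℂ) * ⟪F α, G α⟫_ℂ

/-- square of the norm in degree `n` -/
noncomputable def nq (n : ℕ) (F : (ι → ℕ) → E) : ℝ :=
  ∑ α ∈ St ι n, (fa α : ℝ) * ‖F α‖ ^ 2

/-- multiplication by `z_j` -/
def sh (j : ι) (F : (ι → ℕ) → E) : (ι → ℕ) → E := fun β =>
  if 1 ≤ β j then F (Function.update β j (β j - 1)) else 0

/-- derivative `d/dz_j` -/
noncomputable def dr (j : ι) (F : (ι → ℕ) → E) : (ι → ℕ) → E := fun α =>
  ((α j : ℂ) + 1) • F (Function.update α j (α j + 1))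

/-- `∑_j z_j W_j` -/
noncomputable def vv (W : ι → E →L[ℂ] E) (F : (ι → ℕ) → E) : (ι → ℕ) → E := fun β =>
  ∑ j, sh j (fun α => W j (F α)) β

/-- `W_z = ∑_j z_j W_j` -/
noncomputable def wz (W : ι → E →L[ℂ] E) (z : ι → ℂ) : E →L[ℂ] E := ∑ j, z j • W j

end Pool.Agent.H46P
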