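import Pool.Agent.Lib.H46P.B0

/-!
# Chunk B1: exponential product measure

`μ = Measure.pi (fun _ => μ₁)`, `μ₁ = (volume.restrict (Ioi 0)).withDensity (ENNReal.ofReal (exp (-t)))`
(or `ProbabilityTheory.expMeasure 1`).  One dimensional moments: `∫ t in Ioi 0, t^k * exp (-t) = k!`
(`Real.Gamma_eq_integral`, `Real.Gamma_nat_eq_factorial`, `Real.GammaIntegral_convergent`); products:
`MeasureTheory.integral_fintype_prod_eq_prod`, `MeasureTheory.Integrable.fintype_prod`.
-/

namespace Pool.Agent.H46P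

open Finset MeasureTheory
open scoped BigOperators ComplexConjugate InnerProductSpace

/-- the exponential distribution -/
noncomputable def B1_mu : Measure ℝ :=
  (volume.restrict (Set.Ioi (0 : ℝ))).withDensity (fun t => ENNReal.ofReal (Real.exp (-t)))

theorem B1_meas : Measurable (fun t : ℝ => ENNReal.ofReal (Real.exp (-t))) := by
  fun_prop

theorem B1_int (k : ℕ) :
    Integrable (fun t : ℝ => t ^ k) B1_mu ∧ ∫ t, t ^ k ∂B1_mu = (k.factorial : ℝ) := by
  have h1 := Real.GammaIntegral_convergent (s := (k : ℝ) + 1) (by positivity)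
  have h2 : ∀ t : ℝ, (ENNReal.ofReal (Real.exp (-t))).toReal • t ^ k =
      Real.exp (-t) * t ^ ((k : ℝ) + 1 - 1) := by
    intro t
    rw [ENNReal.toReal_ofReal (Real.exp_pos _).le, smul_eq_mul, add_sub_cancel_right,
      Real.rpow_natCast]
  have h3 : ∀ᵐ t : ℝ ∂(volume.restrict (Set.Ioi (0 : ℝ))),
      ENNReal.ofReal (Real.exp (-t)) < ⊤ := Filter.Eventually.of_forall fun t => ENNReal.ofReal_lt_top
  constructor
  · unfold B1_mu
    rw [integrable_withDensity_iff_integrable_smul' B1_meas h3]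
    simp_rw [h2]
    exact h1
  · unfold B1_mu
    rw [integral_withDensity_eq_integral_toReal_smul B1_meas h3]
    simp_rw [h2]
    rw [← Real.Gamma_eq_integral (by positivity), Real.Gamma_nat_eq_factorial]

theorem B1_prob : IsProbabilityMeasure B1_mu := by
  have h1 := (B1_int 0)
  have h2 : (Integrable (fun t : ℝ => Real.exp (-t)) (volume.restrict (Set.Ioi (0 : ℝ)))) := by
    have h3 := Real.GammaIntegral_convergent (s := 1) one_pos
    have h4 : IntegrableOn (fun t : ℝ => Real.exp (-t)) (Set.Ioi 0) volume := by simpa using h3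
    exact h4
  refine ⟨?_⟩
  unfold B1_mu
  rw [withDensity_apply _ MeasurableSet.univ, Measure.restrict_univ,
    ← ofReal_integral_eq_lintegral_ofReal h2 (Filter.Eventually.of_forall fun t => (Real.exp_pos _).le)]
  have h4 : ∫ t in Set.Ioi (0 : ℝ), Real.exp (-t) = 1 := by
    have h5 := Real.Gamma_eq_integral (s := 1) one_pos
    rw [Real.Gamma_one] at h5
    simpa using h5.symm
  rw [h4, ENNReal.ofReal_one]

theorem B1_nonneg : ∀ᵐ t ∂B1_mu, 0 ≤ t := by
  unfold B1_mu
  refine (withDensity_absolutelyContinuous _ _).ae_le ?_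
  refine (ae_restrict_iff' measurableSet_Ioi).2 (Filter.Eventually.of_forall fun t ht => ?_)
  exact (Set.mem_Ioi.1 ht).le

theorem exp_measure (ι : Type*) [Fintype ι] [DecidableEq ι] :
    ∃ μ : Measure (ι → ℝ), IsProbabilityMeasure μ ∧ (∀ᵐ t ∂μ, ∀ i, 0 ≤ t i) ∧
      ∀ α : ι → ℕ, Integrable (fun t => ∏ i, t i ^ α i) μ ∧ ∫ t, ∏ i, t i ^ α i ∂μ = fa α := by
  have := B1_prob
  refine ⟨Measure.pi (fun _ => B1_mu), inferInstance, ?_, fun α => ⟨?_, ?_⟩⟩
  · refine (ae_all_iff).2 fun i => ?_
    exact (Measure.tendsto_eval_ae_ae (μ := fun _ : ι => B1_mu) (i := i)).eventually B1_nonneg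
  · exact Integrable.fintype_prod (f := fun (i : ι) (t : ℝ) => t ^ α i) (fun i => (B1_int (α i)).1)
  · rw [integral_fintype_prod_eq_prod (fun (i : ι) (t : ℝ) => t ^ α i)]
    unfold fa
    push_cast
    exact prod_congr rfl fun i _ => (B1_int (α i)).2

end Pool.Agent.H46P
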