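import Mathlib

/-!
# Chunk B9: the numerical recursion

`Y n = X n / (n+1)`, `Y 0 = s`. Suppose `4 f^2 < s`. `Y M ≤ f^2 2M/(M+1) < s/2`; let `N ≤ M` be the first
index with `Y N < s/2`, `N ≥ 1` (`s > 0`). For `n < N`: `X n ≥ (n+1) s/2 > 0` and, as `n ≤ M`,
`2 √(s M) c √(n+M) / √(X n) ≤ 4 c M / √(n+1)`, so
`Y (n+1) ≥ Y n - (4 c M/√(n+1) + c (n+1+2M))/(n+2)`. Sum over `n < N`:
`s/2 < ∑_{m=1}^{M} (4 c M/√m + c (m+2M))/(m+1) ≤ c M (8 + 1 + 2 log (M+1))`, using
`1/(√m (m+1)) ≤ 2 (1/√m - 1/√(m+1))` and `1/(m+1) ≤ log (m+1) - log m` (`Real.log_le_sub_one_of_pos`);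
`log (M+1) ≤ log M + log 2` and `log 2 < 1`. Finally `2 (9 + 2 + 2 log M) ≤ 6 (5 + log M)`.
-/

namespace Pool.Agent.H46P

open Finset
open scoped BigOperators

noncomputable def b9_B (M : ℕ) (c : ℝ) (n : ℕ) : ℝ :=
  8 * c * M * (1 - 1 / √((n : ℝ) + 1)) + c * n + 2 * M * c * Real.log ((n : ℝ) + 1)

theorem b9_sqrt (n : ℕ) : 1 / (√((n : ℝ) + 1) * ((n : ℝ) + 2)) ≤
    2 * (1 / √((n : ℝ) + 1) - 1 / √((n : ℝ) + 2)) := by
  set a := √((n : ℝ) + 1) with ha
  set b := √((n : ℝ) + 2) with hb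
  have ha0 : 0 < a := Real.sqrt_pos.2 (by positivity)
  have hb0 : 0 < b := Real.sqrt_pos.2 (by positivity)
  have ha2 : a ^ 2 = n + 1 := Real.sq_sqrt (by positivity)
  have hb2 : b ^ 2 = n + 2 := Real.sq_sqrt (by positivity)
  have hab : a ≤ b := Real.sqrt_le_sqrt (by linarith)
  rw [← hb2]
  have e : 2 * (1 / a - 1 / b) = 2 / (a * b * (a + b)) := by
    have : (b - a) * (a + b) = 1 := by nlinarith
    rw [div_sub_div _ _ ha0.ne' hb0.ne', mul_div_assoc', div_eq_div_iff (by positivity)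
      (by positivity)]
    linear_combination 2 * a * b * this
  rw [e, div_le_div_iff₀ (by positivity) (by positivity)]
  have : 0 < a * b := by positivity
  nlinarith

theorem b9_log (n : ℕ) : 1 / ((n : ℝ) + 2) ≤ Real.log ((n : ℝ) + 2) - Real.log ((n : ℝ) + 1) := by
  have h := Real.log_le_sub_one_of_pos (x := ((n : ℝ) + 1) / ((n : ℝ) + 2)) (by positivity)
  rw [Real.log_div (by positivity) (by positivity)] at h
  have e : ((n : ℝ) + 1) / ((n : ℝ) + 2) - 1 = - (1 / ((n : ℝ) + 2)) := by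
    field_simp
    ring
  linarith

theorem b9_Bstep (M : ℕ) (c : ℝ) (hc : 0 ≤ c) (n : ℕ) :
    b9_B M c n + (4 * c * M / √((n : ℝ) + 1) + c * (n + 1 + 2 * M)) / ((n : ℝ) + 2) ≤
      b9_B M c (n + 1) := by
  unfold b9_B
  push_cast
  have e1 : (n : ℝ) + 1 + 1 = n + 2 := by ring
  rw [e1]
  have h1 := b9_sqrt n
  have h2 := b9_log n
  have h3 : ((n : ℝ) + 1) / ((n : ℝ) + 2) ≤ 1 := by
    rw [div_le_one (by positivity)]; linarith
  have hM : (0 : ℝ) ≤ M := Nat.cast_nonneg M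
  have k1 := mul_le_mul_of_nonneg_left h1 (by positivity : (0 : ℝ) ≤ 4 * c * M)
  have k2 := mul_le_mul_of_nonneg_left h2 (by positivity : (0 : ℝ) ≤ 2 * M * c)
  have k3 := mul_le_mul_of_nonneg_left h3 hc
  have hs : 0 < √((n : ℝ) + 1) := Real.sqrt_pos.2 (by positivity)
  have e2 : (4 * c * M / √((n : ℝ) + 1) + c * (n + 1 + 2 * M)) / ((n : ℝ) + 2) =
      4 * c * M * (1 / (√((n : ℝ) + 1) * ((n : ℝ) + 2))) + c * (((n : ℝ) + 1) / ((n : ℝ) + 2)) +
      2 * M * c * (1 / ((n : ℝ) + 2)) := by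
    field_simp
    ring
  rw [e2]
  linarith

theorem b9_term (M : ℕ) (s c x : ℝ) (hs : 0 < s) (hc : 0 ≤ c) (n : ℕ) (hn : n ≤ M)
    (hx : (n + 1) * (s / 2) ≤ x) :
    2 * √(s * M) * c * √(n + M) / √x ≤ 4 * c * M / √((n : ℝ) + 1) := by
  have hn1 : (0 : ℝ) < (n : ℝ) + 1 := by positivity
  have hx0 : 0 < x := lt_of_lt_of_le (by positivity) hx
  have hsn : 0 < √((n : ℝ) + 1) := Real.sqrt_pos.2 hn1
  have hsx : 0 < √x := Real.sqrt_pos.2 hx0
  have hnM : (n : ℝ) ≤ M := by exact_mod_cast hn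
  rw [div_le_div_iff₀ hsx hsn]
  have key : √(s * M) * √(n + M) * √((n : ℝ) + 1) ≤ 2 * M * √x := by
    rw [← Real.sqrt_mul (by positivity), ← Real.sqrt_mul (by positivity)]
    have e : 2 * (M : ℝ) * √x = √((2 * M) ^ 2 * x) := by
      rw [Real.sqrt_mul (by positivity), Real.sqrt_sq (by positivity)]
    rw [e]
    apply Real.sqrt_le_sqrt
    have hM : (0 : ℝ) ≤ M := Nat.cast_nonneg M
    calc s * M * (n + M) * ((n : ℝ) + 1) ≤ s * M * (M + M) * ((n : ℝ) + 1) := by gcongr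
      _ = (2 * M) ^ 2 * ((n + 1) * (s / 2)) := by ring
      _ ≤ (2 * M) ^ 2 * x := by gcongr
  calc 2 * √(s * M) * c * √(n + M) * √((n : ℝ) + 1)
      = 2 * c * (√(s * M) * √(n + M) * √((n : ℝ) + 1)) := by ring
    _ ≤ 2 * c * (2 * M * √x) := by gcongr
    _ = 4 * c * M * √x := by ring

theorem bessel_rec (M : ℕ) (hM : 1 ≤ M) (s c f : ℝ) (hs : 0 ≤ s) (hc : 0 ≤ c) (X : ℕ → ℝ)
    (hX0 : X 0 = s) (hXf : ∀ n, X n ≤ f ^ 2 * (n + M))
    (hX : ∀ n, 0 < X n → (1 + 1 / ((n : ℝ) + 1)) * X n -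
      2 * √(s * M) * c * √(n + M) / √(X n) - c * (n + 1 + 2 * M) ≤ X (n + 1)) :
    s ≤ max (4 * f ^ 2) (6 * M * c * (5 + Real.log M)) := by
  by_cases hsf : s ≤ 4 * f ^ 2
  · exact le_max_of_le_left hsf
  push Not at hsf
  refine le_max_of_le_right ?_
  have hs0 : 0 < s := lt_of_le_of_lt (by positivity) hsf
  have hM0 : (0 : ℝ) < M := by exact_mod_cast hM
  have hex : ∃ n, X n / ((n : ℝ) + 1) < s / 2 := by
    refine ⟨M, ?_⟩
    rw [div_lt_iff₀ (by positivity)]
    have := hXf M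
    nlinarith
  classical
  set N := Nat.find hex with hN
  have hNs : X N / ((N : ℝ) + 1) < s / 2 := Nat.find_spec hex
  have hNM : N ≤ M := by
    apply Nat.find_min'
    rw [div_lt_iff₀ (by positivity)]
    have := hXf M
    nlinarith
  have hlow : ∀ n, n < N → s / 2 ≤ X n / ((n : ℝ) + 1) := fun n hn => by
    have := Nat.find_min hex hn
    linarith
  have hind : ∀ n, n ≤ N → s - b9_B M c n ≤ X n / ((n : ℝ) + 1) := by
    intro n
    induction n with
    | zero =>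
      intro _
      simp [b9_B, hX0]
    | succ n ih =>
      intro hn
      have h1 := ih (by omega)
      have h2 := hlow n (by omega)
      have hn1 : (0 : ℝ) < (n : ℝ) + 1 := by positivity
      have hn2 : (0 : ℝ) < (n : ℝ) + 2 := by positivity
      have h3 : ((n : ℝ) + 1) * (s / 2) ≤ X n := by
        rw [le_div_iff₀ hn1] at h2
        linarith
      have hx0 : 0 < X n := lt_of_lt_of_le (by positivity) h3
      have h4 := hX n hx0
      have h5 := b9_term M s c (X n) hs0 hc n (by omega) h3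
      have h6 := b9_Bstep M c hc n
      push_cast
      have e1 : (n : ℝ) + 1 + 1 = n + 2 := by ring
      rw [e1, le_div_iff₀ hn2]
      rw [← sub_nonneg] at h6
      have h7 := mul_nonneg h6 hn2.le
      have e2 : (1 + 1 / ((n : ℝ) + 1)) * X n = X n / ((n : ℝ) + 1) * ((n : ℝ) + 2) := by
        field_simp
        ring
      have e3 : (b9_B M c (n + 1) - (b9_B M c n +
          (4 * c * M / √((n : ℝ) + 1) + c * (n + 1 + 2 * M)) / ((n : ℝ) + 2))) * ((n : ℝ) + 2) =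
          (b9_B M c (n + 1) - b9_B M c n) * ((n : ℝ) + 2) -
          (4 * c * M / √((n : ℝ) + 1) + c * (n + 1 + 2 * M)) := by
        rw [← sub_sub, sub_mul, div_mul_cancel₀ _ hn2.ne']
      rw [e3] at h7
      have h8 := mul_le_mul_of_nonneg_right h1 hn2.le
      rw [e2] at h4
      nlinarith
  have hf := hind N le_rfl
  have hB : b9_B M c N ≤ 9 * c * M + 2 * M * c * (Real.log M + 1) := by
    unfold b9_B
    have hN' : (N : ℝ) ≤ M := by exact_mod_cast hNM
    have g1 : 1 - 1 / √((N : ℝ) + 1) ≤ 1 := by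
      have : 0 ≤ 1 / √((N : ℝ) + 1) := by positivity
      linarith
    have g2 : Real.log ((N : ℝ) + 1) ≤ Real.log M + 1 := by
      have hM1 : (1 : ℝ) ≤ M := by exact_mod_cast hM
      calc Real.log ((N : ℝ) + 1) ≤ Real.log (2 * M) :=
            Real.log_le_log (by positivity) (by linarith)
        _ = Real.log 2 + Real.log M := Real.log_mul (by norm_num) hM0.ne'
        _ ≤ Real.log M + 1 := by
          have := Real.log_two_lt_d9
          linarith
    have k1 := mul_le_mul_of_nonneg_left g1 (by positivity : (0 : ℝ) ≤ 8 * c * M)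
    have k2 := mul_le_mul_of_nonneg_left g2 (by positivity : (0 : ℝ) ≤ 2 * M * c)
    have k3 := mul_le_mul_of_nonneg_left hN' hc
    linarith
  have hlog : 0 ≤ Real.log M := Real.log_nonneg (by exact_mod_cast hM)
  have hcM : 0 ≤ c * M := by positivity
  have : 0 ≤ c * M * Real.log M := by positivity
  nlinarith

end Pool.Agent.H46P
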