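import Pool.Agent.Lib.H46P.B8
import Pool.Agent.Lib.H46P.B9

/-!
# Chunk B10: the almost commuting Bessel theorem

If `E` is trivial there is nothing to prove. Choose `Θ n` by `exists_top`, `X n = nq (n+1) (vv W (Θ n))`.
`X 0 = ‖KK W‖`: `nq 1 (vv W F) = ∑ ‖W_i (F 0)‖^2 = re ⟪F 0, K (F 0)⟫` (in degree `0`: `St ι 0 = {0}`), and
for the positive operator `K` the supremum over unit vectors of `re ⟪x, K x⟫` is `‖K‖` (if
`re ⟪x, K x⟫ ≤ X ‖x‖^2` for all `x` then `‖K‖ ≤ X`; e.g. `ContinuousLinearMap` of a self adjoint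
operator, or `‖K x‖^2 = ⟪K x, K x⟫ ≤ ...` by Cauchy-Schwarz for the form `⟪., K .⟫`).
`mean_vv` gives `X n ≤ f^2 (n + card)`, `one_step` and the maximality of `Θ (n+1)` give the recursion;
`bessel_rec`.  Finally `∑ ‖W_i ψ‖^2 = re ⟪ψ, K ψ⟫ ≤ ‖K‖ ‖ψ‖^2`.
-/

namespace Pool.Agent.H46P

open Finset
open scoped BigOperators ComplexConjugate InnerProductSpace

variable {ι : Type*} [Fintype ι] [DecidableEq ι]
  {E : Type*} [NormedAddCommGroup E] [InnerProductSpace ℂ E] [CompleteSpace E]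

theorem b10_nq_zero (H : (ι → ℕ) → E) : nq 0 H = ‖H 0‖ ^ 2 := by
  unfold nq St
  rw [Finset.piAntidiag_zero]
  simp [fa]

theorem b10_vv_single (W : ι → E →L[ℂ] E) (F : (ι → ℕ) → E) (j : ι) :
    vv W F (Function.update 0 j 1) = W j (F 0) := by
  unfold vv
  rw [Finset.sum_eq_single j]
  · unfold sh
    rw [if_pos (by simp)]
    congr 2
    funext i
    by_cases h : i = j
    · subst h; simp
    · simp [Function.update_of_ne h]
  · intro k _ hk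
    unfold sh
    rw [if_neg]
    simp [Function.update_of_ne hk]
  · intro h; exact absurd (Finset.mem_univ j) h

theorem b10_nq_one (W : ι → E →L[ℂ] E) (F : (ι → ℕ) → E) :
    nq 1 (vv W F) = ∑ i, ‖W i (F 0)‖ ^ 2 := by
  have h := sum_nq_dr 0 (vv W F)
  simp only [Nat.cast_zero, zero_add, one_mul] at h
  rw [← h]
  refine Finset.sum_congr rfl fun j _ => ?_
  rw [b10_nq_zero]
  unfold dr
  simp only [Pi.zero_apply, Nat.cast_zero, zero_add, one_smul]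
  rw [b10_vv_single]

theorem b10_inner_K (W : ι → E →L[ℂ] E) (x y : E) :
    ⟪x, KK W y⟫_ℂ = ∑ i, ⟪W i x, W i y⟫_ℂ := by
  unfold KK
  rw [_root_.sum_apply, inner_sum]
  refine Finset.sum_congr rfl fun i _ => ?_
  change ⟪x, ContinuousLinearMap.adjoint (W i) (W i y)⟫_ℂ = _
  rw [ContinuousLinearMap.adjoint_inner_right]

theorem b10_sum_eq (W : ι → E →L[ℂ] E) (x : E) :
    ∑ i, ‖W i x‖ ^ 2 = (⟪x, KK W x⟫_ℂ).re := by
  rw [b10_inner_K, Complex.re_sum]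
  refine Finset.sum_congr rfl fun i _ => ?_
  rw [inner_self_eq_norm_sq_to_K]
  norm_cast

theorem b10_sum_le (W : ι → E →L[ℂ] E) (x : E) :
    ∑ i, ‖W i x‖ ^ 2 ≤ ‖KK W‖ * ‖x‖ ^ 2 := by
  rw [b10_sum_eq]
  refine (Complex.re_le_norm _).trans ((norm_inner_le_norm _ _).trans ?_)
  have := (KK W).le_opNorm x
  nlinarith [norm_nonneg x]

theorem b10_K_le (W : ι → E →L[ℂ] E) {X : ℝ} (hX : 0 ≤ X)
    (h : ∀ x, ∑ i, ‖W i x‖ ^ 2 ≤ X * ‖x‖ ^ 2) : ‖KK W‖ ≤ X := by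
  refine ContinuousLinearMap.opNorm_le_bound _ hX fun x => ?_
  set y := KK W x with hy
  have h1 : ‖y‖ ^ 2 ≤ √(X * ‖y‖ ^ 2) * √(X * ‖x‖ ^ 2) := by
    have e : ((‖y‖ ^ 2 : ℝ) : ℂ) = ∑ i, ⟪W i y, W i x⟫_ℂ := by
      rw [← b10_inner_K, ← hy, inner_self_eq_norm_sq_to_K]
      norm_cast
    have e2 : ‖y‖ ^ 2 = ‖∑ i, ⟪W i y, W i x⟫_ℂ‖ := by
      rw [← e, Complex.norm_real, Real.norm_of_nonneg (by positivity)]
    calc ‖y‖ ^ 2 = ‖∑ i, ⟪W i y, W i x⟫_ℂ‖ := e2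
      _ ≤ ∑ i, ‖W i y‖ * ‖W i x‖ :=
          (norm_sum_le _ _).trans (Finset.sum_le_sum fun i _ => norm_inner_le_norm _ _)
      _ ≤ √(∑ i, ‖W i y‖ ^ 2) * √(∑ i, ‖W i x‖ ^ 2) := Real.sum_mul_le_sqrt_mul_sqrt _ _ _
      _ ≤ √(X * ‖y‖ ^ 2) * √(X * ‖x‖ ^ 2) := by
          gcongr
          · exact h y
          · exact h x
  rw [Real.sqrt_mul hX, Real.sqrt_mul hX, Real.sqrt_sq (norm_nonneg _),
    Real.sqrt_sq (norm_nonneg _)] at h1
  have h2 : √X * √X = X := Real.mul_self_sqrt hX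
  have h3 : ‖y‖ * ‖y‖ ≤ (X * ‖x‖) * ‖y‖ := by
    calc ‖y‖ * ‖y‖ = ‖y‖ ^ 2 := by ring
      _ ≤ _ := h1
      _ = (√X * √X) * ‖x‖ * ‖y‖ := by ring
      _ = _ := by rw [h2]
  rcases eq_or_lt_of_le (norm_nonneg y) with h0 | h0
  · rw [← h0]; positivity
  · exact le_of_mul_le_mul_right h3 h0

theorem bessel [Nonempty ι] [FiniteDimensional ℂ E] (W : ι → E →L[ℂ] E) {f c : ℝ} (hf0 : 0 ≤ f)
    (hc0 : 0 ≤ c) (hf : ∀ z, ‖wz W z‖ ≤ f * nrm z)
    (h1 : ∀ z w, ‖wz W z * wz W w - wz W w * wz W z‖ ≤ c * nrm z * nrm w)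
    (h2 : ∀ z w, ‖wz W z * ContinuousLinearMap.adjoint (wz W w) -
      ContinuousLinearMap.adjoint (wz W w) * wz W z‖ ≤ c * nrm z * nrm w) (ψ : E) :
    ∑ i, ‖W i ψ‖ ^ 2 ≤
      max (4 * f ^ 2) (6 * Fintype.card ι * c * (5 + Real.log (Fintype.card ι))) * ‖ψ‖ ^ 2 := by
  rcases subsingleton_or_nontrivial E with hE | hE
  · have e : ∀ x : E, ‖x‖ = 0 := fun x => by rw [Subsingleton.elim x 0, norm_zero]
    simp [e]
  choose Θ hΘ hmax htop using exists_top W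
  set X : ℕ → ℝ := fun n => nq (n + 1) (vv W (Θ n)) with hXdef
  have hXnn : ∀ n, 0 ≤ X n := fun n => b8_nq_nonneg _ _
  have hX0 : X 0 = ‖KK W‖ := by
    apply le_antisymm
    · have h := b10_sum_le W (Θ 0 0)
      have h' := hΘ 0
      rw [b10_nq_zero] at h'
      rw [h', mul_one] at h
      calc X 0 = nq 1 (vv W (Θ 0)) := rfl
        _ = ∑ i, ‖W i (Θ 0 0)‖ ^ 2 := b10_nq_one W _
        _ ≤ _ := h
    · refine b10_K_le W (hXnn 0) fun x => ?_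
      have h := hmax 0 (fun _ => x)
      rw [b10_nq_zero] at h
      rw [show (0 + 1 : ℕ) = 1 from rfl, b10_nq_one] at h
      exact h
  have hXf : ∀ n, X n ≤ f ^ 2 * (n + Fintype.card ι) := fun n => by
    have h := mean_vv n W hf0 hf (Θ n)
    rw [hΘ n, mul_one] at h
    exact h
  have hXs : ∀ n, 0 < X n → (1 + 1 / ((n : ℝ) + 1)) * X n -
      2 * √(‖KK W‖ * Fintype.card ι) * c * √(n + Fintype.card ι) / √(X n) -
      c * (n + 1 + 2 * Fintype.card ι) ≤ X (n + 1) := by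
    intro n hn
    obtain ⟨T', hT', h⟩ := one_step n W hc0 h1 h2 (Θ n) (hΘ n) (htop n) hn
    have h3 := hmax (n + 1) T'
    rw [hT', mul_one] at h3
    exact h.trans h3
  have hs := bessel_rec (Fintype.card ι) Fintype.card_pos ‖KK W‖ c f (norm_nonneg _) hc0 X hX0
    hXf hXs
  refine (b10_sum_le W ψ).trans ?_
  exact mul_le_mul_of_nonneg_right hs (by positivity)

end Pool.Agent.H46P
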