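import Pool.Agent.Lib.H46P.B0

/-!
# Chunk B2: average over phases

`ω = exp (2 π I / R)`, `R > n`.  For `α, β ∈ St ι n`, `∑ θ : ι → Fin R, ∏ i, conj (ω^(θ i))^(α i) *
(ω^(θ i))^(β i) = ∏ i, ∑ t : Fin R, ω^(t (β i - α i))` (`Finset.prod_univ_sum` / `Fintype.piFinset`)
`= R^card ι` if `α = β` and `0` otherwise (`|α i - β i| ≤ n < R`; geometric sum of a root of unity).
Expand the inner product of the two sums.
-/

namespace Pool.Agent.H46P

open Finset
open scoped BigOperators ComplexConjugate InnerProductSpace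

variable {ι : Type*} [Fintype ι] [DecidableEq ι]
  {E : Type*} [NormedAddCommGroup E] [InnerProductSpace ℂ E]

/-- the point with moduli `r` and phases `θ` -/
noncomputable def pt (R : ℕ) (r : ι → ℝ) (θ : ι → Fin R) : ι → ℂ := fun i =>
  (r i : ℂ) * Complex.exp (2 * Real.pi * Complex.I * (θ i : ℕ) / R)

theorem B2_geom {R m : ℕ} (hm : 0 < m) (hmR : m < R) :
    ∑ t : Fin R, (Complex.exp (2 * Real.pi * Complex.I / R) ^ m) ^ (t : ℕ) = 0 := by
  have hR : R ≠ 0 := by omega
  have hω := Complex.isPrimitiveRoot_exp R hR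
  set ω := Complex.exp (2 * Real.pi * Complex.I / R) with hωd
  rw [Fin.sum_univ_eq_sum_range (fun t => (ω ^ m) ^ t) R]
  have h1 : (ω ^ m - 1) * ∑ t ∈ range R, (ω ^ m) ^ t = (ω ^ m) ^ R - 1 := mul_geom_sum _ _
  have h2 : (ω ^ m) ^ R = 1 := by
    rw [← pow_mul, mul_comm, pow_mul, hω.pow_eq_one, one_pow]
  have h3 : ω ^ m - 1 ≠ 0 := by
    intro h
    have h4 := hω.dvd_of_pow_eq_one m (sub_eq_zero.1 h)
    exact absurd (Nat.le_of_dvd hm h4) (by omega)
  rw [h2, sub_self] at h1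
  rcases mul_eq_zero.1 h1 with h | h
  · exact absurd h h3
  · exact h

theorem B2_lt {R a b : ℕ} (hab : a < b) (hb : b < R) (r : ℝ) :
    ∑ t : Fin R, (conj ((r : ℂ) * Complex.exp (2 * Real.pi * Complex.I * (t : ℕ) / R))) ^ a *
      ((r : ℂ) * Complex.exp (2 * Real.pi * Complex.I * (t : ℕ) / R)) ^ b = 0 := by
  have hR : R ≠ 0 := by omega
  have h1 := B2_geom (R := R) (m := b - a) (by omega) (by omega)
  have h2 : ∀ t : Fin R, (conj ((r : ℂ) * Complex.exp (2 * Real.pi * Complex.I * (t : ℕ) / R))) ^ a *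
      ((r : ℂ) * Complex.exp (2 * Real.pi * Complex.I * (t : ℕ) / R)) ^ b =
      ((r : ℂ) ^ a * (r : ℂ) ^ b) *
        (Complex.exp (2 * Real.pi * Complex.I / R) ^ (b - a)) ^ (t : ℕ) := by
    intro t
    have h3 : Complex.exp (2 * Real.pi * Complex.I * (t : ℕ) / R) =
        Complex.exp (2 * Real.pi * Complex.I / R) ^ (t : ℕ) := by
      rw [← Complex.exp_nat_mul]
      congr 1
      ring
    have h4 : conj (Complex.exp (2 * Real.pi * Complex.I / R)) *
        Complex.exp (2 * Real.pi * Complex.I / R) = 1 := by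
      rw [← Complex.exp_conj, ← Complex.exp_add]
      have : (starRingEnd ℂ) (2 * Real.pi * Complex.I / R) + 2 * Real.pi * Complex.I / R = 0 := by
        simp only [map_div₀, map_mul, Complex.conj_ofReal, Complex.conj_I, map_natCast, map_ofNat]
        ring
      rw [this, Complex.exp_zero]
    rw [h3]
    set ω := Complex.exp (2 * Real.pi * Complex.I / R)
    have h5 : b = a + (b - a) := by omega
    have h6 : conj ω ^ ((t : ℕ) * a) * ω ^ ((t : ℕ) * a) = 1 := by
      rw [← mul_pow, h4, one_pow]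
    rw [map_mul, Complex.conj_ofReal, map_pow, mul_pow, mul_pow, ← pow_mul, ← pow_mul, ← pow_mul]
    have h7 : (t : ℕ) * b = (t : ℕ) * a + (b - a) * (t : ℕ) := by
      conv_lhs => rw [h5]
      ring
    rw [h7, pow_add]
    linear_combination ((r : ℂ) ^ a * (r : ℂ) ^ b * ω ^ ((b - a) * (t : ℕ))) * h6
  rw [sum_congr rfl fun t _ => h2 t, ← mul_sum, h1, mul_zero]

theorem B2_one {n R a b : ℕ} (hR : n < R) (ha : a ≤ n) (hb : b ≤ n) (r : ℝ) :
    ∑ t : Fin R, (conj ((r : ℂ) * Complex.exp (2 * Real.pi * Complex.I * (t : ℕ) / R))) ^ a *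
      ((r : ℂ) * Complex.exp (2 * Real.pi * Complex.I * (t : ℕ) / R)) ^ b =
      if a = b then (R : ℂ) * ((r : ℂ) ^ 2) ^ a else 0 := by
  rcases lt_trichotomy a b with h | h | h
  · rw [if_neg h.ne]
    exact B2_lt h (by omega) r
  · subst h
    rw [if_pos rfl]
    have h2 : ∀ t : Fin R, (conj ((r : ℂ) * Complex.exp (2 * Real.pi * Complex.I * (t : ℕ) / R))) ^ a *
        ((r : ℂ) * Complex.exp (2 * Real.pi * Complex.I * (t : ℕ) / R)) ^ a = ((r : ℂ) ^ 2) ^ a := by
      intro t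
      rw [← mul_pow]
      congr 1
      rw [map_mul, Complex.conj_ofReal, ← Complex.exp_conj]
      have h3 : Complex.exp ((starRingEnd ℂ) (2 * Real.pi * Complex.I * (t : ℕ) / R)) *
          Complex.exp (2 * Real.pi * Complex.I * (t : ℕ) / R) = 1 := by
        rw [← Complex.exp_add]
        have : (starRingEnd ℂ) (2 * Real.pi * Complex.I * (t : ℕ) / R) +
            2 * Real.pi * Complex.I * (t : ℕ) / R = 0 := by
          simp only [map_div₀, map_mul, Complex.conj_ofReal, Complex.conj_I, map_natCast, map_ofNat]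
          ring
        rw [this, Complex.exp_zero]
      linear_combination (r : ℂ) ^ 2 * h3
    rw [sum_congr rfl fun t _ => h2 t, sum_const, card_univ, Fintype.card_fin, nsmul_eq_mul]
  · rw [if_neg h.ne']
    have h1 := congrArg conj (B2_lt h (show a < R by omega) r)
    rw [map_sum, map_zero] at h1
    rw [← h1]
    refine sum_congr rfl fun t _ => ?_
    simp only [map_mul, map_pow, Complex.conj_conj]
    ring

theorem phase_avg {n R : ℕ} (hR : n < R) (r : ι → ℝ) (F G : (ι → ℕ) → E) :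
    ∑ θ : ι → Fin R, ⟪pv n F (pt R r θ), pv n G (pt R r θ)⟫_ℂ =
      (R : ℂ) ^ Fintype.card ι * ∑ α ∈ St ι n, (∏ i, ((r i : ℂ) ^ 2) ^ α i) * ⟪F α, G α⟫_ℂ := by
  have hle : ∀ α ∈ St ι n, ∀ i, α i ≤ n := by
    intro α hα i
    rw [← mem_St.1 hα]
    exact single_le_sum (fun j _ => Nat.zero_le (α j)) (mem_univ i)
  have h1 : ∀ θ : ι → Fin R, ⟪pv n F (pt R r θ), pv n G (pt R r θ)⟫_ℂ =
      ∑ α ∈ St ι n, ∑ β ∈ St ι n, (∏ i, ((conj (pt R r θ i)) ^ α i * (pt R r θ i) ^ β i)) *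
        ⟪F α, G β⟫_ℂ := by
    intro θ
    unfold pv
    rw [sum_inner]
    refine sum_congr rfl fun α _ => ?_
    rw [inner_sum]
    refine sum_congr rfl fun β _ => ?_
    rw [inner_smul_left, inner_smul_right, map_prod, prod_mul_distrib]
    simp only [map_pow]
    ring
  rw [sum_congr rfl fun θ _ => h1 θ, sum_comm, mul_sum]
  refine sum_congr rfl fun α hα => ?_
  rw [sum_comm]
  have h2 : ∀ β ∈ St ι n, ∑ θ : ι → Fin R,
      (∏ i, ((conj (pt R r θ i)) ^ α i * (pt R r θ i) ^ β i)) * ⟪F α, G β⟫_ℂ =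
      if β = α then (R : ℂ) ^ Fintype.card ι * ((∏ i, ((r i : ℂ) ^ 2) ^ α i) * ⟪F α, G α⟫_ℂ)
        else 0 := by
    intro β hβ
    rw [← sum_mul]
    have h3 : ∑ θ : ι → Fin R, (∏ i, ((conj (pt R r θ i)) ^ α i * (pt R r θ i) ^ β i)) =
        ∏ i, ∑ t : Fin R,
          ((conj ((r i : ℂ) * Complex.exp (2 * Real.pi * Complex.I * (t : ℕ) / R))) ^ α i *
          ((r i : ℂ) * Complex.exp (2 * Real.pi * Complex.I * (t : ℕ) / R)) ^ β i) := by
      rw [prod_univ_sum, Fintype.piFinset_univ]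
      rfl
    rw [h3, prod_congr rfl fun i _ => B2_one hR (hle α hα i) (hle β hβ i) (r i), prod_ite_zero]
    by_cases h : β = α
    · subst h
      rw [if_pos rfl, if_pos (fun _ _ => rfl), prod_mul_distrib, prod_const, card_univ, mul_assoc]
    · rw [if_neg h, if_neg (fun h' => h (funext fun i => (h' i (mem_univ i)).symm)), zero_mul]
  rw [sum_congr rfl h2, sum_ite_eq' (St ι n) α, if_pos hα]

end Pool.Agent.H46P
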