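import Pool.Agent.Lib.H46P.B1
import Pool.Agent.Lib.H46P.B2

set_option autoImplicit false

/-!
# Chunk B3: the Gaussian mean

`gm μ R f = ∫ t, (1/R^card) ∑ θ, f (pt R (fun i => √(t i)) θ) dμ` for the measure of B1 and `R > n`.
`exists_mean`: a positive functional on (the relevant) functions.  We record exactly what is used:
a family of points and a measure.  For `f = fun z => ⟪pv n F z, pv n G z⟫` the inner sum is computed
by `phase_avg` (`(√t)^2 = t` a.e.), and the integral by `exp_measure`.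
Take `Ω = (ι → ℝ)`, `μ` of B1, `P = ι → Fin (n+2)`, `z t θ = pt (n+2) (fun i => √(t i)) θ`,
weight `1/(n+2)^card ι`.
-/

namespace Pool.Agent.H46P

open Finset MeasureTheory
open scoped BigOperators ComplexConjugate InnerProductSpace

variable {ι : Type*} [Fintype ι] [DecidableEq ι]
  {E : Type*} [NormedAddCommGroup E] [InnerProductSpace ℂ E]

/-- There are a measure `μ` on some space, a finite set of phases and points `z t θ` such that the
mean over `t, θ` of `⟪F(z), G(z)⟫` is `ip k F G`, for polynomials of degree `k ≤ n + 1`. -/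
theorem exists_mean (ι : Type*) [Fintype ι] [DecidableEq ι] (E : Type*) [NormedAddCommGroup E]
    [InnerProductSpace ℂ E] (n : ℕ) :
    ∃ (μ : Measure (ι → ℝ)) (z : (ι → ℝ) → (ι → Fin (n + 2)) → (ι → ℂ)) (w : ℝ), 0 < w ∧
      ∀ k ≤ n + 1, ∀ F G : (ι → ℕ) → E,
        Integrable (fun t => ∑ θ, ⟪pv k F (z t θ), pv k G (z t θ)⟫_ℂ) μ ∧
        (w : ℂ) * ∫ t, ∑ θ, ⟪pv k F (z t θ), pv k G (z t θ)⟫_ℂ ∂μ = ip k F G := by
  obtain ⟨μ, hμ, hpos, hmom⟩ := exp_measure ι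
  have hR : (0 : ℝ) < ((n + 2 : ℕ) : ℝ) ^ Fintype.card ι := by positivity
  refine ⟨μ, fun t θ => pt (n + 2) (fun i => √(t i)) θ,
    (((n + 2 : ℕ) : ℝ) ^ Fintype.card ι)⁻¹, inv_pos.mpr hR, fun k hk F G => ?_⟩
  have hae : (fun t => ∑ θ : ι → Fin (n + 2), ⟪pv k F (pt (n + 2) (fun i => √(t i)) θ),
      pv k G (pt (n + 2) (fun i => √(t i)) θ)⟫_ℂ) =ᵐ[μ]
      fun t => ((n + 2 : ℕ) : ℂ) ^ Fintype.card ι *
        ∑ α ∈ St ι k, (((∏ i, t i ^ α i : ℝ)) : ℂ) * ⟪F α, G α⟫_ℂ := by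
    filter_upwards [hpos] with t ht
    rw [phase_avg (show k < n + 2 by omega)]
    congr 1
    refine Finset.sum_congr rfl fun α _ => ?_
    congr 1
    push_cast
    refine Finset.prod_congr rfl fun i _ => ?_
    congr 1
    rw [← Complex.ofReal_pow, Real.sq_sqrt (ht i)]
  have hint : ∀ α : ι → ℕ, Integrable (fun t => (((∏ i, t i ^ α i : ℝ)) : ℂ) * ⟪F α, G α⟫_ℂ) μ :=
    fun α => ((hmom α).1.ofReal).mul_const _
  have hint2 : Integrable (fun t => ((n + 2 : ℕ) : ℂ) ^ Fintype.card ι *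
        ∑ α ∈ St ι k, (((∏ i, t i ^ α i : ℝ)) : ℂ) * ⟪F α, G α⟫_ℂ) μ :=
    (integrable_finset_sum _ fun α _ => hint α).const_mul _
  refine ⟨hint2.congr hae.symm, ?_⟩
  rw [integral_congr_ae hae, integral_const_mul, integral_finset_sum _ fun α _ => hint α]
  have hR' : (((n + 2 : ℕ) : ℂ)) ^ Fintype.card ι ≠ 0 := by
    have : ((((n + 2 : ℕ) : ℝ) ^ Fintype.card ι : ℝ) : ℂ) ≠ 0 := by
      exact_mod_cast hR.ne'
    push_cast at this ⊢
    exact this
  rw [← mul_assoc]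
  have h1 : ((((((n + 2 : ℕ) : ℝ) ^ Fintype.card ι)⁻¹ : ℝ)) : ℂ) *
      ((n + 2 : ℕ) : ℂ) ^ Fintype.card ι = 1 := by
    rw [Complex.ofReal_inv, Complex.ofReal_pow, Complex.ofReal_natCast]
    exact inv_mul_cancel₀ hR'
  rw [h1, one_mul]
  unfold ip
  refine Finset.sum_congr rfl fun α _ => ?_
  rw [integral_mul_const, integral_complex_ofReal, (hmom α).2]
  rfl

end Pool.Agent.H46P
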