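import Pool.Agent.Lib.H46P.B0

/-!
# Chunk B4: algebra of multiplication and derivative

Bijection `α ↦ update α j (α j + 1)` from `St ι n` onto `{β ∈ St ι (n+1) | 1 ≤ β j}` and
`fa (update α j (α j + 1)) = (α j + 1) * fa α`.
-/

namespace Pool.Agent.H46P

open Finset
open scoped BigOperators ComplexConjugate InnerProductSpace

variable {ι : Type*} [Fintype ι] [DecidableEq ι]
  {E : Type*} [NormedAddCommGroup E] [InnerProductSpace ℂ E]

/-! ### auxiliary -/

theorem b4_upd_mem {n : ℕ} {j : ι} {α : ι → ℕ} (h : α ∈ St ι n) :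
    Function.update α j (α j + 1) ∈ St ι (n + 1) := by
  rw [mem_St] at *
  rw [Finset.sum_update_of_mem (mem_univ j), ← h,
    ← Finset.add_sum_erase univ (fun i => α i) (mem_univ j)]
  rw [Finset.sdiff_singleton_eq_erase]
  ring

theorem b4_upd_mem' {n : ℕ} {j : ι} {β : ι → ℕ} (h : β ∈ St ι (n + 1)) (h1 : 1 ≤ β j) :
    Function.update β j (β j - 1) ∈ St ι n := by
  rw [mem_St] at *
  rw [Finset.sum_update_of_mem (mem_univ j)]
  rw [← Finset.add_sum_erase univ (fun i => β i) (mem_univ j)] at h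
  rw [Finset.sdiff_singleton_eq_erase]
  omega

theorem b4_upd_upd {j : ι} (α : ι → ℕ) :
    Function.update (Function.update α j (α j + 1)) j
      ((Function.update α j (α j + 1)) j - 1) = α := by
  funext i
  by_cases h : i = j
  · subst h; simp
  · simp [Function.update_of_ne h]

theorem b4_upd_upd' {j : ι} (β : ι → ℕ) (h1 : 1 ≤ β j) :
    Function.update (Function.update β j (β j - 1)) j
      ((Function.update β j (β j - 1)) j + 1) = β := by
  funext i
  by_cases h : i = j
  · subst h; simp; omega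
  · simp [Function.update_of_ne h]

theorem b4_fa {j : ι} (α : ι → ℕ) :
    fa (Function.update α j (α j + 1)) = (α j + 1) * fa α := by
  unfold fa
  rw [← Finset.mul_prod_erase univ _ (mem_univ j), ← Finset.mul_prod_erase univ
    (fun i => (α i).factorial) (mem_univ j)]
  simp only [Function.update_self, Nat.factorial_succ]
  rw [mul_assoc]
  congr 2
  apply Finset.prod_congr rfl
  intro i hi
  rw [Function.update_of_ne (Finset.ne_of_mem_erase hi)]

/-- the sum over degree `n + 1` of a function supported on `1 ≤ β j` -/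
theorem b4_sum {M : Type*} [AddCommMonoid M] (n : ℕ) (j : ι) (f : (ι → ℕ) → M)
    (hf : ∀ β ∈ St ι (n + 1), β j = 0 → f β = 0) :
    ∑ β ∈ St ι (n + 1), f β = ∑ α ∈ St ι n, f (Function.update α j (α j + 1)) := by
  symm
  have h2 : ∑ β ∈ (St ι (n + 1)).filter (fun β => 1 ≤ β j), f β = ∑ β ∈ St ι (n + 1), f β := by
    apply Finset.sum_subset (Finset.filter_subset _ _)
    intro β hβ hβ'
    apply hf β hβ
    simp only [Finset.mem_filter, not_and] at hβ'
    have := hβ' hβ
    omega
  rw [← h2]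
  refine Finset.sum_bij' (fun α _ => Function.update α j (α j + 1))
    (fun β _ => Function.update β j (β j - 1)) ?_ ?_ ?_ ?_ ?_
  · intro α hα
    rw [Finset.mem_filter]
    exact ⟨b4_upd_mem hα, by simp⟩
  · intro β hβ
    rw [Finset.mem_filter] at hβ
    exact b4_upd_mem' hβ.1 hβ.2
  · intro α hα
    exact b4_upd_upd α
  · intro β hβ
    rw [Finset.mem_filter] at hβ
    exact b4_upd_upd' β hβ.2
  · intro α hα
    rfl

theorem b4_sh_upd (j : ι) (F : (ι → ℕ) → E) (α : ι → ℕ) :
    sh j F (Function.update α j (α j + 1)) = F α := by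
  unfold sh
  rw [if_pos (by simp), b4_upd_upd]

theorem b4_sh_zero (j : ι) (F : (ι → ℕ) → E) (β : ι → ℕ) (h : β j = 0) : sh j F β = 0 := by
  unfold sh
  rw [if_neg (by omega)]

theorem ip_self (n : ℕ) (F : (ι → ℕ) → E) : ip n F F = (nq n F : ℂ) := by
  unfold ip nq
  push_cast
  apply Finset.sum_congr rfl
  intro α _
  rw [inner_self_eq_norm_sq_to_K]
  simp

theorem ip_conj (n : ℕ) (F G : (ι → ℕ) → E) : conj (ip n F G) = ip n G F := by
  unfold ip
  rw [map_sum]
  apply Finset.sum_congr rfl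
  intro α _
  rw [map_mul, inner_conj_symm]
  simp

theorem ip_add_right (n : ℕ) (F G H : (ι → ℕ) → E) :
    ip n F (fun α => G α + H α) = ip n F G + ip n F H := by
  unfold ip
  rw [← Finset.sum_add_distrib]
  apply Finset.sum_congr rfl
  intro α _
  rw [inner_add_right]
  ring

theorem ip_sum_right {β : Type*} (s : Finset β) (n : ℕ) (F : (ι → ℕ) → E)
    (G : β → (ι → ℕ) → E) : ip n F (fun α => ∑ b ∈ s, G b α) = ∑ b ∈ s, ip n F (G b) := by
  unfold ip
  rw [Finset.sum_comm]
  apply Finset.sum_congr rfl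
  intro α _
  rw [inner_sum, Finset.mul_sum]

theorem ip_sum_left {β : Type*} (s : Finset β) (n : ℕ) (F : β → (ι → ℕ) → E)
    (G : (ι → ℕ) → E) : ip n (fun α => ∑ b ∈ s, F b α) G = ∑ b ∈ s, ip n (F b) G := by
  unfold ip
  rw [Finset.sum_comm]
  apply Finset.sum_congr rfl
  intro α _
  rw [sum_inner, Finset.mul_sum]

theorem ip_smul_right (n : ℕ) (a : ℂ) (F G : (ι → ℕ) → E) :
    ip n F (fun α => a • G α) = a * ip n F G := by
  unfold ip
  rw [Finset.mul_sum]
  apply Finset.sum_congr rfl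
  intro α _
  rw [inner_smul_right]
  ring

/-- Cauchy-Schwarz for a family -/
theorem b4_cs {β : Type*} (s : Finset β) (n : ℕ) (F G : β → (ι → ℕ) → E) :
    ‖∑ b ∈ s, ip n (F b) (G b)‖ ≤ √(∑ b ∈ s, nq n (F b)) * √(∑ b ∈ s, nq n (G b)) := by
  unfold ip nq
  rw [← Finset.sum_product', ← Finset.sum_product', ← Finset.sum_product']
  calc _ ≤ ∑ p ∈ s ×ˢ St ι n, (√(fa p.2 : ℝ) * ‖F p.1 p.2‖) * (√(fa p.2 : ℝ) * ‖G p.1 p.2‖) := by
        apply (norm_sum_le _ _).trans
        apply Finset.sum_le_sum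
        intro p _
        rw [norm_mul]
        have h1 : ‖((fa p.2 : ℕ) : ℂ)‖ = √(fa p.2 : ℝ) * √(fa p.2 : ℝ) := by
          rw [Real.mul_self_sqrt (by positivity)]
          simp
        rw [h1]
        have h2 := norm_inner_le_norm (𝕜 := ℂ) (F p.1 p.2) (G p.1 p.2)
        calc _ ≤ √(fa p.2 : ℝ) * √(fa p.2 : ℝ) * (‖F p.1 p.2‖ * ‖G p.1 p.2‖) := by gcongr
          _ = _ := by ring
    _ ≤ √(∑ p ∈ s ×ˢ St ι n, (√(fa p.2 : ℝ) * ‖F p.1 p.2‖) ^ 2) *
        √(∑ p ∈ s ×ˢ St ι n, (√(fa p.2 : ℝ) * ‖G p.1 p.2‖) ^ 2) :=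
        Real.sum_mul_le_sqrt_mul_sqrt _ _ _
    _ = _ := by
        congr 2
        · apply Finset.sum_congr rfl
          intro p _
          rw [mul_pow, Real.sq_sqrt (by positivity)]
        · apply Finset.sum_congr rfl
          intro p _
          rw [mul_pow, Real.sq_sqrt (by positivity)]

/-- Cauchy-Schwarz -/
theorem ip_le (n : ℕ) (F G : (ι → ℕ) → E) : ‖ip n F G‖ ≤ √(nq n F) * √(nq n G) := by
  have h := b4_cs (Finset.univ : Finset Unit) n (fun _ => F) (fun _ => G)
  simpa using h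

/-- Cauchy-Schwarz for a family -/
theorem ip_sum_le {β : Type*} (s : Finset β) (n : ℕ) (F G : β → (ι → ℕ) → E) :
    ‖∑ b ∈ s, ip n (F b) (G b)‖ ≤ √(∑ b ∈ s, nq n (F b)) * √(∑ b ∈ s, nq n (G b)) :=
  b4_cs s n F G

theorem ip_sh (n : ℕ) (j : ι) (F G : (ι → ℕ) → E) : ip (n + 1) (sh j F) G = ip n F (dr j G) := by
  unfold ip
  rw [b4_sum n j]
  · apply Finset.sum_congr rfl
    intro α _
    rw [b4_sh_upd, b4_fa, dr, inner_smul_right]
    push_cast
    ring
  · intro β _ h
    rw [b4_sh_zero j F β h]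
    simp

theorem dr_sh (i j : ι) (F : (ι → ℕ) → E) (α : ι → ℕ) :
    dr i (sh j F) α = sh j (dr i F) α + if i = j then F α else 0 := by
  by_cases hij : i = j
  · subst hij
    rw [if_pos rfl]
    unfold dr
    rw [b4_sh_upd]
    by_cases h : 1 ≤ α i
    · unfold sh
      rw [if_pos h]
      simp only [Function.update_self, Function.update_idem]
      rw [Nat.sub_add_cancel h, Function.update_eq_self, Nat.cast_sub h]
      rw [← one_smul ℂ (F α)]
      rw [smul_smul, smul_smul, ← add_smul]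
      congr 1
      push_cast
      ring
    · have h0 : α i = 0 := by omega
      rw [b4_sh_zero _ _ _ h0, h0]
      simp
  · rw [if_neg hij, add_zero]
    unfold dr sh
    simp only [Function.update_of_ne (Ne.symm hij)]
    by_cases h : 1 ≤ α j
    · rw [if_pos h, if_pos h]
      rw [Function.update_of_ne hij, Function.update_comm hij]
    · rw [if_neg h, if_neg h, smul_zero]

theorem sum_sh_dr (F : (ι → ℕ) → E) (α : ι → ℕ) :
    ∑ j, sh j (dr j F) α = ((∑ i, α i : ℕ) : ℂ) • F α := by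
  push_cast
  rw [Finset.sum_smul]
  apply Finset.sum_congr rfl
  intro j _
  by_cases h : 1 ≤ α j
  · unfold sh dr
    rw [if_pos h]
    simp only [Function.update_self, Function.update_idem]
    rw [Nat.sub_add_cancel h, Function.update_eq_self, Nat.cast_sub h]
    congr 1
    push_cast
    ring
  · have h0 : α j = 0 := by omega
    rw [b4_sh_zero _ _ _ h0, h0]
    simp

theorem b4_inner_smul_real (n : ℕ) (r : ℝ) (F G : (ι → ℕ) → E) :
    ip n F (fun α => (r : ℂ) • G α) = (r : ℂ) * ip n F G := ip_smul_right n _ F G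

theorem b4_nq_self (n : ℕ) (F : (ι → ℕ) → E) : nq n F = (ip n F F).re := by
  rw [ip_self]; simp

theorem b4_ip_congr (n : ℕ) (F F' G G' : (ι → ℕ) → E) (h : ∀ α ∈ St ι n, F α = F' α)
    (h' : ∀ α ∈ St ι n, G α = G' α) : ip n F G = ip n F' G' := by
  unfold ip
  apply Finset.sum_congr rfl
  intro α hα
  rw [h α hα, h' α hα]

theorem b4_ip_dr (n : ℕ) (j : ι) (F G : (ι → ℕ) → E) :
    ip n (dr j F) G = ip (n + 1) F (sh j G) := by
  rw [← ip_conj, ← ip_sh, ip_conj]

theorem sum_nq_dr (n : ℕ) (F : (ι → ℕ) → E) :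
    ∑ j, nq n (dr j F) = (n + 1) * nq (n + 1) F := by
  have h : ∑ j, ip n (dr j F) (dr j F) = ((n : ℂ) + 1) * ip (n + 1) F F := by
    rw [Finset.sum_congr rfl (fun j _ => b4_ip_dr n j F (dr j F))]
    rw [← ip_sum_right, ← ip_smul_right]
    apply b4_ip_congr
    · intro α _; rfl
    · intro α hα
      rw [sum_sh_dr, (mem_St.1 hα)]
      push_cast
      rfl
  simp only [ip_self] at h
  exact_mod_cast h

theorem sum_nq_sh (n : ℕ) (F : (ι → ℕ) → E) :
    ∑ j, nq (n + 1) (sh j F) = (n + Fintype.card ι) * nq n F := by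
  have h : ∑ j, ip (n + 1) (sh j F) (sh j F) = ((n : ℂ) + Fintype.card ι) * ip n F F := by
    rw [Finset.sum_congr rfl (fun j _ => ip_sh n j F (sh j F))]
    rw [← ip_sum_right, ← ip_smul_right]
    apply b4_ip_congr
    · intro α _; rfl
    · intro α hα
      rw [Finset.sum_congr rfl (fun j _ => dr_sh j j F α)]
      rw [Finset.sum_add_distrib, sum_sh_dr, (mem_St.1 hα)]
      simp only [if_true]
      rw [Finset.sum_const, Finset.card_univ, add_smul, Nat.cast_smul_eq_nsmul,
        Nat.cast_smul_eq_nsmul]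
  simp only [ip_self] at h
  exact_mod_cast h

theorem pv_sh (n : ℕ) (j : ι) (F : (ι → ℕ) → E) (z : ι → ℂ) :
    pv (n + 1) (sh j F) z = z j • pv n F z := by
  unfold pv
  rw [b4_sum n j]
  · rw [Finset.smul_sum]
    apply Finset.sum_congr rfl
    intro α _
    rw [b4_sh_upd, smul_smul]
    congr 1
    rw [← Finset.mul_prod_erase univ _ (mem_univ j), ← Finset.mul_prod_erase univ
      (fun i => z i ^ α i) (mem_univ j)]
    simp only [Function.update_self]
    rw [pow_succ', mul_assoc]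
    congr 2
    apply Finset.prod_congr rfl
    intro i hi
    rw [Function.update_of_ne (Finset.ne_of_mem_erase hi)]
  · intro β _ h
    rw [b4_sh_zero j F β h, smul_zero]

theorem pv_map (n : ℕ) (B : E →L[ℂ] E) (F : (ι → ℕ) → E) (z : ι → ℂ) :
    pv n (fun α => B (F α)) z = B (pv n F z) := by
  unfold pv
  rw [map_sum]
  apply Finset.sum_congr rfl
  intro α _
  rw [map_smul]

theorem pv_vv (n : ℕ) (W : ι → E →L[ℂ] E) (F : (ι → ℕ) → E) (z : ι → ℂ) :
    pv (n + 1) (vv W F) z = wz W z (pv n F z) := by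
  have h : pv (n + 1) (vv W F) z = ∑ j, pv (n + 1) (sh j (fun α => W j (F α))) z := by
    unfold pv vv
    rw [Finset.sum_comm]
    apply Finset.sum_congr rfl
    intro β _
    rw [Finset.smul_sum]
  rw [h, wz]
  rw [_root_.sum_apply]
  apply Finset.sum_congr rfl
  intro j _
  rw [pv_sh, pv_map]
  rfl

end Pool.Agent.H46P
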