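import Pool.Agent.Lib.H46P.B3
import Pool.Agent.Lib.H46P.B4

/-!
# Chunk B5: the anti-Wick bounds ((a) of `PROOF.md`)

Use `exists_mean ι E n`. `mean_vv`: `nq (n+1) (vv B F) = w ∫ ∑ ‖wz B z (F z)‖^2 ≤
f'^2 w ∫ ∑ (∑ j ‖z j‖^2) ‖F z‖^2 = f'^2 ∑ j nq (n+1) (sh j F)` (`pv_sh`, `pv_vv`, `sum_nq_sh`).
`mean_C`: `∑ i j, ip (n+1) (sh i F) (sh j (C i j F)) = w ∫ ∑ ⟪F z, (∑ conj (z i) z j C i j) F z⟫`.
-/

namespace Pool.Agent.H46P

open Finset MeasureTheory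
open scoped BigOperators ComplexConjugate InnerProductSpace

variable {ι : Type*} [Fintype ι] [DecidableEq ι]
  {E : Type*} [NormedAddCommGroup E] [InnerProductSpace ℂ E]

theorem b5_nq {n : ℕ} {μ : Measure (ι → ℝ)} {z : (ι → ℝ) → (ι → Fin (n + 2)) → (ι → ℂ)} {w : ℝ}
    (hm : ∀ k ≤ n + 1, ∀ F G : (ι → ℕ) → E,
        Integrable (fun t => ∑ θ, ⟪pv k F (z t θ), pv k G (z t θ)⟫_ℂ) μ ∧
        (w : ℂ) * ∫ t, ∑ θ, ⟪pv k F (z t θ), pv k G (z t θ)⟫_ℂ ∂μ = ip k F G)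
    {k : ℕ} (hk : k ≤ n + 1) (F : (ι → ℕ) → E) :
    Integrable (fun t => ∑ θ, ‖pv k F (z t θ)‖ ^ 2) μ ∧
      w * ∫ t, ∑ θ, ‖pv k F (z t θ)‖ ^ 2 ∂μ = nq k F := by
  obtain ⟨h1, h2⟩ := hm k hk F F
  have e : ∀ t, ∑ θ, ⟪pv k F (z t θ), pv k F (z t θ)⟫_ℂ = ((∑ θ, ‖pv k F (z t θ)‖ ^ 2 : ℝ) : ℂ) := by
    intro t
    push_cast
    exact Finset.sum_congr rfl fun θ _ => inner_self_eq_norm_sq_to_K _
  simp only [e] at h1 h2
  refine ⟨?_, ?_⟩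
  · have h3 : Integrable (fun t => (((∑ θ, ‖pv k F (z t θ)‖ ^ 2 : ℝ) : ℂ)).re) μ := h1.re
    simpa only [Complex.ofReal_re] using h3
  · rw [integral_complex_ofReal, ip_self] at h2
    exact_mod_cast h2

theorem mean_vv (n : ℕ) (B : ι → E →L[ℂ] E) {f : ℝ} (hf0 : 0 ≤ f)
    (hf : ∀ z, ‖wz B z‖ ≤ f * nrm z) (F : (ι → ℕ) → E) :
    nq (n + 1) (vv B F) ≤ f ^ 2 * (n + Fintype.card ι) * nq n F := by
  obtain ⟨μ, z, w, hw, hm⟩ := exists_mean ι E n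
  obtain ⟨h1, h2⟩ := b5_nq hm le_rfl (vv B F)
  have hj := fun j : ι => b5_nq hm le_rfl (sh j F)
  rw [← h2]
  have hpt : ∀ t, ∑ θ, ‖pv (n + 1) (vv B F) (z t θ)‖ ^ 2 ≤
      ∑ j, f ^ 2 * ∑ θ, ‖pv (n + 1) (sh j F) (z t θ)‖ ^ 2 := by
    intro t
    rw [← Finset.mul_sum, Finset.sum_comm, Finset.mul_sum]
    refine Finset.sum_le_sum fun θ _ => ?_
    rw [pv_vv]
    have h3 : ‖wz B (z t θ) (pv n F (z t θ))‖ ≤ f * nrm (z t θ) * ‖pv n F (z t θ)‖ :=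
      (ContinuousLinearMap.le_opNorm _ _).trans (mul_le_mul_of_nonneg_right (hf _) (norm_nonneg _))
    calc ‖wz B (z t θ) (pv n F (z t θ))‖ ^ 2 ≤ (f * nrm (z t θ) * ‖pv n F (z t θ)‖) ^ 2 :=
          pow_le_pow_left₀ (norm_nonneg _) h3 2
      _ = f ^ 2 * (nrm (z t θ) ^ 2 * ‖pv n F (z t θ)‖ ^ 2) := by ring
      _ = f ^ 2 * ∑ j, ‖pv (n + 1) (sh j F) (z t θ)‖ ^ 2 := by
          rw [nrm_sq, Finset.sum_mul]
          congr 1
          refine Finset.sum_congr rfl fun j _ => ?_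
          rw [pv_sh, norm_smul, mul_pow]
  have hint : Integrable (fun t => ∑ j, f ^ 2 * ∑ θ, ‖pv (n + 1) (sh j F) (z t θ)‖ ^ 2) μ :=
    integrable_finsetSum _ fun j _ => (hj j).1.const_mul _
  calc w * ∫ t, ∑ θ, ‖pv (n + 1) (vv B F) (z t θ)‖ ^ 2 ∂μ
      ≤ w * ∫ t, ∑ j, f ^ 2 * ∑ θ, ‖pv (n + 1) (sh j F) (z t θ)‖ ^ 2 ∂μ :=
        mul_le_mul_of_nonneg_left (integral_mono h1 hint hpt) hw.le
    _ = f ^ 2 * ∑ j, nq (n + 1) (sh j F) := by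
        rw [integral_finsetSum _ fun j _ => (hj j).1.const_mul _, Finset.mul_sum, Finset.mul_sum]
        refine Finset.sum_congr rfl fun j _ => ?_
        rw [integral_const_mul, ← (hj j).2]
        ring
    _ = f ^ 2 * (n + Fintype.card ι) * nq n F := by rw [sum_nq_sh, mul_assoc]

theorem mean_C (n : ℕ) (C : ι → ι → E →L[ℂ] E) {c : ℝ} (hc0 : 0 ≤ c)
    (hc : ∀ z : ι → ℂ, ‖∑ i, ∑ j, (conj (z i) * z j) • C i j‖ ≤ c * nrm z ^ 2)
    (F : (ι → ℕ) → E) :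
    ‖∑ i, ∑ j, ip (n + 1) (sh i F) (sh j (fun α => C i j (F α)))‖ ≤
      c * (n + Fintype.card ι) * nq n F := by
  obtain ⟨μ, z, w, hw, hm⟩ := exists_mean ι E n
  have hj := fun j : ι => b5_nq hm le_rfl (sh j F)
  have hij := fun i j : ι => hm (n + 1) le_rfl (sh i F) (sh j (fun α => C i j (F α)))
  have e1 : ∑ i, ∑ j, ip (n + 1) (sh i F) (sh j (fun α => C i j (F α))) =
      (w : ℂ) * ∫ t, ∑ i, ∑ j, ∑ θ, ⟪pv (n + 1) (sh i F) (z t θ),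
        pv (n + 1) (sh j (fun α => C i j (F α))) (z t θ)⟫_ℂ ∂μ := by
    rw [integral_finsetSum _ fun i _ => integrable_finsetSum _ fun j _ => (hij i j).1, Finset.mul_sum]
    refine Finset.sum_congr rfl fun i _ => ?_
    rw [integral_finsetSum _ fun j _ => (hij i j).1, Finset.mul_sum]
    exact Finset.sum_congr rfl fun j _ => (hij i j).2.symm
  have hint : Integrable (fun t => ∑ j, c * ∑ θ, ‖pv (n + 1) (sh j F) (z t θ)‖ ^ 2) μ :=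
    integrable_finsetSum _ fun j _ => (hj j).1.const_mul _
  have hpt : ∀ t, ‖∑ i, ∑ j, ∑ θ, ⟪pv (n + 1) (sh i F) (z t θ),
        pv (n + 1) (sh j (fun α => C i j (F α))) (z t θ)⟫_ℂ‖ ≤
      ∑ j, c * ∑ θ, ‖pv (n + 1) (sh j F) (z t θ)‖ ^ 2 := by
    intro t
    have e2 : ∑ i, ∑ j, ∑ θ, ⟪pv (n + 1) (sh i F) (z t θ),
        pv (n + 1) (sh j (fun α => C i j (F α))) (z t θ)⟫_ℂ =
        ∑ θ, ⟪pv n F (z t θ), (∑ i, ∑ j, (conj (z t θ i) * z t θ j) • C i j) (pv n F (z t θ))⟫_ℂ := by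
      have e3 : ∀ i, ∑ j, ∑ θ, ⟪pv (n + 1) (sh i F) (z t θ),
          pv (n + 1) (sh j (fun α => C i j (F α))) (z t θ)⟫_ℂ =
          ∑ θ, ∑ j, ⟪pv (n + 1) (sh i F) (z t θ),
          pv (n + 1) (sh j (fun α => C i j (F α))) (z t θ)⟫_ℂ := fun i => Finset.sum_comm
      rw [Finset.sum_congr rfl fun i _ => e3 i, Finset.sum_comm]
      refine Finset.sum_congr rfl fun θ _ => ?_
      rw [_root_.sum_apply, inner_sum]
      refine Finset.sum_congr rfl fun i _ => ?_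
      rw [_root_.sum_apply, inner_sum]
      refine Finset.sum_congr rfl fun j _ => ?_
      rw [pv_sh, pv_sh, pv_map, _root_.smul_apply, inner_smul_left, inner_smul_right,
        inner_smul_right, mul_assoc]
    rw [e2, ← Finset.mul_sum, Finset.sum_comm, Finset.mul_sum]
    refine (norm_sum_le _ _).trans (Finset.sum_le_sum fun θ _ => ?_)
    calc ‖⟪pv n F (z t θ), (∑ i, ∑ j, (conj (z t θ i) * z t θ j) • C i j) (pv n F (z t θ))⟫_ℂ‖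
        ≤ ‖pv n F (z t θ)‖ * ‖(∑ i, ∑ j, (conj (z t θ i) * z t θ j) • C i j) (pv n F (z t θ))‖ :=
          norm_inner_le_norm _ _
      _ ≤ ‖pv n F (z t θ)‖ * (c * nrm (z t θ) ^ 2 * ‖pv n F (z t θ)‖) :=
          mul_le_mul_of_nonneg_left ((ContinuousLinearMap.le_opNorm _ _).trans
            (mul_le_mul_of_nonneg_right (hc _) (norm_nonneg _))) (norm_nonneg _)
      _ = c * (nrm (z t θ) ^ 2 * ‖pv n F (z t θ)‖ ^ 2) := by ring
      _ = c * ∑ j, ‖pv (n + 1) (sh j F) (z t θ)‖ ^ 2 := by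
          rw [nrm_sq, Finset.sum_mul]
          congr 1
          refine Finset.sum_congr rfl fun j _ => ?_
          rw [pv_sh, norm_smul, mul_pow]
  rw [e1, norm_mul, Complex.norm_real, Real.norm_eq_abs, abs_of_pos hw]
  calc w * ‖∫ t, ∑ i, ∑ j, ∑ θ, ⟪pv (n + 1) (sh i F) (z t θ),
        pv (n + 1) (sh j (fun α => C i j (F α))) (z t θ)⟫_ℂ ∂μ‖
      ≤ w * ∫ t, ∑ j, c * ∑ θ, ‖pv (n + 1) (sh j F) (z t θ)‖ ^ 2 ∂μ :=
        mul_le_mul_of_nonneg_left (norm_integral_le_of_norm_le hint (Filter.Eventually.of_forall hpt)) hw.le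
    _ = c * ∑ j, nq (n + 1) (sh j F) := by
        rw [integral_finsetSum _ fun j _ => (hj j).1.const_mul _, Finset.mul_sum, Finset.mul_sum]
        refine Finset.sum_congr rfl fun j _ => ?_
        rw [integral_const_mul, ← (hj j).2]
        ring
    _ = c * (n + Fintype.card ι) * nq n F := by rw [sum_nq_sh, mul_assoc]

end Pool.Agent.H46P
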