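import Pool.Agent.Lib.H46P.B5

/-!
# Chunk B6: the commutation identity ((b) of `PROOF.md`)

`vs W G α = ∑ j, W_j^* (dr j G α)`, adjoint of `vv W` (`ip_vv`).  Identity, `C i j = W_j W_i^* - W_i^* W_j`:
`nq (n+2) (vv W Θ) = ∑ i j ip (n+2) (sh i Θ) (sh j (W_i^* W_j Θ))
 = ∑ i j ip (n+2) (sh i Θ) (sh j (W_j W_i^* Θ)) - ∑ i j ip (n+2) (sh i Θ) (sh j (C i j Θ))`;
the first sum is, by `ip_sh`, `dr_sh`: `∑ i j ip (n+1) Θ (sh j (dr i (W_j W_i^* Θ))) +
∑ i ip (n+1) Θ (W_i W_i^* Θ) = nq n (vs W Θ) + ∑ i nq (n+1) (W_i Θ) + ∑ i ip (n+1) Θ (C i i Θ)`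
(second `ip_sh` read backwards, using `ip_conj`).  Then `mean_C` with
`∑ conj (z i) z j C i j = W_z W_z^* - W_z^* W_z`, and `‖C i i‖ ≤ c` (`z = w = Pi.single i 1`).
-/

namespace Pool.Agent.H46P

open Finset MeasureTheory
open scoped BigOperators ComplexConjugate InnerProductSpace

variable {ι : Type*} [Fintype ι] [DecidableEq ι]
  {E : Type*} [NormedAddCommGroup E] [InnerProductSpace ℂ E] [CompleteSpace E]

/-- adjoint of `vv W` -/
noncomputable def vs (W : ι → E →L[ℂ] E) (G : (ι → ℕ) → E) : (ι → ℕ) → E := fun α =>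
  ∑ j, ContinuousLinearMap.adjoint (W j) (dr j G α)

theorem b6_adj (n : ℕ) (A : E →L[ℂ] E) (F G : (ι → ℕ) → E) :
    ip n (fun α => A (F α)) G = ip n F (fun α => ContinuousLinearMap.adjoint A (G α)) := by
  unfold ip
  refine Finset.sum_congr rfl fun α _ => ?_
  rw [ContinuousLinearMap.adjoint_inner_right]

theorem b6_adj' (n : ℕ) (A : E →L[ℂ] E) (F G : (ι → ℕ) → E) :
    ip n F (fun α => A (G α)) = ip n (fun α => ContinuousLinearMap.adjoint A (F α)) G := by
  rw [b6_adj, ContinuousLinearMap.adjoint_adjoint]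

omit [Fintype ι] [CompleteSpace E] in
theorem b6_sh (j : ι) (A : E →L[ℂ] E) (F : (ι → ℕ) → E) :
    sh j (fun α => A (F α)) = fun α => A (sh j F α) := by
  funext β
  unfold sh
  split_ifs
  · rfl
  · exact (map_zero A).symm

omit [Fintype ι] [CompleteSpace E] in
theorem b6_dr (j : ι) (A : E →L[ℂ] E) (F : (ι → ℕ) → E) :
    dr j (fun α => A (F α)) = fun α => A (dr j F α) := by
  funext β
  unfold dr
  exact (map_smul A _ _).symm

omit [CompleteSpace E] in
theorem b6_shr (n : ℕ) (j : ι) (F G : (ι → ℕ) → E) : ip (n + 1) F (sh j G) = ip n (dr j F) G := by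
  rw [← ip_conj, ip_sh, ip_conj]

omit [CompleteSpace E] in
theorem b6_ite (n : ℕ) (F G : (ι → ℕ) → E) (p : Prop) [Decidable p] :
    ip n F (fun α => if p then G α else 0) = if p then ip n F G else 0 := by
  split_ifs with h
  · rfl
  · unfold ip
    simp

omit [CompleteSpace E] in
/-- Both factors multiplied by a variable. -/
theorem b6_two (n : ℕ) (i j : ι) (F G : (ι → ℕ) → E) :
    ip (n + 2) (sh i F) (sh j G) = ip (n + 1) F (sh j (dr i G)) + if i = j then ip (n + 1) F G else 0 := by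
  have e : dr i (sh j G) = fun α => sh j (dr i G) α + if i = j then G α else 0 := funext fun α => dr_sh i j G α
  rw [ip_sh, e, ip_add_right, b6_ite]

omit [CompleteSpace E] in
theorem b6_sub (n : ℕ) (F G H : (ι → ℕ) → E) :
    ip n F (fun α => G α - H α) = ip n F G - ip n F H := by
  have h := ip_add_right n F (fun α => G α - H α) H
  have e : (fun α => G α - H α + H α) = G := by
    funext α
    rw [sub_add_cancel]
  rw [e] at h
  rw [h, add_sub_cancel_right]

theorem ip_vv (n : ℕ) (W : ι → E →L[ℂ] E) (F G : (ι → ℕ) → E) :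
    ip (n + 1) (vv W F) G = ip n F (vs W G) := by
  have e1 : ip (n + 1) (vv W F) G = ∑ j, ip (n + 1) (sh j (fun α => W j (F α))) G :=
    ip_sum_left univ (n + 1) (fun j => sh j (fun α => W j (F α))) G
  have e2 : ip n F (vs W G) = ∑ j, ip n F (fun α => ContinuousLinearMap.adjoint (W j) (dr j G α)) :=
    ip_sum_right univ n F (fun j => fun α => ContinuousLinearMap.adjoint (W j) (dr j G α))
  rw [e1, e2]
  refine Finset.sum_congr rfl fun j _ => ?_
  rw [ip_sh, b6_adj]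

/-- The expansion of the square of `vv`. -/
theorem b6_vv2 (n : ℕ) (W : ι → E →L[ℂ] E) (Θ : (ι → ℕ) → E) :
    ((nq (n + 2) (vv W Θ) : ℝ) : ℂ) = ∑ i, ∑ j, ip (n + 2) (sh i (fun α => W i (Θ α))) (sh j (fun α => W j (Θ α))) := by
  rw [← ip_self]
  have e1 : ip (n + 2) (vv W Θ) (vv W Θ) = ∑ i, ip (n + 2) (sh i (fun α => W i (Θ α))) (vv W Θ) :=
    ip_sum_left univ (n + 2) (fun j => sh j (fun α => W j (Θ α))) (vv W Θ)
  rw [e1]
  refine Finset.sum_congr rfl fun i _ => ?_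
  exact ip_sum_right univ (n + 2) _ (fun j => sh j (fun α => W j (Θ α)))

/-- The square of `vs`. -/
theorem b6_vs2 (n : ℕ) (W : ι → E →L[ℂ] E) (Θ : (ι → ℕ) → E) :
    ((nq n (vs W Θ) : ℝ) : ℂ) = ∑ i, ∑ j, ip n (fun α => ContinuousLinearMap.adjoint (W j) (dr j Θ α))
      (fun α => ContinuousLinearMap.adjoint (W i) (dr i Θ α)) := by
  rw [← ip_self]
  have e1 : ip n (vs W Θ) (vs W Θ) = ∑ i, ip n (vs W Θ)
      (fun α => ContinuousLinearMap.adjoint (W i) (dr i Θ α)) :=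
    ip_sum_right univ n (vs W Θ) (fun j => fun α => ContinuousLinearMap.adjoint (W j) (dr j Θ α))
  rw [e1]
  refine Finset.sum_congr rfl fun i _ => ?_
  exact ip_sum_left univ n (fun j => fun α => ContinuousLinearMap.adjoint (W j) (dr j Θ α)) _

/-- The commutators. -/
noncomputable def b6_C (W : ι → E →L[ℂ] E) (i j : ι) : E →L[ℂ] E :=
  W j * ContinuousLinearMap.adjoint (W i) - ContinuousLinearMap.adjoint (W i) * W j

theorem b6_term (n : ℕ) (W : ι → E →L[ℂ] E) (Θ : (ι → ℕ) → E) (i j : ι) :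
    ip (n + 1) (fun α => W i (Θ α)) (sh j (dr i (fun α => W j (Θ α)))) =
      ip n (fun α => ContinuousLinearMap.adjoint (W j) (dr j Θ α))
        (fun α => ContinuousLinearMap.adjoint (W i) (dr i Θ α)) -
      ip (n + 1) Θ (sh j (dr i (fun α => b6_C W i j (Θ α)))) := by
  have e1 : ip (n + 1) Θ (sh j (dr i (fun α => b6_C W i j (Θ α)))) =
      ip (n + 1) Θ (fun α => b6_C W i j (sh j (dr i Θ) α)) := by rw [b6_dr, b6_sh]
  have e2 : ip n (fun α => ContinuousLinearMap.adjoint (W j) (dr j Θ α))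
        (fun α => ContinuousLinearMap.adjoint (W i) (dr i Θ α)) =
      ip (n + 1) Θ (fun α => (W j * ContinuousLinearMap.adjoint (W i)) (sh j (dr i Θ) α)) := by
    rw [← b6_adj', ← b6_shr]
    congr 1
    rw [b6_sh, b6_sh]
    rfl
  have e3 : ip (n + 1) (fun α => W i (Θ α)) (sh j (dr i (fun α => W j (Θ α)))) =
      ip (n + 1) Θ (fun α => (ContinuousLinearMap.adjoint (W i) * W j) (sh j (dr i Θ) α)) := by
    rw [b6_adj, b6_dr, b6_sh]
    rfl
  rw [e1, e2, e3, ← b6_sub]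
  congr 1
  funext α
  unfold b6_C
  simp

/-- The identity. -/
theorem b6_id (n : ℕ) (W : ι → E →L[ℂ] E) (Θ : (ι → ℕ) → E) :
    ((nq n (vs W Θ) + ∑ i, nq (n + 1) (fun α => W i (Θ α)) : ℝ) : ℂ) =
      ((nq (n + 2) (vv W Θ) : ℝ) : ℂ) +
      (∑ i, ∑ j, ip (n + 2) (sh i Θ) (sh j (fun α => b6_C W i j (Θ α))) -
        ∑ i, ip (n + 1) Θ (fun α => b6_C W i i (Θ α))) := by
  have h1 : ∀ i j, ip (n + 2) (sh i (fun α => W i (Θ α))) (sh j (fun α => W j (Θ α))) =
      ip n (fun α => ContinuousLinearMap.adjoint (W j) (dr j Θ α))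
        (fun α => ContinuousLinearMap.adjoint (W i) (dr i Θ α)) -
      ip (n + 1) Θ (sh j (dr i (fun α => b6_C W i j (Θ α)))) +
      if i = j then ip (n + 1) (fun α => W i (Θ α)) (fun α => W j (Θ α)) else 0 := by
    intro i j
    rw [b6_two, b6_term]
  have h2 : ∀ i j, ip (n + 2) (sh i Θ) (sh j (fun α => b6_C W i j (Θ α))) =
      ip (n + 1) Θ (sh j (dr i (fun α => b6_C W i j (Θ α)))) +
      if i = j then ip (n + 1) Θ (fun α => b6_C W i j (Θ α)) else 0 := fun i j => b6_two n i j _ _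
  rw [b6_vv2]
  simp only [h1, h2]
  simp only [Finset.sum_add_distrib, Finset.sum_sub_distrib, Finset.sum_ite_eq, Finset.mem_univ, if_true]
  rw [← b6_vs2]
  simp only [ip_self]
  push_cast
  ring

theorem b6_nrm_single (i : ι) : nrm (Pi.single i (1 : ℂ) : ι → ℂ) = 1 := by
  unfold nrm
  rw [Finset.sum_eq_single i]
  · simp
  · intro j _ hj
    rw [Pi.single_eq_of_ne hj]
    simp
  · intro h
    exact absurd (Finset.mem_univ i) h

theorem growth (n : ℕ) (W : ι → E →L[ℂ] E) {c : ℝ} (hc0 : 0 ≤ c)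
    (hc : ∀ z w, ‖wz W z * ContinuousLinearMap.adjoint (wz W w) -
      ContinuousLinearMap.adjoint (wz W w) * wz W z‖ ≤ c * nrm z * nrm w)
    (Θ : (ι → ℕ) → E) :
    nq n (vs W Θ) + ∑ i, nq (n + 1) (fun α => W i (Θ α)) ≤
      nq (n + 2) (vv W Θ) + c * (n + 1 + 2 * Fintype.card ι) * nq (n + 1) Θ := by
  have hm := mean_C (n + 1) (b6_C W) hc0 (fun z => by
    have e : ∑ i, ∑ j, (conj (z i) * z j) • b6_C W i j =
        wz W z * ContinuousLinearMap.adjoint (wz W z) - ContinuousLinearMap.adjoint (wz W z) * wz W z := by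
      unfold b6_C wz
      rw [map_sum]
      simp only [map_smulₛₗ, Finset.sum_mul_sum, smul_sub, Finset.sum_sub_distrib, smul_mul_smul_comm]
      rw [Finset.sum_comm]
      simp only [mul_comm]
    rw [e]
    refine (hc z z).trans (le_of_eq ?_)
    ring) Θ
  have hCi : ∀ i, ‖b6_C W i i‖ ≤ c := by
    intro i
    have h := hc (Pi.single i 1) (Pi.single i 1)
    rw [b6_nrm_single, mul_one, mul_one] at h
    have e : wz W (Pi.single i (1 : ℂ)) = W i := by
      unfold wz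
      rw [Finset.sum_eq_single i]
      · simp
      · intro j _ hj
        rw [Pi.single_eq_of_ne hj, zero_smul]
      · intro h
        exact absurd (Finset.mem_univ i) h
    rw [e] at h
    exact h
  have hq0 : 0 ≤ nq (n + 1) Θ := by
    unfold nq
    positivity
  have h2 : ∀ i, ‖ip (n + 1) Θ (fun α => b6_C W i i (Θ α))‖ ≤ c * nq (n + 1) Θ := by
    intro i
    refine (ip_le _ _ _).trans ?_
    have h3 : nq (n + 1) (fun α => b6_C W i i (Θ α)) ≤ c ^ 2 * nq (n + 1) Θ := by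
      unfold nq
      rw [Finset.mul_sum]
      refine Finset.sum_le_sum fun α _ => ?_
      have h4 : ‖b6_C W i i (Θ α)‖ ≤ c * ‖Θ α‖ :=
        ((b6_C W i i).le_opNorm _).trans (mul_le_mul_of_nonneg_right (hCi i) (norm_nonneg _))
      calc (fa α : ℝ) * ‖b6_C W i i (Θ α)‖ ^ 2 ≤ (fa α : ℝ) * (c * ‖Θ α‖) ^ 2 := by gcongr
        _ = c ^ 2 * ((fa α : ℝ) * ‖Θ α‖ ^ 2) := by ring
    calc √(nq (n + 1) Θ) * √(nq (n + 1) (fun α => b6_C W i i (Θ α)))
        ≤ √(nq (n + 1) Θ) * √(c ^ 2 * nq (n + 1) Θ) := by gcongr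
      _ = c * nq (n + 1) Θ := by
        rw [Real.sqrt_mul (sq_nonneg c), Real.sqrt_sq hc0, mul_left_comm, Real.mul_self_sqrt hq0]
  have h5 := b6_id n W Θ
  set S : ℂ := ∑ i, ∑ j, ip (n + 2) (sh i Θ) (sh j (fun α => b6_C W i j (Θ α))) -
        ∑ i, ip (n + 1) Θ (fun α => b6_C W i i (Θ α)) with hS
  have h6 : ‖S‖ ≤ c * (n + 1 + 2 * Fintype.card ι) * nq (n + 1) Θ := by
    refine (norm_sub_le _ _).trans ?_
    have h7 : ‖∑ i, ip (n + 1) Θ (fun α => b6_C W i i (Θ α))‖ ≤ Fintype.card ι * (c * nq (n + 1) Θ) := by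
      refine (norm_sum_le _ _).trans ((Finset.sum_le_sum fun i _ => h2 i).trans (le_of_eq ?_))
      rw [Finset.sum_const, Finset.card_univ, nsmul_eq_mul]
    refine (add_le_add hm h7).trans (le_of_eq ?_)
    push_cast
    ring
  have h8 := congrArg Complex.re h5
  rw [Complex.add_re, Complex.ofReal_re, Complex.ofReal_re] at h8
  have h9 := Complex.re_le_norm S
  linarith

/-- (c) of `PROOF.md`: `nq (n+1) (vv W F) = ∑ j ip n (W_j F) (dr j (vv W F))`, `ip_sum_le`,
`sum_nq_dr`. -/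
theorem row_bound (n : ℕ) (W : ι → E →L[ℂ] E) (F : (ι → ℕ) → E) :
    nq (n + 1) (vv W F) ≤ (n + 1) * ∑ i, nq n (fun α => W i (F α)) := by
  have hX0 : 0 ≤ nq (n + 1) (vv W F) := by
    unfold nq
    positivity
  have hA0 : 0 ≤ ∑ i, nq n (fun α => W i (F α)) := by
    unfold nq
    positivity
  have e1 : ((nq (n + 1) (vv W F) : ℝ) : ℂ) = ∑ j, ip n (fun α => W j (F α)) (dr j (vv W F)) := by
    rw [← ip_self]
    have e2 : ip (n + 1) (vv W F) (vv W F) = ∑ j, ip (n + 1) (sh j (fun α => W j (F α))) (vv W F) :=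
      ip_sum_left univ (n + 1) (fun j => sh j (fun α => W j (F α))) (vv W F)
    rw [e2]
    exact Finset.sum_congr rfl fun j _ => ip_sh _ _ _ _
  have h1 := ip_sum_le univ n (fun j => fun α => W j (F α)) (fun j => dr j (vv W F))
  rw [← e1, sum_nq_dr, Complex.norm_real, Real.norm_eq_abs, abs_of_nonneg hX0] at h1
  set X := nq (n + 1) (vv W F) with hX
  set A := ∑ i, nq n (fun α => W i (F α)) with hA
  rcases hX0.eq_or_lt with h0 | h0
  · rw [← h0]
    positivity
  · have h2 : X ^ 2 ≤ A * ((n + 1) * X) := by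
      calc X ^ 2 ≤ (√A * √((n + 1) * X)) ^ 2 := by gcongr
        _ = A * ((n + 1) * X) := by
          rw [mul_pow, Real.sq_sqrt hA0, Real.sq_sqrt (by positivity)]
    have h3 : X * X ≤ ((n + 1) * A) * X := by nlinarith
    exact le_of_mul_le_mul_right h3 h0

end Pool.Agent.H46P
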