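import Pool.Agent.Lib.H46P.B0

set_option autoImplicit false

/-!
# Chunk B7: `[K, W_z]` and top vectors

`comm_K`: `[K, W_z] = ∑ W_i^* [W_i, W_z] + [W_i^*, W_z] W_i`.  For vectors `φ, ψ`:
`|∑ ⟪W_i φ, [W_i, W_z] ψ⟫| ≤ (∑ ‖W_i φ‖^2)^(1/2) (∑ ‖[W_i,W_z] ψ‖^2)^(1/2) ≤ √‖K‖ ‖φ‖ √card c nrm z ‖ψ‖`
(`w = Pi.single i 1`, `∑ ‖W_i φ‖^2 = re ⟪φ, K φ⟫`); the second sum is similar
(`[W_i^*, W_z]^* = [W_z^*, W_i]`, or bound `∑ ‖[W_i^*, W_z]^* φ‖^2`).
`exists_top`: the space of functions `St ι n → E` is finite dimensional, the sphere `nq n F = 1`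
compact and nonempty (`St ι n` is nonempty as `ι` is), `nq (n+1) (vv W .)` is continuous; take a
maximum point. First order condition: for all `Ψ` and real `t`,
`nq (n+1) (vv W (Θ + t Ψ)) ≤ X nq n (Θ + t Ψ)`, so the real part of
`ip (n+1) (vv W Ψ) (vv W Θ) - X ip n Ψ Θ` vanishes; replace `Ψ` by `I • Ψ`.
(Functions are extended by `0` outside `St ι n`; `nq`, `ip`, `vv` in degree `n+1` only see `St ι n`.)
-/

namespace Pool.Agent.H46P

open Finset
open scoped BigOperators ComplexConjugate InnerProductSpace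

variable {ι : Type*} [Fintype ι] [DecidableEq ι]
  {E : Type*} [NormedAddCommGroup E] [InnerProductSpace ℂ E]

/-- `K = ∑ W_i^* W_i` -/
noncomputable def KK [CompleteSpace E] (W : ι → E →L[ℂ] E) : E →L[ℂ] E :=
  ∑ i, ContinuousLinearMap.adjoint (W i) * W i

omit [DecidableEq ι] in
theorem b7_wz_single [DecidableEq ι] (W : ι → E →L[ℂ] E) (i : ι) :
    wz W (Pi.single i 1) = W i := by
  unfold wz
  rw [Finset.sum_eq_single i]
  · simp
  · intro j _ hj
    simp [Pi.single_eq_of_ne hj]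
  · simp

theorem b7_nrm_single (i : ι) : nrm (Pi.single i (1 : ℂ)) = 1 := by
  unfold nrm
  rw [Finset.sum_eq_single i]
  · simp
  · intro j _ hj
    simp [Pi.single_eq_of_ne hj]
  · simp

omit [DecidableEq ι] in
theorem b7_KK_inner [CompleteSpace E] (W : ι → E →L[ℂ] E) (φ : E) :
    ∑ i, ‖W i φ‖ ^ 2 ≤ ‖KK W‖ * ‖φ‖ ^ 2 := by
  have h : (∑ i, ‖W i φ‖ ^ 2 : ℝ) = (⟪φ, KK W φ⟫_ℂ).re := by
    unfold KK
    rw [ContinuousLinearMap.sum_apply, inner_sum, Complex.re_sum]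
    refine Finset.sum_congr rfl fun i _ => ?_
    rw [ContinuousLinearMap.mul_apply, ContinuousLinearMap.adjoint_inner_right,
      inner_self_eq_norm_sq_to_K]
    norm_cast
  rw [h]
  calc (⟪φ, KK W φ⟫_ℂ).re ≤ ‖⟪φ, KK W φ⟫_ℂ‖ := Complex.re_le_norm _
    _ ≤ ‖φ‖ * ‖KK W φ‖ := norm_inner_le_norm _ _
    _ ≤ ‖φ‖ * (‖KK W‖ * ‖φ‖) := by gcongr; exact (KK W).le_opNorm φ
    _ = _ := by ring

omit [DecidableEq ι] in
/-- Cauchy-Schwarz with two bounds. -/
theorem b7_cs (a b : ι → E) {A B C : ℝ} (hB : 0 ≤ B) (hC : 0 ≤ C) (hA : 0 ≤ A)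
    (ha : ∑ i, ‖a i‖ ^ 2 ≤ A * B ^ 2) (hb : ∀ i, ‖b i‖ ≤ C) :
    ‖∑ i, ⟪a i, b i⟫_ℂ‖ ≤ √(A * Fintype.card ι) * B * C := by
  have h1 : ‖∑ i, ⟪a i, b i⟫_ℂ‖ ≤ ∑ i, ‖a i‖ * ‖b i‖ :=
    (norm_sum_le _ _).trans (Finset.sum_le_sum fun i _ => norm_inner_le_norm _ _)
  have h2 : ∑ i, ‖a i‖ * ‖b i‖ ≤ √(∑ i, ‖a i‖ ^ 2) * √(∑ i, ‖b i‖ ^ 2) :=
    Real.sum_mul_le_sqrt_mul_sqrt _ _ _
  have h3 : √(∑ i, ‖a i‖ ^ 2) ≤ √A * B := by
    calc √(∑ i, ‖a i‖ ^ 2) ≤ √(A * B ^ 2) := Real.sqrt_le_sqrt ha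
      _ = √A * B := by rw [Real.sqrt_mul hA, Real.sqrt_sq hB]
  have h4 : √(∑ i, ‖b i‖ ^ 2) ≤ √(Fintype.card ι) * C := by
    have h5 : ∑ i, ‖b i‖ ^ 2 ≤ (Fintype.card ι : ℝ) * C ^ 2 := by
      calc ∑ i, ‖b i‖ ^ 2 ≤ ∑ _i : ι, C ^ 2 :=
            Finset.sum_le_sum fun i _ => pow_le_pow_left₀ (norm_nonneg _) (hb i) 2
        _ = _ := by simp
    calc √(∑ i, ‖b i‖ ^ 2) ≤ √((Fintype.card ι : ℝ) * C ^ 2) := Real.sqrt_le_sqrt h5
      _ = √(Fintype.card ι) * C := by rw [Real.sqrt_mul (by positivity), Real.sqrt_sq hC]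
  calc ‖∑ i, ⟪a i, b i⟫_ℂ‖ ≤ √(∑ i, ‖a i‖ ^ 2) * √(∑ i, ‖b i‖ ^ 2) := h1.trans h2
    _ ≤ (√A * B) * (√(Fintype.card ι) * C) := by gcongr
    _ = √(A * Fintype.card ι) * B * C := by
        rw [Real.sqrt_mul hA]; ring

theorem comm_K [CompleteSpace E] (W : ι → E →L[ℂ] E) {c : ℝ} (hc0 : 0 ≤ c)
    (h1 : ∀ z w, ‖wz W z * wz W w - wz W w * wz W z‖ ≤ c * nrm z * nrm w)
    (h2 : ∀ z w, ‖wz W z * ContinuousLinearMap.adjoint (wz W w) -
      ContinuousLinearMap.adjoint (wz W w) * wz W z‖ ≤ c * nrm z * nrm w) (z : ι → ℂ) :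
    ‖KK W * wz W z - wz W z * KK W‖ ≤ 2 * √(‖KK W‖ * Fintype.card ι) * c * nrm z := by
  have hz := nrm_nonneg z
  have e1 : ∀ i, ‖W i * wz W z - wz W z * W i‖ ≤ c * nrm z := by
    intro i
    have := h1 (Pi.single i 1) z
    rw [b7_wz_single, b7_nrm_single, mul_one] at this
    exact this
  have e2 : ∀ i, ‖ContinuousLinearMap.adjoint (W i) * wz W z -
      wz W z * ContinuousLinearMap.adjoint (W i)‖ ≤ c * nrm z := by
    intro i
    have := h2 z (Pi.single i 1)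
    rw [b7_wz_single, b7_nrm_single, mul_one] at this
    rw [norm_sub_rev]
    exact this
  set X : E →L[ℂ] E := KK W * wz W z - wz W z * KK W with hX
  set S : ℝ := √(‖KK W‖ * Fintype.card ι) with hS
  have hS0 : 0 ≤ S := Real.sqrt_nonneg _
  have key : ∀ φ ψ : E, ‖⟪φ, X ψ⟫_ℂ‖ ≤ (2 * S * c * nrm z) * ‖φ‖ * ‖ψ‖ := by
    intro φ ψ
    have hdec : ⟪φ, X ψ⟫_ℂ = (∑ i, ⟪W i φ, (W i * wz W z - wz W z * W i) ψ⟫_ℂ) +
        ∑ i, ⟪ContinuousLinearMap.adjoint (ContinuousLinearMap.adjoint (W i) * wz W z -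
          wz W z * ContinuousLinearMap.adjoint (W i)) φ, W i ψ⟫_ℂ := by
      rw [← Finset.sum_add_distrib]
      have hXs : X = ∑ i, (ContinuousLinearMap.adjoint (W i) * (W i * wz W z - wz W z * W i) +
          (ContinuousLinearMap.adjoint (W i) * wz W z -
            wz W z * ContinuousLinearMap.adjoint (W i)) * W i) := by
        rw [hX]
        unfold KK
        rw [Finset.sum_mul, Finset.mul_sum, ← Finset.sum_sub_distrib]
        refine Finset.sum_congr rfl fun i _ => ?_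
        noncomm_ring
      rw [hXs, ContinuousLinearMap.sum_apply, inner_sum]
      refine Finset.sum_congr rfl fun i _ => ?_
      rw [ContinuousLinearMap.add_apply, inner_add_right, ContinuousLinearMap.mul_apply,
        ContinuousLinearMap.adjoint_inner_right, ContinuousLinearMap.mul_apply,
        ContinuousLinearMap.adjoint_inner_left]
    rw [hdec]
    have b1 : ‖∑ i, ⟪W i φ, (W i * wz W z - wz W z * W i) ψ⟫_ℂ‖ ≤
        S * ‖φ‖ * (c * nrm z * ‖ψ‖) := by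
      refine b7_cs _ _ (norm_nonneg φ) (by positivity) (norm_nonneg _) (b7_KK_inner W φ) ?_
      intro i
      exact (ContinuousLinearMap.le_opNorm _ ψ).trans
        (mul_le_mul_of_nonneg_right (e1 i) (norm_nonneg _))
    have b2 : ‖∑ i, ⟪ContinuousLinearMap.adjoint (ContinuousLinearMap.adjoint (W i) * wz W z -
          wz W z * ContinuousLinearMap.adjoint (W i)) φ, W i ψ⟫_ℂ‖ ≤
        S * ‖ψ‖ * (c * nrm z * ‖φ‖) := by
      have hsw : ‖∑ i, ⟪ContinuousLinearMap.adjoint (ContinuousLinearMap.adjoint (W i) * wz W z -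
          wz W z * ContinuousLinearMap.adjoint (W i)) φ, W i ψ⟫_ℂ‖ =
          ‖∑ i, ⟪W i ψ, ContinuousLinearMap.adjoint (ContinuousLinearMap.adjoint (W i) * wz W z -
          wz W z * ContinuousLinearMap.adjoint (W i)) φ⟫_ℂ‖ := by
        rw [← RCLike.norm_conj (∑ i, ⟪W i ψ, _⟫_ℂ), map_sum]
        congr 1
        refine Finset.sum_congr rfl fun i _ => ?_
        rw [inner_conj_symm]
      rw [hsw]
      refine b7_cs _ _ (norm_nonneg ψ) (by positivity) (norm_nonneg _) (b7_KK_inner W ψ) ?_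
      intro i
      refine (ContinuousLinearMap.le_opNorm _ φ).trans
        (mul_le_mul_of_nonneg_right ?_ (norm_nonneg _))
      rw [LinearIsometryEquiv.norm_map]
      exact e2 i
    calc _ ≤ S * ‖φ‖ * (c * nrm z * ‖ψ‖) + S * ‖ψ‖ * (c * nrm z * ‖φ‖) :=
          (norm_add_le _ _).trans (add_le_add b1 b2)
      _ = _ := by ring
  refine ContinuousLinearMap.opNorm_le_bound _ (by positivity) fun ψ => ?_
  by_cases h0 : ‖X ψ‖ = 0
  · rw [h0]; positivity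
  · have h3 := key (X ψ) ψ
    rw [inner_self_eq_norm_sq_to_K] at h3
    have h4 : ‖((‖X ψ‖ : ℂ)) ^ 2‖ = ‖X ψ‖ * ‖X ψ‖ := by
      rw [norm_pow, Complex.norm_real, norm_norm, sq]
    have h5 : ‖X ψ‖ * ‖X ψ‖ ≤ (2 * S * c * nrm z) * ‖X ψ‖ * ‖ψ‖ := by
      rw [← h4]; exact h3
    have h6 : 0 < ‖X ψ‖ := lt_of_le_of_ne (norm_nonneg _) (Ne.symm h0)
    have h7 : ‖X ψ‖ * ‖X ψ‖ ≤ ‖X ψ‖ * ((2 * S * c * nrm z) * ‖ψ‖) := by linarith [h5]
    exact le_of_mul_le_mul_left h7 h6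

/-! ### top vectors -/

/-- extension by zero -/
noncomputable def b7_ext (n : ℕ) (G : St ι n → E) : (ι → ℕ) → E := fun α =>
  if h : α ∈ St ι n then G ⟨α, h⟩ else 0

theorem b7_ext_mem (n : ℕ) (G : St ι n → E) (a : St ι n) : b7_ext n G a = G a := by
  unfold b7_ext
  rw [dif_pos a.2]

theorem b7_nq_ext (n : ℕ) (G : St ι n → E) :
    nq n (b7_ext n G) = ∑ a : St ι n, (fa (a : ι → ℕ) : ℝ) * ‖G a‖ ^ 2 := by
  unfold nq
  rw [← Finset.sum_coe_sort]
  refine Finset.sum_congr rfl fun a _ => ?_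
  rw [b7_ext_mem]

theorem b7_nq_congr (n : ℕ) {F G : (ι → ℕ) → E} (h : ∀ α ∈ St ι n, F α = G α) :
    nq n F = nq n G := by
  unfold nq
  refine Finset.sum_congr rfl fun a ha => ?_
  rw [h a ha]

theorem b7_upd_mem (n : ℕ) {β : ι → ℕ} (hβ : β ∈ St ι (n + 1)) (j : ι) (hj : 1 ≤ β j) :
    Function.update β j (β j - 1) ∈ St ι n := by
  rw [mem_St] at hβ ⊢
  rw [Finset.sum_update_of_mem (Finset.mem_univ j)]
  have := Finset.add_sum_erase Finset.univ β (Finset.mem_univ j)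
  rw [← Finset.erase_eq] 
  omega

theorem b7_vv_congr (n : ℕ) (W : ι → E →L[ℂ] E) {F G : (ι → ℕ) → E}
    (h : ∀ α ∈ St ι n, F α = G α) : ∀ β ∈ St ι (n + 1), vv W F β = vv W G β := by
  intro β hβ
  unfold vv
  refine Finset.sum_congr rfl fun j _ => ?_
  unfold sh
  by_cases hj : 1 ≤ β j
  · rw [if_pos hj, if_pos hj]
    change W j (F _) = W j (G _)
    rw [h _ (b7_upd_mem n hβ j hj)]
  · rw [if_neg hj, if_neg hj]

omit [DecidableEq ι] in
theorem b7_vv_add_smul [DecidableEq ι] (W : ι → E →L[ℂ] E) (F G : (ι → ℕ) → E) (t : ℂ) :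
    vv W (F + t • G) = vv W F + t • vv W G := by
  funext β
  simp only [vv, sh, Pi.add_apply, Pi.smul_apply]
  rw [Finset.smul_sum, ← Finset.sum_add_distrib]
  refine Finset.sum_congr rfl fun j _ => ?_
  by_cases hj : 1 ≤ β j
  · simp [if_pos hj]
  · simp [if_neg hj]

omit [DecidableEq ι] in
theorem b7_vv_smul [DecidableEq ι] (W : ι → E →L[ℂ] E) (G : (ι → ℕ) → E) (t : ℂ) :
    vv W (t • G) = t • vv W G := by
  funext β
  simp only [vv, sh, Pi.smul_apply]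
  rw [Finset.smul_sum]
  refine Finset.sum_congr rfl fun j _ => ?_
  by_cases hj : 1 ≤ β j
  · simp [if_pos hj]
  · simp [if_neg hj]

theorem b7_nq_smul (n : ℕ) (F : (ι → ℕ) → E) (t : ℂ) : nq n (t • F) = ‖t‖ ^ 2 * nq n F := by
  unfold nq
  rw [Finset.mul_sum]
  refine Finset.sum_congr rfl fun a _ => ?_
  rw [Pi.smul_apply, norm_smul]
  ring

theorem b7_nq_add (n : ℕ) (F G : (ι → ℕ) → E) (t : ℝ) :
    nq n (F + (t : ℂ) • G) = nq n F + 2 * t * (ip n G F).re + t ^ 2 * nq n G := by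
  unfold nq ip
  rw [Complex.re_sum, Finset.mul_sum, Finset.mul_sum, ← Finset.sum_add_distrib,
    ← Finset.sum_add_distrib]
  refine Finset.sum_congr rfl fun a _ => ?_
  rw [Pi.add_apply, Pi.smul_apply, norm_add_sq (𝕜 := ℂ), inner_smul_right, norm_smul,
    Complex.norm_real]
  have h1 : RCLike.re ((t : ℂ) * ⟪F a, G a⟫_ℂ) = t * (⟪G a, F a⟫_ℂ).re := by
    have h2 : (⟪F a, G a⟫_ℂ).re = (⟪G a, F a⟫_ℂ).re := inner_re_symm (𝕜 := ℂ) (F a) (G a)
    rw [← h2]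
    change ((t : ℂ) * ⟪F a, G a⟫_ℂ).re = _
    rw [Complex.re_ofReal_mul]
  have h3 : ((fa a : ℂ) * ⟪G a, F a⟫_ℂ).re = (fa a : ℝ) * (⟪G a, F a⟫_ℂ).re := by
    have : (fa a : ℂ) = ((fa a : ℝ) : ℂ) := by push_cast; rfl
    rw [this, Complex.re_ofReal_mul]
  rw [h1, h3, Real.norm_eq_abs, mul_pow, sq_abs]
  ring

theorem b7_ip_smul (n : ℕ) (F G : (ι → ℕ) → E) (t : ℂ) :
    ip n (t • F) G = conj t * ip n F G := by
  unfold ip
  rw [Finset.mul_sum]
  refine Finset.sum_congr rfl fun a _ => ?_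
  rw [Pi.smul_apply, inner_smul_left]
  ring

theorem b7_nq_nonneg (n : ℕ) (F : (ι → ℕ) → E) : 0 ≤ nq n F :=
  Finset.sum_nonneg fun _ _ => by positivity

theorem b7_fa_pos (α : ι → ℕ) : 1 ≤ fa α := Nat.one_le_iff_ne_zero.mpr
  (Finset.prod_ne_zero_iff.mpr fun _ _ => Nat.factorial_ne_zero _)

theorem b7_nq_zero (n : ℕ) {F : (ι → ℕ) → E} (h : nq n F = 0) : ∀ α ∈ St ι n, F α = 0 := by
  intro α hα
  unfold nq at h
  rw [Finset.sum_eq_zero_iff_of_nonneg (fun _ _ => by positivity)] at h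
  have h1 := h α hα
  have h2 : (0 : ℝ) < fa α := by exact_mod_cast b7_fa_pos α
  have h3 : ‖F α‖ ^ 2 = 0 := by
    rcases mul_eq_zero.mp h1 with h | h
    · exact absurd h h2.ne'
    · exact h
  exact norm_eq_zero.mp (pow_eq_zero_iff two_ne_zero |>.mp h3)

theorem b7_lin {u v : ℝ} (h : ∀ t : ℝ, 0 ≤ 2 * t * u + t ^ 2 * v) : u = 0 := by
  by_contra hu
  have h1 := h (-u / (|v| + 1))
  have hv : 0 < |v| + 1 := by positivity
  have h2 : 2 * (-u / (|v| + 1)) * u + (-u / (|v| + 1)) ^ 2 * v =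
      (u ^ 2 / (|v| + 1) ^ 2) * (v - 2 * (|v| + 1)) := by
    field_simp
    ring
  rw [h2] at h1
  have h3 : 0 < u ^ 2 / (|v| + 1) ^ 2 := by positivity
  have h4 : v - 2 * (|v| + 1) < 0 := by
    have := le_abs_self v
    have := abs_nonneg v
    linarith
  have := mul_neg_of_pos_of_neg h3 h4
  linarith

theorem b7_cont_ext (n : ℕ) (α : ι → ℕ) :
    Continuous fun G : St ι n → E => b7_ext n G α := by
  by_cases h : α ∈ St ι n
  · have : (fun G : St ι n → E => b7_ext n G α) = fun G => G ⟨α, h⟩ := by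
      funext G; unfold b7_ext; rw [dif_pos h]
    rw [this]
    exact continuous_apply _
  · have : (fun G : St ι n → E => b7_ext n G α) = fun _ => 0 := by
      funext G; unfold b7_ext; rw [dif_neg h]
    rw [this]
    exact continuous_const

theorem b7_cont_vv (n : ℕ) (W : ι → E →L[ℂ] E) (β : ι → ℕ) :
    Continuous fun G : St ι n → E => vv W (b7_ext n G) β := by
  unfold vv sh
  refine continuous_finset_sum _ fun j _ => ?_
  by_cases hj : 1 ≤ β j
  · simp only [if_pos hj]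
    exact (W j).continuous.comp (b7_cont_ext n _)
  · simp only [if_neg hj]
    exact continuous_const

theorem b7_St_nonempty [Nonempty ι] (n : ℕ) : (St ι n).Nonempty := by
  obtain ⟨i⟩ := ‹Nonempty ι›
  refine ⟨Pi.single i n, ?_⟩
  rw [mem_St, Finset.sum_pi_single']
  simp

theorem exists_top [Nonempty ι] [FiniteDimensional ℂ E] [Nontrivial E] (W : ι → E →L[ℂ] E)
    (n : ℕ) : ∃ Θ : (ι → ℕ) → E, nq n Θ = 1 ∧
      (∀ F, nq (n + 1) (vv W F) ≤ nq (n + 1) (vv W Θ) * nq n F) ∧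
      ∀ Ψ, ip (n + 1) (vv W Ψ) (vv W Θ) = nq (n + 1) (vv W Θ) * ip n Ψ Θ := by
  haveI : ProperSpace (St ι n → E) := FiniteDimensional.proper ℂ _
  set K : Set (St ι n → E) := {G | nq n (b7_ext n G) = 1} with hK
  have hcn : Continuous fun G : St ι n → E => nq n (b7_ext n G) := by
    unfold nq
    refine continuous_finset_sum _ fun a _ => ?_
    exact continuous_const.mul ((b7_cont_ext n a).norm.pow 2)
  have hcv : Continuous fun G : St ι n → E => nq (n + 1) (vv W (b7_ext n G)) := by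
    unfold nq
    refine continuous_finset_sum _ fun a _ => ?_
    exact continuous_const.mul ((b7_cont_vv n W a).norm.pow 2)
  have hKc : IsCompact K := by
    refine Metric.isCompact_of_isClosed_isBounded (isClosed_singleton.preimage hcn) ?_
    refine (Metric.isBounded_closedBall (x := (0 : St ι n → E)) (r := 1)).subset ?_
    intro G hG
    rw [mem_closedBall_zero_iff, pi_norm_le_iff_of_nonneg zero_le_one]
    intro a
    have h1 : (fa (a : ι → ℕ) : ℝ) * ‖G a‖ ^ 2 ≤ 1 := by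
      rw [hK, Set.mem_setOf_eq, b7_nq_ext] at hG
      rw [← hG]
      exact Finset.single_le_sum (f := fun a : St ι n => (fa (a : ι → ℕ) : ℝ) * ‖G a‖ ^ 2)
        (fun _ _ => by positivity) (Finset.mem_univ a)
    have h2 : (1 : ℝ) ≤ fa (a : ι → ℕ) := by exact_mod_cast b7_fa_pos (a : ι → ℕ)
    have h3 : ‖G a‖ ^ 2 ≤ 1 := by nlinarith [sq_nonneg ‖G a‖]
    nlinarith [norm_nonneg (G a)]
  have hKn : K.Nonempty := by
    obtain ⟨α, hα⟩ := b7_St_nonempty (ι := ι) n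
    obtain ⟨v, hv⟩ := exists_ne (0 : E)
    have hv' : 0 < ‖v‖ := norm_pos_iff.mpr hv
    have hf : (0 : ℝ) < fa α := by exact_mod_cast b7_fa_pos α
    set G0 : St ι n → E := Pi.single ⟨α, hα⟩ v with hG0
    have hpos : 0 < nq n (b7_ext n G0) := by
      rw [b7_nq_ext]
      refine Finset.sum_pos' (fun _ _ => by positivity) ⟨⟨α, hα⟩, Finset.mem_univ _, ?_⟩
      rw [hG0, Pi.single_eq_same]
      positivity
    set r : ℝ := √(nq n (b7_ext n G0)) with hr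
    have hrpos : 0 < r := Real.sqrt_pos.mpr hpos
    refine ⟨((r⁻¹ : ℝ) : ℂ) • G0, ?_⟩
    have hext : b7_ext n (((r⁻¹ : ℝ) : ℂ) • G0) = ((r⁻¹ : ℝ) : ℂ) • b7_ext n G0 := by
      funext α
      unfold b7_ext
      by_cases h : α ∈ St ι n
      · simp [h]
      · simp [h]
    rw [hK, Set.mem_setOf_eq, hext, b7_nq_smul, Complex.norm_real, Real.norm_eq_abs, sq_abs,
      inv_pow, hr, Real.sq_sqrt hpos.le]
    exact inv_mul_cancel₀ hpos.ne'
  obtain ⟨G, hGK, hGmax⟩ := hKc.exists_isMaxOn hKn hcv.continuousOn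
  set Θ : (ι → ℕ) → E := b7_ext n G with hΘ
  set X : ℝ := nq (n + 1) (vv W Θ) with hX
  have hΘ1 : nq n Θ = 1 := hGK
  have hmax : ∀ F, nq (n + 1) (vv W F) ≤ X * nq n F := by
    intro F
    by_cases h0 : nq n F = 0
    · have h1 : ∀ α ∈ St ι n, F α = (0 : (ι → ℕ) → E) α := b7_nq_zero n h0
      have h2 : nq (n + 1) (vv W F) = 0 := by
        rw [b7_nq_congr (n + 1) (b7_vv_congr n W h1)]
        have h3 : vv W (0 : (ι → ℕ) → E) = 0 := by
          have := b7_vv_smul W (0 : (ι → ℕ) → E) 0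
          simpa using this
        rw [h3]
        unfold nq
        simp
      rw [h2, h0, mul_zero]
    · have hpos : 0 < nq n F := lt_of_le_of_ne (b7_nq_nonneg n F) (Ne.symm h0)
      set r : ℝ := √(nq n F) with hr
      have hrpos : 0 < r := Real.sqrt_pos.mpr hpos
      set G1 : St ι n → E := fun a => ((r⁻¹ : ℝ) : ℂ) • F a with hG1
      have hagree : ∀ α ∈ St ι n, b7_ext n G1 α = (((r⁻¹ : ℝ) : ℂ) • F) α := by
        intro α hα
        have := b7_ext_mem n G1 ⟨α, hα⟩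
        simp only at this
        rw [this, hG1]
        rfl
      have hG1K : G1 ∈ K := by
        rw [hK, Set.mem_setOf_eq, b7_nq_congr n hagree, b7_nq_smul, Complex.norm_real,
          Real.norm_eq_abs, sq_abs, inv_pow, hr, Real.sq_sqrt hpos.le]
        exact inv_mul_cancel₀ hpos.ne'
      have h4 : nq (n + 1) (vv W (b7_ext n G1)) ≤ X := hGmax hG1K
      rw [b7_nq_congr (n + 1) (b7_vv_congr n W hagree), b7_vv_smul, b7_nq_smul,
        Complex.norm_real, Real.norm_eq_abs, sq_abs, inv_pow, hr, Real.sq_sqrt hpos.le] at h4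
      rw [inv_mul_le_iff₀ hpos] at h4
      linarith
  have hre : ∀ Ψ, (ip (n + 1) (vv W Ψ) (vv W Θ)).re = X * (ip n Ψ Θ).re := by
    intro Ψ
    have h5 : X * (ip n Ψ Θ).re - (ip (n + 1) (vv W Ψ) (vv W Θ)).re = 0 := by
      refine b7_lin (v := X * nq n Ψ - nq (n + 1) (vv W Ψ)) fun t => ?_
      have h6 := hmax (Θ + (t : ℂ) • Ψ)
      rw [b7_vv_add_smul, b7_nq_add, b7_nq_add, hΘ1, ← hX] at h6
      nlinarith [h6]
    linarith
  refine ⟨Θ, hΘ1, hmax, fun Ψ => ?_⟩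
  apply Complex.ext
  · rw [hre Ψ, Complex.re_ofReal_mul]
  · have h7 := hre (Complex.I • Ψ)
    rw [b7_vv_smul, b7_ip_smul, b7_ip_smul, Complex.conj_I] at h7
    rw [Complex.im_ofReal_mul]
    simpa using h7

end Pool.Agent.H46P
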