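import Pool.Agent.Lib.H46P.B6
import Pool.Agent.Lib.H46P.B7

/-!
# Chunk B8: the one step inequality (see `PROOF.md`, section 3)

`X = nq (n+1) (vv W Θ)`, `T' = X^(-1/2) vv W Θ`, `nq (n+1) T' = 1`.
1. `vs W (vv W Θ) α = X • Θ α` for `α ∈ St ι n`: for all `Ψ`, `ip n Ψ (vs W (vv W Θ)) =
   ip (n+1) (vv W Ψ) (vv W Θ) = X ip n Ψ Θ`; take `Ψ` supported at `α`. So `nq n (vs W T') = X`.
2. `growth` for `T'`: `X + κ' ≤ nq (n+2) (vv W T') + c (n+1+2 card)`, `κ' = ∑ i, nq (n+1) (W_i T')`.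
3. `∑ i, nq m (W_i F) = re (ip m F (K F))` for all `F`, `m`.
4. `K (vv W Θ) = vv W (K Θ) + vv B Θ` with `B j = K W_j - W_j K`; `ip (n+1) (vv W Θ) (vv W (K Θ)) =
   X ip n Θ (K Θ)` (conjugate of `htop` for `Ψ = K Θ`), so
   `κ' = X⁻¹ re ip (n+1) (vv W Θ) (K (vv W Θ)) ≥ κ₀ - X⁻¹ √X √(nq (n+1) (vv B Θ))`,
   `κ₀ = ∑ nq n (W_i Θ) ≥ X/(n+1)` (`row_bound`), `nq (n+1) (vv B Θ) ≤ (2 √(‖K‖ card) c)^2 (n + card)`
   (`mean_vv`, `comm_K`; `wz B z = K W_z - W_z K`).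
-/

namespace Pool.Agent.H46P

open Finset
open scoped BigOperators ComplexConjugate InnerProductSpace

variable {ι : Type*} [Fintype ι] [DecidableEq ι]
  {E : Type*} [NormedAddCommGroup E] [InnerProductSpace ℂ E] [CompleteSpace E]

theorem b8_ip_K (m : ℕ) (W : ι → E →L[ℂ] E) (F : (ι → ℕ) → E) :
    (ip m F (fun α => KK W (F α))).re = ∑ i, nq m (fun α => W i (F α)) := by
  unfold ip nq
  rw [Complex.re_sum, Finset.sum_comm]
  refine Finset.sum_congr rfl fun α _ => ?_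
  have h : ⟪F α, KK W (F α)⟫_ℂ = ((∑ i, ‖W i (F α)‖ ^ 2 : ℝ) : ℂ) := by
    unfold KK
    rw [_root_.sum_apply, inner_sum]
    push_cast
    refine Finset.sum_congr rfl fun i _ => ?_
    change ⟪F α, ContinuousLinearMap.adjoint (W i) (W i (F α))⟫_ℂ = _
    rw [ContinuousLinearMap.adjoint_inner_right]
    rw [inner_self_eq_norm_sq_to_K]
    rfl
  rw [h, ← Complex.ofReal_natCast, ← Complex.ofReal_mul, Complex.ofReal_re, Finset.mul_sum]

theorem b8_sh_apply (B : E →L[ℂ] E) (j : ι) (F : (ι → ℕ) → E) (β : ι → ℕ) :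
    B (sh j F β) = sh j (fun α => B (F α)) β := by
  unfold sh
  split_ifs
  · rfl
  · simp

theorem b8_comm (W : ι → E →L[ℂ] E) (Θ : (ι → ℕ) → E) :
    (fun β => KK W (vv W Θ β)) =
      fun β => vv W (fun α => KK W (Θ α)) β +
        vv (fun j => KK W * W j - W j * KK W) Θ β := by
  funext β
  unfold vv
  rw [map_sum, ← Finset.sum_add_distrib]
  refine Finset.sum_congr rfl fun j _ => ?_
  rw [b8_sh_apply]
  unfold sh
  split_ifs
  · simp
  · simp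

theorem b8_wz (W : ι → E →L[ℂ] E) (z : ι → ℂ) :
    wz (fun j => KK W * W j - W j * KK W) z = KK W * wz W z - wz W z * KK W := by
  unfold wz
  rw [Finset.mul_sum, Finset.sum_mul, ← Finset.sum_sub_distrib]
  refine Finset.sum_congr rfl fun j _ => ?_
  rw [smul_sub, mul_smul_comm, smul_mul_assoc]

theorem b8_nq_smul (m : ℕ) (a : ℂ) (F : (ι → ℕ) → E) :
    nq m (fun α => a • F α) = ‖a‖ ^ 2 * nq m F := by
  unfold nq
  rw [Finset.mul_sum]
  refine Finset.sum_congr rfl fun α _ => ?_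
  rw [norm_smul]
  ring

theorem b8_vs_smul (W : ι → E →L[ℂ] E) (a : ℂ) (F : (ι → ℕ) → E) :
    vs W (fun α => a • F α) = fun α => a • vs W F α := by
  funext α
  unfold vs dr
  rw [Finset.smul_sum]
  refine Finset.sum_congr rfl fun j _ => ?_
  rw [smul_comm ((α j : ℂ) + 1) a, map_smul]

theorem b8_nq_nonneg (m : ℕ) (F : (ι → ℕ) → E) : 0 ≤ nq m F := by
  unfold nq
  positivity

theorem b8_vs (n : ℕ) (W : ι → E →L[ℂ] E) (Θ : (ι → ℕ) → E) (hΘ : nq n Θ = 1)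
    (htop : ∀ Ψ, ip (n + 1) (vv W Ψ) (vv W Θ) = nq (n + 1) (vv W Θ) * ip n Ψ Θ) :
    nq n (vs W (vv W Θ)) = nq (n + 1) (vv W Θ) ^ 2 := by
  set X := nq (n + 1) (vv W Θ)
  set G := vs W (vv W Θ)
  have h : ∀ Ψ, ip n Ψ G = X * ip n Ψ Θ := fun Ψ => by rw [← htop, ip_vv]
  have h1 : ip n Θ G = X := by rw [h, ip_self, hΘ]; simp
  have h2 : ip n G Θ = X := by rw [← ip_conj, h1, Complex.conj_ofReal]
  have h3 : ((nq n G : ℝ) : ℂ) = ((X ^ 2 : ℝ) : ℂ) := by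
    rw [← ip_self, h G, h2]; push_cast; ring
  exact_mod_cast h3

theorem b8_lower (n : ℕ) (W : ι → E →L[ℂ] E) {c : ℝ} (hc0 : 0 ≤ c)
    (h1 : ∀ z w, ‖wz W z * wz W w - wz W w * wz W z‖ ≤ c * nrm z * nrm w)
    (h2 : ∀ z w, ‖wz W z * ContinuousLinearMap.adjoint (wz W w) -
      ContinuousLinearMap.adjoint (wz W w) * wz W z‖ ≤ c * nrm z * nrm w)
    (Θ : (ι → ℕ) → E) (hΘ : nq n Θ = 1)
    (htop : ∀ Ψ, ip (n + 1) (vv W Ψ) (vv W Θ) = nq (n + 1) (vv W Θ) * ip n Ψ Θ)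
    (hX : 0 < nq (n + 1) (vv W Θ)) :
    nq (n + 1) (vv W Θ) * (nq (n + 1) (vv W Θ) / (n + 1)) -
      √(nq (n + 1) (vv W Θ)) * (2 * √(‖KK W‖ * Fintype.card ι) * c * √(n + Fintype.card ι)) ≤
      ∑ i, nq (n + 1) (fun α => W i (vv W Θ α)) := by
  set X := nq (n + 1) (vv W Θ) with hXdef
  rw [← b8_ip_K, b8_comm, ip_add_right, Complex.add_re]
  have e1 : ip (n + 1) (vv W Θ) (vv W (fun α => KK W (Θ α))) =
      X * ip n Θ (fun α => KK W (Θ α)) := by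
    rw [← ip_conj, htop, map_mul, Complex.conj_ofReal, ip_conj]
  rw [e1, Complex.re_ofReal_mul, b8_ip_K]
  have h3 : X / (n + 1) ≤ ∑ i, nq n (fun α => W i (Θ α)) := by
    rw [div_le_iff₀ (by positivity)]
    have := row_bound n W Θ
    rw [← hXdef] at this
    linarith
  have hB : ∀ z, ‖wz (fun j => KK W * W j - W j * KK W) z‖ ≤
      2 * √(‖KK W‖ * Fintype.card ι) * c * nrm z := fun z => by
    rw [b8_wz]; exact comm_K W hc0 h1 h2 z
  have h4 := mean_vv n (fun j => KK W * W j - W j * KK W) (by positivity) hB Θ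
  rw [hΘ, mul_one] at h4
  have h5 : √(nq (n + 1) (vv (fun j => KK W * W j - W j * KK W) Θ)) ≤
      2 * √(‖KK W‖ * Fintype.card ι) * c * √(n + Fintype.card ι) := by
    refine (Real.sqrt_le_sqrt h4).trans (le_of_eq ?_)
    rw [Real.sqrt_mul (by positivity), Real.sqrt_sq (by positivity)]
  have h6 := ip_le (n + 1) (vv W Θ) (vv (fun j => KK W * W j - W j * KK W) Θ)
  have h7 := Complex.abs_re_le_norm
    (ip (n + 1) (vv W Θ) (vv (fun j => KK W * W j - W j * KK W) Θ))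
  have h8 := neg_abs_le
    (ip (n + 1) (vv W Θ) (vv (fun j => KK W * W j - W j * KK W) Θ)).re
  have h9 := mul_le_mul_of_nonneg_left h5 (Real.sqrt_nonneg X)
  have h10 := mul_le_mul_of_nonneg_left h3 hX.le
  linarith

theorem one_step (n : ℕ) (W : ι → E →L[ℂ] E) {c : ℝ} (hc0 : 0 ≤ c)
    (h1 : ∀ z w, ‖wz W z * wz W w - wz W w * wz W z‖ ≤ c * nrm z * nrm w)
    (h2 : ∀ z w, ‖wz W z * ContinuousLinearMap.adjoint (wz W w) -
      ContinuousLinearMap.adjoint (wz W w) * wz W z‖ ≤ c * nrm z * nrm w)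
    (Θ : (ι → ℕ) → E) (hΘ : nq n Θ = 1)
    (htop : ∀ Ψ, ip (n + 1) (vv W Ψ) (vv W Θ) = nq (n + 1) (vv W Θ) * ip n Ψ Θ)
    (hX : 0 < nq (n + 1) (vv W Θ)) :
    ∃ T' : (ι → ℕ) → E, nq (n + 1) T' = 1 ∧
      (1 + 1 / ((n : ℝ) + 1)) * nq (n + 1) (vv W Θ) -
        2 * √(‖KK W‖ * Fintype.card ι) * c * √(n + Fintype.card ι) / √(nq (n + 1) (vv W Θ)) -
        c * (n + 1 + 2 * Fintype.card ι) ≤ nq (n + 2) (vv W T') := by
  set X := nq (n + 1) (vv W Θ) with hXdef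
  have hsX : 0 < √X := Real.sqrt_pos.2 hX
  have hss : √X ^ 2 = X := Real.sq_sqrt hX.le
  set a : ℂ := (((√X)⁻¹ : ℝ) : ℂ) with ha
  have hna : ‖a‖ ^ 2 = X⁻¹ := by
    rw [ha, Complex.norm_real, Real.norm_of_nonneg (by positivity), inv_pow, hss]
  refine ⟨fun α => a • vv W Θ α, ?_, ?_⟩
  · rw [b8_nq_smul, hna, ← hXdef]
    field_simp
  · have hg := growth n W hc0 h2 (fun α => a • vv W Θ α)
    rw [b8_vs_smul, b8_nq_smul, b8_nq_smul, hna, b8_vs n W Θ hΘ htop, ← hXdef] at hg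
    have e2 : ∀ i, nq (n + 1) (fun α => W i (a • vv W Θ α)) =
        X⁻¹ * nq (n + 1) (fun α => W i (vv W Θ α)) := fun i => by
      rw [← hna, ← b8_nq_smul]
      congr 1
      funext α
      rw [map_smul]
    simp_rw [e2] at hg
    rw [← Finset.mul_sum] at hg
    have hl := b8_lower n W hc0 h1 h2 Θ hΘ htop hX
    rw [← hXdef] at hl
    have hl2 := mul_le_mul_of_nonneg_left hl (inv_nonneg.2 hX.le)
    set Q := 2 * √(‖KK W‖ * Fintype.card ι) * c * √(n + Fintype.card ι) with hQ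
    have e3 : X⁻¹ * (X * (X / (n + 1)) - √X * Q) = X / (n + 1) - Q / √X := by
      rw [mul_sub]
      congr 1
      · field_simp
      · have : X⁻¹ = (√X)⁻¹ * (√X)⁻¹ := by rw [← mul_inv, ← sq, hss]
        rw [this]
        field_simp
    rw [e3] at hl2
    have e4 : X⁻¹ * X ^ 2 = X := by field_simp
    have e5 : X⁻¹ * X = 1 := by field_simp
    rw [e4, e5] at hg
    have e6 : (1 + 1 / ((n : ℝ) + 1)) * X = X + X / (n + 1) := by ring
    rw [e6]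
    linarith

end Pool.Agent.H46P
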