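import Pool.Agent.Lib.H46P.A10

/-!
# Chunk C1: `P(0)` and the odd step

`pd_zero`: `op A 0 T_x = T [x]`, `sum_sq_le` with `xs = []`.
`pd_odd`: for `T` with `Inj (d+1) T c`, `O x = op A d T_x`; `Inj d T_x c` (`inj_head`),
`(O x)^* = op A d (dg σ T_x)`.  `‖O x ψ‖^2 ≤ re ⟪ψ, ((O x)^* O x + O x (O x)^*) ψ⟫ ≤
‖(O x)^* O x + O x (O x)^*‖ ‖ψ‖^2`, and `commutator` with `a = b = d` odd bounds it by
`exp 1 * d^2 * gam^(2d-2) * c^2`. Sum over the `card κ` letters: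
`card κ * exp 1 * d^2 * gam^(2d-2) ≤ gam^(2d)` as `gam^2 = g * card κ` and `exp 1 * d^2 ≤ g`.
-/

namespace Pool.Agent.H46P

open Finset
open scoped BigOperators ComplexConjugate InnerProductSpace

variable {κ : Type*} [Fintype κ] [DecidableEq κ]
  {E : Type*} [NormedAddCommGroup E] [InnerProductSpace ℂ E] [CompleteSpace E]

theorem pd_zero (A : κ → E →L[ℂ] E) (g : ℝ) : Pd A g 0 := by
  intro T c hc hT ψ
  have h1 := sum_sq_le hc hT [] rfl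
  simp only [ev_nil, List.map_nil, List.prod_nil, mul_one] at h1
  rw [pow_zero, one_mul, mul_pow]
  calc ∑ x, ‖op A 0 (fun I => T (x :: I)) ψ‖ ^ 2 = (∑ x, ‖T [x]‖ ^ 2) * ‖ψ‖ ^ 2 := by
        rw [Finset.sum_mul]
        refine Finset.sum_congr rfl fun x _ => ?_
        rw [op_zero, Algebra.algebraMap_eq_smul_one, _root_.smul_apply, one_apply_eq_self,
          norm_smul, mul_pow]
    _ ≤ c ^ 2 * ‖ψ‖ ^ 2 := mul_le_mul_of_nonneg_right h1 (by positivity)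

theorem c1_norm (O : E →L[ℂ] E) {K : ℝ}
    (hK : ‖O * ContinuousLinearMap.adjoint O + ContinuousLinearMap.adjoint O * O‖ ≤ K) (ψ : E) :
    ‖O ψ‖ ^ 2 ≤ K * ‖ψ‖ ^ 2 := by
  have e1 : RCLike.re ⟪ψ, (ContinuousLinearMap.adjoint O * O) ψ⟫_ℂ = ‖O ψ‖ ^ 2 := by
    show RCLike.re ⟪ψ, ContinuousLinearMap.adjoint O (O ψ)⟫_ℂ = _
    rw [ContinuousLinearMap.adjoint_inner_right, inner_self_eq_norm_sq]
  have e2 : RCLike.re ⟪ψ, (O * ContinuousLinearMap.adjoint O) ψ⟫_ℂ = ‖ContinuousLinearMap.adjoint O ψ‖ ^ 2 := by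
    show RCLike.re ⟪ψ, O (ContinuousLinearMap.adjoint O ψ)⟫_ℂ = _
    rw [← ContinuousLinearMap.adjoint_inner_left, inner_self_eq_norm_sq]
  have e3 : RCLike.re ⟪ψ, (O * ContinuousLinearMap.adjoint O + ContinuousLinearMap.adjoint O * O) ψ⟫_ℂ =
      ‖ContinuousLinearMap.adjoint O ψ‖ ^ 2 + ‖O ψ‖ ^ 2 := by
    rw [_root_.add_apply, inner_add_right, map_add, e1, e2]
  have h1 : ‖ContinuousLinearMap.adjoint O ψ‖ ^ 2 + ‖O ψ‖ ^ 2 ≤ K * ‖ψ‖ ^ 2 := by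
    rw [← e3]
    calc RCLike.re ⟪ψ, (O * ContinuousLinearMap.adjoint O + ContinuousLinearMap.adjoint O * O) ψ⟫_ℂ
        ≤ ‖⟪ψ, (O * ContinuousLinearMap.adjoint O + ContinuousLinearMap.adjoint O * O) ψ⟫_ℂ‖ :=
          RCLike.re_le_norm _
      _ ≤ ‖ψ‖ * ‖(O * ContinuousLinearMap.adjoint O + ContinuousLinearMap.adjoint O * O) ψ‖ :=
          norm_inner_le_norm _ _
      _ ≤ ‖ψ‖ * (K * ‖ψ‖) := mul_le_mul_of_nonneg_left ((ContinuousLinearMap.le_opNorm _ _).trans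
          (mul_le_mul_of_nonneg_right hK (norm_nonneg _))) (norm_nonneg _)
      _ = K * ‖ψ‖ ^ 2 := by ring
  nlinarith [sq_nonneg ‖ContinuousLinearMap.adjoint O ψ‖]

theorem pd_odd {σ : κ → κ} {A : κ → E →L[ℂ] E} (hA : CAR σ A) {g : ℝ} (hg : 1 ≤ g)
    {d : ℕ} (hd : Odd d) (hgd : Real.exp 1 * (d : ℝ) ^ 2 ≤ g) (hP : ∀ d' < d, Pd A g d') :
    Pd A g d := by
  intro T c hc hT ψ
  have hd1 : 1 ≤ d := hd.pos
  have hd1' : (1 : ℝ) ≤ d := by exact_mod_cast hd1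
  have he : (1 : ℝ) ≤ Real.exp 1 := Real.one_le_exp zero_le_one
  have hdd : ((d : ℝ) * d) ≤ g := by nlinarith [sq_nonneg (d : ℝ)]
  have hsign : (-1 : ℂ) ^ (d * d) = -1 := (hd.mul hd).neg_one_pow
  have hg0 : 0 ≤ g * Fintype.card κ := by positivity
  have hgam : gam κ g ^ 2 = g * Fintype.card κ := Real.sq_sqrt hg0
  have hgam0 : 0 ≤ gam κ g := Real.sqrt_nonneg _
  have key : ∀ x, ‖op A d (fun I => T (x :: I)) ψ‖ ^ 2 ≤
      Real.exp 1 * (d * d) * gam κ g ^ (d + d - 2) * (c * c) * ‖ψ‖ ^ 2 := by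
    intro x
    have hTx : Inj d (fun I => T (x :: I)) c := inj_head hT x
    have h1 := commutator hA hg hd1 hd1 hdd (fun d' h => hP d' (h.elim id id)) hc hc hTx (inj_dg hA.inv hTx)
    rw [hsign, ← adjoint_op hA, neg_one_smul, sub_neg_eq_add] at h1
    exact c1_norm _ h1 ψ
  have e1 : gam κ g ^ (d + d) = gam κ g ^ (d + d - 2) * gam κ g ^ 2 := by
    rw [← pow_add]
    congr 1
    omega
  calc ∑ x, ‖op A d (fun I => T (x :: I)) ψ‖ ^ 2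
      ≤ ∑ _x : κ, Real.exp 1 * (d * d) * gam κ g ^ (d + d - 2) * (c * c) * ‖ψ‖ ^ 2 :=
        Finset.sum_le_sum fun x _ => key x
    _ = (Real.exp 1 * (d : ℝ) ^ 2) * (Fintype.card κ * gam κ g ^ (d + d - 2) * (c * c) * ‖ψ‖ ^ 2) := by
        rw [Finset.sum_const, Finset.card_univ, nsmul_eq_mul]
        ring
    _ ≤ g * (Fintype.card κ * gam κ g ^ (d + d - 2) * (c * c) * ‖ψ‖ ^ 2) :=
        mul_le_mul_of_nonneg_right hgd (by positivity)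
    _ = (gam κ g ^ d * c * ‖ψ‖) ^ 2 := by
        have e2 : (gam κ g ^ d * c * ‖ψ‖) ^ 2 = gam κ g ^ (d + d) * (c * c) * ‖ψ‖ ^ 2 := by
          rw [pow_add]
          ring
        rw [e2, e1, hgam]
        ring

end Pool.Agent.H46P
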