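import Pool.Agent.Lib.H46P.C1
import Pool.Agent.Lib.H46P.B10

/-!
# Chunk C2: the even step and `P(d)` for all `d ≤ D`

`wz_op`: linearity of `op` (`op_sum`, `op_smul`).
`norm_op_le`: `op A (d+1) T = ∑ A k * op A d T_k`; `row_col` with `B k = A k`
(`∑ ‖(A k)^* φ‖^2 = ∑ ‖A (σ k) φ‖^2 = card κ / 2 * ‖φ‖^2 ≤ (√card ‖φ‖)^2`) and `Pd A g d`.
`pd_even`: `W x = op A d T_x`; `f = √card * gam^(d-1) * c`, commutator constant
`exp 1 * d^2 * gam^(2d-2) * c^2` (`commutator` with `a = b = d` even, so the sign is `+`;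
`adjoint_op`, `inj_dg`; `inj_succ_iff` for `Inj d (∑ z k T (k :: .)) (c * nrm z)`), then `bessel`;
`4 f^2 = 4 card gam^(2d-2) c^2 ≤ gam^(2d) c^2` (`4 ≤ g`),
`6 card exp 1 d^2 gam^(2d-2) c^2 (5 + log card) ≤ gam^(2d) c^2` (`6 exp 1 ≤ 17`).
If `κ` is empty the sum is `0`.
-/

namespace Pool.Agent.H46P

open Finset
open scoped BigOperators ComplexConjugate InnerProductSpace

variable {κ : Type*} [Fintype κ] [DecidableEq κ]
  {E : Type*} [NormedAddCommGroup E] [InnerProductSpace ℂ E] [CompleteSpace E]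

theorem wz_op (A : κ → E →L[ℂ] E) (d : ℕ) (T : List κ → ℂ) (z : κ → ℂ) :
    wz (fun x => op A d (fun I => T (x :: I))) z =
      op A d (fun I => ∑ k, z k * T (k :: I)) := by
  unfold wz
  rw [op_sum]
  apply Finset.sum_congr rfl
  intro k _
  rw [op_smul]

theorem norm_op_le {σ : κ → κ} {A : κ → E →L[ℂ] E} (hA : CAR σ A) {g : ℝ} (hg : 1 ≤ g) {d : ℕ}
    (hP : Pd A g d) {T : List κ → ℂ} {c : ℝ} (hc : 0 ≤ c) (hT : Inj (d + 1) T c) :
    ‖op A (d + 1) T‖ ≤ √(Fintype.card κ) * gam κ g ^ d * c := by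
  rw [op_succ, mul_assoc]
  apply row_col
  · positivity
  · apply mul_nonneg (pow_nonneg (Real.sqrt_nonneg _) _) hc
  · intro φ
    simp only [hA.adj]
    have h1 : ∑ k, ‖A (σ k) φ‖ ^ 2 = ∑ k, ‖A k φ‖ ^ 2 :=
      Fintype.sum_bijective σ (Function.Involutive.bijective hA.inv) _ _ (fun _ => rfl)
    rw [h1, sum_sq hA, mul_pow, Real.sq_sqrt (by positivity)]
    have h2 : (0 : ℝ) ≤ Fintype.card κ * ‖φ‖ ^ 2 := by positivity
    nlinarith
  · intro ψ
    exact hP T c hc hT ψ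

theorem c2_gam_sq (g : ℝ) (hg : 0 ≤ g) : gam κ g ^ 2 = g * Fintype.card κ :=
  Real.sq_sqrt (by positivity)

theorem pd_even [FiniteDimensional ℂ E] {σ : κ → κ} {A : κ → E →L[ℂ] E} (hA : CAR σ A) {g : ℝ}
    (hg : 4 ≤ g) {d : ℕ} (hd : Even d) (hd2 : 2 ≤ d)
    (hgd : 17 * (d : ℝ) ^ 2 * (5 + Real.log (Fintype.card κ)) ≤ g) (hP : ∀ d' < d, Pd A g d') :
    Pd A g d := by
  intro T c hc hT ψ
  rcases isEmpty_or_nonempty κ with hκ | hκ
  · rw [Finset.univ_eq_empty, Finset.sum_empty]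
    positivity
  have hcard : (1 : ℝ) ≤ Fintype.card κ := by
    exact_mod_cast Fintype.card_pos
  have hlog : 0 ≤ Real.log (Fintype.card κ) := Real.log_nonneg hcard
  have hd1 : (2 : ℝ) ≤ d := by exact_mod_cast hd2
  have hg1 : (1 : ℝ) ≤ g := by linarith
  have hg0 : (0 : ℝ) ≤ g := by linarith
  have hdd : (d * d : ℝ) ≤ g := by
    have : (0 : ℝ) ≤ (d : ℝ) ^ 2 * Real.log (Fintype.card κ) := by positivity
    nlinarith
  obtain ⟨e, rfl⟩ : ∃ e, d = e + 1 := ⟨d - 1, by omega⟩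
  have hgam : 0 ≤ gam κ g := Real.sqrt_nonneg _
  have hgam2 := c2_gam_sq (κ := κ) g hg0
  have hinj : ∀ z : κ → ℂ, Inj (e + 1) (fun I => ∑ k, z k * T (k :: I)) (c * nrm z) :=
    fun z => inj_succ_iff.1 hT z
  have hn : ∀ z : κ → ℂ, 0 ≤ c * nrm z := fun z => mul_nonneg hc (nrm_nonneg z)
  have hsign : ((-1 : ℂ) ^ ((e + 1) * (e + 1))) = 1 := by
    apply Even.neg_one_pow
    exact hd.mul_left _
  have hcomm : ∀ (S S' : List κ → ℂ) (b b' : ℝ), 0 ≤ b → 0 ≤ b' → Inj (e + 1) S b →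
      Inj (e + 1) S' b' → ‖op A (e + 1) S * op A (e + 1) S' - op A (e + 1) S' * op A (e + 1) S‖ ≤
      Real.exp 1 * ((e + 1 : ℕ) * (e + 1 : ℕ) : ℝ) * gam κ g ^ (e + 1 + (e + 1) - 2) * (b * b') := by
    intro S S' b b' hb hb' hS hS'
    have h := commutator hA hg1 (a := e + 1) (b := e + 1) (by omega) (by omega) hdd
      (fun d' hd' => hP d' (by omega)) hb hb' hS hS'
    rw [hsign, one_smul] at h
    exact h
  have hpow : e + 1 + (e + 1) - 2 = 2 * e := by omega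
  have h0 : 0 ≤ Real.exp 1 * ((e + 1 : ℕ) * (e + 1 : ℕ) : ℝ) * gam κ g ^ (2 * e) * (c * c) := by
    positivity
  have hb := bessel (fun x => op A (e + 1) (fun I => T (x :: I)))
    (f := √(Fintype.card κ) * gam κ g ^ e * c)
    (c := Real.exp 1 * ((e + 1 : ℕ) * (e + 1 : ℕ) : ℝ) * gam κ g ^ (2 * e) * (c * c))
    (by positivity) h0 (by
      intro z
      rw [wz_op]
      refine (norm_op_le hA hg1 (hP e (by omega)) (hn z) (hinj z)).trans (le_of_eq ?_)
      ring) (by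
      intro z w
      rw [wz_op, wz_op]
      refine (hcomm _ _ _ _ (hn z) (hn w) (hinj z) (hinj w)).trans (le_of_eq ?_)
      rw [hpow]
      ring) (by
      intro z w
      rw [wz_op, wz_op, adjoint_op hA]
      refine (hcomm _ _ _ _ (hn z) (hn w) (hinj z) (inj_dg hA.inv (hinj w))).trans (le_of_eq ?_)
      rw [hpow]
      ring) ψ
  refine hb.trans ?_
  rw [mul_pow _ ‖ψ‖]
  apply mul_le_mul_of_nonneg_right _ (by positivity)
  have hR : (gam κ g ^ (e + 1) * c) ^ 2 = (g * Fintype.card κ) * (gam κ g ^ (2 * e) * c ^ 2) := by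
    rw [← hgam2]; ring
  rw [hR]
  have hq : 0 ≤ gam κ g ^ (2 * e) * c ^ 2 := by positivity
  apply max_le
  · have h1 : 4 * (√(Fintype.card κ) * gam κ g ^ e * c) ^ 2 =
        (4 * Fintype.card κ) * (gam κ g ^ (2 * e) * c ^ 2) := by
      rw [mul_pow, mul_pow, Real.sq_sqrt (by positivity)]
      ring
    rw [h1]
    gcongr
  · have h1 : 6 * Fintype.card κ * (Real.exp 1 * ((e + 1 : ℕ) * (e + 1 : ℕ) : ℝ) *
        gam κ g ^ (2 * e) * (c * c)) * (5 + Real.log (Fintype.card κ)) =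
        (6 * Real.exp 1 * ((e + 1 : ℕ) : ℝ) ^ 2 * (5 + Real.log (Fintype.card κ)) *
          Fintype.card κ) * (gam κ g ^ (2 * e) * c ^ 2) := by ring
    rw [h1]
    apply mul_le_mul_of_nonneg_right _ hq
    apply mul_le_mul_of_nonneg_right _ (by positivity)
    refine le_trans ?_ hgd
    apply mul_le_mul_of_nonneg_right _ (by positivity)
    apply mul_le_mul_of_nonneg_right _ (by positivity)
    have := Real.exp_one_lt_d9
    linarith

theorem pd_all [FiniteDimensional ℂ E] {σ : κ → κ} {A : κ → E →L[ℂ] E} (hA : CAR σ A)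
    [Nonempty κ] {D : ℕ} (hD : 1 ≤ D) {g : ℝ}
    (hg : 17 * (D : ℝ) ^ 2 * (5 + Real.log (Fintype.card κ)) ≤ g) : ∀ d ≤ D, Pd A g d := by
  have hcard : (1 : ℝ) ≤ Fintype.card κ := by
    exact_mod_cast Fintype.card_pos
  have hlog : 0 ≤ Real.log (Fintype.card κ) := Real.log_nonneg hcard
  have hD1 : (1 : ℝ) ≤ D := by exact_mod_cast hD
  have hkey : ∀ d : ℕ, d ≤ D → 17 * (d : ℝ) ^ 2 * (5 + Real.log (Fintype.card κ)) ≤ g := by
    intro d hd
    refine le_trans ?_ hg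
    have : (d : ℝ) ≤ D := by exact_mod_cast hd
    gcongr
  have hg85 : (85 : ℝ) ≤ g := by
    refine le_trans ?_ hg
    have h1 : (1 : ℝ) ≤ (D : ℝ) ^ 2 := one_le_pow₀ hD1
    nlinarith [mul_nonneg (sub_nonneg.2 h1) hlog]
  intro d
  induction d using Nat.strong_induction_on with
  | _ d ih =>
    intro hd
    have ih' : ∀ d' < d, Pd A g d' := fun d' hd' => ih d' hd' (by omega)
    rcases Nat.eq_zero_or_pos d with h0 | h0
    · subst h0
      exact pd_zero A g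
    rcases Nat.even_or_odd d with he | ho
    · exact pd_even hA (by linarith) he (by
        rcases he with ⟨r, hr⟩
        omega) (hkey d hd) ih'
    · refine pd_odd hA (by linarith) ho ?_ ih'
      refine le_trans ?_ (hkey d hd)
      have h1 := Real.exp_one_lt_d9
      have h2 : (0 : ℝ) ≤ (d : ℝ) ^ 2 := by positivity
      have h3 : 0 ≤ (d : ℝ) ^ 2 * Real.log (Fintype.card κ) := by positivity
      nlinarith

end Pool.Agent.H46P
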