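import Pool.Agent.Lib.H46P.A8

/-!
# Chunk D1: norm of a word, matrix bounds of degree 0, trivial matrix bound

`MB A d T β`: the operator matrix `[op A d (fun I => T (x :: y :: I))]_{x,y}` has norm at most `β`.
`norm_word`: `Pd` for `T' (x :: I) = if x = x0 then T I else 0` (`Inj (d+1) T' c`: `inj_succ_iff`,
`‖z x0‖ ≤ nrm z`).
`mb_zero`: orthonormal basis `b` of `E` (`stdOrthonormalBasis`): `⟪φ x, ψ y⟫ = ∑ ⟪φ x, b i⟫ ⟪b i, ψ y⟫`; for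
each `i` the hypothesis with the two vectors `x ↦ ⟪φ x, b i⟫`, `y ↦ ⟪b i, ψ y⟫`; Cauchy-Schwarz over `i`.
`mb_entries`: `∑ x y ‖φ x‖ β ‖ψ y‖`, Cauchy-Schwarz.
-/

namespace Pool.Agent.H46P

open Finset
open scoped BigOperators ComplexConjugate InnerProductSpace

variable {κ : Type*} [Fintype κ] [DecidableEq κ]
  {E : Type*} [NormedAddCommGroup E] [InnerProductSpace ℂ E] [CompleteSpace E]

/-- Norm bound for the operator matrix with entries the word operators `op A d T(x, y, ·)`. -/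
def MB (A : κ → E →L[ℂ] E) (d : ℕ) (T : List κ → ℂ) (β : ℝ) : Prop :=
  ∀ φ ψ : κ → E, ‖∑ x, ∑ y, ⟪φ x, op A d (fun I => T (x :: y :: I)) (ψ y)⟫_ℂ‖ ≤
    β * √(∑ x, ‖φ x‖ ^ 2) * √(∑ y, ‖ψ y‖ ^ 2)

theorem d1_gam (g : ℝ) : 0 ≤ gam κ g := Real.sqrt_nonneg _

theorem d1_coord (z : κ → ℂ) (k : κ) : ‖z k‖ ≤ nrm z := by
  unfold nrm
  apply Real.le_sqrt_of_sq_le
  exact Finset.single_le_sum (f := fun k => ‖z k‖ ^ 2) (fun _ _ => by positivity) (Finset.mem_univ k)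

theorem norm_word [Nonempty κ] {A : κ → E →L[ℂ] E} {g : ℝ} {d : ℕ} (hP : Pd A g d)
    {T : List κ → ℂ} {c : ℝ} (hc : 0 ≤ c) (hT : Inj d T c) : ‖op A d T‖ ≤ gam κ g ^ d * c := by
  have hg := d1_gam (κ := κ) g
  obtain ⟨x0⟩ := ‹Nonempty κ›
  set T' : List κ → ℂ := fun L => match L with
    | [] => 0
    | x :: I => if x = x0 then T I else 0 with hT'
  have h1 : Inj (d + 1) T' c := by
    rw [inj_succ_iff]
    intro z
    have h2 := inj_mono (inj_smul (z x0) hT) (show ‖z x0‖ * c ≤ c * nrm z by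
      rw [mul_comm]
      exact mul_le_mul_of_nonneg_left (d1_coord z x0) hc)
    refine inj_congr (fun I _ => ?_) h2
    rw [Finset.sum_eq_single x0]
    · show z x0 * T I = z x0 * (if x0 = x0 then T I else 0)
      rw [if_pos rfl]
    · intro k _ hk
      show z k * (if k = x0 then T I else 0) = 0
      rw [if_neg hk, mul_zero]
    · intro h
      exact absurd (Finset.mem_univ x0) h
  refine ContinuousLinearMap.opNorm_le_bound _ (by positivity) fun ψ => ?_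
  have h3 := hP T' c hc h1 ψ
  have h4 : ‖op A d T ψ‖ ^ 2 ≤ ∑ x, ‖op A d (fun I => T' (x :: I)) ψ‖ ^ 2 := by
    have h5 : op A d T = op A d (fun I => T' (x0 :: I)) := by
      congr 1
      funext I
      show T I = if x0 = x0 then T I else 0
      rw [if_pos rfl]
    rw [h5]
    exact Finset.single_le_sum (f := fun x => ‖op A d (fun I => T' (x :: I)) ψ‖ ^ 2) (fun _ _ => by positivity)
      (Finset.mem_univ x0)
  exact (pow_le_pow_iff_left₀ (norm_nonneg _) (by positivity) two_ne_zero).1 (h4.trans h3)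

theorem d1_cs {ι : Type*} (s : Finset ι) (f h : ι → ℝ) :
    ∑ i ∈ s, f i * h i ≤ √(∑ i ∈ s, f i ^ 2) * √(∑ i ∈ s, h i ^ 2) := by
  rw [← Real.sqrt_mul (Finset.sum_nonneg fun _ _ => by positivity)]
  exact Real.le_sqrt_of_sq_le (Finset.sum_mul_sq_le_sq_mul_sq s f h)

theorem mb_zero [FiniteDimensional ℂ E] (A : κ → E →L[ℂ] E) {T : List κ → ℂ} {c : ℝ}
    (hc : 0 ≤ c) (hT : Inj 2 T c) : MB A 0 T c := by
  intro φ ψ
  set b := stdOrthonormalBasis ℂ E with hb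
  have h1 : ∑ x, ∑ y, ⟪φ x, op A 0 (fun I => T (x :: y :: I)) (ψ y)⟫_ℂ =
      ∑ i, ev [fun x => ⟪φ x, b i⟫_ℂ, fun y => ⟪b i, ψ y⟫_ℂ] T := by
    have h2 : ∀ x y, ⟪φ x, op A 0 (fun I => T (x :: y :: I)) (ψ y)⟫_ℂ =
        ∑ i, ⟪φ x, b i⟫_ℂ * (⟪b i, ψ y⟫_ℂ * T [x, y]) := by
      intro x y
      rw [op_zero]
      have h3 : (algebraMap ℂ (E →L[ℂ] E) (T (x :: y :: []))) (ψ y) = T [x, y] • ψ y := by
        rw [Algebra.algebraMap_eq_smul_one]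
        rfl
      rw [h3, inner_smul_right, ← b.sum_inner_mul_inner (φ x) (ψ y), Finset.mul_sum]
      exact Finset.sum_congr rfl fun i _ => by ring
    simp only [h2, ev_cons, ev_nil]
    calc ∑ x, ∑ y, ∑ i, ⟪φ x, b i⟫_ℂ * (⟪b i, ψ y⟫_ℂ * T [x, y])
        = ∑ x, ∑ i, ∑ y, ⟪φ x, b i⟫_ℂ * (⟪b i, ψ y⟫_ℂ * T [x, y]) :=
          Finset.sum_congr rfl fun x _ => Finset.sum_comm
      _ = ∑ i, ∑ x, ∑ y, ⟪φ x, b i⟫_ℂ * (⟪b i, ψ y⟫_ℂ * T [x, y]) := Finset.sum_comm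
      _ = _ := Finset.sum_congr rfl fun i _ => Finset.sum_congr rfl fun x _ => (Finset.mul_sum _ _ _).symm
  rw [h1]
  have e1 : ∑ i, nrm (fun x => ⟪φ x, b i⟫_ℂ) ^ 2 = ∑ x, ‖φ x‖ ^ 2 := by
    simp only [nrm_sq]
    rw [Finset.sum_comm]
    exact Finset.sum_congr rfl fun x _ => b.sum_sq_norm_inner_left (φ x)
  have e2 : ∑ i, nrm (fun y => ⟪b i, ψ y⟫_ℂ) ^ 2 = ∑ y, ‖ψ y‖ ^ 2 := by
    simp only [nrm_sq]
    rw [Finset.sum_comm]
    exact Finset.sum_congr rfl fun y _ => b.sum_sq_norm_inner_right (ψ y)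
  calc ‖∑ i, ev [fun x => ⟪φ x, b i⟫_ℂ, fun y => ⟪b i, ψ y⟫_ℂ] T‖
      ≤ ∑ i, ‖ev [fun x => ⟪φ x, b i⟫_ℂ, fun y => ⟪b i, ψ y⟫_ℂ] T‖ := norm_sum_le _ _
    _ ≤ ∑ i, c * (nrm (fun x => ⟪φ x, b i⟫_ℂ) * nrm (fun y => ⟪b i, ψ y⟫_ℂ)) := by
        refine Finset.sum_le_sum fun i _ => ?_
        have := hT [fun x => ⟪φ x, b i⟫_ℂ, fun y => ⟪b i, ψ y⟫_ℂ] rfl
        simpa using this
    _ = c * ∑ i, nrm (fun x => ⟪φ x, b i⟫_ℂ) * nrm (fun y => ⟪b i, ψ y⟫_ℂ) := (Finset.mul_sum _ _ _).symm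
    _ ≤ c * (√(∑ x, ‖φ x‖ ^ 2) * √(∑ y, ‖ψ y‖ ^ 2)) := by
        apply mul_le_mul_of_nonneg_left _ hc
        have := d1_cs Finset.univ (fun i => nrm (fun x => ⟪φ x, b i⟫_ℂ)) (fun i => nrm (fun y => ⟪b i, ψ y⟫_ℂ))
        rwa [e1, e2] at this
    _ = _ := by ring

theorem d1_sum_le {ι : Type*} [Fintype ι] (f : ι → ℝ) :
    ∑ i, f i ≤ √(Fintype.card ι) * √(∑ i, f i ^ 2) := by
  have := d1_cs Finset.univ (fun _ : ι => (1 : ℝ)) f
  simpa using this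

theorem mb_entries {A : κ → E →L[ℂ] E} {d : ℕ} {T : List κ → ℂ} {β : ℝ} (hβ : 0 ≤ β)
    (h : ∀ x y, ‖op A d (fun I => T (x :: y :: I))‖ ≤ β) : MB A d T (Fintype.card κ * β) := by
  intro φ ψ
  have hs1 := d1_sum_le (fun x => ‖φ x‖)
  have hs2 := d1_sum_le (fun x => ‖ψ x‖)
  calc ‖∑ x, ∑ y, ⟪φ x, op A d (fun I => T (x :: y :: I)) (ψ y)⟫_ℂ‖
      ≤ ∑ x, ∑ y, ‖⟪φ x, op A d (fun I => T (x :: y :: I)) (ψ y)⟫_ℂ‖ :=
        (norm_sum_le _ _).trans (Finset.sum_le_sum fun x _ => norm_sum_le _ _)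
    _ ≤ ∑ x, ∑ y, ‖φ x‖ * (β * ‖ψ y‖) := by
        refine Finset.sum_le_sum fun x _ => Finset.sum_le_sum fun y _ => ?_
        refine (norm_inner_le_norm _ _).trans ?_
        apply mul_le_mul_of_nonneg_left _ (norm_nonneg _)
        exact ((op A d (fun I => T (x :: y :: I))).le_opNorm _).trans (mul_le_mul_of_nonneg_right (h x y) (norm_nonneg _))
    _ = β * ((∑ x, ‖φ x‖) * ∑ y, ‖ψ y‖) := by
        rw [Finset.sum_mul_sum, Finset.mul_sum]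
        refine Finset.sum_congr rfl fun x _ => ?_
        rw [Finset.mul_sum]
        exact Finset.sum_congr rfl fun y _ => by ring
    _ ≤ β * ((√(Fintype.card κ) * √(∑ i, ‖φ i‖ ^ 2)) * (√(Fintype.card κ) * √(∑ i, ‖ψ i‖ ^ 2))) := by
        apply mul_le_mul_of_nonneg_left _ hβ
        exact mul_le_mul hs1 hs2 (Finset.sum_nonneg fun _ _ => norm_nonneg _) (by positivity)
    _ = (√(Fintype.card κ) * √(Fintype.card κ)) * β * √(∑ i, ‖φ i‖ ^ 2) * √(∑ i, ‖ψ i‖ ^ 2) := by ring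
    _ = _ := by rw [Real.mul_self_sqrt (Nat.cast_nonneg _)]

end Pool.Agent.H46P
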