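import Pool.Agent.Lib.H46P.D1

/-!
# Chunk D2: products of operator matrices

`mm a T S`: matrix product of `T` (word length `a`) and `S`; `inj_mat`, `op_mat`.
`md T`: adjoint matrix, entry `(x, y)` is the adjoint of entry `(y, x)` (`adjoint_op`).
`mb_of_sq`: `∑ y ‖∑ x ...‖^2`: for `ψ` put `φ x = ∑ y, op T_{xy} (ψ y)`; then
`∑ ‖φ x‖^2 = ∑ y z ⟪ψ y, (B^*B)_{yz} ψ z⟫ ≤ β^2 ∑ ‖ψ y‖^2`; Cauchy-Schwarz.
`mb_of_sa`: the same for a self adjoint matrix (`md T = T` as operators), `B^*B = B B`.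
`md` of a product: `sa_mm`: if the matrix `T` is self adjoint, so is `mm d T T`.
-/

namespace Pool.Agent.H46P

open Finset
open scoped BigOperators ComplexConjugate InnerProductSpace

variable {κ : Type*} [Fintype κ] [DecidableEq κ]
  {E : Type*} [NormedAddCommGroup E] [InnerProductSpace ℂ E] [CompleteSpace E]

/-- matrix product -/
noncomputable def mm (a : ℕ) (T S : List κ → ℂ) : List κ → ℂ
  | x :: z :: I => ∑ y, T (x :: y :: I.take a) * S (y :: z :: I.drop a)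
  | _ => 0

/-- adjoint matrix -/
noncomputable def md (σ : κ → κ) (T : List κ → ℂ) : List κ → ℂ
  | x :: y :: I => (starRingEnd ℂ) (T (y :: x :: (I.map σ).reverse))
  | _ => 0

/-- self adjointness of the operator matrix -/
def SA (A : κ → E →L[ℂ] E) (d : ℕ) (T : List κ → ℂ) : Prop :=
  ∀ x y, ContinuousLinearMap.adjoint (op A d (fun I => T (x :: y :: I))) =
    op A d (fun I => T (y :: x :: I))

theorem inj_mm {a b : ℕ} {T S : List κ → ℂ} {c c' : ℝ} (hc : 0 ≤ c) (hc' : 0 ≤ c')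
    (hT : Inj (a + 2) T c) (hS : Inj (b + 2) S c') : Inj (a + b + 2) (mm a T S) (c * c') := by
  refine inj_congr (fun I hI => ?_) (inj_mat hc hc' hT hS)
  match I, hI with
  | x :: z :: I, _ => rfl

theorem inj_md {σ : κ → κ} (hσ : ∀ k, σ (σ k) = k) {d : ℕ} {T : List κ → ℂ} {c : ℝ}
    (hT : Inj (d + 2) T c) : Inj (d + 2) (md σ T) c := by
  have h : Inj (d + 1 + 1) (md σ T) c := by
    rw [inj_succ_iff]
    intro x
    rw [inj_succ_iff]
    intro y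
    have h1 := inj_succ_iff.1 (show Inj (d + 1 + 1) T c from hT) (fun k => conj (y k))
    have h2 := inj_succ_iff.1 h1 (fun k => conj (x k))
    have h3 := inj_dg hσ h2
    rw [nrm_conj, nrm_conj] at h3
    have e : c * nrm x * nrm y = c * nrm y * nrm x := by ring
    rw [e]
    refine inj_congr (fun I _ => ?_) h3
    unfold dg
    simp only [map_sum, map_mul, Complex.conj_conj, Finset.mul_sum]
    rw [Finset.sum_comm]
    refine Finset.sum_congr rfl fun l _ => Finset.sum_congr rfl fun k _ => ?_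
    show x k * (y l * conj (T (l :: k :: (I.map σ).reverse))) = y l * (x k * conj (T (l :: k :: (I.map σ).reverse)))
    ring
  exact h

theorem op_mm (A : κ → E →L[ℂ] E) (a b : ℕ) (T S : List κ → ℂ) (x z : κ) :
    op A (a + b) (fun I => mm a T S (x :: z :: I)) =
      ∑ y, op A a (fun I => T (x :: y :: I)) * op A b (fun I => S (y :: z :: I)) :=
  (op_mat A a b T S x z).symm

theorem adj_md {σ : κ → κ} {A : κ → E →L[ℂ] E} (hA : CAR σ A) (d : ℕ) (T : List κ → ℂ)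
    (x y : κ) : ContinuousLinearMap.adjoint (op A d (fun I => T (x :: y :: I))) =
      op A d (fun I => md σ T (y :: x :: I)) := by
  rw [adjoint_op hA]
  rfl

theorem sa_md_mm {σ : κ → κ} {A : κ → E →L[ℂ] E} (hA : CAR σ A) (d : ℕ) (T : List κ → ℂ) :
    SA A (d + d) (mm d (md σ T) T) := by
  intro x y
  rw [op_mm, op_mm, ← ContinuousLinearMap.star_eq_adjoint, star_sum]
  refine Finset.sum_congr rfl fun w _ => ?_
  rw [← adj_md hA, ← adj_md hA, star_mul, ContinuousLinearMap.star_eq_adjoint, ContinuousLinearMap.star_eq_adjoint,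
    ContinuousLinearMap.adjoint_adjoint]

theorem sa_mm {A : κ → E →L[ℂ] E} (d : ℕ) (T : List κ → ℂ) (h : SA A d T) :
    SA A (d + d) (mm d T T) := by
  intro x y
  rw [op_mm, op_mm, ← ContinuousLinearMap.star_eq_adjoint, star_sum]
  refine Finset.sum_congr rfl fun w _ => ?_
  rw [star_mul, ContinuousLinearMap.star_eq_adjoint, ContinuousLinearMap.star_eq_adjoint, h w y, h x w]

theorem d2_sq {B : κ → κ → E →L[ℂ] E} {β : ℝ} (hβ : 0 ≤ β)
    (h : ∀ φ ψ : κ → E, ‖∑ y, ∑ z, ⟪φ y, (∑ x, ContinuousLinearMap.adjoint (B x y) * B x z) (ψ z)⟫_ℂ‖ ≤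
      β ^ 2 * √(∑ x, ‖φ x‖ ^ 2) * √(∑ y, ‖ψ y‖ ^ 2)) (φ ψ : κ → E) :
    ‖∑ x, ∑ y, ⟪φ x, B x y (ψ y)⟫_ℂ‖ ≤ β * √(∑ x, ‖φ x‖ ^ 2) * √(∑ y, ‖ψ y‖ ^ 2) := by
  set χ : κ → E := fun x => ∑ y, B x y (ψ y) with hχ
  have h1 : ∑ x, ∑ y, ⟪φ x, B x y (ψ y)⟫_ℂ = ∑ x, ⟪φ x, χ x⟫_ℂ := by
    refine Finset.sum_congr rfl fun x _ => ?_
    rw [hχ, inner_sum]
  have h2 : ((∑ x, ‖χ x‖ ^ 2 : ℝ) : ℂ) = ∑ y, ∑ z, ⟪ψ y, (∑ x, ContinuousLinearMap.adjoint (B x y) * B x z) (ψ z)⟫_ℂ := by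
    have e1 : ∀ x, ((‖χ x‖ ^ 2 : ℝ) : ℂ) = ∑ y, ∑ z, ⟪ψ y, (ContinuousLinearMap.adjoint (B x y) * B x z) (ψ z)⟫_ℂ := by
      intro x
      have e2 : ((‖χ x‖ ^ 2 : ℝ) : ℂ) = ⟪χ x, χ x⟫_ℂ := by
        rw [inner_self_eq_norm_sq_to_K]
        norm_cast
      rw [e2]
      conv_lhs => enter [2]; rw [hχ]
      simp only
      rw [sum_inner]
      refine Finset.sum_congr rfl fun y _ => ?_
      rw [hχ]
      simp only
      rw [inner_sum]
      refine Finset.sum_congr rfl fun z _ => ?_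
      show _ = ⟪ψ y, ContinuousLinearMap.adjoint (B x y) (B x z (ψ z))⟫_ℂ
      rw [ContinuousLinearMap.adjoint_inner_right]
    rw [Complex.ofReal_sum]
    simp only [e1]
    rw [Finset.sum_comm]
    refine Finset.sum_congr rfl fun y _ => ?_
    rw [Finset.sum_comm]
    refine Finset.sum_congr rfl fun z _ => ?_
    rw [a6_sum_apply, inner_sum]
  have h3 : ∑ x, ‖χ x‖ ^ 2 ≤ β ^ 2 * (∑ y, ‖ψ y‖ ^ 2) := by
    have h4 := h ψ ψ
    rw [← h2, Complex.norm_real, Real.norm_of_nonneg (Finset.sum_nonneg fun _ _ => by positivity), mul_assoc,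
      Real.mul_self_sqrt (Finset.sum_nonneg fun _ _ => by positivity)] at h4
    exact h4
  rw [h1]
  calc ‖∑ x, ⟪φ x, χ x⟫_ℂ‖ ≤ ∑ x, ‖φ x‖ * ‖χ x‖ :=
        (norm_sum_le _ _).trans (Finset.sum_le_sum fun x _ => norm_inner_le_norm _ _)
    _ ≤ √(∑ x, ‖φ x‖ ^ 2) * √(∑ x, ‖χ x‖ ^ 2) := d1_cs _ _ _
    _ ≤ √(∑ x, ‖φ x‖ ^ 2) * (β * √(∑ y, ‖ψ y‖ ^ 2)) := by
        apply mul_le_mul_of_nonneg_left _ (Real.sqrt_nonneg _)
        calc √(∑ x, ‖χ x‖ ^ 2) ≤ √(β ^ 2 * (∑ y, ‖ψ y‖ ^ 2)) := Real.sqrt_le_sqrt h3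
          _ = β * √(∑ y, ‖ψ y‖ ^ 2) := by rw [Real.sqrt_mul (by positivity), Real.sqrt_sq hβ]
    _ = _ := by ring

theorem mb_of_sq {σ : κ → κ} {A : κ → E →L[ℂ] E} (hA : CAR σ A) {d : ℕ} {T : List κ → ℂ}
    {β : ℝ} (hβ : 0 ≤ β) (h : MB A (d + d) (mm d (md σ T) T) (β ^ 2)) : MB A d T β := by
  refine d2_sq (B := fun x y => op A d (fun I => T (x :: y :: I))) hβ fun φ ψ => ?_
  refine le_trans (le_of_eq ?_) (h φ ψ)
  congr 1
  refine Finset.sum_congr rfl fun y _ => Finset.sum_congr rfl fun z _ => ?_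
  rw [op_mm]
  refine congrArg (fun L : E →L[ℂ] E => ⟪φ y, L (ψ z)⟫_ℂ) (Finset.sum_congr rfl fun x _ => ?_)
  rw [adj_md hA]

theorem mb_of_sa {A : κ → E →L[ℂ] E} {d : ℕ} {T : List κ → ℂ} {β : ℝ} (hβ : 0 ≤ β)
    (hs : SA A d T) (h : MB A (d + d) (mm d T T) (β ^ 2)) : MB A d T β := by
  refine d2_sq (B := fun x y => op A d (fun I => T (x :: y :: I))) hβ fun φ ψ => ?_
  refine le_trans (le_of_eq ?_) (h φ ψ)
  congr 1
  refine Finset.sum_congr rfl fun y _ => Finset.sum_congr rfl fun z _ => ?_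
  rw [op_mm]
  refine congrArg (fun L : E →L[ℂ] E => ⟪φ y, L (ψ z)⟫_ℂ) (Finset.sum_congr rfl fun x _ => ?_)
  rw [hs x y]

end Pool.Agent.H46P
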