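import Pool.Agent.Lib.H46P.D2

/-!
# Chunk D3: the matrix norm (N2 of `PROOF.md`)

`d = 0`: `mb_zero`.  `d ≥ 1`: let `m = 2 ^ j` with `m ≤ L / d < 2 m` (natural division, `Nat.log 2`), so
`d m ≤ L < 2 d m`.
Define `S 0 = mm d (md σ T) T`, `S (i+1) = mm (2^(i+1) d) (S i) (S i)`, words of length `2^(i+1) d`,
`Inj _ (S i) (c^(2^(i+1)))`, self adjoint.  For `i = j` the entries have norm
`≤ gam^(2 d m) c^(2m)` (`norm_word`, `2 d m ≤ 2 L`), so `MB A _ (S j) (card κ * gam^(2dm) c^(2m))`.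
With `β = exp d * gam^d * c`: `card κ * gam^(2dm) c^(2m) ≤ β^(2m)` because
`card κ ≤ exp L ≤ exp (2 d m)`.  Descend: `MB A (2^(i+1) d) (S i) (β^(2^(i+1)))` for `i = j, ..., 0` by
`mb_of_sa`, and finally `mb_of_sq`.  (`MB` is monotone in the constant.)
-/

namespace Pool.Agent.H46P

open Finset
open scoped BigOperators ComplexConjugate InnerProductSpace

variable {κ : Type*} [Fintype κ] [DecidableEq κ]
  {E : Type*} [NormedAddCommGroup E] [InnerProductSpace ℂ E] [CompleteSpace E]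

theorem d3_mono {A : κ → E →L[ℂ] E} {d : ℕ} {T : List κ → ℂ} {β β' : ℝ} (h : MB A d T β) (hb : β ≤ β') :
    MB A d T β' := by
  intro φ ψ
  refine (h φ ψ).trans ?_
  gcongr

theorem d3_step [Nonempty κ] {A : κ → E →L[ℂ] E} {g : ℝ} {L : ℕ} (hL : (Fintype.card κ : ℝ) ≤ Real.exp L)
    (hP : ∀ d ≤ 2 * L, Pd A g d) (k : ℕ) : ∀ (n : ℕ) (S : List κ → ℂ) (c : ℝ), 0 ≤ c → SA A n S → Inj (n + 2) S c →
    n * 2 ^ k ≤ 2 * L → L ≤ n * 2 ^ k → MB A n S ((Real.exp 1 * gam κ g) ^ n * c) := by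
  have hg := d1_gam (κ := κ) g
  induction k with
  | zero =>
    intro n S c hc _ hI h1 h2
    rw [pow_zero, mul_one] at h1 h2
    have h3 : ∀ x y, ‖op A n (fun I => S (x :: y :: I))‖ ≤ gam κ g ^ n * c := fun x y =>
      norm_word (hP n h1) hc (inj_head (inj_head (show Inj (n + 1 + 1) S c from hI) x) y)
    refine d3_mono (mb_entries (by positivity) h3) ?_
    have h4 : (Fintype.card κ : ℝ) ≤ Real.exp 1 ^ n := by
      refine hL.trans ?_
      rw [← Real.exp_nat_mul, mul_one]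
      exact Real.exp_le_exp.2 (by exact_mod_cast h2)
    calc (Fintype.card κ : ℝ) * (gam κ g ^ n * c) ≤ Real.exp 1 ^ n * (gam κ g ^ n * c) :=
          mul_le_mul_of_nonneg_right h4 (by positivity)
      _ = _ := by rw [mul_pow]; ring
  | succ k ih =>
    intro n S c hc hS hI h1 h2
    have e : (n + n) * 2 ^ k = n * 2 ^ (k + 1) := by rw [pow_succ]; ring
    have h3 := ih (n + n) (mm n S S) (c * c) (mul_nonneg hc hc) (sa_mm n S hS) (inj_mm hc hc hI hI) (by rw [e]; exact h1)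
      (by rw [e]; exact h2)
    refine mb_of_sa (by positivity) hS ?_
    have e2 : ((Real.exp 1 * gam κ g) ^ n * c) ^ 2 = (Real.exp 1 * gam κ g) ^ (n + n) * (c * c) := by
      rw [pow_add]
      ring
    rw [e2]
    exact h3

theorem mat_bound [Nonempty κ] [FiniteDimensional ℂ E] {σ : κ → κ} {A : κ → E →L[ℂ] E}
    (hA : CAR σ A) {g : ℝ} (hg : 1 ≤ g) {L : ℕ} (hL : (Fintype.card κ : ℝ) ≤ Real.exp L)
    (hP : ∀ d ≤ 2 * L, Pd A g d) {d : ℕ} (hd : d ≤ L) {T : List κ → ℂ} {c : ℝ} (hc : 0 ≤ c)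
    (hT : Inj (d + 2) T c) : MB A d T ((Real.exp 1 * gam κ g) ^ d * c) := by
  have hgam := d1_gam (κ := κ) g
  rcases Nat.eq_zero_or_pos d with h0 | h0
  · subst h0
    rw [pow_zero, one_mul]
    exact mb_zero A hc hT
  · have h1 : L / d ≠ 0 := by
      rw [Nat.div_ne_zero_iff]
      omega
    set j := Nat.log 2 (L / d) with hj
    have h2 : 2 ^ j ≤ L / d := Nat.pow_log_le_self 2 h1
    have h3 : L / d < 2 ^ (j + 1) := Nat.lt_pow_succ_log_self (by norm_num) _
    have h4 : d * 2 ^ j ≤ L := (Nat.mul_le_mul_left d h2).trans (Nat.mul_div_le L d)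
    have h5 : L < 2 ^ (j + 1) * d := (Nat.div_lt_iff_lt_mul h0).1 h3
    have h6 := d3_step hL hP j (d + d) (mm d (md σ T) T) (c * c) (mul_nonneg hc hc) (sa_md_mm hA d T)
      (inj_mm hc hc (inj_md hA.inv hT) hT) (by rw [add_mul]; omega) (by
        have e : (d + d) * 2 ^ j = 2 ^ (j + 1) * d := by rw [pow_succ]; ring
        rw [e]
        exact h5.le)
    refine mb_of_sq hA (by positivity) ?_
    have e2 : ((Real.exp 1 * gam κ g) ^ d * c) ^ 2 = (Real.exp 1 * gam κ g) ^ (d + d) * (c * c) := by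
      rw [pow_add]
      ring
    rw [e2]
    exact h6

end Pool.Agent.H46P
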