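import Mathlib

/-!
# H46P: definitions

Letters `k : κ` with an involution `σ`, operators `A k` on a finite dimensional Hilbert space `E` with
`A k * A l + A l * A k = [l = σ k]` and `(A k)^* = A (σ k)`.  A tensor is a function `List κ → ℂ`.
See `PROOF.md`.
-/

namespace Pool.Agent.H46P

open Finset
open scoped BigOperators

variable {κ : Type*} [Fintype κ]

/-- Euclidean norm of a vector `x : κ → ℂ`. -/
noncomputable def nrm (x : κ → ℂ) : ℝ := Real.sqrt (∑ k, ‖x k‖ ^ 2)

/-- Evaluation of a tensor on a list of vectors. -/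
noncomputable def ev : List (κ → ℂ) → (List κ → ℂ) → ℂ
  | [], T => T []
  | x :: xs, T => ∑ k, x k * ev xs (fun I => T (k :: I))

/-- `Inj n T c`: the injective norm of the `n`-leg part of the tensor `T` is at most `c`. -/
def Inj (n : ℕ) (T : List κ → ℂ) (c : ℝ) : Prop :=
  ∀ xs : List (κ → ℂ), xs.length = n → ‖ev xs T‖ ≤ c * (xs.map nrm).prod

/-- Insert the letter `k` at position `l`. -/
def ins {α : Type*} : ℕ → α → List α → List α
  | 0, k, I => k :: I
  | _ + 1, k, [] => [k]
  | l + 1, k, j :: I => j :: ins l k I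

/-- The tensor `T` with leg number `l` fixed at the letter `k`. -/
def fx {α : Type*} (l : ℕ) (k : α) (T : List α → ℂ) : List α → ℂ := fun I => T (ins l k I)

/-- The tensor `T` with leg number `l` moved to the front. -/
def mv {α : Type*} (l : ℕ) (T : List α → ℂ) : List α → ℂ
  | [] => 0
  | k :: I => T (ins l k I)

/-- Substitution: leg number `p` of `T` is contracted with the first leg of `S`, and replaced by the
other `a` legs of `S`. -/
noncomputable def sb (p a : ℕ) (T S : List κ → ℂ) : List κ → ℂ := fun L =>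
  ∑ k, T (L.take p ++ k :: L.drop (p + a)) * S (k :: (L.drop p).take a)

/-- Words with a coefficient in the ring: `∑ A_{k_1} ... A_{k_n} F[k_1, ..., k_n]`. -/
noncomputable def opF {R : Type*} [Ring R] (A : κ → R) : ℕ → (List κ → R) → R
  | 0, F => F []
  | n + 1, F => ∑ k, A k * opF A n (fun I => F (k :: I))

/-- Word operators: `∑ T[k_1, ..., k_n] A_{k_1} ... A_{k_n}`. -/
noncomputable def op {R : Type*} [Ring R] [Algebra ℂ R] (A : κ → R) (n : ℕ) (T : List κ → ℂ) : R :=
  opF A n (fun I => algebraMap ℂ R (T I))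

section hilbert

variable {E : Type*} [NormedAddCommGroup E] [InnerProductSpace ℂ E] [CompleteSpace E]

/-- Canonical anticommutation relations. -/
structure CAR [DecidableEq κ] (σ : κ → κ) (A : κ → E →L[ℂ] E) : Prop where
  inv : ∀ k, σ (σ k) = k
  car : ∀ k l, A k * A l + A l * A k = if l = σ k then 1 else 0
  adj : ∀ k, ContinuousLinearMap.adjoint (A k) = A (σ k)

/-- `√(g M)`, `M` the number of letters. -/
noncomputable def gam (κ : Type*) [Fintype κ] (g : ℝ) : ℝ := Real.sqrt (g * Fintype.card κ)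

/-- The inequality `P(d)`. -/
def Pd (A : κ → E →L[ℂ] E) (g : ℝ) (d : ℕ) : Prop :=
  ∀ (T : List κ → ℂ) (c : ℝ), 0 ≤ c → Inj (d + 1) T c → ∀ ψ : E,
    ∑ x, ‖op A d (fun I => T (x :: I)) ψ‖ ^ 2 ≤ (gam κ g ^ d * c * ‖ψ‖) ^ 2

end hilbert

/-! ### first facts -/

@[simp] theorem ev_nil (T : List κ → ℂ) : ev [] T = T [] := rfl

@[simp] theorem ev_cons (x : κ → ℂ) (xs : List (κ → ℂ)) (T : List κ → ℂ) :
    ev (x :: xs) T = ∑ k, x k * ev xs (fun I => T (k :: I)) := rfl

theorem nrm_nonneg (x : κ → ℂ) : 0 ≤ nrm x := Real.sqrt_nonneg _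

theorem nrm_sq (x : κ → ℂ) : nrm x ^ 2 = ∑ k, ‖x k‖ ^ 2 :=
  Real.sq_sqrt (Finset.sum_nonneg fun _ _ => by positivity)

@[simp] theorem opF_zero {R : Type*} [Ring R] (A : κ → R) (F : List κ → R) : opF A 0 F = F [] := rfl

theorem opF_succ {R : Type*} [Ring R] (A : κ → R) (n : ℕ) (F : List κ → R) :
    opF A (n + 1) F = ∑ k, A k * opF A n (fun I => F (k :: I)) := rfl

@[simp] theorem op_zero {R : Type*} [Ring R] [Algebra ℂ R] (A : κ → R) (T : List κ → ℂ) :
    op A 0 T = algebraMap ℂ R (T []) := rfl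

theorem op_succ {R : Type*} [Ring R] [Algebra ℂ R] (A : κ → R) (n : ℕ) (T : List κ → ℂ) :
    op A (n + 1) T = ∑ k, A k * op A n (fun I => T (k :: I)) := rfl

@[simp] theorem ins_zero {α : Type*} (k : α) (I : List α) : ins 0 k I = k :: I := by
  cases I <;> rfl

@[simp] theorem ins_succ_cons {α : Type*} (l : ℕ) (k j : α) (I : List α) :
    ins (l + 1) k (j :: I) = j :: ins l k I := rfl

theorem length_ins {α : Type*} (l : ℕ) (k : α) (I : List α) :
    (ins l k I).length = I.length + 1 := by
  induction l generalizing I with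
  | zero => simp
  | succ l ih =>
    cases I with
    | nil => rfl
    | cons j I => simp [ih]

end Pool.Agent.H46P
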