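import Pool.Agent.Lib.H46P.Defs

/-!
# Part E: Fock space, definitions

Modes `Fin m`, letters `Fin m × Bool` (`true` = creation).  `Fk m = EuclideanSpace ℂ (Finset (Fin m))`,
basis vectors = finite sets of occupied modes.
-/

namespace Pool.Agent.H46P

open Finset
open scoped BigOperators ComplexConjugate InnerProductSpace

/-- Fock space -/
abbrev Fk (m : ℕ) := EuclideanSpace ℂ (Finset (Fin m))

/-- letters -/
abbrev Lt (m : ℕ) := Fin m × Bool

/-- the involution -/
def sg {m : ℕ} : Lt m → Lt m := fun k => (k.1, !k.2)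

/-- sign `(-1)^#{j ∈ S | j < i}` -/
noncomputable def sgnS {m : ℕ} (i : Fin m) (S : Finset (Fin m)) : ℂ := (-1) ^ #{j ∈ S | j < i}

/-- matrix of the creation operator: `(cm i) S T ≠ 0` iff `i ∉ T` and `S = insert i T` -/
noncomputable def cm {m : ℕ} (i : Fin m) : Matrix (Finset (Fin m)) (Finset (Fin m)) ℂ :=
  fun S T => if i ∉ T ∧ S = insert i T then sgnS i T else 0

/-- matrices of the letters -/
noncomputable def lm {m : ℕ} : Lt m → Matrix (Finset (Fin m)) (Finset (Fin m)) ℂ
  | (i, true) => cm i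
  | (i, false) => (cm i).transpose

/-- the letters as operators -/
noncomputable def fA {m : ℕ} (k : Lt m) : Fk m →L[ℂ] Fk m :=
  Matrix.toEuclideanCLM (n := Finset (Fin m)) (𝕜 := ℂ) (lm k)

/-- projection onto the `k`-particle space -/
noncomputable def pk {m : ℕ} (k : ℕ) : Fk m →L[ℂ] Fk m :=
  Matrix.toEuclideanCLM (n := Finset (Fin m)) (𝕜 := ℂ)
    (Matrix.diagonal fun S => if S.card = k then 1 else 0)

/-- number operator -/
noncomputable def Num {m : ℕ} : Fk m →L[ℂ] Fk m :=
  Matrix.toEuclideanCLM (n := Finset (Fin m)) (𝕜 := ℂ) (Matrix.diagonal fun S => (S.card : ℂ))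

/-- vacuum -/
noncomputable def vac {m : ℕ} : Fk m := EuclideanSpace.single ∅ 1

/-- `T` is supported (in degree `p + q`) on lists of `p` creation letters followed by `q` annihilation
letters. -/
def Pat {m : ℕ} (p q : ℕ) (T : List (Lt m) → ℂ) : Prop :=
  ∀ L : List (Lt m), L.length = p + q → T L ≠ 0 →
    L.map Prod.snd = List.replicate p true ++ List.replicate q false

/-- A homogeneous normal ordered piece. -/
structure Pc (m : ℕ) where
  /-- number of creation letters -/
  p : ℕ
  /-- number of annihilation letters -/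
  q : ℕ
  /-- tensor -/
  T : List (Lt m) → ℂ
  /-- bound for the injective norm -/
  c : ℝ

/-- validity of a piece -/
def Pc.ok {m : ℕ} (x : Pc m) : Prop := 0 ≤ x.c ∧ Inj (x.p + x.q) x.T x.c ∧ Pat x.p x.q x.T

/-- operator of a piece -/
noncomputable def Pc.o {m : ℕ} (x : Pc m) : Fk m →L[ℂ] Fk m := op fA (x.p + x.q) x.T

/-- weight of a piece -/
noncomputable def Pc.w {m : ℕ} (γ : ℝ) (x : Pc m) : ℝ := γ ^ (x.p + x.q) / γ ^ 2 * x.c

end Pool.Agent.H46P
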