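import Pool.Agent.Lib.H46P.E0

/-!
# Chunk E1: the canonical anticommutation relations on Fock space

`Matrix.toEuclideanCLM` is a star algebra equivalence: it suffices to prove the matrix identities
`cm i * cm j + cm j * cm i = 0`, `cm i * (cm j)ᵀ + (cm j)ᵀ * cm i = [i = j]`; the adjoint of a real
matrix is the transpose (`star` of `lm k`; `sgnS` is real).
-/

namespace Pool.Agent.H46P

open Finset
open scoped BigOperators ComplexConjugate InnerProductSpace Matrix

variable {m : ℕ}

lemma e1_mul_self (k : Fin m) (S : Finset (Fin m)) : sgnS k S * sgnS k S = 1 := by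
  rw [sgnS, ← pow_add, ← two_mul, pow_mul]; simp

lemma e1_star_sgn (k : Fin m) (S : Finset (Fin m)) : star (sgnS k S) = sgnS k S := by
  simp [sgnS]

lemma e1_insert_self (k : Fin m) (S : Finset (Fin m)) :
    sgnS k (insert k S) = sgnS k S := by
  rw [sgnS, sgnS, Finset.filter_insert]
  simp

lemma e1_erase_self (k : Fin m) (S : Finset (Fin m)) :
    sgnS k (S.erase k) = sgnS k S := by
  rw [sgnS, sgnS, Finset.filter_erase, Finset.erase_eq_of_notMem]
  simp

lemma e1_insert_lt {k l : Fin m} {S : Finset (Fin m)} (hl : l ∉ S) (hlk : l < k) :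
    sgnS k (insert l S) = - sgnS k S := by
  rw [sgnS, sgnS, Finset.filter_insert, if_pos hlk, Finset.card_insert_of_notMem, pow_succ]
  · ring
  · simp [hl]

lemma e1_insert_gt {k l : Fin m} {S : Finset (Fin m)} (hlk : k < l) :
    sgnS k (insert l S) = sgnS k S := by
  rw [sgnS, sgnS, Finset.filter_insert, if_neg (not_lt.mpr hlk.le)]

lemma e1_erase_lt {k l : Fin m} {S : Finset (Fin m)} (hl : l ∈ S) (hlk : l < k) :
    sgnS k (S.erase l) = - sgnS k S := by
  have h := e1_insert_lt (k := k) (S := S.erase l) (Finset.notMem_erase l S) hlk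
  rw [Finset.insert_erase hl] at h
  rw [h, neg_neg]

lemma e1_erase_gt {k l : Fin m} {S : Finset (Fin m)} (hl : l ∈ S) (hlk : k < l) :
    sgnS k (S.erase l) = sgnS k S := by
  have h := e1_insert_gt (k := k) (S := S.erase l) hlk
  rw [Finset.insert_erase hl] at h
  exact h.symm

/-- Creation in coordinates. -/
theorem e1_cre (i : Fin m) (φ : Fk m) (S : Finset (Fin m)) :
    (fA (i, true) φ) S = if i ∈ S then sgnS i S * φ (S.erase i) else 0 := by
  have h : (fA (i, true) φ) S = (cm i *ᵥ φ.ofLp) S := rfl
  rw [h, Matrix.mulVec, dotProduct]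
  by_cases hk : i ∈ S
  · rw [Finset.sum_eq_single (S.erase i)]
    · simp [cm, hk, e1_erase_self]
    · intro T _ hT
      have h2 : ¬ (i ∉ T ∧ S = insert i T) := by
        rintro ⟨h1, h2⟩
        apply hT
        rw [h2, Finset.erase_insert h1]
      simp only [cm]
      rw [if_neg h2, zero_mul]
    · simp
  · rw [if_neg hk]
    apply Finset.sum_eq_zero
    intro T _
    have h2 : ¬ (i ∉ T ∧ S = insert i T) := by
      rintro ⟨h1, h2⟩
      apply hk
      rw [h2]
      exact Finset.mem_insert_self i T
    simp only [cm]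
    rw [if_neg h2, zero_mul]

/-- Annihilation in coordinates. -/
theorem e1_ann (i : Fin m) (φ : Fk m) (S : Finset (Fin m)) :
    (fA (i, false) φ) S = if i ∈ S then 0 else sgnS i S * φ (insert i S) := by
  have h : (fA (i, false) φ) S = ((cm i)ᵀ *ᵥ φ.ofLp) S := rfl
  rw [h, Matrix.mulVec, dotProduct]
  by_cases hk : i ∈ S
  · rw [if_pos hk]
    apply Finset.sum_eq_zero
    intro T _
    simp [cm, hk]
  · rw [if_neg hk, Finset.sum_eq_single (insert i S)]
    · simp [cm, hk]
    · intro T _ hT
      simp [cm, hT]
    · simp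

theorem e1_anti_cc (k l : Fin m) :
    fA (k, true) * fA (l, true) + fA (l, true) * fA (k, true) = (0 : Fk m →L[ℂ] Fk m) := by
  ext φ S
  simp only [ContinuousLinearMap.add_apply, ContinuousLinearMap.mul_apply, PiLp.add_apply,
    e1_cre, ContinuousLinearMap.zero_apply, PiLp.zero_apply, Finset.mem_erase]
  by_cases hkl : k = l
  · subst hkl
    simp
  · have hlk : ¬ l = k := fun h => hkl h.symm
    by_cases hk : k ∈ S
    · by_cases hl : l ∈ S
      · simp only [hk, hl, hkl, hlk, ne_eq, not_false_eq_true, and_self, if_true]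
        rw [Finset.erase_right_comm]
        rcases lt_or_gt_of_ne hkl with hlt | hgt
        · rw [e1_erase_lt hk hlt, e1_erase_gt hl hlt]
          ring
        · rw [e1_erase_gt hk hgt, e1_erase_lt hl hgt]
          ring
      · simp [hk, hl]
    · by_cases hl : l ∈ S
      · simp [hk, hl]
      · simp [hk, hl]

theorem e1_anti_ac (k l : Fin m) :
    fA (k, false) * fA (l, true) + fA (l, true) * fA (k, false) =
      if k = l then (1 : Fk m →L[ℂ] Fk m) else 0 := by
  ext φ S
  rw [ContinuousLinearMap.add_apply, ContinuousLinearMap.mul_apply, ContinuousLinearMap.mul_apply,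
    PiLp.add_apply, e1_ann, e1_cre, e1_cre, e1_ann]
  by_cases hkl : k = l
  · subst hkl
    by_cases hk : k ∈ S
    · simp only [hk, if_true, Finset.notMem_erase, if_false, Finset.insert_erase,
        e1_erase_self, zero_add, ContinuousLinearMap.one_apply]
      rw [← mul_assoc, e1_mul_self, one_mul]
    · simp only [hk, if_false, Finset.mem_insert_self, if_true, e1_insert_self,
        Finset.erase_insert, not_false_eq_true, add_zero, ContinuousLinearMap.one_apply]
      rw [← mul_assoc, e1_mul_self, one_mul]
  · have hlk : ¬ l = k := fun h => hkl h.symm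
    simp only [hkl, if_false, ContinuousLinearMap.zero_apply, PiLp.zero_apply]
    by_cases hk : k ∈ S
    · have h1 : k ∈ S.erase l := Finset.mem_erase.mpr ⟨hkl, hk⟩
      simp [hk, h1]
    · by_cases hl : l ∈ S
      · have h1 : k ∉ S.erase l := fun h => hk (Finset.mem_erase.mp h).2
        have h2 : l ∈ insert k S := Finset.mem_insert_of_mem hl
        simp only [hk, hl, h1, h2, if_true, if_false]
        rw [Finset.erase_insert_of_ne hkl]
        rcases lt_or_gt_of_ne hkl with hlt | hgt
        · rw [e1_insert_lt hk hlt, e1_erase_gt hl hlt]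
          ring
        · rw [e1_insert_gt hgt, e1_erase_lt hl hgt]
          ring
      · have h2 : l ∉ insert k S := by
          simp [hl, hlk]
        simp [hk, hl, h2]

theorem e1_star (k : Lt m) : star (lm k) = lm (sg k) := by
  obtain ⟨i, b⟩ := k
  have h : ∀ S T, star (cm i S T) = cm i S T := by
    intro S T
    unfold cm
    split_ifs
    · exact e1_star_sgn _ _
    · exact star_zero _
  cases b
  · ext S T
    show star (cm i S T) = cm i S T
    exact h S T
  · ext S T
    show star (cm i T S) = cm i T S
    exact h T S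

theorem e1_adj (k : Lt m) : ContinuousLinearMap.adjoint (fA k) = fA (sg k) := by
  rw [← ContinuousLinearMap.star_eq_adjoint]
  unfold fA
  rw [← map_star, e1_star]

theorem fock_car (m : ℕ) : CAR (sg (m := m)) (fA (m := m)) := by
  refine ⟨fun k => by simp [sg], ?_, e1_adj⟩
  rintro ⟨i, b⟩ ⟨j, c⟩
  have hadj : ∀ k l : Lt m, fA k * fA l + fA l * fA k =
      ContinuousLinearMap.adjoint (fA (sg l) * fA (sg k) + fA (sg k) * fA (sg l)) := by
    intro k l
    have h : ∀ k : Lt m, ContinuousLinearMap.adjoint (fA (sg k)) = fA k := by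
      intro k
      rw [e1_adj]
      simp [sg]
    rw [map_add, ContinuousLinearMap.mul_def, ContinuousLinearMap.mul_def,
      ContinuousLinearMap.mul_def, ContinuousLinearMap.mul_def,
      ContinuousLinearMap.adjoint_comp, ContinuousLinearMap.adjoint_comp, h, h]
  cases b <;> cases c
  · rw [hadj]
    have h := e1_anti_cc j i
    simp only [sg, Bool.not_false]
    rw [h]
    simp
  · have h := e1_anti_ac i j
    rw [h]
    simp only [sg, Bool.not_false, Prod.mk.injEq, and_true]
    simp only [eq_comm]
  · have h := e1_anti_ac j i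
    rw [add_comm, h]
    simp only [sg, Bool.not_true, Prod.mk.injEq, and_true]
  · have h := e1_anti_cc i j
    rw [h]
    simp [sg]

end Pool.Agent.H46P
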