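import Pool.Agent.Lib.H46P.E1

/-!
# Chunk E2: grading

All are matrix identities (`Matrix.toEuclideanCLM` is multiplicative) or evaluations on basis vectors.
`sum_ann_sq`: `∑ ‖a_i f‖^2 = ⟪f, Num f⟫` (`num_eq`).
-/

namespace Pool.Agent.H46P

open Finset
open scoped BigOperators ComplexConjugate InnerProductSpace

variable {m : ℕ}

/-- the map from matrices to operators -/
noncomputable abbrev e2_M (m : ℕ) : Matrix (Finset (Fin m)) (Finset (Fin m)) ℂ ≃⋆ₐ[ℂ] (Fk m →L[ℂ] Fk m) :=
  Matrix.toEuclideanCLM (n := Finset (Fin m)) (𝕜 := ℂ)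

theorem e2_apply (A : Matrix (Finset (Fin m)) (Finset (Fin m)) ℂ) (f : Fk m) (S : Finset (Fin m)) :
    (e2_M m A f) S = ∑ T, A S T * f T := rfl

theorem e2_pk_apply (k : ℕ) (f : Fk m) (S : Finset (Fin m)) :
    (pk k f) S = if S.card = k then f S else 0 := by
  show (e2_M m (Matrix.diagonal fun S => if S.card = k then 1 else 0) f) S = _
  rw [e2_apply, Finset.sum_eq_single S]
  · rw [Matrix.diagonal_apply_eq]
    split_ifs <;> simp
  · intro T _ hT
    rw [Matrix.diagonal_apply_ne _ hT.symm, zero_mul]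
  · intro h
    exact absurd (Finset.mem_univ _) h

theorem e2_card_le (S : Finset (Fin m)) : S.card ≤ m := by
  have h := Finset.card_le_univ S
  rwa [Fintype.card_fin] at h

theorem e2_cm_zero {i : Fin m} {S T : Finset (Fin m)} (h : cm i S T ≠ 0) : i ∉ T ∧ S = insert i T := by
  by_contra hc
  exact h (if_neg hc)

theorem e2_cm_card {i : Fin m} {S T : Finset (Fin m)} (h : cm i S T ≠ 0) : S.card = T.card + 1 := by
  obtain ⟨h1, h2⟩ := e2_cm_zero h
  rw [h2, Finset.card_insert_of_notMem h1]

theorem e2_sgn (i : Fin m) (S : Finset (Fin m)) : sgnS i S * sgnS i S = 1 := by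
  unfold sgnS
  rw [← pow_add, ← two_mul, pow_mul]
  simp

theorem e2_clm_ext {A B : Fk m →L[ℂ] Fk m} (h : ∀ f S, (A f) S = (B f) S) : A = B := by
  ext f S
  exact h f S

theorem pk_mul_self (k : ℕ) : pk (m := m) k * pk k = pk k := by
  refine e2_clm_ext fun f S => ?_
  rw [ContinuousLinearMap.mul_apply, e2_pk_apply, e2_pk_apply]
  split_ifs <;> rfl

theorem pk_mul_ne {k l : ℕ} (h : k ≠ l) : pk (m := m) k * pk l = 0 := by
  refine e2_clm_ext fun f S => ?_
  rw [ContinuousLinearMap.mul_apply, e2_pk_apply, e2_pk_apply]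
  by_cases h1 : S.card = k
  · have h2 : ¬S.card = l := fun h3 => h (h1.symm.trans h3)
    rw [if_pos h1, if_neg h2]
    rfl
  · rw [if_neg h1]
    rfl

theorem sum_pk : ∑ k ∈ range (m + 1), pk (m := m) k = 1 := by
  refine e2_clm_ext fun f S => ?_
  rw [ContinuousLinearMap.sum_apply]
  have h1 : (∑ k ∈ range (m + 1), pk k f : Fk m) S = ∑ k ∈ range (m + 1), (pk k f) S := by
    rw [WithLp.ofLp_sum, Finset.sum_apply]
  rw [h1]
  simp only [e2_pk_apply]
  rw [Finset.sum_ite_eq, if_pos (Finset.mem_range.2 (Nat.lt_succ_of_le (e2_card_le S)))]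
  rfl

theorem pk_eq_zero {k : ℕ} (h : m < k) : pk (m := m) k = 0 := by
  refine e2_clm_ext fun f S => ?_
  rw [e2_pk_apply, if_neg]
  · rfl
  · have := e2_card_le S
    omega

theorem cre_pk (i : Fin m) (k : ℕ) : fA (i, true) * pk k = pk (k + 1) * fA (i, true) := by
  refine e2_clm_ext fun f S => ?_
  rw [ContinuousLinearMap.mul_apply, ContinuousLinearMap.mul_apply, e2_pk_apply]
  show (e2_M m (cm i) (pk k f)) S = if S.card = k + 1 then (e2_M m (cm i) f) S else 0
  rw [e2_apply, e2_apply]
  simp only [e2_pk_apply]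
  split_ifs with h1
  · refine Finset.sum_congr rfl fun T _ => ?_
    by_cases h2 : cm i S T = 0
    · rw [h2, zero_mul, zero_mul]
    · have h3 := e2_cm_card h2
      rw [if_pos (by omega)]
  · refine Finset.sum_eq_zero fun T _ => ?_
    by_cases h2 : cm i S T = 0
    · rw [h2, zero_mul]
    · have h3 := e2_cm_card h2
      rw [if_neg (by omega), mul_zero]

theorem ann_pk (i : Fin m) (k : ℕ) : fA (i, false) * pk (k + 1) = pk k * fA (i, false) := by
  refine e2_clm_ext fun f S => ?_
  rw [ContinuousLinearMap.mul_apply, ContinuousLinearMap.mul_apply, e2_pk_apply]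
  show (e2_M m (cm i).transpose (pk (k + 1) f)) S = if S.card = k then (e2_M m (cm i).transpose f) S else 0
  rw [e2_apply, e2_apply]
  simp only [e2_pk_apply, Matrix.transpose_apply]
  split_ifs with h1
  · refine Finset.sum_congr rfl fun T _ => ?_
    by_cases h2 : cm i T S = 0
    · rw [h2, zero_mul, zero_mul]
    · have h3 := e2_cm_card h2
      rw [if_pos (by omega)]
  · refine Finset.sum_eq_zero fun T _ => ?_
    by_cases h2 : cm i T S = 0
    · rw [h2, zero_mul]
    · have h3 := e2_cm_card h2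
      rw [if_neg (by omega), mul_zero]

theorem ann_pk_zero (i : Fin m) : fA (i, false) * pk (m := m) 0 = 0 := by
  refine e2_clm_ext fun f S => ?_
  rw [ContinuousLinearMap.mul_apply]
  show (e2_M m (cm i).transpose (pk 0 f)) S = 0
  rw [e2_apply]
  refine Finset.sum_eq_zero fun T _ => ?_
  rw [e2_pk_apply, Matrix.transpose_apply]
  by_cases h2 : cm i T S = 0
  · rw [h2, zero_mul]
  · have h3 := e2_cm_card h2
    rw [if_neg (by omega), mul_zero]

theorem e2_num_apply (f : Fk m) (S : Finset (Fin m)) : (Num f) S = (S.card : ℂ) * f S := by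
  show (e2_M m (Matrix.diagonal fun S => (S.card : ℂ)) f) S = _
  rw [e2_apply, Finset.sum_eq_single S]
  · rw [Matrix.diagonal_apply_eq]
  · intro T _ hT
    rw [Matrix.diagonal_apply_ne _ hT.symm, zero_mul]
  · intro h
    exact absurd (Finset.mem_univ _) h

theorem num_pk (k : ℕ) : Num (m := m) * pk k = (k : ℂ) • pk k := by
  refine e2_clm_ext fun f S => ?_
  rw [ContinuousLinearMap.mul_apply, e2_num_apply]
  show (S.card : ℂ) * (pk k f) S = (k : ℂ) * (pk k f) S
  rw [e2_pk_apply]
  split_ifs with h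
  · rw [h]
  · rw [mul_zero, mul_zero]

theorem pk_num (k : ℕ) : pk k * Num (m := m) = (k : ℂ) • pk k := by
  refine e2_clm_ext fun f S => ?_
  rw [ContinuousLinearMap.mul_apply]
  show (pk k (Num f)) S = (k : ℂ) * (pk k f) S
  rw [e2_pk_apply, e2_pk_apply, e2_num_apply]
  split_ifs with h
  · rw [h]
  · rw [mul_zero]

theorem num_eq : Num (m := m) = ∑ i, fA (i, true) * fA (i, false) := by
  have h1 : (Matrix.diagonal fun S => (S.card : ℂ) : Matrix (Finset (Fin m)) (Finset (Fin m)) ℂ) =
      ∑ i, cm i * (cm i).transpose := by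
    refine Matrix.ext fun S T => ?_
    rw [Matrix.sum_apply]
    simp only [Matrix.mul_apply, Matrix.transpose_apply]
    by_cases hST : S = T
    · subst hST
      rw [Matrix.diagonal_apply_eq]
      have h2 : ∀ i : Fin m, ∑ U, cm i S U * cm i S U = if i ∈ S then 1 else 0 := by
        intro i
        by_cases hi : i ∈ S
        · rw [if_pos hi, Finset.sum_eq_single (S.erase i)]
          · have h3 : cm i S (S.erase i) = sgnS i (S.erase i) :=
              if_pos ⟨Finset.notMem_erase i S, (Finset.insert_erase hi).symm⟩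
            rw [h3, e2_sgn]
          · intro U _ hU
            by_cases h4 : cm i S U = 0
            · rw [h4, zero_mul]
            · obtain ⟨h5, h6⟩ := e2_cm_zero h4
              exact absurd (by rw [h6, Finset.erase_insert h5]) hU
          · intro h
            exact absurd (Finset.mem_univ _) h
        · rw [if_neg hi]
          refine Finset.sum_eq_zero fun U _ => ?_
          by_cases h4 : cm i S U = 0
          · rw [h4, zero_mul]
          · obtain ⟨h5, h6⟩ := e2_cm_zero h4
            exact absurd (by rw [h6]; exact Finset.mem_insert_self i U) hi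
      rw [Finset.sum_congr rfl fun i _ => h2 i]
      simp
    · rw [Matrix.diagonal_apply_ne _ hST]
      symm
      refine Finset.sum_eq_zero fun i _ => Finset.sum_eq_zero fun U _ => ?_
      by_cases h4 : cm i S U = 0
      · rw [h4, zero_mul]
      · by_cases h7 : cm i T U = 0
        · rw [h7, mul_zero]
        · exact absurd ((e2_cm_zero h4).2.trans (e2_cm_zero h7).2.symm) hST
  show e2_M m (Matrix.diagonal fun S => (S.card : ℂ)) = ∑ i, e2_M m (cm i) * e2_M m (cm i).transpose
  rw [h1, map_sum]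
  exact Finset.sum_congr rfl fun i _ => map_mul _ _ _

theorem adj_pk (k : ℕ) : ContinuousLinearMap.adjoint (pk (m := m) k) = pk k := by
  show ContinuousLinearMap.adjoint (e2_M m (Matrix.diagonal fun S => if S.card = k then 1 else 0)) =
    e2_M m (Matrix.diagonal fun S => if S.card = k then 1 else 0)
  rw [← ContinuousLinearMap.star_eq_adjoint, ← map_star, Matrix.star_eq_conjTranspose,
    Matrix.diagonal_conjTranspose]
  congr 2
  funext S
  rw [Pi.star_apply]
  split_ifs <;> simp

theorem e2_vac_apply (S : Finset (Fin m)) : (vac (m := m)) S = if S = ∅ then 1 else 0 := by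
  unfold vac
  rw [EuclideanSpace.single_apply]

theorem pk_vac : pk (m := m) 0 vac = vac := by
  ext S
  rw [e2_pk_apply, e2_vac_apply]
  by_cases h : S = ∅
  · rw [if_pos h, if_pos (by rw [h]; rfl)]
  · rw [if_neg h, ite_self]

theorem ann_vac (i : Fin m) : fA (i, false) (vac (m := m)) = 0 := by
  ext S
  show (e2_M m (cm i).transpose vac) S = 0
  rw [e2_apply]
  refine Finset.sum_eq_zero fun T _ => ?_
  rw [e2_vac_apply, Matrix.transpose_apply]
  by_cases h2 : cm i T S = 0
  · rw [h2, zero_mul]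
  · rw [if_neg, mul_zero]
    intro h3
    obtain ⟨-, h4⟩ := e2_cm_zero h2
    rw [h3] at h4
    exact Finset.notMem_empty i (h4 ▸ Finset.mem_insert_self i S)

theorem vac_ne_zero : vac (m := m) ≠ 0 := by
  intro h
  have h1 := e2_vac_apply (m := m) ∅
  rw [h, if_pos rfl] at h1
  exact zero_ne_one h1

/-- the `0`-particle space is spanned by the vacuum -/
theorem pk_zero_eq (f : Fk m) : ∃ c : ℂ, pk 0 f = c • vac := by
  refine ⟨f ∅, ?_⟩
  ext S
  rw [e2_pk_apply]
  show _ = f ∅ * (vac (m := m)) S
  rw [e2_vac_apply]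
  by_cases h : S = ∅
  · rw [if_pos h, if_pos (by rw [h]; rfl), mul_one, h]
  · rw [if_neg h, if_neg (by rw [Finset.card_eq_zero]; exact h), mul_zero]

theorem e2_adj_ann (i : Fin m) : ContinuousLinearMap.adjoint (fA (i, false)) = fA (i, true) :=
  (fock_car m).adj (i, false)

theorem e2_adj_cre (i : Fin m) : ContinuousLinearMap.adjoint (fA (i, true)) = fA (i, false) :=
  (fock_car m).adj (i, true)

theorem e2_ann_sq (f : Fk m) : ((∑ i, ‖fA (i, false) f‖ ^ 2 : ℝ) : ℂ) = ⟪f, Num f⟫_ℂ := by
  push_cast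
  rw [num_eq, ContinuousLinearMap.sum_apply, inner_sum]
  refine Finset.sum_congr rfl fun i _ => ?_
  rw [ContinuousLinearMap.mul_apply, ← e2_adj_ann, ContinuousLinearMap.adjoint_inner_right,
    inner_self_eq_norm_sq_to_K]
  rfl

theorem sum_ann_sq {k : ℕ} {f : Fk m} (hf : pk k f = f) :
    ∑ i, ‖fA (i, false) f‖ ^ 2 = k * ‖f‖ ^ 2 := by
  apply Complex.ofReal_injective
  rw [e2_ann_sq]
  have h1 : Num f = (k : ℂ) • f := by
    have h2 : Num (pk k f) = (k : ℂ) • pk k f := by
      have h3 := congrArg (fun A : Fk m →L[ℂ] Fk m => A f) (num_pk (m := m) k)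
      exact h3
    rw [hf] at h2
    exact h2
  rw [h1, inner_smul_right, inner_self_eq_norm_sq_to_K]
  push_cast
  rfl

theorem sum_cre_sq_le (f : Fk m) : ∑ i, ‖fA (i, true) f‖ ^ 2 ≤ m * ‖f‖ ^ 2 := by
  have h1 : ∀ i : Fin m, ‖fA (i, true) f‖ ^ 2 = ‖f‖ ^ 2 - ‖fA (i, false) f‖ ^ 2 := by
    intro i
    apply Complex.ofReal_injective
    have h2 : fA (i, false) * fA (i, true) = 1 - fA (i, true) * fA (m := m) (i, false) := by
      have h3 := (fock_car m).car (i, false) (i, true)
      rw [if_pos (show ((i, true) : Lt m) = sg (i, false) from rfl)] at h3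
      exact eq_sub_of_add_eq h3
    have h4 : ⟪f, (fA (i, false) * fA (i, true)) f⟫_ℂ = ((‖fA (i, true) f‖ ^ 2 : ℝ) : ℂ) := by
      rw [ContinuousLinearMap.mul_apply, ← e2_adj_cre, ContinuousLinearMap.adjoint_inner_right,
        inner_self_eq_norm_sq_to_K]
      push_cast
      rfl
    have h5 : ⟪f, (fA (i, true) * fA (i, false)) f⟫_ℂ = ((‖fA (i, false) f‖ ^ 2 : ℝ) : ℂ) := by
      rw [ContinuousLinearMap.mul_apply, ← e2_adj_ann, ContinuousLinearMap.adjoint_inner_right,
        inner_self_eq_norm_sq_to_K]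
      push_cast
      rfl
    rw [← h4, h2, ContinuousLinearMap.sub_apply, inner_sub_right, h5, ContinuousLinearMap.one_apply,
      inner_self_eq_norm_sq_to_K]
    push_cast
    rfl
  calc ∑ i, ‖fA (i, true) f‖ ^ 2 ≤ ∑ _i : Fin m, ‖f‖ ^ 2 :=
        Finset.sum_le_sum fun i _ => by
          rw [h1]
          have : 0 ≤ ‖fA (i, false) f‖ ^ 2 := by positivity
          linarith
    _ = m * ‖f‖ ^ 2 := by
        rw [Finset.sum_const, Finset.card_univ, Fintype.card_fin, nsmul_eq_mul]

/-- top vector: coefficient of the full set; annihilation operators do not reach it -/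
theorem ann_univ (i : Fin m) (f : Fk m) : (fA (i, false) f) (univ : Finset (Fin m)) = 0 := by
  show (e2_M m (cm i).transpose f) univ = 0
  rw [e2_apply]
  refine Finset.sum_eq_zero fun T _ => ?_
  rw [Matrix.transpose_apply]
  by_cases h2 : cm i T univ = 0
  · rw [h2, zero_mul]
  · exact absurd (Finset.mem_univ i) (e2_cm_zero h2).1

end Pool.Agent.H46P
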