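import Pool.Agent.Lib.H46P.E2
import Pool.Agent.Lib.H46P.A5

/-!
# Chunk E3: normal ordered words and the grading

`Pat p q T`: induction on `p` (then on `q`): `op fA (n+1) T = ∑ k, fA k * op fA n T_k`, only the letters
`k` with the right `Bool` contribute (`op` of a tensor vanishing on lists of length `n` is `0`), and
`T_k` has pattern `(p-1, q)` or `(0, q-1)`; `cre_pk`, `ann_pk`, `ann_pk_zero`.
-/

namespace Pool.Agent.H46P

open Finset
open scoped BigOperators ComplexConjugate InnerProductSpace

variable {m : ℕ}

theorem pat_head_succ {p q : ℕ} {T : List (Lt m) → ℂ} (h : Pat (p + 1) q T) (i : Fin m) :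
    Pat p q (fun I => T ((i, true) :: I)) ∧
      ∀ I : List (Lt m), I.length = p + q → T ((i, false) :: I) = 0 := by
  constructor
  · intro L hL hT
    have h1 := h ((i, true) :: L) (by rw [List.length_cons, hL]; ring) hT
    rw [List.map_cons, List.replicate_succ, List.cons_append, List.cons.injEq] at h1
    exact h1.2
  · intro I hI
    by_contra hT
    have h1 := h ((i, false) :: I) (by rw [List.length_cons, hI]; ring) hT
    rw [List.map_cons, List.replicate_succ, List.cons_append, List.cons.injEq] at h1
    exact Bool.false_ne_true h1.1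

theorem pat_head_zero {q : ℕ} {T : List (Lt m) → ℂ} (h : Pat 0 (q + 1) T) (i : Fin m) :
    Pat 0 q (fun I => T ((i, false) :: I)) ∧
      ∀ I : List (Lt m), I.length = q → T ((i, true) :: I) = 0 := by
  constructor
  · intro L hL hT
    have h1 := h ((i, false) :: L) (by rw [List.length_cons, hL]; ring) hT
    rw [List.map_cons, List.replicate_zero, List.nil_append, List.replicate_succ, List.cons.injEq] at h1
    exact h1.2
  · intro I hI
    by_contra hT
    have h1 := h ((i, true) :: I) (by rw [List.length_cons, hI]; ring) hT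
    rw [List.map_cons, List.replicate_zero, List.nil_append, List.replicate_succ, List.cons.injEq] at h1
    exact Bool.false_ne_true h1.1.symm

theorem e3_op_zero {κ : Type*} [Fintype κ] {R : Type*} [Ring R] [Algebra ℂ R] (A : κ → R) (n : ℕ)
    {T : List κ → ℂ} (h : ∀ I : List κ, I.length = n → T I = 0) : op A n T = 0 := by
  have h1 : op A n T = op A n (fun I => 0 * T I) := op_congr A n fun I hI => by rw [h I hI, zero_mul]
  rw [h1, op_smul, zero_smul]

theorem e3_succ {p q : ℕ} {T : List (Lt m) → ℂ} (h : Pat (p + 1) q T) :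
    op fA (p + 1 + q) T = ∑ i, fA (i, true) * op fA (p + q) (fun I => T ((i, true) :: I)) := by
  have e : p + 1 + q = p + q + 1 := by ring
  rw [e, op_succ, Fintype.sum_prod_type]
  refine Finset.sum_congr rfl fun i _ => ?_
  rw [Fintype.sum_bool, e3_op_zero fA (p + q) (T := fun I => T ((i, false) :: I)) (pat_head_succ h i).2,
    mul_zero, add_zero]

theorem e3_zero {q : ℕ} {T : List (Lt m) → ℂ} (h : Pat 0 (q + 1) T) :
    op fA (q + 1) T = ∑ i, fA (i, false) * op fA q (fun I => T ((i, false) :: I)) := by
  rw [op_succ, Fintype.sum_prod_type]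
  refine Finset.sum_congr rfl fun i _ => ?_
  rw [Fintype.sum_bool, e3_op_zero fA q (T := fun I => T ((i, true) :: I)) (pat_head_zero h i).2,
    mul_zero, zero_add]

/-- for `q ≤ k` -/
theorem word_pk {p q : ℕ} {T : List (Lt m) → ℂ} (h : Pat p q T) {k : ℕ} (hk : q ≤ k) :
    op fA (p + q) T * pk k = pk (k + p - q) * op fA (p + q) T := by
  induction p generalizing T with
  | zero =>
    rw [zero_add, add_zero]
    induction q generalizing T with
    | zero =>
      rw [op_zero, Nat.sub_zero]
      exact Algebra.commutes _ _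
    | succ q ih =>
      rw [e3_zero h, Finset.sum_mul, Finset.mul_sum]
      refine Finset.sum_congr rfl fun i _ => ?_
      rw [mul_assoc, ih (by omega) (pat_head_zero h i).1, ← mul_assoc, ← mul_assoc]
      congr 1
      have e : k - q = k - (q + 1) + 1 := by omega
      rw [e, ann_pk]
  | succ p ih =>
    rw [e3_succ h, Finset.sum_mul, Finset.mul_sum]
    refine Finset.sum_congr rfl fun i _ => ?_
    rw [mul_assoc, ih (pat_head_succ h i).1, ← mul_assoc, ← mul_assoc]
    congr 1
    have e : k + (p + 1) - q = k + p - q + 1 := by omega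
    rw [e, cre_pk]

theorem word_pk_lt {p q : ℕ} {T : List (Lt m) → ℂ} (h : Pat p q T) {k : ℕ} (hk : k < q) :
    op fA (p + q) T * pk k = 0 := by
  induction p generalizing T with
  | zero =>
    rw [zero_add]
    cases q with
    | zero => exact absurd hk (Nat.not_lt_zero k)
    | succ q =>
      induction q generalizing T k with
      | zero =>
        have hk0 : k = 0 := by omega
        subst hk0
        rw [e3_zero h, Finset.sum_mul]
        refine Finset.sum_eq_zero fun i _ => ?_
        rw [op_zero, mul_assoc, Algebra.commutes, ← mul_assoc, ann_pk_zero, zero_mul]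
      | succ q ih =>
        rw [e3_zero h, Finset.sum_mul]
        refine Finset.sum_eq_zero fun i _ => ?_
        rw [mul_assoc]
        rcases Nat.lt_or_ge k (q + 1) with h1 | h1
        · rw [ih h1 (pat_head_zero h i).1, mul_zero]
        · have hk' : k = q + 1 := by omega
          have h2 := word_pk (pat_head_zero h i).1 (k := k) h1
          rw [zero_add] at h2
          rw [h2, hk']
          have e : q + 1 + 0 - (q + 1) = 0 := by omega
          rw [e, ← mul_assoc, ann_pk_zero, zero_mul]
  | succ p ih =>
    rw [e3_succ h, Finset.sum_mul]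
    refine Finset.sum_eq_zero fun i _ => ?_
    rw [mul_assoc, ih (pat_head_succ h i).1, mul_zero]

/-- output in level `k'` comes only from level `k' + q - p` -/
theorem pk_word {p q : ℕ} {T : List (Lt m) → ℂ} (h : Pat p q T) {k' : ℕ} (hk : p ≤ k') :
    pk k' * op fA (p + q) T = op fA (p + q) T * pk (k' + q - p) := by
  have h1 := word_pk h (k := k' + q - p) (by omega)
  have e : k' + q - p + p - q = k' := by omega
  rw [e] at h1
  exact h1.symm

theorem e3_split (B : Fk m →L[ℂ] Fk m) : B = ∑ k ∈ range (m + 1), B * pk k := by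
  rw [← Finset.mul_sum, sum_pk, mul_one]

theorem pk_word_lt {p q : ℕ} {T : List (Lt m) → ℂ} (h : Pat p q T) {k' : ℕ} (hk : k' < p) :
    pk k' * op fA (p + q) T = 0 := by
  rw [e3_split (pk k' * op fA (p + q) T)]
  refine Finset.sum_eq_zero fun k _ => ?_
  rw [mul_assoc]
  rcases Nat.lt_or_ge k q with h1 | h1
  · rw [word_pk_lt h h1, mul_zero]
  · rw [word_pk h h1, ← mul_assoc, pk_mul_ne (by omega), zero_mul]

theorem word_vac {p q : ℕ} {T : List (Lt m) → ℂ} (h : Pat p q T) (hq : 1 ≤ q) :
    op fA (p + q) T vac = 0 := by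
  have h1 : op fA (p + q) T * pk 0 = 0 := word_pk_lt h (by omega)
  have h2 := congrArg (fun B : Fk m →L[ℂ] Fk m => B vac) h1
  have h3 : (op fA (p + q) T) (pk 0 vac) = 0 := h2
  rw [pk_vac] at h3
  exact h3

theorem e3_ann_ann (i j : Fin m) :
    fA (i, false) * fA (j, false) = (-1 : ℂ) • (fA (j, false) * fA (m := m) (i, false)) := by
  have h3 := (fock_car m).car (i, false) (j, false)
  have h4 : ¬(((j, false) : Lt m) = sg (i, false)) := by
    intro h
    have h5 := congrArg Prod.snd h
    exact Bool.false_ne_true h5
  rw [if_neg h4] at h3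
  refine (eq_neg_of_add_eq_zero_left h3).trans ?_
  exact (neg_one_smul ℂ _).symm

theorem e3_one (i : Fin m) {b : ℕ} {S : List (Lt m) → ℂ} (hS : Pat 0 b S) :
    fA (i, false) * op fA b S = (-1 : ℂ) ^ b • (op fA b S * fA (i, false)) := by
  induction b generalizing S with
  | zero =>
    rw [op_zero, pow_zero, one_smul]
    exact (Algebra.commutes _ _).symm
  | succ b ih =>
    rw [e3_zero hS, Finset.mul_sum, Finset.sum_mul, Finset.smul_sum]
    refine Finset.sum_congr rfl fun j _ => ?_
    rw [← mul_assoc, e3_ann_ann, smul_mul_assoc, mul_assoc, ih (pat_head_zero hS j).1, mul_smul_comm,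
      smul_smul, mul_assoc (fA (j, false)), pow_succ, mul_comm]

/-- even annihilation words commute with all annihilation words -/
theorem ann_comm {a b : ℕ} {T S : List (Lt m) → ℂ} (hT : Pat 0 a T) (hS : Pat 0 b S) :
    op fA a T * op fA b S = (-1 : ℂ) ^ (a * b) • (op fA b S * op fA a T) := by
  induction a generalizing T with
  | zero =>
    rw [op_zero, zero_mul, pow_zero, one_smul]
    exact Algebra.commutes _ _
  | succ a ih =>
    rw [e3_zero hT, Finset.mul_sum, Finset.sum_mul, Finset.smul_sum]
    refine Finset.sum_congr rfl fun j _ => ?_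
    rw [mul_assoc, ih (pat_head_zero hT j).1, mul_smul_comm, ← mul_assoc, e3_one j hS, smul_mul_assoc,
      smul_smul, mul_assoc]
    congr 1
    rw [← pow_add]
    congr 1
    ring

/-- `[Num, op] = (p - q) op` -/
theorem num_word {p q : ℕ} {T : List (Lt m) → ℂ} (h : Pat p q T) :
    Num * op fA (p + q) T - op fA (p + q) T * Num = ((p : ℂ) - q) • op fA (p + q) T := by
  rw [e3_split (Num * op fA (p + q) T - op fA (p + q) T * Num)]
  conv_rhs => rw [e3_split (op fA (p + q) T), Finset.smul_sum]
  refine Finset.sum_congr rfl fun k _ => ?_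
  rw [sub_mul, mul_assoc, mul_assoc, num_pk]
  rcases Nat.lt_or_ge k q with h1 | h1
  · rw [mul_smul_comm, word_pk_lt h h1, mul_zero]
    ext f
    simp
  · rw [mul_smul_comm]
    have h2 : Num * (op fA (p + q) T * pk k) = ((k + p - q : ℕ) : ℂ) • (op fA (p + q) T * pk k) := by
      rw [word_pk h h1, ← mul_assoc, num_pk, smul_mul_assoc]
    rw [h2]
    refine (sub_smul _ _ _).symm.trans ?_
    congr 1
    rw [Nat.cast_sub (by omega)]
    push_cast
    ring

end Pool.Agent.H46P
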