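import Pool.Agent.Lib.H46P.E3
import Pool.Agent.Lib.H46P.D1
import Pool.Agent.Lib.H46P.A3

/-!
# Chunk E4: norms of normal ordered words on a level ((F1), (F2) of `PROOF.md`)

Let `n = p + q - 2`, `T' (x :: y :: I) = T (x :: (I ++ [y]))`; `Inj (n+2) T' c` (move the last leg to
position 1: `ev (u :: v :: xs) T' = ev (u :: (xs ++ [v])) T`, `ev_snoc`).
`op fA (p+q) T = ∑ x, ∑ y, fA x * op fA n (fun I => T' (x :: y :: I)) * fA y` (`op_succ`, `opF_snoc`).
Hence `⟪φ, op T f⟫ = ∑ ⟪(fA x)^* φ, op .. (fA y f)⟫`; if `p ≥ 1` only creation letters `x = (i, true)`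
contribute, `(fA x)^* = fA (i, false)`: `∑ ‖fA (i,false) φ‖^2 = k' ‖φ‖^2` with `φ = op T f` itself, which
is in level `k' = k + p - q` (`word_pk`); only annihilation letters `y` contribute.  If `p = 0`,
`(fA (i,false))^* = fA (i,true)` and `sum_cre_sq_le`.  In the sums over all letters put the vectors of
the non contributing letters equal to `0`.
-/

namespace Pool.Agent.H46P

open Finset
open scoped BigOperators ComplexConjugate InnerProductSpace

variable {m : ℕ}

/-- the last leg moved to position 1 -/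
def e4_T {κ : Type*} (T : List κ → ℂ) : List κ → ℂ
  | x :: y :: I => T (x :: (I ++ [y]))
  | _ => 0

theorem e4_snoc {κ : Type*} [Fintype κ] {R : Type*} [Ring R] [Algebra ℂ R] (A : κ → R) (n : ℕ)
    (G : List κ → ℂ) : op A (n + 1) G = ∑ y, op A n (fun I => G (I ++ [y])) * A y := by
  induction n generalizing G with
  | zero =>
    rw [op_succ]
    refine Finset.sum_congr rfl fun y _ => ?_
    rw [op_zero, op_zero]
    exact (Algebra.commutes _ _).symm
  | succ n ih =>
    rw [op_succ]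
    have h1 : ∀ k, A k * op A (n + 1) (fun I => G (k :: I)) =
        ∑ y, A k * (op A n (fun I => G (k :: (I ++ [y]))) * A y) := by
      intro k
      rw [ih, Finset.mul_sum]
    simp only [h1]
    rw [Finset.sum_comm]
    refine Finset.sum_congr rfl fun y _ => ?_
    rw [op_succ, Finset.sum_mul]
    refine Finset.sum_congr rfl fun k _ => ?_
    rw [mul_assoc]
    rfl

theorem e4_two {κ : Type*} [Fintype κ] {R : Type*} [Ring R] [Algebra ℂ R] (A : κ → R) (n : ℕ)
    (T : List κ → ℂ) : op A (n + 2) T = ∑ x, ∑ y, A x * (op A n (fun I => e4_T T (x :: y :: I)) * A y) := by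
  rw [op_succ]
  refine Finset.sum_congr rfl fun x _ => ?_
  rw [e4_snoc, Finset.mul_sum]
  rfl

theorem e4_inj {κ : Type*} [Fintype κ] {n : ℕ} {T : List κ → ℂ} {c : ℝ} (h : Inj (n + 2) T c) :
    Inj (n + 2) (e4_T T) c := by
  intro xs hx
  match xs, hx with
  | u :: v :: ys, hx =>
    have h1 : ev (u :: v :: ys) (e4_T T) = ev (u :: (ys ++ [v])) T := by
      rw [ev_cons, ev_cons]
      refine Finset.sum_congr rfl fun x _ => ?_
      rw [ev_cons, ev_snoc]
      rfl
    rw [h1]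
    have h2 := h (u :: (ys ++ [v])) (by simpa using hx)
    refine h2.trans (le_of_eq ?_)
    congr 1
    rw [List.map_cons, List.map_append, List.prod_cons, List.prod_append, List.map_cons, List.map_cons,
      List.prod_cons, List.prod_cons, List.map_cons, List.prod_cons, List.map_nil, List.prod_nil, mul_one,
      mul_comm (List.map nrm ys).prod]

theorem e4_first {p q : ℕ} {T : List (Lt m) → ℂ} (h : Pat p q T) (hp : 1 ≤ p) {i : Fin m}
    {L : List (Lt m)} (hL : L.length + 1 = p + q) : T ((i, false) :: L) = 0 := by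
  by_contra hT
  have h1 := h ((i, false) :: L) (by rw [List.length_cons, hL]) hT
  obtain ⟨p', rfl⟩ : ∃ p', p = p' + 1 := ⟨p - 1, by omega⟩
  rw [List.map_cons, List.replicate_succ, List.cons_append, List.cons.injEq] at h1
  exact Bool.false_ne_true h1.1

theorem e4_first0 {q : ℕ} {T : List (Lt m) → ℂ} (h : Pat 0 q T) {i : Fin m}
    {L : List (Lt m)} (hL : L.length + 1 = q) : T ((i, true) :: L) = 0 := by
  by_contra hT
  have h1 := h ((i, true) :: L) (by rw [List.length_cons, hL, zero_add]) hT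
  subst hL
  rw [List.map_cons, List.replicate_zero, List.nil_append, List.replicate_succ, List.cons.injEq] at h1
  exact Bool.false_ne_true h1.1.symm

theorem e4_last {p q : ℕ} {T : List (Lt m) → ℂ} (h : Pat p q T) (hq : 1 ≤ q) {j : Fin m}
    {L : List (Lt m)} (hL : L.length + 1 = p + q) : T (L ++ [(j, true)]) = 0 := by
  by_contra hT
  have h1 := h (L ++ [(j, true)]) (by rw [List.length_append, List.length_singleton, hL]) hT
  obtain ⟨q', rfl⟩ : ∃ q', q = q' + 1 := ⟨q - 1, by omega⟩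
  rw [List.map_append, List.replicate_succ', ← List.append_assoc] at h1
  have h2 := (List.append_inj' h1 rfl).2
  simp at h2

theorem e4_core {n : ℕ} {T : List (Lt m) → ℂ} {β : ℝ} (hMB : MB fA n (e4_T T) β) (f : Fk m) (bx : Bool)
    (hx : ∀ (i : Fin m) (y : Lt m) (I : List (Lt m)), I.length = n → T ((i, !bx) :: (I ++ [y])) = 0)
    (hy : ∀ (x : Lt m) (j : Fin m) (I : List (Lt m)), I.length = n → T (x :: (I ++ [(j, true)])) = 0) :
    ‖op fA (n + 2) T f‖ ^ 2 ≤ β * √(∑ i, ‖fA (i, !bx) (op fA (n + 2) T f)‖ ^ 2) *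
      √(∑ i, ‖fA (i, false) f‖ ^ 2) := by
  obtain ⟨W, hW⟩ : ∃ W, W = op fA (n + 2) T f := ⟨_, rfl⟩
  rw [← hW]
  have h1 := hMB (fun x => if x.2 = bx then fA (x.1, !bx) W else 0) (fun y => if y.2 = false then fA y f else 0)
  have hz : ∀ x y : Lt m, x.2 = (!bx) ∨ y.2 = true → op fA n (fun I => e4_T T (x :: y :: I)) = 0 := by
    intro x y hxy
    refine e3_op_zero fA n fun I hI => ?_
    show T (x :: (I ++ [y])) = 0
    rcases hxy with h2 | h2
    · have e : x = (x.1, !bx) := by rw [← h2]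
      rw [e]
      exact hx _ _ _ hI
    · have e : y = (y.1, true) := by rw [← h2]
      rw [e]
      exact hy _ _ _ hI
  have h2 : ((‖W‖ ^ 2 : ℝ) : ℂ) = ∑ x : Lt m, ∑ y : Lt m, ⟪(if x.2 = bx then fA (x.1, !bx) W else 0 : Fk m),
      op fA n (fun I => e4_T T (x :: y :: I)) (if y.2 = false then fA y f else 0)⟫_ℂ := by
    have h3 : ((‖W‖ ^ 2 : ℝ) : ℂ) = ⟪W, op fA (n + 2) T f⟫_ℂ := by
      rw [← hW, inner_self_eq_norm_sq_to_K]
      push_cast
      rfl
    rw [h3, e4_two, ContinuousLinearMap.sum_apply, inner_sum]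
    refine Finset.sum_congr rfl fun x _ => ?_
    rw [ContinuousLinearMap.sum_apply, inner_sum]
    refine Finset.sum_congr rfl fun y _ => ?_
    by_cases hxy : x.2 = (!bx) ∨ y.2 = true
    · rw [hz x y hxy, zero_mul, mul_zero]
      simp
    · rw [not_or] at hxy
      have hx2 : x.2 = bx := by
        have := hxy.1
        cases hb : x.2 <;> cases hb' : bx <;> simp_all
      have hy2 : y.2 = false := by
        have := hxy.2
        cases hb : y.2 <;> simp_all
      rw [if_pos hx2, if_pos hy2, ContinuousLinearMap.mul_apply, ContinuousLinearMap.mul_apply]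
      have h4 : fA (x.1, !bx) = ContinuousLinearMap.adjoint (fA (m := m) x) := by
        rw [(fock_car m).adj x, ← hx2]
        rfl
      rw [h4, ContinuousLinearMap.adjoint_inner_left]
  have h5 : ‖W‖ ^ 2 = ‖∑ x : Lt m, ∑ y : Lt m, ⟪(if x.2 = bx then fA (x.1, !bx) W else 0 : Fk m),
      op fA n (fun I => e4_T T (x :: y :: I)) (if y.2 = false then fA y f else 0)⟫_ℂ‖ := by
    rw [← h2, Complex.norm_real, Real.norm_of_nonneg (by positivity)]
  have h6 : ∑ x : Lt m, ‖(if x.2 = bx then fA (x.1, !bx) W else 0 : Fk m)‖ ^ 2 =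
      ∑ i, ‖fA (i, !bx) W‖ ^ 2 := by
    rw [Fintype.sum_prod_type]
    refine Finset.sum_congr rfl fun i _ => ?_
    rw [Fintype.sum_bool]
    cases bx <;> simp
  have h7 : ∑ y : Lt m, ‖(if y.2 = false then fA y f else 0 : Fk m)‖ ^ 2 = ∑ i, ‖fA (i, false) f‖ ^ 2 := by
    rw [Fintype.sum_prod_type]
    refine Finset.sum_congr rfl fun i _ => ?_
    rw [Fintype.sum_bool]
    simp
  rw [h5]
  rw [h6, h7] at h1
  exact h1

theorem e4_div {a b x y β : ℝ} (ha : 0 ≤ a) (hb : 0 ≤ b) (hx : 0 ≤ x) (hy : 0 ≤ y) (hβ : 0 ≤ β)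
    (h : x ^ 2 ≤ β * √(a * x ^ 2) * √(b * y ^ 2)) : x ≤ √(b * a) * β * y := by
  rcases hx.eq_or_lt with h0 | h0
  · rw [← h0]
    positivity
  · rw [Real.sqrt_mul ha, Real.sqrt_mul hb, Real.sqrt_sq hx, Real.sqrt_sq hy] at h
    rw [Real.sqrt_mul hb]
    have h1 : x * x ≤ (√b * √a * β * y) * x := by
      calc x * x = x ^ 2 := (pow_two x).symm
        _ ≤ _ := h
        _ = _ := by ring
    exact le_of_mul_le_mul_right h1 h0

theorem fock_pq {p q : ℕ} (hp : 1 ≤ p) (hq : 1 ≤ q) {T : List (Lt m) → ℂ} {c β : ℝ}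
    (hβ : 0 ≤ β) (hT : Pat p q T) (hI : Inj (p + q) T c)
    (hM : ∀ S : List (Lt m) → ℂ, Inj (p + q - 2 + 2) S c → MB fA (p + q - 2) S β)
    {k : ℕ} (hk : q ≤ k) {f : Fk m} (hf : pk k f = f) :
    ‖op fA (p + q) T f‖ ≤ √(k * ((k + p - q : ℕ) : ℝ)) * β * ‖f‖ := by
  obtain ⟨n, hn⟩ : ∃ n, p + q = n + 2 := ⟨p + q - 2, by omega⟩
  have hn2 : p + q - 2 = n := by omega
  have hMB := hM (e4_T T) (by
    rw [hn2]
    rw [hn] at hI
    exact e4_inj hI)
  rw [hn2] at hMB
  have h1 := e4_core hMB f true (fun i y I hI' => e4_first hT hp (by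
      rw [List.length_append, List.length_singleton]
      omega)) (fun x j I hI' => e4_last (L := x :: I) hT hq (by
      rw [List.length_cons]
      omega))
  rw [← hn] at h1
  have hW : pk (k + p - q) (op fA (p + q) T f) = op fA (p + q) T f := by
    have h2 := congrArg (fun B : Fk m →L[ℂ] Fk m => B f) (word_pk hT hk)
    have h3 : (op fA (p + q) T) (pk k f) = pk (k + p - q) (op fA (p + q) T f) := h2
    rw [hf] at h3
    exact h3.symm
  have h4 := sum_ann_sq hW
  have h5 := sum_ann_sq hf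
  change ‖op fA (p + q) T f‖ ^ 2 ≤ β * √(∑ i, ‖fA (i, false) (op fA (p + q) T f)‖ ^ 2) *
      √(∑ i, ‖fA (i, false) f‖ ^ 2) at h1
  rw [h4, h5] at h1
  exact e4_div (Nat.cast_nonneg _) (Nat.cast_nonneg _) (norm_nonneg _) (norm_nonneg _) hβ h1

theorem fock_zq {q : ℕ} (hq : 2 ≤ q) {T : List (Lt m) → ℂ} {c β : ℝ}
    (hβ : 0 ≤ β) (hT : Pat 0 q T) (hI : Inj (0 + q) T c)
    (hM : ∀ S : List (Lt m) → ℂ, Inj (0 + q - 2 + 2) S c → MB fA (0 + q - 2) S β)
    {k : ℕ} {f : Fk m} (hf : pk k f = f) :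
    ‖op fA (0 + q) T f‖ ≤ √(k * (m : ℝ)) * β * ‖f‖ := by
  obtain ⟨n, hn⟩ : ∃ n, 0 + q = n + 2 := ⟨q - 2, by omega⟩
  have hn2 : 0 + q - 2 = n := by omega
  have hMB := hM (e4_T T) (by
    rw [hn2]
    rw [hn] at hI
    exact e4_inj hI)
  rw [hn2] at hMB
  have h1 := e4_core hMB f false (fun i y I hI' => e4_first0 hT (by
      rw [List.length_append, List.length_singleton]
      omega)) (fun x j I hI' => e4_last (L := x :: I) hT (by omega) (by
      rw [List.length_cons]
      omega))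
  rw [← hn] at h1
  have h5 := sum_ann_sq hf
  change ‖op fA (0 + q) T f‖ ^ 2 ≤ β * √(∑ i, ‖fA (i, true) (op fA (0 + q) T f)‖ ^ 2) *
      √(∑ i, ‖fA (i, false) f‖ ^ 2) at h1
  rw [h5] at h1
  have h6 : ‖op fA (0 + q) T f‖ ^ 2 ≤ β * √(m * ‖op fA (0 + q) T f‖ ^ 2) * √(k * ‖f‖ ^ 2) := by
    refine h1.trans ?_
    gcongr
    exact sum_cre_sq_le _
  exact e4_div (Nat.cast_nonneg _) (Nat.cast_nonneg _) (norm_nonneg _) (norm_nonneg _) hβ h6

end Pool.Agent.H46P
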