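import Pool.Agent.Lib.H46P.E4
import Pool.Agent.Lib.H46P.D3

/-!
# Chunk E5: dominance (section 8 of `PROOF.md`)

`hh = exp 1 * gam (Lt m) g`, `γ = 4 hh`.  By `mat_bound` (`card (Lt m) = 2 m`), a piece `x` of length
`n = p + q ≤ L + 2` satisfies the hypothesis `hM` of `fock_pq`/`fock_zq` with
`β = hh^(n-2) * c = (1/4)^(n-2) * x.w γ` (`γ > 0`).
Let `f` with `(Num + R) f ∈ ℂ vac`, `R = ∑ x.o`. Suppose some `pk k f ≠ 0`, `k ≥ 1`; take `k0 ≥ 1` with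
`‖pk k0 f‖` maximal among `1 ≤ k` (finite: `pk_eq_zero`). Apply `pk k0`: `pk k0 vac = 0`, so
`k0 • pk k0 f = - ∑ pk k0 (x.o f)`, `pk k0 (x.o f) = x.o (pk (k0 + q - p) f)` or `0`
(`pk_word`, `pk_word_lt`), and it vanishes if `k := k0+q-p < q` (`word_pk_lt`); `k ≥ q ≥ 1`, so
`‖pk k f‖ ≤ ‖pk k0 f‖`.  Bounds, `k ≤ k0 + q ≤ k0 (1 + q)`:
* `p, q ≥ 1` (`n - 2 ≥ q - 1`): `√(k k0) (1/4)^(n-2) w ≤ k0 √(1+q) (1/4)^(q-1) w ≤ (3/2) k0 w`
  (`q + 1 ≤ 2^q`, so `√(1+q) (1/4)^(q-1) ≤ √2 (1/√2... )`; simplest: `(1+q) ≤ 2 * 16^(q-1)`);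
* `p = 0, q > lam + 5`: `√(k m) (1/4)^(q-2) w ≤ k0 √((1+q) m) (1/4)^(q-2) w ≤ k0 w` since
  `(1+q) m ≤ 16^(q-2)` (`2 m ≤ exp lam ≤ 3^lam`, `q ≥ lam + 6`);
* `p = 0, q ≥ 2`: `≤ k0 √((1+q) m) (1/4)^(q-2) w ≤ 2 k0 √m w` (`1 + q ≤ 4 * 16^(q-2)`).
Sum: `k0 ≤ k0 (3/2 · 3/10 + 1/4 + 2 · 1/20) < k0`, contradiction. So `f = pk 0 f ∈ ℂ vac`.
-/

namespace Pool.Agent.H46P

open Finset
open scoped BigOperators ComplexConjugate InnerProductSpace

variable {m : ℕ}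

theorem e5_list (k : ℕ) (f : Fk m) (γ C : ℝ) (l : List (Pc m))
    (h : ∀ x ∈ l, ‖pk k (x.o f)‖ ≤ C * x.w γ) :
    ‖pk k ((l.map Pc.o).sum f)‖ ≤ C * (l.map (Pc.w γ)).sum := by
  induction l with
  | nil => simp
  | cons x l ih =>
    rw [List.map_cons, List.sum_cons, List.map_cons, List.sum_cons, add_apply,
      map_add, mul_add]
    refine (norm_add_le _ _).trans (add_le_add (h x (by simp)) (ih fun y hy => h y (by simp [hy])))

theorem e5_card : Fintype.card (Lt m) = 2 * m := by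
  simp [Lt, mul_comm]

theorem e5_w {γ hh : ℝ} (hh0 : 0 < hh) (hγ : γ = 4 * hh) (x : Pc m) (hn : 2 ≤ x.p + x.q) :
    hh ^ (x.p + x.q - 2) * x.c = (1 / 4) ^ (x.p + x.q - 2) * x.w γ := by
  obtain ⟨n, hn'⟩ := Nat.exists_eq_add_of_le hn
  unfold Pc.w
  rw [hn', Nat.add_sub_cancel_left, hγ, pow_add, mul_pow, mul_pow]
  have h4 : ((1 : ℝ) / 4) ^ n * 4 ^ n = 1 := by
    rw [← mul_pow]; norm_num
  have hhh : (4 * hh) ^ 2 ≠ 0 := by positivity
  have h5 : (4 * hh) ^ 2 * (4 ^ n * hh ^ n) / (4 * hh) ^ 2 = 4 ^ n * hh ^ n := by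
    field_simp
  calc hh ^ n * x.c = ((1 / 4) ^ n * 4 ^ n) * (hh ^ n * x.c) := by rw [h4, one_mul]
    _ = (1 / 4) ^ n * (4 ^ n * hh ^ n * x.c) := by ring
    _ = _ := by
      congr 1
      congr 1
      field_simp

theorem e5_geo1 (q : ℕ) (hq : 1 ≤ q) : (q : ℝ) ≤ 16 ^ (q - 1) := by
  obtain ⟨r, rfl⟩ := Nat.exists_eq_add_of_le hq
  rw [Nat.add_sub_cancel_left]
  have h : ∀ r : ℕ, 1 + r ≤ 16 ^ r := by
    intro r
    induction r with
    | zero => simp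
    | succ r ih => rw [pow_succ]; omega
  exact_mod_cast h r

theorem e5_geo2 (q : ℕ) (hq : 2 ≤ q) : ((1 + q : ℕ) : ℝ) ≤ 4 * 16 ^ (q - 2) := by
  obtain ⟨r, rfl⟩ := Nat.exists_eq_add_of_le hq
  rw [Nat.add_sub_cancel_left]
  have h : ∀ r : ℕ, 1 + (2 + r) ≤ 4 * 16 ^ r := by
    intro r
    induction r with
    | zero => simp
    | succ r ih => rw [pow_succ]; omega
  exact_mod_cast h r

theorem e5_geo3 (q lam : ℕ) (hq : lam + 5 < q) (hlam : (2 * m : ℝ) ≤ Real.exp lam) :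
    ((1 + q : ℕ) : ℝ) * m ≤ 16 ^ (q - 2) := by
  obtain ⟨r, rfl⟩ := Nat.exists_eq_add_of_lt hq
  have h1 : Real.exp lam ≤ 3 ^ lam := by
    have : Real.exp lam = Real.exp 1 ^ lam := by
      rw [← Real.exp_nat_mul]; simp
    rw [this]
    exact pow_le_pow_left₀ (Real.exp_pos 1).le (by linarith [Real.exp_one_lt_d9]) _
  have h2 : (m : ℝ) ≤ 3 ^ lam := by
    have : (0 : ℝ) ≤ m := by positivity
    linarith
  have h3 : ∀ r lam : ℕ, (1 + (lam + 5 + r + 1)) * 3 ^ lam ≤ 16 ^ (lam + 5 + r + 1 - 2) := by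
    intro r lam
    induction r with
    | zero =>
      induction lam with
      | zero => norm_num
      | succ l ih =>
        have e1 : 16 ^ (l + 1 + 5 + 0 + 1 - 2) = 16 ^ (l + 5 + 0 + 1 - 2) * 16 := by
          rw [← pow_succ]; congr 1
        rw [e1, pow_succ]
        have : 0 < 3 ^ l := by positivity
        nlinarith
    | succ r ih =>
      have e1 : 16 ^ (lam + 5 + (r + 1) + 1 - 2) = 16 ^ (lam + 5 + r + 1 - 2) * 16 := by
        rw [← pow_succ]; congr 1; omega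
      rw [e1]
      have : 0 < 3 ^ lam := by positivity
      nlinarith
  calc ((1 + (lam + 5 + r + 1) : ℕ) : ℝ) * m ≤ ((1 + (lam + 5 + r + 1) : ℕ) : ℝ) * 3 ^ lam := by
        gcongr
    _ ≤ 16 ^ (lam + 5 + r + 1 - 2) := by exact_mod_cast h3 r lam

/-- `√(a) (1/4)^n ≤ b` if `a ≤ b^2 16^n` -/
theorem e5_sqrt {a b : ℝ} {n : ℕ} (hb : 0 ≤ b) (h : a ≤ b ^ 2 * 16 ^ n) :
    √a * (1 / 4) ^ n ≤ b := by
  have h16 : (16 : ℝ) ^ n = (4 ^ n) ^ 2 := by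
    rw [← pow_mul, mul_comm n 2, pow_mul]; norm_num
  have h1 : √a ≤ b * 4 ^ n := by
    rw [h16, ← mul_pow] at h
    exact Real.sqrt_le_iff.2 ⟨by positivity, h⟩
  calc √a * (1 / 4) ^ n ≤ b * 4 ^ n * (1 / 4) ^ n := by gcongr
    _ = b := by
      rw [mul_assoc, ← mul_pow]; norm_num

theorem dominance {g : ℝ} (hg : 1 ≤ g) {lam L : ℕ} (hm : 1 ≤ m)
    (hlam : (2 * m : ℝ) ≤ Real.exp lam) (hL : lam ≤ L)
    (hP : ∀ d ≤ 2 * L, Pd (fA (m := m)) g d) {γ : ℝ}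
    (hγ : γ = 4 * (Real.exp 1 * gam (Lt m) g))
    (P Q R : List (Pc m)) (hPo : ∀ x ∈ P, x.ok ∧ 1 ≤ x.p ∧ 1 ≤ x.q ∧ x.p + x.q ≤ L + 2)
    (hQo : ∀ x ∈ Q, x.ok ∧ x.p = 0 ∧ lam + 5 < x.q ∧ x.q ≤ L + 2)
    (hRo : ∀ x ∈ R, x.ok ∧ x.p = 0 ∧ 2 ≤ x.q ∧ x.q ≤ L + 2)
    (hPw : (P.map (Pc.w γ)).sum ≤ 3 / 10) (hQw : (Q.map (Pc.w γ)).sum ≤ 1 / 4)
    (hRw : √m * (R.map (Pc.w γ)).sum ≤ 1 / 20)
    (f : Fk m) (c : ℂ)
    (hf : Num f + (P.map Pc.o).sum f + (Q.map Pc.o).sum f + (R.map Pc.o).sum f = c • vac) :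
    ∃ c' : ℂ, f = c' • vac := by
  classical
  have : Nonempty (Lt m) := ⟨(⟨0, hm⟩, true)⟩
  set hh : ℝ := Real.exp 1 * gam (Lt m) g with hhdef
  have hmR : (1 : ℝ) ≤ m := by exact_mod_cast hm
  have hcard : (Fintype.card (Lt m) : ℝ) = 2 * m := by rw [e5_card]; push_cast; ring
  have hgam : 0 < gam (Lt m) g := by
    unfold gam
    apply Real.sqrt_pos.2
    rw [hcard]
    positivity
  have hh0 : 0 < hh := by positivity
  have hexpL : (Fintype.card (Lt m) : ℝ) ≤ Real.exp L := by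
    rw [hcard]
    exact hlam.trans (Real.exp_le_exp.2 (by exact_mod_cast hL))
  have hMB : ∀ (x : Pc m), x.ok → 2 ≤ x.p + x.q → x.p + x.q ≤ L + 2 →
      ∀ S : List (Lt m) → ℂ, Inj (x.p + x.q - 2 + 2) S x.c →
        MB fA (x.p + x.q - 2) S ((1 / 4) ^ (x.p + x.q - 2) * x.w γ) := by
    intro x hx h2 hL2 S hS
    rw [← e5_w hh0 hγ x h2]
    exact mat_bound (fock_car m) hg hexpL hP (by omega) hx.1 hS
  have hγ0 : 0 < γ := by rw [hγ]; positivity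
  have hw0 : ∀ x : Pc m, x.ok → 0 ≤ x.w γ := fun x hx => by
    unfold Pc.w
    exact mul_nonneg (by positivity) hx.1
  by_contra hcon
  -- some positive level
  have hex : ∃ k ∈ Finset.Icc 1 m, pk k f ≠ 0 := by
    by_contra hno
    push Not at hno
    apply hcon
    obtain ⟨c', hc'⟩ := pk_zero_eq f
    refine ⟨c', ?_⟩
    have h1 := congrArg (fun A : Fk m →L[ℂ] Fk m => A f) (sum_pk (m := m))
    simp only [_root_.sum_apply, one_apply_eq_self] at h1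
    rw [Finset.sum_range_succ'] at h1
    rw [Finset.sum_eq_zero, zero_add] at h1
    · rw [← hc', h1]
    · intro k hk
      exact hno (k + 1) (Finset.mem_Icc.2 ⟨by omega, by have := Finset.mem_range.1 hk; omega⟩)
  obtain ⟨k1, hk1, hk1f⟩ := hex
  obtain ⟨k0, hk0, hmax⟩ := Finset.exists_max_image (Finset.Icc 1 m) (fun k => ‖pk k f‖) ⟨k1, hk1⟩
  have hk01 : 1 ≤ k0 := (Finset.mem_Icc.1 hk0).1
  set M : ℝ := ‖pk k0 f‖ with hM
  have hMpos : 0 < M := lt_of_lt_of_le (norm_pos_iff.2 hk1f) (hmax k1 hk1)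
  have hmax' : ∀ k, 1 ≤ k → ‖pk k f‖ ≤ M := by
    intro k hk
    by_cases hkm : k ≤ m
    · exact hmax k (Finset.mem_Icc.2 ⟨hk, hkm⟩)
    · rw [pk_eq_zero (by omega)]
      simpa using hMpos.le
  have hk0R : (1 : ℝ) ≤ k0 := by exact_mod_cast hk01
  -- the pieces
  have hpp : ∀ k, pk k (pk k f) = pk k f := fun k => by
    rw [← mul_apply_eq_comp, pk_mul_self]
  have hPb : ∀ x ∈ P, ‖pk k0 (x.o f)‖ ≤ (k0 * M) * x.w γ := by
    intro x hx
    obtain ⟨hok, hp, hq, hpq⟩ := hPo x hx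
    have hw := hw0 x hok
    by_cases hkp : k0 < x.p
    · have h1 := pk_word_lt hok.2.2 hkp
      have h2 : pk k0 (x.o f) = 0 := by
        have := congrArg (fun A : Fk m →L[ℂ] Fk m => A f) h1
        simpa [Pc.o] using this
      rw [h2, norm_zero]
      positivity
    · push Not at hkp
      have h1 := pk_word hok.2.2 hkp
      have h2 : pk k0 (x.o f) = op fA (x.p + x.q) x.T (pk (k0 + x.q - x.p) f) := by
        have := congrArg (fun A : Fk m →L[ℂ] Fk m => A f) h1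
        simpa [Pc.o] using this
      have hβ : (0 : ℝ) ≤ (1 / 4) ^ (x.p + x.q - 2) * x.w γ := by positivity
      have h3 := fock_pq hp hq hβ hok.2.2 hok.2.1 (hMB x hok (by omega) hpq)
        (k := k0 + x.q - x.p) (by omega) (hpp (k0 + x.q - x.p)) 
      rw [h2]
      refine h3.trans ?_
      have hk' : k0 + x.q - x.p + x.p - x.q = k0 := by omega
      rw [hk']
      have h4 : ‖pk (k0 + x.q - x.p) f‖ ≤ M := hmax' _ (by omega)
      have hn : x.q - 1 ≤ x.p + x.q - 2 := by omega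
      have h5 : √(((k0 + x.q - x.p : ℕ) : ℝ) * k0) * (1 / 4) ^ (x.p + x.q - 2) ≤ k0 := by
        apply e5_sqrt (by positivity)
        have h6 : ((k0 + x.q - x.p : ℕ) : ℝ) ≤ k0 * x.q := by
          have : k0 + x.q - x.p ≤ k0 * x.q := by
            have h7 : k0 + x.q ≤ k0 * x.q + 1 := by
              obtain ⟨a, ha⟩ := Nat.exists_eq_add_of_le hk01
              obtain ⟨b, hb⟩ := Nat.exists_eq_add_of_le hq
              rw [ha, hb]
              nlinarith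
            omega
          exact_mod_cast this
        have h8 : (x.q : ℝ) ≤ 16 ^ (x.p + x.q - 2) :=
          (e5_geo1 x.q hq).trans (pow_le_pow_right₀ (by norm_num) hn)
        calc ((k0 + x.q - x.p : ℕ) : ℝ) * k0 ≤ (k0 * x.q) * k0 := by gcongr
          _ = k0 ^ 2 * x.q := by ring
          _ ≤ k0 ^ 2 * 16 ^ (x.p + x.q - 2) := by gcongr
      calc √(((k0 + x.q - x.p : ℕ) : ℝ) * k0) * ((1 / 4) ^ (x.p + x.q - 2) * x.w γ) *
            ‖pk (k0 + x.q - x.p) f‖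
          = (√(((k0 + x.q - x.p : ℕ) : ℝ) * k0) * (1 / 4) ^ (x.p + x.q - 2)) * (x.w γ *
            ‖pk (k0 + x.q - x.p) f‖) := by ring
        _ ≤ k0 * (x.w γ * M) := by gcongr
        _ = (k0 * M) * x.w γ := by ring
  -- annihilation pieces
  have hZ : ∀ (x : Pc m) (C : ℝ), x.ok → x.p = 0 → 2 ≤ x.q → x.q ≤ L + 2 → 0 ≤ C →
      ((1 + x.q : ℕ) : ℝ) * m ≤ C ^ 2 * 16 ^ (x.q - 2) →
      ‖pk k0 (x.o f)‖ ≤ (k0 * M * C) * x.w γ := by
    intro x C hok hp hq hqL hC hCq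
    have hw := hw0 x hok
    have hpat : Pat 0 x.q x.T := by rw [← hp]; exact hok.2.2
    have hinj : Inj (0 + x.q) x.T x.c := by rw [← hp]; exact hok.2.1
    have h1 := pk_word hpat (Nat.zero_le k0)
    have hxo : x.o = op fA (0 + x.q) x.T := by unfold Pc.o; rw [hp]
    have h2 : pk k0 (x.o f) = op fA (0 + x.q) x.T (pk (k0 + x.q - 0) f) := by
      have := congrArg (fun A : Fk m →L[ℂ] Fk m => A f) h1
      rw [hxo]
      simpa using this
    have hMB' : ∀ S : List (Lt m) → ℂ, Inj (0 + x.q - 2 + 2) S x.c →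
        MB fA (0 + x.q - 2) S ((1 / 4) ^ (0 + x.q - 2) * x.w γ) := by
      have := hMB x hok (by omega) (by omega)
      rw [hp] at this
      exact this
    have hβ : (0 : ℝ) ≤ (1 / 4) ^ (0 + x.q - 2) * x.w γ := by positivity
    have h3 := fock_zq hq hβ hpat hinj hMB' (hpp (k0 + x.q - 0))
    rw [h2]
    refine h3.trans ?_
    have h4 : ‖pk (k0 + x.q - 0) f‖ ≤ M := hmax' _ (by omega)
    have h5 : √(((k0 + x.q - 0 : ℕ) : ℝ) * m) * (1 / 4) ^ (0 + x.q - 2) ≤ k0 * C := by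
      apply e5_sqrt (by positivity)
      have h6 : ((k0 + x.q - 0 : ℕ) : ℝ) ≤ k0 ^ 2 * ((1 + x.q : ℕ) : ℝ) := by
        have : k0 + x.q - 0 ≤ k0 ^ 2 * (1 + x.q) := by
          have h7 : k0 ≤ k0 ^ 2 := Nat.le_self_pow (by norm_num) k0
          have h8 : x.q ≤ k0 ^ 2 * x.q := Nat.le_mul_of_pos_left _ (by positivity)
          rw [mul_add, mul_one]
          omega
        exact_mod_cast this
      calc ((k0 + x.q - 0 : ℕ) : ℝ) * m ≤ (k0 ^ 2 * ((1 + x.q : ℕ) : ℝ)) * m := by gcongr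
        _ = k0 ^ 2 * (((1 + x.q : ℕ) : ℝ) * m) := by ring
        _ ≤ k0 ^ 2 * (C ^ 2 * 16 ^ (x.q - 2)) := by gcongr
        _ = (k0 * C) ^ 2 * 16 ^ (0 + x.q - 2) := by rw [Nat.zero_add]; ring
    calc √(((k0 + x.q - 0 : ℕ) : ℝ) * m) * ((1 / 4) ^ (0 + x.q - 2) * x.w γ) *
          ‖pk (k0 + x.q - 0) f‖
        = (√(((k0 + x.q - 0 : ℕ) : ℝ) * m) * (1 / 4) ^ (0 + x.q - 2)) * (x.w γ *
          ‖pk (k0 + x.q - 0) f‖) := by ring
      _ ≤ (k0 * C) * (x.w γ * M) := by gcongr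
      _ = (k0 * M * C) * x.w γ := by ring
  have hQb : ∀ x ∈ Q, ‖pk k0 (x.o f)‖ ≤ (k0 * M) * x.w γ := by
    intro x hx
    obtain ⟨hok, hp, hq, hqL⟩ := hQo x hx
    have := hZ x 1 hok hp (by omega) hqL (by norm_num)
      (by rw [one_pow, one_mul]; exact e5_geo3 x.q lam hq hlam)
    rwa [mul_one] at this
  have hRb : ∀ x ∈ R, ‖pk k0 (x.o f)‖ ≤ (k0 * M * (2 * √m)) * x.w γ := by
    intro x hx
    obtain ⟨hok, hp, hq, hqL⟩ := hRo x hx
    refine hZ x (2 * √m) hok hp hq hqL (by positivity) ?_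
    rw [mul_pow, Real.sq_sqrt (by positivity)]
    have := e5_geo2 x.q hq
    calc ((1 + x.q : ℕ) : ℝ) * m ≤ (4 * 16 ^ (x.q - 2)) * m := by gcongr
      _ = 2 ^ 2 * m * 16 ^ (x.q - 2) := by ring
  have hP1 := e5_list k0 f γ (k0 * M) P hPb
  have hQ1 := e5_list k0 f γ (k0 * M) Q hQb
  have hR1 := e5_list k0 f γ (k0 * M * (2 * √m)) R hRb
  -- the equation on level `k0`
  have hvac0 : pk k0 (vac (m := m)) = 0 := by
    rw [← pk_vac, ← mul_apply_eq_comp, pk_mul_ne (by omega)]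
    simp
  have hnum : pk k0 (Num f) = (k0 : ℂ) • pk k0 f := by
    rw [← mul_apply_eq_comp, pk_num]
    simp
  have heq := congrArg (fun v => pk k0 v) hf
  simp only [map_add, map_smul, hvac0, smul_zero, hnum] at heq
  have heq2 : (k0 : ℂ) • pk k0 f = -(pk k0 ((P.map Pc.o).sum f) + pk k0 ((Q.map Pc.o).sum f) +
      pk k0 ((R.map Pc.o).sum f)) := by
    rw [eq_neg_iff_add_eq_zero, ← heq]
    abel
  have hnorm : (k0 : ℝ) * M ≤ ‖pk k0 ((P.map Pc.o).sum f)‖ + ‖pk k0 ((Q.map Pc.o).sum f)‖ +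
      ‖pk k0 ((R.map Pc.o).sum f)‖ := by
    have h1 : ‖(k0 : ℂ) • pk k0 f‖ = k0 * M := by
      rw [norm_smul, Complex.norm_natCast]
    rw [← h1, heq2, norm_neg]
    exact (norm_add_le _ _).trans (add_le_add (norm_add_le _ _) le_rfl)
  have hkM : 0 < (k0 : ℝ) * M := by positivity
  have h1 : (k0 * M) * (P.map (Pc.w γ)).sum ≤ (k0 * M) * (3 / 10) := by gcongr
  have h2 : (k0 * M) * (Q.map (Pc.w γ)).sum ≤ (k0 * M) * (1 / 4) := by gcongr
  have h3 : (k0 * M * (2 * √m)) * (R.map (Pc.w γ)).sum ≤ (k0 * M) * (2 * (1 / 20)) := by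
    calc (k0 * M * (2 * √m)) * (R.map (Pc.w γ)).sum
        = (k0 * M) * (2 * (√m * (R.map (Pc.w γ)).sum)) := by ring
      _ ≤ (k0 * M) * (2 * (1 / 20)) := by gcongr
  nlinarith

end Pool.Agent.H46P
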