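import Pool.Agent.Lib.H46P.E3

/-!
# Part F: derivatives of annihilation polynomials, definitions
-/

namespace Pool.Agent.H46P

open Finset
open scoped BigOperators ComplexConjugate InnerProductSpace

variable {m : ℕ}

/-- `dl T (k :: J) = ∑_l (-1)^l T (ins l (sg k) J)` -/
noncomputable def dl (T : List (Lt m) → ℂ) : List (Lt m) → ℂ
  | [] => 0
  | k :: J => ∑ l ∈ range (J.length + 1), (-1 : ℂ) ^ l * T (ins l (sg k) J)

/-- first derivative: `[op d T, A k] = op (d-1) (D1 T (k :: .))` for even `d` -/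
noncomputable def D1 (T : List (Lt m) → ℂ) : List (Lt m) → ℂ := fun L => - dl T L

/-- second derivative: `{op (d-1) (D1 T (k :: .)), A k'} = op (d-2) (D2 T (k :: k' :: .))` -/
noncomputable def D2 (T : List (Lt m) → ℂ) : List (Lt m) → ℂ
  | [] => 0
  | k :: L => dl (fun I => D1 T (k :: I)) L

/-- third derivative: `[op (d-2) (D2 T (k :: k' :: .)), A k''] = op (d-3) (D3 T (k :: k' :: k'' :: .))` -/
noncomputable def D3 (T : List (Lt m) → ℂ) : List (Lt m) → ℂ
  | k :: k' :: L => - dl (fun I => D2 T (k :: k' :: I)) L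
  | _ => 0

/-- An even annihilation piece. -/
structure An (m : ℕ) where
  /-- degree -/
  d : ℕ
  /-- tensor -/
  T : List (Lt m) → ℂ
  /-- bound for the injective norm -/
  c : ℝ

/-- validity -/
def An.ok {m : ℕ} (x : An m) : Prop :=
  Even x.d ∧ 2 ≤ x.d ∧ 0 ≤ x.c ∧ Inj x.d x.T x.c ∧ Pat 0 x.d x.T

/-- operator -/
noncomputable def An.o {m : ℕ} (x : An m) : Fk m →L[ℂ] Fk m := op fA x.d x.T

/-- weight `d γ^(d-2) c` -/
noncomputable def An.w {m : ℕ} (γ : ℝ) (x : An m) : ℝ := x.d * (γ ^ x.d / γ ^ 2 * x.c)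

/-- `W = ∑ x.o` -/
noncomputable def WW {m : ℕ} (l : List (An m)) : Fk m →L[ℂ] Fk m := (l.map An.o).sum

/-- `D_k = [W, A k]` -/
noncomputable def DW {m : ℕ} (l : List (An m)) (k : Lt m) : Fk m →L[ℂ] Fk m :=
  (l.map fun x => op fA (x.d - 1) (fun J => D1 x.T (k :: J))).sum

/-- `D_{k k'}` -/
noncomputable def DW2 {m : ℕ} (l : List (An m)) (k k' : Lt m) : Fk m →L[ℂ] Fk m :=
  (l.map fun x => op fA (x.d - 2) (fun J => D2 x.T (k :: k' :: J))).sum

/-- `D_{k k' k''}` -/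
noncomputable def DW3 {m : ℕ} (l : List (An m)) (k k' k'' : Lt m) : Fk m →L[ℂ] Fk m :=
  (l.map fun x => if x.d = 2 then 0 else
    op fA (x.d - 3) (fun J => D3 x.T (k :: k' :: k'' :: J))).sum

end Pool.Agent.H46P
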