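import Pool.Agent.Lib.H46P.F0
import Pool.Agent.Lib.H46P.A3
import Pool.Agent.Lib.H46P.A7

/-!
# Chunk F1: one derivative

`inj_dl`: `dl T` is on lists of length `n+1` a sum of `n + 1` tensors `k :: J ↦ ± T (ins l (sg k) J)`,
each `Inj` by `inj_mv`, `inj_map_head`.  `pat_dl`: if `T` has pattern `(0, n+1)` and `dl T (k :: J) ≠ 0`
then `(sg k).2 = false`, i.e. `k.2 = true`, and `J` consists of annihilation letters.
`op_dl`: `letter_op` (and `fock_car`).
-/

namespace Pool.Agent.H46P

open Finset
open scoped BigOperators ComplexConjugate InnerProductSpace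

variable {m : ℕ}

theorem f1_mem {α : Type*} (l : ℕ) (k : α) (I : List α) (x : α) : x ∈ ins l k I ↔ x = k ∨ x ∈ I := by
  induction l generalizing I with
  | zero => simp
  | succ l ih =>
    cases I with
    | nil => simp [ins]
    | cons j I =>
      rw [ins_succ_cons, List.mem_cons, ih, List.mem_cons]
      tauto

theorem f1_dl_cons {n : ℕ} (T : List (Lt m) → ℂ) (k : Lt m) {J : List (Lt m)} (hJ : J.length = n) :
    dl T (k :: J) = ∑ l ∈ range (n + 1), (-1 : ℂ) ^ l * T (ins l (sg k) J) := by
  subst hJ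
  rfl

/-- one term of `dl` -/
noncomputable def f1_g (T : List (Lt m) → ℂ) (l : ℕ) : List (Lt m) → ℂ
  | [] => 0
  | k :: J => T (ins l (sg k) J)

theorem inj_dl {n : ℕ} {T : List (Lt m) → ℂ} {c : ℝ} (hT : Inj (n + 1) T c) :
    Inj (n + 1) (dl T) ((n + 1) * c) := by
  have h1 : ∀ l ∈ range (n + 1), Inj (n + 1) (fun I : List (Lt m) => (-1 : ℂ) ^ l * f1_g T l I)
      (‖(-1 : ℂ) ^ l‖ * c) := by
    intro l hl
    have hl' : l ≤ n := by
      have := mem_range.1 hl
      omega
    refine inj_smul _ (inj_congr (fun I _ => ?_) (inj_map_head (σ := sg) (fun k => by simp [sg]) (inj_mv hl' hT)))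
    cases I <;> rfl
  have h2 := inj_sum _ h1
  refine inj_mono (inj_congr ?_ h2) (le_of_eq ?_)
  · intro I hI
    cases I with
    | nil => simp at hI
    | cons k J =>
      have hJ : J.length = n := by simpa using hI
      rw [f1_dl_cons T k hJ]
      rfl
  · simp

theorem dl_add (T S : List (Lt m) → ℂ) (L : List (Lt m)) :
    dl (fun I => T I + S I) L = dl T L + dl S L := by
  cases L with
  | nil => simp [dl]
  | cons k J =>
    show ∑ l ∈ range (J.length + 1), _ = (∑ l ∈ range (J.length + 1), _) + ∑ l ∈ range (J.length + 1), _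
    rw [← Finset.sum_add_distrib]
    exact Finset.sum_congr rfl fun l _ => mul_add _ _ _

theorem dl_sum {α : Type*} (s : Finset α) (T : α → List (Lt m) → ℂ) (L : List (Lt m)) :
    dl (fun I => ∑ a ∈ s, T a I) L = ∑ a ∈ s, dl (T a) L := by
  cases L with
  | nil => simp [dl]
  | cons k J =>
    show ∑ l ∈ range (J.length + 1), (-1 : ℂ) ^ l * ∑ a ∈ s, T a (ins l (sg k) J) =
      ∑ a ∈ s, ∑ l ∈ range (J.length + 1), (-1 : ℂ) ^ l * T a (ins l (sg k) J)
    rw [Finset.sum_comm]
    exact Finset.sum_congr rfl fun l _ => Finset.mul_sum _ _ _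

theorem dl_smul (a : ℂ) (T : List (Lt m) → ℂ) (L : List (Lt m)) :
    dl (fun I => a * T I) L = a * dl T L := by
  cases L with
  | nil => simp [dl]
  | cons k J =>
    show ∑ l ∈ range (J.length + 1), (-1 : ℂ) ^ l * (a * T (ins l (sg k) J)) =
      a * ∑ l ∈ range (J.length + 1), (-1 : ℂ) ^ l * T (ins l (sg k) J)
    rw [Finset.mul_sum]
    exact Finset.sum_congr rfl fun l _ => by ring

/-- pattern of the derivative: creation letter in front, annihilation letters behind -/
theorem pat_dl {n : ℕ} {T : List (Lt m) → ℂ} (h : Pat 0 (n + 1) T) : Pat 1 n (dl T) := by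
  intro L hL hne
  cases L with
  | nil =>
    exfalso
    rw [List.length_nil] at hL
    omega
  | cons k J =>
    have hJ : J.length = n := by
      rw [List.length_cons] at hL
      omega
    rw [f1_dl_cons T k hJ] at hne
    obtain ⟨l, _, hl⟩ := Finset.exists_ne_zero_of_sum_ne_zero hne
    have h1 : T (ins l (sg k) J) ≠ 0 := right_ne_zero_of_mul hl
    have h2 := h _ (by rw [length_ins, hJ]; omega) h1
    rw [List.replicate_zero, List.nil_append, List.eq_replicate_iff] at h2
    have h3 : ∀ x ∈ ins l (sg k) J, x.2 = false := fun x hx => h2.2 _ (List.mem_map_of_mem hx)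
    have h4 : k.2 = true := by
      have := h3 (sg k) ((f1_mem _ _ _ _).2 (Or.inl rfl))
      simpa [sg] using this
    have h5 : J.map Prod.snd = List.replicate n false := by
      rw [List.eq_replicate_iff]
      refine ⟨by rw [List.length_map, hJ], ?_⟩
      intro b hb
      obtain ⟨x, hx, rfl⟩ := List.mem_map.1 hb
      exact h3 x ((f1_mem _ _ _ _).2 (Or.inr hx))
    rw [List.map_cons, h4, h5]
    rfl

theorem op_dl (n : ℕ) (T : List (Lt m) → ℂ) (k : Lt m) :
    fA k * op fA (n + 1) T = (-1 : ℂ) ^ (n + 1) • (op fA (n + 1) T * fA k) +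
      op fA n (fun J => dl T (k :: J)) := by
  rw [letter_op (fock_car m) k (n + 1) T]
  congr 1
  have h1 : op fA n (fun J => dl T (k :: J)) =
      op fA n (fun J => ∑ l ∈ range (n + 1), (-1 : ℂ) ^ l * T (ins l (sg k) J)) :=
    op_congr fA n fun J hJ => f1_dl_cons T k hJ
  rw [h1, op_sum]
  exact Finset.sum_congr rfl fun l _ => (op_smul fA n _ _).symm

end Pool.Agent.H46P
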