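import Pool.Agent.Lib.H46P.F7

/-!
# Chunk F10: the piece `ps11`

`ok`: `inj_sb` (with `inj_D1`, `inj_D2`, `inj_D3`, `inj_fx`/`inj_head`, `inj_sum`, `inj_smul`;
`card (Lt m) = 2 m`); the pattern: a nonzero value of `sb` forces the factors to be nonzero for
some letter, use the patterns of `U` and of `D1 T (k :: .)`, ... (`pat_D1`, `pat_D2`, `pat_D3`, `D1_eq_zero`).
Weight: `γ^(d+d')/γ^2 * 3 u (d c) (d' c') = 3 γ^2 u * x.w * y.w`.
Operator: `op_sb` (and `op_sum`, `op_smul`), `opF_succ`; a sum over a letter `k : Lt m` reduces to creation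
or annihilation letters by the pattern of `U`.
-/

namespace Pool.Agent.H46P

open Finset
open scoped BigOperators ComplexConjugate InnerProductSpace

variable {m : ℕ}

theorem f10_true {M : Type*} [AddCommMonoid M] (f : Lt m → M) (h : ∀ i, f (i, false) = 0) :
    ∑ k, f k = ∑ i, f (i, true) := by
  rw [Fintype.sum_prod_type]
  refine Finset.sum_congr rfl fun i _ => ?_
  rw [Fintype.sum_bool, h, add_zero]

theorem f10_false {M : Type*} [AddCommMonoid M] (f : Lt m → M) (h : ∀ i, f (i, true) = 0) :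
    ∑ k, f k = ∑ i, f (i, false) := by
  rw [Fintype.sum_prod_type]
  refine Finset.sum_congr rfl fun i _ => ?_
  rw [Fintype.sum_bool, h, zero_add]

theorem f10_U {U : List (Lt m) → ℂ} (hU : Pat 3 1 U) {a b c d : Lt m} (h : U [a, b, c, d] ≠ 0) :
    a.2 = true ∧ b.2 = true ∧ c.2 = true ∧ d.2 = false := by
  have h1 := hU [a, b, c, d] rfl h
  simpa using h1

theorem f10_V (b : ℕ) (U S : List (Lt m) → ℂ) (i k : Lt m) (J : List (Lt m)) :
    sb 2 b U S (i :: k :: J) = ∑ k', U (i :: k :: k' :: J.drop b) * S (k' :: J.take b) := by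
  unfold sb
  refine Finset.sum_congr rfl fun k' _ => ?_
  have e1 : (i :: k :: J).take 2 = [i, k] := rfl
  have e2 : (i :: k :: J).drop (2 + b) = J.drop b := by
    rw [← List.drop_drop]
    rfl
  have e3 : (i :: k :: J).drop 2 = J := rfl
  rw [e1, e2, e3]
  rfl

theorem f10_W (a : ℕ) (V S : List (Lt m) → ℂ) (i : Lt m) (J : List (Lt m)) :
    sb 1 a V S (i :: J) = ∑ k, V (i :: k :: J.drop a) * S (k :: J.take a) := by
  unfold sb
  refine Finset.sum_congr rfl fun k' _ => ?_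
  have e1 : (i :: J).take 1 = [i] := rfl
  have e2 : (i :: J).drop (1 + a) = J.drop a := by
    rw [← List.drop_drop]
    rfl
  have e3 : (i :: J).drop 1 = J := rfl
  rw [e1, e2, e3]
  rfl

theorem ps11_ok {U : List (Lt m) → ℂ} {u : ℝ} (hU : Uok U u) {x y : An m} (hx : x.ok)
    (hy : y.ok) : (ps11 U u x y).ok := by
  obtain ⟨hu0, hUi, hUp, hUs⟩ := hU
  obtain ⟨hxe, hx2, hxc, hxi, hxp⟩ := hx
  obtain ⟨hye, hy2, hyc, hyi, hyp⟩ := hy
  obtain ⟨a, ha⟩ : ∃ a, x.d = a + 1 := ⟨x.d - 1, by omega⟩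
  obtain ⟨b, hb⟩ : ∃ b, y.d = b + 1 := ⟨y.d - 1, by omega⟩
  have hxD := inj_D1 (by omega) hxc hxi
  have hyD := inj_D1 (by omega) hyc hyi
  have hx0 : (0 : ℝ) ≤ x.d * x.c := by positivity
  have hy0 : (0 : ℝ) ≤ y.d * y.c := by positivity
  refine ⟨?_, ?_, ?_⟩
  · show (0 : ℝ) ≤ 3 * u * (x.d * x.c) * (y.d * y.c)
    positivity
  · show Inj (1 + (x.d + y.d - 1)) (fun L => 3 * sb 1 (x.d - 1) (sb 2 (y.d - 1) U (D1 y.T)) (D1 x.T) L)
      (3 * u * (x.d * x.c) * (y.d * y.c))
    have h1 : Inj (2 + b + 1) (sb 2 b U (D1 y.T)) (u * (y.d * y.c)) :=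
      inj_sb (p := 2) (a := b) (q := 1) hu0 hy0 hUi (by rw [← hb]; exact hyD)
    have h2 : Inj (1 + a + (b + 1)) (sb 1 a (sb 2 b U (D1 y.T)) (D1 x.T))
        ((u * (y.d * y.c)) * (x.d * x.c)) :=
      inj_sb (p := 1) (a := a) (q := b + 1) (mul_nonneg hu0 hy0) hx0
        (by
          have e : 1 + 1 + (b + 1) = 2 + b + 1 := by omega
          rw [e]
          exact h1) (by rw [← ha]; exact hxD)
    have h3 := inj_smul (3 : ℂ) h2
    have e1 : 1 + a + (b + 1) = 1 + (x.d + y.d - 1) := by omega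
    have e2 : x.d - 1 = a := by omega
    have e3 : y.d - 1 = b := by omega
    rw [e1] at h3
    rw [e2, e3]
    have e4 : ‖(3 : ℂ)‖ * (u * (y.d * y.c) * (x.d * x.c)) = 3 * u * (x.d * x.c) * (y.d * y.c) := by
      have : ‖(3 : ℂ)‖ = 3 := by simp
      rw [this]
      ring
    rw [e4] at h3
    exact h3
  · show Pat 1 (x.d + y.d - 1) (fun L => 3 * sb 1 (x.d - 1) (sb 2 (y.d - 1) U (D1 y.T)) (D1 x.T) L)
    intro L hL hne
    have e2 : x.d - 1 = a := by omega
    have e3 : y.d - 1 = b := by omega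
    simp only [e2, e3] at hne
    obtain ⟨i0, R, rfl⟩ : ∃ i0 R, L = i0 :: R := by
      cases L with
      | nil => simp at hL; omega
      | cons i R => exact ⟨i, R, rfl⟩
    have hR : R.length = a + b + 1 := by
      rw [List.length_cons] at hL
      omega
    have h1 := right_ne_zero_of_mul hne
    rw [f10_W] at h1
    obtain ⟨k, _, hk⟩ := Finset.exists_ne_zero_of_sum_ne_zero h1
    have hk1 := left_ne_zero_of_mul hk
    have hk2 := right_ne_zero_of_mul hk
    rw [f10_V] at hk1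
    obtain ⟨k', _, hk'⟩ := Finset.exists_ne_zero_of_sum_ne_zero hk1
    have hk3 := left_ne_zero_of_mul hk'
    have hk4 := right_ne_zero_of_mul hk'
    obtain ⟨z, hz⟩ : ∃ z, (R.drop a).drop b = [z] := by
      have : ((R.drop a).drop b).length = 1 := by
        rw [List.length_drop, List.length_drop]
        omega
      exact List.length_eq_one_iff.1 this
    rw [hz] at hk3
    obtain ⟨u1, u2, u3, u4⟩ := f10_U hUp hk3
    have hxp' : Pat 0 (a + 1) x.T := by rw [← ha]; exact hxp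
    have hyp' : Pat 0 (b + 1) y.T := by rw [← hb]; exact hyp
    have p1 := pat_D1 hxp' k (R.take a) (by rw [List.length_take]; omega) hk2
    have p2 := pat_D1 hyp' k' ((R.drop a).take b) (by rw [List.length_take, List.length_drop]; omega) hk4
    have hdec : R = R.take a ++ ((R.drop a).take b ++ [z]) := by
      rw [← hz, List.take_append_drop, List.take_append_drop]
    have e5 : x.d + y.d - 1 = a + (b + 1) := by omega
    rw [List.map_cons, hdec, List.map_append, List.map_append, p1, p2, e5]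
    simp only [List.replicate_zero, List.nil_append, List.map_cons, List.map_nil, u1, u4,
      List.replicate_one]
    rw [← List.replicate_append_replicate, ← List.replicate_append_replicate]
    rfl

theorem ps11_w {U : List (Lt m) → ℂ} {u γ : ℝ} (hγ : 0 < γ) {x y : An m} (hx : x.ok)
    (hy : y.ok) : (ps11 U u x y).w γ = 3 * (γ ^ 2 * u) * x.w γ * y.w γ := by
  obtain ⟨hxe, hx2, hxc, hxi, hxp⟩ := hx
  obtain ⟨hye, hy2, hyc, hyi, hyp⟩ := hy
  show γ ^ (1 + (x.d + y.d - 1)) / γ ^ 2 * (3 * u * (x.d * x.c) * (y.d * y.c)) =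
    3 * (γ ^ 2 * u) * (x.d * (γ ^ x.d / γ ^ 2 * x.c)) * (y.d * (γ ^ y.d / γ ^ 2 * y.c))
  have e : 1 + (x.d + y.d - 1) = x.d + y.d := by omega
  rw [e, pow_add]
  have hg : γ ≠ 0 := hγ.ne'
  field_simp

theorem ps11_o {U : List (Lt m) → ℂ} {u : ℝ} (hU : Uok U u) {x y : An m} (hx : x.ok)
    (hy : y.ok) :
    (ps11 U u x y).o = ∑ i, ∑ j, ∑ k, ∑ q, uc U i j k q •
      ((3 : ℂ) • (fA (i, true) * x.D (j, true) * y.D (k, true)) * fA (q, false)) := by
  obtain ⟨hu0, hUi, hUp, hUs⟩ := hU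
  obtain ⟨hxe, hx2, hxc, hxi, hxp⟩ := hx
  obtain ⟨hye, hy2, hyc, hyi, hyp⟩ := hy
  obtain ⟨a, ha⟩ : ∃ a, x.d = a + 1 := ⟨x.d - 1, by omega⟩
  obtain ⟨b, hb⟩ : ∃ b, y.d = b + 1 := ⟨y.d - 1, by omega⟩
  have e2 : x.d - 1 = a := by omega
  have e3 : y.d - 1 = b := by omega
  have hxD : ∀ k, x.D k = op fA a (fun J => D1 x.T (k :: J)) := fun k => by
    unfold An.D
    rw [e2]
  have hyD : ∀ k, y.D k = op fA b (fun J => D1 y.T (k :: J)) := fun k => by
    unfold An.D
    rw [e3]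
  have h0 : (ps11 U u x y).o = (3 : ℂ) • op fA (1 + a + (b + 1)) (sb 1 a (sb 2 b U (D1 y.T)) (D1 x.T)) := by
    show op fA (1 + (x.d + y.d - 1)) (fun L => 3 * sb 1 (x.d - 1) (sb 2 (y.d - 1) U (D1 y.T)) (D1 x.T) L) = _
    rw [e2, e3, show 1 + (x.d + y.d - 1) = 1 + a + (b + 1) by omega, op_smul]
  have h1 : op fA (1 + a + (b + 1)) (sb 1 a (sb 2 b U (D1 y.T)) (D1 x.T)) =
      ∑ i, fA i * ∑ k, x.D k * op fA (b + 1) (fun J => sb 2 b U (D1 y.T) (i :: k :: J)) := by
    rw [op_sb, opF_succ]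
    refine Finset.sum_congr rfl fun i _ => ?_
    rw [opF_zero]
    congr 1
    refine Finset.sum_congr rfl fun k _ => ?_
    rw [hxD]
    rfl
  have h2 : ∀ i k : Lt m, op fA (b + 1) (fun J => sb 2 b U (D1 y.T) (i :: k :: J)) =
      ∑ k', y.D k' * ∑ q, fA q * algebraMap ℂ (Fk m →L[ℂ] Fk m) (U [i, k, k', q]) := by
    intro i k
    have h3 : op fA (b + 1) (fun J => sb 2 b U (D1 y.T) (i :: k :: J)) =
        op fA (0 + b + 1) (sb 0 b (fun I => U (i :: k :: I)) (D1 y.T)) := by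
      rw [zero_add]
      refine op_congr fA (b + 1) fun J _ => ?_
      rw [f10_V]
      unfold sb
      refine Finset.sum_congr rfl fun k' _ => ?_
      rw [zero_add]
      rfl
    rw [h3, op_sb, opF_zero]
    refine Finset.sum_congr rfl fun k' _ => ?_
    rw [hyD, op_succ]
    congr 1
  rw [h0, h1]
  have hz : ∀ i k k' q : Lt m, ¬ (i.2 = true ∧ k.2 = true ∧ k'.2 = true ∧ q.2 = false) →
      U [i, k, k', q] = 0 := by
    intro i k k' q h
    by_contra hne
    exact h (f10_U hUp hne)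
  simp only [h2]
  rw [f10_true _ (fun i => by
    have : ∀ k k' q : Lt m, U [(i, false), k, k', q] = 0 := fun k k' q => hz _ _ _ _ (by simp)
    simp only [this, map_zero, mul_zero, Finset.sum_const_zero]), Finset.smul_sum]
  refine Finset.sum_congr rfl fun i _ => ?_
  rw [f10_true _ (fun j => by
    have : ∀ k' q : Lt m, U [(i, true), (j, false), k', q] = 0 := fun k' q => hz _ _ _ _ (by simp)
    simp only [this, map_zero, mul_zero, Finset.sum_const_zero]), Finset.mul_sum, Finset.smul_sum]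
  refine Finset.sum_congr rfl fun j _ => ?_
  rw [f10_true _ (fun k => by
    have : ∀ q : Lt m, U [(i, true), (j, true), (k, false), q] = 0 := fun q => hz _ _ _ _ (by simp)
    simp only [this, map_zero, mul_zero, Finset.sum_const_zero]), Finset.mul_sum, Finset.mul_sum, Finset.smul_sum]
  refine Finset.sum_congr rfl fun k _ => ?_
  rw [f10_false _ (fun q => by
    have : U [(i, true), (j, true), (k, true), (q, true)] = 0 := hz _ _ _ _ (by simp)
    simp only [this, map_zero, mul_zero]), Finset.mul_sum, Finset.mul_sum, Finset.mul_sum, Finset.smul_sum]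
  refine Finset.sum_congr rfl fun q _ => ?_
  show (3 : ℂ) • (fA (i, true) * (x.D (j, true) * (y.D (k, true) * (fA (q, false) *
    algebraMap ℂ (Fk m →L[ℂ] Fk m) (uc U i j k q))))) = _
  have e5 : ∀ (c : ℂ) (T : Fk m →L[ℂ] Fk m), T * algebraMap ℂ (Fk m →L[ℂ] Fk m) c = c • T := by
    intro c T
    rw [Algebra.algebraMap_eq_smul_one, mul_smul_comm, mul_one]
  rw [e5]
  simp only [mul_smul_comm, smul_mul_assoc, mul_assoc]
  rw [smul_comm]

end Pool.Agent.H46P
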