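import Pool.Agent.Lib.H46P.F7

/-!
# Chunk F8: the piece `ps0`, `ps2`

`ok`: `inj_sb` (with `inj_D1`, `inj_D2`, `inj_D3`, `inj_fx`/`inj_head`, `inj_sum`, `inj_smul`;
`card (Lt m) = 2 m`); the pattern: a nonzero value of `sb` forces the factors to be nonzero for
some letter, use the patterns of `U` and of `D1 T (k :: .)`, ... (`pat_D1`, `pat_D2`, `pat_D3`, `D1_eq_zero`).
Weight: `γ^(d+2)/γ^2 * 3 u d c = 3 γ^2 u * (d γ^d/γ^2 c)`.
Operator: `op_sb` (and `op_sum`, `op_smul`), `opF_succ`; a sum over a letter `k : Lt m` reduces to creation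
or annihilation letters by the pattern of `U`.
-/

namespace Pool.Agent.H46P

open Finset
open scoped BigOperators ComplexConjugate InnerProductSpace

variable {m : ℕ}

/-! ### common lemmas for all pieces -/

theorem f8_pat_smul {p q : ℕ} {T : List (Lt m) → ℂ} (h : Pat p q T) (c : ℂ) : Pat p q (fun L => c * T L) :=
  fun L hL h0 => h L hL (right_ne_zero_of_mul h0)

theorem f8_pat_neg {p q : ℕ} {T : List (Lt m) → ℂ} (h : Pat p q T) : Pat p q (fun L => - T L) :=
  fun L hL h0 => h L hL (neg_ne_zero.1 h0)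

theorem f8_pat_sum {α : Type*} (s : Finset α) {p q : ℕ} {T : α → List (Lt m) → ℂ} (h : ∀ a ∈ s, Pat p q (T a)) :
    Pat p q (fun L => ∑ a ∈ s, T a L) := by
  intro L hL h0
  obtain ⟨a, ha, h1⟩ := Finset.exists_ne_zero_of_sum_ne_zero h0
  exact h a ha L hL h1

theorem f8_pat_head {p q : ℕ} {T : List (Lt m) → ℂ} (h : Pat (p + 1) q T) (k : Lt m) :
    Pat p q (fun L => T (k :: L)) := by
  intro L hL h0
  have h1 := h (k :: L) (by rw [List.length_cons, hL]; ring) h0
  rw [List.map_cons, List.replicate_succ, List.cons_append] at h1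
  exact (List.cons.inj h1).2

/-- The pattern of a substituted tensor. -/
theorem f8_pat_sb {p a q : ℕ} {T S : List (Lt m) → ℂ} (hT : Pat (p + 1) q T)
    (hS : ∀ k, Pat 0 a (fun J => S (k :: J))) : Pat p (a + q) (sb p a T S) := by
  intro L hL h0
  obtain ⟨k, -, hk⟩ := Finset.exists_ne_zero_of_sum_ne_zero h0
  have h1 := left_ne_zero_of_mul hk
  have h2 := right_ne_zero_of_mul hk
  have l1 : (L.take p).length = p := by
    rw [List.length_take]
    omega
  have l2 : ((L.drop p).take a).length = a := by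
    rw [List.length_take, List.length_drop]
    omega
  have l3 : (L.drop (p + a)).length = q := by
    rw [List.length_drop]
    omega
  have h3 := hT _ (by rw [List.length_append, List.length_cons, l1, l3]; ring) h1
  have h4 := hS k _ (by rw [l2, zero_add]) h2
  rw [List.map_append, List.map_cons, List.replicate_succ', List.append_assoc, List.singleton_append] at h3
  obtain ⟨h5, h6⟩ := List.append_inj h3 (by rw [List.length_map, l1, List.length_replicate])
  have h7 := (List.cons.inj h6).2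
  rw [List.replicate_zero, List.nil_append] at h4
  have h8 : L = L.take p ++ ((L.drop p).take a ++ L.drop (p + a)) := by
    conv_lhs => rw [← List.take_append_drop p L, ← List.take_append_drop a (L.drop p), List.drop_drop]
  rw [h8, List.map_append, List.map_append, h5, h4, h7, List.replicate_add]

theorem f8_card : (Fintype.card (Lt m) : ℝ) = 2 * m := by
  rw [Fintype.card_prod, Fintype.card_fin, Fintype.card_bool]
  push_cast
  ring

/-- `sb` after fixing a leg in front. -/
theorem f8_shift {κ : Type*} [Fintype κ] (p a : ℕ) (T S : List κ → ℂ) (i : κ) (L : List κ) :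
    sb (p + 1) a T S (i :: L) = sb p a (fun I => T (i :: I)) S L := by
  unfold sb
  have h : p + 1 + a = (p + a) + 1 := by ring
  simp only [h, List.take_succ_cons, List.drop_succ_cons, List.cons_append]

/-- A sum over letters reduces to the letters allowed by the pattern. -/
theorem f8_red {R : Type*} [AddCommMonoid R] [Module ℂ R] {U : List (Lt m) → ℂ} (hU : Pat 3 1 U)
    (g : Lt m → Lt m → Lt m → Lt m → R) :
    ∑ k1, ∑ k2, ∑ k3, ∑ k4, U [k1, k2, k3, k4] • g k1 k2 k3 k4 =
      ∑ i, ∑ j, ∑ k, ∑ q, uc U i j k q • g (i, true) (j, true) (k, true) (q, false) := by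
  have key : ∀ k1 k2 k3 k4 : Lt m, ¬ (k1.2 = true ∧ k2.2 = true ∧ k3.2 = true ∧ k4.2 = false) →
      U [k1, k2, k3, k4] = 0 := by
    intro k1 k2 k3 k4 h
    by_contra h0
    have h1 := hU _ rfl h0
    simp only [List.map_cons, List.map_nil, List.replicate] at h1
    simp only [List.cons_append, List.nil_append, List.cons.injEq, and_true] at h1
    exact h h1
  have sum_t : ∀ f : Lt m → R, (∀ i, f (i, false) = 0) → ∑ k, f k = ∑ i, f (i, true) := by
    intro f hf
    rw [Fintype.sum_prod_type]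
    refine Finset.sum_congr rfl fun i _ => ?_
    rw [Fintype.sum_bool, hf, add_zero]
  have sum_f : ∀ f : Lt m → R, (∀ i, f (i, true) = 0) → ∑ k, f k = ∑ i, f (i, false) := by
    intro f hf
    rw [Fintype.sum_prod_type]
    refine Finset.sum_congr rfl fun i _ => ?_
    rw [Fintype.sum_bool, hf, zero_add]
  rw [sum_t]
  · refine Finset.sum_congr rfl fun i _ => ?_
    rw [sum_t]
    · refine Finset.sum_congr rfl fun j _ => ?_
      rw [sum_t]
      · refine Finset.sum_congr rfl fun k _ => ?_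
        rw [sum_f]
        · rfl
        · intro q
          rw [key _ _ _ _ (by simp), zero_smul]
      · intro k
        refine Finset.sum_eq_zero fun q _ => ?_
        rw [key _ _ _ _ (by simp), zero_smul]
    · intro j
      refine Finset.sum_eq_zero fun k _ => Finset.sum_eq_zero fun q _ => ?_
      rw [key _ _ _ _ (by simp), zero_smul]
  · intro i
    refine Finset.sum_eq_zero fun j _ => Finset.sum_eq_zero fun k _ => Finset.sum_eq_zero fun q _ => ?_
    rw [key _ _ _ _ (by simp), zero_smul]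

/-- The word operator of the last leg. -/
theorem f8_op1 (U : List (Lt m) → ℂ) : op (fA (m := m)) 1 U = ∑ k, U [k] • fA k := by
  rw [op_succ]
  refine Finset.sum_congr rfl fun k _ => ?_
  rw [op_zero, ← Algebra.commutes, ← Algebra.smul_def]

/-- `op_sb` for `p = 0`. -/
theorem f8_sb0 (a q : ℕ) (T S : List (Lt m) → ℂ) :
    op fA (a + q) (sb 0 a T S) = ∑ k, op fA a (fun J => S (k :: J)) * op fA q (fun J => T (k :: J)) := by
  have h := op_sb fA 0 a q T S
  rw [zero_add] at h
  exact h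

/-- The last three legs: one derivative inserted at the third leg. -/
theorem f8_sb2 {a : ℕ} (U S : List (Lt m) → ℂ) (k k' : Lt m) :
    op fA (a + 1) (fun J => sb 2 a U S (k :: k' :: J)) =
      ∑ k'', op fA a (fun J => S (k'' :: J)) * ∑ q, U [k, k', k'', q] • fA q := by
  have h1 : (fun J => sb 2 a U S (k :: k' :: J)) = sb 0 a (fun I => U (k :: k' :: I)) S := by
    funext J
    rw [f8_shift, f8_shift]
  rw [h1, f8_sb0]
  refine Finset.sum_congr rfl fun k'' _ => ?_
  rw [f8_op1]

/-! ### the pieces -/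

theorem ps0_ok {U : List (Lt m) → ℂ} {u : ℝ} (hU : Uok U u) : (ps0 U u).ok :=
  ⟨hU.1, hU.2.1, hU.2.2.1⟩

theorem ps0_w {U : List (Lt m) → ℂ} {u γ : ℝ} (hγ : 0 < γ) : (ps0 U u).w γ = γ ^ 2 * u := by
  show γ ^ (3 + 1) / γ ^ 2 * u = _
  field_simp

theorem ps0_o {U : List (Lt m) → ℂ} {u : ℝ} (hU : Uok U u) :
    (ps0 U u).o = ∑ i, ∑ j, ∑ k, ∑ q, uc U i j k q •
      (fA (i, true) * fA (j, true) * fA (k, true) * fA (q, false)) := by
  rw [← f8_red hU.2.2.1 fun k1 k2 k3 k4 => fA k1 * fA k2 * fA k3 * fA k4]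
  show op fA 4 U = _
  rw [op_succ]
  refine Finset.sum_congr rfl fun k1 _ => ?_
  rw [op_succ, Finset.mul_sum]
  refine Finset.sum_congr rfl fun k2 _ => ?_
  rw [op_succ, Finset.mul_sum, Finset.mul_sum]
  refine Finset.sum_congr rfl fun k3 _ => ?_
  rw [f8_op1, Finset.mul_sum, Finset.mul_sum, Finset.mul_sum]
  refine Finset.sum_congr rfl fun k4 _ => ?_
  simp only [mul_smul_comm, mul_assoc]

theorem ps2_ok {U : List (Lt m) → ℂ} {u : ℝ} (hU : Uok U u) {x : An m} (hx : x.ok) :
    (ps2 U u x).ok := by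
  obtain ⟨-, h2, hc, hI, hP⟩ := hx
  have hd : x.d = x.d - 1 + 1 := by omega
  have hI1 : Inj (x.d - 1 + 1) (D1 x.T) (x.d * x.c) := by
    rw [← hd]
    exact inj_D1 (by omega) hc hI
  refine ⟨?_, ?_, ?_⟩
  · show 0 ≤ 3 * u * (x.d * x.c)
    have := hU.1
    positivity
  · show Inj (2 + x.d) (fun L => -3 * sb 2 (x.d - 1) U (D1 x.T) L) (3 * u * (x.d * x.c))
    have h1 := inj_smul (-3) (inj_sb (p := 2) (q := 1) hU.1 (by positivity : 0 ≤ x.d * x.c) hU.2.1 hI1)
    have e1 : 2 + (x.d - 1) + 1 = 2 + x.d := by omega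
    have e2 : ‖(-3 : ℂ)‖ * (u * (x.d * x.c)) = 3 * u * (x.d * x.c) := by
      rw [norm_neg, Complex.norm_ofNat]
      ring
    rwa [e1, e2] at h1
  · show Pat 2 x.d (fun L => -3 * sb 2 (x.d - 1) U (D1 x.T) L)
    have hP1 : Pat 0 (x.d - 1 + 1) x.T := by
      rw [← hd]
      exact hP
    have h1 := f8_pat_smul (f8_pat_sb (p := 2) (a := x.d - 1) (q := 1) hU.2.2.1 (pat_D1 hP1)) (-3)
    rwa [← hd] at h1

theorem ps2_w {U : List (Lt m) → ℂ} {u γ : ℝ} (hγ : 0 < γ) (x : An m) :
    (ps2 U u x).w γ = 3 * (γ ^ 2 * u) * x.w γ := by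
  show γ ^ (2 + x.d) / γ ^ 2 * (3 * u * (x.d * x.c)) = 3 * (γ ^ 2 * u) * (x.d * (γ ^ x.d / γ ^ 2 * x.c))
  rw [pow_add]
  field_simp

theorem ps2_o {U : List (Lt m) → ℂ} {u : ℝ} (hU : Uok U u) {x : An m} (hx : x.ok) :
    (ps2 U u x).o = ∑ i, ∑ j, ∑ k, ∑ q, uc U i j k q •
      ((-(3 : ℂ)) • (fA (i, true) * fA (j, true) * x.D (k, true)) * fA (q, false)) := by
  have h2 := hx.2.1
  rw [← f8_red hU.2.2.1 fun k1 k2 k3 k4 => (-(3 : ℂ)) • (fA k1 * fA k2 * x.D k3) * fA k4]
  show op fA (2 + x.d) (fun L => -3 * sb 2 (x.d - 1) U (D1 x.T) L) = _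
  have e1 : 2 + x.d = (x.d - 1 + 1) + 1 + 1 := by omega
  rw [op_smul, e1, op_succ, Finset.smul_sum]
  refine Finset.sum_congr rfl fun k1 _ => ?_
  rw [op_succ, Finset.mul_sum, Finset.smul_sum]
  refine Finset.sum_congr rfl fun k2 _ => ?_
  rw [f8_sb2, Finset.mul_sum, Finset.mul_sum, Finset.smul_sum]
  refine Finset.sum_congr rfl fun k3 _ => ?_
  rw [Finset.mul_sum, Finset.mul_sum, Finset.mul_sum, Finset.smul_sum]
  refine Finset.sum_congr rfl fun k4 _ => ?_
  simp only [mul_smul_comm, smul_mul_assoc, mul_assoc, An.D]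
  rw [smul_comm]

end Pool.Agent.H46P
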