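import Pool.Agent.Lib.H46P.F7
import Pool.Agent.Lib.H46P.F8

/-!
# Chunk F11: the piece `t1`

`ok`: `inj_sb` (with `inj_D1`, `inj_D2`, `inj_D3`, `inj_fx`/`inj_head`, `inj_sum`, `inj_smul`;
`card (Lt m) = 2 m`); the pattern: a nonzero value of `sb` forces the factors to be nonzero for
some letter, use the patterns of `U` and of `D1 T (k :: .)`, ... (`pat_D1`, `pat_D2`, `pat_D3`, `D1_eq_zero`).
Weight: `γ^(d-2)/γ^2 * (2m)^2 u d^3 c = γ^2 u (2 m d/γ^2)^2 * x.w ≤ γ^2 u * x.w`.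
Operator: `op_sb` (and `op_sum`, `op_smul`), `opF_succ`; a sum over a letter `k : Lt m` reduces to creation
or annihilation letters by the pattern of `U`.
-/

namespace Pool.Agent.H46P

open Finset
open scoped BigOperators ComplexConjugate InnerProductSpace

variable {m : ℕ}

theorem f11_deg {x : An m} (hx : x.ok) (hd : x.d ≠ 2) : 4 ≤ x.d := by
  obtain ⟨he, h2, -⟩ := hx
  obtain ⟨a, ha⟩ := he
  omega

theorem t1_ok {U : List (Lt m) → ℂ} {u : ℝ} (hU : Uok U u) {x : An m} (hx : x.ok)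
    (hd : x.d ≠ 2) : (t1 U u x).ok := by
  have h4 := f11_deg hx hd
  obtain ⟨-, -, hc, hI, hP⟩ := hx
  have e1 : x.d = x.d - 3 + 1 + 1 + 1 := by omega
  have hI3 : ∀ k k', Inj (x.d - 3 + 1) (fun I => D3 x.T (k :: k' :: I)) (x.d ^ 3 * x.c) := by
    intro k k'
    have h1 : Inj (x.d - 3 + 1 + 1 + 1) (D3 x.T) (x.d ^ 3 * x.c) := by
      rw [← e1]
      exact inj_D3 (by omega) hc hI
    exact inj_head (inj_head h1 k) k'
  refine ⟨?_, ?_, ?_⟩
  · show 0 ≤ (2 * m) ^ 2 * u * (x.d ^ 3 * x.c)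
    have := hU.1
    positivity
  · show Inj (0 + (x.d - 2)) (fun L => - ∑ k, ∑ k', sb 0 (x.d - 3) (fun I => U (k :: k' :: I))
      (fun I => D3 x.T (k :: k' :: I)) L) ((2 * m) ^ 2 * u * (x.d ^ 3 * x.c))
    have h1 := inj_smul (-1) (inj_sum Finset.univ (T := fun k L => ∑ k', sb 0 (x.d - 3) (fun I => U (k :: k' :: I))
        (fun I => D3 x.T (k :: k' :: I)) L)
      (c := fun _ => ∑ _k' : Lt m, u * (x.d ^ 3 * x.c)) (n := 0 + (x.d - 3) + 1) fun k _ =>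
      inj_sum Finset.univ (T := fun k' => sb 0 (x.d - 3) (fun I => U (k :: k' :: I)) (fun I => D3 x.T (k :: k' :: I)))
      (c := fun _ => u * (x.d ^ 3 * x.c)) (n := 0 + (x.d - 3) + 1) fun k' _ =>
      inj_sb (p := 0) (q := 1) hU.1 (by positivity : 0 ≤ (x.d : ℝ) ^ 3 * x.c)
        (inj_head (inj_head (n := 3) hU.2.1 k) k') (hI3 k k'))
    have e2 : 0 + (x.d - 3) + 1 = 0 + (x.d - 2) := by omega
    have e3 : ‖(-1 : ℂ)‖ * ∑ _k : Lt m, ∑ _k' : Lt m, u * (x.d ^ 3 * x.c) = (2 * m) ^ 2 * u * (x.d ^ 3 * x.c) := by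
      rw [norm_neg, norm_one, Finset.sum_const, Finset.card_univ, nsmul_eq_mul, f8_card, Finset.sum_const,
        Finset.card_univ, nsmul_eq_mul, f8_card]
      ring
    rw [e2, e3] at h1
    refine inj_congr (fun L _ => ?_) h1
    ring
  · show Pat 0 (x.d - 2) (fun L => - ∑ k, ∑ k', sb 0 (x.d - 3) (fun I => U (k :: k' :: I))
      (fun I => D3 x.T (k :: k' :: I)) L)
    have hP3 : Pat 0 (x.d - 3 + 3) x.T := by
      rw [Nat.sub_add_cancel (by omega)]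
      exact hP
    have h1 := f8_pat_neg (f8_pat_sum Finset.univ fun k _ => f8_pat_sum Finset.univ fun k' _ =>
      f8_pat_sb (p := 0) (a := x.d - 3) (q := 1) (S := fun I => D3 x.T (k :: k' :: I))
        (f8_pat_head (p := 1) (f8_pat_head (p := 2) hU.2.2.1 k) k') (pat_D3 hP3 k k'))
    have e2 : x.d - 3 + 1 = x.d - 2 := by omega
    rwa [e2] at h1

theorem t1_w {U : List (Lt m) → ℂ} {u γ : ℝ} (hu : 0 ≤ u) (hγ : 0 < γ) {x : An m} (hx : x.ok)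
    (hd : 2 * m * (x.d : ℝ) ≤ γ ^ 2) : (t1 U u x).w γ ≤ (γ ^ 2 * u) * x.w γ := by
  obtain ⟨-, h2, hc, -, -⟩ := hx
  show γ ^ (0 + (x.d - 2)) / γ ^ 2 * ((2 * m) ^ 2 * u * (x.d ^ 3 * x.c)) ≤
    γ ^ 2 * u * (x.d * (γ ^ x.d / γ ^ 2 * x.c))
  obtain ⟨e, he⟩ : ∃ e, x.d = e + 2 := ⟨x.d - 2, by omega⟩
  have h3 : γ ^ (0 + (x.d - 2)) = γ ^ e := by rw [he]; congr 1; omega
  have h4 : γ ^ x.d / γ ^ 2 = γ ^ e := by rw [he, pow_add]; field_simp
  rw [h3, h4]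
  have h5 : γ ^ e / γ ^ 2 * ((2 * m) ^ 2 * u * (x.d ^ 3 * x.c)) =
      (2 * m * x.d) ^ 2 * (γ ^ e / γ ^ 2 * (u * (x.d * x.c))) := by ring
  have h6 : γ ^ 2 * u * (x.d * (γ ^ e * x.c)) = (γ ^ 2) ^ 2 * (γ ^ e / γ ^ 2 * (u * (x.d * x.c))) := by
    field_simp
  rw [h5, h6]
  exact mul_le_mul_of_nonneg_right (pow_le_pow_left₀ (by positivity) hd 2) (by positivity)

theorem t1_o {U : List (Lt m) → ℂ} {u : ℝ} (hU : Uok U u) {x : An m} (hx : x.ok)
    (hd : x.d ≠ 2) :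
    (t1 U u x).o = ∑ i, ∑ j, ∑ k, ∑ q, uc U i j k q •
      ((-(1 : ℂ)) • x.DDD (i, true) (j, true) (k, true) * fA (q, false)) := by
  have h4 := f11_deg hx hd
  rw [← f8_red hU.2.2.1 fun k1 k2 k3 k4 => (-(1 : ℂ)) • x.DDD k1 k2 k3 * fA k4]
  show op fA (0 + (x.d - 2)) (fun L => - ∑ k, ∑ k', sb 0 (x.d - 3) (fun I => U (k :: k' :: I))
      (fun I => D3 x.T (k :: k' :: I)) L) = _
  have e1 : 0 + (x.d - 2) = x.d - 3 + 1 := by omega
  have e0 : (fun L => - ∑ k, ∑ k', sb 0 (x.d - 3) (fun I => U (k :: k' :: I))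
      (fun I => D3 x.T (k :: k' :: I)) L) = fun L => (-1 : ℂ) * ∑ k, ∑ k', sb 0 (x.d - 3) (fun I => U (k :: k' :: I))
      (fun I => D3 x.T (k :: k' :: I)) L := by
    funext L
    ring
  rw [e0, op_smul, e1, op_sum, Finset.smul_sum]
  refine Finset.sum_congr rfl fun k1 _ => ?_
  rw [op_sum, Finset.smul_sum]
  refine Finset.sum_congr rfl fun k2 _ => ?_
  rw [f8_sb0, Finset.smul_sum]
  refine Finset.sum_congr rfl fun k3 _ => ?_
  rw [f8_op1, Finset.mul_sum, Finset.smul_sum]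
  refine Finset.sum_congr rfl fun k4 _ => ?_
  simp only [An.DDD, if_neg hd, mul_smul_comm, smul_mul_assoc]
  rw [smul_comm]

end Pool.Agent.H46P
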