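import Pool.Agent.Lib.H46P.F7
import Pool.Agent.Lib.H46P.F8

/-!
# Chunk F12: the piece `t2`

`ok`: `inj_sb` (with `inj_D1`, `inj_D2`, `inj_D3`, `inj_fx`/`inj_head`, `inj_sum`, `inj_smul`;
`card (Lt m) = 2 m`); the pattern: a nonzero value of `sb` forces the factors to be nonzero for
some letter, use the patterns of `U` and of `D1 T (k :: .)`, ... (`pat_D1`, `pat_D2`, `pat_D3`, `D1_eq_zero`).
Weight: `γ^(d+d'-2)/γ^2 * 3 (2m) u d^2 c d' c' = 3 (2 m) d u * x.w * y.w ≤ 3 γ^2 u * x.w * y.w`.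
Operator: `op_sb` (and `op_sum`, `op_smul`), `opF_succ`; a sum over a letter `k : Lt m` reduces to creation
or annihilation letters by the pattern of `U`.
-/

namespace Pool.Agent.H46P

open Finset
open scoped BigOperators ComplexConjugate InnerProductSpace

variable {m : ℕ}

/-- The inner tensor of one derivative. -/
theorem f12_inner {U : List (Lt m) → ℂ} {u : ℝ} (hU : Uok U u) {y : An m} (hy : y.ok) :
    Inj (2 + y.d) (sb 2 (y.d - 1) U (D1 y.T)) (u * (y.d * y.c)) ∧ Pat 2 y.d (sb 2 (y.d - 1) U (D1 y.T)) := by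
  obtain ⟨-, h2, hc, hI, hP⟩ := hy
  have hd : y.d = y.d - 1 + 1 := by omega
  have hI1 : Inj (y.d - 1 + 1) (D1 y.T) (y.d * y.c) := by
    rw [← hd]
    exact inj_D1 (by omega) hc hI
  constructor
  · have h1 := inj_sb (p := 2) (q := 1) hU.1 (by positivity : 0 ≤ y.d * y.c) hU.2.1 hI1
    have e1 : 2 + (y.d - 1) + 1 = 2 + y.d := by omega
    rwa [e1] at h1
  · have hP1 : Pat 0 (y.d - 1 + 1) y.T := by
      rw [← hd]
      exact hP
    have h1 := f8_pat_sb (p := 2) (a := y.d - 1) (q := 1) hU.2.2.1 (pat_D1 hP1)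
    rwa [← hd] at h1

theorem t2_ok {U : List (Lt m) → ℂ} {u : ℝ} (hU : Uok U u) {x y : An m} (hx : x.ok)
    (hy : y.ok) : (t2 U u x y).ok := by
  obtain ⟨hyI, hyP⟩ := f12_inner hU hy
  obtain ⟨-, hy2, hyc, -, -⟩ := hy
  obtain ⟨-, h2, hc, hI, hP⟩ := hx
  have hd : x.d = x.d - 1 + 1 := by omega
  have hd2 : x.d - 1 = x.d - 2 + 1 := by omega
  have hu := hU.1
  have hI2 : ∀ k, Inj (x.d - 2 + 1) (fun I => D2 x.T (k :: I)) (x.d ^ 2 * x.c) := by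
    intro k
    have h3 : Inj (x.d - 1 + 1) (D2 x.T) (x.d ^ 2 * x.c) := by
      rw [← hd]
      exact inj_D2 h2 hc hI
    have h4 := inj_head h3 k
    rwa [hd2] at h4
  refine ⟨?_, ?_, ?_⟩
  · show 0 ≤ 3 * (2 * m) * u * (x.d ^ 2 * x.c) * (y.d * y.c)
    positivity
  · show Inj (0 + (x.d + y.d - 2)) (fun L => 3 * ∑ k, sb 0 (x.d - 2)
      (fun I => sb 2 (y.d - 1) U (D1 y.T) (k :: I)) (fun I => D2 x.T (k :: I)) L)
      (3 * (2 * m) * u * (x.d ^ 2 * x.c) * (y.d * y.c))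
    have hh : ∀ k, Inj (0 + 1 + y.d) (fun I => sb 2 (y.d - 1) U (D1 y.T) (k :: I)) (u * (y.d * y.c)) := by
      intro k
      have e : 2 + y.d = (0 + 1 + y.d) + 1 := by ring
      rw [e] at hyI
      exact inj_head hyI k
    have h1 := inj_smul 3 (inj_sum Finset.univ (T := fun k => sb 0 (x.d - 2)
        (fun I => sb 2 (y.d - 1) U (D1 y.T) (k :: I)) (fun I => D2 x.T (k :: I)))
      (c := fun _ => u * (y.d * y.c) * (x.d ^ 2 * x.c)) (n := 0 + (x.d - 2) + y.d) fun k _ =>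
      inj_sb (p := 0) (q := y.d) (by positivity : 0 ≤ u * (y.d * y.c)) (by positivity : 0 ≤ (x.d : ℝ) ^ 2 * x.c)
        (hh k) (hI2 k))
    have e2 : 0 + (x.d - 2) + y.d = 0 + (x.d + y.d - 2) := by omega
    have e3 : ‖(3 : ℂ)‖ * ∑ _k : Lt m, u * (y.d * y.c) * (x.d ^ 2 * x.c) =
        3 * (2 * m) * u * (x.d ^ 2 * x.c) * (y.d * y.c) := by
      rw [Complex.norm_ofNat, Finset.sum_const, Finset.card_univ, nsmul_eq_mul, f8_card]
      ring
    rwa [e2, e3] at h1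
  · show Pat 0 (x.d + y.d - 2) (fun L => 3 * ∑ k, sb 0 (x.d - 2)
      (fun I => sb 2 (y.d - 1) U (D1 y.T) (k :: I)) (fun I => D2 x.T (k :: I)) L)
    have hP2 : Pat 0 (x.d - 2 + 2) x.T := by
      rw [Nat.sub_add_cancel h2]
      exact hP
    have h1 := f8_pat_smul (f8_pat_sum Finset.univ fun k _ =>
      f8_pat_sb (p := 0) (a := x.d - 2) (q := y.d) (S := fun I => D2 x.T (k :: I))
        (f8_pat_head (p := 1) hyP k) (pat_D2 hP2 k)) 3
    have e2 : x.d - 2 + y.d = x.d + y.d - 2 := by omega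
    rwa [e2] at h1

theorem t2_w {U : List (Lt m) → ℂ} {u γ : ℝ} (hu : 0 ≤ u) (hγ : 0 < γ) {x y : An m}
    (hx : x.ok) (hy : y.ok) (hd : 2 * m * (x.d : ℝ) ≤ γ ^ 2) :
    (t2 U u x y).w γ ≤ 3 * (γ ^ 2 * u) * x.w γ * y.w γ := by
  obtain ⟨-, h2, hc, -, -⟩ := hx
  obtain ⟨-, hy2, hyc, -, -⟩ := hy
  show γ ^ (0 + (x.d + y.d - 2)) / γ ^ 2 * (3 * (2 * m) * u * (x.d ^ 2 * x.c) * (y.d * y.c)) ≤
    3 * (γ ^ 2 * u) * (x.d * (γ ^ x.d / γ ^ 2 * x.c)) * (y.d * (γ ^ y.d / γ ^ 2 * y.c))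
  obtain ⟨e, he⟩ : ∃ e, x.d = e + 2 := ⟨x.d - 2, by omega⟩
  obtain ⟨e', he'⟩ : ∃ e', y.d = e' + 2 := ⟨y.d - 2, by omega⟩
  have h3 : γ ^ (0 + (x.d + y.d - 2)) / γ ^ 2 = γ ^ e * γ ^ e' := by
    have : 0 + (x.d + y.d - 2) = e + e' + 2 := by omega
    rw [this, pow_add, pow_add]
    field_simp
  have h4 : γ ^ x.d / γ ^ 2 = γ ^ e := by rw [he, pow_add]; field_simp
  have h5 : γ ^ y.d / γ ^ 2 = γ ^ e' := by rw [he', pow_add]; field_simp
  rw [h3, h4, h5]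
  have h6 : γ ^ e * γ ^ e' * (3 * (2 * m) * u * (x.d ^ 2 * x.c) * (y.d * y.c)) =
      (2 * m * x.d) * (3 * u * (x.d * (γ ^ e * x.c)) * (y.d * (γ ^ e' * y.c))) := by ring
  have h7 : 3 * (γ ^ 2 * u) * (x.d * (γ ^ e * x.c)) * (y.d * (γ ^ e' * y.c)) =
      γ ^ 2 * (3 * u * (x.d * (γ ^ e * x.c)) * (y.d * (γ ^ e' * y.c))) := by ring
  rw [h6, h7]
  exact mul_le_mul_of_nonneg_right hd (by positivity)

theorem t2_o {U : List (Lt m) → ℂ} {u : ℝ} (hU : Uok U u) {x y : An m} (hx : x.ok)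
    (hy : y.ok) :
    (t2 U u x y).o = ∑ i, ∑ j, ∑ k, ∑ q, uc U i j k q •
      ((3 : ℂ) • (x.DD (i, true) (j, true) * y.D (k, true)) * fA (q, false)) := by
  have h2 := hx.2.1
  have hy2 := hy.2.1
  rw [← f8_red hU.2.2.1 fun k1 k2 k3 k4 => (3 : ℂ) • (x.DD k1 k2 * y.D k3) * fA k4]
  show op fA (0 + (x.d + y.d - 2)) (fun L => 3 * ∑ k, sb 0 (x.d - 2)
      (fun I => sb 2 (y.d - 1) U (D1 y.T) (k :: I)) (fun I => D2 x.T (k :: I)) L) = _
  have e1 : 0 + (x.d + y.d - 2) = x.d - 2 + (y.d - 1 + 1) := by omega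
  rw [op_smul, e1, op_sum, Finset.smul_sum]
  refine Finset.sum_congr rfl fun k1 _ => ?_
  rw [f8_sb0, Finset.smul_sum]
  refine Finset.sum_congr rfl fun k2 _ => ?_
  rw [f8_sb2, Finset.mul_sum, Finset.smul_sum]
  refine Finset.sum_congr rfl fun k3 _ => ?_
  rw [Finset.mul_sum, Finset.mul_sum, Finset.smul_sum]
  refine Finset.sum_congr rfl fun k4 _ => ?_
  simp only [An.D, An.DD, mul_smul_comm, smul_mul_assoc, mul_assoc]
  rw [smul_comm]

end Pool.Agent.H46P
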