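import Pool.Agent.Lib.H46P.F7
import Pool.Agent.Lib.H46P.F12

/-!
# Chunk F13: the piece `t3`

`ok`: `inj_sb` (with `inj_D1`, `inj_D2`, `inj_D3`, `inj_fx`/`inj_head`, `inj_sum`, `inj_smul`;
`card (Lt m) = 2 m`); the pattern: a nonzero value of `sb` forces the factors to be nonzero for
some letter, use the patterns of `U` and of `D1 T (k :: .)`, ... (`pat_D1`, `pat_D2`, `pat_D3`, `D1_eq_zero`).
Weight: `γ^(d+d'+d''-2)/γ^2 * u (d c) (d' c') (d'' c'') = γ^2 u * x.w * y.w * z.w`.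
Operator: `op_sb` (and `op_sum`, `op_smul`), `opF_succ`; a sum over a letter `k : Lt m` reduces to creation
or annihilation letters by the pattern of `U`.
-/

namespace Pool.Agent.H46P

open Finset
open scoped BigOperators ComplexConjugate InnerProductSpace

variable {m : ℕ}

theorem f13_D1 {x : An m} (hx : x.ok) : Inj (x.d - 1 + 1) (D1 x.T) (x.d * x.c) ∧
    ∀ k, Pat 0 (x.d - 1) (fun J => D1 x.T (k :: J)) := by
  obtain ⟨-, h2, hc, hI, hP⟩ := hx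
  have hd : x.d = x.d - 1 + 1 := by omega
  constructor
  · rw [← hd]
    exact inj_D1 (by omega) hc hI
  · have hP1 : Pat 0 (x.d - 1 + 1) x.T := by
      rw [← hd]
      exact hP
    exact pat_D1 hP1

theorem t3_ok {U : List (Lt m) → ℂ} {u : ℝ} (hU : Uok U u) {x y z : An m} (hx : x.ok)
    (hy : y.ok) (hz : z.ok) : (t3 U u x y z).ok := by
  obtain ⟨hzI, hzP⟩ := f12_inner hU hz
  obtain ⟨hyI, hyP⟩ := f13_D1 hy
  obtain ⟨hxI, hxP⟩ := f13_D1 hx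
  have hx2 := hx.2.1
  have hy2 := hy.2.1
  have hz2 := hz.2.1
  have hxc := hx.2.2.1
  have hyc := hy.2.2.1
  have hzc := hz.2.2.1
  have hu := hU.1
  refine ⟨?_, ?_, ?_⟩
  · show 0 ≤ u * (x.d * x.c) * (y.d * y.c) * (z.d * z.c)
    positivity
  · show Inj (0 + (x.d + y.d + z.d - 2)) (fun L => - sb 0 (x.d - 1)
      (sb 1 (y.d - 1) (sb 2 (z.d - 1) U (D1 z.T)) (D1 y.T)) (D1 x.T) L)
      (u * (x.d * x.c) * (y.d * y.c) * (z.d * z.c))
    have e0 : 2 + z.d = 1 + 1 + z.d := by ring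
    rw [e0] at hzI
    have h1 := inj_sb (p := 1) (q := z.d) (by positivity : 0 ≤ u * (z.d * z.c)) (by positivity : 0 ≤ y.d * y.c) hzI hyI
    have e1 : 1 + (y.d - 1) + z.d = 0 + 1 + (y.d - 1 + z.d) := by ring
    rw [e1] at h1
    have h2 := inj_smul (-1) (inj_sb (p := 0) (q := y.d - 1 + z.d) (by positivity : 0 ≤ u * (z.d * z.c) * (y.d * y.c))
      (by positivity : 0 ≤ x.d * x.c) h1 hxI)
    have e2 : 0 + (x.d - 1) + (y.d - 1 + z.d) = 0 + (x.d + y.d + z.d - 2) := by omega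
    have e3 : ‖(-1 : ℂ)‖ * (u * (z.d * z.c) * (y.d * y.c) * (x.d * x.c)) =
        u * (x.d * x.c) * (y.d * y.c) * (z.d * z.c) := by
      rw [norm_neg, norm_one]
      ring
    rw [e2, e3] at h2
    refine inj_congr (fun L _ => ?_) h2
    ring
  · show Pat 0 (x.d + y.d + z.d - 2) (fun L => - sb 0 (x.d - 1)
      (sb 1 (y.d - 1) (sb 2 (z.d - 1) U (D1 z.T)) (D1 y.T)) (D1 x.T) L)
    have h1 := f8_pat_neg (f8_pat_sb (p := 0) (a := x.d - 1) (q := y.d - 1 + z.d)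
      (f8_pat_sb (p := 1) (a := y.d - 1) (q := z.d) hzP hyP) hxP)
    have e2 : x.d - 1 + (y.d - 1 + z.d) = x.d + y.d + z.d - 2 := by omega
    rwa [e2] at h1

theorem t3_w {U : List (Lt m) → ℂ} {u γ : ℝ} (hγ : 0 < γ) {x y z : An m} (hx : x.ok)
    (hy : y.ok) (hz : z.ok) :
    (t3 U u x y z).w γ = (γ ^ 2 * u) * x.w γ * y.w γ * z.w γ := by
  have hx2 := hx.2.1
  have hy2 := hy.2.1
  have hz2 := hz.2.1
  show γ ^ (0 + (x.d + y.d + z.d - 2)) / γ ^ 2 * (u * (x.d * x.c) * (y.d * y.c) * (z.d * z.c)) =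
    γ ^ 2 * u * (x.d * (γ ^ x.d / γ ^ 2 * x.c)) * (y.d * (γ ^ y.d / γ ^ 2 * y.c)) * (z.d * (γ ^ z.d / γ ^ 2 * z.c))
  obtain ⟨e, he⟩ : ∃ e, x.d = e + 2 := ⟨x.d - 2, by omega⟩
  obtain ⟨e', he'⟩ : ∃ e', y.d = e' + 2 := ⟨y.d - 2, by omega⟩
  obtain ⟨e'', he''⟩ : ∃ e'', z.d = e'' + 2 := ⟨z.d - 2, by omega⟩
  have h3 : γ ^ (0 + (x.d + y.d + z.d - 2)) / γ ^ 2 = γ ^ 2 * (γ ^ e * γ ^ e' * γ ^ e'') := by
    have : 0 + (x.d + y.d + z.d - 2) = e + e' + e'' + 2 + 2 := by omega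
    rw [this, pow_add, pow_add, pow_add, pow_add]
    field_simp
  have h4 : γ ^ x.d / γ ^ 2 = γ ^ e := by rw [he, pow_add]; field_simp
  have h5 : γ ^ y.d / γ ^ 2 = γ ^ e' := by rw [he', pow_add]; field_simp
  have h6 : γ ^ z.d / γ ^ 2 = γ ^ e'' := by rw [he'', pow_add]; field_simp
  rw [h3, h4, h5, h6]
  ring

theorem t3_o {U : List (Lt m) → ℂ} {u : ℝ} (hU : Uok U u) {x y z : An m} (hx : x.ok)
    (hy : y.ok) (hz : z.ok) :
    (t3 U u x y z).o = ∑ i, ∑ j, ∑ k, ∑ q, uc U i j k q •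
      ((-(1 : ℂ)) • (x.D (i, true) * y.D (j, true) * z.D (k, true)) * fA (q, false)) := by
  have hx2 := hx.2.1
  have hy2 := hy.2.1
  have hz2 := hz.2.1
  rw [← f8_red hU.2.2.1 fun k1 k2 k3 k4 => (-(1 : ℂ)) • (x.D k1 * y.D k2 * z.D k3) * fA k4]
  show op fA (0 + (x.d + y.d + z.d - 2)) (fun L => - sb 0 (x.d - 1)
      (sb 1 (y.d - 1) (sb 2 (z.d - 1) U (D1 z.T)) (D1 y.T)) (D1 x.T) L) = _
  have e1 : 0 + (x.d + y.d + z.d - 2) = x.d - 1 + (y.d - 1 + (z.d - 1 + 1)) := by omega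
  have e0 : (fun L => - sb 0 (x.d - 1) (sb 1 (y.d - 1) (sb 2 (z.d - 1) U (D1 z.T)) (D1 y.T)) (D1 x.T) L) =
      fun L => (-1 : ℂ) * sb 0 (x.d - 1) (sb 1 (y.d - 1) (sb 2 (z.d - 1) U (D1 z.T)) (D1 y.T)) (D1 x.T) L := by
    funext L
    ring
  rw [e0, op_smul, e1, f8_sb0, Finset.smul_sum]
  refine Finset.sum_congr rfl fun k1 _ => ?_
  have h1 : (fun J => sb 1 (y.d - 1) (sb 2 (z.d - 1) U (D1 z.T)) (D1 y.T) (k1 :: J)) =
      sb 0 (y.d - 1) (fun I => sb 2 (z.d - 1) U (D1 z.T) (k1 :: I)) (D1 y.T) := by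
    funext J
    rw [f8_shift]
  rw [h1, f8_sb0, Finset.mul_sum, Finset.smul_sum]
  refine Finset.sum_congr rfl fun k2 _ => ?_
  rw [f8_sb2, Finset.mul_sum, Finset.mul_sum, Finset.smul_sum]
  refine Finset.sum_congr rfl fun k3 _ => ?_
  rw [Finset.mul_sum, Finset.mul_sum, Finset.mul_sum, Finset.smul_sum]
  refine Finset.sum_congr rfl fun k4 _ => ?_
  simp only [An.D, mul_smul_comm, smul_mul_assoc, mul_assoc]
  rw [smul_comm]

end Pool.Agent.H46P
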