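import Pool.Agent.Lib.H46P.F7
import Pool.Agent.Lib.H46P.F8

/-!
# Chunk F9: the piece `ps1`

`ok`: `inj_sb` (with `inj_D1`, `inj_D2`, `inj_D3`, `inj_fx`/`inj_head`, `inj_sum`, `inj_smul`;
`card (Lt m) = 2 m`); the pattern: a nonzero value of `sb` forces the factors to be nonzero for
some letter, use the patterns of `U` and of `D1 T (k :: .)`, ... (`pat_D1`, `pat_D2`, `pat_D3`, `D1_eq_zero`).
Weight: `γ^d/γ^2 * 3 (2m) u d^2 c = 3 (2 m) d u * (d γ^d/γ^2 c) ≤ 3 γ^2 u * x.w`.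
Operator: `op_sb` (and `op_sum`, `op_smul`), `opF_succ`; a sum over a letter `k : Lt m` reduces to creation
or annihilation letters by the pattern of `U`.
-/

namespace Pool.Agent.H46P

open Finset
open scoped BigOperators ComplexConjugate InnerProductSpace

variable {m : ℕ}

theorem ps1_ok {U : List (Lt m) → ℂ} {u : ℝ} (hU : Uok U u) {x : An m} (hx : x.ok) :
    (ps1 U u x).ok := by
  obtain ⟨-, h2, hc, hI, hP⟩ := hx
  have hd : x.d = x.d - 1 + 1 := by omega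
  have hd2 : x.d - 1 = x.d - 2 + 1 := by omega
  have hI2 : ∀ k, Inj (x.d - 2 + 1) (fun I => D2 x.T (k :: I)) (x.d ^ 2 * x.c) := by
    intro k
    have h3 : Inj (x.d - 1 + 1) (D2 x.T) (x.d ^ 2 * x.c) := by
      rw [← hd]
      exact inj_D2 h2 hc hI
    have h4 := inj_head h3 k
    rwa [hd2] at h4
  refine ⟨?_, ?_, ?_⟩
  · show 0 ≤ 3 * (2 * m) * u * (x.d ^ 2 * x.c)
    have := hU.1
    positivity
  · show Inj (1 + (x.d - 1)) (fun L => -3 * ∑ k, sb 1 (x.d - 2) (fx 1 k U) (fun I => D2 x.T (k :: I)) L)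
      (3 * (2 * m) * u * (x.d ^ 2 * x.c))
    have h1 := inj_smul (-3) (inj_sum Finset.univ (T := fun k => sb 1 (x.d - 2) (fx 1 k U) (fun I => D2 x.T (k :: I)))
      (c := fun _ => u * (x.d ^ 2 * x.c)) (n := 1 + (x.d - 2) + 1) fun k _ =>
      inj_sb (p := 1) (q := 1) hU.1 (by positivity : 0 ≤ (x.d : ℝ) ^ 2 * x.c)
        (inj_fx (n := 3) (l := 1) (by norm_num) hU.2.1 k) (hI2 k))
    have e1 : 1 + (x.d - 2) + 1 = 1 + (x.d - 1) := by omega
    have e2 : ‖(-3 : ℂ)‖ * ∑ _k : Lt m, u * (x.d ^ 2 * x.c) = 3 * (2 * m) * u * (x.d ^ 2 * x.c) := by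
      rw [norm_neg, Complex.norm_ofNat, Finset.sum_const, Finset.card_univ, nsmul_eq_mul, f8_card]
      ring
    rwa [e1, e2] at h1
  · show Pat 1 (x.d - 1) (fun L => -3 * ∑ k, sb 1 (x.d - 2) (fx 1 k U) (fun I => D2 x.T (k :: I)) L)
    have hP2 : Pat 0 (x.d - 2 + 2) x.T := by
      rw [Nat.sub_add_cancel h2]
      exact hP
    have hfx : ∀ k, Pat (1 + 1) 1 (fx 1 k U) := by
      intro k L hL h0
      obtain ⟨l1, l2, l3, rfl⟩ := List.length_eq_three.1 hL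
      have h1 := hU.2.2.1 [l1, k, l2, l3] rfl h0
      simp only [List.map_cons, List.map_nil, List.replicate] at h1 ⊢
      simp only [List.cons_append, List.nil_append, List.cons.injEq, and_true] at h1 ⊢
      exact ⟨h1.1, h1.2.2.1, h1.2.2.2⟩
    have h1 := f8_pat_smul (f8_pat_sum Finset.univ fun k _ =>
      f8_pat_sb (p := 1) (a := x.d - 2) (q := 1) (S := fun I => D2 x.T (k :: I)) (hfx k) (pat_D2 hP2 k)) (-3)
    rwa [← hd2] at h1

theorem ps1_w {U : List (Lt m) → ℂ} {u γ : ℝ} (hu : 0 ≤ u) (hγ : 0 < γ) {x : An m} (hx : x.ok)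
    (hd : 2 * m * (x.d : ℝ) ≤ γ ^ 2) : (ps1 U u x).w γ ≤ 3 * (γ ^ 2 * u) * x.w γ := by
  obtain ⟨-, h2, hc, -, -⟩ := hx
  show γ ^ (1 + (x.d - 1)) / γ ^ 2 * (3 * (2 * m) * u * (x.d ^ 2 * x.c)) ≤
    3 * (γ ^ 2 * u) * (x.d * (γ ^ x.d / γ ^ 2 * x.c))
  have e : 1 + (x.d - 1) = x.d := by omega
  rw [e]
  have h1 : γ ^ x.d / γ ^ 2 * (3 * (2 * m) * u * (x.d ^ 2 * x.c)) =
      (2 * m * x.d) * (3 * u * (x.d * (γ ^ x.d / γ ^ 2 * x.c))) := by ring
  have h3 : 3 * (γ ^ 2 * u) * (x.d * (γ ^ x.d / γ ^ 2 * x.c)) =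
      γ ^ 2 * (3 * u * (x.d * (γ ^ x.d / γ ^ 2 * x.c))) := by ring
  rw [h1, h3]
  exact mul_le_mul_of_nonneg_right hd (by positivity)

theorem ps1_o {U : List (Lt m) → ℂ} {u : ℝ} (hU : Uok U u) {x : An m} (hx : x.ok) :
    (ps1 U u x).o = ∑ i, ∑ j, ∑ k, ∑ q, uc U i j k q •
      ((-(3 : ℂ)) • (fA (i, true) * x.DD (j, true) (k, true)) * fA (q, false)) := by
  have h2 := hx.2.1
  rw [← f8_red hU.2.2.1 fun k1 k2 k3 k4 => (-(3 : ℂ)) • (fA k1 * x.DD k2 k3) * fA k4]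
  show op fA (1 + (x.d - 1)) (fun L => -3 * ∑ k, sb 1 (x.d - 2) (fx 1 k U) (fun I => D2 x.T (k :: I)) L) = _
  have e1 : 1 + (x.d - 1) = 1 + (x.d - 2) + 1 := by omega
  have h1 : ∀ k : Lt m, op fA (1 + (x.d - 2) + 1) (sb 1 (x.d - 2) (fx 1 k U) (fun I => D2 x.T (k :: I))) =
      ∑ k1, fA k1 * ∑ k3, x.DD k k3 * ∑ k4, U [k1, k, k3, k4] • fA k4 := by
    intro k
    rw [op_sb, opF_succ]
    refine Finset.sum_congr rfl fun k1 _ => ?_
    rw [opF_zero]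
    congr 1
    refine Finset.sum_congr rfl fun k3 _ => ?_
    rw [f8_op1]
    rfl
  rw [op_smul, e1, op_sum]
  simp only [h1]
  rw [Finset.sum_comm, Finset.smul_sum]
  refine Finset.sum_congr rfl fun k1 _ => ?_
  rw [Finset.smul_sum]
  refine Finset.sum_congr rfl fun k2 _ => ?_
  rw [Finset.mul_sum, Finset.smul_sum]
  refine Finset.sum_congr rfl fun k3 _ => ?_
  rw [Finset.mul_sum, Finset.mul_sum, Finset.smul_sum]
  refine Finset.sum_congr rfl fun k4 _ => ?_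
  simp only [mul_smul_comm, smul_mul_assoc, mul_assoc]
  rw [smul_comm]

end Pool.Agent.H46P
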