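import Pool.Agent.Lib.H46P.F8
import Pool.Agent.Lib.H46P.F9
import Pool.Agent.Lib.H46P.F10
import Pool.Agent.Lib.H46P.F11
import Pool.Agent.Lib.H46P.F12
import Pool.Agent.Lib.H46P.F13

set_option autoImplicit false

/-!
# Chunk F14: the conjugated quartic term as a sum of pieces

`pr l l'` = all products.  `conj_pieces`: `conj_U`, `DW l k = ∑ x.D k`, `DW2 = ∑ x.DD`, `DW3 = ∑ x.DDD`
(zero for `x.d = 2`), expand the products of sums over lists, and the operator formulas
`ps0_o, ps2_o, ps1_o, ps11_o, t1_o, t2_o, t3_o`.
Suggestion: turn sums over lists into `List.sum_map_mul_left` etc.; treat the seven terms separately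
(the map `X ↦ ∑ i j k q, uc U i j k q • (X i j k * fA (q,false))` is additive in `X`).
-/

namespace Pool.Agent.H46P

open Finset
open scoped BigOperators ComplexConjugate InnerProductSpace

variable {m : ℕ}

/-- the pieces with creation letters -/
noncomputable def Ps (U : List (Lt m) → ℂ) (u : ℝ) (l : List (An m)) : List (Pc m) :=
  ps0 U u :: (l.map (ps2 U u) ++ l.map (ps1 U u) ++
    l.flatMap (fun x => l.map (fun y => ps11 U u x y)))

/-- the pieces without creation letters -/
noncomputable def Ph (U : List (Lt m) → ℂ) (u : ℝ) (l : List (An m)) : List (Pc m) :=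
  (l.filter (fun x => decide (x.d ≠ 2))).map (t1 U u) ++
    l.flatMap (fun x => l.map (fun y => t2 U u x y)) ++
    l.flatMap (fun x => l.flatMap (fun y => l.map (fun z => t3 U u x y z)))

/-- the additive map `X ↦ ∑ uc U i j k q • (X i j k * fA (q,false))` -/
noncomputable def f14_Phi (U : List (Lt m) → ℂ) :
    (Fin m → Fin m → Fin m → (Fk m →L[ℂ] Fk m)) →+ (Fk m →L[ℂ] Fk m) where
  toFun X := ∑ i, ∑ j, ∑ k, ∑ q, uc U i j k q • (X i j k * fA (q, false))
  map_zero' := by simp
  map_add' X Y := by
    simp only [Pi.add_apply, add_mul, smul_add, Finset.sum_add_distrib]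

theorem f14_Phi_apply (U : List (Lt m) → ℂ) (X : Fin m → Fin m → Fin m → (Fk m →L[ℂ] Fk m)) :
    f14_Phi U X = ∑ i, ∑ j, ∑ k, ∑ q, uc U i j k q • (X i j k * fA (q, false)) := rfl

theorem f14_list {α : Type*} (U : List (Lt m) → ℂ) (l : List α) (o : α → (Fk m →L[ℂ] Fk m))
    (G : α → Fin m → Fin m → Fin m → (Fk m →L[ℂ] Fk m)) (h : ∀ x ∈ l, o x = f14_Phi U (G x)) :
    (l.map o).sum = f14_Phi U (fun i j k => (l.map fun x => G x i j k).sum) := by
  induction l with
  | nil =>
    simp only [List.map_nil, List.sum_nil]
    exact (map_zero (f14_Phi U)).symm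
  | cons a l ih =>
    rw [List.map_cons, List.sum_cons, h a (by simp), ih fun x hx => h x (by simp [hx]), ← map_add]
    congr 1

theorem f14_flat {α : Type*} (l : List α) (f : α → List (Pc m)) :
    ((l.flatMap f).map Pc.o).sum = (l.map fun x => ((f x).map Pc.o).sum).sum := by
  induction l with
  | nil => simp
  | cons a l ih => rw [List.flatMap_cons, List.map_append, List.sum_append, ih, List.map_cons,
      List.sum_cons]

theorem f14_filter (U : List (Lt m) → ℂ) (u : ℝ) (l : List (An m)) :
    (((l.filter (fun x => decide (x.d ≠ 2))).map (t1 U u)).map Pc.o).sum =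
      (l.map fun x => if x.d = 2 then 0 else (t1 U u x).o).sum := by
  induction l with
  | nil => simp
  | cons a l ih =>
    by_cases ha : a.d = 2
    · rw [List.filter_cons_of_neg (by simp [ha]), ih, List.map_cons, List.sum_cons, if_pos ha,
        zero_add]
    · rw [List.filter_cons_of_pos (by simp [ha]), List.map_cons, List.map_cons, List.sum_cons, ih,
        List.map_cons, List.sum_cons, if_neg ha]

theorem f14_smul {α : Type*} (l : List α) (c : ℂ) (f : α → (Fk m →L[ℂ] Fk m)) :
    (l.map fun x => c • f x).sum = c • (l.map f).sum := by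
  induction l with
  | nil =>
    rw [List.map_nil, List.map_nil, List.sum_nil]
    refine ContinuousLinearMap.ext fun v => ?_
    change (0 : Fk m) = c • (0 : Fk m)
    rw [smul_zero]
  | cons a l ih => rw [List.map_cons, List.sum_cons, ih, List.map_cons, List.sum_cons, smul_add]

theorem conj_pieces (l : List (An m)) (hl : ∀ x ∈ l, x.ok) {U : List (Lt m) → ℂ} {u : ℝ}
    (hU : Uok U u) :
    EWi l * op fA 4 U * EW l = ((Ps U u l).map Pc.o).sum + ((Ph U u l).map Pc.o).sum := by
  have e0 : (ps0 U u).o = f14_Phi U fun i j k =>
      fA (i, true) * fA (j, true) * fA (k, true) := ps0_o hU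
  have e2 : ((l.map (ps2 U u)).map Pc.o).sum = f14_Phi U fun i j k =>
      (-(3 : ℂ)) • (fA (i, true) * fA (j, true) * DW l (k, true)) := by
    rw [List.map_map]
    change (List.map (fun x => (ps2 U u x).o) l).sum = _
    rw [f14_list U l _ (fun x i j k =>
      (-(3 : ℂ)) • (fA (i, true) * fA (j, true) * x.D (k, true))) fun x hx => ps2_o hU (hl x hx)]
    congr 1
    funext i j k
    rw [f14_smul, List.sum_map_mul_left]
    rfl
  have e1 : ((l.map (ps1 U u)).map Pc.o).sum = f14_Phi U fun i j k =>
      (-(3 : ℂ)) • (fA (i, true) * DW2 l (j, true) (k, true)) := by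
    rw [List.map_map]
    change (List.map (fun x => (ps1 U u x).o) l).sum = _
    rw [f14_list U l _ (fun x i j k =>
      (-(3 : ℂ)) • (fA (i, true) * x.DD (j, true) (k, true))) fun x hx => ps1_o hU (hl x hx)]
    congr 1
    funext i j k
    rw [f14_smul, List.sum_map_mul_left]
    rfl
  have e11 : ((l.flatMap (fun x => l.map (fun y => ps11 U u x y))).map Pc.o).sum =
      f14_Phi U fun i j k =>
        (3 : ℂ) • (fA (i, true) * DW l (j, true) * DW l (k, true)) := by
    rw [f14_flat, f14_list U l _ (fun x i j k =>
      (3 : ℂ) • (fA (i, true) * x.D (j, true) * DW l (k, true)))]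
    · congr 1
      funext i j k
      rw [f14_smul, List.sum_map_mul_right, List.sum_map_mul_left]
      rfl
    · intro x hx
      rw [List.map_map]
      change (List.map (fun y => (ps11 U u x y).o) l).sum = _
      rw [f14_list U l _ (fun y i j k =>
        (3 : ℂ) • (fA (i, true) * x.D (j, true) * y.D (k, true)))
        fun y hy => ps11_o hU (hl x hx) (hl y hy)]
      congr 1
      funext i j k
      rw [f14_smul, List.sum_map_mul_left]
      rfl
  have g1 : (((l.filter (fun x => decide (x.d ≠ 2))).map (t1 U u)).map Pc.o).sum =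
      f14_Phi U fun i j k => (-(1 : ℂ)) • DW3 l (i, true) (j, true) (k, true) := by
    rw [f14_filter, f14_list U l _ (fun x i j k =>
      (-(1 : ℂ)) • x.DDD (i, true) (j, true) (k, true))]
    · congr 1
      funext i j k
      rw [f14_smul]
      rfl
    · intro x hx
      by_cases h2 : x.d = 2
      · rw [if_pos h2]
        have : (fun i j k => (-(1 : ℂ)) • x.DDD (i, true) (j, true) (k, true)) =
            (0 : Fin m → Fin m → Fin m → (Fk m →L[ℂ] Fk m)) := by
          funext i j k
          unfold An.DDD
          rw [if_pos h2]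
          refine ContinuousLinearMap.ext fun v => ?_
          change (-(1 : ℂ)) • (0 : Fk m) = (0 : Fk m)
          rw [smul_zero]
        rw [this, map_zero]
      · rw [if_neg h2]
        exact t1_o hU (hl x hx) h2
  have g2 : ((l.flatMap (fun x => l.map (fun y => t2 U u x y))).map Pc.o).sum =
      f14_Phi U fun i j k =>
        (3 : ℂ) • (DW2 l (i, true) (j, true) * DW l (k, true)) := by
    rw [f14_flat, f14_list U l _ (fun x i j k =>
      (3 : ℂ) • (x.DD (i, true) (j, true) * DW l (k, true)))]
    · congr 1
      funext i j k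
      rw [f14_smul, List.sum_map_mul_right]
      rfl
    · intro x hx
      rw [List.map_map]
      change (List.map (fun y => (t2 U u x y).o) l).sum = _
      rw [f14_list U l _ (fun y i j k =>
        (3 : ℂ) • (x.DD (i, true) (j, true) * y.D (k, true)))
        fun y hy => t2_o hU (hl x hx) (hl y hy)]
      congr 1
      funext i j k
      rw [f14_smul, List.sum_map_mul_left]
      rfl
  have g3 : ((l.flatMap (fun x => l.flatMap (fun y => l.map (fun z => t3 U u x y z)))).map
      Pc.o).sum = f14_Phi U fun i j k =>
        (-(1 : ℂ)) • (DW l (i, true) * DW l (j, true) * DW l (k, true)) := by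
    rw [f14_flat, f14_list U l _ (fun x i j k =>
      (-(1 : ℂ)) • (x.D (i, true) * DW l (j, true) * DW l (k, true)))]
    · congr 1
      funext i j k
      rw [f14_smul, List.sum_map_mul_right, List.sum_map_mul_right]
      rfl
    · intro x hx
      rw [f14_flat, f14_list U l _ (fun y i j k =>
        (-(1 : ℂ)) • (x.D (i, true) * y.D (j, true) * DW l (k, true)))]
      · congr 1
        funext i j k
        rw [f14_smul, List.sum_map_mul_right, List.sum_map_mul_left]
        rfl
      · intro y hy
        rw [List.map_map]
        change (List.map (fun z => (t3 U u x y z).o) l).sum = _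
        rw [f14_list U l _ (fun z i j k =>
          (-(1 : ℂ)) • (x.D (i, true) * y.D (j, true) * z.D (k, true)))
          fun z hz => t3_o hU (hl x hx) (hl y hy) (hl z hz)]
        congr 1
        funext i j k
        rw [f14_smul, List.sum_map_mul_left]
        rfl
  rw [conj_U l hl hU.2.2.1 hU.2.2.2]
  unfold Ps Ph
  rw [List.map_cons, List.sum_cons, List.map_append, List.sum_append, List.map_append,
    List.sum_append, List.map_append, List.sum_append, List.map_append, List.sum_append,
    e0, e2, e1, e11, g1, g2, g3, ← map_add, ← map_add, ← map_add, ← map_add, ← map_add, ← map_add,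
    f14_Phi_apply]
  refine Finset.sum_congr rfl fun i _ => Finset.sum_congr rfl fun j _ =>
    Finset.sum_congr rfl fun k _ => Finset.sum_congr rfl fun q _ => ?_
  congr 2
  simp only [Pi.add_apply]
  module

end Pool.Agent.H46P
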