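import Pool.Agent.Lib.H46P.F14

/-!
# Chunk F15: weights of `Ps`, `Ph`, and the new pieces

`Nw l δ` are the pieces of `Ph (l ++ δ)` with at least one factor in `δ`: `ph_append` (for any additive
`F`; expand `flatMap` over `++`, `List.sum_append`, `ring`-like rearrangement in an additive commutative
monoid).  Weight bounds with `w = (l.map An.w).sum` etc., from `ps0_w, ..., t3_w` (all weights are
nonnegative).  Degrees: from the definitions.
-/

namespace Pool.Agent.H46P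

open Finset
open scoped BigOperators ComplexConjugate InnerProductSpace

variable {m : ℕ}

/-- new pieces -/
noncomputable def Nw (U : List (Lt m) → ℂ) (u : ℝ) (l δ : List (An m)) : List (Pc m) :=
  (δ.filter (fun x => decide (x.d ≠ 2))).map (t1 U u) ++
    (δ.flatMap (fun x => (l ++ δ).map (fun y => t2 U u x y)) ++
      l.flatMap (fun x => δ.map (fun y => t2 U u x y))) ++
    (δ.flatMap (fun x => (l ++ δ).flatMap (fun y => (l ++ δ).map (fun z => t3 U u x y z))) ++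
      l.flatMap (fun x => δ.flatMap (fun y => (l ++ δ).map (fun z => t3 U u x y z))) ++
      l.flatMap (fun x => l.flatMap (fun y => δ.map (fun z => t3 U u x y z))))

theorem f15_flat {α β : Type*} {M : Type*} [AddCommMonoid M] (l : List α) (f : α → List β)
    (F : β → M) : ((l.flatMap f).map F).sum = (l.map fun x => ((f x).map F).sum).sum := by
  induction l with
  | nil => simp
  | cons a l ih =>
    rw [List.flatMap_cons, List.map_append, List.sum_append, ih, List.map_cons, List.sum_cons]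

theorem ph_append {M : Type*} [AddCommMonoid M] (F : Pc m → M) (U : List (Lt m) → ℂ) (u : ℝ)
    (l δ : List (An m)) :
    ((Ph U u (l ++ δ)).map F).sum = ((Ph U u l).map F).sum + ((Nw U u l δ).map F).sum := by
  unfold Ph Nw
  simp only [List.filter_append, List.map_append, List.flatMap_append, List.sum_append, f15_flat,
    List.map_map, List.sum_map_add]
  abel

/-- sum of the weights -/
noncomputable def wl (γ : ℝ) (l : List (An m)) : ℝ := (l.map (An.w γ)).sum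

theorem an_w_nonneg {γ : ℝ} (hγ : 0 < γ) {x : An m} (hx : x.ok) : 0 ≤ x.w γ := by
  unfold An.w
  have := hx.2.2.1
  positivity

theorem f15_wl_nonneg {γ : ℝ} (hγ : 0 < γ) (l : List (An m)) (hl : ∀ x ∈ l, x.ok) :
    0 ≤ wl γ l := by
  unfold wl
  apply List.sum_nonneg
  intro a ha
  obtain ⟨x, hx, rfl⟩ := List.mem_map.mp ha
  exact an_w_nonneg hγ (hl x hx)

theorem f15_wl_append (γ : ℝ) (l δ : List (An m)) : wl γ (l ++ δ) = wl γ l + wl γ δ := by
  unfold wl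
  rw [List.map_append, List.sum_append]

theorem f15_le (l : List (An m)) (f : An m → ℝ) (c γ : ℝ) (h : ∀ x ∈ l, f x ≤ c * x.w γ) :
    (l.map f).sum ≤ c * wl γ l := by
  unfold wl
  rw [← List.sum_map_mul_left]
  exact List.sum_le_sum h

theorem f15_t1 {U : List (Lt m) → ℂ} {u γ : ℝ} (hU : Uok U u) (hγ : 0 < γ) {D : ℕ}
    (hD : 2 * m * (D : ℝ) ≤ γ ^ 2) (l : List (An m)) (hl : ∀ x ∈ l, x.ok ∧ x.d ≤ D) :
    (((l.filter (fun x => decide (x.d ≠ 2))).map (t1 U u)).map (Pc.w γ)).sum ≤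
      (γ ^ 2 * u) * wl γ l := by
  have hu := hU.1
  induction l with
  | nil => simp [wl]
  | cons a l ih =>
    have ha := hl a List.mem_cons_self
    have ih' := ih (fun x hx => hl x (List.mem_cons_of_mem _ hx))
    have hw : wl γ (a :: l) = a.w γ + wl γ l := by
      unfold wl
      rw [List.map_cons, List.sum_cons]
    have hd : 2 * m * (a.d : ℝ) ≤ γ ^ 2 := by
      refine le_trans ?_ hD
      have : (a.d : ℝ) ≤ D := by exact_mod_cast ha.2
      exact mul_le_mul_of_nonneg_left this (by positivity)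
    have h1 := t1_w (U := U) (u := u) hu hγ ha.1 hd
    have h0 := an_w_nonneg hγ ha.1
    rw [hw, List.filter_cons]
    split_ifs
    · rw [List.map_cons, List.map_cons, List.sum_cons]
      linarith
    · have : 0 ≤ γ ^ 2 * u * a.w γ := by positivity
      linarith

theorem f15_t2 {U : List (Lt m) → ℂ} {u γ : ℝ} (hU : Uok U u) (hγ : 0 < γ) {D : ℕ}
    (hD : 2 * m * (D : ℝ) ≤ γ ^ 2) (l l' : List (An m)) (hl : ∀ x ∈ l, x.ok ∧ x.d ≤ D)
    (hl' : ∀ x ∈ l', x.ok ∧ x.d ≤ D) :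
    ((l.flatMap (fun x => l'.map (fun y => t2 U u x y))).map (Pc.w γ)).sum ≤
      3 * (γ ^ 2 * u) * (wl γ l * wl γ l') := by
  have hu := hU.1
  rw [f15_flat]
  have h := f15_le l (fun x => ((l'.map (fun y => t2 U u x y)).map (Pc.w γ)).sum)
    (3 * (γ ^ 2 * u) * wl γ l') γ (by
      intro x hx
      rw [List.map_map]
      have hd : 2 * m * (x.d : ℝ) ≤ γ ^ 2 := by
        refine le_trans ?_ hD
        have : (x.d : ℝ) ≤ D := by exact_mod_cast (hl x hx).2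
        exact mul_le_mul_of_nonneg_left this (by positivity)
      have h2 := f15_le l' (Pc.w γ ∘ fun y => t2 U u x y) (3 * (γ ^ 2 * u) * x.w γ) γ (by
        intro y hy
        exact t2_w hu hγ (hl x hx).1 (hl' y hy).1 hd)
      linarith)
  linarith

theorem f15_t3 {U : List (Lt m) → ℂ} {u γ : ℝ} (hγ : 0 < γ) (l l' l'' : List (An m))
    (hl : ∀ x ∈ l, x.ok) (hl' : ∀ x ∈ l', x.ok) (hl'' : ∀ x ∈ l'', x.ok) :
    ((l.flatMap (fun x => l'.flatMap (fun y => l''.map (fun z => t3 U u x y z)))).map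
      (Pc.w γ)).sum ≤ (γ ^ 2 * u) * (wl γ l * wl γ l' * wl γ l'') := by
  rw [f15_flat]
  have h := f15_le l (fun x => ((l'.flatMap (fun y => l''.map (fun z => t3 U u x y z))).map
      (Pc.w γ)).sum) ((γ ^ 2 * u) * wl γ l' * wl γ l'') γ (by
      intro x hx
      rw [f15_flat]
      have h2 := f15_le l' (fun y => ((l''.map (fun z => t3 U u x y z)).map (Pc.w γ)).sum)
        ((γ ^ 2 * u) * x.w γ * wl γ l'') γ (by
          intro y hy
          rw [List.map_map]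
          have h3 := f15_le l'' (Pc.w γ ∘ fun z => t3 U u x y z)
            ((γ ^ 2 * u) * x.w γ * y.w γ) γ (by
              intro z hz
              exact (t3_w hγ (hl x hx) (hl' y hy) (hl'' z hz)).le)
          linarith)
      linarith)
  linarith

theorem ps_w {U : List (Lt m) → ℂ} {u γ : ℝ} (hU : Uok U u) (hγ : 0 < γ) {D : ℕ}
    (hD : 2 * m * (D : ℝ) ≤ γ ^ 2) (l : List (An m)) (hl : ∀ x ∈ l, x.ok ∧ x.d ≤ D) :
    ((Ps U u l).map (Pc.w γ)).sum ≤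
      (γ ^ 2 * u) * (1 + 6 * wl γ l + 3 * wl γ l ^ 2) := by
  have hu := hU.1
  unfold Ps
  rw [List.map_cons, List.sum_cons, List.map_append, List.map_append, List.sum_append,
    List.sum_append, ps0_w hγ, f15_flat, List.map_map, List.map_map]
  have h2 := f15_le l (Pc.w γ ∘ ps2 U u) (3 * (γ ^ 2 * u)) γ
    (fun x _ => (ps2_w hγ x).le)
  have h1 := f15_le l (Pc.w γ ∘ ps1 U u) (3 * (γ ^ 2 * u)) γ (by
    intro x hx
    have hd : 2 * m * (x.d : ℝ) ≤ γ ^ 2 := by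
      refine le_trans ?_ hD
      have : (x.d : ℝ) ≤ D := by exact_mod_cast (hl x hx).2
      exact mul_le_mul_of_nonneg_left this (by positivity)
    exact ps1_w hu hγ (hl x hx).1 hd)
  have h3 := f15_le l (fun x => ((l.map (fun y => ps11 U u x y)).map (Pc.w γ)).sum)
    (3 * (γ ^ 2 * u) * wl γ l) γ (by
      intro x hx
      rw [List.map_map]
      have h2 := f15_le l (Pc.w γ ∘ fun y => ps11 U u x y) (3 * (γ ^ 2 * u) * x.w γ) γ (by
        intro y hy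
        exact (ps11_w hγ (hl x hx).1 (hl y hy).1).le)
      linarith)
  nlinarith

theorem ph_w {U : List (Lt m) → ℂ} {u γ : ℝ} (hU : Uok U u) (hγ : 0 < γ) {D : ℕ}
    (hD : 2 * m * (D : ℝ) ≤ γ ^ 2) (l : List (An m)) (hl : ∀ x ∈ l, x.ok ∧ x.d ≤ D) :
    ((Ph U u l).map (Pc.w γ)).sum ≤
      (γ ^ 2 * u) * (wl γ l + 3 * wl γ l ^ 2 + wl γ l ^ 3) := by
  unfold Ph
  rw [List.map_append, List.map_append, List.sum_append, List.sum_append]
  have h1 := f15_t1 hU hγ hD l hl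
  have h2 := f15_t2 hU hγ hD l l hl hl
  have h3 := f15_t3 (U := U) (u := u) hγ l l l (fun x hx => (hl x hx).1)
    (fun x hx => (hl x hx).1) (fun x hx => (hl x hx).1)
  have e : (γ ^ 2 * u) * (wl γ l + 3 * wl γ l ^ 2 + wl γ l ^ 3) =
    (γ ^ 2 * u) * wl γ l + 3 * (γ ^ 2 * u) * (wl γ l * wl γ l) +
      (γ ^ 2 * u) * (wl γ l * wl γ l * wl γ l) := by ring
  rw [e]
  linarith

theorem nw_w {U : List (Lt m) → ℂ} {u γ : ℝ} (hU : Uok U u) (hγ : 0 < γ) {D : ℕ}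
    (hD : 2 * m * (D : ℝ) ≤ γ ^ 2) (l δ : List (An m)) (hl : ∀ x ∈ l, x.ok ∧ x.d ≤ D)
    (hδ : ∀ x ∈ δ, x.ok ∧ x.d ≤ D) (hw : wl γ l + wl γ δ ≤ 2) :
    ((Nw U u l δ).map (Pc.w γ)).sum ≤ (γ ^ 2 * u) * (25 * wl γ δ) := by
  have hu := hU.1
  have hlδ : ∀ x ∈ l ++ δ, x.ok ∧ x.d ≤ D := by
    intro x hx
    rcases List.mem_append.mp hx with h | h
    · exact hl x h
    · exact hδ x h
  have ok : ∀ l' : List (An m), (∀ x ∈ l', x.ok ∧ x.d ≤ D) → ∀ x ∈ l', x.ok :=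
    fun l' h x hx => (h x hx).1
  unfold Nw
  simp only [List.map_append, List.sum_append]
  have h1 := f15_t1 hU hγ hD δ hδ
  have h2 := f15_t2 hU hγ hD δ (l ++ δ) hδ hlδ
  have h3 := f15_t2 hU hγ hD l δ hl hδ
  have h4 := f15_t3 (U := U) (u := u) hγ δ (l ++ δ) (l ++ δ) (ok _ hδ) (ok _ hlδ) (ok _ hlδ)
  have h5 := f15_t3 (U := U) (u := u) hγ l δ (l ++ δ) (ok _ hl) (ok _ hδ) (ok _ hlδ)
  have h6 := f15_t3 (U := U) (u := u) hγ l l δ (ok _ hl) (ok _ hl) (ok _ hδ)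
  rw [f15_wl_append] at h2 h4 h5
  have a0 := f15_wl_nonneg hγ l (ok _ hl)
  have b0 := f15_wl_nonneg hγ δ (ok _ hδ)
  set a := wl γ l
  set b := wl γ δ
  have hK : 0 ≤ γ ^ 2 * u := by positivity
  set K := γ ^ 2 * u
  have hfin : K * b + 3 * K * (b * (a + b)) + 3 * K * (a * b) + K * (b * (a + b) * (a + b)) +
      K * (a * b * (a + b)) + K * (a * a * b) ≤ K * (25 * b) := by
    have ha2 : a ≤ 2 := by linarith
    have hs : 0 ≤ a + b := by linarith
    have e1 : b + 3 * (b * (a + b)) + 3 * (a * b) + (b * (a + b) * (a + b)) +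
      (a * b * (a + b)) + (a * a * b) ≤ 25 * b := by
      have g1 : b * (a + b) ≤ b * 2 := mul_le_mul_of_nonneg_left hw b0
      have g2 : a * b ≤ 2 * b := mul_le_mul_of_nonneg_right ha2 b0
      have g3 : b * (a + b) * (a + b) ≤ (b * 2) * 2 :=
        mul_le_mul g1 hw hs (by positivity)
      have g4 : a * b * (a + b) ≤ (2 * b) * 2 := mul_le_mul g2 hw hs (by positivity)
      have g5 : a * a * b ≤ 2 * 2 * b :=
        mul_le_mul_of_nonneg_right (mul_le_mul ha2 ha2 a0 (by norm_num)) b0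
      linarith
    have e2 := mul_le_mul_of_nonneg_left e1 hK
    have e3 : K * b + 3 * K * (b * (a + b)) + 3 * K * (a * b) + K * (b * (a + b) * (a + b)) +
      K * (a * b * (a + b)) + K * (a * a * b) = K * (b + 3 * (b * (a + b)) + 3 * (a * b) +
      (b * (a + b) * (a + b)) + (a * b * (a + b)) + (a * a * b)) := by ring
    rw [e3]
    exact e2
  simp only [List.map_append] at h2 h4 h5
  linarith

theorem ps_ok {U : List (Lt m) → ℂ} {u : ℝ} (hU : Uok U u) {D : ℕ} (hD2 : 4 ≤ D)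
    (l : List (An m)) (hl : ∀ x ∈ l, x.ok ∧ x.d ≤ D) :
    ∀ x ∈ Ps U u l, x.ok ∧ 1 ≤ x.p ∧ 1 ≤ x.q ∧ x.p + x.q ≤ 3 * D := by
  intro x hx
  unfold Ps at hx
  simp only [List.mem_cons, List.mem_append, List.mem_map, List.mem_flatMap] at hx
  rcases hx with rfl | (⟨y, hy, rfl⟩ | ⟨y, hy, rfl⟩) | ⟨y, hy, z, hz, rfl⟩
  · refine ⟨ps0_ok hU, ?_, ?_, ?_⟩ <;> simp only [ps0] <;> omega
  · have h1 := (hl y hy).1.2.1
    have h2 := (hl y hy).2
    refine ⟨ps2_ok hU (hl y hy).1, ?_, ?_, ?_⟩ <;> simp only [ps2] <;> omega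
  · have h1 := (hl y hy).1.2.1
    have h2 := (hl y hy).2
    refine ⟨ps1_ok hU (hl y hy).1, ?_, ?_, ?_⟩ <;> simp only [ps1] <;> omega
  · have h1 := (hl y hy).1.2.1
    have h2 := (hl y hy).2
    have h3 := (hl z hz).1.2.1
    have h4 := (hl z hz).2
    refine ⟨ps11_ok hU (hl y hy).1 (hl z hz).1, ?_, ?_, ?_⟩ <;> simp only [ps11] <;> omega

theorem f15_even {n : ℕ} (h : Even n) : Even (n - 2) := by
  obtain ⟨k, hk⟩ := h
  exact ⟨k - 1, by omega⟩

theorem f15_t1_ok {U : List (Lt m) → ℂ} {u : ℝ} (hU : Uok U u) {D : ℕ} {y : An m}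
    (hy : y.ok ∧ y.d ≤ D) (hd : y.d ≠ 2) :
    (t1 U u y).ok ∧ (t1 U u y).p = 0 ∧ Even (t1 U u y).q ∧ 2 ≤ (t1 U u y).q ∧
      (t1 U u y).q ≤ 3 * D := by
  have h1 := hy.1.2.1
  have h2 := hy.2
  have h0 := hy.1.1
  refine ⟨t1_ok hU hy.1 hd, rfl, f15_even h0, ?_, ?_⟩
  · simp only [t1]
    obtain ⟨k, hk⟩ := h0
    omega
  · simp only [t1]
    omega

theorem f15_t2_ok {U : List (Lt m) → ℂ} {u : ℝ} (hU : Uok U u) {D : ℕ} {y z : An m}
    (hy : y.ok ∧ y.d ≤ D) (hz : z.ok ∧ z.d ≤ D) :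
    (t2 U u y z).ok ∧ (t2 U u y z).p = 0 ∧ Even (t2 U u y z).q ∧ 2 ≤ (t2 U u y z).q ∧
      (t2 U u y z).q ≤ 3 * D := by
  have h1 := hy.1.2.1
  have h2 := hy.2
  have h3 := hz.1.2.1
  have h4 := hz.2
  refine ⟨t2_ok hU hy.1 hz.1, rfl, f15_even (hy.1.1.add hz.1.1), ?_, ?_⟩ <;>
    simp only [t2] <;> omega

theorem f15_t3_ok {U : List (Lt m) → ℂ} {u : ℝ} (hU : Uok U u) {D : ℕ} {x y z : An m}
    (hx : x.ok ∧ x.d ≤ D) (hy : y.ok ∧ y.d ≤ D) (hz : z.ok ∧ z.d ≤ D) :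
    (t3 U u x y z).ok ∧ (t3 U u x y z).p = 0 ∧ Even (t3 U u x y z).q ∧ 2 ≤ (t3 U u x y z).q ∧
      (t3 U u x y z).q ≤ 3 * D := by
  have h1 := hy.1.2.1
  have h2 := hy.2
  have h3 := hz.1.2.1
  have h4 := hz.2
  have h5 := hx.1.2.1
  have h6 := hx.2
  refine ⟨t3_ok hU hx.1 hy.1 hz.1, rfl, f15_even ((hx.1.1.add hy.1.1).add hz.1.1), ?_, ?_⟩ <;>
    simp only [t3] <;> omega

theorem ph_ok {U : List (Lt m) → ℂ} {u : ℝ} (hU : Uok U u) {D : ℕ}
    (l : List (An m)) (hl : ∀ x ∈ l, x.ok ∧ x.d ≤ D) :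
    ∀ x ∈ Ph U u l, x.ok ∧ x.p = 0 ∧ Even x.q ∧ 2 ≤ x.q ∧ x.q ≤ 3 * D := by
  intro x hx
  unfold Ph at hx
  simp only [List.mem_append, List.mem_map, List.mem_flatMap, List.mem_filter,
    decide_eq_true_eq] at hx
  rcases hx with (⟨y, ⟨hy, hd⟩, rfl⟩ | ⟨y, hy, z, hz, rfl⟩) | ⟨y, hy, z, hz, t, ht, rfl⟩
  · exact f15_t1_ok hU (hl y hy) hd
  · exact f15_t2_ok hU (hl y hy) (hl z hz)
  · exact f15_t3_ok hU (hl y hy) (hl z hz) (hl t ht)

theorem nw_ok {U : List (Lt m) → ℂ} {u : ℝ} (hU : Uok U u) {D : ℕ}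
    (l δ : List (An m)) (hl : ∀ x ∈ l, x.ok ∧ x.d ≤ D) (hδ : ∀ x ∈ δ, x.ok ∧ x.d ≤ D) :
    ∀ x ∈ Nw U u l δ, x.ok ∧ x.p = 0 ∧ Even x.q ∧ 2 ≤ x.q ∧ x.q ≤ 3 * D := by
  intro x hx
  refine ph_ok hU (l ++ δ) ?_ x ?_
  · intro x hx
    rcases List.mem_append.mp hx with h | h
    · exact hl x h
    · exact hδ x h
  · unfold Nw at hx
    unfold Ph
    simp only [List.mem_append, List.mem_map, List.mem_flatMap, List.mem_filter,
      decide_eq_true_eq] at hx ⊢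
    rcases hx with (⟨y, ⟨hy, hd⟩, rfl⟩ | (⟨y, hy, z, hz, rfl⟩ | ⟨y, hy, z, hz, rfl⟩)) |
      ((⟨y, hy, z, hz, t, ht, rfl⟩ | ⟨y, hy, z, hz, t, ht, rfl⟩) | ⟨y, hy, z, hz, t, ht, rfl⟩)
    · exact Or.inl (Or.inl ⟨y, ⟨Or.inr hy, hd⟩, rfl⟩)
    · exact Or.inl (Or.inr ⟨y, Or.inr hy, z, hz, rfl⟩)
    · exact Or.inl (Or.inr ⟨y, Or.inl hy, z, Or.inr hz, rfl⟩)
    · exact Or.inr ⟨y, Or.inr hy, z, hz, t, ht, rfl⟩
    · exact Or.inr ⟨y, Or.inl hy, z, Or.inr hz, t, ht, rfl⟩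
    · exact Or.inr ⟨y, Or.inl hy, z, Or.inl hz, t, Or.inr ht, rfl⟩

end Pool.Agent.H46P
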