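import Pool.Agent.Lib.H46P.F15

/-!
# Chunk F16: the iteration

`toAn y` turns a piece without creation letters into an annihilation piece with `(toAn y).d • (toAn y).o
= y.o` and the same weight.  Invariant `Inv r l δ`:
(i) all `x ∈ l ++ δ` satisfy `x.ok ∧ x.d ≤ D`; (ii) `wl l + 4/3 wl δ ≤ 11/10`, `wl δ ≤ 4^(-r)`;
(iii) `∑_{x ∈ l ++ δ} x.d • x.o = 2 • J.o + ∑_{y ∈ Ph l, y.q ≤ D} y.o`.
Start: `l = [J]`, `δ = ((Ph [J]).filter (q ≤ D)).map toAn`, `wl δ ≤ 1/25` (`t1` does not occur since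
`J.d = 2`: or use `ph_w`: at most `5/100`).
Step: `l' = l ++ δ`, `δ' = ((Nw l δ).filter (q ≤ D)).map toAn`, `wl δ' ≤ 25/100 wl δ` (`nw_w`), (iii) by
`ph_append` applied to `F y = if y.q ≤ D then y.o else 0`.
-/

namespace Pool.Agent.H46P

open Finset
open scoped BigOperators ComplexConjugate InnerProductSpace

variable {m : ℕ}

/-- a piece without creation letters as an annihilation piece -/
noncomputable def toAn (y : Pc m) : An m := ⟨y.q, fun L => (1 / (y.q : ℂ)) * y.T L, y.c / y.q⟩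

theorem toAn_ok {y : Pc m} (hy : y.ok) (hp : y.p = 0) (he : Even y.q) (h2 : 2 ≤ y.q) :
    (toAn y).ok := by
  obtain ⟨hc, hI, hPt⟩ := hy
  rw [hp, zero_add] at hI
  have hq : (0 : ℝ) < y.q := by exact_mod_cast (by omega : 0 < y.q)
  refine ⟨he, h2, div_nonneg hc hq.le, ?_, ?_⟩
  · have h1 := inj_smul (1 / (y.q : ℂ)) hI
    have e : ‖(1 / (y.q : ℂ))‖ * y.c = y.c / y.q := by
      rw [norm_div, norm_one, Complex.norm_natCast]
      ring
    rw [e] at h1
    exact h1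
  · intro L hL hT
    have h1 : y.T L ≠ 0 := by
      intro h
      apply hT
      show (1 / (y.q : ℂ)) * y.T L = 0
      rw [h, mul_zero]
    have hL' : L.length = 0 + y.q := hL
    have h2 := hPt L (by rw [hp]; exact hL') h1
    rw [hp] at h2
    exact h2

theorem toAn_o {y : Pc m} (hp : y.p = 0) (h2 : 2 ≤ y.q) :
    ((toAn y).d : ℂ) • (toAn y).o = y.o := by
  have hq : (y.q : ℂ) ≠ 0 := by exact_mod_cast (by omega : y.q ≠ 0)
  show (y.q : ℂ) • op fA y.q (fun L => (1 / (y.q : ℂ)) * y.T L) = op fA (y.p + y.q) y.T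
  rw [op_smul, smul_smul, mul_one_div_cancel hq, one_smul, hp, zero_add]

theorem toAn_w {y : Pc m} (hp : y.p = 0) (h2 : 2 ≤ y.q) (γ : ℝ) :
    (toAn y).w γ = y.w γ := by
  have hq : (y.q : ℝ) ≠ 0 := by exact_mod_cast (by omega : y.q ≠ 0)
  show (y.q : ℝ) * (γ ^ y.q / γ ^ 2 * (y.c / y.q)) = γ ^ (y.p + y.q) / γ ^ 2 * y.c
  rw [hp, zero_add]
  field_simp

/-- restriction to degree at most `D` -/
noncomputable def tr (D : ℕ) (P : List (Pc m)) : List (Pc m) :=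
  P.filter (fun y => decide (y.q ≤ D))

theorem f16_sum {M : Type*} [AddCommMonoid M] (D : ℕ) (P : List (Pc m)) (F : Pc m → M) :
    ((tr D P).map F).sum = (P.map fun y => if y.q ≤ D then F y else 0).sum := by
  unfold tr
  induction P with
  | nil => rfl
  | cons a P ih =>
    rw [List.filter_cons, List.map_cons, List.sum_cons, ← ih]
    by_cases h : a.q ≤ D
    · rw [if_pos (by simpa using h), List.map_cons, List.sum_cons, if_pos h]
    · rw [if_neg (by simpa using h), if_neg h, zero_add]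

theorem f16_le (D : ℕ) (P : List (Pc m)) (F : Pc m → ℝ) (h : ∀ y ∈ P, 0 ≤ F y) :
    ((tr D P).map F).sum ≤ (P.map F).sum := by
  rw [f16_sum]
  refine List.sum_le_sum fun y hy => ?_
  split_ifs
  · exact le_rfl
  · exact h y hy

theorem f16_mem {D : ℕ} {P : List (Pc m)} {y : Pc m} (h : y ∈ tr D P) : y ∈ P ∧ y.q ≤ D := by
  unfold tr at h
  rw [List.mem_filter] at h
  exact ⟨h.1, by simpa using h.2⟩

theorem f16_w {γ : ℝ} (hγ : 0 < γ) {y : Pc m} (h : y.ok) : 0 ≤ y.w γ := by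
  unfold Pc.w
  have := h.1
  positivity

/-- the new annihilation pieces -/
noncomputable def f16_new (D : ℕ) (P : List (Pc m)) : List (An m) := (tr D P).map toAn

theorem f16_new_ok {D : ℕ} {P : List (Pc m)} (h : ∀ x ∈ P, x.ok ∧ x.p = 0 ∧ Even x.q ∧ 2 ≤ x.q ∧ x.q ≤ 3 * D) :
    ∀ x ∈ f16_new D P, x.ok ∧ x.d ≤ D := by
  intro x hx
  obtain ⟨y, hy, rfl⟩ := List.mem_map.1 hx
  obtain ⟨h1, h2⟩ := f16_mem hy
  obtain ⟨a1, a2, a3, a4, -⟩ := h y h1
  exact ⟨toAn_ok a1 a2 a3 a4, h2⟩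

theorem f16_new_o {D : ℕ} {P : List (Pc m)} (h : ∀ x ∈ P, x.ok ∧ x.p = 0 ∧ Even x.q ∧ 2 ≤ x.q ∧ x.q ≤ 3 * D) :
    ((f16_new D P).map fun x => (x.d : ℂ) • x.o).sum = ((tr D P).map Pc.o).sum := by
  unfold f16_new
  rw [List.map_map]
  congr 1
  refine List.map_congr_left fun y hy => ?_
  obtain ⟨a1, a2, a3, a4, -⟩ := h y (f16_mem hy).1
  exact toAn_o a2 a4

theorem f16_new_w {D : ℕ} {P : List (Pc m)} {γ : ℝ} (hγ : 0 < γ)
    (h : ∀ x ∈ P, x.ok ∧ x.p = 0 ∧ Even x.q ∧ 2 ≤ x.q ∧ x.q ≤ 3 * D) :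
    wl γ (f16_new D P) ≤ (P.map (Pc.w γ)).sum := by
  refine le_trans (le_of_eq ?_) (f16_le D P (Pc.w γ) fun y hy => f16_w hγ (h y hy).1)
  unfold wl f16_new
  rw [List.map_map]
  congr 1
  refine List.map_congr_left fun y hy => ?_
  obtain ⟨a1, a2, a3, a4, -⟩ := h y (f16_mem hy).1
  exact toAn_w a2 a4 γ

theorem iter {U : List (Lt m) → ℂ} {u γ : ℝ} (hU : Uok U u) (hγ : 0 < γ)
    (hsmall : γ ^ 2 * u ≤ 1 / 100) {D : ℕ} (hD2 : 4 ≤ D) (hD : 2 * m * (D : ℝ) ≤ γ ^ 2)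
    (J : An m) (hJ : J.ok) (hJd : J.d = 2) (hJw : J.w γ ≤ 1) (r : ℕ) :
    ∃ l δ : List (An m), (∀ x ∈ l ++ δ, x.ok ∧ x.d ≤ D) ∧
      wl γ l + 4 / 3 * wl γ δ ≤ 11 / 10 ∧ wl γ δ ≤ (1 / 4) ^ r ∧
      ((l ++ δ).map fun x => (x.d : ℂ) • x.o).sum =
        (2 : ℂ) • J.o + ((tr D (Ph U u l)).map Pc.o).sum := by
  have hu : 0 ≤ γ ^ 2 * u := mul_nonneg (by positivity) hU.1
  induction r with
  | zero =>
    have hl : ∀ x ∈ [J], x.ok ∧ x.d ≤ D := by
      intro x hx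
      rw [List.mem_singleton] at hx
      subst hx
      exact ⟨hJ, by omega⟩
    have hok := ph_ok hU [J] hl
    have hw : wl γ [J] ≤ 1 := by
      unfold wl
      simpa using hJw
    have hw0 : 0 ≤ wl γ [J] := f15_wl_nonneg hγ _ fun x hx => (hl x hx).1
    have h1 := ph_w hU hγ hD [J] hl
    have h2 : wl γ (f16_new D (Ph U u [J])) ≤ 5 / 100 := by
      refine (f16_new_w hγ hok).trans (h1.trans ?_)
      have h3 : wl γ [J] + 3 * wl γ [J] ^ 2 + wl γ [J] ^ 3 ≤ 5 := by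
        have h4 : wl γ [J] ^ 2 ≤ 1 := pow_le_one₀ hw0 hw
        have h5 : wl γ [J] ^ 3 ≤ 1 := pow_le_one₀ hw0 hw
        linarith
      have h0 : 0 ≤ wl γ [J] + 3 * wl γ [J] ^ 2 + wl γ [J] ^ 3 := by positivity
      calc γ ^ 2 * u * (wl γ [J] + 3 * wl γ [J] ^ 2 + wl γ [J] ^ 3) ≤ 1 / 100 * 5 :=
            mul_le_mul hsmall h3 h0 (by norm_num)
        _ = _ := by norm_num
    refine ⟨[J], f16_new D (Ph U u [J]), ?_, ?_, ?_, ?_⟩
    · intro x hx
      rcases List.mem_append.1 hx with h | h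
      · exact hl x h
      · exact f16_new_ok hok x h
    · linarith
    · rw [pow_zero]
      linarith
    · rw [List.map_append, List.sum_append, f16_new_o hok]
      congr 1
      simp [hJd]
  | succ r ih =>
    obtain ⟨l, δ, h1, h2, h3, h4⟩ := ih
    have hl : ∀ x ∈ l, x.ok ∧ x.d ≤ D := fun x hx => h1 x (List.mem_append_left _ hx)
    have hδ : ∀ x ∈ δ, x.ok ∧ x.d ≤ D := fun x hx => h1 x (List.mem_append_right _ hx)
    have w1 : 0 ≤ wl γ l := f15_wl_nonneg hγ _ fun x hx => (hl x hx).1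
    have w2 : 0 ≤ wl γ δ := f15_wl_nonneg hγ _ fun x hx => (hδ x hx).1
    have hok := nw_ok hU l δ hl hδ
    have hw := nw_w hU hγ hD l δ hl hδ (by linarith)
    have hnew : wl γ (f16_new D (Nw U u l δ)) ≤ 1 / 4 * wl γ δ := by
      refine (f16_new_w hγ hok).trans (hw.trans ?_)
      calc γ ^ 2 * u * (25 * wl γ δ) ≤ 1 / 100 * (25 * wl γ δ) := mul_le_mul_of_nonneg_right hsmall (by positivity)
        _ = _ := by ring
    refine ⟨l ++ δ, f16_new D (Nw U u l δ), ?_, ?_, ?_, ?_⟩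
    · intro x hx
      rcases List.mem_append.1 hx with h | h
      · exact h1 x h
      · exact f16_new_ok hok x h
    · rw [f15_wl_append]
      linarith
    · rw [pow_succ]
      linarith
    · rw [List.map_append, List.sum_append, f16_new_o hok, h4, add_assoc]
      congr 1
      rw [f16_sum, f16_sum, f16_sum, ph_append]

end Pool.Agent.H46P
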