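import Pool.Agent.Lib.H46P.F16

/-!
# Chunk F17: the final form of the conjugated operator

Take `l, δ` from `iter`, `K = l ++ δ`, `P = Ps K`, `Q` = the pieces of `Ph K` with `q > D`,
`R = tr D (Nw l δ)`.  `EWi K * Num * EW K = Num - 2 J.o - ∑ tr D (Ph l)` (`conj_num`, `iter`);
`J.o` commutes with `EW K` (`ann_comm`, `2` even: `J.o` commutes with `WW K`, hence with its exponential,
`Commute.exp_right`) so `EWi K * (2 J.o) * EW K = 2 J.o`; `conj_pieces` for `K`; and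
`∑ Ph K = ∑ Q + ∑ tr D (Ph K)`, `∑ tr D (Ph K) = ∑ tr D (Ph l) + ∑ R` (`ph_append` with
`F y = if y.q ≤ D then y.o else 0`).  Weights: `wl K ≤ 11/10`: `ps_w`: `(1 + 6.6 + 3.63)/100 ≤ 3/10`,
`ph_w`: `(1.1 + 3.63 + 1.331)/100 ≤ 1/4`, `nw_w`: `≤ (25/100) (1/4)^r`.
-/

namespace Pool.Agent.H46P

open Finset
open scoped BigOperators ComplexConjugate InnerProductSpace

variable {m : ℕ}

theorem f17_filter {M : Type*} [AddCommMonoid M] (L : List (Pc m)) (p : Pc m → Bool)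
    (F : Pc m → M) :
    ((L.filter p).map F).sum = (L.map (fun y => if p y = true then F y else 0)).sum := by
  induction L with
  | nil => simp
  | cons a L ih =>
    rw [List.filter_cons, List.map_cons, List.sum_cons]
    by_cases h : p a = true
    · rw [if_pos h, if_pos h, List.map_cons, List.sum_cons, ih]
    · rw [if_neg h, if_neg h, zero_add, ih]

theorem f17_split {M : Type*} [AddCommMonoid M] (L : List (Pc m)) (p q : Pc m → Bool)
    (hpq : ∀ y, q y = !p y) (F : Pc m → M) :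
    (L.map F).sum = ((L.filter q).map F).sum + ((L.filter p).map F).sum := by
  induction L with
  | nil => simp
  | cons a L ih =>
    rw [List.filter_cons, List.filter_cons, List.map_cons, List.sum_cons, ih, hpq a]
    by_cases h : p a = true
    · rw [h]
      simp only [Bool.not_true, Bool.false_eq_true, if_false, if_true, List.map_cons,
        List.sum_cons]
      exact add_left_comm _ _ _
    · have h' : p a = false := by
        cases hp : p a
        · rfl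
        · exact absurd hp h
      rw [h']
      simp only [Bool.not_false, Bool.false_eq_true, if_false, if_true, List.map_cons,
        List.sum_cons]
      exact (add_assoc _ _ _).symm

theorem f17_pcw {γ : ℝ} (hγ : 0 < γ) {x : Pc m} (hx : x.ok) : 0 ≤ x.w γ := by
  unfold Pc.w
  have := hx.1
  positivity

theorem f17_filter_le {γ : ℝ} (hγ : 0 < γ) (L : List (Pc m)) (hL : ∀ x ∈ L, x.ok)
    (p : Pc m → Bool) : ((L.filter p).map (Pc.w γ)).sum ≤ (L.map (Pc.w γ)).sum := by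
  rw [f17_filter]
  apply List.sum_le_sum
  intro x hx
  have := f17_pcw hγ (hL x hx)
  split_ifs
  · exact le_rfl
  · exact this

theorem f17_comm (J : An m) (hJ : J.ok) (K : List (An m)) (hK : ∀ x ∈ K, x.ok) :
    Commute J.o (WW K) := by
  unfold WW
  apply Commute.list_sum_right
  intro b hb
  obtain ⟨x, hx, rfl⟩ := List.mem_map.mp hb
  have h := ann_comm hJ.2.2.2.2 (hK x hx).2.2.2.2
  have he : Even (J.d * x.d) := hJ.1.mul_right _
  rw [he.neg_one_pow, one_smul] at h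
  exact h

theorem f17_conj (J : An m) (hJ : J.ok) (K : List (An m)) (hK : ∀ x ∈ K, x.ok) :
    EWi K * ((2 : ℂ) • J.o) * EW K = (2 : ℂ) • J.o := by
  have h1 : Commute J.o (EW K) := by
    unfold EW
    exact (f17_comm J hJ K hK).exp_right
  rw [mul_smul_comm, smul_mul_assoc, mul_assoc, h1.eq, ← mul_assoc, (ew_inv K).1, one_mul]

theorem final_form {U : List (Lt m) → ℂ} {u γ : ℝ} (hU : Uok U u) (hγ : 0 < γ)
    (hsmall : γ ^ 2 * u ≤ 1 / 100) {D : ℕ} (hD2 : 4 ≤ D) (hD : 2 * m * (D : ℝ) ≤ γ ^ 2)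
    (J : An m) (hJ : J.ok) (hJd : J.d = 2) (hJw : J.w γ ≤ 1) (r : ℕ) :
    ∃ K : List (An m), (∀ x ∈ K, x.ok) ∧ ∃ P Q R : List (Pc m),
      (∀ x ∈ P, x.ok ∧ 1 ≤ x.p ∧ 1 ≤ x.q ∧ x.p + x.q ≤ 3 * D) ∧
      (∀ x ∈ Q, x.ok ∧ x.p = 0 ∧ D < x.q ∧ x.q ≤ 3 * D) ∧
      (∀ x ∈ R, x.ok ∧ x.p = 0 ∧ 2 ≤ x.q ∧ x.q ≤ 3 * D) ∧
      (P.map (Pc.w γ)).sum ≤ 3 / 10 ∧ (Q.map (Pc.w γ)).sum ≤ 1 / 4 ∧
      (R.map (Pc.w γ)).sum ≤ (1 / 4) ^ r ∧
      EWi K * (Num + (2 : ℂ) • J.o + op fA 4 U) * EW K =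
        Num + (P.map Pc.o).sum + (Q.map Pc.o).sum + (R.map Pc.o).sum := by
  obtain ⟨l, δ, hlδ, hw, hδw, hsum⟩ := iter hU hγ hsmall hD2 hD J hJ hJd hJw r
  have hl : ∀ x ∈ l, x.ok ∧ x.d ≤ D := fun x hx => hlδ x (List.mem_append_left _ hx)
  have hδ : ∀ x ∈ δ, x.ok ∧ x.d ≤ D := fun x hx => hlδ x (List.mem_append_right _ hx)
  have hKok : ∀ x ∈ l ++ δ, x.ok := fun x hx => (hlδ x hx).1
  have hu := hU.1
  have a0 := f15_wl_nonneg hγ l (fun x hx => (hl x hx).1)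
  have b0 := f15_wl_nonneg hγ δ (fun x hx => (hδ x hx).1)
  have hKw : wl γ (l ++ δ) ≤ 11 / 10 := by
    rw [f15_wl_append]
    linarith
  have hK0 : 0 ≤ wl γ (l ++ δ) := by
    rw [f15_wl_append]
    linarith
  have hK2 : wl γ (l ++ δ) ^ 2 ≤ (11 / 10) ^ 2 := pow_le_pow_left₀ hK0 hKw 2
  have hK3 : wl γ (l ++ δ) ^ 3 ≤ (11 / 10) ^ 3 := pow_le_pow_left₀ hK0 hKw 3
  have hg0 : 0 ≤ γ ^ 2 * u := by positivity
  refine ⟨l ++ δ, hKok, Ps U u (l ++ δ),
    (Ph U u (l ++ δ)).filter (fun y => decide (D < y.q)), tr D (Nw U u l δ), ?_, ?_, ?_, ?_, ?_,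
    ?_, ?_⟩
  · exact ps_ok hU hD2 _ hlδ
  · intro x hx
    rw [List.mem_filter] at hx
    obtain ⟨h1, h2, -, -, h3⟩ := ph_ok hU _ hlδ x hx.1
    exact ⟨h1, h2, by simpa using hx.2, h3⟩
  · intro x hx
    unfold tr at hx
    rw [List.mem_filter] at hx
    obtain ⟨h1, h2, -, h4, h3⟩ := nw_ok hU l δ hl hδ x hx.1
    exact ⟨h1, h2, h4, h3⟩
  · refine le_trans (ps_w hU hγ hD _ hlδ) ?_
    have h1 : 1 + 6 * wl γ (l ++ δ) + 3 * wl γ (l ++ δ) ^ 2 ≤ 12 := by
      norm_num at hK2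
      linarith
    have h2 : 0 ≤ 1 + 6 * wl γ (l ++ δ) + 3 * wl γ (l ++ δ) ^ 2 := by positivity
    calc γ ^ 2 * u * (1 + 6 * wl γ (l ++ δ) + 3 * wl γ (l ++ δ) ^ 2) ≤ (1 / 100) * 12 :=
          mul_le_mul hsmall h1 h2 (by norm_num)
      _ ≤ 3 / 10 := by norm_num
  · refine le_trans (f17_filter_le hγ _ (fun x hx => (ph_ok hU _ hlδ x hx).1) _) ?_
    refine le_trans (ph_w hU hγ hD _ hlδ) ?_
    have h1 : wl γ (l ++ δ) + 3 * wl γ (l ++ δ) ^ 2 + wl γ (l ++ δ) ^ 3 ≤ 7 := by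
      norm_num at hK2 hK3
      linarith
    have h2 : 0 ≤ wl γ (l ++ δ) + 3 * wl γ (l ++ δ) ^ 2 + wl γ (l ++ δ) ^ 3 := by positivity
    calc γ ^ 2 * u * (wl γ (l ++ δ) + 3 * wl γ (l ++ δ) ^ 2 + wl γ (l ++ δ) ^ 3) ≤
          (1 / 100) * 7 := mul_le_mul hsmall h1 h2 (by norm_num)
      _ ≤ 1 / 4 := by norm_num
  · refine le_trans (f17_filter_le hγ _ (fun x hx => (nw_ok hU l δ hl hδ x hx).1) _) ?_
    refine le_trans (nw_w hU hγ hD l δ hl hδ (by linarith)) ?_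
    calc γ ^ 2 * u * (25 * wl γ δ) ≤ (1 / 100) * (25 * wl γ δ) :=
          mul_le_mul_of_nonneg_right hsmall (by positivity)
      _ ≤ wl γ δ := by linarith
      _ ≤ (1 / 4) ^ r := hδw
  · have e1 : EWi (l ++ δ) * (Num + (2 : ℂ) • J.o + op fA 4 U) * EW (l ++ δ) =
        EWi (l ++ δ) * Num * EW (l ++ δ) + EWi (l ++ δ) * ((2 : ℂ) • J.o) * EW (l ++ δ) +
          EWi (l ++ δ) * op fA 4 U * EW (l ++ δ) := by
      rw [mul_add, mul_add, add_mul, add_mul]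
    rw [e1, conj_num _ hKok, f17_conj J hJ _ hKok, conj_pieces _ hKok hU, hsum]
    have e2 := f17_split (Ph U u (l ++ δ)) (fun y => decide (y.q ≤ D))
      (fun y => decide (D < y.q)) (by
        intro y
        by_cases h : y.q ≤ D
        · simp [h, not_lt.mpr h]
        · simp [h, not_le.mp h]) Pc.o
    have e3 : (((Ph U u (l ++ δ)).filter (fun y => decide (y.q ≤ D))).map Pc.o).sum =
        ((tr D (Ph U u l)).map Pc.o).sum + ((tr D (Nw U u l δ)).map Pc.o).sum := by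
      unfold tr
      rw [f17_filter, f17_filter, f17_filter]
      exact ph_append _ U u l δ
    rw [e2, e3]
    abel

end Pool.Agent.H46P
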