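import Pool.Agent.Lib.H46P.F1

/-!
# Chunk F2: norms and patterns of the derivatives `D1, D2, D3`

`Inj` of `D2`: by `inj_succ_iff` contract the first leg with a vector `x`, use `dl_sum`, `dl_smul` to
write `∑ x_k D2 T (k :: L) = dl (fun I => ∑ x_k D1 T (k :: I)) L`, and `inj_dl`.  Same for `D3` (twice).
Here `d` is the degree of `T` and the derivatives keep the total number of legs `d`.
-/

namespace Pool.Agent.H46P

open Finset
open scoped BigOperators ComplexConjugate InnerProductSpace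

variable {m : ℕ}

theorem f2_tail {n : ℕ} {T : List (Lt m) → ℂ} (h : Pat 1 n T) (k : Lt m) {J : List (Lt m)} (hJ : J.length = n)
    (hne : T (k :: J) ≠ 0) : k.2 = true ∧ J.map Prod.snd = List.replicate n false := by
  have h1 := h (k :: J) (by rw [List.length_cons, hJ]; omega) hne
  rw [List.map_cons, List.replicate_one, List.singleton_append, List.cons.injEq] at h1
  exact h1

theorem f2_neg {n : ℕ} {T : List (Lt m) → ℂ} {c : ℝ} (hT : Inj n T c) : Inj n (fun I => - T I) c := by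
  have h := inj_smul (-1 : ℂ) hT
  rw [norm_neg, norm_one, one_mul] at h
  exact inj_congr (fun I _ => by ring) h

theorem inj_D1 {d : ℕ} (hd : 1 ≤ d) {T : List (Lt m) → ℂ} {c : ℝ} (hc : 0 ≤ c)
    (hT : Inj d T c) : Inj d (D1 T) (d * c) := by
  obtain ⟨n, rfl⟩ : ∃ n, d = n + 1 := ⟨d - 1, by omega⟩
  have h := f2_neg (inj_dl hT)
  push_cast
  exact h

theorem inj_D2 {d : ℕ} (hd : 2 ≤ d) {T : List (Lt m) → ℂ} {c : ℝ} (hc : 0 ≤ c)
    (hT : Inj d T c) : Inj d (D2 T) (d ^ 2 * c) := by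
  obtain ⟨n, rfl⟩ : ∃ n, d = n + 2 := ⟨d - 2, by omega⟩
  have h1 := inj_D1 (d := n + 1 + 1) (by omega) hc hT
  show Inj (n + 1 + 1) _ _
  rw [inj_succ_iff]
  intro x
  have h2 := inj_succ_iff.1 h1 x
  have h3 := inj_dl h2
  have h4 := nrm_nonneg x
  refine inj_mono (inj_congr ?_ h3) ?_
  · intro I _
    rw [dl_sum]
    refine Finset.sum_congr rfl fun k _ => ?_
    rw [dl_smul]
    rfl
  · push_cast
    have h5 : (0 : ℝ) ≤ n := Nat.cast_nonneg n
    have h6 : 0 ≤ c * nrm x := mul_nonneg hc h4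
    have h7 : ((n : ℝ) + 1) * ((n + 1 + 1) * c * nrm x) ≤ ((n : ℝ) + 1 + 1) * ((n + 1 + 1) * c * nrm x) := by
      apply mul_le_mul_of_nonneg_right (by linarith)
      have : 0 ≤ ((n : ℝ) + 1 + 1) * (c * nrm x) := by positivity
      linarith
    refine h7.trans (le_of_eq ?_)
    ring

theorem inj_D3 {d : ℕ} (hd : 3 ≤ d) {T : List (Lt m) → ℂ} {c : ℝ} (hc : 0 ≤ c)
    (hT : Inj d T c) : Inj d (D3 T) (d ^ 3 * c) := by
  obtain ⟨n, rfl⟩ : ∃ n, d = n + 3 := ⟨d - 3, by omega⟩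
  have h1 := inj_D2 (d := n + 1 + 1 + 1) (by omega) hc hT
  show Inj (n + 1 + 1 + 1) _ _
  rw [inj_succ_iff]
  intro x
  rw [inj_succ_iff]
  intro y
  have h2 := inj_succ_iff.1 (inj_succ_iff.1 h1 x) y
  have h3 := f2_neg (inj_dl h2)
  have h4 := nrm_nonneg x
  have h4' := nrm_nonneg y
  refine inj_mono (inj_congr ?_ h3) ?_
  · intro I _
    rw [dl_sum, ← Finset.sum_neg_distrib]
    refine Finset.sum_congr rfl fun k' _ => ?_
    rw [dl_smul, dl_sum, ← mul_neg, ← Finset.sum_neg_distrib]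
    congr 1
    refine Finset.sum_congr rfl fun k _ => ?_
    rw [dl_smul, ← mul_neg]
    rfl
  · push_cast
    have h5 : (0 : ℝ) ≤ n := Nat.cast_nonneg n
    have h6 : 0 ≤ ((n : ℝ) + 1 + 1 + 1) ^ 2 * c * nrm x * nrm y := by positivity
    have h7 : ((n : ℝ) + 1) * (((n : ℝ) + 1 + 1 + 1) ^ 2 * c * nrm x * nrm y) ≤
        ((n : ℝ) + 1 + 1 + 1) * (((n : ℝ) + 1 + 1 + 1) ^ 2 * c * nrm x * nrm y) :=
      mul_le_mul_of_nonneg_right (by linarith) h6
    refine h7.trans (le_of_eq ?_)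
    ring

theorem pat_D1 {n : ℕ} {T : List (Lt m) → ℂ} (h : Pat 0 (n + 1) T) (k : Lt m) :
    Pat 0 n (fun J => D1 T (k :: J)) := by
  intro J hJ hne
  rw [zero_add] at hJ
  have h1 : dl T (k :: J) ≠ 0 := fun h0 => hne (by
    show - dl T (k :: J) = 0
    rw [h0, neg_zero])
  rw [List.replicate_zero, List.nil_append]
  exact (f2_tail (pat_dl h) k hJ h1).2

theorem D1_eq_zero {n : ℕ} {T : List (Lt m) → ℂ} (h : Pat 0 (n + 1) T) (i : Fin m)
    (J : List (Lt m)) (hJ : J.length = n) : D1 T ((i, false) :: J) = 0 := by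
  show - dl T ((i, false) :: J) = 0
  rw [neg_eq_zero]
  by_contra h0
  have h1 := (f2_tail (pat_dl h) (i, false) hJ h0).1
  exact Bool.noConfusion h1

theorem pat_D2 {n : ℕ} {T : List (Lt m) → ℂ} (h : Pat 0 (n + 2) T) (k k' : Lt m) :
    Pat 0 n (fun J => D2 T (k :: k' :: J)) := by
  intro J hJ hne
  rw [zero_add] at hJ
  rw [List.replicate_zero, List.nil_append]
  exact (f2_tail (pat_dl (pat_D1 (n := n + 1) h k)) k' hJ hne).2

theorem pat_D3 {n : ℕ} {T : List (Lt m) → ℂ} (h : Pat 0 (n + 3) T) (k k' k'' : Lt m) :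
    Pat 0 n (fun J => D3 T (k :: k' :: k'' :: J)) := by
  intro J hJ hne
  rw [zero_add] at hJ
  have h1 : dl (fun I => D2 T (k :: k' :: I)) (k'' :: J) ≠ 0 := fun h0 => hne (by
    show - dl (fun I => D2 T (k :: k' :: I)) (k'' :: J) = 0
    rw [h0, neg_zero])
  rw [List.replicate_zero, List.nil_append]
  exact (f2_tail (pat_dl (pat_D2 (n := n + 1) h k k')) k'' hJ h1).2

end Pool.Agent.H46P
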