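import Pool.Agent.Lib.H46P.F2

/-!
# Chunk F3: the commutation relations of `W, D_k, D_{kk'}, D_{kk'k''}`

From `op_dl` (parity: `x.d` even, `x.d - 1` odd, `x.d - 2` even) and `ann_comm`; sums over the list `l`
(`List.sum_map_mul_left`, ...).  `w_comm_d`: `ann_comm` with `a = x.d` even.
`d_anti`: `ann_comm` with both degrees odd.  For `x.d = 2` the word of degree `0` is a scalar.
-/

namespace Pool.Agent.H46P

open Finset
open scoped BigOperators ComplexConjugate InnerProductSpace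

variable {m : ℕ}

section sums

variable {R α β : Type*} [Ring R]

theorem f3_comm (l : List α) (f g : α → R) (a : R) (h : ∀ x ∈ l, f x * a - a * f x = g x) :
    (l.map f).sum * a - a * (l.map f).sum = (l.map g).sum := by
  induction l with
  | nil => simp
  | cons x l ih =>
    have h1 := h x (List.mem_cons_self ..)
    have h2 := ih fun y hy => h y (List.mem_cons_of_mem _ hy)
    rw [List.map_cons, List.sum_cons, List.map_cons, List.sum_cons, ← h1, ← h2, add_mul, mul_add]
    abel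

theorem f3_anti (l : List α) (f g : α → R) (a : R) (h : ∀ x ∈ l, f x * a + a * f x = g x) :
    (l.map f).sum * a + a * (l.map f).sum = (l.map g).sum := by
  induction l with
  | nil => simp
  | cons x l ih =>
    have h1 := h x (List.mem_cons_self ..)
    have h2 := ih fun y hy => h y (List.mem_cons_of_mem _ hy)
    rw [List.map_cons, List.sum_cons, List.map_cons, List.sum_cons, ← h1, ← h2, add_mul, mul_add]
    abel

theorem f3_commute (l : List α) (l' : List β) (f : α → R) (g : β → R) (h : ∀ x ∈ l, ∀ y ∈ l', f x * g y = g y * f x) :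
    (l.map f).sum * (l'.map g).sum = (l'.map g).sum * (l.map f).sum := by
  have h1 : ∀ x ∈ l, f x * (l'.map g).sum = (l'.map g).sum * f x := by
    intro x hx
    have h2 := f3_comm l' g (fun _ => (0 : R)) (f x) (fun y hy => by rw [h x hx y hy, sub_self])
    simp only [List.map_const', List.sum_replicate, smul_zero] at h2
    exact (sub_eq_zero.1 h2).symm
  have h3 := f3_comm l f (fun _ => (0 : R)) ((l'.map g).sum) (fun x hx => by rw [h1 x hx, sub_self])
  simp only [List.map_const', List.sum_replicate, smul_zero] at h3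
  exact sub_eq_zero.1 h3

theorem f3_anticomm (l : List α) (l' : List β) (f : α → R) (g : β → R) (h : ∀ x ∈ l, ∀ y ∈ l', f x * g y = - (g y * f x)) :
    (l.map f).sum * (l'.map g).sum = - ((l'.map g).sum * (l.map f).sum) := by
  have h1 : ∀ x ∈ l, f x * (l'.map g).sum = - ((l'.map g).sum * f x) := by
    intro x hx
    have h2 := f3_anti l' g (fun _ => (0 : R)) (f x) (fun y hy => by rw [h x hx y hy, add_neg_cancel])
    simp only [List.map_const', List.sum_replicate, smul_zero] at h2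
    exact eq_neg_of_add_eq_zero_right h2
  have h3 := f3_anti l f (fun _ => (0 : R)) ((l'.map g).sum) (fun x hx => by rw [h1 x hx, neg_add_cancel])
  simp only [List.map_const', List.sum_replicate, smul_zero] at h3
  exact eq_neg_of_add_eq_zero_left h3

end sums

theorem f3_ns (a : ℂ) (z : Fk m →L[ℂ] Fk m) : (-a) • z = - (a • z) := by
  ext v S
  simp

theorem f3_op_zero {n : ℕ} {T : List (Lt m) → ℂ} (h : ∀ J : List (Lt m), J.length = n → T J = 0) : op fA n T = 0 := by
  have h1 : op fA n T = op (fA (m := m)) n (fun I => (0 : ℂ) * T I) :=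
    op_congr fA n fun J hJ => by rw [h J hJ, mul_zero]
  rw [h1, op_smul, zero_smul]

theorem f3_neg (n : ℕ) (T : List (Lt m) → ℂ) : op fA n (fun I => - T I) = - op fA n T := by
  have h1 : op fA n (fun I => - T I) = op (fA (m := m)) n (fun I => (-1 : ℂ) * T I) :=
    op_congr fA n fun J _ => by ring
  rw [h1, op_smul, _root_.neg_smul, one_smul]

/-- `x.d = n + 2`, with `n` even -/
theorem f3_d {x : An m} (hx : x.ok) : ∃ n : ℕ, x.d = n + 2 ∧ Even n := by
  obtain ⟨h1, h2, _⟩ := hx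
  refine ⟨x.d - 2, by omega, ?_⟩
  obtain ⟨r, hr⟩ := h1
  exact ⟨r - 1, by omega⟩

theorem w_comm (l : List (An m)) (hl : ∀ x ∈ l, x.ok) (k : Lt m) :
    WW l * fA k - fA k * WW l = DW l k := by
  unfold WW DW
  refine f3_comm l An.o _ (fA k) fun x hx => ?_
  obtain ⟨n, hn, he⟩ := f3_d (hl x hx)
  have h1 := op_dl (n + 1) x.T k
  have h2 : (-1 : ℂ) ^ (n + 1 + 1) = 1 := Even.neg_one_pow (by
    obtain ⟨r, hr⟩ := he
    exact ⟨r + 1, by omega⟩)
  rw [h2, one_smul] at h1
  unfold An.o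
  rw [hn]
  show op fA (n + 1 + 1) x.T * fA k - fA k * op fA (n + 1 + 1) x.T = op fA (n + 1) (fun J => - dl x.T (k :: J))
  rw [h1, f3_neg]
  abel

theorem w_comm_d (l l' : List (An m)) (hl : ∀ x ∈ l, x.ok) (hl' : ∀ x ∈ l', x.ok) (k : Lt m) :
    WW l * DW l' k = DW l' k * WW l := by
  unfold WW DW
  refine f3_commute l l' An.o _ fun x hx y hy => ?_
  obtain ⟨n, hn, he⟩ := f3_d (hl x hx)
  obtain ⟨n', hn', he'⟩ := f3_d (hl' y hy)
  have hT := (hl x hx).2.2.2.2
  have hS := (hl' y hy).2.2.2.2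
  rw [hn'] at hS
  have h1 := ann_comm hT (pat_D1 (n := n' + 1) hS k)
  have h2 : (-1 : ℂ) ^ (x.d * (n' + 1)) = 1 := Even.neg_one_pow (Even.mul_right (hl x hx).1 _)
  rw [h2, one_smul] at h1
  rw [hn']
  exact h1

theorem dw_ann (l : List (An m)) (hl : ∀ x ∈ l, x.ok) (i : Fin m) : DW l (i, false) = 0 := by
  unfold DW
  apply List.sum_eq_zero
  intro z hz
  obtain ⟨x, hx, rfl⟩ := List.mem_map.1 hz
  obtain ⟨n, hn, he⟩ := f3_d (hl x hx)
  have hT := (hl x hx).2.2.2.2
  rw [hn] at hT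
  rw [hn]
  exact f3_op_zero fun J hJ => D1_eq_zero (n := n + 1) hT i J hJ

theorem d_anti (l : List (An m)) (hl : ∀ x ∈ l, x.ok) (k k' : Lt m) :
    DW l k * DW l k' = - (DW l k' * DW l k) := by
  unfold DW
  refine f3_anticomm l l _ _ fun x hx y hy => ?_
  obtain ⟨n, hn, he⟩ := f3_d (hl x hx)
  obtain ⟨n', hn', he'⟩ := f3_d (hl y hy)
  have hT := (hl x hx).2.2.2.2
  have hS := (hl y hy).2.2.2.2
  rw [hn] at hT
  rw [hn'] at hS
  have h1 := ann_comm (pat_D1 (n := n + 1) hT k) (pat_D1 (n := n' + 1) hS k')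
  have h2 : (-1 : ℂ) ^ ((n + 1) * (n' + 1)) = -1 := Odd.neg_one_pow (Odd.mul he.add_one he'.add_one)
  rw [h2, f3_ns, one_smul] at h1
  rw [hn, hn']
  exact h1

theorem d_cre (l : List (An m)) (hl : ∀ x ∈ l, x.ok) (k k' : Lt m) :
    DW l k * fA k' + fA k' * DW l k = DW2 l k k' := by
  unfold DW DW2
  refine f3_anti l _ _ (fA k') fun x hx => ?_
  obtain ⟨n, hn, he⟩ := f3_d (hl x hx)
  have h1 := op_dl n (fun J => D1 x.T (k :: J)) k'
  have h2 : (-1 : ℂ) ^ (n + 1) = -1 := Odd.neg_one_pow he.add_one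
  rw [h2, f3_ns, one_smul] at h1
  rw [hn]
  show op fA (n + 1) (fun J => D1 x.T (k :: J)) * fA k' + fA k' * op fA (n + 1) (fun J => D1 x.T (k :: J)) =
    op fA n (fun J => dl (fun I => D1 x.T (k :: I)) (k' :: J))
  rw [h1]
  abel

theorem d2_cre (l : List (An m)) (hl : ∀ x ∈ l, x.ok) (k k' k'' : Lt m) :
    DW2 l k k' * fA k'' - fA k'' * DW2 l k k' = DW3 l k k' k'' := by
  unfold DW2 DW3
  refine f3_comm l _ _ (fA k'') fun x hx => ?_
  obtain ⟨n, hn, he⟩ := f3_d (hl x hx)
  rw [hn]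
  show op fA n (fun J => D2 x.T (k :: k' :: J)) * fA k'' - fA k'' * op fA n (fun J => D2 x.T (k :: k' :: J)) = _
  by_cases h0 : n = 0
  · subst h0
    rw [if_pos rfl, op_zero]
    exact sub_eq_zero.2 (Algebra.commutes _ _)
  · obtain ⟨p, rfl⟩ : ∃ p, n = p + 1 := ⟨n - 1, by omega⟩
    rw [if_neg (by omega)]
    have h1 := op_dl p (fun J => D2 x.T (k :: k' :: J)) k''
    rw [he.neg_one_pow, one_smul] at h1
    show _ = op fA p (fun J => - dl (fun I => D2 x.T (k :: k' :: I)) (k'' :: J))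
    rw [h1, f3_neg]
    abel

theorem d2_comm (l : List (An m)) (hl : ∀ x ∈ l, x.ok) (k k' k'' : Lt m) :
    DW2 l k k' * DW l k'' = DW l k'' * DW2 l k k' := by
  unfold DW2 DW
  refine f3_commute l l _ _ fun x hx y hy => ?_
  obtain ⟨n, hn, he⟩ := f3_d (hl x hx)
  obtain ⟨n', hn', he'⟩ := f3_d (hl y hy)
  have hT := (hl x hx).2.2.2.2
  have hS := (hl y hy).2.2.2.2
  rw [hn] at hT
  rw [hn'] at hS
  have h1 := ann_comm (pat_D2 hT k k') (pat_D1 (n := n' + 1) hS k'')
  have h2 : (-1 : ℂ) ^ (n * (n' + 1)) = 1 := Even.neg_one_pow (Even.mul_right he _)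
  rw [h2, one_smul] at h1
  rw [hn, hn']
  exact h1

theorem num_w (l : List (An m)) (hl : ∀ x ∈ l, x.ok) :
    Num * WW l - WW l * Num = - (l.map fun x => (x.d : ℂ) • x.o).sum := by
  have h1 : ∀ x ∈ l, x.o * Num - Num * x.o = (x.d : ℂ) • x.o := by
    intro x hx
    have hT := (hl x hx).2.2.2.2
    have h2 := num_word hT
    rw [zero_add, Nat.cast_zero, zero_sub, f3_ns] at h2
    unfold An.o
    rw [← neg_sub, h2, neg_neg]
  have h3 := f3_comm l An.o (fun x => (x.d : ℂ) • x.o) Num h1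
  unfold WW
  rw [← h3]
  abel

theorem w_vac (l : List (An m)) (hl : ∀ x ∈ l, x.ok) : WW l vac = 0 := by
  unfold WW
  induction l with
  | nil => simp
  | cons x l ih =>
    rw [List.map_cons, List.sum_cons, add_apply, ih fun y hy => hl y (List.mem_cons_of_mem _ hy), add_zero]
    have hx := hl x (List.mem_cons_self ..)
    have h1 := word_vac hx.2.2.2.2 (le_trans one_le_two hx.2.1)
    rw [zero_add] at h1
    exact h1

end Pool.Agent.H46P
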