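import Pool.Agent.Lib.H46P.F3

/-!
# Chunk F4: conjugation by the exponential

`exp_conj`: in a Banach algebra, if `W A - A W = D` and `W D = D W` then `A exp W = exp W (A - D)`:
by induction `A W^n = W^n A - n W^(n-1) D`, i.e. `A (W^n/n!) = (W^n/n!) A - (W^(n-1)/(n-1)!) D`; sum
(`NormedSpace.exp_eq_tsum`, `NormedSpace.expSeries_summable'`).
`conj_A`, `conj_num`: multiply by `exp (-W)` on the left (`NormedSpace.exp_neg`,
`exp (-W) * exp W = 1`).  For `Num`: `W Num - Num W = D := ∑ d • x.o`, which commutes with `W`.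
`exp_vac`: `W vac = 0`.
-/

namespace Pool.Agent.H46P

open Finset
open scoped BigOperators ComplexConjugate InnerProductSpace

theorem f4_pow {R : Type*} [Ring R] {W A D : R}
    (h : W * A - A * W = D) (h2 : W * D = D * W) (n : ℕ) :
    A * W ^ (n + 1) = W ^ (n + 1) * A - ((n : ℕ) + 1 : R) * (W ^ n * D) := by
  have h0 : A * W = W * A - D := by rw [← h]; abel
  induction n with
  | zero => simp [h0]
  | succ n ih =>
    have h3 : W ^ n * D * W = W ^ (n + 1) * D := by
      rw [mul_assoc, ← h2, ← mul_assoc, ← pow_succ]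
    have h4 : ((n : R) + 1) * (W ^ n * D) * W = ((n : R) + 1) * (W ^ (n + 1) * D) := by
      rw [mul_assoc, h3]
    rw [pow_succ, ← mul_assoc, ih, sub_mul, h4, mul_assoc (W ^ (n + 1)), h0, mul_sub, ← mul_assoc,
      ← pow_succ]
    push_cast
    noncomm_ring

theorem exp_conj {R : Type*} [NormedRing R] [NormedAlgebra ℂ R] [CompleteSpace R] {W A D : R}
    (h : W * A - A * W = D) (h2 : W * D = D * W) :
    A * NormedSpace.exp W = NormedSpace.exp W * (A - D) := by
  have hs := NormedSpace.exp_series_hasSum_exp' (𝕂 := ℂ) W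
  have h3 := hs.mul_left A
  have h4 := hs.mul_right A
  have h5 := hs.mul_right D
  let g : ℕ → R := fun n => if n = 0 then 0 else
    (((n - 1).factorial : ℂ)⁻¹ • W ^ (n - 1)) * D
  have h6 : HasSum g (NormedSpace.exp W * D) := by
    have h7 : HasSum (fun n => g (n + 1)) (NormedSpace.exp W * D) := by
      refine h5.congr_fun ?_
      intro n
      simp [g]
    have h8 := (hasSum_nat_add_iff 1).1 h7
    simpa [g] using h8
  have h7 := h4.sub h6
  rw [mul_sub]
  refine h3.unique (h7.congr_fun ?_)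
  intro n
  rcases n with _ | n
  · simp [g]
  · have h8 : g (n + 1) = (((n.factorial : ℂ))⁻¹ • W ^ n) * D := by simp [g]
    rw [h8, mul_smul_comm, f4_pow h h2, smul_sub, smul_mul_assoc, smul_mul_assoc]
    congr 1
    have h9 : (((n : R) + 1) * (W ^ n * D)) = ((n : ℂ) + 1) • (W ^ n * D) := by
      rw [add_smul, one_smul, add_mul, one_mul, Nat.cast_smul_eq_nsmul, nsmul_eq_mul]
    rw [h9, smul_smul]
    congr 1
    rw [Nat.factorial_succ]
    push_cast
    have h10 : (n.factorial : ℂ) ≠ 0 := by exact_mod_cast n.factorial_ne_zero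
    have h11 : ((n : ℂ) + 1) ≠ 0 := by exact_mod_cast Nat.succ_ne_zero n
    field_simp

variable {m : ℕ}

/-- `exp W` -/
noncomputable def EW (l : List (An m)) : Fk m →L[ℂ] Fk m := NormedSpace.exp (WW l)

/-- `exp (-W)` -/
noncomputable def EWi (l : List (An m)) : Fk m →L[ℂ] Fk m := NormedSpace.exp (-WW l)

theorem f4_inv (X : Fk m →L[ℂ] Fk m) :
    NormedSpace.exp (-X) * NormedSpace.exp X = 1 := by
  letI : NormedAlgebra ℚ (Fk m →L[ℂ] Fk m) := NormedAlgebra.restrictScalars ℚ ℂ _
  have h : Commute (-X) X := (Commute.refl X).neg_left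
  rw [← NormedSpace.exp_add_of_commute h, neg_add_cancel, NormedSpace.exp_zero]

theorem ew_inv (l : List (An m)) : EWi l * EW l = 1 ∧ EW l * EWi l = 1 := by
  refine ⟨f4_inv (WW l), ?_⟩
  have h := f4_inv (-WW l)
  rw [neg_neg] at h
  exact h

theorem f4_conj (l : List (An m)) {A D : Fk m →L[ℂ] Fk m} (h : WW l * A - A * WW l = D)
    (h2 : WW l * D = D * WW l) : EWi l * A * EW l = A - D := by
  have h3 : A * EW l = EW l * (A - D) := exp_conj h h2
  rw [mul_assoc, h3, ← mul_assoc, (ew_inv l).1, one_mul]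

theorem conj_A (l : List (An m)) (hl : ∀ x ∈ l, x.ok) (k : Lt m) :
    EWi l * fA k * EW l = fA k - DW l k :=
  f4_conj l (w_comm l hl k) (w_comm_d l l hl hl k)

theorem f4_comm {x y : An m} (hx : x.ok) (hy : y.ok) : Commute x.o y.o := by
  have h := ann_comm hx.2.2.2.2 hy.2.2.2.2
  rw [Even.neg_one_pow (hx.1.mul_right _), one_smul] at h
  exact h

theorem f4_comm_W (l : List (An m)) (hl : ∀ x ∈ l, x.ok) {x : An m} (hx : x.ok) :
    Commute x.o (WW l) := by
  unfold WW
  refine Commute.list_sum_right _ _ ?_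
  intro b hb
  rw [List.mem_map] at hb
  obtain ⟨y, hy, rfl⟩ := hb
  exact f4_comm hx (hl y hy)

theorem conj_num (l : List (An m)) (hl : ∀ x ∈ l, x.ok) :
    EWi l * Num * EW l = Num - (l.map fun x => (x.d : ℂ) • x.o).sum := by
  refine f4_conj l ?_ ?_
  · have h := num_w l hl
    rw [← neg_sub, h, neg_neg]
  · have h : Commute (WW l) (l.map fun x => (x.d : ℂ) • x.o).sum := by
      refine Commute.list_sum_right _ _ ?_
      intro b hb
      rw [List.mem_map] at hb
      obtain ⟨x, hx, rfl⟩ := hb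
      exact ((f4_comm_W l hl (hl x hx)).symm).smul_right _
    exact h

theorem f4_vac {X : Fk m →L[ℂ] Fk m} (h : X vac = 0) : NormedSpace.exp X vac = vac := by
  have hs := NormedSpace.exp_series_hasSum_exp' (𝕂 := ℂ) X
  have h1 := hs.mapL (ContinuousLinearMap.apply ℂ (Fk m) vac)
  have h2 : HasSum (fun n : ℕ => (ContinuousLinearMap.apply ℂ (Fk m) vac)
      (((n.factorial : ℂ)⁻¹) • X ^ n)) vac := by
    have h3 : (ContinuousLinearMap.apply ℂ (Fk m) vac) ((((0 : ℕ).factorial : ℂ)⁻¹) • X ^ 0) = vac := by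
      simp
    conv => arg 2; rw [← h3]
    refine hasSum_single 0 ?_
    intro n hn
    obtain ⟨k, rfl⟩ := Nat.exists_eq_succ_of_ne_zero hn
    have h4 : (X ^ (k + 1)) vac = 0 := by
      rw [pow_succ, ContinuousLinearMap.mul_apply, h, map_zero]
    simp only [ContinuousLinearMap.apply_apply, ContinuousLinearMap.smul_apply, Nat.succ_eq_add_one,
      h4, smul_zero]
  exact h1.unique h2

theorem ew_vac (l : List (An m)) (hl : ∀ x ∈ l, x.ok) :
    EW l vac = vac ∧ EWi l vac = vac := by
  have h := w_vac l hl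
  refine ⟨f4_vac h, f4_vac ?_⟩
  rw [ContinuousLinearMap.neg_apply, h, neg_zero]

end Pool.Agent.H46P
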