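import Mathlib

/-!
# Chunk F5: normal ordering, pure algebra (section 7 of `PROOF.md`; checked numerically)

Expand `(A i - D i) (A j - D j) (A k - D k)`; move every `D` to the right of every `A`:
`D_i A_j = - A_j D_i + D2 i j`, `D2 i j A_k = A_k D2 i j + D3 i j k`, giving the 15 terms
`A1A2A3 - A1A2D3 + A1A3D2 - A1 D23 + A1D2D3 - A2A3D1 + A2 D13 - A3 D12 - D123 - A2D1D3 + D12 D3
+ A3D1D2 - D13 D2 + D1 D23 - D1D2D3`; summed against `U` (antisymmetric) they group to the seven of
the statement: relabel the summation indices (`Finset.sum_comm`) and use `h12, h23`.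
-/

namespace Pool.Agent.H46P

open Finset
open scoped BigOperators

/-- the triple sum against `U` -/
noncomputable def f5S {ν R : Type*} [Fintype ν] [Ring R] [Algebra ℂ R] (U : ν → ν → ν → ℂ)
    (f : ν → ν → ν → R) : R := ∑ i, ∑ j, ∑ k, U i j k • f i j k

section

variable {ν R : Type*} [Fintype ν] [Ring R] [Algebra ℂ R] (U : ν → ν → ν → ℂ)

theorem f5_add (f g : ν → ν → ν → R) :
    f5S U (fun i j k => f i j k + g i j k) = f5S U f + f5S U g := by
  unfold f5S
  simp only [smul_add, sum_add_distrib]

theorem f5_sub (f g : ν → ν → ν → R) :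
    f5S U (fun i j k => f i j k - g i j k) = f5S U f - f5S U g := by
  unfold f5S
  simp only [smul_sub, sum_sub_distrib]

theorem f5_smul (c : ℂ) (f : ν → ν → ν → R) :
    f5S U (fun i j k => c • f i j k) = c • f5S U f := by
  unfold f5S
  simp only [smul_sum]
  refine sum_congr rfl fun i _ => sum_congr rfl fun j _ => sum_congr rfl fun k _ => ?_
  rw [smul_comm]

theorem f5_12 (h12 : ∀ i j k, U j i k = - U i j k) (f : ν → ν → ν → R) :
    f5S U (fun i j k => f j i k) = - f5S U f := by
  unfold f5S
  rw [sum_comm, ← sum_neg_distrib]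
  refine sum_congr rfl fun i _ => ?_
  rw [← sum_neg_distrib]
  refine sum_congr rfl fun j _ => ?_
  rw [← sum_neg_distrib]
  refine sum_congr rfl fun k _ => ?_
  rw [h12, neg_smul]

theorem f5_23 (h23 : ∀ i j k, U i k j = - U i j k) (f : ν → ν → ν → R) :
    f5S U (fun i j k => f i k j) = - f5S U f := by
  unfold f5S
  rw [← sum_neg_distrib]
  refine sum_congr rfl fun i _ => ?_
  rw [sum_comm, ← sum_neg_distrib]
  refine sum_congr rfl fun j _ => ?_
  rw [← sum_neg_distrib]
  refine sum_congr rfl fun k _ => ?_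
  rw [h23, neg_smul]

end

theorem normal_order {ν R : Type*} [Fintype ν] [Ring R] [Algebra ℂ R] (A D : ν → R)
    (D2 : ν → ν → R) (D3 : ν → ν → ν → R) (U : ν → ν → ν → ℂ)
    (h12 : ∀ i j k, U j i k = - U i j k) (h23 : ∀ i j k, U i k j = - U i j k)
    (hA : ∀ i j, A i * A j = - (A j * A i)) (hD : ∀ i j, D i * D j = - (D j * D i))
    (hDA : ∀ i j, D i * A j + A j * D i = D2 i j)
    (hD2 : ∀ i j k, D2 i j * A k - A k * D2 i j = D3 i j k)
    (hc : ∀ i j k, D2 i j * D k = D k * D2 i j) :
    ∑ i, ∑ j, ∑ k, U i j k • ((A i - D i) * (A j - D j) * (A k - D k)) =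
      ∑ i, ∑ j, ∑ k, U i j k • (A i * A j * A k - (3 : ℂ) • (A i * A j * D k) -
        (3 : ℂ) • (A i * D2 j k) + (3 : ℂ) • (A i * D j * D k) - D3 i j k +
        (3 : ℂ) • (D2 i j * D k) - D i * D j * D k) := by
  have e1 : ∀ i j, D i * A j = D2 i j - A j * D i := by
    intro i j
    rw [← hDA i j]
    abel
  have e2 : ∀ i j k, D2 i j * A k = A k * D2 i j + D3 i j k := by
    intro i j k
    rw [← hD2 i j k]
    abel
  have hP : ∀ i j k, (A i - D i) * (A j - D j) * (A k - D k) =
      A i * A j * A k - A i * A j * D k - A i * D2 j k + A i * A k * D j + A i * D j * D k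
        - A k * D2 i j - D3 i j k + A j * D2 i k - A j * A k * D i + D2 i j * D k
        - A j * D i * D k + D2 j k * D i - D2 i k * D j + A k * D i * D j - D i * D j * D k := by
    intro i j k
    have t1 : A i * D j * A k = A i * D2 j k - A i * A k * D j := by
      rw [mul_assoc, e1, mul_sub, mul_assoc]
    have t2 : D i * A j * A k = A k * D2 i j + D3 i j k - A j * D2 i k + A j * A k * D i := by
      rw [e1, sub_mul, e2, mul_assoc (A j) (D i), e1 i k, mul_sub, mul_assoc (A j) (A k)]
      abel
    have t3 : D i * A j * D k = D2 i j * D k - A j * D i * D k := by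
      rw [e1, sub_mul]
    have t4 : D i * D j * A k = D2 j k * D i - D2 i k * D j + A k * D i * D j := by
      rw [mul_assoc, e1, mul_sub, ← hc, ← mul_assoc, e1 i k, sub_mul]
      abel
    calc (A i - D i) * (A j - D j) * (A k - D k)
        = A i * A j * A k - A i * A j * D k - A i * D j * A k + A i * D j * D k
          - D i * A j * A k + D i * A j * D k + D i * D j * A k - D i * D j * D k := by
          noncomm_ring
      _ = _ := by
          rw [t1, t2, t3, t4]
          abel
  have hL : ∑ i, ∑ j, ∑ k, U i j k • ((A i - D i) * (A j - D j) * (A k - D k)) =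
      f5S U (fun i j k => A i * A j * A k - A i * A j * D k - A i * D2 j k + A i * A k * D j
        + A i * D j * D k
        - A k * D2 i j - D3 i j k + A j * D2 i k - A j * A k * D i + D2 i j * D k
        - A j * D i * D k + D2 j k * D i - D2 i k * D j + A k * D i * D j
        - D i * D j * D k) := by
    unfold f5S
    refine sum_congr rfl fun i _ => sum_congr rfl fun j _ => sum_congr rfl fun k _ => ?_
    rw [hP]
  have hR : ∑ i, ∑ j, ∑ k, U i j k • (A i * A j * A k - (3 : ℂ) • (A i * A j * D k) -
        (3 : ℂ) • (A i * D2 j k) + (3 : ℂ) • (A i * D j * D k) - D3 i j k +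
        (3 : ℂ) • (D2 i j * D k) - D i * D j * D k) =
      f5S U (fun i j k => A i * A j * A k - (3 : ℂ) • (A i * A j * D k) -
        (3 : ℂ) • (A i * D2 j k) + (3 : ℂ) • (A i * D j * D k) - D3 i j k +
        (3 : ℂ) • (D2 i j * D k) - D i * D j * D k) := rfl
  rw [hL, hR]
  simp only [f5_add, f5_sub, f5_smul]
  have a1 : f5S U (fun i j k => A i * A k * D j) = - f5S U (fun i j k => A i * A j * D k) :=
    f5_23 U h23 (fun i j k => A i * A j * D k)
  have a2 : f5S U (fun i j k => A j * A k * D i) = f5S U (fun i j k => A i * A j * D k) := by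
    have h := f5_12 U h12 (fun i j k => A i * A k * D j)
    rw [a1, neg_neg] at h
    exact h
  have b1 : f5S U (fun i j k => A j * D2 i k) = - f5S U (fun i j k => A i * D2 j k) :=
    f5_12 U h12 (fun i j k => A i * D2 j k)
  have b2 : f5S U (fun i j k => A k * D2 i j) = f5S U (fun i j k => A i * D2 j k) := by
    have h := f5_23 U h23 (fun i j k => A j * D2 i k)
    rw [b1, neg_neg] at h
    exact h
  have c1 : f5S U (fun i j k => A j * D i * D k) = - f5S U (fun i j k => A i * D j * D k) :=
    f5_12 U h12 (fun i j k => A i * D j * D k)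
  have c2 : f5S U (fun i j k => A k * D i * D j) = f5S U (fun i j k => A i * D j * D k) := by
    have h := f5_23 U h23 (fun i j k => A j * D i * D k)
    rw [c1, neg_neg] at h
    exact h
  have d1 : f5S U (fun i j k => D2 i k * D j) = - f5S U (fun i j k => D2 i j * D k) :=
    f5_23 U h23 (fun i j k => D2 i j * D k)
  have d2 : f5S U (fun i j k => D2 j k * D i) = f5S U (fun i j k => D2 i j * D k) := by
    have h := f5_12 U h12 (fun i j k => D2 i k * D j)
    rw [d1, neg_neg] at h
    exact h
  rw [a1, a2, b1, b2, c1, c2, d1, d2]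
  module

end Pool.Agent.H46P
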