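import Pool.Agent.Lib.H46P.F4
import Pool.Agent.Lib.H46P.F5

/-!
# Chunk F6: the conjugated quartic term

`op_four`: `op_succ` four times; only the letters allowed by the pattern contribute.
`conj_U`: insert `EW l * EWi l = 1` between the letters (`conj_A`, `dw_ann`) and `normal_order` for each
fixed annihilation letter `q` (relations: `F3.lean`, `fock_car`).
-/

namespace Pool.Agent.H46P

open Finset
open scoped BigOperators ComplexConjugate InnerProductSpace

variable {m : ℕ}

/-- coefficient `U(i, j, k; q)` -/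
def uc (U : List (Lt m) → ℂ) (i j k q : Fin m) : ℂ :=
  U [(i, true), (j, true), (k, true), (q, false)]

/-- antisymmetry in the three creation legs -/
def AS (U : List (Lt m) → ℂ) : Prop :=
  ∀ i j k q, uc U j i k q = - uc U i j k q ∧ uc U i k j q = - uc U i j k q

theorem f6_zero (n : ℕ) {T : List (Lt m) → ℂ} (h : ∀ I : List (Lt m), I.length = n → T I = 0) :
    op fA n T = 0 := by
  rw [op_congr fA n (S := fun I => (0 : ℂ) * T I) (fun I hI => by rw [h I hI, mul_zero]), op_smul,
    zero_smul]

theorem f6_true {p q : ℕ} {T : List (Lt m) → ℂ} (h : Pat (p + 1) q T) :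
    op fA (p + q + 1) T = ∑ i : Fin m, fA (i, true) * op fA (p + q) (fun I => T ((i, true) :: I)) := by
  rw [op_succ, Fintype.sum_prod_type]
  refine sum_congr rfl fun i _ => ?_
  rw [Fintype.sum_bool, f6_zero (p + q) (pat_head_succ h i).2, mul_zero, add_zero]

theorem f6_false {q : ℕ} {T : List (Lt m) → ℂ} (h : Pat 0 (q + 1) T) :
    op fA (q + 1) T = ∑ i : Fin m, fA (i, false) * op fA q (fun I => T ((i, false) :: I)) := by
  rw [op_succ, Fintype.sum_prod_type]
  refine sum_congr rfl fun i _ => ?_
  rw [Fintype.sum_bool, f6_zero q (pat_head_zero h i).2, mul_zero, zero_add]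

theorem op_four {U : List (Lt m) → ℂ} (hU : Pat 3 1 U) :
    op fA 4 U = ∑ i, ∑ j, ∑ k, ∑ q, uc U i j k q •
      (fA (i, true) * fA (j, true) * fA (k, true) * fA (q, false)) := by
  have h1 := f6_true (p := 2) (q := 1) hU
  rw [show (2 + 1 + 1 : ℕ) = 4 from rfl] at h1
  rw [h1]
  refine sum_congr rfl fun i _ => ?_
  have p1 := (pat_head_succ hU i).1
  have h2 := f6_true (p := 1) (q := 1) p1
  rw [show (2 + 1 : ℕ) = 1 + 1 + 1 from rfl, h2, mul_sum]
  refine sum_congr rfl fun j _ => ?_
  have p2 := (pat_head_succ p1 j).1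
  have h3 := f6_true (p := 0) (q := 1) p2
  rw [show (1 + 1 : ℕ) = 0 + 1 + 1 from rfl, h3, mul_sum, mul_sum]
  refine sum_congr rfl fun k _ => ?_
  have p3 := (pat_head_succ p2 k).1
  have h4 := f6_false (q := 0) p3
  rw [h4, mul_sum, mul_sum, mul_sum]
  refine sum_congr rfl fun q _ => ?_
  rw [op_zero, Algebra.algebraMap_eq_smul_one, mul_smul_comm, mul_smul_comm, mul_smul_comm,
    mul_smul_comm, mul_one, ← mul_assoc, ← mul_assoc]
  rfl

theorem f6_conj_mul (l : List (An m)) (X Y : Fk m →L[ℂ] Fk m) :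
    EWi l * (X * Y) * EW l = (EWi l * X * EW l) * (EWi l * Y * EW l) := by
  have h := (ew_inv l).2
  calc EWi l * (X * Y) * EW l = EWi l * X * 1 * Y * EW l := by rw [mul_one, ← mul_assoc]
    _ = EWi l * X * (EW l * EWi l) * Y * EW l := by rw [h]
    _ = _ := by simp only [mul_assoc]

theorem f6_swap {X : Type*} [AddCommMonoid X] (f : Fin m → Fin m → Fin m → Fin m → X) :
    ∑ i, ∑ j, ∑ k, ∑ q, f i j k q = ∑ q, ∑ i, ∑ j, ∑ k, f i j k q := by
  have h1 : ∀ i j, ∑ k, ∑ q, f i j k q = ∑ q, ∑ k, f i j k q := fun i j => sum_comm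
  have h2 : ∀ i, ∑ j, ∑ q, ∑ k, f i j k q = ∑ q, ∑ j, ∑ k, f i j k q := fun i => sum_comm
  simp only [h1, h2]
  exact sum_comm

theorem f6_AA (k l : Lt m) (h : l ≠ sg k) : fA k * fA l = -(fA l * fA k) := by
  have h1 := (fock_car m).car k l
  rw [if_neg h] at h1
  exact eq_neg_of_add_eq_zero_left h1

theorem conj_U (l : List (An m)) (hl : ∀ x ∈ l, x.ok) {U : List (Lt m) → ℂ} (hU : Pat 3 1 U)
    (hs : AS U) :
    EWi l * op fA 4 U * EW l = ∑ i, ∑ j, ∑ k, ∑ q, uc U i j k q •
      ((fA (i, true) * fA (j, true) * fA (k, true)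
        - (3 : ℂ) • (fA (i, true) * fA (j, true) * DW l (k, true))
        - (3 : ℂ) • (fA (i, true) * DW2 l (j, true) (k, true))
        + (3 : ℂ) • (fA (i, true) * DW l (j, true) * DW l (k, true))
        - DW3 l (i, true) (j, true) (k, true)
        + (3 : ℂ) • (DW2 l (i, true) (j, true) * DW l (k, true))
        - DW l (i, true) * DW l (j, true) * DW l (k, true)) * fA (q, false)) := by
  have key : ∀ q : Fin m, ∑ i, ∑ j, ∑ k, uc U i j k q •
      ((fA (i, true) - DW l (i, true)) * (fA (j, true) - DW l (j, true)) *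
        (fA (k, true) - DW l (k, true))) = ∑ i, ∑ j, ∑ k, uc U i j k q •
      (fA (i, true) * fA (j, true) * fA (k, true)
        - (3 : ℂ) • (fA (i, true) * fA (j, true) * DW l (k, true))
        - (3 : ℂ) • (fA (i, true) * DW2 l (j, true) (k, true))
        + (3 : ℂ) • (fA (i, true) * DW l (j, true) * DW l (k, true))
        - DW3 l (i, true) (j, true) (k, true)
        + (3 : ℂ) • (DW2 l (i, true) (j, true) * DW l (k, true))
        - DW l (i, true) * DW l (j, true) * DW l (k, true)) := by
    intro q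
    refine normal_order (fun i : Fin m => fA (i, true)) (fun i => DW l (i, true))
      (fun i j => DW2 l (i, true) (j, true)) (fun i j k => DW3 l (i, true) (j, true) (k, true))
      (fun i j k => uc U i j k q) (fun i j k => (hs i j k q).1) (fun i j k => (hs i j k q).2)
      ?_ ?_ ?_ ?_ ?_
    · intro i j
      exact f6_AA _ _ (by simp [sg])
    · intro i j
      exact d_anti l hl _ _
    · intro i j
      exact d_cre l hl _ _
    · intro i j k
      exact d2_cre l hl _ _ _
    · intro i j k
      exact d2_comm l hl _ _ _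
  have hterm : ∀ i j k q : Fin m,
      EWi l * (fA (i, true) * fA (j, true) * fA (k, true) * fA (q, false)) * EW l =
      (fA (i, true) - DW l (i, true)) * (fA (j, true) - DW l (j, true)) *
        (fA (k, true) - DW l (k, true)) * fA (q, false) := by
    intro i j k q
    rw [f6_conj_mul, f6_conj_mul, f6_conj_mul, conj_A l hl, conj_A l hl, conj_A l hl, conj_A l hl,
      dw_ann l hl, sub_zero]
  rw [op_four hU]
  simp only [mul_sum, sum_mul, mul_smul_comm, smul_mul_assoc, hterm]
  refine (f6_swap _).trans (Eq.trans ?_ (f6_swap _).symm)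
  refine sum_congr rfl fun q _ => ?_
  have h := congrArg (fun Z => Z * fA (q, false)) (key q)
  simp only [sum_mul, smul_mul_assoc] at h
  exact h

end Pool.Agent.H46P
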