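import Pool.Agent.Lib.H46P.F6
import Pool.Agent.Lib.H46P.A4

/-!
# The pieces of the conjugated quartic term (definitions)

`u` is the bound for the injective norm of `U`, `2 m` the number of letters.
-/

namespace Pool.Agent.H46P

open Finset
open scoped BigOperators ComplexConjugate InnerProductSpace

variable {m : ℕ}

/-- `D_k` of one piece -/
noncomputable def An.D (x : An m) (k : Lt m) : Fk m →L[ℂ] Fk m :=
  op fA (x.d - 1) (fun J => D1 x.T (k :: J))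

/-- `D_{k k'}` of one piece -/
noncomputable def An.DD (x : An m) (k k' : Lt m) : Fk m →L[ℂ] Fk m :=
  op fA (x.d - 2) (fun J => D2 x.T (k :: k' :: J))

/-- `D_{k k' k''}` of one piece -/
noncomputable def An.DDD (x : An m) (k k' k'' : Lt m) : Fk m →L[ℂ] Fk m :=
  if x.d = 2 then 0 else op fA (x.d - 3) (fun J => D3 x.T (k :: k' :: k'' :: J))

/-- `A1 A2 A3` -/
def ps0 (U : List (Lt m) → ℂ) (u : ℝ) : Pc m := ⟨3, 1, U, u⟩

/-- `- 3 A1 A2 D3` -/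
noncomputable def ps2 (U : List (Lt m) → ℂ) (u : ℝ) (x : An m) : Pc m :=
  ⟨2, x.d, fun L => -3 * sb 2 (x.d - 1) U (D1 x.T) L, 3 * u * (x.d * x.c)⟩

/-- `- 3 A1 D23` -/
noncomputable def ps1 (U : List (Lt m) → ℂ) (u : ℝ) (x : An m) : Pc m :=
  ⟨1, x.d - 1, fun L => -3 * ∑ k, sb 1 (x.d - 2) (fx 1 k U) (fun I => D2 x.T (k :: I)) L,
    3 * (2 * m) * u * (x.d ^ 2 * x.c)⟩

/-- `3 A1 D2 D3` -/
noncomputable def ps11 (U : List (Lt m) → ℂ) (u : ℝ) (x y : An m) : Pc m :=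
  ⟨1, x.d + y.d - 1, fun L => 3 * sb 1 (x.d - 1) (sb 2 (y.d - 1) U (D1 y.T)) (D1 x.T) L,
    3 * u * (x.d * x.c) * (y.d * y.c)⟩

/-- `- D123` (for `x.d ≠ 2`) -/
noncomputable def t1 (U : List (Lt m) → ℂ) (u : ℝ) (x : An m) : Pc m :=
  ⟨0, x.d - 2, fun L => - ∑ k, ∑ k', sb 0 (x.d - 3) (fun I => U (k :: k' :: I))
    (fun I => D3 x.T (k :: k' :: I)) L, (2 * m) ^ 2 * u * (x.d ^ 3 * x.c)⟩

/-- `3 D12 D3` -/
noncomputable def t2 (U : List (Lt m) → ℂ) (u : ℝ) (x y : An m) : Pc m :=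
  ⟨0, x.d + y.d - 2, fun L => 3 * ∑ k, sb 0 (x.d - 2)
    (fun I => sb 2 (y.d - 1) U (D1 y.T) (k :: I)) (fun I => D2 x.T (k :: I)) L,
    3 * (2 * m) * u * (x.d ^ 2 * x.c) * (y.d * y.c)⟩

/-- `- D1 D2 D3` -/
noncomputable def t3 (U : List (Lt m) → ℂ) (u : ℝ) (x y z : An m) : Pc m :=
  ⟨0, x.d + y.d + z.d - 2, fun L => - sb 0 (x.d - 1)
    (sb 1 (y.d - 1) (sb 2 (z.d - 1) U (D1 z.T)) (D1 y.T)) (D1 x.T) L,
    u * (x.d * x.c) * (y.d * y.c) * (z.d * z.c)⟩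

/-- hypotheses on `U` -/
def Uok (U : List (Lt m) → ℂ) (u : ℝ) : Prop := 0 ≤ u ∧ Inj 4 U u ∧ Pat 3 1 U ∧ AS U

end Pool.Agent.H46P
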