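import Pool.Agent.Lib.H46P.Defs

/-!
# H46P: the Fock space of `m` modes

`Fk m` has the orthonormal basis `e_S`, `S` a set of modes.  `LA m (i, true)` is the creation operator
of the mode `i`, `LA m (i, false)` its adjoint.
-/

namespace Pool.Agent.H46P

open Finset
open scoped BigOperators ComplexConjugate Matrix

/-- The Fock space of `m` modes. -/
abbrev Fk (m : ℕ) := EuclideanSpace ℂ (Finset (Fin m))

/-- Letters: `(i, true)` creation, `(i, false)` annihilation. -/
abbrev Lt (m : ℕ) := Fin m × Bool

/-- The involution of the letters. -/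
def lsig {m : ℕ} (k : Lt m) : Lt m := (k.1, !k.2)

/-- The sign of inserting the mode `i`. -/
noncomputable def fsgn {m : ℕ} (i : Fin m) (S : Finset (Fin m)) : ℂ :=
  (-1) ^ (S.filter (· < i)).card

/-- The matrix of the creation operator. -/
noncomputable def crM {m : ℕ} (i : Fin m) : Matrix (Finset (Fin m)) (Finset (Fin m)) ℂ := fun S T =>
  if i ∈ S ∧ T = S.erase i then fsgn i S else 0

/-- The creation and annihilation operators. -/
noncomputable def LA (m : ℕ) (k : Lt m) : Fk m →L[ℂ] Fk m :=
  if k.2 then Matrix.toEuclideanCLM (𝕜 := ℂ) (crM k.1)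
  else ContinuousLinearMap.adjoint (Matrix.toEuclideanCLM (𝕜 := ℂ) (crM k.1))

/-- The vacuum. -/
noncomputable def vac (m : ℕ) : Fk m := EuclideanSpace.single ∅ 1

/-- The coefficient of the full set. -/
noncomputable def topc (m : ℕ) : Fk m →L[ℂ] ℂ := EuclideanSpace.proj (𝕜 := ℂ) Finset.univ

lemma fsgn_mul_self {m : ℕ} (k : Fin m) (S : Finset (Fin m)) : fsgn k S * fsgn k S = 1 := by
  rw [fsgn, ← pow_add, ← two_mul, pow_mul]; simp

lemma conj_fsgn {m : ℕ} (k : Fin m) (S : Finset (Fin m)) : star (fsgn k S) = fsgn k S := by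
  simp [fsgn]

lemma fsgn_insert_self {m : ℕ} (k : Fin m) (S : Finset (Fin m)) :
    fsgn k (insert k S) = fsgn k S := by
  rw [fsgn, fsgn, Finset.filter_insert]
  simp

lemma fsgn_erase_self {m : ℕ} (k : Fin m) (S : Finset (Fin m)) :
    fsgn k (S.erase k) = fsgn k S := by
  rw [fsgn, fsgn, Finset.filter_erase, Finset.erase_eq_of_notMem]
  simp

lemma fsgn_insert_lt {m : ℕ} {k l : Fin m} {S : Finset (Fin m)} (hl : l ∉ S) (hlk : l < k) :
    fsgn k (insert l S) = - fsgn k S := by
  rw [fsgn, fsgn, Finset.filter_insert, if_pos hlk, Finset.card_insert_of_notMem, pow_succ]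
  · ring
  · simp [hl]

lemma fsgn_insert_gt {m : ℕ} {k l : Fin m} {S : Finset (Fin m)} (hlk : k < l) :
    fsgn k (insert l S) = fsgn k S := by
  rw [fsgn, fsgn, Finset.filter_insert, if_neg (not_lt.mpr hlk.le)]

lemma fsgn_erase_lt {m : ℕ} {k l : Fin m} {S : Finset (Fin m)} (hl : l ∈ S) (hlk : l < k) :
    fsgn k (S.erase l) = - fsgn k S := by
  have h := fsgn_insert_lt (k := k) (S := S.erase l) (Finset.notMem_erase l S) hlk
  rw [Finset.insert_erase hl] at h
  rw [h, neg_neg]

lemma fsgn_erase_gt {m : ℕ} {k l : Fin m} {S : Finset (Fin m)} (hl : l ∈ S) (hlk : k < l) :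
    fsgn k (S.erase l) = fsgn k S := by
  have h := fsgn_insert_gt (k := k) (S := S.erase l) hlk
  rw [Finset.insert_erase hl] at h
  exact h.symm

/-- Creation in coordinates. -/
theorem cre_apply {m : ℕ} (i : Fin m) (φ : Fk m) (S : Finset (Fin m)) :
    (LA m (i, true) φ) S = if i ∈ S then fsgn i S * φ (S.erase i) else 0 := by
  have h : (LA m (i, true) φ) S = (crM i *ᵥ φ.ofLp) S := by
    unfold LA
    rfl
  rw [h, Matrix.mulVec, dotProduct]
  by_cases hk : i ∈ S
  · rw [Finset.sum_eq_single (S.erase i)]
    · simp [crM, hk]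
    · intro j _ hj
      simp [crM, hj]
    · simp
  · simp [crM, hk]

/-- Annihilation in coordinates. -/
theorem ann_apply {m : ℕ} (i : Fin m) (φ : Fk m) (S : Finset (Fin m)) :
    (LA m (i, false) φ) S = if i ∈ S then 0 else fsgn i S * φ (insert i S) := by
  have h : (LA m (i, false) φ) S = ((crM i)ᴴ *ᵥ φ.ofLp) S := by
    have h1 : LA m (i, false) = Matrix.toEuclideanCLM (𝕜 := ℂ) ((crM i)ᴴ) := by
      rw [← Matrix.star_eq_conjTranspose, map_star, ContinuousLinearMap.star_eq_adjoint]
      simp [LA]
    rw [h1]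
    rfl
  rw [h, Matrix.mulVec, dotProduct]
  by_cases hk : i ∈ S
  · rw [if_pos hk]
    apply Finset.sum_eq_zero
    intro T _
    have : ¬ (i ∈ T ∧ S = T.erase i) := by
      rintro ⟨_, h⟩
      rw [h] at hk
      simp at hk
    simp [crM, Matrix.conjTranspose_apply, this]
  · rw [if_neg hk, Finset.sum_eq_single (insert i S)]
    · simp [crM, Matrix.conjTranspose_apply, hk, fsgn_insert_self, conj_fsgn]
    · intro T _ hT
      have : ¬ (i ∈ T ∧ S = T.erase i) := by
        rintro ⟨h1, h⟩
        apply hT
        rw [h, Finset.insert_erase h1]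
      simp [crM, Matrix.conjTranspose_apply, this]
    · simp

theorem la_anti_cc {m : ℕ} (k l : Fin m) :
    LA m (k, true) * LA m (l, true) + LA m (l, true) * LA m (k, true) = 0 := by
  ext φ S
  simp only [ContinuousLinearMap.add_apply, ContinuousLinearMap.mul_apply, PiLp.add_apply,
    cre_apply, ContinuousLinearMap.zero_apply, PiLp.zero_apply, Finset.mem_erase]
  by_cases hkl : k = l
  · subst hkl
    simp
  · have hlk : ¬ l = k := fun h => hkl h.symm
    by_cases hk : k ∈ S
    · by_cases hl : l ∈ S
      · simp only [hk, hl, hkl, hlk, ne_eq, not_false_eq_true, and_self, if_true]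
        rw [Finset.erase_right_comm]
        rcases lt_or_gt_of_ne hkl with hlt | hgt
        · rw [fsgn_erase_lt hk hlt, fsgn_erase_gt hl hlt]
          ring
        · rw [fsgn_erase_gt hk hgt, fsgn_erase_lt hl hgt]
          ring
      · simp [hk, hl]
    · by_cases hl : l ∈ S
      · simp [hk, hl]
      · simp [hk, hl]

theorem la_anti_ac {m : ℕ} (k l : Fin m) :
    LA m (k, false) * LA m (l, true) + LA m (l, true) * LA m (k, false) =
      if k = l then 1 else 0 := by
  ext φ S
  rw [ContinuousLinearMap.add_apply, ContinuousLinearMap.mul_apply, ContinuousLinearMap.mul_apply,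
    PiLp.add_apply, ann_apply, cre_apply, cre_apply, ann_apply]
  by_cases hkl : k = l
  · subst hkl
    by_cases hk : k ∈ S
    · simp only [hk, if_true, Finset.notMem_erase, if_false, Finset.insert_erase,
        fsgn_erase_self, zero_add, ContinuousLinearMap.one_apply]
      rw [← mul_assoc, fsgn_mul_self, one_mul]
    · simp only [hk, if_false, Finset.mem_insert_self, if_true, fsgn_insert_self,
        Finset.erase_insert, not_false_eq_true, add_zero, ContinuousLinearMap.one_apply]
      rw [← mul_assoc, fsgn_mul_self, one_mul]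
  · have hlk : ¬ l = k := fun h => hkl h.symm
    simp only [hkl, if_false, ContinuousLinearMap.zero_apply, PiLp.zero_apply]
    by_cases hk : k ∈ S
    · have h1 : k ∈ S.erase l := Finset.mem_erase.mpr ⟨hkl, hk⟩
      simp [hk, h1]
    · by_cases hl : l ∈ S
      · have h1 : k ∉ S.erase l := fun h => hk (Finset.mem_erase.mp h).2
        have h2 : l ∈ insert k S := Finset.mem_insert_of_mem hl
        simp only [hk, hl, h1, h2, if_true, if_false]
        rw [Finset.erase_insert_of_ne hkl]
        rcases lt_or_gt_of_ne hkl with hlt | hgt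
        · rw [fsgn_insert_lt hk hlt, fsgn_erase_gt hl hlt]
          ring
        · rw [fsgn_insert_gt hgt, fsgn_erase_lt hl hgt]
          ring
      · have h2 : l ∉ insert k S := by
          simp [hl, hlk]
        simp [hk, hl, h2]

theorem la_adj {m : ℕ} (k : Lt m) : ContinuousLinearMap.adjoint (LA m k) = LA m (lsig k) := by
  obtain ⟨i, b⟩ := k
  cases b <;> simp [LA, lsig]

/-- The canonical anticommutation relations. -/
theorem la_car (m : ℕ) : CAR (κ := Lt m) lsig (LA m) := by
  refine ⟨fun k => by simp [lsig], ?_, la_adj⟩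
  rintro ⟨i, b⟩ ⟨j, c⟩
  have hadj : ∀ k l : Lt m, LA m k * LA m l + LA m l * LA m k =
      ContinuousLinearMap.adjoint
        (LA m (lsig l) * LA m (lsig k) + LA m (lsig k) * LA m (lsig l)) := by
    intro k l
    have h : ∀ k : Lt m, ContinuousLinearMap.adjoint (LA m (lsig k)) = LA m k := by
      intro k
      rw [la_adj]
      simp [lsig]
    rw [map_add, ContinuousLinearMap.mul_def, ContinuousLinearMap.mul_def,
      ContinuousLinearMap.mul_def, ContinuousLinearMap.mul_def,
      ContinuousLinearMap.adjoint_comp, ContinuousLinearMap.adjoint_comp, h, h]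
  cases b <;> cases c
  · rw [hadj]
    have h := la_anti_cc j i
    simp only [lsig, Bool.not_false]
    rw [h]
    simp
  · have h := la_anti_ac i j
    rw [h]
    simp only [lsig, Bool.not_false, Prod.mk.injEq, and_true]
    simp only [eq_comm]
  · have h := la_anti_ac j i
    rw [add_comm, h]
    simp only [lsig, Bool.not_true, Prod.mk.injEq, and_true]
  · have h := la_anti_cc i j
    rw [h]
    simp [lsig]

/-- Annihilation operators kill the vacuum. -/
theorem ann_vac {m : ℕ} (i : Fin m) : LA m (i, false) (vac m) = 0 := by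
  ext S
  rw [ann_apply]
  have h : insert i S ≠ (∅ : Finset (Fin m)) := Finset.insert_ne_empty i S
  simp [vac, h]

/-- The coefficient of the full set in the image of an annihilation operator is zero. -/
theorem topc_ann {m : ℕ} (i : Fin m) (g : Fk m) : topc m (LA m (i, false) g) = 0 := by
  have h : topc m (LA m (i, false) g) = (LA m (i, false) g) Finset.univ := rfl
  rw [h, ann_apply]
  simp

/-! ### The two families of modes, `omega` and the functional -/

/-- Mode `i` of the first family. -/
def mL {N : ℕ} (i : Fin N) : Fin (N + N) := Fin.castAdd N i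

/-- Mode `i` of the second family. -/
def mR {N : ℕ} (i : Fin N) : Fin (N + N) := Fin.natAdd N i

/-- `ω = ∑ a_i^* a_{i+N}^*`. -/
noncomputable def omg (N : ℕ) : Fk (N + N) →L[ℂ] Fk (N + N) :=
  ∑ i : Fin N, LA (N + N) (mL i, true) * LA (N + N) (mR i, true)

/-- Creation polynomials: `∑ T[i_1, ..., i_d] a_{i_1}^* ... a_{i_d}^*`, the tensor `T` has mode
indices. -/
noncomputable def crp (m d : ℕ) (T : List (Fin m) → ℂ) : Fk m →L[ℂ] Fk m :=
  op (fun i : Fin m => LA m (i, true)) d T

/-- The (finite) exponential series. -/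
noncomputable def expS {m : ℕ} (X : Fk m →L[ℂ] Fk m) : Fk m →L[ℂ] Fk m :=
  ∑ r ∈ range (m + 1), ((r.factorial : ℂ)⁻¹) • X ^ r

/-- The Berezin functional `ell f = <top, exp (ω + V) f>`, `V = crp _ 4 T`. -/
noncomputable def ell (N : ℕ) (T : List (Fin (N + N)) → ℂ) : Fk (N + N) →L[ℂ] ℂ :=
  topc (N + N) ∘L expS (omg N + crp (N + N) 4 T)

/-- The partition function. -/
noncomputable def Zf (N : ℕ) (T : List (Fin (N + N)) → ℂ) : ℂ := ell N T (vac (N + N))

/-- Antisymmetric 4-tensors (on lists of length 4). -/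
def Alt4 {α : Type*} (T : List α → ℂ) : Prop :=
  ∀ i j k l : α, T [j, i, k, l] = - T [i, j, k, l] ∧ T [i, k, j, l] = - T [i, j, k, l] ∧
    T [i, j, l, k] = - T [i, j, k, l]

end Pool.Agent.H46P
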