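import Pool.Agent.Lib.H46P.F17

/-!
# Part G: the Berezin functional, definitions

Modes `Fin (N + N)`: `lo i`, `hi i`, `i : Fin N`.
-/

namespace Pool.Agent.H46P

open Finset
open scoped BigOperators ComplexConjugate InnerProductSpace

variable {N : ℕ}

/-- four index complex arrays -/
abbrev R4 (N : ℕ) := Fin N → Fin N → Fin N → Fin N → ℂ

/-- first half of the modes -/
def lo (i : Fin N) : Fin (N + N) := Fin.castAdd N i

/-- second half of the modes -/
def hi (i : Fin N) : Fin (N + N) := Fin.natAdd N i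

/-- `ω = ∑ a_i^* b_i^*` -/
noncomputable def om (N : ℕ) : Fk (N + N) →L[ℂ] Fk (N + N) :=
  ∑ i : Fin N, fA (lo i, true) * fA (hi i, true)

/-- `∑ R_ijkl a_i^* a_j^* b_k^* b_l^*` -/
noncomputable def Vh (R : R4 N) : Fk (N + N) →L[ℂ] Fk (N + N) :=
  ∑ i, ∑ j, ∑ k, ∑ l, R i j k l •
    (fA (lo i, true) * fA (lo j, true) * fA (hi k, true) * fA (hi l, true))

/-- `⟨top, exp(ω + V) f⟩` -/
noncomputable def ell (R : R4 N) (f : Fk (N + N)) : ℂ :=
  (NormedSpace.exp (om N + Vh R) f) (univ : Finset (Fin (N + N)))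

/-- skew symmetry in the first and in the last pair -/
structure Skew (R : R4 N) : Prop where
  s1 : ∀ i j k l, R j i k l = - R i j k l
  s2 : ∀ i j k l, R i j l k = - R i j k l

/-- complex injective norm of `R` at most `ρ` -/
def RB (R : R4 N) (ρ : ℝ) : Prop :=
  ∀ x y z w : Fin N → ℂ, ‖∑ i, ∑ j, ∑ k, ∑ l, R i j k l * x i * y j * z k * w l‖ ≤
    ρ * nrm x * nrm y * nrm z * nrm w

/-- `∑ a_i b_i` -/
noncomputable def Del (N : ℕ) : Fk (N + N) →L[ℂ] Fk (N + N) :=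
  ∑ i : Fin N, fA (lo i, false) * fA (hi i, false)

/-- the quartic part of `L0` -/
noncomputable def UU (R : R4 N) : Fk (N + N) →L[ℂ] Fk (N + N) :=
  (2 : ℂ) • (∑ p, ∑ j, ∑ k, ∑ l, R p j k l •
    (fA (lo j, true) * fA (hi k, true) * fA (hi l, true) * fA (hi p, false))) -
  (2 : ℂ) • (∑ i, ∑ j, ∑ p, ∑ l, R i j p l •
    (fA (lo i, true) * fA (lo j, true) * fA (hi l, true) * fA (lo p, false)))

/-- `L0 = Num + 2 ∑ a_i b_i + UU` -/
noncomputable def L0 (R : R4 N) : Fk (N + N) →L[ℂ] Fk (N + N) :=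
  Num + (2 : ℂ) • Del N + UU R

end Pool.Agent.H46P
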