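import Pool.Agent.Lib.H46P.G0

/-!
# Chunk G1: commutators with `B = ω + V`

Canonical anticommutation relations (`fock_car`), `lo i ≠ hi j`; each bracket is a sum over the terms
(an annihilation letter commutes past a product of two creation letters up to contractions).  `R` skew.
`br_comm`: an odd product (1 or 3) of creation letters commutes with products of 2 or 4 creation
letters.
-/

namespace Pool.Agent.H46P

open Finset
open scoped BigOperators ComplexConjugate InnerProductSpace

variable {N : ℕ}

/-- `[a_p, V]` -/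
noncomputable def dVlo (R : R4 N) (p : Fin N) : Fk (N + N) →L[ℂ] Fk (N + N) :=
  (2 : ℂ) • ∑ j, ∑ k, ∑ l, R p j k l • (fA (lo j, true) * fA (hi k, true) * fA (hi l, true))

/-- `[b_p, V]` -/
noncomputable def dVhi (R : R4 N) (p : Fin N) : Fk (N + N) →L[ℂ] Fk (N + N) :=
  (2 : ℂ) • ∑ i, ∑ j, ∑ l, R i j p l • (fA (lo i, true) * fA (lo j, true) * fA (hi l, true))

theorem g1_lo_inj (i j : Fin N) : lo i = lo j ↔ i = j := by
  simp [lo]

theorem g1_hi_inj (i j : Fin N) : hi i = hi j ↔ i = j := by
  simp [hi]

theorem g1_lo_ne_hi (i j : Fin N) : lo i ≠ hi j := by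
  intro h
  have h1 := congrArg Fin.val h
  simp only [lo, hi, Fin.val_castAdd, Fin.val_natAdd] at h1
  omega

/-- annihilation against creation -/
theorem g1_ac {m : ℕ} (i j : Fin m) :
    fA (i, false) * fA (j, true) + fA (j, true) * fA (i, false) = if i = j then 1 else 0 := by
  have h := (fock_car m).car (i, false) (j, true)
  rw [h]
  have e : ((j, true) = sg (i, false)) ↔ i = j := by
    simp [sg, eq_comm]
  simp only [e]

/-- creation against creation -/
theorem g1_cc {m : ℕ} (i j : Fin m) :
    fA (i, true) * fA (j, true) = - (fA (j, true) * fA (i, true)) := by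
  have h := (fock_car m).car (i, true) (j, true)
  rw [if_neg (by simp [sg])] at h
  exact eq_neg_of_add_eq_zero_left h

theorem g1_br2 {R : Type*} [Ring R] (a x y : R) :
    a * (x * y) - (x * y) * a = (a * x + x * a) * y - x * (a * y + y * a) := by
  noncomm_ring

theorem g1_br4 {R : Type*} [Ring R] (a x y z w : R) :
    a * (x * y * z * w) - (x * y * z * w) * a = (a * x + x * a) * y * z * w -
      x * (a * y + y * a) * z * w + x * y * (a * z + z * a) * w - x * y * z * (a * w + w * a) := by
  noncomm_ring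

theorem g1_abs_lo {𝓡 : Type*} [Ring 𝓡] [Algebra ℂ 𝓡] (c d : Fin N → 𝓡) (a : 𝓡) {R : R4 N}
    (hR : Skew R) (p : Fin N) (hac : ∀ i, a * c i + c i * a = if p = i then 1 else 0)
    (had : ∀ i, a * d i + d i * a = 0) :
    a * (∑ i, c i * d i + ∑ i, ∑ j, ∑ k, ∑ l, R i j k l • (c i * c j * d k * d l)) -
      (∑ i, c i * d i + ∑ i, ∑ j, ∑ k, ∑ l, R i j k l • (c i * c j * d k * d l)) * a =
      d p + (2 : ℂ) • ∑ j, ∑ k, ∑ l, R p j k l • (c j * d k * d l) := by
  have h1 : a * (∑ i, c i * d i) - (∑ i, c i * d i) * a = d p := by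
    rw [Finset.mul_sum, Finset.sum_mul, ← Finset.sum_sub_distrib]
    simp only [g1_br2, hac, had]
    simp
  have h2 : a * (∑ i, ∑ j, ∑ k, ∑ l, R i j k l • (c i * c j * d k * d l)) -
      (∑ i, ∑ j, ∑ k, ∑ l, R i j k l • (c i * c j * d k * d l)) * a =
      (2 : ℂ) • ∑ j, ∑ k, ∑ l, R p j k l • (c j * d k * d l) := by
    have e : ∀ i j k l : Fin N, a * (c i * c j * d k * d l) - (c i * c j * d k * d l) * a =
        (if p = i then c j * d k * d l else 0) - (if p = j then c i * d k * d l else 0) := by
      intro i j k l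
      rw [g1_br4]
      simp only [hac, had, mul_zero, zero_mul, add_zero, sub_zero]
      split_ifs <;> simp
    simp only [Finset.mul_sum, Finset.sum_mul, ← Finset.sum_sub_distrib, mul_smul_comm,
      smul_mul_assoc, ← smul_sub, e]
    simp only [smul_sub, Finset.sum_sub_distrib, smul_ite, smul_zero]
    have e1 : (∑ i, ∑ j, ∑ k, ∑ l, if p = i then R i j k l • (c j * d k * d l) else 0) =
        ∑ j, ∑ k, ∑ l, R p j k l • (c j * d k * d l) := by
      rw [Finset.sum_eq_single p]
      · simp
      · intro i _ hi'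
        simp [Ne.symm hi']
      · simp
    have e2 : (∑ i, ∑ j, ∑ k, ∑ l, if p = j then R i j k l • (c i * d k * d l) else 0) =
        - ∑ j, ∑ k, ∑ l, R p j k l • (c j * d k * d l) := by
      rw [← Finset.sum_neg_distrib]
      refine Finset.sum_congr rfl fun i _ => ?_
      rw [Finset.sum_eq_single p]
      · simp only [if_true, ← Finset.sum_neg_distrib]
        refine Finset.sum_congr rfl fun k _ => Finset.sum_congr rfl fun l _ => ?_
        rw [hR.s1, neg_smul]
      · intro j _ hj
        simp [Ne.symm hj]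
      · simp
    rw [e1, e2, sub_neg_eq_add, two_smul]
  rw [mul_add, add_mul, ← h1, ← h2]
  abel

theorem g1_abs_hi {𝓡 : Type*} [Ring 𝓡] [Algebra ℂ 𝓡] (c d : Fin N → 𝓡) (a : 𝓡) {R : R4 N}
    (hR : Skew R) (p : Fin N) (had : ∀ i, a * d i + d i * a = if p = i then 1 else 0)
    (hac : ∀ i, a * c i + c i * a = 0) :
    a * (∑ i, c i * d i + ∑ i, ∑ j, ∑ k, ∑ l, R i j k l • (c i * c j * d k * d l)) -
      (∑ i, c i * d i + ∑ i, ∑ j, ∑ k, ∑ l, R i j k l • (c i * c j * d k * d l)) * a =
      - c p + (2 : ℂ) • ∑ i, ∑ j, ∑ l, R i j p l • (c i * c j * d l) := by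
  have h1 : a * (∑ i, c i * d i) - (∑ i, c i * d i) * a = - c p := by
    rw [Finset.mul_sum, Finset.sum_mul, ← Finset.sum_sub_distrib]
    simp only [g1_br2, hac, had]
    simp
  have h2 : a * (∑ i, ∑ j, ∑ k, ∑ l, R i j k l • (c i * c j * d k * d l)) -
      (∑ i, ∑ j, ∑ k, ∑ l, R i j k l • (c i * c j * d k * d l)) * a =
      (2 : ℂ) • ∑ i, ∑ j, ∑ l, R i j p l • (c i * c j * d l) := by
    have e : ∀ i j k l : Fin N, a * (c i * c j * d k * d l) - (c i * c j * d k * d l) * a =
        (if p = k then c i * c j * d l else 0) - (if p = l then c i * c j * d k else 0) := by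
      intro i j k l
      rw [g1_br4]
      simp only [hac, had, mul_zero, zero_mul, zero_add, sub_zero]
      split_ifs <;> simp
    simp only [Finset.mul_sum, Finset.sum_mul, ← Finset.sum_sub_distrib, mul_smul_comm,
      smul_mul_assoc, ← smul_sub, e]
    simp only [smul_sub, Finset.sum_sub_distrib, smul_ite, smul_zero]
    have e1 : (∑ i, ∑ j, ∑ k, ∑ l, if p = k then R i j k l • (c i * c j * d l) else 0) =
        ∑ i, ∑ j, ∑ l, R i j p l • (c i * c j * d l) := by
      refine Finset.sum_congr rfl fun i _ => Finset.sum_congr rfl fun j _ => ?_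
      rw [Finset.sum_eq_single p]
      · simp
      · intro i _ hi'
        simp [Ne.symm hi']
      · simp
    have e2 : (∑ i, ∑ j, ∑ k, ∑ l, if p = l then R i j k l • (c i * c j * d k) else 0) =
        - ∑ i, ∑ j, ∑ l, R i j p l • (c i * c j * d l) := by
      rw [← Finset.sum_neg_distrib]
      refine Finset.sum_congr rfl fun i _ => ?_
      rw [← Finset.sum_neg_distrib]
      refine Finset.sum_congr rfl fun j _ => ?_
      rw [← Finset.sum_neg_distrib]
      refine Finset.sum_congr rfl fun k _ => ?_
      rw [Finset.sum_eq_single p]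
      · simp only [if_true]
        rw [hR.s2, neg_smul]
      · intro l _ hl
        simp [Ne.symm hl]
      · simp
    rw [e1, e2, sub_neg_eq_add, two_smul]
  rw [mul_add, add_mul, ← h1, ← h2]
  abel

theorem br_lo {R : R4 N} (hR : Skew R) (p : Fin N) :
    fA (lo p, false) * (om N + Vh R) - (om N + Vh R) * fA (lo p, false) =
      fA (hi p, true) + dVlo R p :=
  g1_abs_lo (fun i => fA (lo i, true)) (fun i => fA (hi i, true)) (fA (lo p, false)) hR p
    (fun i => by rw [g1_ac]; simp only [g1_lo_inj])
    (fun i => by rw [g1_ac, if_neg (g1_lo_ne_hi p i)])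

theorem br_hi {R : R4 N} (hR : Skew R) (p : Fin N) :
    fA (hi p, false) * (om N + Vh R) - (om N + Vh R) * fA (hi p, false) =
      - fA (lo p, true) + dVhi R p :=
  g1_abs_hi (fun i => fA (lo i, true)) (fun i => fA (hi i, true)) (fA (hi p, false)) hR p
    (fun i => by rw [g1_ac]; simp only [g1_hi_inj])
    (fun i => by rw [g1_ac, if_neg (g1_lo_ne_hi i p).symm])

theorem g1_abs_comm {𝓡 : Type*} [Ring 𝓡] {x y z : 𝓡} (h1 : y * z = - (z * y))
    (h2 : x * z = - (z * x)) : Commute (x * y) z := by
  show x * y * z = z * (x * y)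
  rw [mul_assoc, h1, mul_neg, ← mul_assoc, h2, neg_mul, neg_neg, mul_assoc]

theorem g1_comm2 {m : ℕ} (i j k : Fin m) :
    Commute (fA (i, true) * fA (j, true)) (fA (k, true)) := by
  exact g1_abs_comm (g1_cc j k) (g1_cc i k)

theorem g1_comm_all (R : R4 N) (k : Fin (N + N)) : Commute (om N + Vh R) (fA (k, true)) := by
  refine Commute.add_left ?_ ?_
  · unfold om
    exact Commute.sum_left _ _ _ fun i _ => g1_comm2 _ _ _
  · unfold Vh
    refine Commute.sum_left _ _ _ fun i _ => Commute.sum_left _ _ _ fun j _ =>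
      Commute.sum_left _ _ _ fun k' _ => Commute.sum_left _ _ _ fun l _ => ?_
    refine Commute.smul_left ?_ _
    rw [mul_assoc]
    exact Commute.mul_left (g1_comm2 _ _ _) (g1_comm2 _ _ _)

theorem br_comm_lo (R : R4 N) (p : Fin N) :
    (om N + Vh R) * (fA (hi p, true) + dVlo R p) = (fA (hi p, true) + dVlo R p) * (om N + Vh R) := by
  have h : Commute (om N + Vh R) (fA (hi p, true) + dVlo R p) := by
    refine Commute.add_right (g1_comm_all R _) ?_
    unfold dVlo
    refine Commute.smul_right ?_ _
    refine Commute.sum_right _ _ _ fun j _ => Commute.sum_right _ _ _ fun k _ =>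
      Commute.sum_right _ _ _ fun l _ => ?_
    exact Commute.smul_right (((g1_comm_all R _).mul_right (g1_comm_all R _)).mul_right
      (g1_comm_all R _)) _
  exact h

theorem br_comm_hi (R : R4 N) (p : Fin N) :
    (om N + Vh R) * (- fA (lo p, true) + dVhi R p) =
      (- fA (lo p, true) + dVhi R p) * (om N + Vh R) := by
  have h : Commute (om N + Vh R) (- fA (lo p, true) + dVhi R p) := by
    refine Commute.add_right (g1_comm_all R _).neg_right ?_
    unfold dVhi
    refine Commute.smul_right ?_ _
    refine Commute.sum_right _ _ _ fun j _ => Commute.sum_right _ _ _ fun k _ =>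
      Commute.sum_right _ _ _ fun l _ => ?_
    exact Commute.smul_right (((g1_comm_all R _).mul_right (g1_comm_all R _)).mul_right
      (g1_comm_all R _)) _
  exact h

end Pool.Agent.H46P
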