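import Pool.Agent.Lib.H46P.G1

/-!
# Chunk G2: `ell (L0 f) = 0`

`exp_conj` (F4) with `W = B = ω + V`, `A = fA (lo p, false)`, `D = W A - A W = -(fA (hi p,true) + dVlo R p)`:
`A exp B = exp B (A + fA (hi p, true) + dVlo R p)`; evaluate at `univ`: `ann_univ`.  So
`ell ((A + fA (hi p,true) + dVlo R p) g) = 0` for all `g`; take `g = fA (hi p, false) f`; similarly with
`hi`, `g = - fA (lo p, false) f`; sum over `p`: `num_eq` (split the sum over `Fin (N+N)`:
`Fin.sum_univ_add`), `fA (lo p,false) fA (hi p,false) = - fA (hi p,false) fA (lo p,false)`.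
`l0_vac`: every term ends with an annihilation letter, `Num vac = 0`.
-/

namespace Pool.Agent.H46P

open Finset
open scoped BigOperators ComplexConjugate InnerProductSpace

variable {N : ℕ}

theorem g2_abs {𝓡 : Type*} [Ring 𝓡] [Algebra ℂ 𝓡] (c d a b : Fin N → 𝓡) (R : R4 N)
    (hab : ∀ p, b p * a p = - (a p * b p)) :
    (∑ p, c p * a p + ∑ p, d p * b p) + (2 : ℂ) • ∑ p, a p * b p +
      ((2 : ℂ) • (∑ p, ∑ j, ∑ k, ∑ l, R p j k l • (c j * d k * d l * b p)) -
       (2 : ℂ) • (∑ i, ∑ j, ∑ p, ∑ l, R i j p l • (c i * c j * d l * a p))) =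
    ∑ p, ((a p + (d p + (2 : ℂ) • ∑ j, ∑ k, ∑ l, R p j k l • (c j * d k * d l))) * b p -
      (b p + (- c p + (2 : ℂ) • ∑ i, ∑ j, ∑ l, R i j p l • (c i * c j * d l))) * a p) := by
  have e1 : (∑ i, ∑ j, ∑ p, ∑ l, R i j p l • (c i * c j * d l * a p)) =
      ∑ p, (∑ i, ∑ j, ∑ l, R i j p l • (c i * c j * d l)) * a p := by
    simp only [Finset.sum_mul, smul_mul_assoc]
    rw [Finset.sum_comm]
    conv_rhs => rw [Finset.sum_comm]
    rw [Finset.sum_comm]
    refine Finset.sum_congr rfl fun i _ => ?_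
    rw [Finset.sum_comm]
  have e2 : (∑ p, ∑ j, ∑ k, ∑ l, R p j k l • (c j * d k * d l * b p)) =
      ∑ p, (∑ j, ∑ k, ∑ l, R p j k l • (c j * d k * d l)) * b p := by
    simp only [Finset.sum_mul, smul_mul_assoc]
  rw [e1, e2, Finset.smul_sum, Finset.smul_sum, Finset.smul_sum, ← Finset.sum_add_distrib,
    ← Finset.sum_add_distrib, ← Finset.sum_sub_distrib, ← Finset.sum_add_distrib]
  refine Finset.sum_congr rfl fun p _ => ?_
  rw [add_mul, add_mul, add_mul, add_mul, hab, smul_mul_assoc, smul_mul_assoc, two_smul, neg_mul]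
  abel

theorem g2_l0 (R : R4 N) : L0 R = ∑ p : Fin N,
    ((fA (lo p, false) + (fA (hi p, true) + dVlo R p)) * fA (hi p, false) -
      (fA (hi p, false) + (- fA (lo p, true) + dVhi R p)) * fA (lo p, false)) := by
  have h := g2_abs (fun p : Fin N => fA (lo p, true)) (fun p : Fin N => fA (hi p, true))
    (fun p : Fin N => fA (lo p, false)) (fun p : Fin N => fA (hi p, false)) R (by
      intro p
      have h := (fock_car (N + N)).car (hi p, false) (lo p, false)
      rw [if_neg (by simp [sg])] at h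
      exact eq_neg_of_add_eq_zero_left h)
  refine Eq.trans ?_ h
  unfold L0 UU Del
  have hn : Num (m := N + N) = ∑ p : Fin N, fA (lo p, true) * fA (lo p, false) +
      ∑ p : Fin N, fA (hi p, true) * fA (hi p, false) := by
    rw [num_eq, Fin.sum_univ_add]
    rfl
  rw [hn]

theorem g2_ell_zero (R : R4 N) (i : Fin (N + N)) (X : Fk (N + N) →L[ℂ] Fk (N + N))
    (h : fA (i, false) * (om N + Vh R) - (om N + Vh R) * fA (i, false) = X)
    (h2 : (om N + Vh R) * X = X * (om N + Vh R)) (g : Fk (N + N)) :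
    ell R ((fA (i, false) + X) g) = 0 := by
  have h3 : fA (i, false) * NormedSpace.exp (om N + Vh R) =
      NormedSpace.exp (om N + Vh R) * (fA (i, false) - (-X)) := by
    refine exp_conj ?_ ?_
    · rw [← h]
      exact (neg_sub _ _).symm
    · exact (mul_neg _ _).trans ((congrArg Neg.neg h2).trans (neg_mul _ _).symm)
  have h4 : fA (i, false) - (-X) = fA (i, false) + X := sub_neg_eq_add _ _
  rw [h4] at h3
  unfold ell
  have h5 := congrArg (fun Y : Fk (N + N) →L[ℂ] Fk (N + N) => (Y g) (univ : Finset (Fin (N + N)))) h3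
  refine h5.symm.trans ?_
  exact ann_univ i _

theorem g2_ell_sum (R : R4 N) (s : Finset (Fin N)) (F : Fin N → Fk (N + N))
    (h : ∀ p ∈ s, ell R (F p) = 0) : ell R (∑ p ∈ s, F p) = 0 := by
  unfold ell at *
  rw [map_sum]
  have : ∀ (G : Fin N → Fk (N + N)), (∑ p ∈ s, G p) (univ : Finset (Fin (N + N))) =
      ∑ p ∈ s, (G p) (univ : Finset (Fin (N + N))) := by
    intro G
    simp
  rw [this]
  exact Finset.sum_eq_zero h

theorem g2_ell_sub (R : R4 N) (f g : Fk (N + N)) : ell R (f - g) = ell R f - ell R g := by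
  unfold ell
  rw [map_sub]
  rfl

theorem ell_L0 {R : R4 N} (hR : Skew R) (f : Fk (N + N)) : ell R (L0 R f) = 0 := by
  rw [g2_l0, _root_.sum_apply]
  refine g2_ell_sum R _ _ fun p _ => ?_
  have h1 := g2_ell_zero R (lo p) _ (br_lo hR p) (br_comm_lo R p) (fA (hi p, false) f)
  have h2 := g2_ell_zero R (hi p) _ (br_hi hR p) (br_comm_hi R p) (fA (lo p, false) f)
  have h3 := g2_ell_sub R ((fA (lo p, false) + (fA (hi p, true) + dVlo R p)) (fA (hi p, false) f))
    ((fA (hi p, false) + (- fA (lo p, true) + dVhi R p)) (fA (lo p, false) f))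
  rw [h1, h2, sub_zero] at h3
  exact h3

theorem l0_vac (R : R4 N) : L0 R vac = 0 := by
  rw [g2_l0, _root_.sum_apply]
  refine Finset.sum_eq_zero fun p _ => ?_
  show (fA (lo p, false) + (fA (hi p, true) + dVlo R p)) (fA (hi p, false) vac) -
    (fA (hi p, false) + (- fA (lo p, true) + dVhi R p)) (fA (lo p, false) vac) = 0
  rw [ann_vac, ann_vac, map_zero, map_zero, sub_zero]

end Pool.Agent.H46P
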