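import Pool.Agent.Lib.H46P.G0

/-!
# Chunk G3: the tensor of `UU`

First `U0 [x, y, z, w]`: `2 R p j k l` for `x = (lo j, true), y = (hi k, true), z = (hi l, true),
w = (hi p, false)`; `- 2 R i j p l` for `x = (lo i, true), y = (lo j, true), z = (hi l, true),
w = (lo p, false)`; `0` otherwise.  For vectors: `ev [x,y,z,w] U0 = 2 R(w'', x', y'', z'') -
2 R(x', y', w', z'')` with the restrictions of the vectors to `lo`/`hi` and to creation/annihilation
letters, so `Inj 4 U0 (4 ρ)` (each restriction has a smaller norm).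
`U` = average over the six permutations of the first three legs of `sign * U0` (`ev` of a permuted
tensor is `ev` on permuted vectors; 4 legs: `simp [ev]` and `Finset.sum_comm`), so `Inj 4 U (4 ρ)`;
`op fA 4 U = op fA 4 U0` since creation letters anticommute (`op_four`).
-/

namespace Pool.Agent.H46P

open Finset
open scoped BigOperators ComplexConjugate InnerProductSpace

variable {N : ℕ}

section g3

variable {κ : Type*} [Fintype κ] [DecidableEq κ]

/-- elementary tensor -/
def g3d (x y z w : κ) : List κ → ℂ := fun L => if L = [x, y, z, w] then 1 else 0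

/-- antisymmetrised elementary tensor -/
noncomputable def g3e (x y z w : κ) : List κ → ℂ := fun L =>
  (1 / 6 : ℂ) * (g3d x y z w L + (-1) * g3d y x z w L + (-1) * g3d x z y w L +
    (-1) * g3d z y x w L + g3d y z x w L + g3d z x y w L)

theorem g3_ev_d (a b c d : κ → ℂ) (x y z w : κ) :
    ev [a, b, c, d] (g3d x y z w) = a x * b y * c z * d w := by
  simp only [ev_cons, ev_nil, g3d, List.cons.injEq, and_true]
  rw [Finset.sum_eq_single x, Finset.sum_eq_single y, Finset.sum_eq_single z,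
    Finset.sum_eq_single w]
  · simp only [and_self, if_true]
    ring
  · intro k _ hk
    simp [hk]
  · simp
  · intro k _ hk
    simp [hk]
  · simp
  · intro k _ hk
    simp [hk]
  · simp
  · intro k _ hk
    simp [hk]
  · simp

theorem g3_op_d {𝓡 : Type*} [Ring 𝓡] [Algebra ℂ 𝓡] (A : κ → 𝓡) (x y z w : κ) :
    op A 4 (g3d x y z w) = A x * A y * A z * A w := by
  simp only [op_succ, op_zero, g3d, List.cons.injEq, and_true]
  rw [Finset.sum_eq_single x, Finset.sum_eq_single y, Finset.sum_eq_single z,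
    Finset.sum_eq_single w]
  · simp only [and_self, if_true, map_one, mul_one, mul_assoc]
  · intro k _ hk
    simp [hk]
  · simp
  · intro k _ hk
    simp [hk]
  · simp
  · intro k _ hk
    simp [hk]
  · simp
  · intro k _ hk
    simp [hk]
  · simp

theorem g3_ev_e (a b c d : κ → ℂ) (x y z w : κ) :
    ev [a, b, c, d] (g3e x y z w) = (1 / 6 : ℂ) * (a x * b y * c z * d w - b x * a y * c z * d w -
      a x * c y * b z * d w - c x * b y * a z * d w + c x * a y * b z * d w +
      b x * c y * a z * d w) := by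
  unfold g3e
  rw [ev_smul]
  simp only [ev_add, ev_smul, g3_ev_d]
  ring

theorem g3_op_e {𝓡 : Type*} [Ring 𝓡] [Algebra ℂ 𝓡] (A : κ → 𝓡) (x y z w : κ)
    (hxy : A y * A x = - (A x * A y)) (hxz : A z * A x = - (A x * A z))
    (hyz : A z * A y = - (A y * A z)) :
    op A 4 (g3e x y z w) = A x * A y * A z * A w := by
  unfold g3e
  rw [op_smul]
  simp only [op_add, op_smul, g3_op_d]
  have e1 : A y * A x * A z * A w = - (A x * A y * A z * A w) := by
    rw [hxy]; simp only [neg_mul]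
  have e2 : A x * A z * A y * A w = - (A x * A y * A z * A w) := by
    rw [mul_assoc (A x), hyz]; simp only [neg_mul, mul_neg, mul_assoc]
  have e3 : A z * A y * A x * A w = - (A x * A y * A z * A w) := by
    rw [hyz, neg_mul, neg_mul, mul_assoc (A y), hxz]
    rw [mul_neg, neg_mul, neg_neg, ← mul_assoc, e1]
  have e4 : A y * A z * A x * A w = A x * A y * A z * A w := by
    rw [mul_assoc (A y), hxz, mul_neg, neg_mul, ← mul_assoc, e1, neg_neg]
  have e5 : A z * A x * A y * A w = A x * A y * A z * A w := by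
    rw [hxz, neg_mul, neg_mul, e2, neg_neg]
  rw [e1, e2, e3, e4, e5]
  simp only [neg_smul, one_smul, neg_neg]
  have e6 : ∀ X : 𝓡, (1 / 6 : ℂ) • (X + X + X + X + X + X) = X := by
    intro X
    have : X + X + X + X + X + X = (6 : ℂ) • X := by
      rw [show (6 : ℂ) = 1 + 1 + 1 + 1 + 1 + 1 by norm_num]
      simp only [add_smul, one_smul]
    rw [this, smul_smul]
    norm_num
  exact e6 _

omit [Fintype κ] in
theorem g3_anti1 (x y z w a b c d : κ) : g3e x y z w [b, a, c, d] = - g3e x y z w [a, b, c, d] := by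
  have h : ∀ x y z w : κ, g3d x y z w [b, a, c, d] = g3d y x z w [a, b, c, d] := by
    intro x y z w
    unfold g3d
    congr 1
    simp only [List.cons.injEq, and_true, eq_iff_iff]
    tauto
  unfold g3e
  simp only [h]
  ring

omit [Fintype κ] in
theorem g3_anti2 (x y z w a b c d : κ) : g3e x y z w [a, c, b, d] = - g3e x y z w [a, b, c, d] := by
  have h : ∀ x y z w : κ, g3d x y z w [a, c, b, d] = g3d x z y w [a, b, c, d] := by
    intro x y z w
    unfold g3d
    congr 1
    simp only [List.cons.injEq, and_true, eq_iff_iff]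
    tauto
  unfold g3e
  simp only [h]
  ring

end g3

/-- the pattern of an elementary tensor -/
theorem g3_pat {m : ℕ} {x y z w : Lt m} (hx : x.2 = true) (hy : y.2 = true) (hz : z.2 = true)
    (hw : w.2 = false) {L : List (Lt m)} (hL : L.map Prod.snd ≠ [true, true, true, false]) :
    g3e x y z w L = 0 := by
  have h : ∀ {x y z w : Lt m}, x.2 = true → y.2 = true → z.2 = true → w.2 = false →
      g3d x y z w L = 0 := by
    intro x y z w hx hy hz hw
    unfold g3d
    rw [if_neg]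
    intro h
    apply hL
    rw [h]
    simp [hx, hy, hz, hw]
  unfold g3e
  rw [h hx hy hz hw, h hy hx hz hw, h hx hz hy hw, h hz hy hx hw, h hy hz hx hw, h hz hx hy hw]
  ring

/-- first part of the tensor -/
noncomputable def g3U1 (R : R4 N) : List (Lt (N + N)) → ℂ := fun L =>
  ∑ p, ∑ j, ∑ k, ∑ l, R p j k l * g3e (lo j, true) (hi k, true) (hi l, true) (hi p, false) L

/-- second part of the tensor -/
noncomputable def g3U2 (R : R4 N) : List (Lt (N + N)) → ℂ := fun L =>
  ∑ i, ∑ j, ∑ p, ∑ l, R i j p l * g3e (lo i, true) (lo j, true) (hi l, true) (lo p, false) L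

/-- the tensor -/
noncomputable def g3U (R : R4 N) : List (Lt (N + N)) → ℂ := fun L => 2 * g3U1 R L + (-2) * g3U2 R L

theorem g3_nrm_le {κ ι : Type*} [Fintype κ] [Fintype ι] (a : κ → ℂ) (f : ι → κ)
    (hf : Function.Injective f) : nrm (fun i => a (f i)) ≤ nrm a := by
  unfold nrm
  apply Real.sqrt_le_sqrt
  classical
  rw [← Finset.sum_image (f := fun k => ‖a k‖ ^ 2) (g := f) (s := univ) (fun _ _ _ _ h => hf h)]
  exact Finset.sum_le_sum_of_subset_of_nonneg (Finset.subset_univ _) fun _ _ _ => by positivity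

theorem g3_lo_inj (b : Bool) : Function.Injective (fun i : Fin N => ((lo i, b) : Lt (N + N))) := by
  intro i j h
  simpa [lo] using h

theorem g3_hi_inj (b : Bool) : Function.Injective (fun i : Fin N => ((hi i, b) : Lt (N + N))) := by
  intro i j h
  simpa [hi] using h

theorem g3_bd {R : R4 N} {ρ : ℝ} (hρ : 0 ≤ ρ) (hR : RB R ρ) {a b c d : Lt (N + N) → ℂ}
    (x y z w : Fin N → ℂ) (hx : nrm x ≤ nrm a) (hy : nrm y ≤ nrm b) (hz : nrm z ≤ nrm c)
    (hw : nrm w ≤ nrm d) :
    ‖∑ i, ∑ j, ∑ k, ∑ l, R i j k l * x i * y j * z k * w l‖ ≤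
      ρ * nrm a * nrm b * nrm c * nrm d := by
  refine (hR x y z w).trans ?_
  have := nrm_nonneg x
  have := nrm_nonneg y
  have := nrm_nonneg z
  have := nrm_nonneg w
  have := nrm_nonneg a
  have := nrm_nonneg b
  have := nrm_nonneg c
  gcongr

/-- first form -/
noncomputable def g3F1 (R : R4 N) (a b c d : Lt (N + N) → ℂ) : ℂ :=
  ∑ p, ∑ j, ∑ k, ∑ l, R p j k l * (a (lo j, true) * b (hi k, true) * c (hi l, true) *
    d (hi p, false))

/-- second form -/
noncomputable def g3F2 (R : R4 N) (a b c d : Lt (N + N) → ℂ) : ℂ :=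
  ∑ i, ∑ j, ∑ p, ∑ l, R i j p l * (a (lo i, true) * b (lo j, true) * c (hi l, true) *
    d (lo p, false))

theorem g3_F1 {R : R4 N} {ρ : ℝ} (hρ : 0 ≤ ρ) (hR : RB R ρ) (a b c d : Lt (N + N) → ℂ) :
    ‖g3F1 R a b c d‖ ≤ ρ * nrm a * nrm b * nrm c * nrm d := by
  have h := g3_bd hρ hR (a := d) (b := a) (c := b) (d := c) (fun p => d (hi p, false))
    (fun j => a (lo j, true)) (fun k => b (hi k, true)) (fun l => c (hi l, true))
    (g3_nrm_le d _ (g3_hi_inj false)) (g3_nrm_le a _ (g3_lo_inj true))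
    (g3_nrm_le b _ (g3_hi_inj true)) (g3_nrm_le c _ (g3_hi_inj true))
  have e : g3F1 R a b c d = ∑ i, ∑ j, ∑ k, ∑ l, R i j k l * d (hi i, false) * a (lo j, true) *
      b (hi k, true) * c (hi l, true) := by
    unfold g3F1
    refine Finset.sum_congr rfl fun p _ => Finset.sum_congr rfl fun j _ =>
      Finset.sum_congr rfl fun k _ => Finset.sum_congr rfl fun l _ => ?_
    ring
  rw [e]
  refine h.trans (le_of_eq ?_)
  ring

theorem g3_F2 {R : R4 N} {ρ : ℝ} (hρ : 0 ≤ ρ) (hR : RB R ρ) (a b c d : Lt (N + N) → ℂ) :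
    ‖g3F2 R a b c d‖ ≤ ρ * nrm a * nrm b * nrm c * nrm d := by
  have h := g3_bd hρ hR (a := a) (b := b) (c := d) (d := c) (fun i => a (lo i, true))
    (fun j => b (lo j, true)) (fun p => d (lo p, false)) (fun l => c (hi l, true))
    (g3_nrm_le a _ (g3_lo_inj true)) (g3_nrm_le b _ (g3_lo_inj true))
    (g3_nrm_le d _ (g3_lo_inj false)) (g3_nrm_le c _ (g3_hi_inj true))
  have e : g3F2 R a b c d = ∑ i, ∑ j, ∑ k, ∑ l, R i j k l * a (lo i, true) * b (lo j, true) *
      d (lo k, false) * c (hi l, true) := by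
    unfold g3F2
    refine Finset.sum_congr rfl fun p _ => Finset.sum_congr rfl fun j _ =>
      Finset.sum_congr rfl fun k _ => Finset.sum_congr rfl fun l _ => ?_
    ring
  rw [e]
  refine h.trans (le_of_eq ?_)
  ring

theorem g3_ev_U1 (R : R4 N) (a b c d : Lt (N + N) → ℂ) :
    ev [a, b, c, d] (g3U1 R) = (1 / 6 : ℂ) * (g3F1 R a b c d - g3F1 R b a c d - g3F1 R a c b d -
      g3F1 R c b a d + g3F1 R c a b d + g3F1 R b c a d) := by
  unfold g3U1 g3F1
  simp only [ev_sum, ev_smul, g3_ev_e]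
  simp only [← Finset.sum_sub_distrib, ← Finset.sum_add_distrib, Finset.mul_sum]
  refine Finset.sum_congr rfl fun p _ => Finset.sum_congr rfl fun j _ =>
      Finset.sum_congr rfl fun k _ => Finset.sum_congr rfl fun l _ => ?_
  ring

theorem g3_ev_U2 (R : R4 N) (a b c d : Lt (N + N) → ℂ) :
    ev [a, b, c, d] (g3U2 R) = (1 / 6 : ℂ) * (g3F2 R a b c d - g3F2 R b a c d - g3F2 R a c b d -
      g3F2 R c b a d + g3F2 R c a b d + g3F2 R b c a d) := by
  unfold g3U2 g3F2
  simp only [ev_sum, ev_smul, g3_ev_e]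
  simp only [← Finset.sum_sub_distrib, ← Finset.sum_add_distrib, Finset.mul_sum]
  refine Finset.sum_congr rfl fun p _ => Finset.sum_congr rfl fun j _ =>
      Finset.sum_congr rfl fun k _ => Finset.sum_congr rfl fun l _ => ?_
  ring

theorem g3_six {x1 x2 x3 x4 x5 x6 : ℂ} {B : ℝ} (h1 : ‖x1‖ ≤ B) (h2 : ‖x2‖ ≤ B) (h3 : ‖x3‖ ≤ B)
    (h4 : ‖x4‖ ≤ B) (h5 : ‖x5‖ ≤ B) (h6 : ‖x6‖ ≤ B) :
    ‖(1 / 6 : ℂ) * (x1 - x2 - x3 - x4 + x5 + x6)‖ ≤ B := by
  rw [norm_mul]
  have e : ‖(1 / 6 : ℂ)‖ = 1 / 6 := by norm_num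
  rw [e]
  have h : ‖x1 - x2 - x3 - x4 + x5 + x6‖ ≤ ‖x1‖ + ‖x2‖ + ‖x3‖ + ‖x4‖ + ‖x5‖ + ‖x6‖ := by
    refine (norm_add_le _ _).trans (add_le_add ?_ le_rfl)
    refine (norm_add_le _ _).trans (add_le_add ?_ le_rfl)
    refine (norm_sub_le _ _).trans (add_le_add ?_ le_rfl)
    refine (norm_sub_le _ _).trans (add_le_add ?_ le_rfl)
    exact norm_sub_le _ _
  linarith

theorem g3_inj {R : R4 N} {ρ : ℝ} (hρ : 0 ≤ ρ) (hR : RB R ρ) : Inj 4 (g3U R) (4 * ρ) := by
  intro xs hxs
  obtain ⟨a, b, c, d, rfl⟩ : ∃ a b c d, xs = [a, b, c, d] := by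
    match xs, hxs with
    | [a, b, c, d], _ => exact ⟨a, b, c, d, rfl⟩
  have e : ev [a, b, c, d] (g3U R) = 2 * ev [a, b, c, d] (g3U1 R) +
      (-2) * ev [a, b, c, d] (g3U2 R) := by
    unfold g3U
    rw [ev_add, ev_smul, ev_smul]
  have h1 : ‖ev [a, b, c, d] (g3U1 R)‖ ≤ ρ * (nrm a * nrm b * nrm c * nrm d) := by
    rw [g3_ev_U1]
    refine g3_six ?_ ?_ ?_ ?_ ?_ ?_
    all_goals
      refine (g3_F1 hρ hR _ _ _ _).trans (le_of_eq ?_)
      ring
  have h2 : ‖ev [a, b, c, d] (g3U2 R)‖ ≤ ρ * (nrm a * nrm b * nrm c * nrm d) := by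
    rw [g3_ev_U2]
    refine g3_six ?_ ?_ ?_ ?_ ?_ ?_
    all_goals
      refine (g3_F2 hρ hR _ _ _ _).trans (le_of_eq ?_)
      ring
  have e2 : (List.map nrm [a, b, c, d]).prod = nrm a * nrm b * nrm c * nrm d := by
    simp [mul_assoc]
  rw [e, e2]
  refine (norm_add_le _ _).trans ?_
  rw [norm_mul, norm_mul]
  have e3 : ‖(2 : ℂ)‖ = 2 := by norm_num
  have e4 : ‖(-2 : ℂ)‖ = 2 := by norm_num
  rw [e3, e4]
  linarith

theorem g3_U_pat (R : R4 N) : Pat 3 1 (g3U R) := by
  intro L _ hne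
  by_contra hL
  apply hne
  have hL' : L.map Prod.snd ≠ [true, true, true, false] := by
    intro h
    apply hL
    rw [h]
    rfl
  have h : ∀ i j k l : Fin (N + N), g3e (i, true) (j, true) (k, true) (l, false) L = 0 :=
    fun i j k l => g3_pat rfl rfl rfl rfl hL'
  unfold g3U g3U1 g3U2
  simp only [h, mul_zero, Finset.sum_const_zero, add_zero]

theorem g3_U_as (R : R4 N) : AS (g3U R) := by
  intro i j k q
  unfold uc g3U g3U1 g3U2
  constructor
  · simp only [g3_anti1 _ _ _ _ (i, true) (j, true), mul_neg, Finset.sum_neg_distrib]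
    ring
  · simp only [g3_anti2 _ _ _ _ _ (j, true) (k, true), mul_neg, Finset.sum_neg_distrib]
    ring

theorem g3_op_abs {𝓡 : Type*} [Ring 𝓡] [Algebra ℂ 𝓡] (A : Lt (N + N) → 𝓡) (R : R4 N)
    (hA : ∀ i j, A (j, true) * A (i, true) = - (A (i, true) * A (j, true))) :
    op A 4 (g3U R) = (2 : ℂ) • (∑ p, ∑ j, ∑ k, ∑ l, R p j k l •
    (A (lo j, true) * A (hi k, true) * A (hi l, true) * A (hi p, false))) -
  (2 : ℂ) • (∑ i, ∑ j, ∑ p, ∑ l, R i j p l •
    (A (lo i, true) * A (lo j, true) * A (hi l, true) * A (lo p, false))) := by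
  unfold g3U g3U1 g3U2
  rw [op_add, op_smul, op_smul]
  simp only [op_sum, op_smul]
  have e : ∀ i j k (w : Lt (N + N)), op A 4 (g3e (i, true) (j, true) (k, true) w) =
      A (i, true) * A (j, true) * A (k, true) * A w := by
    intro i j k w
    exact g3_op_e A _ _ _ _ (hA _ _) (hA _ _) (hA _ _)
  simp only [e]
  rw [neg_smul, ← sub_eq_add_neg]

theorem exists_U {R : R4 N} {ρ : ℝ} (hρ : 0 ≤ ρ) (hR : RB R ρ) :
    ∃ U : List (Lt (N + N)) → ℂ, Uok U (4 * ρ) ∧ op fA 4 U = UU R := by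
  refine ⟨g3U R, ⟨by positivity, g3_inj hρ hR, g3_U_pat R, g3_U_as R⟩, ?_⟩
  refine g3_op_abs fA R ?_
  intro i j
  have h := (fock_car (N + N)).car (j, true) (i, true)
  rw [if_neg (by simp [sg])] at h
  exact eq_neg_of_add_eq_zero_left h

end Pool.Agent.H46P
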