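import Pool.Agent.Lib.H46P.G2
import Pool.Agent.Lib.H46P.G3

/-!
# Chunk G4: the criterion, and the piece `J`

`criterion`: suppose `ell R vac = 0`.  `ker L0 ⊆ ℂ vac` (`c = 0` in the hypothesis), so its dimension
is `≤ 1` and `dim range L0 ≥ dim Fk - 1`; `vac ∉ range L0` (if `L0 f = vac` then `f = c' • vac`,
`L0 f = 0 ≠ vac`); so `range L0 ⊔ ℂ vac = ⊤`. But `ell R` (linear) vanishes on `range L0` (`ell_L0`) and on
`vac`: `ell R = 0`. But `ell R (exp (-(ω+V)) e_univ) = 1`.
`Jn`: tensor `1/2` on `[(lo i, false), (hi i, false)]`, `-1/2` on `[(hi i, false), (lo i, false)]`;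
`‖ev [x, y] T‖ = 1/2 ‖∑ x_lo y_hi - x_hi y_lo‖ ≤ 1/2 nrm x nrm y` (Cauchy-Schwarz).
-/

namespace Pool.Agent.H46P

open Finset
open scoped BigOperators ComplexConjugate InnerProductSpace

variable {N : ℕ}

theorem g4_unit {R : Type*} [NormedRing R] [NormedAlgebra ℂ R] [CompleteSpace R] (x : R) : IsUnit (NormedSpace.exp x) := by
  let _ : NormedAlgebra ℚ R := NormedAlgebra.restrictScalars ℚ ℂ R
  exact NormedSpace.isUnit_exp x

theorem g4_mod {M : Type*} [AddCommGroup M] [Module ℂ M] (p q r s : Prop) [Decidable p] [Decidable q] [Decidable r]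
    [Decidable s] (X : M) :
    ((1 / 2 : ℂ) * ((if p then 1 else 0) * (if q then 1 else 0) - (if r then 1 else 0) * (if s then 1 else 0))) • X =
      (if p then (if q then (1 / 2 : ℂ) • X else 0) else 0) - (if r then (if s then (1 / 2 : ℂ) • X else 0) else 0) := by
  split_ifs <;> simp

theorem g4_half {M : Type*} [AddCommGroup M] [Module ℂ M] (X : M) : (1 / 2 : ℂ) • X + (1 / 2 : ℂ) • X = X := by module

theorem g4_cs {ι : Type*} (s : Finset ι) (f h : ι → ℝ) :
    ∑ i ∈ s, f i * h i ≤ √(∑ i ∈ s, f i ^ 2) * √(∑ i ∈ s, h i ^ 2) := by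
  rw [← Real.sqrt_mul (Finset.sum_nonneg fun _ _ => by positivity)]
  exact Real.le_sqrt_of_sq_le (Finset.sum_mul_sq_le_sq_mul_sq s f h)

theorem criterion {R : R4 N} (hR : Skew R)
    (h : ∀ (f : Fk (N + N)) (c : ℂ), L0 R f = c • vac → ∃ c' : ℂ, f = c' • vac) :
    ell R vac ≠ 0 := by
  intro h0
  -- the coordinate at the empty set
  have hvac : (vac : Fk (N + N)) (∅ : Finset (Fin (N + N))) = 1 := by
    rw [e2_vac_apply, if_pos rfl]
  let M : Fk (N + N) →ₗ[ℂ] Fk (N + N) :=
    { toFun := fun f => L0 R f + (f (∅ : Finset (Fin (N + N)))) • vac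
      map_add' := by
        intro f g
        rw [map_add, PiLp.add_apply, add_smul]
        abel
      map_smul' := by
        intro a f
        rw [map_smul, PiLp.smul_apply, RingHom.id_apply, smul_add, smul_smul]
        rfl }
  have hinj : Function.Injective M := by
    rw [← LinearMap.ker_eq_bot, LinearMap.ker_eq_bot']
    intro f hf
    have h1 : L0 R f + (f (∅ : Finset (Fin (N + N)))) • vac = 0 := hf
    have h2 : L0 R f = (-(f (∅ : Finset (Fin (N + N))))) • vac := by
      rw [neg_smul]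
      exact eq_neg_of_add_eq_zero_left h1
    obtain ⟨c', hc'⟩ := h f _ h2
    have h3 : L0 R f = 0 := by rw [hc', map_smul, l0_vac, smul_zero]
    rw [h3, zero_add] at h1
    have h4 : f (∅ : Finset (Fin (N + N))) = 0 := by
      rcases smul_eq_zero.1 h1 with h5 | h5
      · exact h5
      · exact absurd h5 vac_ne_zero
    have h5 : f (∅ : Finset (Fin (N + N))) = c' := by
      rw [hc', PiLp.smul_apply, hvac, smul_eq_mul, mul_one]
    rw [hc', ← h5, h4, zero_smul]
  have hsurj : Function.Surjective M := LinearMap.injective_iff_surjective.1 hinj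
  have hlin : ∀ (f g : Fk (N + N)) (c : ℂ), ell R (f + c • g) = ell R f + c * ell R g := by
    intro f g c
    unfold ell
    rw [map_add, map_smul, PiLp.add_apply, PiLp.smul_apply, smul_eq_mul]
  have hzero : ∀ g : Fk (N + N), ell R g = 0 := by
    intro g
    obtain ⟨f, hf⟩ := hsurj g
    have h1 : g = L0 R f + (f (∅ : Finset (Fin (N + N)))) • vac := hf.symm
    rw [h1, hlin, ell_L0 hR, h0, mul_zero, add_zero]
  obtain ⟨u, hu⟩ : IsUnit (NormedSpace.exp (om N + Vh R)) := g4_unit _
  have h1 := hzero (((u⁻¹ : (Fk (N + N) →L[ℂ] Fk (N + N))ˣ) : Fk (N + N) →L[ℂ] Fk (N + N))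
    (EuclideanSpace.single univ 1))
  unfold ell at h1
  rw [← hu] at h1
  have h2 : (u : Fk (N + N) →L[ℂ] Fk (N + N)) (((u⁻¹ : (Fk (N + N) →L[ℂ] Fk (N + N))ˣ) : Fk (N + N) →L[ℂ] Fk (N + N))
      (EuclideanSpace.single univ 1)) = EuclideanSpace.single univ 1 := by
    rw [← ContinuousLinearMap.mul_apply, Units.mul_inv, ContinuousLinearMap.one_apply]
  rw [h2] at h1
  simp at h1

/-- The tensor of `J`. -/
noncomputable def g4_T (N : ℕ) : List (Lt (N + N)) → ℂ
  | [k, l] => ∑ i : Fin N, (1 / 2 : ℂ) * ((if k = (lo i, false) then 1 else 0) * (if l = (hi i, false) then 1 else 0) -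
      (if k = (hi i, false) then 1 else 0) * (if l = (lo i, false) then 1 else 0))
  | _ => 0

theorem g4_sum {α : Type*} [Fintype α] [DecidableEq α] (a : α) (x : α → ℂ) : ∑ k, x k * (if k = a then 1 else 0) = x a := by
  simp

theorem g4_ev (N : ℕ) (x y : Lt (N + N) → ℂ) : ev [x, y] (g4_T N) =
    ∑ i : Fin N, (1 / 2 : ℂ) * (x (lo i, false) * y (hi i, false) - x (hi i, false) * y (lo i, false)) := by
  rw [ev_cons]
  simp only [ev_cons, ev_nil]
  have e1 : ∀ k, ∑ l, y l * g4_T N [k, l] = ∑ i : Fin N, (1 / 2 : ℂ) * ((if k = (lo i, false) then 1 else 0) * y (hi i, false) -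
      (if k = (hi i, false) then 1 else 0) * y (lo i, false)) := by
    intro k
    simp only [g4_T, Finset.mul_sum]
    rw [Finset.sum_comm]
    refine Finset.sum_congr rfl fun i _ => ?_
    have e2 : ∀ l, y l * ((1 / 2 : ℂ) * ((if k = (lo i, false) then 1 else 0) * (if l = (hi i, false) then 1 else 0) -
      (if k = (hi i, false) then 1 else 0) * (if l = (lo i, false) then 1 else 0))) =
      (1 / 2 : ℂ) * (if k = (lo i, false) then 1 else 0) * (y l * (if l = (hi i, false) then 1 else 0)) -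
      (1 / 2 : ℂ) * (if k = (hi i, false) then 1 else 0) * (y l * (if l = (lo i, false) then 1 else 0)) := by
      intro l
      ring
    simp only [e2]
    rw [Finset.sum_sub_distrib, ← Finset.mul_sum, ← Finset.mul_sum, g4_sum, g4_sum]
    ring
  simp only [e1, Finset.mul_sum]
  rw [Finset.sum_comm]
  refine Finset.sum_congr rfl fun i _ => ?_
  have e2 : ∀ k, x k * ((1 / 2 : ℂ) * ((if k = (lo i, false) then 1 else 0) * y (hi i, false) -
      (if k = (hi i, false) then 1 else 0) * y (lo i, false))) =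
      (1 / 2 : ℂ) * y (hi i, false) * (x k * (if k = (lo i, false) then 1 else 0)) -
      (1 / 2 : ℂ) * y (lo i, false) * (x k * (if k = (hi i, false) then 1 else 0)) := by
    intro k
    ring
  simp only [e2]
  rw [Finset.sum_sub_distrib, ← Finset.mul_sum, ← Finset.mul_sum, g4_sum, g4_sum]
  ring

theorem g4_nrm (N : ℕ) (x : Lt (N + N) → ℂ) :
    ∑ i : Fin N, (‖x (lo i, false)‖ ^ 2 + ‖x (hi i, false)‖ ^ 2) ≤ nrm x ^ 2 := by
  rw [nrm_sq, Fintype.sum_prod_type]
  have h1 : ∀ p : Fin (N + N), ‖x (p, false)‖ ^ 2 ≤ ∑ b : Bool, ‖x (p, b)‖ ^ 2 := fun p =>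
    Finset.single_le_sum (f := fun b => ‖x (p, b)‖ ^ 2) (fun _ _ => by positivity) (Finset.mem_univ false)
  refine le_trans ?_ (Finset.sum_le_sum fun p _ => h1 p)
  rw [Fin.sum_univ_add, Finset.sum_add_distrib]
  exact le_of_eq rfl

theorem g4_inj (N : ℕ) : Inj 2 (g4_T N) (1 / 2) := by
  intro xs hx
  match xs, hx with
  | [x, y], _ =>
    rw [g4_ev, ← Finset.mul_sum]
    simp only [List.map_cons, List.map_nil, List.prod_cons, List.prod_nil, mul_one]
    rw [norm_mul]
    have e : ‖(1 / 2 : ℂ)‖ = 1 / 2 := by norm_num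
    rw [e]
    apply mul_le_mul_of_nonneg_left _ (by norm_num)
    have h1 : ‖∑ i : Fin N, (x (lo i, false) * y (hi i, false) - x (hi i, false) * y (lo i, false))‖ ≤
        ∑ i : Fin N, √(‖x (lo i, false)‖ ^ 2 + ‖x (hi i, false)‖ ^ 2) * √(‖y (lo i, false)‖ ^ 2 + ‖y (hi i, false)‖ ^ 2) := by
      refine (norm_sum_le _ _).trans (Finset.sum_le_sum fun i _ => ?_)
      refine (norm_sub_le _ _).trans ?_
      rw [norm_mul, norm_mul, ← Real.sqrt_mul (by positivity)]
      apply Real.le_sqrt_of_sq_le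
      nlinarith [sq_nonneg (‖x (lo i, false)‖ * ‖y (lo i, false)‖ - ‖x (hi i, false)‖ * ‖y (hi i, false)‖)]
    refine h1.trans ?_
    have h2 := g4_cs Finset.univ (fun i : Fin N => √(‖x (lo i, false)‖ ^ 2 + ‖x (hi i, false)‖ ^ 2))
      (fun i : Fin N => √(‖y (lo i, false)‖ ^ 2 + ‖y (hi i, false)‖ ^ 2))
    refine h2.trans ?_
    have h3 : ∀ z : Lt (N + N) → ℂ, √(∑ i : Fin N, √(‖z (lo i, false)‖ ^ 2 + ‖z (hi i, false)‖ ^ 2) ^ 2) ≤ nrm z := by
      intro z
      rw [← Real.sqrt_sq (nrm_nonneg z)]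
      apply Real.sqrt_le_sqrt
      refine le_trans (le_of_eq ?_) (g4_nrm N z)
      exact Finset.sum_congr rfl fun i _ => Real.sq_sqrt (by positivity)
    exact mul_le_mul (h3 x) (h3 y) (Real.sqrt_nonneg _) (nrm_nonneg x)

theorem g4_op (N : ℕ) : op fA 2 (g4_T N) = Del N := by
  have h1 : op fA 2 (g4_T N) = ∑ k : Lt (N + N), ∑ l : Lt (N + N), g4_T N [k, l] • (fA k * fA l) := by
    rw [op_succ]
    refine Finset.sum_congr rfl fun k _ => ?_
    rw [op_succ, Finset.mul_sum]
    refine Finset.sum_congr rfl fun l _ => ?_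
    rw [op_zero, Algebra.algebraMap_eq_smul_one, mul_smul_comm, mul_one, mul_smul_comm]
  rw [h1]
  unfold Del
  have h2 : ∀ k l : Lt (N + N), g4_T N [k, l] • (fA k * fA l) = ∑ i : Fin N, ((1 / 2 : ℂ) *
      ((if k = (lo i, false) then 1 else 0) * (if l = (hi i, false) then 1 else 0) -
      (if k = (hi i, false) then 1 else 0) * (if l = (lo i, false) then 1 else 0))) • (fA k * fA l) := by
    intro k l
    rw [← Finset.sum_smul]
    rfl
  simp only [h2]
  rw [Finset.sum_congr rfl fun k _ => Finset.sum_comm, Finset.sum_comm]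
  refine Finset.sum_congr rfl fun i _ => ?_
  have h3 : ∀ k l : Lt (N + N), ((1 / 2 : ℂ) * ((if k = (lo i, false) then 1 else 0) * (if l = (hi i, false) then 1 else 0) -
      (if k = (hi i, false) then 1 else 0) * (if l = (lo i, false) then 1 else 0))) • (fA k * fA l) =
      (if k = (lo i, false) then (if l = (hi i, false) then (1 / 2 : ℂ) • (fA k * fA l) else 0) else 0) -
      (if k = (hi i, false) then (if l = (lo i, false) then (1 / 2 : ℂ) • (fA k * fA l) else 0) else 0) := by
    intro k l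
    exact g4_mod _ _ _ _ (fA k * fA l)
  simp only [h3, Finset.sum_sub_distrib, Finset.sum_ite_eq', Finset.mem_univ, if_true]
  have h4 : ∀ a b : Lt (N + N), ∑ k : Lt (N + N), ∑ l : Lt (N + N),
      (if k = a then (if l = b then (1 / 2 : ℂ) • (fA k * fA l) else 0) else 0) = (1 / 2 : ℂ) • (fA a * fA b) := by
    intro a b
    rw [Finset.sum_eq_single a]
    · rw [Finset.sum_eq_single b]
      · simp
      · intro l _ hl
        simp [hl]
      · intro h
        exact absurd (Finset.mem_univ b) h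
    · intro k _ hk
      simp [hk]
    · intro h
      exact absurd (Finset.mem_univ a) h
  rw [h4, h4]
  have h5 := (fock_car (N + N)).car (lo i, false) (hi i, false)
  rw [if_neg] at h5
  · have h6 : (fA (hi i, false) : Fk (N + N) →L[ℂ] Fk (N + N)) * fA (lo i, false) = -(fA (lo i, false) * fA (hi i, false)) :=
      eq_neg_of_add_eq_zero_right h5
    rw [h6, smul_neg, sub_neg_eq_add]
    exact g4_half _
  · intro h
    have := congrArg Prod.snd h
    simp [sg] at this

theorem exists_J (N : ℕ) : ∃ J : An (N + N), J.ok ∧ J.d = 2 ∧ J.c = 1 / 2 ∧ J.o = Del N := by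
  refine ⟨⟨2, g4_T N, 1 / 2⟩, ⟨even_two, le_refl 2, by norm_num, g4_inj N, ?_⟩, rfl, rfl, g4_op N⟩
  intro L hL hT
  match L, hL with
  | [k, l], _ =>
    by_contra hcon
    apply hT
    show ∑ i : Fin N, (1 / 2 : ℂ) * ((if k = (lo i, false) then 1 else 0) * (if l = (hi i, false) then 1 else 0) -
      (if k = (hi i, false) then 1 else 0) * (if l = (lo i, false) then 1 else 0)) = 0
    apply Finset.sum_eq_zero
    intro i _
    by_cases hk : k.2 = false
    · by_cases hl : l.2 = false
      · exfalso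
        apply hcon
        simp [hk, hl, List.replicate]
      · have h1 : l ≠ (hi i, false) := fun h => hl (by rw [h])
        have h2 : l ≠ (lo i, false) := fun h => hl (by rw [h])
        simp [h1, h2]
    · have h1 : k ≠ (hi i, false) := fun h => hk (by rw [h])
      have h2 : k ≠ (lo i, false) := fun h => hk (by rw [h])
      simp [h1, h2]

end Pool.Agent.H46P
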