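import Pool.Agent.Lib.H46P.GADefs

/-!
# H46P, chunk GA1: the Gaussian functional is positive

PROOF. `√π (2k-1)!! / 2^k = Γ(k + 1/2) = ∫_0^∞ s^(k - 1/2) exp(-s) ds` (`Real.Gamma_nat_add_half`,
`Real.Gamma_eq_integral`, `Real.GammaIntegral_convergent`).  Hence
`√π * gml p = ∫_0^∞ s^(-1/2) exp(-s) p(2 s) ds` by linearity (`p.eval (2 s) = ∑ coeff k * (2 s)^k`,
`Polynomial.eval_eq_sum_range`; `integral_finset_sum`), and the integrand is nonnegative.
-/

namespace Pool.Agent.H46P

open Finset Polynomial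
open scoped BigOperators Nat

theorem gml_nonneg (p : ℝ[X]) (hp : ∀ x : ℝ, 0 ≤ x → 0 ≤ p.eval x) : 0 ≤ gml p := by
  have hπ : 0 < √Real.pi := Real.sqrt_pos.2 Real.pi_pos
  have hk : ∀ k : ℕ, √Real.pi * dfm k =
      2 ^ k * ∫ x in Set.Ioi (0 : ℝ), Real.exp (-x) * x ^ ((k : ℝ) + 1 / 2 - 1) := by
    intro k
    rw [← Real.Gamma_eq_integral (by positivity), Real.Gamma_nat_add_half]
    have h2 : (2 : ℝ) ^ k ≠ 0 := by positivity
    unfold dfm
    field_simp
  have h1 : √Real.pi * gml p = ∫ x in Set.Ioi (0 : ℝ),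
      ∑ k ∈ range (p.natDegree + 1), (p.coeff k * 2 ^ k) *
        (Real.exp (-x) * x ^ ((k : ℝ) + 1 / 2 - 1)) := by
    rw [MeasureTheory.integral_finsetSum]
    · unfold gml
      rw [Finset.mul_sum]
      refine Finset.sum_congr rfl fun k _ => ?_
      rw [MeasureTheory.integral_const_mul, mul_assoc, ← hk]
      ring
    · intro k _
      exact (Real.GammaIntegral_convergent (s := (k : ℝ) + 1 / 2) (by positivity)).const_mul _
  have h2 : 0 ≤ √Real.pi * gml p := by
    rw [h1]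
    refine MeasureTheory.setIntegral_nonneg measurableSet_Ioi fun x hx => ?_
    have hx' : (0 : ℝ) < x := hx
    have h3 : ∑ k ∈ range (p.natDegree + 1), (p.coeff k * 2 ^ k) *
        (Real.exp (-x) * x ^ ((k : ℝ) + 1 / 2 - 1)) =
        Real.exp (-x) * x ^ (-(1 / 2) : ℝ) * p.eval (2 * x) := by
      rw [Polynomial.eval_eq_sum_range, Finset.mul_sum]
      refine Finset.sum_congr rfl fun k _ => ?_
      have h4 : (k : ℝ) + 1 / 2 - 1 = k + (-(1 / 2)) := by ring
      rw [h4, Real.rpow_add hx', Real.rpow_natCast, mul_pow]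
      ring
    rw [h3]
    have h4 := hp (2 * x) (by positivity)
    positivity
  exact nonneg_of_mul_nonneg_right h2 hπ

end Pool.Agent.H46P
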