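import Pool.Agent.Lib.H46P.GADefs

/-!
# H46P, chunk GA2: lower bound of a monic polynomial with roots in a disc

PROOF. Over `ℂ` the polynomial is `∏ (X - ζ_i)` (`IsAlgClosed.splits`, `Polynomial.Monic` and
`Polynomial.eval_eq_prod_roots_of_monic_of_splits_id` or a similar name), `n` roots with multiplicity.
(i) `x > a`: `|q(x)| = ∏ |x - ζ_i| ≥ (x - a)^n`, and `q(x) > 0`: otherwise `q` has a real zero
`≥ x > a` (intermediate value theorem, `q → +∞`: `Polynomial.tendsto_atTop_of_leadingCoeff_nonneg`).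
(ii) `0 ≤ x ≤ a`: `|q(x)| ≤ (x + a)^n ≤ (2a)^n`.
If `x ≥ 4a` (and `x > a`, or `x = a = 0`: then both sides are easy): `(x - a)^n ≥ (3x/4)^n`.
If `a ≤ x < 4a`: `q(x) ≥ 0` (for `x = a` by (ii) only `≥ -(2a)^n`, fine) and `x^n ≤ (4a)^n`.
If `x < a`: (ii) and `x^n ≤ (4a)^n`.
-/

namespace Pool.Agent.H46P

open Finset Polynomial
open scoped BigOperators Nat

theorem ga2_up {y a : ℝ} (hy : 0 ≤ y) (ha : 0 ≤ a) (s : Multiset ℂ) (hs : ∀ z ∈ s, ‖z‖ ≤ a) :
    ‖(s.map fun z => (y : ℂ) - z).prod‖ ≤ (y + a) ^ (Multiset.card s) := by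
  induction s using Multiset.induction_on with
  | empty => simp
  | cons z s ih =>
    rw [Multiset.map_cons, Multiset.prod_cons, norm_mul, Multiset.card_cons, pow_succ']
    have h1 := ih fun w hw => hs w (Multiset.mem_cons_of_mem hw)
    have h2 := hs z (Multiset.mem_cons_self z s)
    have h3 : ‖(y : ℂ) - z‖ ≤ y + a := by
      have h4 := norm_sub_le (y : ℂ) z
      rw [Complex.norm_real, Real.norm_eq_abs, abs_of_nonneg hy] at h4
      linarith
    exact mul_le_mul h3 h1 (norm_nonneg _) (by linarith)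

theorem ga2_low {y a : ℝ} (hy : 0 ≤ y) (ha : a ≤ y) (s : Multiset ℂ) (hs : ∀ z ∈ s, ‖z‖ ≤ a) :
    (y - a) ^ (Multiset.card s) ≤ ‖(s.map fun z => (y : ℂ) - z).prod‖ := by
  induction s using Multiset.induction_on with
  | empty => simp
  | cons z s ih =>
    rw [Multiset.map_cons, Multiset.prod_cons, norm_mul, Multiset.card_cons, pow_succ']
    have h1 := ih fun w hw => hs w (Multiset.mem_cons_of_mem hw)
    have h2 := hs z (Multiset.mem_cons_self z s)
    have h3 : y - a ≤ ‖(y : ℂ) - z‖ := by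
      have h4 := norm_sub_norm_le (y : ℂ) z
      rw [Complex.norm_real, Real.norm_eq_abs, abs_of_nonneg hy] at h4
      linarith
    exact mul_le_mul h3 h1 (pow_nonneg (by linarith) _) (norm_nonneg _)

theorem monic_lower (n : ℕ) (hn : 1 ≤ n) (q : ℝ[X]) (hq : q.Monic) (hd : q.natDegree = n)
    (a : ℝ) (ha : 0 < a)
    (hr : ∀ z : ℂ, (q.map (algebraMap ℝ ℂ)).IsRoot z → ‖z‖ ≤ a) (x : ℝ) (hx : 0 ≤ x) :
    (3 / 4) ^ n * (x ^ n - (4 * a) ^ n) - (2 * a) ^ n ≤ q.eval x := by
  set Q : ℂ[X] := q.map (algebraMap ℝ ℂ) with hQ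
  have hQm : Q.Monic := hq.map _
  have hQd : Q.natDegree = n := by rw [hQ, Polynomial.natDegree_map, hd]
  have hsp : Q.Splits := IsAlgClosed.splits Q
  have hcard : Multiset.card Q.roots = n := by rw [← hsp.natDegree_eq_card_roots, hQd]
  have hprod := hsp.eq_prod_roots_of_monic hQm
  have hroot : ∀ z ∈ Q.roots, ‖z‖ ≤ a := fun z hz => hr z (Polynomial.isRoot_of_mem_roots hz)
  have hev : ∀ y : ℝ, ‖Q.eval (y : ℂ)‖ = |q.eval y| := by
    intro y
    have h1 : Q.eval (y : ℂ) = ((q.eval y : ℝ) : ℂ) := by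
      rw [hQ, Polynomial.eval_map_algebraMap]
      exact Polynomial.aeval_algebraMap_apply_eq_algebraMap_eval y q
    rw [h1, Complex.norm_real, Real.norm_eq_abs]
  have hevp : ∀ y : ℝ, Q.eval (y : ℂ) = (Q.roots.map fun z => (y : ℂ) - z).prod := by
    intro y
    conv_lhs => rw [hprod]
    rw [Polynomial.eval_multiset_prod, Multiset.map_map]
    simp
  have hup : ∀ y : ℝ, 0 ≤ y → |q.eval y| ≤ (y + a) ^ n := by
    intro y hy
    rw [← hev, hevp, ← hcard]
    exact ga2_up hy ha.le _ hroot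
  have hlow : ∀ y : ℝ, a ≤ y → (y - a) ^ n ≤ |q.eval y| := by
    intro y hy
    rw [← hev, hevp, ← hcard]
    exact ga2_low (ha.le.trans hy) hy _ hroot
  have hpos : ∀ y : ℝ, a < y → 0 < q.eval y := by
    intro y hy
    by_contra hneg
    rw [not_lt] at hneg
    have hdeg : 0 < q.degree := by
      rw [← Polynomial.natDegree_pos_iff_degree_pos, hd]
      omega
    have ht := Polynomial.tendsto_atTop_of_leadingCoeff_nonneg q hdeg
      (by rw [hq.leadingCoeff]; exact zero_le_one)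
    obtain ⟨w, hw1, hw2⟩ := ((ht.eventually_gt_atTop 0).and (Filter.eventually_ge_atTop y)).exists
    obtain ⟨z, hz1, hz2⟩ := intermediate_value_Icc hw2 (f := fun t => q.eval t)
      q.continuous.continuousOn ⟨hneg, hw1.le⟩
    have h3 := hlow z (hy.le.trans hz1.1)
    have h4 : q.eval z = 0 := hz2
    rw [h4, abs_zero] at h3
    have h5 : 0 < (z - a) ^ n := pow_pos (by linarith [hz1.1]) n
    linarith
  have h34 : (0 : ℝ) ≤ (3 / 4) ^ n := by positivity
  have h2a : (0 : ℝ) ≤ (2 * a) ^ n := by positivity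
  rcases le_or_gt x a with h1 | h1
  · have h2 := (abs_le.1 (hup x hx)).1
    have h3 : (x + a) ^ n ≤ (2 * a) ^ n := pow_le_pow_left₀ (by linarith) (by linarith) n
    have h4 : x ^ n ≤ (4 * a) ^ n := pow_le_pow_left₀ hx (by linarith) n
    nlinarith
  · have h2 := hpos x h1
    rcases le_or_gt (4 * a) x with h3 | h3
    · have h4 := hlow x h1.le
      rw [abs_of_pos h2] at h4
      have h5 : (3 / 4 * x) ^ n ≤ (x - a) ^ n := pow_le_pow_left₀ (by linarith) (by linarith) n
      rw [mul_pow] at h5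
      have h6 : (0 : ℝ) ≤ (3 / 4) ^ n * (4 * a) ^ n := by positivity
      linarith
    · have h4 : x ^ n ≤ (4 * a) ^ n := pow_le_pow_left₀ hx h3.le n
      nlinarith

end Pool.Agent.H46P
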