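import Pool.Agent.Lib.H46P.GADefs

/-!
# H46P, chunk GA3: the double factorial

PROOF. `dfm_succ`: `(2 (k+1) - 1)!! = (2k+1) (2k-1)!!` (`Nat.doubleFactorial_add_two`, case `k = 0`).
`dfm_fact`: `(2k)! = 2^k k! (2k-1)!!`, induction.  `dfm_lower`: `(n/3)^n ≤ n! ≤ (2n-1)!!`; the first
by induction with `(1 + 1/n)^n ≤ e < 3` (`Real.exp_one_lt_d9`, `Real.add_one_le_exp`) or from
`n^n / n! ≤ exp n` (`Real.pow_div_factorial_le_exp`); the second by induction with `dfm_succ`.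
`dfm_num`: with `dfm_lower`, `(3/4)^n * (n/3)^n = (n/4)^n`, `(3/4)^n * (4 (n/20))^n = (3 n/20)^n`,
`(2 (n/20))^n = (n/10)^n`, and `(3/5)^n + (2/5)^n < 1` for `n ≥ 2`.
-/

namespace Pool.Agent.H46P

open Finset
open scoped BigOperators Nat

theorem dfm_zero : dfm 0 = 1 := by
  simp [dfm]

theorem dfm_succ (k : ℕ) : dfm (k + 1) = (2 * k + 1) * dfm k := by
  unfold dfm
  rcases k with _ | k
  · simp
  · have h1 : 2 * (k + 1 + 1) - 1 = (2 * k + 1) + 2 := by omega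
    have h2 : 2 * (k + 1) - 1 = 2 * k + 1 := by omega
    rw [h1, h2, Nat.doubleFactorial_add_two]
    push_cast
    ring

theorem dfm_fact (k : ℕ) : ((2 * k).factorial : ℝ) = 2 ^ k * k.factorial * dfm k := by
  induction k with
  | zero => simp [dfm_zero]
  | succ k ih =>
    have h1 : 2 * (k + 1) = 2 * k + 1 + 1 := by ring
    rw [h1, Nat.factorial_succ, Nat.factorial_succ, Nat.factorial_succ, dfm_succ]
    push_cast
    rw [ih]
    ring

theorem dfm_lower (n : ℕ) : ((n : ℝ) / 3) ^ n ≤ dfm n := by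
  have h1 : (n.factorial : ℝ) ≤ dfm n := by
    induction n with
    | zero => simp [dfm_zero]
    | succ n ih =>
      rw [Nat.factorial_succ, dfm_succ]
      push_cast
      have h2 : (0 : ℝ) ≤ dfm n := Nat.cast_nonneg _
      exact mul_le_mul (by linarith [Nat.cast_nonneg (α := ℝ) n]) ih (by positivity)
        (by positivity)
  refine le_trans ?_ h1
  have h2 := Real.pow_div_factorial_le_exp (n : ℝ) (by positivity) n
  have h3 : Real.exp n ≤ 3 ^ n := by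
    have h4 : Real.exp n = Real.exp 1 ^ n := by
      rw [← Real.exp_nat_mul, mul_one]
    rw [h4]
    exact pow_le_pow_left₀ (Real.exp_pos 1).le (by linarith [Real.exp_one_lt_d9]) n
  have h5 : (0 : ℝ) < n.factorial := by positivity
  rw [div_le_iff₀ h5] at h2
  rw [div_pow, div_le_iff₀ (by positivity)]
  calc (n : ℝ) ^ n ≤ Real.exp n * n.factorial := h2
    _ ≤ 3 ^ n * n.factorial := by gcongr
    _ = _ := by ring

theorem dfm_num (n : ℕ) (hn : 2 ≤ n) :
    0 < (3 / 4 : ℝ) ^ n * (dfm n - (4 * ((n : ℝ) / 20)) ^ n) - (2 * ((n : ℝ) / 20)) ^ n := by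
  have h1 := dfm_lower n
  have hn' : (0 : ℝ) < n := by
    have : (0 : ℕ) < n := by omega
    exact_mod_cast this
  have hb : (0 : ℝ) < ((n : ℝ) / 4) ^ n := by positivity
  have e1 : (3 / 4 : ℝ) ^ n * ((n : ℝ) / 3) ^ n = ((n : ℝ) / 4) ^ n := by
    rw [← mul_pow]
    congr 1
    ring
  have e2 : (3 / 4 : ℝ) ^ n * (4 * ((n : ℝ) / 20)) ^ n = (3 / 5) ^ n * ((n : ℝ) / 4) ^ n := by
    rw [← mul_pow, ← mul_pow]
    congr 1
    ring
  have e3 : (2 * ((n : ℝ) / 20)) ^ n = (2 / 5) ^ n * ((n : ℝ) / 4) ^ n := by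
    rw [← mul_pow]
    congr 1
    ring
  have h35 : (3 / 5 : ℝ) ^ n ≤ (3 / 5) ^ 2 := pow_le_pow_of_le_one (by norm_num) (by norm_num) hn
  have h25 : (2 / 5 : ℝ) ^ n ≤ (2 / 5) ^ 2 := pow_le_pow_of_le_one (by norm_num) (by norm_num) hn
  have h2 : (3 / 4 : ℝ) ^ n * ((n : ℝ) / 3) ^ n ≤ (3 / 4 : ℝ) ^ n * dfm n :=
    mul_le_mul_of_nonneg_left h1 (by positivity)
  rw [e1] at h2
  rw [mul_sub, e2, e3]
  nlinarith

end Pool.Agent.H46P
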