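import Pool.Agent.Lib.H46P.GA1
import Pool.Agent.Lib.H46P.GA2
import Pool.Agent.Lib.H46P.GA3

/-!
# H46P, chunk GA4: the Gaussian average of a polynomial with zeros in a disc

PROOF. `r := C ((3/4)^n) * (X^n - C ((4a)^n)) - C ((2a)^n)`, `a = n/20`.  `monic_lower` says that
`q - r` is nonnegative on `[0, ∞)`, so `gml (q - r) ≥ 0` (`gml_nonneg`).  `gml` is linear: for any
`K ≥ natDegree p`: `gml p = ∑ k ∈ range (K + 1), coeff k * dfm k`; use `K = n` for `q`, `r`, `q - r`.
`gml r = (3/4)^n (dfm n - (4a)^n) - (2a)^n > 0` by `dfm_num` (`dfm 0 = 1`).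
-/

namespace Pool.Agent.H46P

open Finset Polynomial
open scoped BigOperators Nat

theorem ga4_gml {p : ℝ[X]} {n : ℕ} (h : p.natDegree ≤ n) :
    gml p = ∑ k ∈ range (n + 1), p.coeff k * dfm k := by
  unfold gml
  refine Finset.sum_subset (Finset.range_mono (by omega)) fun k _ hk => ?_
  rw [Finset.mem_range, not_lt] at hk
  rw [Polynomial.coeff_eq_zero_of_natDegree_lt (by omega), zero_mul]

theorem gml_pos (n : ℕ) (hn : 2 ≤ n) (q : ℝ[X]) (hq : q.Monic) (hd : q.natDegree = n)
    (hr : ∀ z : ℂ, (q.map (algebraMap ℝ ℂ)).IsRoot z → ‖z‖ ≤ n / 20) : 0 < gml q := by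
  have hn' : (0 : ℝ) < n := by
    have : (0 : ℕ) < n := by omega
    exact_mod_cast this
  have ha : (0 : ℝ) < (n : ℝ) / 20 := by positivity
  set a : ℝ := (n : ℝ) / 20 with had
  set r : ℝ[X] := C ((3 / 4 : ℝ) ^ n) * (X ^ n - C ((4 * a) ^ n)) - C ((2 * a) ^ n) with hrd
  have hrdeg : r.natDegree ≤ n := by
    refine (Polynomial.natDegree_sub_le _ _).trans (max_le ?_ ?_)
    · refine (Polynomial.natDegree_C_mul_le _ _).trans ?_
      refine (Polynomial.natDegree_sub_le _ _).trans (max_le ?_ ?_)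
      · exact (Polynomial.natDegree_X_pow _).le
      · rw [Polynomial.natDegree_C]
        exact Nat.zero_le _
    · rw [Polynomial.natDegree_C]
      exact Nat.zero_le _
  have hd2 : (q - r).natDegree ≤ n :=
    (Polynomial.natDegree_sub_le _ _).trans (max_le hd.le hrdeg)
  have h1 : 0 ≤ gml (q - r) := by
    refine gml_nonneg _ fun x hx => ?_
    have h2 := monic_lower n (by omega) q hq hd a ha hr x hx
    have h3 : r.eval x = (3 / 4) ^ n * (x ^ n - (4 * a) ^ n) - (2 * a) ^ n := by
      rw [hrd]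
      simp
    rw [Polynomial.eval_sub, h3]
    linarith
  have h2 : gml (q - r) = gml q - gml r := by
    rw [ga4_gml hd2, ga4_gml hd.le, ga4_gml hrdeg, ← Finset.sum_sub_distrib]
    refine Finset.sum_congr rfl fun k _ => ?_
    rw [Polynomial.coeff_sub]
    ring
  have h3 : gml r = (3 / 4 : ℝ) ^ n * (dfm n - (4 * a) ^ n) - (2 * a) ^ n := by
    rw [ga4_gml hrdeg]
    have h4 : ∀ k, r.coeff k * dfm k = (if k = n then (3 / 4 : ℝ) ^ n * dfm n else 0) +
        (if k = 0 then -((3 / 4 : ℝ) ^ n * (4 * a) ^ n) - (2 * a) ^ n else 0) := by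
      intro k
      rw [hrd, Polynomial.coeff_sub, Polynomial.coeff_C_mul, Polynomial.coeff_sub,
        Polynomial.coeff_X_pow, Polynomial.coeff_C, Polynomial.coeff_C]
      have hn0 : n ≠ 0 := by omega
      by_cases hk : k = n
      · rw [if_pos hk, if_pos hk, if_neg (by omega), if_neg (by omega), if_neg (by omega), hk]
        ring
      · rw [if_neg hk, if_neg hk]
        by_cases hk0 : k = 0
        · rw [if_pos hk0, if_pos hk0, if_pos hk0, hk0, dfm_zero]
          ring
        · rw [if_neg hk0, if_neg hk0, if_neg hk0]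
          ring
    simp only [h4, Finset.sum_add_distrib]
    rw [Finset.sum_ite_eq' (range (n + 1)) n, Finset.sum_ite_eq' (range (n + 1)) 0,
      if_pos (Finset.mem_range.2 (by omega)), if_pos (Finset.mem_range.2 (by omega))]
    ring
  have h4 := dfm_num n hn
  rw [← had, ← h3] at h4
  linarith

end Pool.Agent.H46P
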