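import Mathlib

/-!
# H46P, part H: the Gaussian functional on polynomials

`gml p = E p(g ^ 2)`, `g` a standard Gaussian variable; here it is defined by the moments
`E g ^ (2 k) = (2 k - 1)!!`.
-/

namespace Pool.Agent.H46P

open Finset Polynomial
open scoped BigOperators Nat

/-- `(2 k - 1)!!`. -/
noncomputable def dfm (k : ℕ) : ℝ := ((2 * k - 1)‼ : ℕ)

/-- `E p(g ^ 2)`. -/
noncomputable def gml (p : ℝ[X]) : ℝ := ∑ k ∈ range (p.natDegree + 1), p.coeff k * dfm k

end Pool.Agent.H46P
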