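import Pool.Agent.Lib.H46P.GBDefs

/-!
# H46P, chunk GB1: words of creation operators are alternating

PROOF. The linear map `x ↦ ∑ x_i a_i^*` from `Fin m → ℂ` to `Fk m →L Fk m` squares to zero
(`la_anti_cc`), so it lifts to an algebra homomorphism `Ψ` of the exterior algebra
(`ExteriorAlgebra.lift`), and `cwf f = Ψ (ExteriorAlgebra.ιMulti ℂ d (fun r => Pi.single (f r) 1))`
(`ExteriorAlgebra.ιMulti_apply`).  Then `AlternatingMap.map_perm` and
`AlternatingMap.map_eq_zero_of_not_injective`.  `cwf_pair`: a product of two creation operators commutes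
with every creation operator (`la_anti_cc` twice), induction on `d` (`cwf_cons`).
-/

namespace Pool.Agent.H46P

open Finset Equiv
open scoped BigOperators

theorem cwf_zero {m : ℕ} (f : Fin 0 → Fin m) : cwf f = 1 := by
  simp [cwf]

theorem cwf_cons {m d : ℕ} (i : Fin m) (f : Fin d → Fin m) :
    cwf (Fin.cons i f : Fin (d + 1) → Fin m) = LA m (i, true) * cwf f := by
  simp [cwf, List.ofFn_succ]

theorem gb1_ring {R : Type*} [Ring R] {a b c : R} (h1 : b * c + c * b = 0)
    (h2 : a * c + c * a = 0) : a * b * c = c * (a * b) := by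
  have h3 := eq_neg_of_add_eq_zero_left h1
  have h4 := eq_neg_of_add_eq_zero_left h2
  rw [mul_assoc, h3, mul_neg, ← mul_assoc, h4, neg_mul, neg_neg, mul_assoc]

theorem gb1_smul {R : Type*} [Ring R] [Algebra ℂ R] (c : ℂ) {a b : R} (h : a + b = 0) :
    c • a + c • b = 0 := by
  rw [← smul_add, h, smul_zero]

/-- `x ↦ ∑ x_i a_i^*` -/
noncomputable def gb1_L (m : ℕ) : (Fin m → ℂ) →ₗ[ℂ] (Fk m →L[ℂ] Fk m) :=
  ∑ i, (LinearMap.proj i : (Fin m → ℂ) →ₗ[ℂ] ℂ).smulRight (LA m (i, true))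

theorem gb1_L_apply {m : ℕ} (x : Fin m → ℂ) : gb1_L m x = ∑ i, x i • LA m (i, true) := by
  simp [gb1_L]

theorem gb1_sq {m : ℕ} (x : Fin m → ℂ) : gb1_L m x * gb1_L m x = 0 := by
  rw [gb1_L_apply, Finset.sum_mul_sum]
  have h1 : ∑ i, ∑ j, (x i • LA m (i, true)) * (x j • LA m (j, true)) =
      ∑ i, ∑ j, (x j • LA m (j, true)) * (x i • LA m (i, true)) := Finset.sum_comm
  have h2 : ∑ i, ∑ j, (x i • LA m (i, true)) * (x j • LA m (j, true)) +
      ∑ i, ∑ j, (x j • LA m (j, true)) * (x i • LA m (i, true)) = 0 := by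
    rw [← Finset.sum_add_distrib]
    refine Finset.sum_eq_zero fun i _ => ?_
    rw [← Finset.sum_add_distrib]
    refine Finset.sum_eq_zero fun j _ => ?_
    rw [smul_mul_smul_comm, smul_mul_smul_comm, mul_comm (x j) (x i)]
    exact gb1_smul _ (la_anti_cc i j)
  rw [← h1, ← two_smul ℂ] at h2
  exact (smul_eq_zero.1 h2).resolve_left two_ne_zero

theorem gb1_cwf {m d : ℕ} (f : Fin d → Fin m) : cwf f =
    ExteriorAlgebra.lift ℂ ⟨gb1_L m, gb1_sq⟩
      (ExteriorAlgebra.ιMulti ℂ d (fun r => (Pi.single (f r) 1 : Fin m → ℂ))) := by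
  rw [ExteriorAlgebra.ιMulti_apply, map_list_prod, List.map_ofFn, cwf]
  congr 1
  congr 1
  funext r
  rw [Function.comp_apply, ExteriorAlgebra.lift_ι_apply, gb1_L_apply,
    Finset.sum_eq_single (f r)]
  · simp
  · intro i _ hi
    rw [Pi.single_eq_of_ne hi]
    exact zero_smul ℂ (LA m (i, true))
  · simp

theorem cwf_perm {m d : ℕ} (f : Fin d → Fin m) (s : Perm (Fin d)) :
    cwf (f ∘ s) = ((Perm.sign s : ℤ) : ℂ) • cwf f := by
  rw [gb1_cwf, gb1_cwf]
  have h1 : (fun r => (Pi.single ((f ∘ s) r) 1 : Fin m → ℂ)) =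
      (fun r => (Pi.single (f r) 1 : Fin m → ℂ)) ∘ s := rfl
  rw [h1, AlternatingMap.map_perm, Units.smul_def, map_zsmul]
  exact (Int.cast_smul_eq_zsmul ℂ _ _).symm

theorem cwf_not_inj {m d : ℕ} (f : Fin d → Fin m) (hf : ¬ Function.Injective f) : cwf f = 0 := by
  rw [gb1_cwf, AlternatingMap.map_eq_zero_of_not_injective, map_zero]
  intro h
  refine hf fun r r' hr => h ?_
  simp only [hr]

theorem cr_pair_comm {m : ℕ} (i j k : Fin m) :
    (LA m (i, true) * LA m (j, true)) * LA m (k, true) =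
      LA m (k, true) * (LA m (i, true) * LA m (j, true)) :=
  gb1_ring (la_anti_cc j k) (la_anti_cc i k)

theorem cwf_pair {m d : ℕ} (i j : Fin m) (f : Fin d → Fin m) :
    (LA m (i, true) * LA m (j, true)) * cwf f = cwf f * (LA m (i, true) * LA m (j, true)) := by
  induction d with
  | zero => rw [cwf_zero, mul_one, one_mul]
  | succ d ih =>
    rw [← Fin.cons_self_tail f, cwf_cons, ← mul_assoc, cr_pair_comm, mul_assoc, ih, ← mul_assoc]

end Pool.Agent.H46P
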