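import Pool.Agent.Lib.H46P.FDefs

/-!
# H46P, chunk GB10: antisymmetrization of a 4-tensor

PROOF. `T' [i_0, i_1, i_2, i_3] = (1/24) ∑_π sign π T [i_{π 0}, ..., i_{π 3}]` (and `0` on other lists;
sum over `Equiv.Perm (Fin 4)`, or six applications of `(1/2)(T - T ∘ swap)`-type averaging).
`Alt4`: reindexing.  `Inj 4`: `ev xs` of a permuted tensor is `ev` of the permuted list of vectors
(Fubini in the four sums).  `crp`: `a_{i_0}^* ... a_{i_3}^*` changes by `sign π` (`la_anti_cc`).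
One way: for the three adjacent transpositions `s` prove the three facts for `T ∘ s` with sign `-1`, and
write the antisymmetrization as the composition of the projections-like averages
`(1 - s1)/2`-products: `A4 = (1/24) (1 - s1)(1 - s2 + s2 s1)(1 - s3 + s3 s2 - s3 s2 s1)`.
-/

namespace Pool.Agent.H46P

open Finset
open scoped BigOperators

/-- The list of a function. -/
def gb10L {α : Type*} (v : Fin 4 → α) : List α := [v 0, v 1, v 2, v 3]

/-- The sign as a complex number. -/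
noncomputable def gb10e (π : Equiv.Perm (Fin 4)) : ℂ := ((Equiv.Perm.sign π : ℤ) : ℂ)

theorem gb10_e_mul (π ρ : Equiv.Perm (Fin 4)) : gb10e (π * ρ) = gb10e π * gb10e ρ := by
  unfold gb10e
  rw [Equiv.Perm.sign_mul]
  push_cast
  rfl

theorem gb10_e_norm (π : Equiv.Perm (Fin 4)) : ‖gb10e π‖ = 1 := by
  unfold gb10e
  rcases Int.units_eq_one_or (Equiv.Perm.sign π) with h | h <;> rw [h] <;> norm_num

theorem gb10_e_self (π : Equiv.Perm (Fin 4)) : gb10e π * gb10e π⁻¹ = 1 := by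
  rw [← gb10_e_mul, mul_inv_cancel]
  simp [gb10e]

theorem gb10_sum {M : Type*} [AddCommMonoid M] {m : ℕ} (F : (Fin 4 → Fin m) → M) :
    ∑ v, F v = ∑ i, ∑ j, ∑ k, ∑ l, F ![i, j, k, l] := by
  have step : ∀ (n : ℕ) (G : (Fin (n + 1) → Fin m) → M),
      ∑ v, G v = ∑ i, ∑ w : Fin n → Fin m, G (Fin.cons i w) := by
    intro n G
    rw [← (Fin.consEquiv (fun _ : Fin (n + 1) => Fin m)).sum_comp, Fintype.sum_prod_type]
    rfl
  rw [step]
  refine Finset.sum_congr rfl fun i _ => ?_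
  rw [step]
  refine Finset.sum_congr rfl fun j _ => ?_
  rw [step]
  refine Finset.sum_congr rfl fun k _ => ?_
  rw [step]
  refine Finset.sum_congr rfl fun l _ => ?_
  rw [Fintype.sum_unique]
  congr 1

/-- The antisymmetrized tensor as a function. -/
noncomputable def gb10S {m : ℕ} (T : List (Fin m) → ℂ) (v : Fin 4 → Fin m) : ℂ :=
  (1 / 24) * ∑ π : Equiv.Perm (Fin 4), gb10e π * T (gb10L (v ∘ π))

/-- The antisymmetrized tensor. -/
noncomputable def gb10T {m : ℕ} (T : List (Fin m) → ℂ) : List (Fin m) → ℂ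
  | [i, j, k, l] => gb10S T ![i, j, k, l]
  | _ => 0

theorem gb10_T {m : ℕ} (T : List (Fin m) → ℂ) (v : Fin 4 → Fin m) :
    gb10T T (gb10L v) = gb10S T v := by
  show gb10S T ![v 0, v 1, v 2, v 3] = gb10S T v
  congr 1
  funext a
  fin_cases a <;> rfl

theorem gb10_S {m : ℕ} (T : List (Fin m) → ℂ) (v : Fin 4 → Fin m) (ρ : Equiv.Perm (Fin 4)) :
    gb10S T (v ∘ ρ) = gb10e ρ⁻¹ * gb10S T v := by
  unfold gb10S
  have h := Equiv.sum_comp (Equiv.mulLeft ρ⁻¹)
    (fun π : Equiv.Perm (Fin 4) => gb10e π * T (gb10L ((v ∘ ρ) ∘ π)))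
  rw [← h, mul_left_comm (gb10e ρ⁻¹) (1 / 24 : ℂ), Finset.mul_sum (f := fun π => gb10e π * T (gb10L (v ∘ π)))]
  congr 1
  refine Finset.sum_congr rfl fun π _ => ?_
  simp only [Equiv.coe_mulLeft]
  rw [gb10_e_mul, mul_assoc]
  congr 4
  funext a
  simp

theorem gb10_swap {m : ℕ} (T : List (Fin m) → ℂ) (v w : Fin 4 → Fin m) (a b : Fin 4) (hab : a ≠ b)
    (h : w = v ∘ Equiv.swap a b) : gb10T T (gb10L w) = - gb10T T (gb10L v) := by
  rw [gb10_T, gb10_T, h, gb10_S]
  have h1 : gb10e (Equiv.swap a b)⁻¹ = -1 := by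
    rw [Equiv.swap_inv]
    unfold gb10e
    rw [Equiv.Perm.sign_swap hab]
    simp
  rw [h1, neg_one_mul]

/-- Evaluation as a sum over functions. -/
theorem gb10_ev {m : ℕ} (X : Fin 4 → (Fin m → ℂ)) (T : List (Fin m) → ℂ) :
    ev (gb10L X) T = ∑ v : Fin 4 → Fin m, (∏ a, X a (v a)) * T (gb10L v) := by
  rw [gb10_sum]
  simp only [gb10L, ev_cons, ev_nil, Finset.mul_sum, Fin.prod_univ_four]
  refine Finset.sum_congr rfl fun i _ => Finset.sum_congr rfl fun j _ =>
    Finset.sum_congr rfl fun k _ => Finset.sum_congr rfl fun l _ => ?_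
  simp only [Matrix.cons_val]
  ring

theorem gb10_nrm {m : ℕ} (X : Fin 4 → (Fin m → ℂ)) :
    ((gb10L X).map nrm).prod = ∏ a, nrm (X a) := by
  simp only [gb10L, List.map_cons, List.map_nil, List.prod_cons, List.prod_nil, Fin.prod_univ_four]
  ring

section ring

variable {R : Type*} [Ring R] [Algebra ℂ R]

/-- The word. -/
def gb10w {m : ℕ} (A : Fin m → R) (v : Fin 4 → Fin m) : R :=
  A (v 0) * (A (v 1) * (A (v 2) * A (v 3)))

theorem gb10_op {m : ℕ} (A : Fin m → R) (T : List (Fin m) → ℂ) :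
    op A 4 T = ∑ v : Fin 4 → Fin m, T (gb10L v) • gb10w A v := by
  rw [gb10_sum]
  simp only [op_succ, op_zero, Finset.mul_sum, gb10L, gb10w]
  refine Finset.sum_congr rfl fun i _ => Finset.sum_congr rfl fun j _ =>
    Finset.sum_congr rfl fun k _ => Finset.sum_congr rfl fun l _ => ?_
  simp only [Matrix.cons_val]
  rw [← Algebra.commutes, ← Algebra.smul_def]
  simp only [mul_smul_comm]

theorem gb10_word {m : ℕ} (A : Fin m → R) (hA : ∀ i j, A i * A j + A j * A i = 0)
    (σ : Equiv.Perm (Fin 4)) : ∀ v : Fin 4 → Fin m,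
    gb10w A (v ∘ σ) = gb10e σ • gb10w A v := by
  have anti : ∀ i j, A i * A j = -(A j * A i) := fun i j => eq_neg_of_add_eq_zero_left (hA i j)
  have h : σ ∈ Submonoid.closure (Set.range fun i : Fin 3 => Equiv.swap i.castSucc i.succ) := by
    rw [Equiv.Perm.mclosure_swap_castSucc_succ]
    trivial
  induction h using Submonoid.closure_induction with
  | mem x hx =>
    obtain ⟨i, rfl⟩ := hx
    intro v
    have h1 : gb10e (Equiv.swap i.castSucc i.succ) = -1 := by
      unfold gb10e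
      rw [Equiv.Perm.sign_swap (Fin.castSucc_lt_succ).ne]
      simp
    show gb10w A (v ∘ Equiv.swap i.castSucc i.succ) = gb10e (Equiv.swap i.castSucc i.succ) • gb10w A v
    rw [h1, neg_one_smul]
    unfold gb10w
    fin_cases i
    · have e0 : (v ∘ Equiv.swap (Fin.castSucc (0 : Fin 3)) (Fin.succ (0 : Fin 3))) 0 = v 1 := by
        simp [Equiv.swap_apply_def]
      have e1 : (v ∘ Equiv.swap (Fin.castSucc (0 : Fin 3)) (Fin.succ (0 : Fin 3))) 1 = v 0 := by
        simp
      have e2 : (v ∘ Equiv.swap (Fin.castSucc (0 : Fin 3)) (Fin.succ (0 : Fin 3))) 2 = v 2 := by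
        simp [Equiv.swap_apply_def]
      have e3 : (v ∘ Equiv.swap (Fin.castSucc (0 : Fin 3)) (Fin.succ (0 : Fin 3))) 3 = v 3 := by
        simp [Equiv.swap_apply_def]
      rw [show ((fun i => i) ⟨0, by decide⟩ : Fin 3) = 0 from rfl, e0, e1, e2, e3,
        ← mul_assoc, ← mul_assoc (A (v 0)), anti (v 1) (v 0), neg_mul]
    · have e0 : (v ∘ Equiv.swap (Fin.castSucc (1 : Fin 3)) (Fin.succ (1 : Fin 3))) 0 = v 0 := by
        simp [Equiv.swap_apply_def]
      have e1 : (v ∘ Equiv.swap (Fin.castSucc (1 : Fin 3)) (Fin.succ (1 : Fin 3))) 1 = v 2 := by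
        simp [Equiv.swap_apply_def]
      have e2 : (v ∘ Equiv.swap (Fin.castSucc (1 : Fin 3)) (Fin.succ (1 : Fin 3))) 2 = v 1 := by
        simp [Equiv.swap_apply_def]
      have e3 : (v ∘ Equiv.swap (Fin.castSucc (1 : Fin 3)) (Fin.succ (1 : Fin 3))) 3 = v 3 := by
        simp [Equiv.swap_apply_def]
      rw [show ((fun i => i) ⟨1, by decide⟩ : Fin 3) = 1 from rfl, e0, e1, e2, e3,
        ← mul_assoc (A (v 2)), ← mul_assoc (A (v 1)), anti (v 2) (v 1),
        neg_mul, mul_neg]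
    · have e0 : (v ∘ Equiv.swap (Fin.castSucc (2 : Fin 3)) (Fin.succ (2 : Fin 3))) 0 = v 0 := by
        simp [Equiv.swap_apply_def]
      have e1 : (v ∘ Equiv.swap (Fin.castSucc (2 : Fin 3)) (Fin.succ (2 : Fin 3))) 1 = v 1 := by
        simp [Equiv.swap_apply_def]
      have e2 : (v ∘ Equiv.swap (Fin.castSucc (2 : Fin 3)) (Fin.succ (2 : Fin 3))) 2 = v 3 := by
        simp [Equiv.swap_apply_def]
      have e3 : (v ∘ Equiv.swap (Fin.castSucc (2 : Fin 3)) (Fin.succ (2 : Fin 3))) 3 = v 2 := by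
        simp [Equiv.swap_apply_def]
      rw [show ((fun i => i) ⟨2, by decide⟩ : Fin 3) = 2 from rfl, e0, e1, e2, e3,
        anti (v 3) (v 2), mul_neg, mul_neg]
  | one =>
    intro v
    have h1 : gb10e 1 = 1 := by simp [gb10e]
    rw [h1, one_smul]
    rfl
  | mul x y _ _ hx hy =>
    intro v
    have h1 : v ∘ (x * y : Equiv.Perm (Fin 4)) = (v ∘ x) ∘ y := by
      funext a
      rfl
    rw [h1, hy, hx, smul_smul, gb10_e_mul, mul_comm]

end ring

/-- Reindexing by a permutation. -/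
theorem gb10_re {M : Type*} [AddCommMonoid M] {m : ℕ} (π : Equiv.Perm (Fin 4))
    (g : (Fin 4 → Fin m) → M) : ∑ v, g (v ∘ π) = ∑ v, g v :=
  Equiv.sum_comp (Equiv.arrowCongr π.symm (Equiv.refl (Fin m))) g

/-- The average of an alternating family. -/
theorem gb10_avg {M : Type*} [AddCommGroup M] [Module ℂ M] {m : ℕ} (T : List (Fin m) → ℂ)
    (W : (Fin 4 → Fin m) → M)
    (hW : ∀ (σ : Equiv.Perm (Fin 4)) (v : Fin 4 → Fin m), W (v ∘ σ) = gb10e σ • W v) :
    ∑ v, gb10S T v • W v = ∑ v, T (gb10L v) • W v := by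
  have h0 : ∀ π : Equiv.Perm (Fin 4), gb10e π * gb10e π = 1 := by
    intro π
    unfold gb10e
    rcases Int.units_eq_one_or (Equiv.Perm.sign π) with h | h <;> rw [h] <;> norm_num
  have h1 : ∀ v : Fin 4 → Fin m, gb10S T v • W v = ∑ π : Equiv.Perm (Fin 4),
        (1 / 24 : ℂ) • (T (gb10L (v ∘ π)) • W (v ∘ π)) := by
    intro v
    unfold gb10S
    rw [Finset.mul_sum, Finset.sum_smul]
    refine Finset.sum_congr rfl fun π _ => ?_
    rw [hW π v, smul_smul, smul_smul]
    congr 1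
    ring
  simp only [h1]
  rw [Finset.sum_comm]
  have h2 : ∀ π : Equiv.Perm (Fin 4), ∑ v : Fin 4 → Fin m,
      (1 / 24 : ℂ) • (T (gb10L (v ∘ π)) • W (v ∘ π)) =
      (1 / 24 : ℂ) • ∑ v : Fin 4 → Fin m, T (gb10L v) • W v := by
    intro π
    rw [gb10_re π fun v => (1 / 24 : ℂ) • (T (gb10L v) • W v), Finset.smul_sum]
  rw [Finset.sum_congr rfl fun π _ => h2 π, Finset.sum_const, Finset.card_univ,
    Fintype.card_perm, Fintype.card_fin, ← Nat.cast_smul_eq_nsmul ℂ, smul_smul]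
  norm_num [Nat.factorial]

theorem exists_alt {m : ℕ} (T : List (Fin m) → ℂ) (c : ℝ) (hc : 0 ≤ c) (hT : Inj 4 T c) :
    ∃ T' : List (Fin m) → ℂ, Alt4 T' ∧ Inj 4 T' c ∧ crp m 4 T' = crp m 4 T := by
  refine ⟨gb10T T, ?_, ?_, ?_⟩
  · intro i j k l
    refine ⟨?_, ?_, ?_⟩
    · refine gb10_swap T ![i, j, k, l] ![j, i, k, l] 0 1 (by decide) ?_
      funext a
      fin_cases a <;> rfl
    · refine gb10_swap T ![i, j, k, l] ![i, k, j, l] 1 2 (by decide) ?_
      funext a
      fin_cases a <;> rfl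
    · refine gb10_swap T ![i, j, k, l] ![i, j, l, k] 2 3 (by decide) ?_
      funext a
      fin_cases a <;> rfl
  · have key : ∀ X : Fin 4 → (Fin m → ℂ), ‖ev (gb10L X) (gb10T T)‖ ≤ c * ∏ a, nrm (X a) := by
      intro X
      have h1 : ev (gb10L X) (gb10T T) = (1 / 24) * ∑ π : Equiv.Perm (Fin 4),
          gb10e π * ev (gb10L (X ∘ π)) T := by
        rw [gb10_ev]
        simp only [gb10_T, gb10S, gb10_ev, Finset.mul_sum]
        rw [Finset.sum_comm]
        refine Finset.sum_congr rfl fun π _ => ?_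
        refine Eq.trans ?_ (gb10_re π fun v =>
          1 / 24 * (gb10e π * ((∏ a, (X ∘ π) a (v a)) * T (gb10L v))))
        refine Finset.sum_congr rfl fun v _ => ?_
        have h2 : ∏ a, X a (v a) = ∏ a, (X ∘ π) a ((v ∘ π) a) :=
          (Equiv.prod_comp π fun a => X a (v a)).symm
        rw [h2]
        ring
      rw [h1, norm_mul]
      have h2 : ‖∑ π : Equiv.Perm (Fin 4), gb10e π * ev (gb10L (X ∘ π)) T‖ ≤
          24 * (c * ∏ a, nrm (X a)) := by
        refine (norm_sum_le _ _).trans ?_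
        have h3 : ∀ π ∈ (Finset.univ : Finset (Equiv.Perm (Fin 4))),
            ‖gb10e π * ev (gb10L (X ∘ π)) T‖ ≤ c * ∏ a, nrm (X a) := by
          intro π _
          rw [norm_mul, gb10_e_norm, one_mul]
          refine (hT (gb10L (X ∘ π)) rfl).trans (le_of_eq ?_)
          rw [gb10_nrm]
          congr 1
          exact Equiv.prod_comp π fun a => nrm (X a)
        refine (Finset.sum_le_sum h3).trans (le_of_eq ?_)
        rw [Finset.sum_const, Finset.card_univ, Fintype.card_perm, Fintype.card_fin, nsmul_eq_mul]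
        norm_num [Nat.factorial]
      have h4 : ‖(1 / 24 : ℂ)‖ = 1 / 24 := by norm_num
      rw [h4]
      linarith
    intro xs hxs
    rcases xs with _ | ⟨x0, _ | ⟨x1, _ | ⟨x2, _ | ⟨x3, _ | ⟨x4, xs⟩⟩⟩⟩⟩
    · simp at hxs
    · simp at hxs
    · simp at hxs
    · simp at hxs
    · have h := key ![x0, x1, x2, x3]
      rw [← gb10_nrm] at h
      exact h
    · simp at hxs
  · unfold crp
    refine (gb10_op _ _).trans ?_
    refine Eq.trans ?_ (gb10_op _ _).symm
    simp only [gb10_T]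
    exact gb10_avg T _ (gb10_word _ la_anti_cc)

end Pool.Agent.H46P
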