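import Pool.Agent.Lib.H46P.GBDefs

/-!
# H46P, chunk GB6: degree and reality

PROOF. `cre_apply`: a creation operator raises the degree by one (`(S.erase i).card = S.card - 1` for
`i ∈ S`) and preserves real vectors (`fsgn` is `±1`).  `omg` raises the degree by two, `Vh R` by four
(sums and scalar multiples), both preserve real vectors (`R` has real coefficients).  `vac` has degree
zero and is real.  Induction on the powers.  `topc f = f univ`, `univ.card = N + N`.
-/

namespace Pool.Agent.H46P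

open Finset
open scoped BigOperators
open Pool.Agent.H69Hopf (Arr)

theorem cre_deg {m d : ℕ} (i : Fin m) (f : Fk m) (hf : Hdeg d f) :
    Hdeg (d + 1) (LA m (i, true) f) := by
  intro S hS
  rw [cre_apply]
  by_cases hi : i ∈ S
  · have h1 := card_erase_of_mem hi
    have h2 := card_pos.2 ⟨i, hi⟩
    rw [if_pos hi, hf (S.erase i) (by omega), mul_zero]
  · rw [if_neg hi]

theorem cre_real {m : ℕ} (i : Fin m) (f : Fk m) (hf : Hreal f) : Hreal (LA m (i, true) f) := by
  intro S
  rw [cre_apply]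
  by_cases hi : i ∈ S
  · have h1 : (fsgn i S).im = 0 := by
      have h2 := conj_fsgn i S
      have h3 := congrArg Complex.im h2
      rw [Complex.star_def, Complex.conj_im] at h3
      linarith
    rw [if_pos hi, Complex.mul_im, h1, hf, mul_zero, zero_mul, add_zero]
  · rw [if_neg hi, Complex.zero_im]

theorem gb6_sum_deg {m d : ℕ} {ι : Type*} (s : Finset ι) (F : ι → Fk m)
    (h : ∀ i ∈ s, Hdeg d (F i)) : Hdeg d (∑ i ∈ s, F i) := by
  intro S hS
  rw [WithLp.ofLp_sum, Finset.sum_apply]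
  exact sum_eq_zero fun i hi => h i hi S hS

theorem gb6_smul_deg {m d : ℕ} (c : ℂ) {f : Fk m} (h : Hdeg d f) : Hdeg d (c • f) := by
  intro S hS
  rw [PiLp.smul_apply, h S hS, smul_zero]

theorem gb6_sum_real {m : ℕ} {ι : Type*} (s : Finset ι) (F : ι → Fk m)
    (h : ∀ i ∈ s, Hreal (F i)) : Hreal (∑ i ∈ s, F i) := by
  intro S
  rw [WithLp.ofLp_sum, Finset.sum_apply, Complex.im_sum]
  exact sum_eq_zero fun i hi => h i hi S

theorem gb6_smul_real {m : ℕ} (c : ℝ) {f : Fk m} (h : Hreal f) : Hreal ((c : ℂ) • f) := by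
  intro S
  rw [PiLp.smul_apply, smul_eq_mul, Complex.mul_im, h S, Complex.ofReal_im, mul_zero, zero_mul,
    add_zero]

theorem gb6_omg {N : ℕ} (f : Fk (N + N)) : omg N f =
    ∑ i : Fin N, LA (N + N) (mL i, true) (LA (N + N) (mR i, true) f) := by
  unfold omg
  rw [_root_.sum_apply]
  rfl

theorem gb6_Vh {N : ℕ} (R : Arr N) (f : Fk (N + N)) : Vh R f =
    ∑ i, ∑ j, ∑ k, ∑ l, (R i j k l : ℂ) •
      (LA (N + N) (mL i, true) (LA (N + N) (mL j, true)
        (LA (N + N) (mR k, true) (LA (N + N) (mR l, true) f)))) := by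
  unfold Vh
  simp only [_root_.sum_apply]
  rfl

theorem gb6_mix_deg {N : ℕ} (R : Arr N) (j k : ℕ) :
    Hdeg (2 * j + 4 * k) ((omg N ^ j * Vh R ^ k) (vac (N + N))) := by
  have h1 : Hdeg (4 * k) ((Vh R ^ k) (vac (N + N))) := by
    induction k with
    | zero =>
      intro S hS
      rw [pow_zero, one_apply_eq_self]
      have h2 : S ≠ ∅ := fun h => hS (by rw [h]; rfl)
      simp [vac, h2]
    | succ k ih =>
      have h2 : (Vh R ^ (k + 1)) (vac (N + N)) = Vh R ((Vh R ^ k) (vac (N + N))) := by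
        rw [pow_succ']
        rfl
      rw [h2, gb6_Vh]
      refine gb6_sum_deg _ _ fun a _ => gb6_sum_deg _ _ fun b _ => gb6_sum_deg _ _ fun c _ =>
        gb6_sum_deg _ _ fun d _ => gb6_smul_deg _ ?_
      exact cre_deg _ _ (cre_deg _ _ (cre_deg _ _ (cre_deg _ _ ih)))
  have h3 : (omg N ^ j * Vh R ^ k) (vac (N + N)) = (omg N ^ j) ((Vh R ^ k) (vac (N + N))) := rfl
  rw [h3]
  generalize (Vh R ^ k) (vac (N + N)) = g at h1
  induction j with
  | zero =>
    rw [pow_zero, one_apply_eq_self, mul_zero, zero_add]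
    exact h1
  | succ j ih =>
    have h2 : (omg N ^ (j + 1)) g = omg N ((omg N ^ j) g) := by
      rw [pow_succ']
      rfl
    rw [h2, gb6_omg]
    refine gb6_sum_deg _ _ fun a _ => ?_
    have h4 : 2 * (j + 1) + 4 * k = 2 * j + 4 * k + 1 + 1 := by ring
    rw [h4]
    exact cre_deg _ _ (cre_deg _ _ (ih rfl))

theorem topc_mix_zero {N : ℕ} (R : Arr N) (j k : ℕ) (h : j + 2 * k ≠ N) :
    topc (N + N) ((omg N ^ j * Vh R ^ k) (vac (N + N))) = 0 := by
  refine gb6_mix_deg R j k univ ?_
  rw [card_univ, Fintype.card_fin]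
  omega

theorem topc_mix_real {N : ℕ} (R : Arr N) (j k : ℕ) :
    (topc (N + N) ((omg N ^ j * Vh R ^ k) (vac (N + N)))).im = 0 := by
  have h1 : Hreal ((Vh R ^ k) (vac (N + N))) := by
    induction k with
    | zero =>
      intro S
      rw [pow_zero, one_apply_eq_self]
      by_cases h2 : S = ∅ <;> simp [vac, h2]
    | succ k ih =>
      have h2 : (Vh R ^ (k + 1)) (vac (N + N)) = Vh R ((Vh R ^ k) (vac (N + N))) := by
        rw [pow_succ']
        rfl
      rw [h2, gb6_Vh]
      refine gb6_sum_real _ _ fun a _ => gb6_sum_real _ _ fun b _ => gb6_sum_real _ _ fun c _ =>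
        gb6_sum_real _ _ fun d _ => gb6_smul_real _ ?_
      exact cre_real _ _ (cre_real _ _ (cre_real _ _ (cre_real _ _ ih)))
  have h3 : (omg N ^ j * Vh R ^ k) (vac (N + N)) = (omg N ^ j) ((Vh R ^ k) (vac (N + N))) := rfl
  have h5 : Hreal ((omg N ^ j * Vh R ^ k) (vac (N + N))) := by
    rw [h3]
    generalize (Vh R ^ k) (vac (N + N)) = g at h1
    clear h3
    induction j with
    | zero =>
      rw [pow_zero, one_apply_eq_self]
      exact h1
    | succ j ih =>
      have h2 : (omg N ^ (j + 1)) g = omg N ((omg N ^ j) g) := by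
        rw [pow_succ']
        rfl
      rw [h2, gb6_omg]
      exact gb6_sum_real _ _ fun a _ => cre_real _ _ (cre_real _ _ ih)
  exact h5 univ

end Pool.Agent.H46P
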