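import Pool.Agent.Lib.H46P.GB5
import Pool.Agent.Lib.H46P.GB6

/-!
# H46P, chunk GB7: the partition function is a polynomial

PROOF. `crp_rten`: `Zf = topc (∑_{r ≤ 4n} (ω + c Vh)^r / r! vac)`.  `ω` and `c Vh` commute
(`omg_comm`), `Commute.add_pow`: `(ω + c Vh)^r = ∑_{k ≤ r} binom r k ω^(r-k) c^k Vh^k` (mind the order).
By `topc_mix_zero` only `(r - k) + 2k = 2n`, i.e. `r = 2n - k`, `k ≤ n`, contributes, with
`(1/(2n-k)!) binom (2n-k) k = 1/((2n-2k)! k!)`.  `topc_mix_real` shows that the value is its real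
part.
-/

namespace Pool.Agent.H46P

open Finset
open scoped BigOperators
open Pool.Agent.H69Hopf (Arr)

theorem gb7_pow {S : Type*} [Ring S] [Algebra ℂ S] {W V : S} (h : Commute W V) (c : ℂ) (r : ℕ) :
    (W + c • V) ^ r = ∑ k ∈ range (r + 1), ((r.choose k : ℂ) * c ^ k) • (W ^ (r - k) * V ^ k) := by
  rw [add_comm, (h.symm.smul_left c).add_pow]
  refine sum_congr rfl fun k _ => ?_
  rw [smul_pow, smul_mul_assoc, ((h.symm.pow_pow k (r - k))).eq, smul_mul_assoc,
    mul_comm (r.choose k : ℂ), mul_smul]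
  congr 1
  rw [Nat.cast_smul_eq_nsmul, nsmul_eq_mul, (Nat.cast_commute _ _).eq]

theorem gb7_abs {S : Type*} [Ring S] [Algebra ℂ S] (φ : S →ₗ[ℂ] ℂ) {W V : S} (h : Commute W V)
    (n M : ℕ) (hM : 2 * n ≤ M) (h0 : ∀ j k, j + 2 * k ≠ 2 * n → φ (W ^ j * V ^ k) = 0) (c : ℂ) :
    φ (∑ r ∈ range (M + 1), ((r.factorial : ℂ)⁻¹) • (W + c • V) ^ r) =
      ∑ k ∈ range (n + 1), φ (W ^ (2 * (n - k)) * V ^ k) /
        ((2 * (n - k)).factorial * k.factorial) * c ^ k := by
  obtain ⟨g, hg⟩ : ∃ g : ℕ → ℕ → ℂ, g = fun r k => (r.factorial : ℂ)⁻¹ *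
      ((r.choose k : ℂ) * c ^ k * φ (W ^ (r - k) * V ^ k)) := ⟨_, rfl⟩
  have h1 : φ (∑ r ∈ range (M + 1), ((r.factorial : ℂ)⁻¹) • (W + c • V) ^ r) =
      ∑ r ∈ range (M + 1), ∑ k ∈ range (M + 1), g r k := by
    rw [map_sum]
    refine sum_congr rfl fun r hr => ?_
    rw [map_smul, gb7_pow h, map_sum, smul_eq_mul, mul_sum]
    have h2 : range (r + 1) ⊆ range (M + 1) := range_subset_range.2 (by
      have := mem_range.1 hr
      omega)
    rw [← sum_subset h2 (fun k _ hk => ?_)]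
    · refine sum_congr rfl fun k _ => ?_
      rw [map_smul, smul_eq_mul, hg]
    · rw [mem_range, not_lt] at hk
      rw [hg]
      simp only
      rw [Nat.choose_eq_zero_of_lt (by omega), Nat.cast_zero, zero_mul, zero_mul, mul_zero]
  have hz : ∀ r k, r + k ≠ 2 * n → g r k = 0 := by
    intro r k hrk
    rw [hg]
    simp only
    by_cases hk : k ≤ r
    · rw [h0 _ _ (by omega), mul_zero, mul_zero]
    · rw [Nat.choose_eq_zero_of_lt (by omega), Nat.cast_zero, zero_mul, zero_mul, mul_zero]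
  have hz' : ∀ r k, n < k → g r k = 0 := by
    intro r k hk
    by_cases hrk : r + k = 2 * n
    · rw [hg]
      simp only
      rw [Nat.choose_eq_zero_of_lt (by omega), Nat.cast_zero, zero_mul, zero_mul, mul_zero]
    · exact hz r k hrk
  rw [h1, sum_comm]
  have h3 : range (n + 1) ⊆ range (M + 1) := range_subset_range.2 (by omega)
  rw [← sum_subset h3 (fun k _ hk => sum_eq_zero fun r _ => hz' r k (by
    rw [mem_range, not_lt] at hk
    omega))]
  refine sum_congr rfl fun k hk => ?_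
  have hk' : k ≤ n := by
    have := mem_range.1 hk
    omega
  rw [sum_eq_single (2 * n - k)]
  · rw [hg]
    simp only
    have h4 : 2 * n - k - k = 2 * (n - k) := by omega
    have h5 : ((2 * n - k).choose k : ℂ) =
        (2 * n - k).factorial / (k.factorial * (2 * (n - k)).factorial) := by
      rw [Nat.cast_choose ℂ (by omega : k ≤ 2 * n - k), h4]
    have h6 : ((2 * n - k).factorial : ℂ) ≠ 0 := Nat.cast_ne_zero.2 (Nat.factorial_ne_zero _)
    have h7 : (k.factorial : ℂ) ≠ 0 := Nat.cast_ne_zero.2 (Nat.factorial_ne_zero _)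
    have h8 : ((2 * (n - k)).factorial : ℂ) ≠ 0 := Nat.cast_ne_zero.2 (Nat.factorial_ne_zero _)
    rw [h4, h5]
    field_simp
  · intro r _ hr
    exact hz r k (by omega)
  · intro h4
    rw [mem_range, not_lt] at h4
    omega

/-- the top coefficient of the image of the vacuum, as a functional -/
noncomputable def gb7_phi (m : ℕ) : (Fk m →L[ℂ] Fk m) →ₗ[ℂ] ℂ where
  toFun X := topc m (X (vac m))
  map_add' X Y := by
    rw [_root_.add_apply, map_add]
  map_smul' c X := by
    rw [_root_.smul_apply, map_smul, RingHom.id_apply]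

theorem zf_expand (n : ℕ) (R : Arr (2 * n)) (c : ℂ) :
    Zf (2 * n) (fun I => c * rten R I) = ∑ k ∈ range (n + 1), (zz n R k : ℂ) * c ^ k := by
  have h1 : Zf (2 * n) (fun I => c * rten R I) =
      gb7_phi (2 * n + 2 * n) (∑ r ∈ range (2 * n + 2 * n + 1),
        ((r.factorial : ℂ)⁻¹) • (omg (2 * n) + c • Vh R) ^ r) := by
    rw [← crp_rten]
    rfl
  rw [h1, gb7_abs (gb7_phi (2 * n + 2 * n)) (omg_comm R) n (2 * n + 2 * n) (by omega)
    (fun j k h => topc_mix_zero R j k h) c]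
  refine sum_congr rfl fun k _ => ?_
  congr 1
  have h2 : gb7_phi (2 * n + 2 * n) (omg (2 * n) ^ (2 * (n - k)) * Vh R ^ k) =
      ((topc (2 * n + 2 * n) ((omg (2 * n) ^ (2 * (n - k)) * Vh R ^ k)
        (vac (2 * n + 2 * n)))).re : ℂ) := by
    refine Complex.ext ?_ ?_
    · rw [Complex.ofReal_re]
      rfl
    · rw [Complex.ofReal_im]
      exact topc_mix_real R _ _
  rw [h2, zz]
  push_cast
  rfl

end Pool.Agent.H46P
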