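import Pool.Agent.Lib.H46P.GB1

/-!
# H46P, chunk GB5: the identity curvature tensor, commutation

PROOF. `vh_idA`: `∑ (δ_ik δ_jl - δ_il δ_jk) a_i a_j b_k b_l = ∑_ij a_i a_j b_i b_j - ∑_ij a_i a_j b_j b_i
= 2 ∑_ij a_i a_j b_i b_j = - 2 ∑_ij (a_i b_i) (a_j b_j)` with `la_anti_cc`.  `vh_add`: linearity.
`omg_comm`: `cr_pair_comm` (a product of two creation operators commutes with all creation operators,
hence with `Vh R`).  `crp_rten`: unfold `crp`, `op`, `opF` four times; the sums over the letters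
collapse.
-/

namespace Pool.Agent.H46P

open Finset
open scoped BigOperators
open Pool.Agent.H69Hopf (Arr idA)

/-! ### the same in an abstract algebra -/

section abstr

variable {S : Type*} [Ring S] [Algebra ℂ S]

/-- the quartic element of a curvature tensor -/
noncomputable def gb5V {N : ℕ} (L M : Fin N → S) (R : Arr N) : S :=
  ∑ i, ∑ j, ∑ k, ∑ l, (R i j k l : ℂ) • ((L i * L j) * (M k * M l))

theorem gb5_delta {N : ℕ} (F : Fin N → Fin N → S)
    (i j : Fin N) : ∑ k, ∑ l, ((idA N i j k l : ℝ) : ℂ) • F k l = F i j - F j i := by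
  have h0 : ∀ a b : Fin N, ((if a = b then (1 : ℝ) else 0 : ℝ) : ℂ) = if b = a then 1 else 0 := by
    intro a b
    by_cases h : a = b
    · rw [if_pos h, if_pos h.symm, Complex.ofReal_one]
    · rw [if_neg h, if_neg (fun h1 => h h1.symm), Complex.ofReal_zero]
  have h1 : ∀ k l, ((idA N i j k l : ℝ) : ℂ) • F k l =
      (if k = i then (if l = j then F k l else 0) else 0) -
        (if k = j then (if l = i then F k l else 0) else 0) := by
    intro k l
    unfold idA
    rw [Complex.ofReal_sub, Complex.ofReal_mul, Complex.ofReal_mul, sub_smul, h0, h0, h0, h0]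
    congr 1
    · by_cases h1 : k = i <;> by_cases h2 : l = j <;> simp [h1, h2]
    · by_cases h1 : k = j <;> by_cases h2 : l = i <;> simp [h1, h2]
  simp only [h1, sum_sub_distrib]
  simp

theorem gb5V_idA {N : ℕ} (L M : Fin N → S) (h1 : ∀ i j, M i * L j = -(L j * M i))
    (h2 : ∀ i j, M i * M j = -(M j * M i)) :
    gb5V L M (idA N) = (-2 : ℂ) • (∑ i, L i * M i) ^ 2 := by
  have h3 : gb5V L M (idA N) = ∑ i, ∑ j, (-2 : ℂ) • ((L i * M i) * (L j * M j)) := by
    unfold gb5V
    refine sum_congr rfl fun i _ => sum_congr rfl fun j _ => ?_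
    rw [gb5_delta (fun k l => (L i * L j) * (M k * M l)) i j]
    have h4 : L i * M i * (L j * M j) = -((L i * L j) * (M i * M j)) := by
      calc L i * M i * (L j * M j) = L i * (M i * L j) * M j := by simp only [mul_assoc]
        _ = L i * (-(L j * M i)) * M j := by rw [h1]
        _ = _ := by simp only [mul_neg, neg_mul, mul_assoc]
    rw [h4, h2 j i, mul_neg, sub_neg_eq_add, smul_neg, neg_smul, neg_neg, two_smul]
  rw [h3, sq, Finset.sum_mul_sum, smul_sum]
  refine sum_congr rfl fun i _ => ?_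
  rw [smul_sum]

theorem gb5V_add {N : ℕ} (L M : Fin N → S) (R : Arr N) (t : ℝ) :
    gb5V L M (fun i j k l => R i j k l + t * idA N i j k l) =
      gb5V L M R + (t : ℂ) • gb5V L M (idA N) := by
  unfold gb5V
  simp only [smul_sum, ← sum_add_distrib]
  refine sum_congr rfl fun i _ => sum_congr rfl fun j _ => sum_congr rfl fun k _ =>
    sum_congr rfl fun l _ => ?_
  rw [Complex.ofReal_add, Complex.ofReal_mul, add_smul, mul_smul]

theorem gb5V_add' {N : ℕ} (L M : Fin N → S) (h1 : ∀ i j, M i * L j = -(L j * M i))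
    (h2 : ∀ i j, M i * M j = -(M j * M i)) (R : Arr N) (t : ℝ) :
    gb5V L M (fun i j k l => R i j k l + t * idA N i j k l) =
      gb5V L M R - (2 * t : ℂ) • (∑ i, L i * M i) ^ 2 := by
  rw [gb5V_add, gb5V_idA L M h1 h2, smul_smul, sub_eq_add_neg, ← neg_smul]
  congr 2
  ring

theorem gb5V_comm {N : ℕ} (L M : Fin N → S) (h : ∀ i j, Commute (L i * M i) (L j))
    (h' : ∀ i j, Commute (L i * M i) (M j)) (R : Arr N) :
    Commute (∑ i, L i * M i) (gb5V L M R) := by
  unfold gb5V
  refine Commute.sum_left _ _ _ fun i _ => ?_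
  refine Commute.sum_right _ _ _ fun a _ => Commute.sum_right _ _ _ fun b _ =>
    Commute.sum_right _ _ _ fun c _ => Commute.sum_right _ _ _ fun d _ => ?_
  exact Commute.smul_right (((h _ _).mul_right (h _ _)).mul_right
    ((h' _ _).mul_right (h' _ _))) _

theorem gb5_op {N : ℕ} (A : Fin (N + N) → S) (R : Arr N) (c : ℂ) :
    op A 4 (fun I => c * rten R I) =
      c • gb5V (fun i => A (mL i)) (fun i => A (mR i)) R := by
  have h1 : op A 4 (fun I => c * rten R I) =
      ∑ p : Fin (N + N) × Fin (N + N) × Fin (N + N) × Fin (N + N),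
        (c * rten R [p.1, p.2.1, p.2.2.1, p.2.2.2]) •
          ((A p.1 * A p.2.1) * (A p.2.2.1 * A p.2.2.2)) := by
    simp only [op_succ, op_zero, Fintype.sum_prod_type, mul_sum]
    refine sum_congr rfl fun x _ => sum_congr rfl fun y _ => sum_congr rfl fun z _ =>
      sum_congr rfl fun w _ => ?_
    rw [Algebra.algebraMap_eq_smul_one]
    simp only [mul_smul_comm, mul_one, mul_assoc]
  have h2 : ∀ p : Fin (N + N) × Fin (N + N) × Fin (N + N) × Fin (N + N),
      rten R [p.1, p.2.1, p.2.2.1, p.2.2.2] =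
        ∑ q : Fin N × Fin N × Fin N × Fin N,
          if p = (mL q.1, mL q.2.1, mR q.2.2.1, mR q.2.2.2) then
            (R q.1 q.2.1 q.2.2.1 q.2.2.2 : ℂ) else 0 := by
    rintro ⟨x, y, z, w⟩
    simp only [rten, Fintype.sum_prod_type, Prod.mk.injEq]
  have h3 : gb5V (fun i => A (mL i)) (fun i => A (mR i)) R =
      ∑ q : Fin N × Fin N × Fin N × Fin N, (R q.1 q.2.1 q.2.2.1 q.2.2.2 : ℂ) •
        ((A (mL q.1) * A (mL q.2.1)) * (A (mR q.2.2.1) * A (mR q.2.2.2))) := by
    unfold gb5V
    simp only [Fintype.sum_prod_type]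
  rw [h1, h3, smul_sum]
  simp only [h2, mul_sum, sum_smul]
  rw [sum_comm]
  refine sum_congr rfl fun q _ => ?_
  rw [sum_eq_single (mL q.1, mL q.2.1, mR q.2.2.1, mR q.2.2.2)]
  · rw [if_pos rfl, mul_smul]
  · intro p _ hp
    rw [if_neg hp, mul_zero, zero_smul]
  · intro h
    exact absurd (mem_univ _) h

end abstr

theorem gb5_swap {m : ℕ} (k l : Fin m) :
    LA m (k, true) * LA m (l, true) = -(LA m (l, true) * LA m (k, true)) :=
  eq_neg_of_add_eq_zero_left (la_anti_cc k l)

theorem gb5_pair {m : ℕ} (i j k : Fin m) :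
    Commute (LA m (i, true) * LA m (j, true)) (LA m (k, true)) := cr_pair_comm i j k

theorem vh_idA (N : ℕ) : Vh (idA N) = (-2 : ℂ) • omg N ^ 2 :=
  gb5V_idA (fun i => LA (N + N) (mL i, true)) (fun i => LA (N + N) (mR i, true))
    (fun _ _ => gb5_swap _ _) (fun _ _ => gb5_swap _ _)

theorem vh_add {N : ℕ} (R : Arr N) (t : ℝ) :
    Vh (fun i j k l => R i j k l + t * idA N i j k l) = Vh R - (2 * t : ℂ) • omg N ^ 2 :=
  gb5V_add' (fun i => LA (N + N) (mL i, true)) (fun i => LA (N + N) (mR i, true))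
    (fun _ _ => gb5_swap _ _) (fun _ _ => gb5_swap _ _) R t

theorem omg_comm {N : ℕ} (R : Arr N) : Commute (omg N) (Vh R) :=
  gb5V_comm (fun i => LA (N + N) (mL i, true)) (fun i => LA (N + N) (mR i, true))
    (fun _ _ => gb5_pair _ _ _) (fun _ _ => gb5_pair _ _ _) R

theorem crp_rten {N : ℕ} (R : Arr N) (c : ℂ) :
    crp (N + N) 4 (fun I => c * rten R I) = c • Vh R :=
  gb5_op (fun i : Fin (N + N) => LA (N + N) (i, true)) R c

end Pool.Agent.H46P
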