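import Pool.Agent.Lib.H46P.GB4
import Pool.Agent.Lib.H46P.GB5
import Pool.Agent.Lib.H46P.GB6
import Pool.Agent.Lib.H46P.GA3
import Pool.Agent.Lib.Frob61.Expand

/-!
# H46P, chunk GB8: expansion of the Gauss-Bonnet integrand of `R + t * identity`

PROOF. `topc_vh_pow` and `vh_add`: `gaussBonnet n (R + t idA) = topc ((Vh R - 2 t ω^2)^n vac) =
∑_k binom n k (-2t)^(n-k) topc (ω^(2(n-k)) Vh^k vac)` (`Commute.add_pow`, `omg_comm`), and
`topc (...) = (2(n-k))! k! zz n R k` (`topc_mix_real`), `(2j)! = 2^j j! dfm j` (`dfm_fact`).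
`zz_zero`: `R = 0`, `t = 1` (or `Vh (idA) = -2 ω^2` with `topc_vh_pow` for `idA`):
`gaussBonnet n (idA (2n)) = (-2)^n (2n)! zz n R 0`.  And `gaussBonnet n (idA (2n)) = 2^n (2n)!`:
`Pool.Agent.Frob61.mgb_fam` with `k = 0` and any `S` antisymmetric in the last indices, e.g. `S = idA`
(`fam` is then the constant family `idA`, `ctr 0 S f = 1`, one function `f`), or directly: the sum over
`τ` of `sign σ sign τ ∏ idA (σ ..) (τ ..)` is `2^n`.
-/

namespace Pool.Agent.H46P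

open Finset
open scoped BigOperators Nat
open Pool.Agent.H69Hopf (Arr gaussBonnet idA)

theorem gb8_pow {S : Type*} [Ring S] [Algebra ℂ S] {W V : S} (h : Commute W V) (c : ℂ) (n : ℕ) :
    (V - c • W ^ 2) ^ n =
      ∑ k ∈ range (n + 1), ((n.choose k : ℂ) * (-c) ^ (n - k)) • (W ^ (2 * (n - k)) * V ^ k) := by
  have h1 : V - c • W ^ 2 = V + (-c) • W ^ 2 := by
    rw [neg_smul, sub_eq_add_neg]
  have h2 : Commute V ((-c) • W ^ 2) := ((h.symm.pow_right 2)).smul_right _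
  rw [h1, h2.add_pow]
  refine sum_congr rfl fun k _ => ?_
  rw [smul_pow, mul_smul_comm, ← pow_mul, ((h.symm.pow_pow k (2 * (n - k)))).eq, smul_mul_assoc,
    mul_comm (n.choose k : ℂ), mul_smul]
  congr 1
  rw [Nat.cast_smul_eq_nsmul, nsmul_eq_mul, (Nat.cast_commute _ _).eq]

/-- the top coefficient of the image of the vacuum, as a functional -/
noncomputable def gb8_phi (m : ℕ) : (Fk m →L[ℂ] Fk m) →ₗ[ℂ] ℂ where
  toFun X := topc m (X (vac m))
  map_add' X Y := by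
    rw [_root_.add_apply, map_add]
  map_smul' c X := by
    rw [_root_.smul_apply, map_smul, RingHom.id_apply]

theorem gb8_val (n : ℕ) (R : Arr (2 * n)) (k : ℕ) :
    gb8_phi (2 * n + 2 * n) (omg (2 * n) ^ (2 * (n - k)) * Vh R ^ k) =
      (((2 * (n - k)).factorial * k.factorial * zz n R k : ℝ) : ℂ) := by
  have h1 : ((2 * (n - k)).factorial : ℝ) ≠ 0 := Nat.cast_ne_zero.2 (Nat.factorial_ne_zero _)
  have h2 : (k.factorial : ℝ) ≠ 0 := Nat.cast_ne_zero.2 (Nat.factorial_ne_zero _)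
  rw [zz, mul_div_cancel₀ _ (mul_ne_zero h1 h2)]
  refine Complex.ext ?_ ?_
  · rw [Complex.ofReal_re]
    rfl
  · rw [Complex.ofReal_im]
    exact topc_mix_real R _ _

theorem gb_expand (n : ℕ) (R : Arr (2 * n)) (t : ℝ) :
    gaussBonnet n (fun i j k l => R i j k l + t * idA (2 * n) i j k l) =
      n.factorial * ∑ k ∈ range (n + 1), (-4 * t) ^ (n - k) * dfm (n - k) * zz n R k := by
  have h1 : (gaussBonnet n (fun i j k l => R i j k l + t * idA (2 * n) i j k l) : ℂ) =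
      gb8_phi (2 * n + 2 * n) ((Vh R - (2 * t : ℂ) • omg (2 * n) ^ 2) ^ n) := by
    rw [← topc_vh_pow, vh_add]
    rfl
  rw [gb8_pow (omg_comm R), map_sum] at h1
  have h2 : (gaussBonnet n (fun i j k l => R i j k l + t * idA (2 * n) i j k l) : ℂ) =
      ((n.factorial * ∑ k ∈ range (n + 1), (-4 * t) ^ (n - k) * dfm (n - k) * zz n R k : ℝ) : ℂ) := by
    rw [h1, mul_sum, Complex.ofReal_sum]
    refine sum_congr rfl fun k hk => ?_
    have hk' : k ≤ n := by
      have := mem_range.1 hk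
      omega
    rw [map_smul, gb8_val, smul_eq_mul]
    have h3 : (n.choose k : ℝ) * (-(2 * t)) ^ (n - k) *
        ((2 * (n - k)).factorial * k.factorial * zz n R k) =
          n.factorial * ((-4 * t) ^ (n - k) * dfm (n - k) * zz n R k) := by
      rw [dfm_fact, Nat.cast_choose ℝ hk']
      have h4 : ((n - k).factorial : ℝ) ≠ 0 := Nat.cast_ne_zero.2 (Nat.factorial_ne_zero _)
      have h5 : (k.factorial : ℝ) ≠ 0 := Nat.cast_ne_zero.2 (Nat.factorial_ne_zero _)
      have h6 : (-4 * t) ^ (n - k) = (-(2 * t)) ^ (n - k) * 2 ^ (n - k) := by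
        rw [← mul_pow]
        congr 1
        ring
      rw [h6]
      field_simp
    rw [← h3]
    push_cast
    ring
  exact_mod_cast h2

theorem gb_idA (n : ℕ) : gaussBonnet n (idA (2 * n)) = 2 ^ n * (2 * n).factorial := by
  have h1 := Pool.Agent.Frob61.gb_id_add (n := n) (fun _ _ _ _ => 0) (fun _ _ _ _ => by simp)
  have h2 : (fun i j k l => idA (2 * n) i j k l + 0) = idA (2 * n) := by
    funext i j k l
    rw [add_zero]
  rw [h2] at h1
  rw [h1, sum_eq_single 0]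
  · rw [Pool.Agent.Frob61.DD_eq]
    simp [Pool.Agent.Frob61.ctr]
  · intro k _ hk
    rw [Pool.Agent.Frob61.DD_eq]
    have h3 : ∀ f : Fin (2 * k) → Fin (2 * n),
        Pool.Agent.Frob61.ctr k (fun _ _ _ _ => (0 : ℝ)) f = 0 := by
      intro f
      unfold Pool.Agent.Frob61.ctr
      refine sum_eq_zero fun ρ _ => ?_
      rw [prod_const, card_univ, Fintype.card_fin, zero_pow hk, mul_zero]
    simp only [h3, sum_const_zero, mul_zero]
  · intro h3
    exact absurd (mem_range.2 (Nat.succ_pos n)) h3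

theorem zz_zero (n : ℕ) (R : Arr (2 * n)) : zz n R 0 = (-1) ^ n := by
  have h1 : ((2 ^ n * (2 * n).factorial : ℝ) : ℂ) =
      gb8_phi (2 * n + 2 * n) (((-2 : ℂ) • omg (2 * n) ^ 2) ^ n) := by
    rw [← gb_idA, ← topc_vh_pow, vh_idA]
    rfl
  have h2 : ((-2 : ℂ) • omg (2 * n) ^ 2) ^ n = ((-2 : ℂ) ^ n) • (omg (2 * n) ^ (2 * (n - 0)) * Vh R ^ 0) := by
    rw [pow_zero, mul_one, Nat.sub_zero, pow_mul]
    exact smul_pow (-2 : ℂ) (omg (2 * n) ^ 2) n
  rw [h2, map_smul, gb8_val, smul_eq_mul] at h1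
  have h3 : (2 : ℝ) ^ n * (2 * n).factorial =
      (-2) ^ n * ((2 * (n - 0)).factorial * (0 : ℕ).factorial * zz n R 0) := by
    exact_mod_cast h1
  rw [Nat.sub_zero, Nat.factorial_zero, Nat.cast_one, mul_one] at h3
  have h4 : ((2 * n).factorial : ℝ) ≠ 0 := Nat.cast_ne_zero.2 (Nat.factorial_ne_zero _)
  have h5 : (-2 : ℝ) ^ n = (-1) ^ n * 2 ^ n := by
    rw [← mul_pow]
    norm_num
  have h6 : (-1 : ℝ) ^ n * (-1) ^ n = 1 := by
    rw [← mul_pow]
    norm_num
  have h7 : (2 : ℝ) ^ n * (2 * n).factorial ≠ 0 := by positivity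
  have h8 : (2 : ℝ) ^ n * (2 * n).factorial * 1 =
      (2 : ℝ) ^ n * (2 * n).factorial * ((-1) ^ n * zz n R 0) := by
    rw [h5] at h3
    linear_combination h3
  have h9 := mul_left_cancel₀ h7 h8
  calc zz n R 0 = ((-1 : ℝ) ^ n * (-1) ^ n) * zz n R 0 := by rw [h6, one_mul]
    _ = (-1) ^ n * ((-1) ^ n * zz n R 0) := by ring
    _ = (-1) ^ n := by rw [← h9, mul_one]

end Pool.Agent.H46P
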