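import Pool.Agent.Lib.H46P.GA4
import Pool.Agent.Lib.H46P.GB7
import Pool.Agent.Lib.H46P.GB8
import Pool.Agent.Lib.H46P.GB10

/-!
# H46P, chunk GB11: sign of the Gauss-Bonnet integrand of `V - (1/4) * identity`

PROOF. `q = (-1)^n ∑_{k ≤ n} zz n R k X^(n-k)`: monic of degree `n` (`zz_zero`).  `gb_expand` with
`t = -1/4`: `(-1)^n gaussBonnet n (R - idA/4) = n! gml q`.  By `gml_pos` it is enough that the complex
zeros `ζ` of `q` satisfy `|ζ| ≤ n/20`.  Let `|ζ| > n/20 > 0`: `q(ζ) = (-1)^n ζ^n ∑ zz_k ζ^(-k) =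
(-1)^n ζ^n Zf (2n) (ζ⁻¹ rten R)` (`zf_expand`).  `exists_alt` for the tensor `ζ⁻¹ rten R`, whose
injective norm is at most `u / |ζ| ≤ 20 u / n`; `Zf` depends only on `crp _ 4 T`.  `ZFree` with
`N = 2n`: `(20 u / n) (2n) (1 + log (2n))^3 = 40 u (1 + log (2n))^3 ≤ c0`, so `Zf ≠ 0`.
-/

namespace Pool.Agent.H46P

open Finset Polynomial
open scoped BigOperators
open Pool.Agent.H69Hopf (Arr gaussBonnet idA)

lemma gb11_ev_smul {κ : Type*} [Fintype κ] (c : ℂ) (xs : List (κ → ℂ)) (T : List κ → ℂ) :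
    ev xs (fun I => c * T I) = c * ev xs T := by
  induction xs generalizing T with
  | nil => rfl
  | cons x xs ih =>
    rw [ev_cons, ev_cons, Finset.mul_sum]
    refine Finset.sum_congr rfl fun k _ => ?_
    rw [ih (fun I => T (k :: I))]
    ring

lemma gb11_inj {κ : Type*} [Fintype κ] {n : ℕ} {T : List κ → ℂ} {u : ℝ} (c : ℂ) (h : Inj n T u) :
    Inj n (fun I => c * T I) (‖c‖ * u) := by
  intro xs hxs
  rw [gb11_ev_smul, norm_mul, mul_assoc]
  exact mul_le_mul_of_nonneg_left (h xs hxs) (norm_nonneg c)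

lemma gb11_Zf {N : ℕ} {T T' : List (Fin (N + N)) → ℂ} (h : crp (N + N) 4 T' = crp (N + N) 4 T) :
    Zf N T' = Zf N T := by
  unfold Zf ell
  rw [h]

theorem gb_sign {c0 : ℝ} (hZ : ZFree c0) (n : ℕ) (hn : 2 ≤ n) (R : Arr (2 * n)) (u : ℝ)
    (hu : 0 ≤ u) (hR : Inj 4 (rten R) u)
    (hc : 40 * u * (1 + Real.log (2 * n : ℕ)) ^ 3 ≤ c0) :
    0 < (-1) ^ n * gaussBonnet n (fun i j k l => R i j k l + (-(1 / 4)) * idA (2 * n) i j k l) := by
  set p : ℝ[X] := ∑ j ∈ range n, C ((-1) ^ n * zz n R (n - j)) * X ^ j with hp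
  set q : ℝ[X] := X ^ n + p with hqdef
  have hdeg : p.degree < (n : WithBot ℕ) := by
    rw [hp]
    refine (Polynomial.degree_sum_le _ _).trans_lt ?_
    refine (Finset.sup_lt_iff (WithBot.bot_lt_coe n)).2 fun j hj => ?_
    refine (Polynomial.degree_C_mul_X_pow_le _ _).trans_lt ?_
    exact WithBot.coe_lt_coe.mpr (Finset.mem_range.mp hj)
  have hmon : q.Monic := Polynomial.monic_X_pow_add hdeg
  have hnat : q.natDegree = n := by
    rw [hqdef, Polynomial.natDegree_add_eq_left_of_degree_lt]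
    · simp
    · rw [Polynomial.degree_X_pow]; exact hdeg
  have hq' : q = ∑ j ∈ range (n + 1), C ((-1) ^ n * zz n R (n - j)) * X ^ j := by
    rw [Finset.sum_range_succ, Nat.sub_self, zz_zero, ← mul_pow]
    rw [hqdef, hp, add_comm]
    simp
  have hcoeff : ∀ j ∈ range (n + 1), q.coeff j = (-1) ^ n * zz n R (n - j) := by
    intro j hj
    rw [hq', Polynomial.finsetSum_coeff]
    rw [Finset.sum_eq_single j]
    · rw [Polynomial.coeff_C_mul_X_pow, if_pos rfl]
    · intro b _ hb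
      rw [Polynomial.coeff_C_mul_X_pow, if_neg (fun h => hb h.symm)]
    · intro h; exact absurd hj h
  have hgml : gml q = ∑ j ∈ range (n + 1), (-1) ^ n * zz n R (n - j) * dfm j := by
    unfold gml
    rw [hnat]
    refine Finset.sum_congr rfl fun j hj => ?_
    rw [hcoeff j hj]
  have hGB : (-1) ^ n * gaussBonnet n
      (fun i j k l => R i j k l + (-(1 / 4)) * idA (2 * n) i j k l) =
      n.factorial * gml q := by
    rw [gb_expand, hgml, ← Finset.sum_range_reflect, Finset.mul_sum, Finset.mul_sum,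
      Finset.mul_sum]
    refine Finset.sum_congr rfl fun j hj => ?_
    have hj' : j ≤ n := Nat.lt_succ_iff.mp (Finset.mem_range.mp hj)
    have h1 : n + 1 - 1 - j = n - j := by omega
    have h2 : n - (n - j) = j := by omega
    rw [h1, h2]
    have h3 : (-4 * (-(1 / 4)) : ℝ) = 1 := by norm_num
    rw [h3, one_pow]
    ring
  rw [hGB]
  refine mul_pos (by exact_mod_cast Nat.factorial_pos n) ?_
  refine gml_pos n hn q hmon hnat ?_
  intro z hz
  by_contra hcon
  push Not at hcon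
  have hn0 : (0 : ℝ) < n := by exact_mod_cast (by omega : 0 < n)
  have hzpos : 0 < ‖z‖ := lt_trans (by positivity) hcon
  have hz0 : z ≠ 0 := norm_pos_iff.mp hzpos
  -- the value of the polynomial
  have heval : (q.map (algebraMap ℝ ℂ)).eval z =
      (-1) ^ n * z ^ n * ∑ k ∈ range (n + 1), (zz n R k : ℂ) * (z⁻¹) ^ k := by
    rw [hq', Polynomial.map_sum, Polynomial.eval_finsetSum, ← Finset.sum_range_reflect,
      Finset.mul_sum]
    refine Finset.sum_congr rfl fun k hk => ?_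
    have hk' : k ≤ n := Nat.lt_succ_iff.mp (Finset.mem_range.mp hk)
    have h1 : n + 1 - 1 - k = n - k := by omega
    have h2 : n - (n - k) = k := by omega
    rw [h1, h2]
    have h3 : z ^ n = z ^ (n - k) * z ^ k := by
      rw [← pow_add]; congr 1; omega
    simp only [Polynomial.map_mul, Polynomial.map_C, Polynomial.map_pow, Polynomial.map_X,
      Polynomial.eval_mul, Polynomial.eval_C, Polynomial.eval_pow, Polynomial.eval_X]
    rw [h3, inv_pow]
    have h4 : z ^ k * (z ^ k)⁻¹ = 1 := mul_inv_cancel₀ (pow_ne_zero _ hz0)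
    have h5 : (algebraMap ℝ ℂ) ((-1) ^ n * zz n R k) = (-1) ^ n * (zz n R k : ℂ) := by
      simp
    rw [h5]
    calc (-1) ^ n * (zz n R k : ℂ) * z ^ (n - k)
        = (-1) ^ n * (zz n R k : ℂ) * z ^ (n - k) * (z ^ k * (z ^ k)⁻¹) := by rw [h4, mul_one]
      _ = _ := by ring
  have hz' : (q.map (algebraMap ℝ ℂ)).eval z = 0 := hz
  rw [heval, ← zf_expand n R z⁻¹] at hz'
  have hne : ((-1) ^ n * z ^ n : ℂ) ≠ 0 :=
    mul_ne_zero (pow_ne_zero _ (by norm_num)) (pow_ne_zero _ hz0)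
  have hZ0 : Zf (2 * n) (fun I => z⁻¹ * rten R I) = 0 := by
    rcases mul_eq_zero.mp hz' with h | h
    · exact absurd h hne
    · exact h
  have hinj := gb11_inj z⁻¹ hR
  obtain ⟨T', hT1, hT2, hT3⟩ := exists_alt (fun I => z⁻¹ * rten R I) (‖z⁻¹‖ * u)
    (by positivity) hinj
  refine hZ (2 * n) T' (‖z⁻¹‖ * u) (by omega) (by positivity) hT1 hT2 ?_ ?_
  · refine le_trans ?_ hc
    have hlog : 0 ≤ (1 + Real.log (2 * n : ℕ)) ^ 3 := by
      have : 0 ≤ Real.log (2 * n : ℕ) := Real.log_natCast_nonneg _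
      positivity
    refine mul_le_mul_of_nonneg_right ?_ hlog
    rw [norm_inv, inv_mul_eq_div, div_mul_eq_mul_div, div_le_iff₀ hzpos]
    push_cast
    nlinarith [mul_nonneg hu (sub_nonneg.mpr hcon.le)]
  · rw [gb11_Zf hT3]
    exact hZ0

end Pool.Agent.H46P
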