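import Pool.Agent.Lib.H46P.GBDefs

/-!
# H46P, chunk GB9b: complexification

PROOF. `ev [x1, x2, x3, x4] (rten R) = ∑ R_ijkl x1(mL i) x2(mL j) x3(mR k) x4(mR l)` (the sums over the
letters collapse).  Real and imaginary parts `x = u + i v` of the four vectors: the sum of 16 terms
`i^(...) ev R (u or v) ...`, so the absolute value is at most
`c ∏ (|u_j| + |v_j|) ≤ c ∏ √2 |x_j| = 4 c ∏ |x_j|`, and the restriction of `x` to the first or second
family of modes has norm `≤ nrm x`.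
-/

namespace Pool.Agent.H46P

open Finset
open scoped BigOperators
open Pool.Agent.H69Hopf (Arr)

/-- the complex 4-linear form -/
noncomputable def gb9b_e {N : ℕ} (R : Arr N) (a b c d : Fin N → ℂ) : ℂ :=
  ∑ i, ∑ j, ∑ k, ∑ l, (R i j k l : ℂ) * a i * b j * c k * d l

/-- the norm of a complex vector -/
noncomputable def gb9b_n {N : ℕ} (a : Fin N → ℂ) : ℝ := Real.sqrt (∑ i, ‖a i‖ ^ 2)

/-- real vectors -/
noncomputable def gb9b_r {N : ℕ} (u : Fin N → ℝ) : Fin N → ℂ := fun i => (u i : ℂ)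

theorem gb9b_real {N : ℕ} (R : Arr N) (x y z w : Fin N → ℝ) :
    gb9b_e R (gb9b_r x) (gb9b_r y) (gb9b_r z) (gb9b_r w) = (Pool.Agent.H69Hopf.ev R x y z w : ℂ) := by
  unfold gb9b_e Pool.Agent.H69Hopf.ev gb9b_r
  push_cast
  rfl

theorem gb9b_s1 {N : ℕ} (R : Arr N) (a b c d : Fin N → ℂ) : gb9b_e R a b c d =
    gb9b_e R (gb9b_r fun i => (a i).re) b c d + Complex.I * gb9b_e R (gb9b_r fun i => (a i).im) b c d := by
  simp only [gb9b_e, gb9b_r, Finset.mul_sum, ← Finset.sum_add_distrib]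
  refine Finset.sum_congr rfl fun i _ => Finset.sum_congr rfl fun j _ =>
    Finset.sum_congr rfl fun k _ => Finset.sum_congr rfl fun l _ => ?_
  linear_combination (-((R i j k l : ℂ) * b j * c k * d l)) * Complex.re_add_im (a i)

theorem gb9b_s2 {N : ℕ} (R : Arr N) (a b c d : Fin N → ℂ) : gb9b_e R a b c d =
    gb9b_e R a (gb9b_r fun i => (b i).re) c d + Complex.I * gb9b_e R a (gb9b_r fun i => (b i).im) c d := by
  simp only [gb9b_e, gb9b_r, Finset.mul_sum, ← Finset.sum_add_distrib]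
  refine Finset.sum_congr rfl fun i _ => Finset.sum_congr rfl fun j _ =>
    Finset.sum_congr rfl fun k _ => Finset.sum_congr rfl fun l _ => ?_
  linear_combination (-((R i j k l : ℂ) * a i * c k * d l)) * Complex.re_add_im (b j)

theorem gb9b_s3 {N : ℕ} (R : Arr N) (a b c d : Fin N → ℂ) : gb9b_e R a b c d =
    gb9b_e R a b (gb9b_r fun i => (c i).re) d + Complex.I * gb9b_e R a b (gb9b_r fun i => (c i).im) d := by
  simp only [gb9b_e, gb9b_r, Finset.mul_sum, ← Finset.sum_add_distrib]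
  refine Finset.sum_congr rfl fun i _ => Finset.sum_congr rfl fun j _ =>
    Finset.sum_congr rfl fun k _ => Finset.sum_congr rfl fun l _ => ?_
  linear_combination (-((R i j k l : ℂ) * a i * b j * d l)) * Complex.re_add_im (c k)

theorem gb9b_s4 {N : ℕ} (R : Arr N) (a b c d : Fin N → ℂ) : gb9b_e R a b c d =
    gb9b_e R a b c (gb9b_r fun i => (d i).re) + Complex.I * gb9b_e R a b c (gb9b_r fun i => (d i).im) := by
  simp only [gb9b_e, gb9b_r, Finset.mul_sum, ← Finset.sum_add_distrib]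
  refine Finset.sum_congr rfl fun i _ => Finset.sum_congr rfl fun j _ =>
    Finset.sum_congr rfl fun k _ => Finset.sum_congr rfl fun l _ => ?_
  linear_combination (-((R i j k l : ℂ) * a i * b j * c k)) * Complex.re_add_im (d l)

/-- one variable -/
theorem gb9b_step {N : ℕ} (F : (Fin N → ℂ) → ℂ) (K : ℝ) (hK : 0 ≤ K)
    (h1 : ∀ a, F a = F (gb9b_r fun i => (a i).re) + Complex.I * F (gb9b_r fun i => (a i).im))
    (h2 : ∀ u : Fin N → ℝ, ‖F (gb9b_r u)‖ ≤ K * Real.sqrt (∑ i, u i ^ 2)) (a : Fin N → ℂ) :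
    ‖F a‖ ≤ K * Real.sqrt 2 * gb9b_n a := by
  set p := ∑ i, (a i).re ^ 2 with hp
  set q := ∑ i, (a i).im ^ 2 with hq
  have hp0 : 0 ≤ p := Finset.sum_nonneg fun _ _ => sq_nonneg _
  have hq0 : 0 ≤ q := Finset.sum_nonneg fun _ _ => sq_nonneg _
  have e1 : ∑ i, ‖a i‖ ^ 2 = p + q := by
    rw [hp, hq, ← Finset.sum_add_distrib]
    refine Finset.sum_congr rfl fun i _ => ?_
    rw [← Complex.normSq_eq_norm_sq, Complex.normSq_apply]
    ring
  have e2 : Real.sqrt p + Real.sqrt q ≤ Real.sqrt 2 * Real.sqrt (p + q) := by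
    rw [← Real.sqrt_mul (by norm_num : (0 : ℝ) ≤ 2)]
    refine Real.le_sqrt_of_sq_le ?_
    have h3 := Real.sq_sqrt hp0
    have h4 := Real.sq_sqrt hq0
    nlinarith [sq_nonneg (Real.sqrt p - Real.sqrt q)]
  have e3 := h2 fun i => (a i).re
  have e4 := h2 fun i => (a i).im
  have e5 : ‖F a‖ ≤ ‖F (gb9b_r fun i => (a i).re)‖ + ‖F (gb9b_r fun i => (a i).im)‖ := by
    rw [h1 a]
    refine (norm_add_le _ _).trans ?_
    rw [norm_mul, Complex.norm_I, one_mul]
  have e6 : gb9b_n a = Real.sqrt (p + q) := by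
    rw [gb9b_n, e1]
  rw [e6]
  calc ‖F a‖ ≤ K * Real.sqrt p + K * Real.sqrt q := e5.trans (add_le_add e3 e4)
    _ = K * (Real.sqrt p + Real.sqrt q) := by ring
    _ ≤ K * (Real.sqrt 2 * Real.sqrt (p + q)) := mul_le_mul_of_nonneg_left e2 hK
    _ = _ := by ring

theorem gb9b_bound {N : ℕ} (R : Arr N) (c : ℝ) (hc : 0 ≤ c)
    (h : ∀ x y z w : Fin N → ℝ, |Pool.Agent.H69Hopf.ev R x y z w| ≤ c * (Real.sqrt (∑ i, x i ^ 2) *
      Real.sqrt (∑ i, y i ^ 2) * Real.sqrt (∑ i, z i ^ 2) * Real.sqrt (∑ i, w i ^ 2)))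
    (a b e d : Fin N → ℂ) : ‖gb9b_e R a b e d‖ ≤ 4 * c * (gb9b_n a * gb9b_n b * gb9b_n e * gb9b_n d) := by
  have hn : ∀ a : Fin N → ℂ, 0 ≤ gb9b_n a := fun a => Real.sqrt_nonneg _
  have b1 : ∀ (y z w : Fin N → ℝ) (a : Fin N → ℂ), ‖gb9b_e R a (gb9b_r y) (gb9b_r z) (gb9b_r w)‖ ≤
      c * (Real.sqrt (∑ i, y i ^ 2) * Real.sqrt (∑ i, z i ^ 2) * Real.sqrt (∑ i, w i ^ 2)) * Real.sqrt 2 *
        gb9b_n a := by
    intro y z w a
    refine gb9b_step (fun a => gb9b_e R a (gb9b_r y) (gb9b_r z) (gb9b_r w)) _ (by positivity)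
      (fun a => gb9b_s1 R a _ _ _) (fun u => ?_) a
    show ‖gb9b_e R (gb9b_r u) (gb9b_r y) (gb9b_r z) (gb9b_r w)‖ ≤ _
    rw [gb9b_real, Complex.norm_real, Real.norm_eq_abs]
    refine (h u y z w).trans (le_of_eq ?_)
    ring
  have b2 : ∀ (z w : Fin N → ℝ) (a b : Fin N → ℂ), ‖gb9b_e R a b (gb9b_r z) (gb9b_r w)‖ ≤
      c * (gb9b_n a * Real.sqrt (∑ i, z i ^ 2) * Real.sqrt (∑ i, w i ^ 2) * Real.sqrt 2) * Real.sqrt 2 *
        gb9b_n b := by
    intro z w a b
    refine gb9b_step (fun b => gb9b_e R a b (gb9b_r z) (gb9b_r w)) _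
      (by have := hn a; positivity) (fun b => gb9b_s2 R a b _ _) (fun u => ?_) b
    refine (b1 u z w a).trans (le_of_eq ?_)
    ring
  have b3 : ∀ (w : Fin N → ℝ) (a b e : Fin N → ℂ), ‖gb9b_e R a b e (gb9b_r w)‖ ≤
      c * (gb9b_n a * gb9b_n b * Real.sqrt (∑ i, w i ^ 2) * Real.sqrt 2 * Real.sqrt 2) * Real.sqrt 2 *
        gb9b_n e := by
    intro w a b e
    refine gb9b_step (fun e => gb9b_e R a b e (gb9b_r w)) _
      (by have := hn a; have := hn b; positivity) (fun e => gb9b_s3 R a b e _) (fun u => ?_) e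
    refine (b2 u w a b).trans (le_of_eq ?_)
    ring
  have b4 : ‖gb9b_e R a b e d‖ ≤
      c * (gb9b_n a * gb9b_n b * gb9b_n e * Real.sqrt 2 * Real.sqrt 2 * Real.sqrt 2) * Real.sqrt 2 *
        gb9b_n d := by
    refine gb9b_step (fun d => gb9b_e R a b e d) _
      (by have := hn a; have := hn b; have := hn e; positivity) (fun d => gb9b_s4 R a b e d) (fun u => ?_) d
    refine (b3 u a b e).trans (le_of_eq ?_)
    ring
  refine b4.trans (le_of_eq ?_)
  have h2 : Real.sqrt 2 * Real.sqrt 2 = 2 := Real.mul_self_sqrt (by norm_num)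
  calc _ = c * (gb9b_n a * gb9b_n b * gb9b_n e) * (Real.sqrt 2 * Real.sqrt 2) * (Real.sqrt 2 * Real.sqrt 2) *
        gb9b_n d := by ring
    _ = _ := by
        rw [h2]
        ring

theorem gb9b_LR {N : ℕ} (i j : Fin N) : (Fin.castAdd N i : Fin (N + N)) ≠ Fin.natAdd N j := by
  intro h
  have h1 := congrArg Fin.val h
  rw [Fin.val_castAdd, Fin.val_natAdd] at h1
  omega

theorem gb9b_r1 {N : ℕ} (R : Arr N) (i : Fin N) (b c d : Fin (N + N)) :
    rten R [Fin.natAdd N i, b, c, d] = 0 := by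
  unfold rten
  refine Finset.sum_eq_zero fun i' _ => Finset.sum_eq_zero fun j' _ => Finset.sum_eq_zero fun k' _ =>
    Finset.sum_eq_zero fun l' _ => if_neg ?_
  rintro ⟨h, -⟩
  exact gb9b_LR _ _ h.symm

theorem gb9b_r2 {N : ℕ} (R : Arr N) (a : Fin (N + N)) (j : Fin N) (c d : Fin (N + N)) :
    rten R [a, Fin.natAdd N j, c, d] = 0 := by
  unfold rten
  refine Finset.sum_eq_zero fun i' _ => Finset.sum_eq_zero fun j' _ => Finset.sum_eq_zero fun k' _ =>
    Finset.sum_eq_zero fun l' _ => if_neg ?_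
  rintro ⟨-, h, -⟩
  exact gb9b_LR _ _ h.symm

theorem gb9b_r3 {N : ℕ} (R : Arr N) (a b : Fin (N + N)) (k : Fin N) (d : Fin (N + N)) :
    rten R [a, b, Fin.castAdd N k, d] = 0 := by
  unfold rten
  refine Finset.sum_eq_zero fun i' _ => Finset.sum_eq_zero fun j' _ => Finset.sum_eq_zero fun k' _ =>
    Finset.sum_eq_zero fun l' _ => if_neg ?_
  rintro ⟨-, -, h, -⟩
  exact gb9b_LR _ _ h

theorem gb9b_r4 {N : ℕ} (R : Arr N) (a b c : Fin (N + N)) (l : Fin N) :
    rten R [a, b, c, Fin.castAdd N l] = 0 := by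
  unfold rten
  refine Finset.sum_eq_zero fun i' _ => Finset.sum_eq_zero fun j' _ => Finset.sum_eq_zero fun k' _ =>
    Finset.sum_eq_zero fun l' _ => if_neg ?_
  rintro ⟨-, -, -, h⟩
  exact gb9b_LR _ _ h

theorem gb9b_r5 {N : ℕ} (R : Arr N) (i j k l : Fin N) :
    rten R [Fin.castAdd N i, Fin.castAdd N j, Fin.natAdd N k, Fin.natAdd N l] = (R i j k l : ℂ) := by
  unfold rten
  dsimp only
  rw [Finset.sum_eq_single i, Finset.sum_eq_single j, Finset.sum_eq_single k, Finset.sum_eq_single l]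
  · exact if_pos ⟨rfl, rfl, rfl, rfl⟩
  · intro l' _ hl
    refine if_neg ?_
    rintro ⟨-, -, -, h⟩
    exact hl ((Fin.natAdd_inj N).1 h).symm
  · intro h
    exact absurd (Finset.mem_univ _) h
  · intro k' _ hk
    refine Finset.sum_eq_zero fun l' _ => if_neg ?_
    rintro ⟨-, -, h, -⟩
    exact hk ((Fin.natAdd_inj N).1 h).symm
  · intro h
    exact absurd (Finset.mem_univ _) h
  · intro j' _ hj
    refine Finset.sum_eq_zero fun k' _ => Finset.sum_eq_zero fun l' _ => if_neg ?_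
    rintro ⟨-, h, -⟩
    exact hj (Fin.castAdd_injective N N h).symm
  · intro h
    exact absurd (Finset.mem_univ _) h
  · intro i' _ hi
    refine Finset.sum_eq_zero fun j' _ => Finset.sum_eq_zero fun k' _ => Finset.sum_eq_zero fun l' _ => if_neg ?_
    rintro ⟨h, -⟩
    exact hi (Fin.castAdd_injective N N h).symm
  · intro h
    exact absurd (Finset.mem_univ _) h

theorem gb9b_ev {N : ℕ} (R : Arr N) (x1 x2 x3 x4 : Fin (N + N) → ℂ) :
    ev [x1, x2, x3, x4] (rten R) = gb9b_e R (fun i => x1 (Fin.castAdd N i)) (fun i => x2 (Fin.castAdd N i))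
      (fun i => x3 (Fin.natAdd N i)) (fun i => x4 (Fin.natAdd N i)) := by
  simp only [ev_cons, ev_nil, Fin.sum_univ_add, gb9b_r1, gb9b_r2, gb9b_r3, gb9b_r4, gb9b_r5, mul_zero,
    Finset.sum_const_zero, zero_add, add_zero]
  unfold gb9b_e
  refine Finset.sum_congr rfl fun i _ => ?_
  rw [Finset.mul_sum]
  refine Finset.sum_congr rfl fun j _ => ?_
  rw [Finset.mul_sum, Finset.mul_sum]
  refine Finset.sum_congr rfl fun k _ => ?_
  rw [Finset.mul_sum, Finset.mul_sum, Finset.mul_sum]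
  refine Finset.sum_congr rfl fun l _ => ?_
  ring

theorem gb9b_nL {N : ℕ} (x : Fin (N + N) → ℂ) : gb9b_n (fun i : Fin N => x (Fin.castAdd N i)) ≤ nrm x := by
  unfold gb9b_n nrm
  refine Real.sqrt_le_sqrt ?_
  rw [Fin.sum_univ_add]
  exact le_add_of_nonneg_right (Finset.sum_nonneg fun _ _ => by positivity)

theorem gb9b_nR {N : ℕ} (x : Fin (N + N) → ℂ) : gb9b_n (fun i : Fin N => x (Fin.natAdd N i)) ≤ nrm x := by
  unfold gb9b_n nrm
  refine Real.sqrt_le_sqrt ?_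
  rw [Fin.sum_univ_add]
  exact le_add_of_nonneg_left (Finset.sum_nonneg fun _ _ => by positivity)

theorem inj_rten {N : ℕ} (R : Arr N) (c : ℝ) (hc : 0 ≤ c)
    (h : ∀ x y z w : Fin N → ℝ, |Pool.Agent.H69Hopf.ev R x y z w| ≤ c * (Real.sqrt (∑ i, x i ^ 2) *
      Real.sqrt (∑ i, y i ^ 2) * Real.sqrt (∑ i, z i ^ 2) * Real.sqrt (∑ i, w i ^ 2))) :
    Inj 4 (rten R) (4 * c) := by
  intro xs hxs
  match xs, hxs with
  | [x1, x2, x3, x4], _ =>
    rw [gb9b_ev]
    refine (gb9b_bound R c hc h _ _ _ _).trans ?_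
    simp only [List.map_cons, List.map_nil, List.prod_cons, List.prod_nil, mul_one]
    have hn : ∀ a : Fin N → ℂ, 0 ≤ gb9b_n a := fun a => Real.sqrt_nonneg _
    have n1 := gb9b_nL x1
    have n2 := gb9b_nL x2
    have n3 := gb9b_nR x3
    have n4 := gb9b_nR x4
    have p1 := nrm_nonneg x1
    have p2 := nrm_nonneg x2
    have p3 := nrm_nonneg x3
    have m1 := mul_le_mul n1 n2 (hn _) p1
    have m2 := mul_le_mul m1 n3 (hn _) (mul_nonneg p1 p2)
    have m3 := mul_le_mul m2 n4 (hn _) (mul_nonneg (mul_nonneg p1 p2) p3)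
    refine (mul_le_mul_of_nonneg_left m3 (by positivity : 0 ≤ 4 * c)).trans (le_of_eq ?_)
    ring

end Pool.Agent.H46P
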