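import Pool.Agent.Lib.H46P.GB9
import Pool.Agent.Lib.H46P.GB9b
import Pool.Agent.Lib.H46P.GB11

/-!
# H46P, chunk GB12: the pointwise theorem

PROOF. Let `κ0 = (a+b)/2`, `V0 = R - κ0 idA`: `|sec V0| ≤ (b-a)/2 * area2` (`ev_idA`: the
sectional curvature of `idA` is one).  `V = - V0 / (4 κ0)`: algebraic curvature tensor with
`|sec V| ≤ e := (b-a)/(4 (a+b))`, and `-R = 4 κ0 (V - idA/4)`.  `sec_four`, `inj_rten`:
`Inj 4 (rten V) (16/3 e)`; `gb_sign` with `u = 16/3 e` gives `0 < (-1)^n gaussBonnet n (V - idA/4)`,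
hence `0 < (-1)^n gaussBonnet n (-R) = gaussBonnet n R` (homogeneity: `gaussBonnet n (c R) =
c^n gaussBonnet n R`, a lemma on finite sums and products; `H69Hopf.gb_neg` in
`Lib/H69/Hopf/...` for the sign).  Numbers: `b - a ≤ c b/(1+log n)^3`, `a + b ≥ b`, so
`e ≤ c/(4 (1+log n)^3)`, `1 + log (2n) ≤ 1.7 (1 + log n)`, `40 * 16/3 * e * 1.7^3 (1+log n)^3 ≤
40 * 16/3 * 4.913/4 * c ≤ 263 c ≤ c0`.
If `b < a` the interval is empty: contradiction with `x = e_0`, `y = e_1`.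
-/

namespace Pool.Agent.H46P

open Finset
open scoped BigOperators
open Pool.Agent.H69Hopf (Arr IsAlgCurv area2 gaussBonnet)

theorem pointwise_polylog {c0 : ℝ} (hZ : ZFree c0) (n : ℕ) (hn : 2 ≤ n) (R : Arr (2 * n))
    (hR : IsAlgCurv R) (a b c : ℝ) (hb : 0 < b) (hc : 0 ≤ c) (hc1 : c ≤ 1) (hc0 : 263 * c ≤ c0)
    (hab : (1 - c / (1 + Real.log n) ^ 3) * b ≤ a)
    (hs : ∀ x y : Fin (2 * n) → ℝ, a * area2 x y ≤ Pool.Agent.H69Hopf.ev R x y x y ∧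
      Pool.Agent.H69Hopf.ev R x y x y ≤ b * area2 x y) :
    0 < gaussBonnet n R := by
  sorry

end Pool.Agent.H46P
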