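import Pool.Agent.Lib.H46P.GBDefs

/-!
# H46P, chunk GB2: the top coefficient of the full ordered word is one

PROOF. Lemma: for a strictly increasing list `l` of modes (`l.Pairwise (· < ·)`),
`(l.map fun i => LA m (i, true)).prod (vac m) = EuclideanSpace.single l.toFinset 1`.  Induction:
`a_i^* e_S = e_{insert i S}` if `i < j` for all `j ∈ S` (`cre_apply`: at `T` with `i ∈ T` the value is
`fsgn i T * e_S (T.erase i)`, nonzero only for `T.erase i = S`, i.e. `T = insert i S`, and
`fsgn i (insert i S) = 1` as no element of it is `< i`).  The product `cwf mL * cwf mR` is the one of the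
list `List.ofFn mL ++ List.ofFn mR`, strictly increasing and containing all modes.
-/

namespace Pool.Agent.H46P

open Finset
open scoped BigOperators

theorem gb2_list {m : ℕ} (l : List (Fin m)) (hl : l.Pairwise (· < ·)) :
    (l.map fun i => LA m (i, true)).prod (vac m) = EuclideanSpace.single l.toFinset 1 := by
  induction l with
  | nil => simp [vac]
  | cons i l ih =>
    rw [List.pairwise_cons] at hl
    rw [List.map_cons, List.prod_cons]
    show LA m (i, true) ((l.map fun i => LA m (i, true)).prod (vac m)) = _
    rw [ih hl.2]
    have hi : i ∉ l.toFinset := fun h => lt_irrefl i (hl.1 i (List.mem_toFinset.1 h))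
    ext S
    rw [cre_apply, List.toFinset_cons]
    simp only [PiLp.single_apply]
    by_cases hS : i ∈ S
    · rw [if_pos hS]
      by_cases hS2 : S = insert i l.toFinset
      · have h2 : S.erase i = l.toFinset := by rw [hS2, Finset.erase_insert hi]
        rw [if_pos h2, if_pos hS2, mul_one, hS2, fsgn_insert_self, fsgn]
        have h3 : l.toFinset.filter (· < i) = ∅ := by
          rw [Finset.filter_eq_empty_iff]
          intro j hj
          exact not_lt.2 (hl.1 j (List.mem_toFinset.1 hj)).le
        rw [h3]
        simp
      · have h2 : S.erase i ≠ l.toFinset := fun h => hS2 (by rw [← h, Finset.insert_erase hS])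
        rw [if_neg h2, if_neg hS2, mul_zero]
    · have h2 : S ≠ insert i l.toFinset := fun h => hS (by rw [h]; exact Finset.mem_insert_self _ _)
      rw [if_neg hS, if_neg h2]

theorem topc_words (N : ℕ) :
    topc (N + N) ((cwf (mL : Fin N → Fin (N + N)) * cwf (mR : Fin N → Fin (N + N)))
      (vac (N + N))) = 1 := by
  have h1 : cwf (mL : Fin N → Fin (N + N)) * cwf (mR : Fin N → Fin (N + N)) =
      ((List.finRange (N + N)).map fun i => LA (N + N) (i, true)).prod := by
    have h2 : List.finRange (N + N) = List.ofFn (mL : Fin N → Fin (N + N)) ++ List.ofFn mR := by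
      rw [← List.ofFn_fin_append, ← List.ofFn_id]
      congr 1
      funext i
      refine Fin.addCases (fun j => ?_) (fun j => ?_) i
      · rw [Fin.append_left]
        rfl
      · rw [Fin.append_right]
        rfl
    rw [h2, List.map_append, List.prod_append, List.map_ofFn, List.map_ofFn]
    rfl
  rw [h1, gb2_list _ (List.pairwise_lt_finRange _), List.toFinset_finRange]
  show (EuclideanSpace.single (Finset.univ : Finset (Fin (N + N))) (1 : ℂ)) Finset.univ = 1
  simp

end Pool.Agent.H46P
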