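import Pool.Agent.Lib.H46P.GB1

/-!
# H46P, chunk GB3: the powers of `Vh R`

PROOF. Induction on `k`.  `Vh R ^ (k+1) = Vh R * Vh R ^ k`.  A function `Fin (2 (k+1)) → Fin N` is
`Fin.cons i (Fin.cons j f')` (up to the cast `2 (k+1) = 2 k + 1 + 1`, which is a definitional equality),
use `Fin.consEquiv` / `Fin.insertNthEquiv` twice (or `Fintype.sum_equiv`, `Fin.sum_univ...`), with
`fst 0 = 0`, `snd 0 = 1`, `fst i.succ = (fst i).succ.succ`, `snd i.succ = (snd i).succ.succ` and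
`Fin.prod_univ_succ`.  `(a_i a_j b_k b_l) * (cwf (mL ∘ f') * cwf (mR ∘ h')) =
(a_i a_j cwf (mL ∘ f')) * (b_k b_l cwf (mR ∘ h'))` by `cwf_pair`, and `cwf_cons`.
-/

namespace Pool.Agent.H46P

open Finset
open scoped BigOperators
open Pool.Agent.H69Hopf (Arr fst snd)

lemma gb3_sum1 {α M : Type*} [Fintype α] [DecidableEq α] [AddCommMonoid M] {d : ℕ}
    (F : (Fin (d + 1) → α) → M) :
    ∑ f, F f = ∑ i, ∑ f' : Fin d → α, F (Fin.cons i f') := by
  rw [← (Fin.consEquiv (fun _ : Fin (d + 1) => α)).sum_comp, Fintype.sum_prod_type]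
  rfl

lemma gb3_sum2 {N k : ℕ} {M : Type*} [AddCommMonoid M]
    (F : (Fin (2 * (k + 1)) → Fin N) → M) :
    ∑ f, F f = ∑ i, ∑ j, ∑ f' : Fin (2 * k) → Fin N,
      F (Fin.cons i (Fin.cons j f' : Fin (2 * k + 1) → Fin N) : Fin (2 * k + 1 + 1) → Fin N) := by
  have h := gb3_sum1 (α := Fin N) (M := M) (d := 2 * k + 1) F
  refine h.trans ?_
  refine Finset.sum_congr rfl fun i _ => ?_
  exact gb3_sum1 (α := Fin N) (M := M) (d := 2 * k)
    (fun g => F (Fin.cons i g : Fin (2 * k + 1 + 1) → Fin N))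

lemma gb3_cwf {N m k : ℕ} (e : Fin N → Fin m) (i j : Fin N) (f : Fin (2 * k) → Fin N) :
    cwf (d := 2 * (k + 1)) (e ∘ (Fin.cons i (Fin.cons j f : Fin (2 * k + 1) → Fin N) :
      Fin (2 * k + 1 + 1) → Fin N)) =
      (LA m (e i, true) * LA m (e j, true)) * cwf (e ∘ f) := by
  have h1 : (e ∘ (Fin.cons i (Fin.cons j f : Fin (2 * k + 1) → Fin N) :
      Fin (2 * k + 1 + 1) → Fin N)) =
      (Fin.cons (e i) (Fin.cons (e j) (e ∘ f) : Fin (2 * k + 1) → Fin m) :
        Fin (2 * k + 1 + 1) → Fin m) := by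
    rw [Fin.comp_cons, Fin.comp_cons]
  have h2 := cwf_cons (d := 2 * k + 1) (e i) (Fin.cons (e j) (e ∘ f) : Fin (2 * k + 1) → Fin m)
  have h3 := cwf_cons (d := 2 * k) (e j) (e ∘ f)
  rw [h3, ← mul_assoc] at h2
  rw [h1]
  exact h2

theorem vh_pow {N : ℕ} (R : Arr N) (k : ℕ) :
    Vh R ^ k = ∑ f : Fin (2 * k) → Fin N, ∑ h : Fin (2 * k) → Fin N,
      (∏ i : Fin k, (R (f (fst i)) (f (snd i)) (h (fst i)) (h (snd i)) : ℂ)) •
        (cwf (mL ∘ f) * cwf (mR ∘ h)) := by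
  induction k with
  | zero =>
    rw [pow_zero]
    have : Unique (Fin (2 * 0) → Fin N) := inferInstanceAs (Unique (Fin 0 → Fin N))
    rw [Fintype.sum_unique, Fintype.sum_unique]
    have h1 : ∀ f : Fin (2 * 0) → Fin (N + N), cwf f = 1 := fun f => cwf_zero f
    rw [h1, h1]
    simp
  | succ k ih =>
    rw [pow_succ', ih, gb3_sum2]
    unfold Vh
    simp only [Finset.sum_mul]
    refine Finset.sum_congr rfl fun i _ => ?_
    refine Finset.sum_congr rfl fun j _ => ?_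
    have hr : ∀ f' : Fin (2 * k) → Fin N, _ = _ := fun f' =>
      gb3_sum2 (N := N) (k := k) (fun h : Fin (2 * (k + 1)) → Fin N =>
        (∏ r : Fin (k + 1), (R ((Fin.cons i (Fin.cons j f' : Fin (2 * k + 1) → Fin N) :
          Fin (2 * k + 1 + 1) → Fin N) (fst r)) ((Fin.cons i (Fin.cons j f' :
          Fin (2 * k + 1) → Fin N) : Fin (2 * k + 1 + 1) → Fin N) (snd r))
          (h (fst r)) (h (snd r)) : ℂ)) •
        (cwf (d := 2 * (k + 1)) (mL ∘ (Fin.cons i (Fin.cons j f' : Fin (2 * k + 1) → Fin N) :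
          Fin (2 * k + 1 + 1) → Fin N)) * cwf (mR ∘ h)))
    refine Eq.trans ?_ (Finset.sum_congr rfl fun f' _ => (hr f').symm)
    conv_rhs => rw [Finset.sum_comm]
    refine Finset.sum_congr rfl fun a _ => ?_
    conv_rhs => rw [Finset.sum_comm]
    refine Finset.sum_congr rfl fun b _ => ?_
    simp only [Finset.mul_sum]
    refine Finset.sum_congr rfl fun f' _ => ?_
    refine Finset.sum_congr rfl fun h' _ => ?_
    rw [gb3_cwf, gb3_cwf, Fin.prod_univ_succ]
    have e0 : (R ((Fin.cons i (Fin.cons j f' : Fin (2 * k + 1) → Fin N) :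
          Fin (2 * k + 1 + 1) → Fin N) (fst (0 : Fin (k + 1)))) ((Fin.cons i (Fin.cons j f' :
          Fin (2 * k + 1) → Fin N) : Fin (2 * k + 1 + 1) → Fin N) (snd (0 : Fin (k + 1))))
          ((Fin.cons a (Fin.cons b h' : Fin (2 * k + 1) → Fin N) :
          Fin (2 * k + 1 + 1) → Fin N) (fst (0 : Fin (k + 1)))) ((Fin.cons a (Fin.cons b h' :
          Fin (2 * k + 1) → Fin N) : Fin (2 * k + 1 + 1) → Fin N) (snd (0 : Fin (k + 1)))) : ℝ) =
          R i j a b := rfl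
    have e1 : ∀ r : Fin k, (R ((Fin.cons i (Fin.cons j f' : Fin (2 * k + 1) → Fin N) :
          Fin (2 * k + 1 + 1) → Fin N) (fst r.succ)) ((Fin.cons i (Fin.cons j f' :
          Fin (2 * k + 1) → Fin N) : Fin (2 * k + 1 + 1) → Fin N) (snd r.succ))
          ((Fin.cons a (Fin.cons b h' : Fin (2 * k + 1) → Fin N) :
          Fin (2 * k + 1 + 1) → Fin N) (fst r.succ)) ((Fin.cons a (Fin.cons b h' :
          Fin (2 * k + 1) → Fin N) : Fin (2 * k + 1 + 1) → Fin N) (snd r.succ)) : ℝ) =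
          R (f' (fst r)) (f' (snd r)) (h' (fst r)) (h' (snd r)) := fun r => rfl
    rw [e0]
    simp only [e1]
    rw [smul_mul_smul_comm]
    congr 1
    have hc := cwf_pair (mR a) (mR b) (mL ∘ f')
    calc (LA (N + N) (mL i, true) * LA (N + N) (mL j, true) *
          (LA (N + N) (mR a, true) * LA (N + N) (mR b, true))) * (cwf (mL ∘ f') * cwf (mR ∘ h'))
        = (LA (N + N) (mL i, true) * LA (N + N) (mL j, true)) *
          (((LA (N + N) (mR a, true) * LA (N + N) (mR b, true)) * cwf (mL ∘ f')) *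
            cwf (mR ∘ h')) := by simp only [mul_assoc]
      _ = _ := by rw [hc]; simp only [mul_assoc]

end Pool.Agent.H46P
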