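import Pool.Agent.Lib.H46P.GB2
import Pool.Agent.Lib.H46P.GB3

/-!
# H46P, chunk GB4: the Gauss-Bonnet integrand is the top coefficient of `Vh R ^ n`

PROOF. `vh_pow` with `k = n`, `N = 2 n`.  The terms with `f` or `h` not injective vanish
(`cwf_not_inj`; `mL`, `mR` composed with a non injective function is not injective).  The injective
functions `Fin (2n) → Fin (2n)` are the permutations (`Finite.injective_iff_bijective`,
`Equiv.ofBijective`), `cwf (mL ∘ σ) = sign σ • cwf mL` (`cwf_perm`), and `topc_words`.
(To pass from functions to permutations: `Finset.sum_subset` / `Finset.sum_bij` as in the proof of the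
Leibniz formula, `Matrix.det_mul_aux`.)
-/

namespace Pool.Agent.H46P

open Finset
open scoped BigOperators
open Pool.Agent.H69Hopf (Arr gaussBonnet)

theorem gb4_sum {d : ℕ} {M : Type*} [AddCommMonoid M] (G : (Fin d → Fin d) → M)
    (hG : ∀ f, ¬ Function.Injective f → G f = 0) :
    ∑ f : Fin d → Fin d, G f = ∑ σ : Equiv.Perm (Fin d), G σ := by
  symm
  refine Fintype.sum_of_injective (fun σ : Equiv.Perm (Fin d) => (σ : Fin d → Fin d)) DFunLike.coe_injective
    (fun σ => G σ) G ?_ (fun _ => rfl)
  intro f hf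
  refine hG f fun hi => hf ?_
  exact ⟨Equiv.ofBijective f (Finite.injective_iff_bijective.1 hi), rfl⟩

theorem gb4_topc_smul {m : ℕ} (c : ℂ) (f : Fk m) : topc m (c • f) = c * topc m f := rfl

theorem gb4_topc_sum {m : ℕ} {ι : Type*} (s : Finset ι) (g : ι → Fk m) :
    topc m (∑ i ∈ s, g i) = ∑ i ∈ s, topc m (g i) := by
  classical
  induction s using Finset.induction_on with
  | empty => rw [Finset.sum_empty, Finset.sum_empty]; rfl
  | insert a s ha ih =>
    rw [Finset.sum_insert ha, Finset.sum_insert ha, ← ih]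
    rfl

theorem topc_vh_pow (n : ℕ) (R : Arr (2 * n)) :
    topc (2 * n + 2 * n) ((Vh R ^ n) (vac (2 * n + 2 * n))) = (gaussBonnet n R : ℂ) := by
  rw [vh_pow R n]
  simp only [_root_.sum_apply, gb4_topc_sum, smul_apply, gb4_topc_smul]
  rw [gb4_sum]
  · rw [gaussBonnet, Complex.ofReal_sum]
    refine Finset.sum_congr rfl fun σ _ => ?_
    rw [gb4_sum]
    · rw [Complex.ofReal_sum]
      refine Finset.sum_congr rfl fun τ _ => ?_
      rw [cwf_perm, cwf_perm, smul_mul_smul_comm, smul_apply, gb4_topc_smul, topc_words]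
      push_cast
      ring
    · intro h hh
      rw [cwf_not_inj (mR ∘ h) (fun h1 => hh (Function.Injective.of_comp h1)), mul_zero,
        zero_apply]
      show _ * (0 : ℂ) = 0
      rw [mul_zero]
  · intro f hf
    refine Finset.sum_eq_zero fun h _ => ?_
    rw [cwf_not_inj (mL ∘ f) (fun h1 => hf (Function.Injective.of_comp h1)), zero_mul,
      zero_apply]
    show _ * (0 : ℂ) = 0
    rw [mul_zero]

end Pool.Agent.H46P
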