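import Pool.Agent.Lib.H46P.GBDefs

/-!
# H46P, chunk GB9: sectional curvature bounds the curvature operator

PROOF. Put `Q x y w = R(x, y, x, w)`: symmetric in `y, w` (`pair`, `skew`), `|Q x y y| ≤ e area2 x y ≤
e |x|^2 |y|^2`, so by polarization and scaling `|Q x y w| ≤ e |x|^2 |y| |w|` (for unit `y, w`:
`4 Q x y w = Q x (y+w) (y+w) - Q x (y-w) (y-w)` and the parallelogram law).
`S x z y w := R(x, y, z, w) + R(z, y, x, w)`, `2 S x z y w = Q (x+z) y w - Q (x-z) y w`, so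
`|S x z y w| ≤ e (|x|^2 + |z|^2) |y| |w|` and by scaling `≤ 2 e |x| |z| |y| |w|`.
Bianchi: `S x z y w - S y z x w = 3 R(x, y, z, w)`.
(`H69Hopf.ev_add1` ... `ev_smul4`, `ev_skew`, `ev_pair`, `ev_bianchi`, `ev_quad` in
`Lib/H69/Hopf/Sym.lean` and `Alt.lean`.)
-/

namespace Pool.Agent.H46P

open Finset
open scoped BigOperators
open Pool.Agent.H69Hopf (Arr IsAlgCurv area2)

/-- An inequality which is invariant under scaling. -/
lemma gb9_scal {B c a b : ℝ} (hc : 0 ≤ c) (ha : 0 ≤ a) (hb : 0 ≤ b)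
    (h : ∀ t : ℝ, 0 < t → B ≤ c * (t ^ 2 * a ^ 2 + (t⁻¹) ^ 2 * b ^ 2)) : B ≤ 2 * c * a * b := by
  by_contra hcon
  push Not at hcon
  set K := c * (a + b) with hK
  have hK0 : 0 ≤ K := by positivity
  set ε := (B - 2 * c * a * b) / (K + 1) with hε
  have hε0 : 0 < ε := by
    rw [hε]
    apply div_pos <;> linarith
  have hae : 0 < a + ε := by linarith
  have hbe : 0 < b + ε := by linarith
  have hs : 0 < (b + ε) / (a + ε) := div_pos hbe hae
  have h1 := h (Real.sqrt ((b + ε) / (a + ε))) (Real.sqrt_pos.mpr hs)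
  rw [inv_pow, Real.sq_sqrt hs.le, inv_div] at h1
  have h2 : (b + ε) / (a + ε) * a ^ 2 ≤ (b + ε) * a := by
    rw [div_mul_eq_mul_div, div_le_iff₀ hae]
    nlinarith [mul_nonneg hbe.le (mul_nonneg ha hε0.le)]
  have h3 : (a + ε) / (b + ε) * b ^ 2 ≤ (a + ε) * b := by
    rw [div_mul_eq_mul_div, div_le_iff₀ hbe]
    nlinarith [mul_nonneg hae.le (mul_nonneg hb hε0.le)]
  have h4 : B ≤ c * ((b + ε) * a + (a + ε) * b) :=
    h1.trans (mul_le_mul_of_nonneg_left (add_le_add h2 h3) hc)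
  have h5 : c * ((b + ε) * a + (a + ε) * b) = 2 * c * a * b + ε * K := by
    rw [hK]; ring
  have h6 : ε * (K + 1) = B - 2 * c * a * b := by
    rw [hε]
    field_simp
  nlinarith

/-- The squared norm. -/
noncomputable def gb9_n {N : ℕ} (x : Fin N → ℝ) : ℝ := ∑ i, x i ^ 2

lemma gb9_n_nonneg {N : ℕ} (x : Fin N → ℝ) : 0 ≤ gb9_n x :=
  Finset.sum_nonneg fun _ _ => sq_nonneg _

lemma gb9_n_smul {N : ℕ} (t : ℝ) (x : Fin N → ℝ) : gb9_n (t • x) = t ^ 2 * gb9_n x := by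
  unfold gb9_n
  rw [Finset.mul_sum]
  refine Finset.sum_congr rfl fun i _ => ?_
  rw [Pi.smul_apply, smul_eq_mul]
  ring

lemma gb9_n_par {N : ℕ} (x z : Fin N → ℝ) :
    gb9_n (x + z) + gb9_n (x + (-1 : ℝ) • z) = 2 * (gb9_n x + gb9_n z) := by
  unfold gb9_n
  rw [← Finset.sum_add_distrib, ← Finset.sum_add_distrib, Finset.mul_sum]
  refine Finset.sum_congr rfl fun i _ => ?_
  rw [Pi.add_apply, Pi.add_apply, Pi.smul_apply, smul_eq_mul]
  ring

lemma gb9_area {N : ℕ} (x y : Fin N → ℝ) : area2 x y ≤ gb9_n x * gb9_n y := by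
  unfold area2 gb9_n
  have := sq_nonneg (∑ i, x i * y i)
  linarith

lemma gb9_Q {N : ℕ} (R : Arr N) (hR : IsAlgCurv R) (e : ℝ) (he : 0 ≤ e)
    (hs : ∀ x y : Fin N → ℝ, |Pool.Agent.H69Hopf.ev R x y x y| ≤ e * area2 x y)
    (x y w : Fin N → ℝ) :
    |Pool.Agent.H69Hopf.ev R x y x w| ≤
      e * gb9_n x * (Real.sqrt (gb9_n y) * Real.sqrt (gb9_n w)) := by
  have hQ : ∀ u : Fin N → ℝ, |Pool.Agent.H69Hopf.ev R x u x u| ≤ e * (gb9_n x * gb9_n u) :=
    fun u => (hs x u).trans (mul_le_mul_of_nonneg_left (gb9_area x u) he)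
  have key : ∀ y w : Fin N → ℝ, |Pool.Agent.H69Hopf.ev R x y x w| ≤
      e * gb9_n x / 2 * (gb9_n y + gb9_n w) := by
    intro y w
    have hsym : Pool.Agent.H69Hopf.ev R x w x y = Pool.Agent.H69Hopf.ev R x y x w :=
      Pool.Agent.H69Hopf.ev_pair hR x w x y
    have h4 : 4 * Pool.Agent.H69Hopf.ev R x y x w =
        Pool.Agent.H69Hopf.ev R x (y + w) x (y + w) -
          Pool.Agent.H69Hopf.ev R x (y + (-1 : ℝ) • w) x (y + (-1 : ℝ) • w) := by
      simp only [Pool.Agent.H69Hopf.ev_add2, Pool.Agent.H69Hopf.ev_add4,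
        Pool.Agent.H69Hopf.ev_smul2, Pool.Agent.H69Hopf.ev_smul4, hsym]
      ring
    have ha := abs_le.mp (hQ (y + w))
    have hb := abs_le.mp (hQ (y + (-1 : ℝ) • w))
    have hp := gb9_n_par y w
    have hp2 : e * (gb9_n x * gb9_n (y + w)) + e * (gb9_n x * gb9_n (y + (-1 : ℝ) • w)) =
        e * gb9_n x * (2 * (gb9_n y + gb9_n w)) := by
      rw [← hp]; ring
    rw [abs_le]
    constructor <;> linarith [ha.1, ha.2, hb.1, hb.2]
  have hy := Real.sqrt_nonneg (gb9_n y)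
  have hw := Real.sqrt_nonneg (gb9_n w)
  have h := gb9_scal (B := |Pool.Agent.H69Hopf.ev R x y x w|) (c := e * gb9_n x / 2)
    (a := Real.sqrt (gb9_n y)) (b := Real.sqrt (gb9_n w))
    (by have := mul_nonneg he (gb9_n_nonneg x); linarith) hy hw (by
      intro t ht
      have h1 := key (t • y) (t⁻¹ • w)
      rw [Pool.Agent.H69Hopf.ev_smul2, Pool.Agent.H69Hopf.ev_smul4, ← mul_assoc,
        mul_inv_cancel₀ ht.ne', one_mul, gb9_n_smul, gb9_n_smul] at h1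
      rw [Real.sq_sqrt (gb9_n_nonneg y), Real.sq_sqrt (gb9_n_nonneg w)]
      exact h1)
  calc |Pool.Agent.H69Hopf.ev R x y x w| ≤ _ := h
    _ = _ := by ring

lemma gb9_S {N : ℕ} (R : Arr N) (hR : IsAlgCurv R) (e : ℝ) (he : 0 ≤ e)
    (hs : ∀ x y : Fin N → ℝ, |Pool.Agent.H69Hopf.ev R x y x y| ≤ e * area2 x y)
    (x y z w : Fin N → ℝ) :
    |Pool.Agent.H69Hopf.ev R x y z w + Pool.Agent.H69Hopf.ev R z y x w| ≤
      2 * (e * (Real.sqrt (gb9_n y) * Real.sqrt (gb9_n w))) * Real.sqrt (gb9_n x) *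
        Real.sqrt (gb9_n z) := by
  have hy := Real.sqrt_nonneg (gb9_n y)
  have hw := Real.sqrt_nonneg (gb9_n w)
  have key : ∀ x z : Fin N → ℝ,
      |Pool.Agent.H69Hopf.ev R x y z w + Pool.Agent.H69Hopf.ev R z y x w| ≤
      e * (Real.sqrt (gb9_n y) * Real.sqrt (gb9_n w)) * (gb9_n x + gb9_n z) := by
    intro x z
    have h2 : 2 * (Pool.Agent.H69Hopf.ev R x y z w + Pool.Agent.H69Hopf.ev R z y x w) =
        Pool.Agent.H69Hopf.ev R (x + z) y (x + z) w -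
          Pool.Agent.H69Hopf.ev R (x + (-1 : ℝ) • z) y (x + (-1 : ℝ) • z) w := by
      simp only [Pool.Agent.H69Hopf.ev_add1, Pool.Agent.H69Hopf.ev_add3,
        Pool.Agent.H69Hopf.ev_smul1, Pool.Agent.H69Hopf.ev_smul3]
      ring
    have ha := abs_le.mp (gb9_Q R hR e he hs (x + z) y w)
    have hb := abs_le.mp (gb9_Q R hR e he hs (x + (-1 : ℝ) • z) y w)
    have hp := gb9_n_par x z
    have hp2 : e * gb9_n (x + z) * (Real.sqrt (gb9_n y) * Real.sqrt (gb9_n w)) +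
        e * gb9_n (x + (-1 : ℝ) • z) * (Real.sqrt (gb9_n y) * Real.sqrt (gb9_n w)) =
        e * (Real.sqrt (gb9_n y) * Real.sqrt (gb9_n w)) * (2 * (gb9_n x + gb9_n z)) := by
      rw [← hp]; ring
    rw [abs_le]
    constructor <;> linarith [ha.1, ha.2, hb.1, hb.2]
  refine gb9_scal (by positivity) (Real.sqrt_nonneg _) (Real.sqrt_nonneg _) ?_
  intro t ht
  have h1 := key (t • x) (t⁻¹ • z)
  rw [Pool.Agent.H69Hopf.ev_smul1, Pool.Agent.H69Hopf.ev_smul3, Pool.Agent.H69Hopf.ev_smul1,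
    Pool.Agent.H69Hopf.ev_smul3, ← mul_assoc, ← mul_assoc, mul_inv_cancel₀ ht.ne',
    inv_mul_cancel₀ ht.ne', one_mul, one_mul, gb9_n_smul, gb9_n_smul] at h1
  rw [Real.sq_sqrt (gb9_n_nonneg x), Real.sq_sqrt (gb9_n_nonneg z)]
  exact h1

theorem sec_four {N : ℕ} (R : Arr N) (hR : IsAlgCurv R) (e : ℝ) (he : 0 ≤ e)
    (hs : ∀ x y : Fin N → ℝ, |Pool.Agent.H69Hopf.ev R x y x y| ≤ e * area2 x y)
    (x y z w : Fin N → ℝ) :
    |Pool.Agent.H69Hopf.ev R x y z w| ≤ 4 / 3 * e * (Real.sqrt (∑ i, x i ^ 2) *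
      Real.sqrt (∑ i, y i ^ 2) * Real.sqrt (∑ i, z i ^ 2) * Real.sqrt (∑ i, w i ^ 2)) := by
  have h1 := abs_le.mp (gb9_S R hR e he hs x y z w)
  have h2 := abs_le.mp (gb9_S R hR e he hs y x z w)
  have hb := Pool.Agent.H69Hopf.ev_bianchi hR x y z w
  have hsk1 := Pool.Agent.H69Hopf.ev_skew hR y x z w
  have hsk2 := Pool.Agent.H69Hopf.ev_skew hR z y x w
  have hgoal : 2 * (e * (Real.sqrt (gb9_n y) * Real.sqrt (gb9_n w))) * Real.sqrt (gb9_n x) *
        Real.sqrt (gb9_n z) + 2 * (e * (Real.sqrt (gb9_n x) * Real.sqrt (gb9_n w))) *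
        Real.sqrt (gb9_n y) * Real.sqrt (gb9_n z) = 3 * (4 / 3 * e * (Real.sqrt (∑ i, x i ^ 2) *
      Real.sqrt (∑ i, y i ^ 2) * Real.sqrt (∑ i, z i ^ 2) * Real.sqrt (∑ i, w i ^ 2))) := by
    unfold gb9_n
    ring
  rw [abs_le]
  constructor <;> linarith [h1.1, h1.2, h2.1, h2.2]

end Pool.Agent.H46P
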