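import Pool.Agent.Lib.H46P.FDefs
import Pool.Agent.Lib.H46P.GADefs
import Pool.Agent.Lib.H69.Hopf.Sym

/-!
# H46P, part H: curvature tensors as quartic creation operators

`N = 2 n` is the dimension.  Modes `0 .. N-1` (`mL`) and `N .. 2N-1` (`mR`).
`Vh R = ∑ R_ijkl a_i^* a_j^* a_{N+k}^* a_{N+l}^*`.
-/

namespace Pool.Agent.H46P

open Finset
open scoped BigOperators Nat
open Pool.Agent.H69Hopf (Arr IsAlgCurv area2 fst snd gaussBonnet idA)

/-- The quartic creation operator of a curvature tensor. -/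
noncomputable def Vh {N : ℕ} (R : Arr N) : Fk (N + N) →L[ℂ] Fk (N + N) :=
  ∑ i, ∑ j, ∑ k, ∑ l, (R i j k l : ℂ) •
    ((LA (N + N) (mL i, true) * LA (N + N) (mL j, true)) *
      (LA (N + N) (mR k, true) * LA (N + N) (mR l, true)))

/-- Its coefficient tensor. -/
noncomputable def rten {N : ℕ} (R : Arr N) : List (Fin (N + N)) → ℂ
  | [a, b, c, d] => ∑ i, ∑ j, ∑ k, ∑ l,
      if a = mL i ∧ b = mL j ∧ c = mR k ∧ d = mR l then (R i j k l : ℂ) else 0
  | _ => 0

/-- Products of creation operators. -/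
noncomputable def cwf {m d : ℕ} (f : Fin d → Fin m) : Fk m →L[ℂ] Fk m :=
  (List.ofFn fun r => LA m (f r, true)).prod

/-- Vectors of degree `d`. -/
def Hdeg {m : ℕ} (d : ℕ) (f : Fk m) : Prop := ∀ S : Finset (Fin m), S.card ≠ d → f S = 0

/-- Vectors with real coordinates. -/
def Hreal {m : ℕ} (f : Fk m) : Prop := ∀ S : Finset (Fin m), (f S).im = 0

/-- The coefficient of `top` in `ω^(2n-2k)/(2n-2k)! * Vh^k/k!`. -/
noncomputable def zz (n : ℕ) (R : Arr (2 * n)) (k : ℕ) : ℝ :=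
  (topc (2 * n + 2 * n) ((omg (2 * n) ^ (2 * (n - k)) * Vh R ^ k) (vac (2 * n + 2 * n)))).re /
    ((2 * (n - k)).factorial * k.factorial)

/-- The zero free region of the partition function (Theorem 4 of PROOF.md). -/
def ZFree (c0 : ℝ) : Prop :=
  ∀ (N : ℕ) (T : List (Fin (N + N)) → ℂ) (u : ℝ), 1 ≤ N → 0 ≤ u → Alt4 T → Inj 4 T u →
    u * N * (1 + Real.log N) ^ 3 ≤ c0 → Zf N T ≠ 0

end Pool.Agent.H46P
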