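import Pool.Agent.Lib.H46P.G0
import Pool.Agent.Lib.H69.Hopf.Sym

/-!
# Part H: the Gauss-Bonnet integrand, definitions
-/

namespace Pool.Agent.H46P

open Finset Pool.Agent.H69Hopf
open scoped BigOperators ComplexConjugate InnerProductSpace

/-- complexification -/
def RC {N : ℕ} (P : Arr N) : R4 N := fun i j k l => (P i j k l : ℂ)

/-- coefficient of the top vector in `ω^(2n-2k)/(2n-2k)! V^k/k!` -/
noncomputable def zc (n : ℕ) (R : R4 (2 * n)) (k : ℕ) : ℂ :=
  ((om (2 * n) ^ (2 * n - 2 * k) * Vh R ^ k) vac) (univ : Finset (Fin (2 * n + 2 * n))) /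
    (((2 * n - 2 * k).factorial : ℂ) * (k.factorial : ℂ))

end Pool.Agent.H46P
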