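import Pool.Agent.Lib.H46P.H0
import Pool.Agent.Lib.H46P.E1

/-!
# Chunk H2: `Vh^n vac` is the Gauss-Bonnet integrand (checked numerically)

`Vh R = ∑ R_ijkl (a_i a_j)(b_k b_l)`, the products of two letters commute with each other.
`(Vh R)^n = ∑ over index functions f, h : Fin (2n) → Fin (2n)` (`f (fst m), f (snd m), h (fst m), h (snd m)`)
`∏ m, R (f (fst m)) (f (snd m)) (h (fst m)) (h (snd m)) • (∏ a_{f 0} a_{f 1} ...) (∏ b_{h 0} b_{h 1} ...)`.
`v ↦ (∏ over i of the creation operator of v i)` is alternating in the index function: zero if `f` is not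
injective, `sign f` times the ordered product if `f` is a permutation; the ordered product
`a_0 a_1 ... a_{N-1} b_0 ... b_{N-1} vac` has coefficient `1` at `univ`.
`word_top`: this last statement for all index functions.
-/

namespace Pool.Agent.H46P

open Finset Pool.Agent.H69Hopf Equiv
open scoped BigOperators ComplexConjugate InnerProductSpace

/-- ordered product of creation operators of the modes `f 0, f 1, ...` -/
noncomputable def cpr {m r : ℕ} (f : Fin r → Fin m) : Fk m →L[ℂ] Fk m :=
  (List.ofFn fun i => fA (f i, true)).prod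

theorem h2_anti {m : ℕ} (i j : Fin m) :
    fA (i, true) * fA (j, true) + fA (j, true) * fA (i, true) = (0 : Fk m →L[ℂ] Fk m) := by
  rw [(fock_car m).car]
  rw [if_neg]
  simp [sg]

theorem h2_cre_apply {m : ℕ} (i : Fin m) (f : Fk m) (S : Finset (Fin m)) :
    (fA (i, true) f) S = if i ∈ S then sgnS i (S.erase i) * f (S.erase i) else 0 := by
  have h : (fA (i, true) f) S = ∑ T, cm i S T * f T := rfl
  rw [h]
  by_cases hi : i ∈ S
  · rw [if_pos hi, Finset.sum_eq_single (S.erase i)]
    · congr 1
      exact if_pos ⟨Finset.notMem_erase i S, (Finset.insert_erase hi).symm⟩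
    · intro T _ hT
      have : cm i S T = 0 := by
        apply if_neg
        rintro ⟨h1, h2⟩
        exact hT (by rw [h2, Finset.erase_insert h1])
      rw [this, zero_mul]
    · intro h; exact absurd (Finset.mem_univ _) h
  · rw [if_neg hi]
    refine Finset.sum_eq_zero fun T _ => ?_
    have : cm i S T = 0 := by
      apply if_neg
      rintro ⟨h1, h2⟩
      exact hi (by rw [h2]; exact Finset.mem_insert_self _ _)
    rw [this, zero_mul]

theorem cpr_zero {m : ℕ} (f : Fin 0 → Fin m) : cpr f = 1 := by
  simp [cpr]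

theorem cpr_cons {m d : ℕ} (i : Fin m) (f : Fin d → Fin m) :
    cpr (Fin.cons i f : Fin (d + 1) → Fin m) = fA (i, true) * cpr f := by
  simp [cpr, List.ofFn_succ]

theorem h2_ring {R : Type*} [Ring R] {a b c : R} (h1 : b * c + c * b = 0)
    (h2 : a * c + c * a = 0) : a * b * c = c * (a * b) := by
  have h3 := eq_neg_of_add_eq_zero_left h1
  have h4 := eq_neg_of_add_eq_zero_left h2
  rw [mul_assoc, h3, mul_neg, ← mul_assoc, h4, neg_mul, neg_neg, mul_assoc]

theorem h2_smul {R : Type*} [Ring R] [Algebra ℂ R] (c : ℂ) {a b : R} (h : a + b = 0) :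
    c • a + c • b = 0 := by
  rw [← smul_add, h, smul_zero]

/-- `x ↦ ∑ x_i a_i^*` -/
noncomputable def h2_L (m : ℕ) : (Fin m → ℂ) →ₗ[ℂ] (Fk m →L[ℂ] Fk m) :=
  ∑ i, (LinearMap.proj i : (Fin m → ℂ) →ₗ[ℂ] ℂ).smulRight (fA (i, true))

theorem h2_L_apply {m : ℕ} (x : Fin m → ℂ) : h2_L m x = ∑ i, x i • fA (i, true) := by
  simp [h2_L]

theorem h2_sq {m : ℕ} (x : Fin m → ℂ) : h2_L m x * h2_L m x = 0 := by
  rw [h2_L_apply, Finset.sum_mul_sum]
  have h1 : ∑ i, ∑ j, (x i • fA (i, true)) * (x j • fA (j, true)) =
      ∑ i, ∑ j, (x j • fA (j, true)) * (x i • fA (i, true)) := Finset.sum_comm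
  have h2 : ∑ i, ∑ j, (x i • fA (i, true)) * (x j • fA (j, true)) +
      ∑ i, ∑ j, (x j • fA (j, true)) * (x i • fA (i, true)) = 0 := by
    rw [← Finset.sum_add_distrib]
    refine Finset.sum_eq_zero fun i _ => ?_
    rw [← Finset.sum_add_distrib]
    refine Finset.sum_eq_zero fun j _ => ?_
    rw [smul_mul_smul_comm, smul_mul_smul_comm, mul_comm (x j) (x i)]
    exact h2_smul _ (h2_anti i j)
  rw [← h1, ← two_smul ℂ] at h2
  exact (smul_eq_zero.1 h2).resolve_left two_ne_zero

theorem h2_cpr {m d : ℕ} (f : Fin d → Fin m) : cpr f =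
    ExteriorAlgebra.lift ℂ ⟨h2_L m, h2_sq⟩
      (ExteriorAlgebra.ιMulti ℂ d (fun r => (Pi.single (f r) 1 : Fin m → ℂ))) := by
  rw [ExteriorAlgebra.ιMulti_apply, map_list_prod, List.map_ofFn, cpr]
  congr 1
  congr 1
  funext r
  rw [Function.comp_apply, ExteriorAlgebra.lift_ι_apply, h2_L_apply,
    Finset.sum_eq_single (f r)]
  · simp
  · intro i _ hi
    rw [Pi.single_eq_of_ne hi]
    exact zero_smul ℂ (fA (i, true))
  · simp

theorem cpr_perm {m d : ℕ} (f : Fin d → Fin m) (s : Perm (Fin d)) :
    cpr (f ∘ s) = ((Perm.sign s : ℤ) : ℂ) • cpr f := by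
  rw [h2_cpr, h2_cpr]
  have h1 : (fun r => (Pi.single ((f ∘ s) r) 1 : Fin m → ℂ)) =
      (fun r => (Pi.single (f r) 1 : Fin m → ℂ)) ∘ s := rfl
  rw [h1, AlternatingMap.map_perm, Units.smul_def, map_zsmul]
  exact (Int.cast_smul_eq_zsmul ℂ _ _).symm

theorem cpr_not_inj {m d : ℕ} (f : Fin d → Fin m) (hf : ¬ Function.Injective f) : cpr f = 0 := by
  rw [h2_cpr, AlternatingMap.map_eq_zero_of_not_injective, map_zero]
  intro h
  refine hf fun r r' hr => h ?_
  simp only [hr]

theorem h2_pair_comm {m : ℕ} (i j k : Fin m) :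
    (fA (i, true) * fA (j, true)) * fA (k, true) =
      fA (k, true) * (fA (i, true) * fA (j, true)) :=
  h2_ring (h2_anti j k) (h2_anti i k)

theorem cpr_pair {m d : ℕ} (i j : Fin m) (f : Fin d → Fin m) :
    (fA (i, true) * fA (j, true)) * cpr f = cpr f * (fA (i, true) * fA (j, true)) := by
  induction d with
  | zero => rw [cpr_zero, mul_one, one_mul]
  | succ d ih =>
    rw [← Fin.cons_self_tail f, cpr_cons, ← mul_assoc, h2_pair_comm, mul_assoc, ih, ← mul_assoc]

theorem h2_list {m : ℕ} (l : List (Fin m)) (hl : l.Pairwise (· < ·)) :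
    (l.map fun i => fA (i, true)).prod (vac (m := m)) = EuclideanSpace.single l.toFinset 1 := by
  induction l with
  | nil => simp [vac]
  | cons i l ih =>
    rw [List.pairwise_cons] at hl
    rw [List.map_cons, List.prod_cons]
    show fA (i, true) ((l.map fun i => fA (i, true)).prod (vac (m := m))) = _
    rw [ih hl.2]
    have hi : i ∉ l.toFinset := fun h => lt_irrefl i (hl.1 i (List.mem_toFinset.1 h))
    ext S
    rw [h2_cre_apply, List.toFinset_cons]
    simp only [PiLp.single_apply]
    by_cases hS : i ∈ S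
    · rw [if_pos hS]
      by_cases hS2 : S = insert i l.toFinset
      · have h2 : S.erase i = l.toFinset := by rw [hS2, Finset.erase_insert hi]
        rw [if_pos h2, if_pos hS2, mul_one, h2, sgnS]
        have h3 : l.toFinset.filter (· < i) = ∅ := by
          rw [Finset.filter_eq_empty_iff]
          intro j hj
          exact not_lt.2 (hl.1 j (List.mem_toFinset.1 hj)).le
        rw [h3]
        simp
      · have h2 : S.erase i ≠ l.toFinset := fun h => hS2 (by rw [← h, Finset.insert_erase hS])
        rw [if_neg h2, if_neg hS2, mul_zero]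
    · have h2 : S ≠ insert i l.toFinset := fun h => hS (by rw [h]; exact Finset.mem_insert_self _ _)
      rw [if_neg hS, if_neg h2]

theorem h2_top (N : ℕ) :
    ((cpr (lo : Fin N → Fin (N + N)) * cpr (hi : Fin N → Fin (N + N))) vac)
      (univ : Finset (Fin (N + N))) = 1 := by
  have h1 : cpr (lo : Fin N → Fin (N + N)) * cpr (hi : Fin N → Fin (N + N)) =
      ((List.finRange (N + N)).map fun i => fA (i, true)).prod := by
    have h2 : List.finRange (N + N) = List.ofFn (lo : Fin N → Fin (N + N)) ++ List.ofFn hi := by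
      rw [← List.ofFn_fin_append, ← List.ofFn_id]
      congr 1
      funext i
      refine Fin.addCases (fun j => ?_) (fun j => ?_) i
      · rw [Fin.append_left]
        rfl
      · rw [Fin.append_right]
        rfl
    rw [h2, List.map_append, List.prod_append, List.map_ofFn, List.map_ofFn]
    rfl
  rw [h1, h2_list _ (List.pairwise_lt_finRange _), List.toFinset_finRange]
  show (EuclideanSpace.single (Finset.univ : Finset (Fin (N + N))) (1 : ℂ)) Finset.univ = 1
  simp

theorem word_top {N : ℕ} (f h : Fin N → Fin N) :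
    ((cpr (fun i => lo (f i)) * cpr (fun i => hi (h i))) vac) (univ : Finset (Fin (N + N))) =
      if hf : Function.Bijective f then
        if hh : Function.Bijective h then
          ((Perm.sign (Equiv.ofBijective f hf) : ℤ) : ℂ) * ((Perm.sign (Equiv.ofBijective h hh) : ℤ) : ℂ)
        else 0
      else 0 := by
  by_cases hf : Function.Bijective f
  · rw [dif_pos hf]
    by_cases hh : Function.Bijective h
    · rw [dif_pos hh]
      have e1 : (fun i => lo (f i)) = (lo : Fin N → Fin (N + N)) ∘ (Equiv.ofBijective f hf) := rfl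
      have e2 : (fun i => hi (h i)) = (hi : Fin N → Fin (N + N)) ∘ (Equiv.ofBijective h hh) := rfl
      rw [e1, e2, cpr_perm, cpr_perm, smul_mul_smul_comm]
      have e3 : ((((((Perm.sign (Equiv.ofBijective f hf) : ℤ) : ℂ) *
          ((Perm.sign (Equiv.ofBijective h hh) : ℤ) : ℂ))) •
          (cpr (lo : Fin N → Fin (N + N)) * cpr (hi : Fin N → Fin (N + N)))) vac)
          (univ : Finset (Fin (N + N))) = (((Perm.sign (Equiv.ofBijective f hf) : ℤ) : ℂ) *
          ((Perm.sign (Equiv.ofBijective h hh) : ℤ) : ℂ)) *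
          ((cpr (lo : Fin N → Fin (N + N)) * cpr (hi : Fin N → Fin (N + N))) vac)
          (univ : Finset (Fin (N + N))) := rfl
      rw [e3, h2_top, mul_one]
    · rw [dif_neg hh, cpr_not_inj (fun i => hi (h i)), mul_zero]
      · rfl
      · intro hi'
        apply hh
        apply Finite.injective_iff_bijective.1
        exact Function.Injective.of_comp hi'
  · rw [dif_neg hf, cpr_not_inj (fun i => lo (f i)), zero_mul]
    · rfl
    · intro hi'
      apply hf
      apply Finite.injective_iff_bijective.1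
      exact Function.Injective.of_comp hi'

end Pool.Agent.H46P
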