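import Pool.Agent.Lib.H46P.H0
import Pool.Agent.Lib.H46P.G1
import Pool.Agent.Lib.H46P.H2

/-!
# Chunk H1: the exponential functional as a polynomial

`om` and `Vh R` commute (products of an even number of creation letters). `exp (om + s V) = ∑ (om + sV)^j/j!`;
`(om + sV)^j/j! = ∑_{a+k=j} om^a/a! (sV)^k/k!` (`Commute.add_pow`); the coefficient at `univ` of
`om^a V^k vac` vanishes unless `2a + 4k = 4n` (`cre_pk`: the vector is in level `2a + 4k`;
`pk`), i.e. `a = 2n - 2k`, `k ≤ n`. The exponential series is a finite sum on `vac` (or: the sum over `j`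
has only finitely many nonzero terms at `univ`).
-/

namespace Pool.Agent.H46P

open Finset Pool.Agent.H69Hopf
open scoped BigOperators ComplexConjugate InnerProductSpace

theorem h1_pair {N : ℕ} (R : R4 N) (i j : Fin (N + N)) :
    Commute (fA (i, true) * fA (j, true)) (Vh R) := by
  unfold Vh
  refine Commute.sum_right _ _ _ fun a _ => Commute.sum_right _ _ _ fun b _ =>
    Commute.sum_right _ _ _ fun c _ => Commute.sum_right _ _ _ fun d _ => Commute.smul_right ?_ _
  exact (((show Commute _ _ from h2_pair_comm i j _).mul_right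
    (show Commute _ _ from h2_pair_comm i j _)).mul_right
    (show Commute _ _ from h2_pair_comm i j _)).mul_right
    (show Commute _ _ from h2_pair_comm i j _)

theorem om_Vh_comm {N : ℕ} (R : R4 N) : Commute (om N) (Vh R) := by
  unfold om
  exact Commute.sum_left _ _ _ fun i _ => h1_pair R _ _


/-- vectors of degree `d` -/
def h1_deg {m : ℕ} (d : ℕ) (f : Fk m) : Prop := ∀ S : Finset (Fin m), S.card ≠ d → f S = 0

theorem h1_deg_cre {m d : ℕ} (i : Fin m) (f : Fk m) (hf : h1_deg d f) :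
    h1_deg (d + 1) (fA (i, true) f) := by
  intro S hS
  rw [h2_cre_apply]
  split_ifs with hi
  · rw [hf, mul_zero]
    rw [Finset.card_erase_of_mem hi]
    have := Finset.card_pos.2 ⟨i, hi⟩
    omega
  · rfl

theorem h1_deg_sum {m d : ℕ} {ι : Type*} (s : Finset ι) (f : ι → Fk m)
    (hf : ∀ i ∈ s, h1_deg d (f i)) : h1_deg d (∑ i ∈ s, f i) := by
  intro S hS
  rw [WithLp.ofLp_sum, Finset.sum_apply]
  exact Finset.sum_eq_zero fun i hi => hf i hi S hS

theorem h1_deg_smul {m d : ℕ} (c : ℂ) (f : Fk m) (hf : h1_deg d f) : h1_deg d (c • f) := by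
  intro S hS
  show c * f S = 0
  rw [hf S hS, mul_zero]

theorem h1_deg_om {N d : ℕ} (f : Fk (N + N)) (hf : h1_deg d f) : h1_deg (d + 2) (om N f) := by
  unfold om
  rw [_root_.sum_apply]
  refine h1_deg_sum _ _ fun i _ => ?_
  have e : (fA (lo i, true) * fA (hi i, true)) f = fA (lo i, true) (fA (hi i, true) f) := rfl
  rw [e]
  exact h1_deg_cre _ _ (h1_deg_cre _ _ hf)

theorem h1_deg_Vh {N d : ℕ} (R : R4 N) (f : Fk (N + N)) (hf : h1_deg d f) :
    h1_deg (d + 4) (Vh R f) := by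
  unfold Vh
  rw [_root_.sum_apply]
  refine h1_deg_sum _ _ fun i _ => ?_
  rw [_root_.sum_apply]
  refine h1_deg_sum _ _ fun j _ => ?_
  rw [_root_.sum_apply]
  refine h1_deg_sum _ _ fun k _ => ?_
  rw [_root_.sum_apply]
  refine h1_deg_sum _ _ fun l _ => ?_
  have e : (R i j k l • (fA (lo i, true) * fA (lo j, true) * fA (hi k, true) *
      fA (hi l, true))) f = R i j k l • (fA (lo i, true) (fA (lo j, true) (fA (hi k, true)
      (fA (hi l, true) f)))) := rfl
  rw [e]
  have h1 := h1_deg_cre (hi l) f hf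
  have h2 := h1_deg_cre (hi k) _ h1
  have h3 := h1_deg_cre (lo j) _ h2
  have h4 := h1_deg_cre (lo i) _ h3
  exact h1_deg_smul _ _ h4

theorem h1_deg_vac {m : ℕ} : h1_deg 0 (vac (m := m)) := by
  intro S hS
  unfold vac
  rw [PiLp.single_apply, if_neg]
  intro h
  exact hS (by rw [h]; rfl)

theorem h1_deg_pow {N : ℕ} (R : R4 N) (a k : ℕ) :
    h1_deg (2 * a + 4 * k) ((om N ^ a * Vh R ^ k) vac) := by
  induction a with
  | zero =>
    rw [pow_zero, one_mul]
    induction k with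
    | zero => exact h1_deg_vac
    | succ k ih =>
      have e : (Vh R ^ (k + 1)) vac = Vh R ((Vh R ^ k) vac) := by
        rw [pow_succ']
        rfl
      have e2 : 2 * 0 + 4 * (k + 1) = 2 * 0 + 4 * k + 4 := by ring
      rw [e, e2]
      exact h1_deg_Vh R _ ih
  | succ a ih =>
    have e : (om N ^ (a + 1) * Vh R ^ k) vac = om N ((om N ^ a * Vh R ^ k) vac) := by
      rw [pow_succ', mul_assoc]
      rfl
    have e2 : 2 * (a + 1) + 4 * k = 2 * a + 4 * k + 2 := by ring
    rw [e, e2]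
    exact h1_deg_om _ ih

theorem h1_top_zero {N : ℕ} (R : R4 N) (a k : ℕ) (h : a + 2 * k ≠ N) :
    ((om N ^ a * Vh R ^ k) vac) (univ : Finset (Fin (N + N))) = 0 := by
  apply h1_deg_pow
  rw [Finset.card_univ, Fintype.card_fin]
  omega

/-- coefficient of the top vector -/
noncomputable def h1_phi (N : ℕ) : (Fk (N + N) →L[ℂ] Fk (N + N)) →L[ℂ] ℂ :=
  (EuclideanSpace.proj (𝕜 := ℂ) (Finset.univ : Finset (Fin (N + N)))).comp
    (ContinuousLinearMap.apply ℂ (Fk (N + N)) (vac : Fk (N + N)))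

theorem h1_phi_apply (N : ℕ) (B : Fk (N + N) →L[ℂ] Fk (N + N)) :
    h1_phi N B = (B vac) (univ : Finset (Fin (N + N))) := rfl

theorem h1_Vh_smul {N : ℕ} (R : R4 N) (s : ℂ) :
    Vh (fun i j k l => s * R i j k l) = s • Vh R := by
  unfold Vh
  simp only [Finset.smul_sum, mul_smul]

/-- general term -/
noncomputable def h1_F (n : ℕ) (R : R4 (2 * n)) (s : ℂ) (p : ℕ × ℕ) : ℂ :=
  s ^ p.2 * h1_phi (2 * n) (om (2 * n) ^ p.1 * Vh R ^ p.2) / ((p.1.factorial : ℂ) * p.2.factorial)

theorem h1_F_zero (n : ℕ) (R : R4 (2 * n)) (s : ℂ) (p : ℕ × ℕ) (h : p.1 + 2 * p.2 ≠ 2 * n) :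
    h1_F n R s p = 0 := by
  unfold h1_F
  rw [h1_phi_apply, h1_top_zero R _ _ h, mul_zero, zero_div]

theorem h1_pow (n : ℕ) (R : R4 (2 * n)) (s : ℂ) (j : ℕ) :
    h1_phi (2 * n) (((j.factorial : ℂ)⁻¹) • (om (2 * n) + s • Vh R) ^ j) =
      ∑ p ∈ antidiagonal j, h1_F n R s p := by
  rw [((om_Vh_comm R).smul_right s).add_pow', map_smul, map_sum, smul_eq_mul, Finset.mul_sum]
  refine Finset.sum_congr rfl fun p hp => ?_
  rw [Finset.HasAntidiagonal.mem_antidiagonal] at hp
  rw [map_nsmul, smul_pow, mul_smul_comm (s ^ p.2) (om (2 * n) ^ p.1) (Vh R ^ p.2), map_smul,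
    smul_eq_mul, nsmul_eq_mul]
  unfold h1_F
  have h := Nat.choose_mul_factorial_mul_factorial (show p.1 ≤ j by omega)
  rw [show j - p.1 = p.2 by omega] at h
  have h' : ((j.choose p.1 : ℕ) : ℂ) * (p.1.factorial : ℂ) * (p.2.factorial : ℂ) = j.factorial := by
    exact_mod_cast h
  have g1 : (p.1.factorial : ℂ) ≠ 0 := by exact_mod_cast Nat.factorial_ne_zero _
  have g2 : (p.2.factorial : ℂ) ≠ 0 := by exact_mod_cast Nat.factorial_ne_zero _
  have g3 : (j.factorial : ℂ) ≠ 0 := by exact_mod_cast Nat.factorial_ne_zero _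
  rw [inv_mul_eq_div, div_eq_div_iff g3 (mul_ne_zero g1 g2), ← h']
  ring

theorem h1_sum (n : ℕ) (R : R4 (2 * n)) (s : ℂ) :
    ∑ j ∈ range (2 * n + 1), ∑ p ∈ antidiagonal j, h1_F n R s p =
      ∑ k ∈ range (n + 1), h1_F n R s (2 * n - 2 * k, k) := by
  rw [Finset.sum_sigma']
  symm
  refine Finset.sum_of_injOn (fun k => (⟨2 * n - k, (2 * n - 2 * k, k)⟩ : Σ _ : ℕ, ℕ × ℕ)) ?_ ?_ ?_ ?_
  · intro a _ b _ hab
    simp only [Sigma.mk.injEq, heq_eq_eq, Prod.mk.injEq] at hab
    exact hab.2.2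
  · intro k hk
    simp only [Finset.coe_range, Set.mem_Iio, Finset.coe_sigma, Set.mem_sigma_iff,
      Finset.mem_coe, Finset.HasAntidiagonal.mem_antidiagonal] at hk ⊢
    omega
  · rintro ⟨j, ⟨a, b⟩⟩ hj hne
    apply h1_F_zero
    intro h
    apply hne
    simp only [Finset.mem_sigma, Finset.mem_range, Finset.HasAntidiagonal.mem_antidiagonal] at hj
    change a + 2 * b = 2 * n at h
    refine ⟨b, ?_, ?_⟩
    · simp only [Finset.coe_range, Set.mem_Iio]
      omega
    · simp only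
      have e1 : 2 * n - b = j := by omega
      have e2 : 2 * n - 2 * b = a := by omega
      rw [e1, e2]
  · intro k _
    rfl

theorem ell_poly (n : ℕ) (R : R4 (2 * n)) (s : ℂ) :
    ell (fun i j k l => s * R i j k l) vac = ∑ k ∈ range (n + 1), s ^ k * zc n R k := by
  have hcast : ell (fun i j k l => s * R i j k l) vac =
      h1_phi (2 * n) (NormedSpace.exp (om (2 * n) + s • Vh R)) := by
    unfold ell
    rw [h1_Vh_smul, h1_phi_apply]
  rw [hcast]
  have h1 := (NormedSpace.exp_series_hasSum_exp' (𝕂 := ℂ) (om (2 * n) + s • Vh R)).mapL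
    (h1_phi (2 * n))
  have h2 : ∀ j ∉ range (2 * n + 1),
      h1_phi (2 * n) (((j.factorial : ℂ)⁻¹) • (om (2 * n) + s • Vh R) ^ j) = 0 := by
    intro j hj
    rw [Finset.mem_range, not_lt] at hj
    rw [h1_pow]
    refine Finset.sum_eq_zero fun p hp => ?_
    rw [Finset.HasAntidiagonal.mem_antidiagonal] at hp
    apply h1_F_zero
    omega
  have h3 := h1.unique (hasSum_sum_of_ne_finset_zero h2)
  rw [h3, Finset.sum_congr rfl fun j _ => h1_pow n R s j, h1_sum]
  refine Finset.sum_congr rfl fun k _ => ?_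
  unfold h1_F zc
  rw [h1_phi_apply, mul_div_assoc]

end Pool.Agent.H46P

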