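import Pool.Agent.Lib.H46P.H2
import Pool.Agent.Lib.H46P.H1

/-!
# Chunk H3: `Vh^n vac` is the Gauss-Bonnet integrand, continued

`vh_pow`: see H2.  `(Vh R)^n = ∑ f h, (∏ m, R ...) • (cpr (lo ∘ f) * cpr (hi ∘ h))`, induction on the
number of factors (`Fin.consEquiv`/`Finset.prod_univ_sum`); sum over index functions reduces to
permutations by `word_top`.
`vh_idA`: `idA i j k l = [i=k][j=l] - [i=l][j=k]`, `a_i a_j b_i b_j = - (a_i b_i)(a_j b_j)`.
-/

namespace Pool.Agent.H46P

open Finset Pool.Agent.H69Hopf Equiv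
open scoped BigOperators ComplexConjugate InnerProductSpace

lemma h3_sum1 {α M : Type*} [Fintype α] [DecidableEq α] [AddCommMonoid M] {d : ℕ}
    (F : (Fin (d + 1) → α) → M) :
    ∑ f, F f = ∑ i, ∑ f' : Fin d → α, F (Fin.cons i f') := by
  rw [← (Fin.consEquiv (fun _ : Fin (d + 1) => α)).sum_comp, Fintype.sum_prod_type]
  rfl

lemma h3_sum2 {N k : ℕ} {M : Type*} [AddCommMonoid M]
    (F : (Fin (2 * (k + 1)) → Fin N) → M) :
    ∑ f, F f = ∑ i, ∑ j, ∑ f' : Fin (2 * k) → Fin N,
      F (Fin.cons i (Fin.cons j f' : Fin (2 * k + 1) → Fin N) : Fin (2 * k + 1 + 1) → Fin N) := by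
  have h := h3_sum1 (α := Fin N) (M := M) (d := 2 * k + 1) F
  refine h.trans ?_
  refine Finset.sum_congr rfl fun i _ => ?_
  exact h3_sum1 (α := Fin N) (M := M) (d := 2 * k)
    (fun g => F (Fin.cons i g : Fin (2 * k + 1 + 1) → Fin N))

lemma h3_cpr {N m k : ℕ} (e : Fin N → Fin m) (i j : Fin N) (f : Fin (2 * k) → Fin N) :
    cpr (r := 2 * (k + 1)) (e ∘ (Fin.cons i (Fin.cons j f : Fin (2 * k + 1) → Fin N) :
      Fin (2 * k + 1 + 1) → Fin N)) =
      (fA (e i, true) * fA (e j, true)) * cpr (e ∘ f) := by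
  have h1 : (e ∘ (Fin.cons i (Fin.cons j f : Fin (2 * k + 1) → Fin N) :
      Fin (2 * k + 1 + 1) → Fin N)) =
      (Fin.cons (e i) (Fin.cons (e j) (e ∘ f) : Fin (2 * k + 1) → Fin m) :
        Fin (2 * k + 1 + 1) → Fin m) := by
    rw [Fin.comp_cons, Fin.comp_cons]
  have h2 := cpr_cons (d := 2 * k + 1) (e i) (Fin.cons (e j) (e ∘ f) : Fin (2 * k + 1) → Fin m)
  have h3 := cpr_cons (d := 2 * k) (e j) (e ∘ f)
  rw [h3, ← mul_assoc] at h2
  rw [h1]
  exact h2

theorem h3_sum {d : ℕ} {M : Type*} [AddCommMonoid M] (G : (Fin d → Fin d) → M)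
    (hG : ∀ f, ¬ Function.Injective f → G f = 0) :
    ∑ f : Fin d → Fin d, G f = ∑ σ : Equiv.Perm (Fin d), G σ := by
  symm
  refine Fintype.sum_of_injective (fun σ : Equiv.Perm (Fin d) => (σ : Fin d → Fin d)) DFunLike.coe_injective
    (fun σ => G σ) G ?_ (fun _ => rfl)
  intro f hf
  refine hG f fun hi => hf ?_
  exact ⟨Equiv.ofBijective f (Finite.injective_iff_bijective.1 hi), rfl⟩

theorem h3_vh_pow {N : ℕ} (R : R4 N) (k : ℕ) :
    Vh R ^ k = ∑ f : Fin (2 * k) → Fin N, ∑ h : Fin (2 * k) → Fin N,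
      (∏ i : Fin k, (R (f (fst i)) (f (snd i)) (h (fst i)) (h (snd i)))) •
        (cpr (lo ∘ f) * cpr (hi ∘ h)) := by
  induction k with
  | zero =>
    rw [pow_zero]
    have : Unique (Fin (2 * 0) → Fin N) := inferInstanceAs (Unique (Fin 0 → Fin N))
    rw [Fintype.sum_unique, Fintype.sum_unique]
    have h1 : ∀ f : Fin (2 * 0) → Fin (N + N), cpr f = 1 := fun f => cpr_zero f
    rw [h1, h1]
    simp
  | succ k ih =>
    rw [pow_succ', ih, h3_sum2]
    unfold Vh
    simp only [Finset.sum_mul]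
    refine Finset.sum_congr rfl fun i _ => ?_
    refine Finset.sum_congr rfl fun j _ => ?_
    have hr : ∀ f' : Fin (2 * k) → Fin N, _ = _ := fun f' =>
      h3_sum2 (N := N) (k := k) (fun h : Fin (2 * (k + 1)) → Fin N =>
        (∏ r : Fin (k + 1), (R ((Fin.cons i (Fin.cons j f' : Fin (2 * k + 1) → Fin N) :
          Fin (2 * k + 1 + 1) → Fin N) (fst r)) ((Fin.cons i (Fin.cons j f' :
          Fin (2 * k + 1) → Fin N) : Fin (2 * k + 1 + 1) → Fin N) (snd r))
          (h (fst r)) (h (snd r)) : ℂ)) •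
        (cpr (r := 2 * (k + 1)) (lo ∘ (Fin.cons i (Fin.cons j f' : Fin (2 * k + 1) → Fin N) :
          Fin (2 * k + 1 + 1) → Fin N)) * cpr (hi ∘ h)))
    refine Eq.trans ?_ (Finset.sum_congr rfl fun f' _ => (hr f').symm)
    conv_rhs => rw [Finset.sum_comm]
    refine Finset.sum_congr rfl fun a _ => ?_
    conv_rhs => rw [Finset.sum_comm]
    refine Finset.sum_congr rfl fun b _ => ?_
    simp only [Finset.mul_sum]
    refine Finset.sum_congr rfl fun f' _ => ?_
    refine Finset.sum_congr rfl fun h' _ => ?_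
    rw [h3_cpr, h3_cpr, Fin.prod_univ_succ]
    have e0 : (R ((Fin.cons i (Fin.cons j f' : Fin (2 * k + 1) → Fin N) :
          Fin (2 * k + 1 + 1) → Fin N) (fst (0 : Fin (k + 1)))) ((Fin.cons i (Fin.cons j f' :
          Fin (2 * k + 1) → Fin N) : Fin (2 * k + 1 + 1) → Fin N) (snd (0 : Fin (k + 1))))
          ((Fin.cons a (Fin.cons b h' : Fin (2 * k + 1) → Fin N) :
          Fin (2 * k + 1 + 1) → Fin N) (fst (0 : Fin (k + 1)))) ((Fin.cons a (Fin.cons b h' :
          Fin (2 * k + 1) → Fin N) : Fin (2 * k + 1 + 1) → Fin N) (snd (0 : Fin (k + 1)))) : ℂ) =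
          R i j a b := rfl
    have e1 : ∀ r : Fin k, (R ((Fin.cons i (Fin.cons j f' : Fin (2 * k + 1) → Fin N) :
          Fin (2 * k + 1 + 1) → Fin N) (fst r.succ)) ((Fin.cons i (Fin.cons j f' :
          Fin (2 * k + 1) → Fin N) : Fin (2 * k + 1 + 1) → Fin N) (snd r.succ))
          ((Fin.cons a (Fin.cons b h' : Fin (2 * k + 1) → Fin N) :
          Fin (2 * k + 1 + 1) → Fin N) (fst r.succ)) ((Fin.cons a (Fin.cons b h' :
          Fin (2 * k + 1) → Fin N) : Fin (2 * k + 1 + 1) → Fin N) (snd r.succ)) : ℂ) =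
          R (f' (fst r)) (f' (snd r)) (h' (fst r)) (h' (snd r)) := fun r => rfl
    rw [e0]
    simp only [e1]
    rw [smul_mul_smul_comm]
    congr 1
    have hc := cpr_pair (hi a) (hi b) (lo ∘ f')
    calc (fA (lo i, true) * fA (lo j, true) *
          fA (hi a, true) * fA (hi b, true)) * (cpr (lo ∘ f') * cpr (hi ∘ h'))
        = (fA (lo i, true) * fA (lo j, true)) *
          (((fA (hi a, true) * fA (hi b, true)) * cpr (lo ∘ f')) *
            cpr (hi ∘ h')) := by simp only [mul_assoc]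
      _ = _ := by rw [hc]; simp only [mul_assoc]

theorem h3_top_sum {N : ℕ} {β : Type*} (s : Finset β) (g : β → Fk (N + N)) :
    (∑ i ∈ s, g i : Fk (N + N)) (univ : Finset (Fin (N + N))) =
      ∑ i ∈ s, (g i) (univ : Finset (Fin (N + N))) := by
  rw [WithLp.ofLp_sum, Finset.sum_apply]

theorem h3_top_smul {N : ℕ} (c : ℂ) (g : Fk (N + N)) :
    (c • g : Fk (N + N)) (univ : Finset (Fin (N + N))) = c * g (univ : Finset (Fin (N + N))) := rfl

theorem vh_pow (n : ℕ) (P : Arr (2 * n)) :
    ((Vh (RC P) ^ n) vac) (univ : Finset (Fin (2 * n + 2 * n))) = (gaussBonnet n P : ℂ) := by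
  rw [h3_vh_pow (RC P) n]
  simp only [_root_.sum_apply, h3_top_sum, smul_apply, h3_top_smul]
  rw [h3_sum]
  · rw [gaussBonnet, Complex.ofReal_sum]
    refine Finset.sum_congr rfl fun σ _ => ?_
    rw [h3_sum]
    · rw [Complex.ofReal_sum]
      refine Finset.sum_congr rfl fun τ _ => ?_
      rw [cpr_perm, cpr_perm, smul_mul_smul_comm, smul_apply, h3_top_smul, h2_top]
      unfold RC
      push_cast
      ring
    · intro h hh
      rw [cpr_not_inj (hi ∘ h) (fun h1 => hh (Function.Injective.of_comp h1)), mul_zero,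
        zero_apply]
      show _ * (0 : ℂ) = 0
      rw [mul_zero]
  · intro f hf
    refine Finset.sum_eq_zero fun h _ => ?_
    rw [cpr_not_inj (lo ∘ f) (fun h1 => hf (Function.Injective.of_comp h1)), zero_mul,
      zero_apply]
    show _ * (0 : ℂ) = 0
    rw [mul_zero]

theorem h3_ring {R : Type*} [Ring R] {a b c d : R} (h1 : b * c + c * b = 0) :
    a * b * c * d = -(a * c * (b * d)) := by
  have h3 := eq_neg_of_add_eq_zero_left h1
  rw [mul_assoc a b c, h3]
  noncomm_ring

theorem h3_ring2 {R : Type*} [Ring R] {x c d : R} (h1 : c * d + d * c = 0) :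
    x * d * c = -(x * c * d) := by
  have h3 := eq_neg_of_add_eq_zero_left h1
  rw [mul_assoc, mul_assoc, h3]
  noncomm_ring

theorem vh_idA (N : ℕ) : Vh (RC (idA N)) = (-2 : ℂ) • om N ^ 2 := by
  have h1 : ∀ i j : Fin N, ∑ k, ∑ l, RC (idA N) i j k l •
      (fA (lo i, true) * fA (lo j, true) * fA (hi k, true) * fA (hi l, true)) =
      (-2 : ℂ) • ((fA (lo i, true) * fA (hi i, true)) * (fA (lo j, true) * fA (hi j, true))) := by
    intro i j
    have e : ∀ k l : Fin N, RC (idA N) i j k l •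
        (fA (lo i, true) * fA (lo j, true) * fA (hi k, true) * fA (hi l, true)) =
        (if i = k then (if j = l then
          (fA (lo i, true) * fA (lo j, true) * fA (hi k, true) * fA (hi l, true)) else 0) else 0) -
        (if j = k then (if i = l then
          (fA (lo i, true) * fA (lo j, true) * fA (hi k, true) * fA (hi l, true)) else 0)
            else 0) := by
      intro k l
      generalize fA (lo i, true) * fA (lo j, true) * fA (hi k, true) * fA (hi l, true) = T
      have e2 : RC (idA N) i j k l = (if i = k then (if j = l then (1 : ℂ) else 0) else 0) -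
          (if j = k then (if i = l then (1 : ℂ) else 0) else 0) := by
        unfold RC idA
        split_ifs <;> norm_num
      have e3 : ∀ x y : ℂ, (x - y) • T = x • T - y • T := fun x y => sub_smul x y T
      rw [e2, e3]
      congr 1
      · split_ifs
        · exact one_smul ℂ T
        · exact zero_smul ℂ T
        · exact zero_smul ℂ T
      · split_ifs
        · exact one_smul ℂ T
        · exact zero_smul ℂ T
        · exact zero_smul ℂ T
    simp_rw [e, Finset.sum_sub_distrib]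
    simp only [Finset.sum_ite_irrel, Finset.sum_const_zero, Finset.sum_ite_eq, Finset.mem_univ,
      if_true]
    rw [h3_ring2 (h2_anti (hi i) (hi j)), h3_ring (h2_anti (lo j) (hi i))]
    module
  unfold Vh
  simp_rw [h1]
  rw [sq]
  unfold om
  rw [Finset.sum_mul_sum, Finset.smul_sum]
  refine Finset.sum_congr rfl fun i _ => ?_
  rw [Finset.smul_sum]

end Pool.Agent.H46P
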