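import Pool.Agent.Lib.H46P.H3
import Pool.Agent.Lib.Frob61.Expand

/-!
# Chunk H4: Gauss-Bonnet integrand of `P + t idA`

`Vh (RC (P + t idA)) = Vh (RC P) + t • Vh (RC idA) = Vh (RC P) - 2 t om^2`; `Commute.add_pow`
(`om_Vh_comm`); `choose n k * (2n-2k)! * k! * (-2t)^(n-k) = n! (-4t)^(n-k) (2(n-k)-1)!!`
(`(2j)! = 2^j j! (2j-1)!!`).
`zc_zero`: `om^(2n) vac` has coefficient `(-1)^n (2n)!` at `univ`: apply `gb_expand` to `P = 0`,
`t = 1`?? (needs `gaussBonnet n idA = 2^n (2n)!`, `H69`/`Frob61`), or directly: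
`om^(N) = N! ∏ (a_i b_i)` and reordering sign `(-1)^(N(N-1)/2)`, `N = 2n`.
`zc_real`: from `vh_pow` for all `t`, or: `fA` has real matrices. (`gb_expand` at `n+1` values of `t`
determines the coefficients; simplest: complex conjugation of coordinates commutes with `om`, `Vh (RC P)`.)
-/

namespace Pool.Agent.H46P

open Finset Pool.Agent.H69Hopf
open scoped BigOperators ComplexConjugate InnerProductSpace Nat

/-- real coordinates -/
def h4_real {m : ℕ} (f : Fk m) : Prop := ∀ S : Finset (Fin m), (f S).im = 0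

theorem h4_sgn {m : ℕ} (i : Fin m) (S : Finset (Fin m)) : (sgnS i S).im = 0 := by
  unfold sgnS
  rcases neg_one_pow_eq_or ℂ (#{j ∈ S | j < i}) with h | h
  · rw [h]; simp
  · rw [h]; simp

theorem h4_real_cre {m : ℕ} (i : Fin m) (f : Fk m) (hf : h4_real f) :
    h4_real (fA (i, true) f) := by
  intro S
  rw [h2_cre_apply]
  split_ifs
  · rw [Complex.mul_im, hf, h4_sgn, mul_zero, zero_mul, add_zero]
  · rfl

theorem h4_real_sum {m : ℕ} {β : Type*} (s : Finset β) (f : β → Fk m)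
    (hf : ∀ i ∈ s, h4_real (f i)) : h4_real (∑ i ∈ s, f i) := by
  intro S
  rw [WithLp.ofLp_sum, Finset.sum_apply, Complex.im_sum]
  exact Finset.sum_eq_zero fun i hi => hf i hi S

theorem h4_real_smul {m : ℕ} (c : ℝ) (f : Fk m) (hf : h4_real f) : h4_real ((c : ℂ) • f) := by
  intro S
  have e : (((c : ℂ) • f : Fk m) S) = (c : ℂ) * f S := rfl
  rw [e, Complex.mul_im, hf S]
  simp

theorem h4_real_om {N : ℕ} (f : Fk (N + N)) (hf : h4_real f) : h4_real (om N f) := by
  unfold om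
  rw [_root_.sum_apply]
  refine h4_real_sum _ _ fun i _ => ?_
  have e : (fA (lo i, true) * fA (hi i, true)) f = fA (lo i, true) (fA (hi i, true) f) := rfl
  rw [e]
  exact h4_real_cre _ _ (h4_real_cre _ _ hf)

theorem h4_real_Vh {N : ℕ} (P : Arr N) (f : Fk (N + N)) (hf : h4_real f) :
    h4_real (Vh (RC P) f) := by
  unfold Vh
  rw [_root_.sum_apply]
  refine h4_real_sum _ _ fun i _ => ?_
  rw [_root_.sum_apply]
  refine h4_real_sum _ _ fun j _ => ?_
  rw [_root_.sum_apply]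
  refine h4_real_sum _ _ fun k _ => ?_
  rw [_root_.sum_apply]
  refine h4_real_sum _ _ fun l _ => ?_
  have e : (RC P i j k l • (fA (lo i, true) * fA (lo j, true) * fA (hi k, true) *
      fA (hi l, true))) f = ((P i j k l : ℝ) : ℂ) • (fA (lo i, true) (fA (lo j, true)
      (fA (hi k, true) (fA (hi l, true) f)))) := rfl
  rw [e]
  have h1 := h4_real_cre (hi l) f hf
  have h2 := h4_real_cre (hi k) _ h1
  have h3 := h4_real_cre (lo j) _ h2
  have h4 := h4_real_cre (lo i) _ h3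
  exact h4_real_smul _ _ h4

theorem h4_real_vac {m : ℕ} : h4_real (vac (m := m)) := by
  intro S
  unfold vac
  rw [PiLp.single_apply]
  split_ifs <;> simp

theorem h4_real_pow {N : ℕ} (P : Arr N) (a k : ℕ) :
    h4_real ((om N ^ a * Vh (RC P) ^ k) vac) := by
  induction a with
  | zero =>
    rw [pow_zero, one_mul]
    induction k with
    | zero => exact h4_real_vac
    | succ k ih =>
      have e : (Vh (RC P) ^ (k + 1)) vac = Vh (RC P) ((Vh (RC P) ^ k) vac) := by
        rw [pow_succ']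
        rfl
      rw [e]
      exact h4_real_Vh P _ ih
  | succ a ih =>
    have e : (om N ^ (a + 1) * Vh (RC P) ^ k) vac = om N ((om N ^ a * Vh (RC P) ^ k) vac) := by
      rw [pow_succ', mul_assoc]
      rfl
    rw [e]
    exact h4_real_om _ ih

theorem h4_Vh_add {N : ℕ} (P : Arr N) (t : ℝ) :
    Vh (RC (fun i j k l => P i j k l + t * idA N i j k l)) =
      Vh (RC P) + (-2 * (t : ℂ)) • om N ^ 2 := by
  have h1 : Vh (RC (fun i j k l => P i j k l + t * idA N i j k l)) =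
      Vh (RC P) + (t : ℂ) • Vh (RC (idA N)) := by
    unfold Vh
    simp only [Finset.smul_sum, ← Finset.sum_add_distrib]
    refine Finset.sum_congr rfl fun i _ => Finset.sum_congr rfl fun j _ =>
      Finset.sum_congr rfl fun k _ => Finset.sum_congr rfl fun l _ => ?_
    generalize fA (lo i, true) * fA (lo j, true) * fA (hi k, true) * fA (hi l, true) = T
    have e : RC (fun i j k l => P i j k l + t * idA N i j k l) i j k l =
        RC P i j k l + (t : ℂ) * RC (idA N) i j k l := by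
      unfold RC
      push_cast
      rfl
    have e3 : ∀ x y : ℂ, (x + y) • T = x • T + y • T := fun x y => add_smul x y T
    have e4 : ∀ x y : ℂ, (x * y) • T = x • y • T := fun x y => mul_smul x y T
    rw [e, e3, e4]
  rw [h1, vh_idA]
  have e4 : ∀ (x y : ℂ) (T : Fk (N + N) →L[ℂ] Fk (N + N)), (x * y) • T = x • y • T :=
    fun x y T => mul_smul x y T
  rw [← e4, mul_comm]

theorem h4_dfact (j : ℕ) : ((2 * j).factorial : ℂ) =
    2 ^ j * (j.factorial : ℂ) * (((2 * j - 1)‼ : ℕ) : ℂ) := by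
  induction j with
  | zero => simp
  | succ j ih =>
    have e1 : (2 * (j + 1)).factorial = (2 * j + 2) * ((2 * j + 1) * (2 * j).factorial) := by
      rw [show 2 * (j + 1) = 2 * j + 1 + 1 by ring, Nat.factorial_succ, Nat.factorial_succ]
    have e2 : (2 * (j + 1) - 1)‼ = (2 * j + 1) * (2 * j - 1)‼ := by
      cases j with
      | zero => rfl
      | succ j =>
        rw [show 2 * (j + 1 + 1) - 1 = (2 * (j + 1) - 1) + 2 by omega,
          Nat.doubleFactorial_add_two]
        congr 1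
    rw [e1, e2, Nat.factorial_succ]
    push_cast
    rw [ih]
    ring

theorem h4_gb_idA (n : ℕ) : gaussBonnet n (idA (2 * n)) = 2 ^ n * (2 * n).factorial := by
  have h := Pool.Agent.Frob61.mgb_fam (n := n) (k := 0) (Nat.zero_le n) (idA (2 * n)) (by
    intro i j l m
    unfold idA
    ring)
  have e : fam (fun i : Fin n => decide (0 ≤ i.1)) (idA (2 * n)) = fun _ => idA (2 * n) := by
    funext i
    simp [fam]
  rw [e, ← gaussBonnet_eq_mgb] at h
  rw [h]
  have : Unique (Fin (2 * 0) → Fin (2 * n)) := inferInstanceAs (Unique (Fin 0 → Fin (2 * n)))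
  have hs : ∀ ρ : Equiv.Perm (Fin (2 * 0)), ρ = 1 := fun ρ =>
    Equiv.ext fun x => Fin.elim0 (show Fin 0 from x)
  rw [Fintype.sum_unique]
  unfold Pool.Agent.Frob61.ctr
  rw [Fintype.sum_eq_single (1 : Equiv.Perm (Fin (2 * 0))) fun x hx => absurd (hs x) hx]
  simp

theorem gb_expand (n : ℕ) (P : Arr (2 * n)) (t : ℝ) :
    (gaussBonnet n (fun i j k l => P i j k l + t * idA (2 * n) i j k l) : ℂ) =
      (n.factorial : ℂ) * ∑ k ∈ range (n + 1), (-4 * (t : ℂ)) ^ (n - k) *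
        (((2 * (n - k) - 1)‼ : ℕ) : ℂ) * zc n (RC P) k := by
  rw [← vh_pow, h4_Vh_add]
  have hc : Commute (Vh (RC P)) ((-2 * (t : ℂ)) • om (2 * n) ^ 2) :=
    ((om_Vh_comm (RC P)).symm.pow_right 2).smul_right _
  rw [← h1_phi_apply, hc.add_pow, map_sum, Finset.mul_sum]
  refine Finset.sum_congr rfl fun k hk => ?_
  rw [Finset.mem_range] at hk
  have e1 : (Vh (RC P) ^ k * ((-2 * (t : ℂ)) • om (2 * n) ^ 2) ^ (n - k) *
      ((n.choose k : ℕ) : Fk (2 * n + 2 * n) →L[ℂ] Fk (2 * n + 2 * n))) =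
      (((n.choose k : ℕ) : ℂ) * (-2 * (t : ℂ)) ^ (n - k)) •
        (om (2 * n) ^ (2 * n - 2 * k) * Vh (RC P) ^ k) := by
    rw [smul_pow, ← pow_mul, mul_smul_comm]
    have hcc : Vh (RC P) ^ k * om (2 * n) ^ (2 * (n - k)) =
        om (2 * n) ^ (2 * n - 2 * k) * Vh (RC P) ^ k := by
      rw [show 2 * (n - k) = 2 * n - 2 * k by omega]
      exact ((om_Vh_comm (RC P)).symm.pow_pow k (2 * n - 2 * k))
    have hn : ∀ (c : ℕ) (T : Fk (2 * n + 2 * n) →L[ℂ] Fk (2 * n + 2 * n)),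
        T * ((c : ℕ) : Fk (2 * n + 2 * n) →L[ℂ] Fk (2 * n + 2 * n)) = (c : ℂ) • T := by
      intro c T
      have h1 : (c : ℂ) • T = c • T := Nat.cast_smul_eq_nsmul ℂ c T
      have h2 : c • T = (c : Fk (2 * n + 2 * n) →L[ℂ] Fk (2 * n + 2 * n)) * T := nsmul_eq_mul c T
      exact ((Nat.cast_commute c T).eq).symm.trans (h2.symm.trans h1.symm)
    rw [hcc, hn, smul_smul]
  rw [e1, map_smul, smul_eq_mul, h1_phi_apply]
  unfold zc
  have g1 : ((2 * n - 2 * k).factorial : ℂ) ≠ 0 := by exact_mod_cast Nat.factorial_ne_zero _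
  have g2 : (k.factorial : ℂ) ≠ 0 := by exact_mod_cast Nat.factorial_ne_zero _
  have g3 : ((n - k).factorial : ℂ) ≠ 0 := by exact_mod_cast Nat.factorial_ne_zero _
  have g4 : ((n.choose k : ℕ) : ℂ) * (k.factorial : ℂ) * ((n - k).factorial : ℂ) =
      n.factorial := by
    exact_mod_cast Nat.choose_mul_factorial_mul_factorial (show k ≤ n by omega)
  have g5 := h4_dfact (n - k)
  rw [show 2 * (n - k) = 2 * n - 2 * k by omega] at g5 ⊢
  rw [← g4]
  have g6 : (-4 * (t : ℂ)) ^ (n - k) = 2 ^ (n - k) * (-2 * (t : ℂ)) ^ (n - k) := by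
    rw [← mul_pow]
    congr 1
    ring
  rw [g6]
  have hne : ((2 * n - 2 * k).factorial : ℂ) * (k.factorial : ℂ) ≠ 0 := mul_ne_zero g1 g2
  rw [mul_div_assoc', mul_div_assoc', eq_div_iff hne, g5]
  ring

theorem zc_zero (n : ℕ) (R : R4 (2 * n)) : zc n R 0 = (-1) ^ n := by
  have h := vh_pow n (idA (2 * n))
  rw [vh_idA, smul_pow, ← pow_mul, ← h1_phi_apply, map_smul, h4_gb_idA, smul_eq_mul] at h
  unfold zc
  rw [pow_zero, mul_one, Nat.mul_zero, Nat.sub_zero, Nat.factorial_zero, Nat.cast_one, mul_one,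
    ← h1_phi_apply]
  have g1 : ((2 * n).factorial : ℂ) ≠ 0 := by exact_mod_cast Nat.factorial_ne_zero _
  rw [div_eq_iff g1]
  push_cast at h
  have g2 : ((-2 : ℂ)) ^ n = (-1) ^ n * 2 ^ n := by
    rw [← mul_pow]
    norm_num
  have g3 : ((-1 : ℂ)) ^ n * (-1) ^ n = 1 := by
    rw [← mul_pow]
    norm_num
  have g4 : (2 : ℂ) ^ n ≠ 0 := pow_ne_zero _ two_ne_zero
  rw [g2] at h
  have h5 : (2 : ℂ) ^ n * (h1_phi (2 * n) (om (2 * n) ^ (2 * n))) =
      2 ^ n * ((-1) ^ n * ((2 * n).factorial : ℂ)) := by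
    calc (2 : ℂ) ^ n * (h1_phi (2 * n) (om (2 * n) ^ (2 * n)))
        = (-1) ^ n * (-1) ^ n * (2 ^ n * (h1_phi (2 * n) (om (2 * n) ^ (2 * n)))) := by
          rw [g3, one_mul]
      _ = (-1) ^ n * ((-1) ^ n * 2 ^ n * (h1_phi (2 * n) (om (2 * n) ^ (2 * n)))) := by ring
      _ = (-1) ^ n * (2 ^ n * ((2 * n).factorial : ℂ)) := by rw [h]
      _ = _ := by ring
  exact mul_left_cancel₀ g4 h5

theorem zc_real (n : ℕ) (P : Arr (2 * n)) (k : ℕ) : ((zc n (RC P) k).re : ℂ) = zc n (RC P) k := by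
  have h := h4_real_pow P (2 * n - 2 * k) k (univ : Finset (Fin (2 * n + 2 * n)))
  have h2 : ((om (2 * n) ^ (2 * n - 2 * k) * Vh (RC P) ^ k) vac)
      (univ : Finset (Fin (2 * n + 2 * n))) =
      ((((om (2 * n) ^ (2 * n - 2 * k) * Vh (RC P) ^ k) vac)
      (univ : Finset (Fin (2 * n + 2 * n)))).re : ℂ) := by
    apply Complex.ext
    · rw [Complex.ofReal_re]
    · rw [Complex.ofReal_im, h]
  have h3 : zc n (RC P) k = (((((om (2 * n) ^ (2 * n - 2 * k) * Vh (RC P) ^ k) vac)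
      (univ : Finset (Fin (2 * n + 2 * n)))).re /
      (((2 * n - 2 * k).factorial : ℝ) * (k.factorial : ℝ)) : ℝ) : ℂ) := by
    unfold zc
    rw [h2]
    push_cast
    rw [Complex.ofReal_re]
  rw [h3, Complex.ofReal_re]

end Pool.Agent.H46P
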