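import Mathlib

/-!
# Chunk H5: polynomials with zeros in a disc, Gaussian moments

`poly_bounds`: the monic polynomial `q = ∑ c k X^(n-k)` over `ℂ` splits, `q = ∏ (X - ζ_i)`, all `|ζ_i| < a`
(`‖x - ζ_i‖ ≥ x - a` and `≤ 2a`).  Sign for `x ≥ a`: `q` is real and does not vanish on `[a, ∞)`, tends to
`+∞`: intermediate value theorem.
`double_fact_measure`: the law of `g^2`, `g` standard Gaussian, or density
`x^(-1/2) exp(-x/2) / √(2π)` on `(0,∞)`: `∫ x^j = 2^j Γ(j+1/2)/√π = (2j-1)!!`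
(`Real.Gamma_nat_add_half`; or even moments of `gaussianReal`).
-/

namespace Pool.Agent.H46P

open Finset MeasureTheory
open scoped BigOperators Nat

/-- the polynomial -/
noncomputable def h5_q {R : Type*} [Semiring R] (n : ℕ) (c : ℕ → R) : Polynomial R :=
  ∑ k ∈ range (n + 1), Polynomial.C (c k) * Polynomial.X ^ (n - k)

theorem h5_eval {R : Type*} [CommSemiring R] (n : ℕ) (c : ℕ → R) (x : R) :
    (h5_q n c).eval x = ∑ k ∈ range (n + 1), c k * x ^ (n - k) := by
  unfold h5_q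
  rw [Polynomial.eval_finsetSum]
  simp

theorem h5_split {R : Type*} [CommSemiring R] (n : ℕ) (c : ℕ → R) (hc : c 0 = 1) :
    h5_q n c = Polynomial.X ^ n + ∑ k ∈ range n, Polynomial.C (c (k + 1)) *
      Polynomial.X ^ (n - (k + 1)) := by
  unfold h5_q
  rw [Finset.sum_range_succ', hc, map_one, one_mul, Nat.sub_zero, add_comm]

theorem h5_deg {R : Type*} [CommRing R] [Nontrivial R] (n : ℕ) (c : ℕ → R) :
    (∑ k ∈ range n, Polynomial.C (c (k + 1)) * Polynomial.X ^ (n - (k + 1))).degree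
      < (n : WithBot ℕ) := by
  rw [Polynomial.degree_lt_iff_coeff_zero]
  intro j hj
  rw [Polynomial.finsetSum_coeff]
  refine Finset.sum_eq_zero fun k hk => ?_
  rw [Polynomial.coeff_C_mul, Polynomial.coeff_X_pow, if_neg, mul_zero]
  have := Finset.mem_range.1 hk
  omega

theorem h5_monic {R : Type*} [CommRing R] [Nontrivial R] (n : ℕ) (c : ℕ → R) (hc : c 0 = 1) :
    (h5_q n c).Monic ∧ (h5_q n c).natDegree = n := by
  rw [h5_split n c hc]
  refine ⟨Polynomial.monic_X_pow_add (h5_deg n c), ?_⟩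
  have hd : (Polynomial.X ^ n + ∑ k ∈ range n, Polynomial.C (c (k + 1)) *
      Polynomial.X ^ (n - (k + 1)) : Polynomial R).degree = (n : WithBot ℕ) := by
    rw [Polynomial.degree_add_eq_left_of_degree_lt]
    · exact Polynomial.degree_X_pow n
    · rw [Polynomial.degree_X_pow]; exact h5_deg n c
  exact Polynomial.natDegree_eq_of_degree_eq_some hd

theorem poly_bounds (n : ℕ) (c : ℕ → ℝ) (hc : c 0 = 1) (a : ℝ) (ha : 0 < a)
    (h : ∀ ζ : ℂ, a ≤ ‖ζ‖ → ∑ k ∈ range (n + 1), (c k : ℂ) * ζ ^ (n - k) ≠ 0) :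
    (∀ x : ℝ, a ≤ x → (x - a) ^ n ≤ ∑ k ∈ range (n + 1), c k * x ^ (n - k)) ∧
    (∀ x : ℝ, 0 ≤ x → x ≤ a → |∑ k ∈ range (n + 1), c k * x ^ (n - k)| ≤ (2 * a) ^ n) := by
  classical
  set cc : ℕ → ℂ := fun k => (c k : ℂ) with hcc
  obtain ⟨hmon, hnd⟩ := h5_monic n cc (by rw [hcc]; simp [hc])
  obtain ⟨hmonR, hndR⟩ := h5_monic n c hc
  have hsplit := IsAlgClosed.splits (h5_q n cc)
  have hcard : Multiset.card (h5_q n cc).roots = n := by
    exact hsplit.natDegree_eq_card_roots.symm.trans hnd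
  have hprod : ∀ z : ℂ, (h5_q n cc).eval z = ((h5_q n cc).roots.map fun ζ => z - ζ).prod := by
    intro z
    have h1 := hsplit.eq_prod_roots_of_monic hmon
    conv_lhs => rw [h1]
    rw [Polynomial.eval_multiset_prod, Multiset.map_map]
    congr 1
    refine Multiset.map_congr rfl fun ζ _ => by simp
  have hroot : ∀ ζ ∈ (h5_q n cc).roots, ‖ζ‖ < a := by
    intro ζ hζ
    by_contra hcon
    push Not at hcon
    apply h ζ hcon
    have := (Polynomial.mem_roots'.1 hζ).2
    rw [Polynomial.IsRoot, h5_eval] at this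
    exact this
  have hcast : ∀ x : ℝ, ((∑ k ∈ range (n + 1), c k * x ^ (n - k) : ℝ) : ℂ) =
      (h5_q n cc).eval (x : ℂ) := by
    intro x
    rw [h5_eval]
    push_cast
    rfl
  have habs : ∀ x : ℝ, |∑ k ∈ range (n + 1), c k * x ^ (n - k)| =
      ((h5_q n cc).roots.map fun ζ => ‖(x : ℂ) - ζ‖).prod := by
    intro x
    rw [← Real.norm_eq_abs, ← Complex.norm_real, hcast, hprod]
    have := map_multiset_prod (normHom : ℂ →*₀ ℝ) ((h5_q n cc).roots.map fun ζ => (x : ℂ) - ζ)
    rw [Multiset.map_map] at this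
    exact this
  have hlow : ∀ x : ℝ, a ≤ x → (x - a) ^ n ≤ |∑ k ∈ range (n + 1), c k * x ^ (n - k)| := by
    intro x hx
    rw [habs]
    have h1 : ((h5_q n cc).roots.map fun _ => (x - a)).prod ≤
        ((h5_q n cc).roots.map fun ζ => ‖(x : ℂ) - ζ‖).prod := by
      refine Multiset.prod_map_le_prod_map₀ _ _ (fun ζ _ => by linarith) fun ζ hζ => ?_
      have h2 := hroot ζ hζ
      have h3 : ‖(x : ℂ)‖ - ‖ζ‖ ≤ ‖(x : ℂ) - ζ‖ := norm_sub_norm_le _ _
      rw [Complex.norm_real, Real.norm_of_nonneg (by linarith)] at h3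
      linarith
    rwa [Multiset.map_const', Multiset.prod_replicate, hcard] at h1
  refine ⟨?_, ?_⟩
  · intro x hx
    refine (hlow x hx).trans (le_of_eq (abs_of_nonneg ?_))
    by_contra hneg
    push Not at hneg
    rcases Nat.eq_zero_or_pos n with hn | hn
    · subst hn
      simp [hc] at hneg
      linarith
    · -- tends to infinity
      have hlim := Polynomial.tendsto_atTop_of_leadingCoeff_nonneg (h5_q n c)
        (by rw [Polynomial.degree_eq_natDegree hmonR.ne_zero, hndR]; exact_mod_cast hn)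
        (by rw [hmonR.leadingCoeff]; norm_num)
      obtain ⟨y, hy1, hy2⟩ := ((hlim.eventually_gt_atTop 0).and
        (Filter.eventually_ge_atTop x)).exists
      have hcont : ContinuousOn (fun t : ℝ => (h5_q n c).eval t) (Set.Icc x y) :=
        (h5_q n c).continuous.continuousOn
      have h0 : (0 : ℝ) ∈ Set.Icc ((h5_q n c).eval x) ((h5_q n c).eval y) :=
        ⟨by rw [h5_eval]; exact hneg.le, hy1.le⟩
      obtain ⟨z, hz, hz0⟩ := intermediate_value_Icc hy2 hcont h0
      apply h (z : ℂ)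
      · rw [Complex.norm_real, Real.norm_of_nonneg (by linarith [hz.1])]
        linarith [hz.1]
      · have h1 := hcast z
        rw [h5_eval] at h1
        rw [← h1]
        simp only at hz0
        rw [h5_eval] at hz0
        rw [hz0]
        simp
  · intro x hx0 hxa
    rw [habs]
    have h1 : ((h5_q n cc).roots.map fun ζ => ‖(x : ℂ) - ζ‖).prod ≤
        ((h5_q n cc).roots.map fun _ => (2 * a)).prod := by
      refine Multiset.prod_map_le_prod_map₀ _ _ (fun ζ _ => norm_nonneg _) fun ζ hζ => ?_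
      have h2 := hroot ζ hζ
      have h3 : ‖(x : ℂ) - ζ‖ ≤ ‖(x : ℂ)‖ + ‖ζ‖ := norm_sub_le _ _
      rw [Complex.norm_real, Real.norm_of_nonneg hx0] at h3
      linarith
    rwa [Multiset.map_const', Multiset.prod_replicate, hcard] at h1

theorem double_fact_measure : ∃ μ : Measure ℝ, IsProbabilityMeasure μ ∧ (∀ᵐ x ∂μ, 0 ≤ x) ∧
    ∀ j : ℕ, Integrable (fun x => x ^ j) μ ∧ ∫ x, x ^ j ∂μ = (((2 * j - 1)‼ : ℕ) : ℝ) := by
  have hhalf : (0 : ℝ) < 1 / 2 := by norm_num
  refine ⟨ProbabilityTheory.gammaMeasure (1 / 2) (1 / 2),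
    ProbabilityTheory.isProbabilityMeasure_gammaMeasure hhalf hhalf, ?_, ?_⟩
  · rw [ProbabilityTheory.gammaMeasure, ae_iff]
    have : {a : ℝ | ¬ 0 ≤ a} = Set.Iio 0 := by ext; simp
    rw [this, withDensity_apply _ measurableSet_Iio]
    exact ProbabilityTheory.lintegral_gammaPDF_of_nonpos le_rfl
  · intro j
    have hm : Measurable (ProbabilityTheory.gammaPDF (1 / 2) (1 / 2)) :=
      (ProbabilityTheory.measurable_gammaPDFReal _ _).ennreal_ofReal
    have hlt : ∀ᵐ x ∂(volume : Measure ℝ), ProbabilityTheory.gammaPDF (1 / 2) (1 / 2) x < ⊤ :=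
      Filter.Eventually.of_forall fun x => ENNReal.ofReal_lt_top
    set K : ℝ := (1 / 2 : ℝ) ^ (1 / 2 : ℝ) / Real.Gamma (1 / 2) with hK
    have hfun : (fun x : ℝ => (ProbabilityTheory.gammaPDF (1 / 2) (1 / 2) x).toReal • x ^ j)
        =ᵐ[volume] Set.indicator (Set.Ioi (0 : ℝ))
          (fun x => K * (x ^ ((j : ℝ) + 1 / 2 - 1) * Real.exp (-(1 / 2 * x)))) := by
      have h0 : ∀ᵐ x ∂(volume : Measure ℝ), x ≠ 0 := by
        simp [ae_iff]
      filter_upwards [h0] with x hx
      by_cases hx0 : 0 < x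
      · rw [Set.indicator_of_mem (Set.mem_Ioi.2 hx0),
          ProbabilityTheory.gammaPDF_of_nonneg hx0.le, smul_eq_mul,
          ENNReal.toReal_ofReal (by positivity)]
        have h1 : x ^ ((j : ℝ) + 1 / 2 - 1) = x ^ ((1 : ℝ) / 2 - 1) * x ^ j := by
          rw [← Real.rpow_natCast x j, ← Real.rpow_add hx0]
          congr 1
          ring
        rw [h1, hK]
        ring
      · have hx1 : x < 0 := lt_of_le_of_ne (not_lt.1 hx0) hx
        rw [Set.indicator_of_notMem (by simpa using hx1.le),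
          ProbabilityTheory.gammaPDF_of_neg hx1]
        simp
    have hint : IntegrableOn (fun x : ℝ => K * (x ^ ((j : ℝ) + 1 / 2 - 1) *
        Real.exp (-(1 / 2 * x)))) (Set.Ioi 0) := by
      refine Integrable.const_mul ?_ K
      have h1 := integrableOn_rpow_mul_exp_neg_mul_rpow (p := 1) (s := (j : ℝ) + 1 / 2 - 1)
        (b := 1 / 2) (by have : (0 : ℝ) ≤ j := by positivity
                         linarith) one_pos hhalf
      refine h1.congr_fun (fun x _ => ?_) measurableSet_Ioi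
      simp only [Real.rpow_one]
      ring_nf
    refine ⟨?_, ?_⟩
    · rw [ProbabilityTheory.gammaMeasure, integrable_withDensity_iff_integrable_smul' hm hlt]
      exact ((integrable_indicator_iff measurableSet_Ioi).2 hint).congr hfun.symm
    · rw [ProbabilityTheory.gammaMeasure, integral_withDensity_eq_integral_toReal_smul hm hlt,
        integral_congr_ae hfun, integral_indicator measurableSet_Ioi, integral_const_mul,
        Real.integral_rpow_mul_exp_neg_mul_Ioi (by positivity) hhalf, Real.Gamma_nat_add_half, hK,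
        Real.Gamma_one_half_eq]
      have hpi : √Real.pi ≠ 0 := by positivity
      have h2 : (1 / (1 / 2) : ℝ) ^ ((j : ℝ) + 1 / 2) = 2 ^ j * 2 ^ (1 / 2 : ℝ) := by
        rw [one_div_one_div, Real.rpow_add (by norm_num), Real.rpow_natCast]
      have h3 : (1 / 2 : ℝ) ^ (1 / 2 : ℝ) * 2 ^ (1 / 2 : ℝ) = 1 := by
        rw [← Real.mul_rpow (by norm_num) (by norm_num)]
        norm_num
      rw [h2]
      calc (1 / 2 : ℝ) ^ (1 / 2 : ℝ) / √Real.pi * (2 ^ j * 2 ^ (1 / 2 : ℝ) *
            (((2 * j - 1)‼ : ℕ) * √Real.pi / 2 ^ j))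
          = ((1 / 2 : ℝ) ^ (1 / 2 : ℝ) * 2 ^ (1 / 2 : ℝ)) * (((2 * j - 1)‼ : ℕ) : ℝ) := by
            field_simp
        _ = _ := by rw [h3, one_mul]

end Pool.Agent.H46P
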