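import Pool.Agent.Lib.H46P.H5

/-!
# Chunk H6: positivity of the mean

With `μ` of `double_fact_measure`, `q x = ∑ c k x^(n-k)`, `∫ q dμ = ∑ c k (2(n-k)-1)!!`.
Pointwise for `x ≥ 0`: `q x ≥ (3/4)^n (x^n - (4a)^n) - (2a)^n`: if `x ≤ a` the right side is
`≤ - (2a)^n ≤ q x` (as `x ≤ 4a`); if `a ≤ x ≤ 4a`: `q x ≥ 0 ≥` right side; if `x ≥ 4a`:
`q x ≥ (x-a)^n ≥ (3x/4)^n`.
Integrate: `∫ x^n dμ = (2n-1)!! ≥ n! ≥ (n/exp 1)^n` and, for `a = n/20`,
`(3/4)^n ((n/e)^n - (n/5)^n) > (n/10)^n`: i.e. `(3/(4e))^n > (3/20)^n + (1/10)^n`, from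
`3/(4e) > 1/4 = 3/20 + 1/10` (`e < 3`) and superadditivity `x^n + y^n ≤ (x+y)^n`.
-/

namespace Pool.Agent.H46P

open Finset MeasureTheory
open scoped BigOperators Nat

theorem h6_fact (n : ℕ) (hn : 1 ≤ n) : n ! ≤ (2 * n - 1)‼ := by
  induction n, hn using Nat.le_induction with
  | base => simp
  | succ n hn ih =>
    have h1 : 2 * (n + 1) - 1 = (2 * n - 1) + 2 := by omega
    rw [h1, Nat.doubleFactorial_add_two, Nat.factorial_succ]
    exact Nat.mul_le_mul (by omega) ih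

theorem h6_num (n : ℕ) (hn : 1 ≤ n) :
    (3 * ((n : ℝ) / 20)) ^ n + (2 * ((n : ℝ) / 20)) ^ n < (3 / 4) ^ n * (((2 * n - 1)‼ : ℕ) : ℝ) := by
  have hnR : (1 : ℝ) ≤ n := by exact_mod_cast hn
  have h1 : (3 * ((n : ℝ) / 20)) ^ n + (2 * ((n : ℝ) / 20)) ^ n ≤ ((n : ℝ) / 4) ^ n := by
    refine (pow_add_pow_le (by positivity) (by positivity) (by omega)).trans (le_of_eq ?_)
    congr 1
    ring
  refine h1.trans_lt ?_
  have h2 : ((n ! : ℕ) : ℝ) ≤ (((2 * n - 1)‼ : ℕ) : ℝ) := by exact_mod_cast h6_fact n hn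
  refine lt_of_lt_of_le ?_ (mul_le_mul_of_nonneg_left h2 (by positivity))
  have h3 : (n : ℝ) ^ n / n ! ≤ Real.exp n := Real.pow_div_factorial_le_exp n (by positivity) n
  have h4 : Real.exp n < 3 ^ n := by
    have : Real.exp n = Real.exp 1 ^ n := by
      rw [← Real.exp_nat_mul]; simp
    rw [this]
    exact pow_lt_pow_left₀ (by linarith [Real.exp_one_lt_d9]) (Real.exp_pos 1).le (by omega)
  have h5 : (n : ℝ) ^ n < 3 ^ n * n ! := by
    have hf : (0 : ℝ) < n ! := by positivity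
    exact (div_lt_iff₀ hf).1 (h3.trans_lt h4)
  rw [div_pow, div_pow, div_mul_eq_mul_div]
  exact div_lt_div_of_pos_right h5 (by positivity)

theorem mean_pos (n : ℕ) (hn : 1 ≤ n) (c : ℕ → ℝ) (hc : c 0 = 1)
    (h : ∀ ζ : ℂ, (n : ℝ) / 20 ≤ ‖ζ‖ → ∑ k ∈ range (n + 1), (c k : ℂ) * ζ ^ (n - k) ≠ 0) :
    0 < ∑ k ∈ range (n + 1), c k * (((2 * (n - k) - 1)‼ : ℕ) : ℝ) := by
  obtain ⟨μ, hμ, hnn, hmom⟩ := double_fact_measure
  have hnR : (1 : ℝ) ≤ n := by exact_mod_cast hn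
  have ha : (0 : ℝ) < (n : ℝ) / 20 := by positivity
  obtain ⟨h1, h2⟩ := poly_bounds n c hc _ ha h
  set a : ℝ := (n : ℝ) / 20 with hadef
  have hI : Integrable (fun x : ℝ => ∑ k ∈ range (n + 1), c k * x ^ (n - k)) μ :=
    integrable_finsetSum _ fun k _ => (hmom (n - k)).1.const_mul _
  have hIv : ∫ x, (∑ k ∈ range (n + 1), c k * x ^ (n - k)) ∂μ =
      ∑ k ∈ range (n + 1), c k * (((2 * (n - k) - 1)‼ : ℕ) : ℝ) := by
    rw [integral_finsetSum _ fun k _ => (hmom (n - k)).1.const_mul _]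
    refine Finset.sum_congr rfl fun k _ => ?_
    rw [integral_const_mul, (hmom (n - k)).2]
  have hL : Integrable (fun x : ℝ => (3 / 4) ^ n * (x ^ n - (4 * a) ^ n) - (2 * a) ^ n) μ :=
    (((hmom n).1.sub (integrable_const _)).const_mul _).sub (integrable_const _)
  have hLv : ∫ x, ((3 / 4) ^ n * (x ^ n - (4 * a) ^ n) - (2 * a) ^ n) ∂μ =
      (3 / 4) ^ n * ((((2 * n - 1)‼ : ℕ) : ℝ) - (4 * a) ^ n) - (2 * a) ^ n := by
    have e1 : Integrable (fun x : ℝ => x ^ n - (4 * a) ^ n) μ :=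
      (hmom n).1.sub (integrable_const _)
    have e2 : Integrable (fun x : ℝ => (3 / 4) ^ n * (x ^ n - (4 * a) ^ n)) μ := e1.const_mul _
    rw [integral_sub e2 (integrable_const _),
      integral_const_mul, integral_sub (hmom n).1 (integrable_const _), (hmom n).2]
    simp
  rw [← hIv]
  have hmono : ∫ x, ((3 / 4) ^ n * (x ^ n - (4 * a) ^ n) - (2 * a) ^ n) ∂μ ≤
      ∫ x, (∑ k ∈ range (n + 1), c k * x ^ (n - k)) ∂μ := by
    refine integral_mono_ae hL hI ?_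
    filter_upwards [hnn] with x hx
    rcases le_total x a with hxa | hxa
    · have h3 := (abs_le.1 (h2 x hx hxa)).1
      have h4 : x ^ n ≤ (4 * a) ^ n := pow_le_pow_left₀ hx (by linarith) n
      have h5 : (3 / 4 : ℝ) ^ n * (x ^ n - (4 * a) ^ n) ≤ 0 :=
        mul_nonpos_of_nonneg_of_nonpos (by positivity) (by linarith)
      linarith
    · have h3 := h1 x hxa
      have h6 : 0 ≤ (2 * a) ^ n := by positivity
      rcases le_total x (4 * a) with hx4 | hx4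
      · have h4 : x ^ n ≤ (4 * a) ^ n := pow_le_pow_left₀ hx hx4 n
        have h5 : (3 / 4 : ℝ) ^ n * (x ^ n - (4 * a) ^ n) ≤ 0 :=
          mul_nonpos_of_nonneg_of_nonpos (by positivity) (by linarith)
        have h7 : 0 ≤ (x - a) ^ n := pow_nonneg (by linarith) n
        linarith
      · have h4 : (3 / 4 * x) ^ n ≤ (x - a) ^ n := pow_le_pow_left₀ (by positivity) (by linarith) n
        rw [mul_pow] at h4
        have h5 : 0 ≤ (3 / 4 : ℝ) ^ n * (4 * a) ^ n := by positivity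
        have h7 : (3 / 4 : ℝ) ^ n * (x ^ n - (4 * a) ^ n) =
          (3 / 4 : ℝ) ^ n * x ^ n - (3 / 4 : ℝ) ^ n * (4 * a) ^ n := by ring
        linarith
  refine lt_of_lt_of_le ?_ hmono
  rw [hLv]
  have h8 := h6_num n hn
  rw [← hadef] at h8
  have h9 : (3 / 4 : ℝ) ^ n * (4 * a) ^ n = (3 * a) ^ n := by
    rw [← mul_pow]; congr 1; ring
  have h10 : (3 / 4 : ℝ) ^ n * ((((2 * n - 1)‼ : ℕ) : ℝ) - (4 * a) ^ n) =
      (3 / 4 : ℝ) ^ n * (((2 * n - 1)‼ : ℕ) : ℝ) - (3 / 4 : ℝ) ^ n * (4 * a) ^ n := by ring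
  rw [h10, h9]
  linarith

end Pool.Agent.H46P
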