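import Pool.Agent.Lib.H46P.G5
import Pool.Agent.Lib.H46P.H4
import Pool.Agent.Lib.H46P.H6

/-!
# Chunk H7: the sign of the Gauss-Bonnet integrand from the complex injective norm

`c k = (-1)^n * (zc n (RC P) k).re`; `c 0 = 1` (`zc_zero`).  For `ζ : ℂ`, `‖ζ‖ ≥ n/20`:
`∑ c k ζ^(n-k) = (-1)^n ζ^n ∑ (1/ζ)^k zc k = (-1)^n ζ^n * ell (RC P/ζ) vac` (`ell_poly`, `zc_real`), nonzero by
`zero_free` for `R = (1/ζ) RC P`, `ρ' = ρ / ‖ζ‖ ≤ 20 ρ/n`, `N = 2 n`, `4 N * 4 ρ' ≤ 640 ρ`.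
`mean_pos` gives `0 < (-1)^n ∑ (2(n-k)-1)!! re (zc k)`; `gb_expand` with `t = -1/4`
(`(-4t)^(n-k) = 1`).
`gb_sign'`: scale: `P - κ idA = (4κ) • (P/(4κ) - (1/4) idA)`, `gaussBonnet` is homogeneous of degree `n`
(`Frob61.gb_smul`).
-/

namespace Pool.Agent.H46P

open Finset Pool.Agent.H69Hopf
open scoped BigOperators ComplexConjugate InnerProductSpace Nat

theorem h7_smul {n : ℕ} (t : ℝ) (P : Arr (2 * n)) :
    gaussBonnet n (fun i j k l => t * P i j k l) = t ^ n * gaussBonnet n P := by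
  unfold gaussBonnet
  rw [Finset.mul_sum]
  refine Finset.sum_congr rfl fun σ _ => ?_
  rw [Finset.mul_sum]
  refine Finset.sum_congr rfl fun τ _ => ?_
  rw [Finset.prod_mul_distrib, Finset.prod_const, Finset.card_univ, Fintype.card_fin]
  ring

theorem h7_algCurv {N : ℕ} {R : Arr N} (h : IsAlgCurv R) (t : ℝ) :
    IsAlgCurv (fun i j k l => t * R i j k l) where
  skew i j k l := by rw [h.skew i j k l]; ring
  pair i j k l := by rw [h.pair i j k l]
  bianchi i j k l := by linear_combination t * h.bianchi i j k l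

theorem h7_rb {N : ℕ} {R : R4 N} {ρ : ℝ} (h : RB R ρ) (s : ℂ) :
    RB (fun i j k l => s * R i j k l) (‖s‖ * ρ) := by
  intro x y z w
  have h1 : ∑ i, ∑ j, ∑ k, ∑ l, (s * R i j k l) * x i * y j * z k * w l =
      s * ∑ i, ∑ j, ∑ k, ∑ l, R i j k l * x i * y j * z k * w l := by
    simp only [Finset.mul_sum]
    refine Finset.sum_congr rfl fun i _ => Finset.sum_congr rfl fun j _ =>
      Finset.sum_congr rfl fun k _ => Finset.sum_congr rfl fun l _ => ?_
    ring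
  rw [h1, norm_mul]
  calc ‖s‖ * ‖∑ i, ∑ j, ∑ k, ∑ l, R i j k l * x i * y j * z k * w l‖
      ≤ ‖s‖ * (ρ * nrm x * nrm y * nrm z * nrm w) :=
        mul_le_mul_of_nonneg_left (h x y z w) (norm_nonneg _)
    _ = ‖s‖ * ρ * nrm x * nrm y * nrm z * nrm w := by ring

theorem h7_rb_mono {N : ℕ} {R : R4 N} {ρ ρ' : ℝ} (h : RB R ρ) (hρ : ρ ≤ ρ') : RB R ρ' := by
  intro x y z w
  refine (h x y z w).trans ?_
  have h1 := nrm_nonneg x
  have h2 := nrm_nonneg y
  have h3 := nrm_nonneg z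
  have h4 := nrm_nonneg w
  gcongr

theorem h7_skew {n : ℕ} {P : Arr (2 * n)} (hP : IsAlgCurv P) (s : ℂ) :
    Skew (fun i j k l => s * RC P i j k l) where
  s1 i j k l := by
    have : P j i k l = - P i j k l := by rw [hP.skew j i k l]
    simp only [RC, this]
    push_cast
    ring
  s2 i j k l := by
    have : P i j l k = - P i j k l := by
      rw [hP.pair i j l k, hP.skew l k i j, hP.pair k l i j]
    simp only [RC, this]
    push_cast
    ring

theorem gb_sign (n : ℕ) (hn : 1 ≤ n) (P : Arr (2 * n)) (hP : IsAlgCurv P) {ρ : ℝ} (hρ : 0 ≤ ρ)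
    (hb : RB (RC P) ρ) {lam : ℕ} (hlam : (8 * n : ℝ) ≤ Real.exp lam)
    (hsmall : 16 * Real.exp 1 ^ 2 * (17 * (6 * (lam + 5)) ^ 2 * (5 + lam)) * (640 * ρ) ≤
      1 / 100) :
    0 < (-1) ^ n * gaussBonnet n (fun i j k l => P i j k l + (-1 / 4) * idA (2 * n) i j k l) := by
  have hnR : (1 : ℝ) ≤ n := by exact_mod_cast hn
  set c : ℕ → ℝ := fun k => (-1) ^ n * (zc n (RC P) k).re with hc
  have hc0 : c 0 = 1 := by
    rw [hc]
    simp only
    rw [zc_zero]
    have h1 : (((-1 : ℂ)) ^ n).re = (-1) ^ n := by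
      have h2 : ((-1 : ℂ)) ^ n = (((-1 : ℝ) ^ n : ℝ) : ℂ) := by push_cast; rfl
      rw [h2, Complex.ofReal_re]
    rw [h1, ← mul_pow]
    norm_num
  have hcc : ∀ k, (c k : ℂ) = (-1) ^ n * zc n (RC P) k := by
    intro k
    rw [hc]
    simp only
    rw [Complex.ofReal_mul, zc_real]
    push_cast
    rfl
  have hnz : ∀ ζ : ℂ, (n : ℝ) / 20 ≤ ‖ζ‖ →
      ∑ k ∈ range (n + 1), (c k : ℂ) * ζ ^ (n - k) ≠ 0 := by
    intro ζ hζ
    have hζ0 : 0 < ‖ζ‖ := lt_of_lt_of_le (by positivity) hζ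
    have hζ1 : ζ ≠ 0 := norm_pos_iff.1 hζ0
    have h1 : ∑ k ∈ range (n + 1), (c k : ℂ) * ζ ^ (n - k) =
        (-1) ^ n * ζ ^ n * ell (fun i j k l => ζ⁻¹ * RC P i j k l) vac := by
      rw [ell_poly, Finset.mul_sum]
      refine Finset.sum_congr rfl fun k hk => ?_
      have hk' : k ≤ n := by
        have := Finset.mem_range.1 hk
        omega
      have h2 : ζ ^ n = ζ ^ (n - k) * ζ ^ k := by rw [← pow_add]; congr 1; omega
      have h3 : ζ ^ k * ζ⁻¹ ^ k = 1 := by rw [← mul_pow, mul_inv_cancel₀ hζ1, one_pow]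
      rw [hcc, h2]
      calc (-1) ^ n * zc n (RC P) k * ζ ^ (n - k)
          = (-1) ^ n * zc n (RC P) k * ζ ^ (n - k) * (ζ ^ k * ζ⁻¹ ^ k) := by rw [h3, mul_one]
        _ = _ := by ring
    rw [h1]
    have hζ2 : ‖ζ⁻¹‖ ≤ 20 / n := by
      rw [norm_inv, inv_le_comm₀ hζ0 (by positivity), inv_div]
      exact hζ
    have hb' : RB (fun i j k l => ζ⁻¹ * RC P i j k l) (20 / n * ρ) :=
      h7_rb_mono (h7_rb hb ζ⁻¹) (mul_le_mul_of_nonneg_right hζ2 hρ)
    refine mul_ne_zero (mul_ne_zero (by simp) (pow_ne_zero _ hζ1)) ?_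
    refine zero_free (N := 2 * n) (by omega) (h7_skew hP ζ⁻¹) (by positivity) hb' (lam := lam) ?_ ?_
    · push_cast
      refine le_trans (le_of_eq ?_) hlam
      ring
    · refine le_trans (le_of_eq ?_) hsmall
      push_cast
      field_simp
      ring
  have hpos := mean_pos n hn c hc0 hnz
  have hexp := gb_expand n P (-1 / 4)
  have h4 : (-4 * (((-1 / 4 : ℝ)) : ℂ)) = 1 := by push_cast; norm_num
  rw [h4] at hexp
  simp only [one_pow, one_mul] at hexp
  have hexp2 : ((((-1) ^ n * gaussBonnet n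
      (fun i j k l => P i j k l + (-1 / 4) * idA (2 * n) i j k l)) : ℝ) : ℂ) =
      (((n.factorial : ℝ) * ∑ k ∈ range (n + 1), c k * (((2 * (n - k) - 1)‼ : ℕ) : ℝ) : ℝ) : ℂ) := by
    rw [Complex.ofReal_mul, hexp, Complex.ofReal_mul, Complex.ofReal_sum, Complex.ofReal_natCast]
    rw [show ((((-1 : ℝ) ^ n : ℝ)) : ℂ) = (-1) ^ n by push_cast; rfl]
    rw [mul_left_comm, Finset.mul_sum]
    congr 1
    refine Finset.sum_congr rfl fun k _ => ?_
    rw [Complex.ofReal_mul, hcc, Complex.ofReal_natCast]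
    ring
  have hexp3 := Complex.ofReal_injective hexp2
  rw [hexp3]
  exact mul_pos (by exact_mod_cast n.factorial_pos) hpos

theorem gb_sign' (n : ℕ) (hn : 1 ≤ n) (P : Arr (2 * n)) (hP : IsAlgCurv P) {ρ k : ℝ}
    (hρ : 0 ≤ ρ) (hk : 0 < k) (hb : RB (RC P) ρ) {lam : ℕ} (hlam : (8 * n : ℝ) ≤ Real.exp lam)
    (hsmall : 16 * Real.exp 1 ^ 2 * (17 * (6 * (lam + 5)) ^ 2 * (5 + lam)) * (160 * ρ) ≤
      k / 100) :
    0 < (-1) ^ n * gaussBonnet n (fun i j a l => P i j a l + (-k) * idA (2 * n) i j a l) := by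
  have h4k : 0 < 4 * k := by positivity
  have hb' : RB (RC (fun i j a l => (4 * k)⁻¹ * P i j a l)) ((4 * k)⁻¹ * ρ) := by
    have h1 := h7_rb hb (((4 * k)⁻¹ : ℝ) : ℂ)
    rw [Complex.norm_real, Real.norm_of_nonneg (by positivity)] at h1
    have h2 : RC (fun i j a l => (4 * k)⁻¹ * P i j a l) =
        fun i j a l => (((4 * k)⁻¹ : ℝ) : ℂ) * RC P i j a l := by
      funext i j a l
      simp only [RC]
      push_cast
      rfl
    rw [h2]
    exact h1
  have h1 := gb_sign n hn (fun i j a l => (4 * k)⁻¹ * P i j a l) (h7_algCurv hP _)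
    (ρ := (4 * k)⁻¹ * ρ) (by positivity) hb' hlam (by
      have h2 : 16 * Real.exp 1 ^ 2 * (17 * (6 * ((lam : ℝ) + 5)) ^ 2 * (5 + lam)) *
          (640 * ((4 * k)⁻¹ * ρ)) =
          (16 * Real.exp 1 ^ 2 * (17 * (6 * ((lam : ℝ) + 5)) ^ 2 * (5 + lam)) *
          (160 * ρ)) / k := by
        field_simp
        ring
      rw [h2, div_le_iff₀ hk]
      linarith)
  have h3 : gaussBonnet n (fun i j a l => P i j a l + (-k) * idA (2 * n) i j a l) =
      (4 * k) ^ n * gaussBonnet n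
        (fun i j a l => (4 * k)⁻¹ * P i j a l + (-1 / 4) * idA (2 * n) i j a l) := by
    rw [← h7_smul]
    congr 1
    funext i j a l
    field_simp
  rw [h3, mul_left_comm]
  positivity

end Pool.Agent.H46P
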