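import Pool.Agent.Lib.H46P.H0

/-!
# Chunk H8: complex injective norm from sectional curvatures

Real case, `|ev P x y z w| ≤ (4/3) e |x||y||z||w|`: (1) the symmetric bilinear form `(y,w) ↦ ev P x y x w`
(symmetric by pair symmetry) satisfies `|H69Hopf.ev P x y x y| ≤ e |x|^2 |y|^2` (`area2 ≤ |x|^2|y|^2`), so
`|ev P x y x w| ≤ e |x|^2 |y||w|` (polarization, unit vectors). (2) polarize in `x`:
`2 (ev P x y z w + ev P z y x w) = ev P (x+z) y (x+z) w - ev P (x-z) y (x-z) w`, so for unit vectors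
`|a + b| ≤ 2e`, `a = ev P x y z w`, `b = ev P z y x w` (parallelogram law). (3) The same with `x, y`
exchanged (in the first pair): `ev P y x z w = -a`, `ev P z x y w = b - a` (Bianchi:
`a + ev P y z x w + ev P z x y w = 0`, `ev P y z x w = -b`): `|b - 2a| ≤ 2e`. So `3|a| ≤ 4e`. Homogeneity.
Complex case: split each complex vector into real and imaginary part (16 terms),
`(|x'| + |x''|) ≤ √2 |x|`, four factors: `4 * 4/3 = 16/3`.
-/

namespace Pool.Agent.H46P

open Finset Pool.Agent.H69Hopf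
open scoped BigOperators ComplexConjugate InnerProductSpace

/-- Squared norm. -/
def h8n {N : ℕ} (x : Fin N → ℝ) : ℝ := ∑ i, x i ^ 2

theorem h8n_nonneg {N : ℕ} (x : Fin N → ℝ) : 0 ≤ h8n x := Finset.sum_nonneg fun _ _ => by positivity

theorem h8_par {N : ℕ} (x y : Fin N → ℝ) : h8n (x + y) + h8n (x - y) = 2 * (h8n x + h8n y) := by
  unfold h8n
  rw [← Finset.sum_add_distrib, ← Finset.sum_add_distrib, Finset.mul_sum]
  refine Finset.sum_congr rfl fun i _ => ?_
  simp only [Pi.add_apply, Pi.sub_apply]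
  ring

theorem h8_skew {N : ℕ} {P : Arr N} (hP : IsAlgCurv P) (x y z w : Fin N → ℝ) :
    H69Hopf.ev P y x z w = - H69Hopf.ev P x y z w := by
  unfold H69Hopf.ev
  rw [Finset.sum_comm, ← Finset.sum_neg_distrib]
  refine Finset.sum_congr rfl fun a _ => ?_
  rw [← Finset.sum_neg_distrib]
  refine Finset.sum_congr rfl fun b _ => ?_
  rw [← Finset.sum_neg_distrib]
  refine Finset.sum_congr rfl fun c _ => ?_
  rw [← Finset.sum_neg_distrib]
  refine Finset.sum_congr rfl fun d _ => ?_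
  rw [hP.skew b a c d]
  ring

theorem h8_rot {N : ℕ} (f : Fin N → Fin N → Fin N → ℝ) :
    ∑ i, ∑ j, ∑ k, f i j k = ∑ k, ∑ i, ∑ j, f i j k := by
  have h1 : ∑ i, ∑ j, ∑ k, f i j k = ∑ i, ∑ k, ∑ j, f i j k :=
    Finset.sum_congr rfl fun i _ => Finset.sum_comm
  rw [h1, Finset.sum_comm]

theorem h8_pair {N : ℕ} {P : Arr N} (hP : IsAlgCurv P) (x y z w : Fin N → ℝ) :
    H69Hopf.ev P z w x y = H69Hopf.ev P x y z w := by
  unfold H69Hopf.ev
  have h1 : ∀ f : Fin N → Fin N → Fin N → Fin N → ℝ,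
      ∑ i, ∑ j, ∑ k, ∑ l, f i j k l = ∑ k, ∑ l, ∑ i, ∑ j, f i j k l := by
    intro f
    rw [h8_rot fun i j k => ∑ l, f i j k l]
    refine Finset.sum_congr rfl fun k _ => ?_
    rw [h8_rot fun i j l => f i j k l]
  rw [h1]
  refine Finset.sum_congr rfl fun a _ => Finset.sum_congr rfl fun b _ =>
    Finset.sum_congr rfl fun c _ => Finset.sum_congr rfl fun d _ => ?_
  rw [hP.pair c d a b]
  ring

theorem h8_bianchi {N : ℕ} {P : Arr N} (hP : IsAlgCurv P) (x y z w : Fin N → ℝ) :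
    H69Hopf.ev P x y z w + H69Hopf.ev P y z x w + H69Hopf.ev P z x y w = 0 := by
  have h1 : H69Hopf.ev P y z x w = ∑ a, ∑ b, ∑ c, ∑ l, P b c a l * y b * z c * x a * w l := by
    unfold H69Hopf.ev
    exact h8_rot fun b c a => ∑ l, P b c a l * y b * z c * x a * w l
  have h2 : H69Hopf.ev P z x y w = ∑ a, ∑ b, ∑ c, ∑ l, P c a b l * z c * x a * y b * w l := by
    unfold H69Hopf.ev
    exact (h8_rot fun a b c => ∑ l, P c a b l * z c * x a * y b * w l).symm
  rw [h1, h2]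
  unfold H69Hopf.ev
  simp only [← Finset.sum_add_distrib]
  refine Finset.sum_eq_zero fun a _ => Finset.sum_eq_zero fun b _ => Finset.sum_eq_zero fun c _ =>
    Finset.sum_eq_zero fun l _ => ?_
  have h := hP.bianchi a b c l
  linear_combination (x a * y b * z c * w l) * h

/-- Diagonal bound. -/
theorem h8_diag {N : ℕ} {P : Arr N} {e : ℝ} (he : 0 ≤ e)
    (hsec : ∀ x y : Fin N → ℝ, |H69Hopf.ev P x y x y| ≤ e * area2 x y) (x y : Fin N → ℝ) :
    |H69Hopf.ev P x y x y| ≤ e * (h8n x * h8n y) := by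
  refine (hsec x y).trans (mul_le_mul_of_nonneg_left ?_ he)
  unfold area2 h8n
  have := sq_nonneg (∑ i, x i * y i)
  linarith

/-- Polarization in the second and fourth argument. -/
theorem h8_two {N : ℕ} {P : Arr N} (hP : IsAlgCurv P) {e : ℝ} (he : 0 ≤ e)
    (hsec : ∀ x y : Fin N → ℝ, |H69Hopf.ev P x y x y| ≤ e * area2 x y) (x y w : Fin N → ℝ) :
    |H69Hopf.ev P x y x w| ≤ e * (h8n x * (h8n y + h8n w)) / 2 := by
  have h1 := h8_diag he hsec x (y + w)
  have h2 := h8_diag he hsec x (y - w)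
  have h3 : H69Hopf.ev P x (y + w) x (y + w) =
      H69Hopf.ev P x y x y + 2 * H69Hopf.ev P x y x w + H69Hopf.ev P x w x w := by
    rw [ev_add2, ev_add4, ev_add4, h8_pair hP x y x w]
    ring
  have h4 : H69Hopf.ev P x (y - w) x (y - w) =
      H69Hopf.ev P x y x y - 2 * H69Hopf.ev P x y x w + H69Hopf.ev P x w x w := by
    have h5 : y - w = y + (-1 : ℝ) • w := by
      rw [neg_one_smul, sub_eq_add_neg]
    rw [h5, ev_add2, ev_add4, ev_add4, ev_smul2, ev_smul4, ev_smul2, ev_smul4, h8_pair hP x y x w]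
    ring
  have h5 := h8_par y w
  rw [h3] at h1
  rw [h4] at h2
  rw [abs_le] at h1 h2 ⊢
  have h6 : e * (h8n x * h8n (y + w)) + e * (h8n x * h8n (y - w)) =
      2 * (e * (h8n x * (h8n y + h8n w))) := by
    linear_combination e * h8n x * h5
  constructor <;> linarith [h1.1, h1.2, h2.1, h2.2]

/-- Polarization in the first and third argument. -/
theorem h8_four {N : ℕ} {P : Arr N} (hP : IsAlgCurv P) {e : ℝ} (he : 0 ≤ e)
    (hsec : ∀ x y : Fin N → ℝ, |H69Hopf.ev P x y x y| ≤ e * area2 x y) (x y z w : Fin N → ℝ) :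
    |H69Hopf.ev P x y z w + H69Hopf.ev P z y x w| ≤
      e * ((h8n x + h8n z) * (h8n y + h8n w)) / 2 := by
  have h1 := h8_two hP he hsec (x + z) y w
  have h2 := h8_two hP he hsec (x - z) y w
  have h3 : H69Hopf.ev P (x + z) y (x + z) w = H69Hopf.ev P x y x w +
      (H69Hopf.ev P x y z w + H69Hopf.ev P z y x w) + H69Hopf.ev P z y z w := by
    rw [ev_add1, ev_add3, ev_add3]
    ring
  have h4 : H69Hopf.ev P (x - z) y (x - z) w = H69Hopf.ev P x y x w -
      (H69Hopf.ev P x y z w + H69Hopf.ev P z y x w) + H69Hopf.ev P z y z w := by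
    have h5 : x - z = x + (-1 : ℝ) • z := by
      rw [neg_one_smul, sub_eq_add_neg]
    rw [h5, ev_add1, ev_add3, ev_add3, ev_smul1, ev_smul3, ev_smul1, ev_smul3]
    ring
  have h5 := h8_par x z
  rw [h3] at h1
  rw [h4] at h2
  rw [abs_le] at h1 h2 ⊢
  have h6 : e * (h8n (x + z) * (h8n y + h8n w)) / 2 + e * (h8n (x - z) * (h8n y + h8n w)) / 2 =
      e * ((h8n x + h8n z) * (h8n y + h8n w)) := by
    linear_combination e * (h8n y + h8n w) / 2 * h5
  constructor <;> linarith [h1.1, h1.2, h2.1, h2.2]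

/-- Unit vectors. -/
theorem h8_unit {N : ℕ} {P : Arr N} (hP : IsAlgCurv P) {e : ℝ} (he : 0 ≤ e)
    (hsec : ∀ x y : Fin N → ℝ, |H69Hopf.ev P x y x y| ≤ e * area2 x y) (x y z w : Fin N → ℝ)
    (hx : h8n x = 1) (hy : h8n y = 1) (hz : h8n z = 1) (hw : h8n w = 1) :
    |H69Hopf.ev P x y z w| ≤ 4 / 3 * e := by
  have h1 := h8_four hP he hsec x y z w
  have h2 := h8_four hP he hsec y x z w
  have h3 := h8_bianchi hP x y z w
  have h4 := h8_skew hP z y x w
  have h5 := h8_skew hP x y z w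
  rw [hx, hy, hz, hw] at h1 h2
  rw [abs_le] at h1 h2 ⊢
  constructor <;> linarith [h1.1, h1.2, h2.1, h2.2]

/-- Normalization. -/
theorem h8_norm {N : ℕ} (x : Fin N → ℝ) (hx : h8n x ≠ 0) :
    ∃ u : Fin N → ℝ, h8n u = 1 ∧ x = √(h8n x) • u := by
  have h0 : 0 < h8n x := lt_of_le_of_ne (h8n_nonneg x) (Ne.symm hx)
  have h1 : 0 < √(h8n x) := Real.sqrt_pos.2 h0
  refine ⟨(√(h8n x))⁻¹ • x, ?_, ?_⟩
  · have h2 : h8n ((√(h8n x))⁻¹ • x) = ((√(h8n x))⁻¹) ^ 2 * h8n x := by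
      unfold h8n
      rw [Finset.mul_sum]
      refine Finset.sum_congr rfl fun i _ => ?_
      simp only [Pi.smul_apply, smul_eq_mul]
      ring
    rw [h2, inv_pow, Real.sq_sqrt h0.le, inv_mul_cancel₀ hx]
  · rw [smul_smul, mul_inv_cancel₀ h1.ne', one_smul]

theorem h8_zero {N : ℕ} (x : Fin N → ℝ) (hx : h8n x = 0) : x = (0 : ℝ) • x := by
  rw [zero_smul]
  funext i
  have h1 := (Finset.sum_eq_zero_iff_of_nonneg (fun i _ => by positivity)).1 hx i (Finset.mem_univ i)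
  exact pow_eq_zero_iff (two_ne_zero) |>.1 h1

theorem ev_le {N : ℕ} {P : Arr N} (hP : IsAlgCurv P) {e : ℝ} (he : 0 ≤ e)
    (hsec : ∀ x y : Fin N → ℝ, |H69Hopf.ev P x y x y| ≤ e * area2 x y) (x y z w : Fin N → ℝ) :
    |H69Hopf.ev P x y z w| ≤ 4 / 3 * e * √(∑ i, x i ^ 2) * √(∑ i, y i ^ 2) * √(∑ i, z i ^ 2) *
      √(∑ i, w i ^ 2) := by
  change |H69Hopf.ev P x y z w| ≤ 4 / 3 * e * √(h8n x) * √(h8n y) * √(h8n z) * √(h8n w)
  have hpos : 0 ≤ 4 / 3 * e * √(h8n x) * √(h8n y) * √(h8n z) * √(h8n w) := by positivity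
  by_cases hx : h8n x = 0
  · rw [h8_zero x hx, ev_smul1, zero_mul, abs_zero]
    rw [← h8_zero x hx]
    exact hpos
  by_cases hy : h8n y = 0
  · rw [h8_zero y hy, ev_smul2, zero_mul, abs_zero]
    rw [← h8_zero y hy]
    exact hpos
  by_cases hz : h8n z = 0
  · rw [h8_zero z hz, ev_smul3, zero_mul, abs_zero]
    rw [← h8_zero z hz]
    exact hpos
  by_cases hw : h8n w = 0
  · rw [h8_zero w hw, ev_smul4, zero_mul, abs_zero]
    rw [← h8_zero w hw]
    exact hpos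
  obtain ⟨u, hu, hxu⟩ := h8_norm x hx
  obtain ⟨v, hv, hyv⟩ := h8_norm y hy
  obtain ⟨s, hs, hzs⟩ := h8_norm z hz
  obtain ⟨t, ht, hwt⟩ := h8_norm w hw
  have h1 : H69Hopf.ev P x y z w = √(h8n x) * (√(h8n y) * (√(h8n z) * (√(h8n w) *
      H69Hopf.ev P u v s t))) := by
    rw [← ev_smul4, ← ev_smul3, ← ev_smul2, ← ev_smul1, ← hxu, ← hyv, ← hzs, ← hwt]
  rw [h1, abs_mul, abs_mul, abs_mul, abs_mul, abs_of_nonneg (Real.sqrt_nonneg _),
    abs_of_nonneg (Real.sqrt_nonneg _), abs_of_nonneg (Real.sqrt_nonneg _),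
    abs_of_nonneg (Real.sqrt_nonneg _)]
  have h2 := h8_unit hP he hsec u v s t hu hv hs ht
  calc √(h8n x) * (√(h8n y) * (√(h8n z) * (√(h8n w) * |H69Hopf.ev P u v s t|)))
      ≤ √(h8n x) * (√(h8n y) * (√(h8n z) * (√(h8n w) * (4 / 3 * e)))) := by gcongr
    _ = _ := by ring

/-- From real to complex vectors in one argument. -/
theorem h8_cx {N : ℕ} (f : (Fin N → ℂ) → ℂ) (C : ℝ) (hC : 0 ≤ C)
    (hadd : ∀ x : Fin N → ℂ, f x = f (fun i => ((x i).re : ℂ)) + Complex.I * f (fun i => ((x i).im : ℂ)))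
    (hr : ∀ u : Fin N → ℝ, ‖f fun i => (u i : ℂ)‖ ≤ C * √(∑ i, u i ^ 2)) (x : Fin N → ℂ) :
    ‖f x‖ ≤ √2 * C * nrm x := by
  have h1 : ‖f x‖ ≤ C * √(∑ i, (x i).re ^ 2) + C * √(∑ i, (x i).im ^ 2) := by
    rw [hadd x]
    refine (norm_add_le _ _).trans ?_
    rw [norm_mul, Complex.norm_I, one_mul]
    exact add_le_add (hr _) (hr _)
  have h2 : ∑ i, (x i).re ^ 2 + ∑ i, (x i).im ^ 2 = ∑ i, ‖x i‖ ^ 2 := by
    rw [← Finset.sum_add_distrib]
    refine Finset.sum_congr rfl fun i _ => ?_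
    rw [Complex.sq_norm, Complex.normSq_apply]
    ring
  set p := ∑ i, (x i).re ^ 2 with hp
  set q := ∑ i, (x i).im ^ 2 with hq
  have hp0 : 0 ≤ p := Finset.sum_nonneg fun _ _ => by positivity
  have hq0 : 0 ≤ q := Finset.sum_nonneg fun _ _ => by positivity
  have h3 : √p + √q ≤ √2 * nrm x := by
    unfold nrm
    rw [← h2, ← Real.sqrt_mul (by norm_num)]
    apply Real.le_sqrt_of_sq_le
    have hp1 := Real.sq_sqrt hp0
    have hq1 := Real.sq_sqrt hq0
    nlinarith [sq_nonneg (√p - √q)]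
  calc ‖f x‖ ≤ C * √p + C * √q := h1
    _ = C * (√p + √q) := by ring
    _ ≤ C * (√2 * nrm x) := by gcongr
    _ = √2 * C * nrm x := by ring

/-- The complex form. -/
noncomputable def h8F {N : ℕ} (P : Arr N) (x y z w : Fin N → ℂ) : ℂ :=
  ∑ i, ∑ j, ∑ k, ∑ l, (P i j k l : ℂ) * x i * y j * z k * w l

theorem rb_of_sec {N : ℕ} {P : Arr N} (hP : IsAlgCurv P) {e : ℝ} (he : 0 ≤ e)
    (hsec : ∀ x y : Fin N → ℝ, |H69Hopf.ev P x y x y| ≤ e * area2 x y) : RB (RC P) (16 / 3 * e) := by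
  have hsplit : ∀ c : ℂ, c = (c.re : ℂ) + Complex.I * (c.im : ℂ) := by
    intro c
    conv_lhs => rw [← Complex.re_add_im c]
    ring
  have h0 : ∀ x y z w : Fin N → ℝ, ‖h8F P (fun i => (x i : ℂ)) (fun i => (y i : ℂ))
      (fun i => (z i : ℂ)) (fun i => (w i : ℂ))‖ ≤
      4 / 3 * e * √(∑ i, x i ^ 2) * √(∑ i, y i ^ 2) * √(∑ i, z i ^ 2) * √(∑ i, w i ^ 2) := by
    intro x y z w
    have h1 : h8F P (fun i => (x i : ℂ)) (fun i => (y i : ℂ)) (fun i => (z i : ℂ))
        (fun i => (w i : ℂ)) = ((H69Hopf.ev P x y z w : ℝ) : ℂ) := by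
      unfold h8F H69Hopf.ev
      push_cast
      rfl
    rw [h1, Complex.norm_real]
    exact ev_le hP he hsec x y z w
  have h4 : ∀ (x y z : Fin N → ℝ) (w : Fin N → ℂ), ‖h8F P (fun i => (x i : ℂ)) (fun i => (y i : ℂ))
      (fun i => (z i : ℂ)) w‖ ≤
      √2 * (4 / 3 * e * √(∑ i, x i ^ 2) * √(∑ i, y i ^ 2) * √(∑ i, z i ^ 2)) * nrm w := by
    intro x y z w
    refine h8_cx (fun w => h8F P (fun i => (x i : ℂ)) (fun i => (y i : ℂ)) (fun i => (z i : ℂ)) w)
      _ (by positivity) ?_ (fun u => h0 x y z u) w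
    intro w
    simp only [h8F, Finset.mul_sum, ← Finset.sum_add_distrib]
    refine Finset.sum_congr rfl fun a _ => Finset.sum_congr rfl fun b _ =>
      Finset.sum_congr rfl fun c _ => Finset.sum_congr rfl fun d _ => ?_
    conv_lhs => rw [hsplit (w d)]
    ring
  have h3 : ∀ (x y : Fin N → ℝ) (z w : Fin N → ℂ), ‖h8F P (fun i => (x i : ℂ)) (fun i => (y i : ℂ))
      z w‖ ≤ √2 * (√2 * (4 / 3 * e * √(∑ i, x i ^ 2) * √(∑ i, y i ^ 2)) * nrm w) * nrm z := by
    intro x y z w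
    refine h8_cx (fun z => h8F P (fun i => (x i : ℂ)) (fun i => (y i : ℂ)) z w)
      _ (by have := nrm_nonneg w; positivity) ?_
      (fun u => (h4 x y u w).trans (le_of_eq (by ring))) z
    intro z
    simp only [h8F, Finset.mul_sum, ← Finset.sum_add_distrib]
    refine Finset.sum_congr rfl fun a _ => Finset.sum_congr rfl fun b _ =>
      Finset.sum_congr rfl fun c _ => Finset.sum_congr rfl fun d _ => ?_
    conv_lhs => rw [hsplit (z c)]
    ring
  have h2 : ∀ (x : Fin N → ℝ) (y z w : Fin N → ℂ), ‖h8F P (fun i => (x i : ℂ)) y z w‖ ≤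
      √2 * (√2 * (√2 * (4 / 3 * e * √(∑ i, x i ^ 2)) * nrm w) * nrm z) * nrm y := by
    intro x y z w
    refine h8_cx (fun y => h8F P (fun i => (x i : ℂ)) y z w)
      _ (by have := nrm_nonneg w; have := nrm_nonneg z; positivity) ?_
      (fun u => (h3 x u z w).trans (le_of_eq (by ring))) y
    intro y
    simp only [h8F, Finset.mul_sum, ← Finset.sum_add_distrib]
    refine Finset.sum_congr rfl fun a _ => Finset.sum_congr rfl fun b _ =>
      Finset.sum_congr rfl fun c _ => Finset.sum_congr rfl fun d _ => ?_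
    conv_lhs => rw [hsplit (y b)]
    ring
  intro x y z w
  have h1 : ‖h8F P x y z w‖ ≤ √2 * (√2 * (√2 * (√2 * (4 / 3 * e) * nrm w) * nrm z) * nrm y) * nrm x := by
    refine h8_cx (fun x => h8F P x y z w)
      _ (by have := nrm_nonneg w; have := nrm_nonneg z; have := nrm_nonneg y; positivity) ?_
      (fun u => (h2 u y z w).trans (le_of_eq (by ring))) x
    intro x
    simp only [h8F, Finset.mul_sum, ← Finset.sum_add_distrib]
    refine Finset.sum_congr rfl fun a _ => Finset.sum_congr rfl fun b _ =>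
      Finset.sum_congr rfl fun c _ => Finset.sum_congr rfl fun d _ => ?_
    conv_lhs => rw [hsplit (x a)]
    ring
  refine h1.trans (le_of_eq ?_)
  have h5 : √2 * √2 = (2 : ℝ) := Real.mul_self_sqrt (by norm_num)
  linear_combination (4 / 3 * e * nrm w * nrm z * nrm y * nrm x) * (√2 * √2 + 2) * h5

end Pool.Agent.H46P
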