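import Pool.Agent.Lib.H46P.H7
import Pool.Agent.Lib.H46P.H8
import Pool.Agent.Lib.H69.Hopf.Rec

/-!
# Chunk H9: the pointwise pinching theorem

`κ = (a+b)/2`, `e = (b-a)/2`, `P = R + κ idA`, so `R = P - κ idA`; sectional curvatures of `P` in `[-e, e]`
(`ev_idA`: `ev idA x y x y = area2 x y`). `rb_of_sec`, `gb_sign'` with `lam = ⌈log (8 n)⌉`:
`8 n ≤ exp lam`, `lam + 5 ≤ log n + log 8 + 6 ≤ 9 (1 + log n)` (`log 8 < 3`), so with `ℓ = 1 + log n`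
`16 e^2 * 17 * 36 (lam+5)^3 * 160 * 16/3 * e' ≤ 16 * 7.4 * 17 * 36 * 729 * 160 * 16/3 ℓ^3 e' ≤ 4.6 * 10^10 ℓ^3 e'`
must be `≤ κ/100`; `e' ≤ b/(2 * 10^13 ℓ^3)`, `κ ≥ b/3`.
If `a > b` the hypothesis fails on `x = e_0`, `y = e_1` (see `Results/MP_5a30bb_gt/Pinching.lean`); if
`a ≤ b` then `e' ≥ 0`.
-/

namespace Pool.Agent.H46P

open Finset Pool.Agent.H69Hopf
open scoped BigOperators

theorem h9_lam (n : ℕ) (hn : 1 ≤ n) : ∃ lam : ℕ, (8 * n : ℝ) ≤ Real.exp lam ∧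
    (lam : ℝ) + 5 ≤ 9 * (1 + Real.log n) := by
  have hn' : (1 : ℝ) ≤ n := by exact_mod_cast hn
  have hlog : 0 ≤ Real.log n := Real.log_nonneg hn'
  have h8 : Real.log 8 < 3 := by
    have h1 : Real.log 8 = 3 * Real.log 2 := by
      rw [show (8 : ℝ) = 2 ^ (3 : ℕ) by norm_num, Real.log_pow]
      norm_num
    rw [h1]
    have := Real.log_two_lt_d9
    linarith
  have hl : Real.log (8 * n) = Real.log 8 + Real.log n :=
    Real.log_mul (by norm_num) (by linarith)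
  refine ⟨⌈Real.log (8 * n)⌉₊, ?_, ?_⟩
  · rw [← Real.log_le_iff_le_exp (by linarith)]
    exact Nat.le_ceil _
  · have h0 : 0 ≤ Real.log (8 * n) := Real.log_nonneg (by linarith)
    have h1 := (Nat.ceil_lt_add_one h0).le
    linarith

theorem h9_num {L lam e b k : ℝ} (hL : 1 ≤ L) (hlam0 : 0 ≤ lam) (hlam : lam + 5 ≤ 9 * L) (he0 : 0 ≤ e)
    (hb : 0 < b) (he : e ≤ b / (2 * (10 ^ 13 * L ^ 3))) (hk : b / 3 ≤ k) :
    16 * Real.exp 1 ^ 2 * (17 * (6 * (lam + 5)) ^ 2 * (5 + lam)) * (160 * (16 / 3 * e)) ≤ k / 100 := by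
  have hE : Real.exp 1 ^ 2 ≤ 7.4 := by
    have h1 := Real.exp_one_lt_d9
    have h0 := Real.exp_pos 1
    nlinarith
  have hL0 : 0 < L := by linarith
  have h3 : (lam + 5) ^ 3 ≤ (9 * L) ^ 3 := pow_le_pow_left₀ (by linarith) hlam 3
  have h4 : 17 * (6 * (lam + 5)) ^ 2 * (5 + lam) ≤ 17 * 36 * (9 * L) ^ 3 := by
    have : 17 * (6 * (lam + 5)) ^ 2 * (5 + lam) = 17 * 36 * (lam + 5) ^ 3 := by ring
    rw [this]
    linarith
  have h5 : 16 * Real.exp 1 ^ 2 * (17 * (6 * (lam + 5)) ^ 2 * (5 + lam)) ≤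
      16 * 7.4 * (17 * 36 * (9 * L) ^ 3) := by
    refine mul_le_mul (by linarith) h4 (by positivity) (by norm_num)
  have h6 : 160 * (16 / 3 * e) ≤ 160 * (16 / 3 * (b / (2 * (10 ^ 13 * L ^ 3)))) := by
    linarith
  refine (mul_le_mul h5 h6 (by positivity) (by positivity)).trans ?_
  have h7 : 16 * 7.4 * (17 * 36 * (9 * L) ^ 3) * (160 * (16 / 3 * (b / (2 * (10 ^ 13 * L ^ 3))))) =
      (16 * 7.4 * 17 * 36 * 729 * 160 * 16 / 3 / 2 / 10 ^ 13) * b := by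
    field_simp
    ring
  rw [h7]
  linarith

theorem pointwise_neg (n : ℕ) (hn : 1 ≤ n) (R : Arr (2 * n)) (hR : IsAlgCurv R) (a b : ℝ)
    (hb : 0 < b) (hab : (1 - 1 / (10 ^ 13 * (1 + Real.log n) ^ 3)) * b ≤ a)
    (hsec : ∀ x y : Fin (2 * n) → ℝ,
      -b * area2 x y ≤ H69Hopf.ev R x y x y ∧ H69Hopf.ev R x y x y ≤ -a * area2 x y) :
    0 < (-1) ^ n * gaussBonnet n R := by
  have hba : a ≤ b := by
    have h1 := hsec (Pi.single ⟨0, by omega⟩ 1) (Pi.single ⟨1, by omega⟩ 1)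
    have h2 : area2 (Pi.single (⟨0, by omega⟩ : Fin (2 * n)) (1 : ℝ) : Fin (2 * n) → ℝ)
        (Pi.single (⟨1, by omega⟩ : Fin (2 * n)) (1 : ℝ)) = 1 := by
      simp [area2, Pi.single_apply]
    rw [h2] at h1
    linarith [h1.1, h1.2]
  have hn' : (1 : ℝ) ≤ n := by exact_mod_cast hn
  have hlog : 0 ≤ Real.log n := Real.log_nonneg hn'
  obtain ⟨L, hLdef⟩ : ∃ L, L = 1 + Real.log n := ⟨_, rfl⟩
  rw [← hLdef] at hab
  have hL : 1 ≤ L := by rw [hLdef]; linarith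
  obtain ⟨lam, hlam1, hlam2⟩ := h9_lam n hn
  rw [← hLdef] at hlam2
  obtain ⟨k, hk⟩ : ∃ k, k = (a + b) / 2 := ⟨_, rfl⟩
  obtain ⟨e, he⟩ : ∃ e, e = (b - a) / 2 := ⟨_, rfl⟩
  have he0 : 0 ≤ e := by rw [he]; linarith
  have hL3 : 0 < 10 ^ 13 * L ^ 3 := by positivity
  have hq : (1 - 1 / (10 ^ 13 * L ^ 3)) * b = b - b / (10 ^ 13 * L ^ 3) := by
    field_simp
  rw [hq] at hab
  have heb : e ≤ b / (2 * (10 ^ 13 * L ^ 3)) := by
    have h1 : b / (2 * (10 ^ 13 * L ^ 3)) = b / (10 ^ 13 * L ^ 3) / 2 := by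
      field_simp
    rw [h1, he]
    linarith
  have hk3 : b / 3 ≤ k := by
    have h1 : b / (10 ^ 13 * L ^ 3) ≤ b / 2 := by
      apply div_le_div_of_nonneg_left hb.le (by norm_num)
      have : 1 ≤ L ^ 3 := one_le_pow₀ hL
      nlinarith
    rw [hk]
    linarith
  have hk0 : 0 < k := by linarith
  have hP := algCurv_sub_idA hR (-k)
  have hsecP : ∀ x y : Fin (2 * n) → ℝ,
      |H69Hopf.ev (fun i j k' l => R i j k' l - -k * idA (2 * n) i j k' l) x y x y| ≤ e * area2 x y := by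
    intro x y
    rw [ev_sub_idA]
    obtain ⟨h1, h2⟩ := hsec x y
    rw [abs_le, hk, he]
    constructor <;> linarith
  have hRB := rb_of_sec hP he0 hsecP
  have hmain := gb_sign' n hn _ hP (ρ := 16 / 3 * e) (k := k) (by positivity) hk0 hRB hlam1
    (h9_num hL (Nat.cast_nonneg lam) hlam2 he0 hb heb hk3)
  have hfin : (fun i j a' l => (fun i j k' l => R i j k' l - -k * idA (2 * n) i j k' l) i j a' l +
      (-k) * idA (2 * n) i j a' l) = R := by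
    funext i j a' l
    ring
  rw [hfin] at hmain
  exact hmain

end Pool.Agent.H46P
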