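import Pool.Agent.Lib.H46P.G4

/-!
# Majorana version, part 1: commutators with `B = ω + V`, `V` an arbitrary quartic form on all modes

`Vg T = ∑ T i j k l c_i c_j c_k c_l`, `c_i` the creation operators of all `N + N` modes, `T` alternating.
-/

namespace Pool.Agent.H46P

open Finset
open scoped BigOperators ComplexConjugate InnerProductSpace

variable {N : ℕ}

/-- alternating four index arrays -/
structure AltT {m : ℕ} (T : R4 m) : Prop where
  s1 : ∀ i j k l, T j i k l = - T i j k l
  s2 : ∀ i j k l, T i k j l = - T i j k l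
  s3 : ∀ i j k l, T i j l k = - T i j k l

/-- `∑ T_ijkl c_i c_j c_k c_l` over all modes -/
noncomputable def Vg {m : ℕ} (T : R4 m) : Fk m →L[ℂ] Fk m :=
  ∑ i, ∑ j, ∑ k, ∑ l, T i j k l •
    (fA (i, true) * fA (j, true) * fA (k, true) * fA (l, true))

/-- `[a_p, V]` -/
noncomputable def dVg {m : ℕ} (T : R4 m) (p : Fin m) : Fk m →L[ℂ] Fk m :=
  (4 : ℂ) • ∑ j, ∑ k, ∑ l, T p j k l • (fA (j, true) * fA (k, true) * fA (l, true))

theorem m1_abs {𝓡 : Type*} [Ring 𝓡] [Algebra ℂ 𝓡] {m : ℕ} (c : Fin m → 𝓡) (a : 𝓡) {T : R4 m}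
    (hT : AltT T) (p : Fin m) (hac : ∀ i, a * c i + c i * a = if p = i then 1 else 0) :
    a * (∑ i, ∑ j, ∑ k, ∑ l, T i j k l • (c i * c j * c k * c l)) -
      (∑ i, ∑ j, ∑ k, ∑ l, T i j k l • (c i * c j * c k * c l)) * a =
      (4 : ℂ) • ∑ j, ∑ k, ∑ l, T p j k l • (c j * c k * c l) := by
  have e : ∀ i j k l : Fin m, a * (c i * c j * c k * c l) - (c i * c j * c k * c l) * a =
      (if p = i then c j * c k * c l else 0) - (if p = j then c i * c k * c l else 0) +
      (if p = k then c i * c j * c l else 0) - (if p = l then c i * c j * c k else 0) := by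
    intro i j k l
    rw [g1_br4]
    simp only [hac]
    split_ifs <;> simp
  simp only [Finset.mul_sum, Finset.sum_mul, ← Finset.sum_sub_distrib, mul_smul_comm,
    smul_mul_assoc, ← smul_sub, e]
  simp only [smul_sub, smul_add, Finset.sum_sub_distrib, Finset.sum_add_distrib, smul_ite, smul_zero]
  have e1 : (∑ i, ∑ j, ∑ k, ∑ l, if p = i then T i j k l • (c j * c k * c l) else 0) =
      ∑ j, ∑ k, ∑ l, T p j k l • (c j * c k * c l) := by
    rw [Finset.sum_eq_single p]
    · simp
    · intro i _ hi'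
      simp [Ne.symm hi']
    · simp
  have e2 : (∑ i, ∑ j, ∑ k, ∑ l, if p = j then T i j k l • (c i * c k * c l) else 0) =
      - ∑ j, ∑ k, ∑ l, T p j k l • (c j * c k * c l) := by
    rw [← Finset.sum_neg_distrib]
    refine Finset.sum_congr rfl fun i _ => ?_
    rw [Finset.sum_eq_single p]
    · simp only [if_true, ← Finset.sum_neg_distrib]
      refine Finset.sum_congr rfl fun k _ => Finset.sum_congr rfl fun l _ => ?_
      rw [hT.s1, neg_smul]
    · intro j _ hj
      simp [Ne.symm hj]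
    · simp
  have e3 : (∑ i, ∑ j, ∑ k, ∑ l, if p = k then T i j k l • (c i * c j * c l) else 0) =
      ∑ j, ∑ k, ∑ l, T p j k l • (c j * c k * c l) := by
    refine Finset.sum_congr rfl fun i _ => Finset.sum_congr rfl fun j _ => ?_
    rw [Finset.sum_eq_single p]
    · simp only [if_true]
      refine Finset.sum_congr rfl fun l _ => ?_
      rw [hT.s2 i p j l, hT.s1 p i j l, neg_neg]
    · intro k _ hk
      simp [Ne.symm hk]
    · simp
  have e4 : (∑ i, ∑ j, ∑ k, ∑ l, if p = l then T i j k l • (c i * c j * c k) else 0) =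
      - ∑ j, ∑ k, ∑ l, T p j k l • (c j * c k * c l) := by
    rw [← Finset.sum_neg_distrib]
    refine Finset.sum_congr rfl fun i _ => ?_
    rw [← Finset.sum_neg_distrib]
    refine Finset.sum_congr rfl fun j _ => ?_
    rw [← Finset.sum_neg_distrib]
    refine Finset.sum_congr rfl fun k _ => ?_
    rw [Finset.sum_eq_single p]
    · simp only [if_true]
      rw [hT.s3 i j p k, hT.s2 i p j k, hT.s1 p i j k, neg_neg, neg_smul]
    · intro l _ hl
      simp [Ne.symm hl]
    · simp
  rw [e1, e2, e3, e4]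
  have h4 : (4 : ℂ) = 1 + 1 + 1 + 1 := by norm_num
  rw [h4]
  simp only [add_smul, one_smul]
  abel

theorem m1_abs_lo {𝓡 : Type*} [Ring 𝓡] (c d : Fin N → 𝓡) (a : 𝓡) (p : Fin N)
    (hac : ∀ i, a * c i + c i * a = if p = i then 1 else 0) (had : ∀ i, a * d i + d i * a = 0) :
    a * (∑ i, c i * d i) - (∑ i, c i * d i) * a = d p := by
  rw [Finset.mul_sum, Finset.sum_mul, ← Finset.sum_sub_distrib]
  simp only [g1_br2, hac, had]
  simp

theorem m1_abs_hi {𝓡 : Type*} [Ring 𝓡] (c d : Fin N → 𝓡) (a : 𝓡) (p : Fin N)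
    (had : ∀ i, a * d i + d i * a = if p = i then 1 else 0) (hac : ∀ i, a * c i + c i * a = 0) :
    a * (∑ i, c i * d i) - (∑ i, c i * d i) * a = - c p := by
  rw [Finset.mul_sum, Finset.sum_mul, ← Finset.sum_sub_distrib]
  simp only [g1_br2, hac, had]
  simp

theorem m1_om_lo (p : Fin N) :
    fA (lo p, false) * om N - om N * fA (lo p, false) = fA (hi p, true) :=
  m1_abs_lo (fun i => fA (lo i, true)) (fun i => fA (hi i, true)) (fA (lo p, false)) p
    (fun i => by rw [g1_ac]; simp only [g1_lo_inj])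
    (fun i => by rw [g1_ac, if_neg (g1_lo_ne_hi p i)])

theorem m1_om_hi (p : Fin N) :
    fA (hi p, false) * om N - om N * fA (hi p, false) = - fA (lo p, true) :=
  m1_abs_hi (fun i => fA (lo i, true)) (fun i => fA (hi i, true)) (fA (hi p, false)) p
    (fun i => by rw [g1_ac]; simp only [g1_hi_inj])
    (fun i => by rw [g1_ac, if_neg (g1_lo_ne_hi i p).symm])

theorem m1_V {m : ℕ} {T : R4 m} (hT : AltT T) (p : Fin m) :
    fA (p, false) * Vg T - Vg T * fA (p, false) = dVg T p :=
  m1_abs (fun i => fA (i, true)) (fA (p, false)) hT p (fun i => g1_ac p i)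

theorem gbr_lo {T : R4 (N + N)} (hT : AltT T) (p : Fin N) :
    fA (lo p, false) * (om N + Vg T) - (om N + Vg T) * fA (lo p, false) =
      fA (hi p, true) + dVg T (lo p) := by
  rw [← m1_om_lo p, ← m1_V hT (lo p)]
  noncomm_ring

theorem gbr_hi {T : R4 (N + N)} (hT : AltT T) (p : Fin N) :
    fA (hi p, false) * (om N + Vg T) - (om N + Vg T) * fA (hi p, false) =
      - fA (lo p, true) + dVg T (hi p) := by
  rw [← m1_om_hi p, ← m1_V hT (hi p)]
  noncomm_ring

theorem m1_comm_all (T : R4 (N + N)) (k : Fin (N + N)) : Commute (om N + Vg T) (fA (k, true)) := by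
  refine Commute.add_left ?_ ?_
  · unfold om
    exact Commute.sum_left _ _ _ fun i _ => g1_comm2 _ _ _
  · unfold Vg
    refine Commute.sum_left _ _ _ fun i _ => Commute.sum_left _ _ _ fun j _ =>
      Commute.sum_left _ _ _ fun k' _ => Commute.sum_left _ _ _ fun l _ => ?_
    refine Commute.smul_left ?_ _
    rw [mul_assoc]
    exact Commute.mul_left (g1_comm2 _ _ _) (g1_comm2 _ _ _)

theorem m1_comm_dV (T : R4 (N + N)) (p : Fin (N + N)) : Commute (om N + Vg T) (dVg T p) := by
  unfold dVg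
  refine Commute.smul_right ?_ _
  refine Commute.sum_right _ _ _ fun j _ => Commute.sum_right _ _ _ fun k _ =>
    Commute.sum_right _ _ _ fun l _ => ?_
  exact Commute.smul_right (((m1_comm_all T _).mul_right (m1_comm_all T _)).mul_right
    (m1_comm_all T _)) _

theorem gbr_comm_lo (T : R4 (N + N)) (p : Fin N) :
    (om N + Vg T) * (fA (hi p, true) + dVg T (lo p)) =
      (fA (hi p, true) + dVg T (lo p)) * (om N + Vg T) :=
  Commute.add_right (m1_comm_all T _) (m1_comm_dV T _)

theorem gbr_comm_hi (T : R4 (N + N)) (p : Fin N) :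
    (om N + Vg T) * (- fA (lo p, true) + dVg T (hi p)) =
      (- fA (lo p, true) + dVg T (hi p)) * (om N + Vg T) :=
  Commute.add_right (m1_comm_all T _).neg_right (m1_comm_dV T _)

end Pool.Agent.H46P
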