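import Pool.Agent.Lib.H46P.M1

/-!
# Majorana version, part 2: `ellg (L0g f) = 0`, the criterion
-/

namespace Pool.Agent.H46P

open Finset
open scoped BigOperators ComplexConjugate InnerProductSpace

variable {N : ℕ}

/-- `⟨top, exp(ω + V) f⟩` -/
noncomputable def ellg (T : R4 (N + N)) (f : Fk (N + N)) : ℂ :=
  (NormedSpace.exp (om N + Vg T) f) (univ : Finset (Fin (N + N)))

/-- the quartic part of `L0g` -/
noncomputable def UUg (T : R4 (N + N)) : Fk (N + N) →L[ℂ] Fk (N + N) :=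
  (4 : ℂ) • (∑ p : Fin N, ∑ j, ∑ k, ∑ l, T (lo p) j k l •
    (fA (j, true) * fA (k, true) * fA (l, true) * fA (hi p, false))) -
  (4 : ℂ) • (∑ p : Fin N, ∑ j, ∑ k, ∑ l, T (hi p) j k l •
    (fA (j, true) * fA (k, true) * fA (l, true) * fA (lo p, false)))

/-- `L0g = Num + 2 ∑ a_i b_i + UUg` -/
noncomputable def L0g (T : R4 (N + N)) : Fk (N + N) →L[ℂ] Fk (N + N) :=
  Num + (2 : ℂ) • Del N + UUg T

theorem m2_abs {𝓡 : Type*} [Ring 𝓡] [Algebra ℂ 𝓡] (c d a b : Fin N → 𝓡) (e : Fin (N + N) → 𝓡)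
    (T : R4 (N + N)) (hab : ∀ p, b p * a p = - (a p * b p)) :
    (∑ p, c p * a p + ∑ p, d p * b p) + (2 : ℂ) • ∑ p, a p * b p +
      ((4 : ℂ) • (∑ p : Fin N, ∑ j, ∑ k, ∑ l, T (lo p) j k l • (e j * e k * e l * b p)) -
       (4 : ℂ) • (∑ p : Fin N, ∑ j, ∑ k, ∑ l, T (hi p) j k l • (e j * e k * e l * a p))) =
    ∑ p, ((a p + (d p + (4 : ℂ) • ∑ j, ∑ k, ∑ l, T (lo p) j k l • (e j * e k * e l))) * b p -
      (b p + (- c p + (4 : ℂ) • ∑ j, ∑ k, ∑ l, T (hi p) j k l • (e j * e k * e l))) * a p) := by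
  have e1 : (∑ p : Fin N, ∑ j, ∑ k, ∑ l, T (hi p) j k l • (e j * e k * e l * a p)) =
      ∑ p, (∑ j, ∑ k, ∑ l, T (hi p) j k l • (e j * e k * e l)) * a p := by
    simp only [Finset.sum_mul, smul_mul_assoc]
  have e2 : (∑ p : Fin N, ∑ j, ∑ k, ∑ l, T (lo p) j k l • (e j * e k * e l * b p)) =
      ∑ p, (∑ j, ∑ k, ∑ l, T (lo p) j k l • (e j * e k * e l)) * b p := by
    simp only [Finset.sum_mul, smul_mul_assoc]
  rw [e1, e2, Finset.smul_sum, Finset.smul_sum, Finset.smul_sum, ← Finset.sum_add_distrib,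
    ← Finset.sum_add_distrib, ← Finset.sum_sub_distrib, ← Finset.sum_add_distrib]
  refine Finset.sum_congr rfl fun p _ => ?_
  rw [add_mul, add_mul, add_mul, add_mul, hab, smul_mul_assoc, smul_mul_assoc, two_smul, neg_mul]
  abel

theorem m2_l0 (T : R4 (N + N)) : L0g T = ∑ p : Fin N,
    ((fA (lo p, false) + (fA (hi p, true) + dVg T (lo p))) * fA (hi p, false) -
      (fA (hi p, false) + (- fA (lo p, true) + dVg T (hi p))) * fA (lo p, false)) := by
  have h := m2_abs (fun p : Fin N => fA (lo p, true)) (fun p : Fin N => fA (hi p, true))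
    (fun p : Fin N => fA (lo p, false)) (fun p : Fin N => fA (hi p, false))
    (fun q : Fin (N + N) => fA (q, true)) T (by
      intro p
      have h := (fock_car (N + N)).car (hi p, false) (lo p, false)
      rw [if_neg (by simp [sg])] at h
      exact eq_neg_of_add_eq_zero_left h)
  refine Eq.trans ?_ h
  unfold L0g UUg Del
  have hn : Num (m := N + N) = ∑ p : Fin N, fA (lo p, true) * fA (lo p, false) +
      ∑ p : Fin N, fA (hi p, true) * fA (hi p, false) := by
    rw [num_eq, Fin.sum_univ_add]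
    rfl
  rw [hn]

theorem m2_ell_zero (T : R4 (N + N)) (i : Fin (N + N)) (X : Fk (N + N) →L[ℂ] Fk (N + N))
    (h : fA (i, false) * (om N + Vg T) - (om N + Vg T) * fA (i, false) = X)
    (h2 : (om N + Vg T) * X = X * (om N + Vg T)) (g : Fk (N + N)) :
    ellg T ((fA (i, false) + X) g) = 0 := by
  have h3 : fA (i, false) * NormedSpace.exp (om N + Vg T) =
      NormedSpace.exp (om N + Vg T) * (fA (i, false) - (-X)) := by
    refine exp_conj ?_ ?_
    · rw [← h]
      exact (neg_sub _ _).symm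
    · exact (mul_neg _ _).trans ((congrArg Neg.neg h2).trans (neg_mul _ _).symm)
  have h4 : fA (i, false) - (-X) = fA (i, false) + X := sub_neg_eq_add _ _
  rw [h4] at h3
  unfold ellg
  have h5 := congrArg (fun Y : Fk (N + N) →L[ℂ] Fk (N + N) => (Y g) (univ : Finset (Fin (N + N)))) h3
  refine h5.symm.trans ?_
  exact ann_univ i _

theorem m2_ell_sum (T : R4 (N + N)) (s : Finset (Fin N)) (F : Fin N → Fk (N + N))
    (h : ∀ p ∈ s, ellg T (F p) = 0) : ellg T (∑ p ∈ s, F p) = 0 := by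
  unfold ellg at *
  rw [map_sum]
  have : ∀ (G : Fin N → Fk (N + N)), (∑ p ∈ s, G p) (univ : Finset (Fin (N + N))) =
      ∑ p ∈ s, (G p) (univ : Finset (Fin (N + N))) := by
    intro G
    simp
  rw [this]
  exact Finset.sum_eq_zero h

theorem m2_ell_sub (T : R4 (N + N)) (f g : Fk (N + N)) : ellg T (f - g) = ellg T f - ellg T g := by
  unfold ellg
  rw [map_sub]
  rfl

theorem ellg_L0g {T : R4 (N + N)} (hT : AltT T) (f : Fk (N + N)) : ellg T (L0g T f) = 0 := by
  rw [m2_l0, _root_.sum_apply]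
  refine m2_ell_sum T _ _ fun p _ => ?_
  have h1 := m2_ell_zero T (lo p) _ (gbr_lo hT p) (gbr_comm_lo T p) (fA (hi p, false) f)
  have h2 := m2_ell_zero T (hi p) _ (gbr_hi hT p) (gbr_comm_hi T p) (fA (lo p, false) f)
  have h3 := m2_ell_sub T ((fA (lo p, false) + (fA (hi p, true) + dVg T (lo p))) (fA (hi p, false) f))
    ((fA (hi p, false) + (- fA (lo p, true) + dVg T (hi p))) (fA (lo p, false) f))
  rw [h1, h2, sub_zero] at h3
  exact h3

theorem l0g_vac (T : R4 (N + N)) : L0g T vac = 0 := by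
  rw [m2_l0, _root_.sum_apply]
  refine Finset.sum_eq_zero fun p _ => ?_
  show (fA (lo p, false) + (fA (hi p, true) + dVg T (lo p))) (fA (hi p, false) vac) -
    (fA (hi p, false) + (- fA (lo p, true) + dVg T (hi p))) (fA (lo p, false) vac) = 0
  rw [ann_vac, ann_vac, map_zero, map_zero, sub_zero]

theorem criteriong {T : R4 (N + N)} (hT : AltT T)
    (h : ∀ (f : Fk (N + N)) (c : ℂ), L0g T f = c • vac → ∃ c' : ℂ, f = c' • vac) :
    ellg T vac ≠ 0 := by
  intro h0
  have hvac : (vac : Fk (N + N)) (∅ : Finset (Fin (N + N))) = 1 := by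
    rw [e2_vac_apply, if_pos rfl]
  let M : Fk (N + N) →ₗ[ℂ] Fk (N + N) :=
    { toFun := fun f => L0g T f + (f (∅ : Finset (Fin (N + N)))) • vac
      map_add' := by
        intro f g
        rw [map_add, PiLp.add_apply, add_smul]
        abel
      map_smul' := by
        intro a f
        rw [map_smul, PiLp.smul_apply, RingHom.id_apply, smul_add, smul_smul]
        rfl }
  have hinj : Function.Injective M := by
    rw [← LinearMap.ker_eq_bot, LinearMap.ker_eq_bot']
    intro f hf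
    have h1 : L0g T f + (f (∅ : Finset (Fin (N + N)))) • vac = 0 := hf
    have h2 : L0g T f = (-(f (∅ : Finset (Fin (N + N))))) • vac := by
      rw [neg_smul]
      exact eq_neg_of_add_eq_zero_left h1
    obtain ⟨c', hc'⟩ := h f _ h2
    have h3 : L0g T f = 0 := by rw [hc', map_smul, l0g_vac, smul_zero]
    rw [h3, zero_add] at h1
    have h4 : f (∅ : Finset (Fin (N + N))) = 0 := by
      rcases smul_eq_zero.1 h1 with h5 | h5
      · exact h5
      · exact absurd h5 vac_ne_zero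
    have h5 : f (∅ : Finset (Fin (N + N))) = c' := by
      rw [hc', PiLp.smul_apply, hvac, smul_eq_mul, mul_one]
    rw [hc', ← h5, h4, zero_smul]
  have hsurj : Function.Surjective M := LinearMap.injective_iff_surjective.1 hinj
  have hlin : ∀ (f g : Fk (N + N)) (c : ℂ), ellg T (f + c • g) = ellg T f + c * ellg T g := by
    intro f g c
    unfold ellg
    rw [map_add, map_smul, PiLp.add_apply, PiLp.smul_apply, smul_eq_mul]
  have hzero : ∀ g : Fk (N + N), ellg T g = 0 := by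
    intro g
    obtain ⟨f, hf⟩ := hsurj g
    have h1 : g = L0g T f + (f (∅ : Finset (Fin (N + N)))) • vac := hf.symm
    rw [h1, hlin, ellg_L0g hT, h0, mul_zero, add_zero]
  obtain ⟨u, hu⟩ : IsUnit (NormedSpace.exp (om N + Vg T)) := g4_unit _
  have h1 := hzero (((u⁻¹ : (Fk (N + N) →L[ℂ] Fk (N + N))ˣ) : Fk (N + N) →L[ℂ] Fk (N + N))
    (EuclideanSpace.single univ 1))
  unfold ellg at h1
  rw [← hu] at h1
  have h2 : (u : Fk (N + N) →L[ℂ] Fk (N + N)) (((u⁻¹ : (Fk (N + N) →L[ℂ] Fk (N + N))ˣ) : Fk (N + N) →L[ℂ] Fk (N + N))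
      (EuclideanSpace.single univ 1)) = EuclideanSpace.single univ 1 := by
    rw [← ContinuousLinearMap.mul_apply, Units.mul_inv, ContinuousLinearMap.one_apply]
  rw [h2] at h1
  simp at h1

end Pool.Agent.H46P
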