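import Pool.Agent.Lib.H46P.M2
import Pool.Agent.Lib.H46P.G5

/-!
# Majorana version, part 3: the tensor of `UUg` and zero-freeness for alternating forms
-/

namespace Pool.Agent.H46P

open Finset
open scoped BigOperators ComplexConjugate InnerProductSpace

variable {N : ℕ}

/-- the partner mode -/
def prt (q : Fin (N + N)) : Fin (N + N) := Fin.addCases (fun p => hi p) (fun p => lo p) q

/-- the sign -/
def psg (q : Fin (N + N)) : ℂ := Fin.addCases (fun _ => 1) (fun _ => -1) q

theorem prt_lo (p : Fin N) : prt (Fin.castAdd N p) = hi p := by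
  unfold prt
  exact Fin.addCases_left p
theorem prt_hi (p : Fin N) : prt (Fin.natAdd N p) = lo p := by
  unfold prt
  exact Fin.addCases_right p
theorem psg_lo (p : Fin N) : psg (Fin.castAdd N p) = 1 := by
  unfold psg
  exact Fin.addCases_left p
theorem psg_hi (p : Fin N) : psg (Fin.natAdd N p) = -1 := by
  unfold psg
  exact Fin.addCases_right p

theorem prt_prt (q : Fin (N + N)) : prt (prt q) = q := by
  refine Fin.addCases (fun p => ?_) (fun p => ?_) q
  · rw [prt_lo]
    exact prt_hi p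
  · rw [prt_hi]
    exact prt_lo p

theorem prt_inj : Function.Injective (prt (N := N)) := fun a b h => by
  rw [← prt_prt a, h, prt_prt]

theorem norm_psg (q : Fin (N + N)) : ‖psg q‖ = 1 := by
  refine Fin.addCases (fun p => ?_) (fun p => ?_) q
  · rw [psg_lo, norm_one]
  · rw [psg_hi, norm_neg, norm_one]

/-- the tensor -/
noncomputable def m3U (T : R4 (N + N)) : List (Lt (N + N)) → ℂ := fun L =>
  4 * ∑ q, ∑ j, ∑ k, ∑ l, (T q j k l * psg q) * g3e (j, true) (k, true) (l, true) (prt q, false) L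

/-- the form -/
noncomputable def m3F (T : R4 (N + N)) (a b c d : Lt (N + N) → ℂ) : ℂ :=
  ∑ q, ∑ j, ∑ k, ∑ l, T q j k l * (psg q * d (prt q, false)) * a (j, true) * b (k, true) * c (l, true)

theorem m3_nrm (d : Lt (N + N) → ℂ) : nrm (fun q => psg q * d (prt q, false)) ≤ nrm d := by
  have h1 : nrm (fun q => psg q * d (prt q, false)) = nrm (fun q : Fin (N + N) => d (prt q, false)) := by
    unfold nrm
    congr 1
    refine Finset.sum_congr rfl fun q _ => ?_
    rw [norm_mul, norm_psg, one_mul]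
  rw [h1]
  exact g3_nrm_le d (fun q : Fin (N + N) => (prt q, false)) fun x y h => prt_inj (Prod.mk.inj h).1

theorem m3_t (b : Bool) : Function.Injective (fun i : Fin (N + N) => ((i, b) : Lt (N + N))) :=
  fun _ _ h => (Prod.mk.inj h).1

theorem m3_F {T : R4 (N + N)} {ρ : ℝ} (hρ : 0 ≤ ρ) (hT : RB T ρ) (a b c d : Lt (N + N) → ℂ) :
    ‖m3F T a b c d‖ ≤ ρ * nrm a * nrm b * nrm c * nrm d := by
  refine (hT (fun q => psg q * d (prt q, false)) (fun j => a (j, true)) (fun k => b (k, true))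
    (fun l => c (l, true))).trans ?_
  have h1 := m3_nrm d
  have h2 := g3_nrm_le a _ (m3_t (N := N) true)
  have h3 := g3_nrm_le b _ (m3_t (N := N) true)
  have h4 := g3_nrm_le c _ (m3_t (N := N) true)
  have e : ρ * nrm a * nrm b * nrm c * nrm d = ρ * nrm d * nrm a * nrm b * nrm c := by ring
  rw [e]
  have := nrm_nonneg d
  have := nrm_nonneg a
  have := nrm_nonneg b
  have := nrm_nonneg c
  have := nrm_nonneg (fun q => psg q * d (prt q, false))
  have := nrm_nonneg (fun j => a (j, true))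
  have := nrm_nonneg (fun j => b (j, true))
  have := nrm_nonneg (fun j => c (j, true))
  gcongr

theorem m3_ev (T : R4 (N + N)) (a b c d : Lt (N + N) → ℂ) :
    ev [a, b, c, d] (m3U T) = 4 * ((1 / 6 : ℂ) * (m3F T a b c d - m3F T b a c d - m3F T a c b d -
      m3F T c b a d + m3F T c a b d + m3F T b c a d)) := by
  unfold m3U m3F
  rw [ev_smul]
  simp only [ev_sum, ev_smul, g3_ev_e]
  simp only [← Finset.sum_sub_distrib, ← Finset.sum_add_distrib, Finset.mul_sum]
  refine Finset.sum_congr rfl fun p _ => Finset.sum_congr rfl fun j _ =>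
      Finset.sum_congr rfl fun k _ => Finset.sum_congr rfl fun l _ => ?_
  ring

theorem m3_inj {T : R4 (N + N)} {ρ : ℝ} (hρ : 0 ≤ ρ) (hT : RB T ρ) : Inj 4 (m3U T) (4 * ρ) := by
  intro xs hxs
  obtain ⟨a, b, c, d, rfl⟩ : ∃ a b c d, xs = [a, b, c, d] := by
    match xs, hxs with
    | [a, b, c, d], _ => exact ⟨a, b, c, d, rfl⟩
  have h1 : ‖(1 / 6 : ℂ) * (m3F T a b c d - m3F T b a c d - m3F T a c b d -
      m3F T c b a d + m3F T c a b d + m3F T b c a d)‖ ≤ ρ * (nrm a * nrm b * nrm c * nrm d) := by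
    refine g3_six ?_ ?_ ?_ ?_ ?_ ?_
    all_goals
      refine (m3_F hρ hT _ _ _ _).trans (le_of_eq ?_)
      ring
  have e2 : (List.map nrm [a, b, c, d]).prod = nrm a * nrm b * nrm c * nrm d := by
    simp [mul_assoc]
  rw [m3_ev, e2, norm_mul]
  have e3 : ‖(4 : ℂ)‖ = 4 := by norm_num
  rw [e3]
  linarith

theorem m3_U_pat (T : R4 (N + N)) : Pat 3 1 (m3U T) := by
  intro L _ hne
  by_contra hL
  apply hne
  have hL' : L.map Prod.snd ≠ [true, true, true, false] := by
    intro h
    apply hL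
    rw [h]
    rfl
  have h : ∀ i j k l : Fin (N + N), g3e (i, true) (j, true) (k, true) (l, false) L = 0 :=
    fun i j k l => g3_pat rfl rfl rfl rfl hL'
  unfold m3U
  simp only [h, mul_zero, Finset.sum_const_zero]

theorem m3_U_as (T : R4 (N + N)) : AS (m3U T) := by
  intro i j k q
  unfold uc m3U
  constructor
  · simp only [g3_anti1 _ _ _ _ (i, true) (j, true), mul_neg, Finset.sum_neg_distrib]
  · simp only [g3_anti2 _ _ _ _ _ (j, true) (k, true), mul_neg, Finset.sum_neg_distrib]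

theorem m3_op_abs {𝓡 : Type*} [Ring 𝓡] [Algebra ℂ 𝓡] (A : Lt (N + N) → 𝓡) (T : R4 (N + N))
    (hA : ∀ i j, A (j, true) * A (i, true) = - (A (i, true) * A (j, true))) :
    op A 4 (m3U T) = (4 : ℂ) • (∑ p : Fin N, ∑ j, ∑ k, ∑ l, T (lo p) j k l •
    (A (j, true) * A (k, true) * A (l, true) * A (hi p, false))) -
  (4 : ℂ) • (∑ p : Fin N, ∑ j, ∑ k, ∑ l, T (hi p) j k l •
    (A (j, true) * A (k, true) * A (l, true) * A (lo p, false))) := by
  unfold m3U
  rw [op_smul]
  simp only [op_sum, op_smul]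
  have e : ∀ i j k (w : Lt (N + N)), op A 4 (g3e (i, true) (j, true) (k, true) w) =
      A (i, true) * A (j, true) * A (k, true) * A w := by
    intro i j k w
    exact g3_op_e A _ _ _ _ (hA _ _) (hA _ _) (hA _ _)
  simp only [e]
  rw [Fin.sum_univ_add]
  simp only [prt_lo, prt_hi, psg_lo, psg_hi, mul_one, mul_neg, neg_smul, Finset.sum_neg_distrib]
  rw [smul_add, smul_neg, ← sub_eq_add_neg]
  rfl

theorem exists_Ug {T : R4 (N + N)} {ρ : ℝ} (hρ : 0 ≤ ρ) (hT : RB T ρ) :
    ∃ U : List (Lt (N + N)) → ℂ, Uok U (4 * ρ) ∧ op fA 4 U = UUg T := by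
  refine ⟨m3U T, ⟨by positivity, m3_inj hρ hT, m3_U_pat T, m3_U_as T⟩, ?_⟩
  refine m3_op_abs fA T ?_
  intro i j
  have h := (fock_car (N + N)).car (j, true) (i, true)
  rw [if_neg (by simp [sg])] at h
  exact eq_neg_of_add_eq_zero_left h

end Pool.Agent.H46P
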