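import Pool.Agent.Lib.H46P.M3

/-!
# Majorana version, part 4: zero-freeness

`zero_freeg`: `T` alternating.  `zero_free_maj`: arbitrary `T` (antisymmetrise).
-/

namespace Pool.Agent.H46P

open Finset
open scoped BigOperators ComplexConjugate InnerProductSpace

variable {N : ℕ}

theorem zero_freeg (hN : 1 ≤ N) {R : R4 (N + N)} (hR : AltT R) {ρ : ℝ} (hρ : 0 ≤ ρ) (hb : RB R ρ)
    {lam : ℕ} (hlam : (4 * N : ℝ) ≤ Real.exp lam)
    (hsmall : 16 * Real.exp 1 ^ 2 * (17 * (6 * (lam + 5)) ^ 2 * (5 + lam)) * (4 * N) * (4 * ρ) ≤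
      1 / 100) : ellg R vac ≠ 0 := by
  classical
  have hNR : (1 : ℝ) ≤ N := by exact_mod_cast hN
  have hl0 : (0 : ℝ) ≤ lam := Nat.cast_nonneg _
  set g : ℝ := 17 * (6 * ((lam : ℝ) + 5)) ^ 2 * (5 + lam) with hg
  have hD1 : (1 : ℝ) ≤ (lam : ℝ) + 5 := by linarith
  have hgD : (lam : ℝ) + 5 ≤ g := by
    have h1 : (1 : ℝ) ≤ (6 * ((lam : ℝ) + 5)) ^ 2 := one_le_pow₀ (by linarith)
    rw [hg]
    nlinarith
  have hg1 : 1 ≤ g := by linarith
  have hg0 : 0 ≤ g := by linarith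
  set γ : ℝ := 4 * (Real.exp 1 * gam (Lt (N + N)) g) with hγdef
  have hm : ((N + N : ℕ) : ℝ) = 2 * N := by push_cast; ring
  have hgam2 : gam (Lt (N + N)) g ^ 2 = g * (4 * N) := by
    rw [g5_gam hg0, hm]
    ring
  have hgam : 0 < gam (Lt (N + N)) g := by
    have h1 : 0 ≤ gam (Lt (N + N)) g := Real.sqrt_nonneg _
    have h2 : gam (Lt (N + N)) g ≠ 0 := by
      intro h
      rw [h] at hgam2
      have : 0 < g * (4 * N) := by positivity
      rw [← hgam2] at this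
      simp at this
    exact lt_of_le_of_ne h1 (Ne.symm h2)
  have hγ : 0 < γ := by positivity
  have hγ2 : γ ^ 2 = 16 * Real.exp 1 ^ 2 * g * (4 * N) := by
    rw [hγdef, mul_pow, mul_pow, hgam2]
    ring
  obtain ⟨U, hU, hUU⟩ := exists_Ug hρ hb
  obtain ⟨J, hJ, hJd, hJc, hJo⟩ := exists_J N
  have hJw : J.w γ ≤ 1 := by
    unfold An.w
    rw [hJd, hJc, div_self (by positivity)]
    norm_num
  have he1 : 1 ≤ Real.exp 1 ^ 2 := one_le_pow₀ (Real.one_le_exp (by norm_num))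
  have hDγ : 2 * ((N + N : ℕ) : ℝ) * ((lam + 5 : ℕ) : ℝ) ≤ γ ^ 2 := by
    rw [hγ2, hm]
    push_cast
    have h1 : (lam : ℝ) + 5 ≤ 16 * Real.exp 1 ^ 2 * g := by nlinarith
    calc 2 * (2 * (N : ℝ)) * ((lam : ℝ) + 5) = ((lam : ℝ) + 5) * (4 * N) := by ring
      _ ≤ _ := mul_le_mul_of_nonneg_right h1 (by positivity)
  have hsq : 0 < √((N + N : ℕ) : ℝ) := Real.sqrt_pos.2 (by rw [hm]; positivity)
  obtain ⟨r, hr⟩ := exists_pow_lt_of_lt_one (show (0 : ℝ) < 1 / (20 * √((N + N : ℕ) : ℝ)) by positivity)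
    (show (1 / 4 : ℝ) < 1 by norm_num)
  obtain ⟨K, hK, P, Q, S, hP, hQ, hS, hPw, hQw, hSw, hfin⟩ := final_form hU hγ (by rw [hγ2]; exact hsmall)
    (D := lam + 5) (by omega) hDγ J hJ hJd hJw r
  have hne : Nonempty (Lt (N + N)) := ⟨(⟨0, by omega⟩, true)⟩
  have hpd : ∀ d ≤ 2 * (3 * (lam + 5)), Pd (fA (m := N + N)) g d := by
    refine pd_all (fock_car (N + N)) (D := 2 * (3 * (lam + 5))) (by omega) ?_
    have h1 : Real.log (Fintype.card (Lt (N + N))) ≤ lam := by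
      rw [e5_card, Real.log_le_iff_le_exp (by push_cast; positivity)]
      refine le_trans (le_of_eq ?_) hlam
      push_cast
      ring
    rw [hg]
    push_cast
    have e : (2 * (3 * ((lam : ℝ) + 5))) ^ 2 = (6 * ((lam : ℝ) + 5)) ^ 2 := by ring
    rw [e]
    apply mul_le_mul_of_nonneg_left _ (by positivity)
    linarith
  refine criteriong hR fun f c hf => ?_
  have hinv := ew_inv K
  have hvac := ew_vac K hK
  set f' : Fk (N + N) := EWi K f with hf'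
  have hback : EW K f' = f := by
    have h1 := congrArg (fun B : Fk (N + N) →L[ℂ] Fk (N + N) => B f) hinv.2
    exact h1
  have heq : Num f' + (P.map Pc.o).sum f' + (Q.map Pc.o).sum f' + (S.map Pc.o).sum f' = c • vac := by
    have h1 := congrArg (fun B : Fk (N + N) →L[ℂ] Fk (N + N) => B f') hfin
    have h2 : (EWi K * (Num + (2 : ℂ) • J.o + op fA 4 U) * EW K : Fk (N + N) →L[ℂ] Fk (N + N)) f' = c • vac := by
      show EWi K ((Num + (2 : ℂ) • J.o + op fA 4 U : Fk (N + N) →L[ℂ] Fk (N + N)) (EW K f')) = c • vac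
      rw [hback, hJo, hUU]
      have h3 : (Num + (2 : ℂ) • Del N + UUg R : Fk (N + N) →L[ℂ] Fk (N + N)) f = c • vac := hf
      rw [h3, map_smul, hvac.2]
    exact h1.symm.trans h2
  obtain ⟨c', hc'⟩ := dominance hg1 (lam := lam) (L := 3 * (lam + 5)) (m := N + N) (by omega)
    (by rw [hm]; linarith) (by omega) hpd hγdef P Q S
    (fun x hx => ⟨(hP x hx).1, (hP x hx).2.1, (hP x hx).2.2.1, by have := (hP x hx).2.2.2; omega⟩)
    (fun x hx => ⟨(hQ x hx).1, (hQ x hx).2.1, (hQ x hx).2.2.1, by have := (hQ x hx).2.2.2; omega⟩)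
    (fun x hx => ⟨(hS x hx).1, (hS x hx).2.1, (hS x hx).2.2.1, by have := (hS x hx).2.2.2; omega⟩)
    hPw hQw (by
      calc √((N + N : ℕ) : ℝ) * (S.map (Pc.w γ)).sum ≤ √((N + N : ℕ) : ℝ) * (1 / 4) ^ r :=
            mul_le_mul_of_nonneg_left hSw hsq.le
        _ ≤ √((N + N : ℕ) : ℝ) * (1 / (20 * √((N + N : ℕ) : ℝ))) := mul_le_mul_of_nonneg_left hr.le hsq.le
        _ = 1 / 20 := by field_simp)
    f' c heq
  refine ⟨c', ?_⟩
  rw [← hback, hc', map_smul, hvac.1]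

end Pool.Agent.H46P
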