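import Pool.Agent.Lib.H46P.M4
import Pool.Agent.Lib.H46P.H2

/-!
# Majorana version, part 5: arbitrary (not alternating) quartic forms

`altz T = (1/24) ∑_σ sign σ T ∘ σ` is alternating, `Vg (altz T) = Vg T`, `RB (altz T) ρ` if `RB T ρ`.
-/

namespace Pool.Agent.H46P

open Finset Equiv
open scoped BigOperators ComplexConjugate InnerProductSpace

variable {m N : ℕ}

theorem m5_cons {n : ℕ} {α M : Type*} [Fintype α] [AddCommMonoid M] (G : (Fin (n + 1) → α) → M) :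
    ∑ v, G v = ∑ a, ∑ w : Fin n → α, G (Fin.cons a w) := by
  classical
  rw [← Fintype.sum_prod_type']
  exact (Fintype.sum_equiv (Fin.consEquiv (fun _ : Fin (n + 1) => α)) _ _ (fun _ => rfl)).symm

theorem m5_four {α M : Type*} [Fintype α] [AddCommMonoid M] (G : (Fin 4 → α) → M) :
    ∑ v, G v = ∑ i, ∑ j, ∑ k, ∑ l, G ![i, j, k, l] := by
  rw [m5_cons]
  refine Finset.sum_congr rfl fun i _ => ?_
  rw [m5_cons]
  refine Finset.sum_congr rfl fun j _ => ?_
  rw [m5_cons]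
  refine Finset.sum_congr rfl fun k _ => ?_
  rw [m5_cons]
  refine Finset.sum_congr rfl fun l _ => ?_
  rw [Fintype.sum_unique]
  congr 1

theorem m5_smul {M ι : Type*} [AddCommGroup M] [Module ℂ M] [Fintype ι] (c : ℂ) (f : ι → ℂ) (x : M) :
    (c * ∑ i, f i) • x = c • ∑ i, f i • x := by
  rw [← smul_smul, Finset.sum_smul]

/-- `T` as a function of an index function -/
def T4 (T : R4 m) (v : Fin 4 → Fin m) : ℂ := T (v 0) (v 1) (v 2) (v 3)

theorem m5_Vg (T : R4 m) : Vg T = ∑ v : Fin 4 → Fin m, T4 T v • cpr v := by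
  rw [m5_four]
  unfold Vg
  refine Finset.sum_congr rfl fun i _ => Finset.sum_congr rfl fun j _ =>
    Finset.sum_congr rfl fun k _ => Finset.sum_congr rfl fun l _ => ?_
  have h : cpr ![i, j, k, l] = fA (i, true) * fA (j, true) * fA (k, true) * fA (l, true) := by
    simp only [cpr, List.ofFn_succ, List.ofFn_zero, List.prod_cons, List.prod_nil, mul_one]
    simp only [mul_assoc]
    rfl
  rw [h]
  rfl

/-- antisymmetrisation -/
noncomputable def altz (T : R4 m) : R4 m := fun i j k l =>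
  (1 / 24 : ℂ) * ∑ σ : Perm (Fin 4), ((Perm.sign σ : ℤ) : ℂ) * T4 T (![i, j, k, l] ∘ σ)

theorem m5_T4 (T : R4 m) (v : Fin 4 → Fin m) : T4 (altz T) v =
    (1 / 24 : ℂ) * ∑ σ : Perm (Fin 4), ((Perm.sign σ : ℤ) : ℂ) * T4 T (v ∘ σ) := by
  have h : ![v 0, v 1, v 2, v 3] = v := by
    funext a
    fin_cases a <;> rfl
  unfold T4 altz
  rw [h]
  rfl

theorem m5_swap (T : R4 m) (v : Fin 4 → Fin m) (τ : Perm (Fin 4)) (hτ : Perm.sign τ = -1) :
    T4 (altz T) (v ∘ τ) = - T4 (altz T) v := by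
  rw [m5_T4, m5_T4, ← mul_neg, ← Finset.sum_neg_distrib]
  congr 1
  refine Fintype.sum_equiv (Equiv.mulLeft τ) _ _ fun σ => ?_
  have h : (v ∘ τ) ∘ σ = v ∘ ((τ * σ : Perm (Fin 4))) := rfl
  rw [h, Equiv.coe_mulLeft, Perm.sign_mul, hτ]
  push_cast
  ring

theorem altz_alt (T : R4 m) : AltT (altz T) := by
  constructor
  · intro i j k l
    have h := m5_swap T ![i, j, k, l] (swap 0 1) (Perm.sign_swap (by decide))
    have e : ![i, j, k, l] ∘ (swap (0 : Fin 4) 1) = ![j, i, k, l] := by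
      funext a
      fin_cases a <;> rfl
    rw [e] at h
    exact h
  · intro i j k l
    have h := m5_swap T ![i, j, k, l] (swap 1 2) (Perm.sign_swap (by decide))
    have e : ![i, j, k, l] ∘ (swap (1 : Fin 4) 2) = ![i, k, j, l] := by
      funext a
      fin_cases a <;> rfl
    rw [e] at h
    exact h
  · intro i j k l
    have h := m5_swap T ![i, j, k, l] (swap 2 3) (Perm.sign_swap (by decide))
    have e : ![i, j, k, l] ∘ (swap (2 : Fin 4) 3) = ![i, j, l, k] := by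
      funext a
      fin_cases a <;> rfl
    rw [e] at h
    exact h

theorem Vg_altz (T : R4 m) : Vg (altz T) = Vg T := by
  have h1 : ∀ σ : Perm (Fin 4), ∑ v : Fin 4 → Fin m,
      (((Perm.sign σ : ℤ) : ℂ) * T4 T (v ∘ σ)) • cpr v = ∑ v : Fin 4 → Fin m, T4 T v • cpr v := by
    intro σ
    refine Fintype.sum_equiv (Equiv.arrowCongr σ.symm (Equiv.refl (Fin m))) _ _ fun v => ?_
    have e : (Equiv.arrowCongr σ.symm (Equiv.refl (Fin m))) v = v ∘ σ := by
      funext a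
      rfl
    rw [e, cpr_perm, smul_smul, mul_comm]
  rw [m5_Vg, m5_Vg]
  simp only [m5_T4]
  have h2 : ∀ v : Fin 4 → Fin m, ((1 / 24 : ℂ) * ∑ σ : Perm (Fin 4), ((Perm.sign σ : ℤ) : ℂ) * T4 T (v ∘ σ)) • cpr v =
      (1 / 24 : ℂ) • ∑ σ : Perm (Fin 4), (((Perm.sign σ : ℤ) : ℂ) * T4 T (v ∘ σ)) • cpr v := by
    intro v
    exact m5_smul (1 / 24 : ℂ) (fun σ : Perm (Fin 4) => ((Perm.sign σ : ℤ) : ℂ) * T4 T (v ∘ σ)) (cpr v)
  simp only [h2]
  rw [← Finset.smul_sum, Finset.sum_comm]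
  simp only [h1]
  rw [Finset.sum_const, Finset.card_univ, Fintype.card_perm, Fintype.card_fin, ← Nat.cast_smul_eq_nsmul ℂ,
    smul_smul]
  have h3 : (1 / 24 : ℂ) * ((Nat.factorial 4 : ℕ) : ℂ) = 1 := by
    simp [Nat.factorial]
  rw [h3]
  exact one_smul ℂ _

theorem m5_RB (T : R4 m) (ρ : ℝ) : RB T ρ ↔ ∀ X : Fin 4 → Fin m → ℂ,
    ‖∑ v : Fin 4 → Fin m, T4 T v * ∏ a, X a (v a)‖ ≤ ρ * ∏ a, nrm (X a) := by
  have key : ∀ X : Fin 4 → Fin m → ℂ, ∑ v : Fin 4 → Fin m, T4 T v * ∏ a, X a (v a) =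
      ∑ i, ∑ j, ∑ k, ∑ l, T i j k l * X 0 i * X 1 j * X 2 k * X 3 l := by
    intro X
    rw [m5_four]
    refine Finset.sum_congr rfl fun i _ => Finset.sum_congr rfl fun j _ =>
      Finset.sum_congr rfl fun k _ => Finset.sum_congr rfl fun l _ => ?_
    rw [Fin.prod_univ_four]
    have e : T4 T ![i, j, k, l] = T i j k l := rfl
    have e0 : (![i, j, k, l] : Fin 4 → Fin m) 0 = i := rfl
    have e1 : (![i, j, k, l] : Fin 4 → Fin m) 1 = j := rfl
    have e2 : (![i, j, k, l] : Fin 4 → Fin m) 2 = k := rfl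
    have e3 : (![i, j, k, l] : Fin 4 → Fin m) 3 = l := rfl
    rw [e, e0, e1, e2, e3]
    ring
  constructor
  · intro h X
    rw [key, Fin.prod_univ_four]
    refine (h (X 0) (X 1) (X 2) (X 3)).trans (le_of_eq ?_)
    ring
  · intro h x y z w
    have h1 := h ![x, y, z, w]
    rw [key, Fin.prod_univ_four] at h1
    refine h1.trans (le_of_eq ?_)
    show ρ * (nrm x * nrm y * nrm z * nrm w) = _
    ring

theorem altz_RB {T : R4 m} {ρ : ℝ} (h : RB T ρ) : RB (altz T) ρ := by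
  rw [m5_RB] at h ⊢
  intro X
  have h1 : ∀ σ : Perm (Fin 4), ‖∑ v : Fin 4 → Fin m, T4 T (v ∘ σ) * ∏ a, X a (v a)‖ ≤
      ρ * ∏ a, nrm (X a) := by
    intro σ
    have e : ∑ v : Fin 4 → Fin m, T4 T (v ∘ σ) * ∏ a, X a (v a) =
        ∑ v : Fin 4 → Fin m, T4 T v * ∏ a, X (σ a) (v a) := by
      refine Fintype.sum_equiv (Equiv.arrowCongr σ.symm (Equiv.refl (Fin m))) _ _ fun v => ?_
      have e : (Equiv.arrowCongr σ.symm (Equiv.refl (Fin m))) v = v ∘ σ := by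
        funext a
        rfl
      rw [e]
      congr 1
      exact (Equiv.prod_comp σ (fun a => X a (v a))).symm
    rw [e]
    refine (h fun a => X (σ a)).trans (le_of_eq ?_)
    congr 1
    exact Equiv.prod_comp σ (fun a => nrm (X a))
  have h2 : ∑ v : Fin 4 → Fin m, T4 (altz T) v * ∏ a, X a (v a) =
      (1 / 24 : ℂ) * ∑ σ : Perm (Fin 4), ((Perm.sign σ : ℤ) : ℂ) *
        ∑ v : Fin 4 → Fin m, T4 T (v ∘ σ) * ∏ a, X a (v a) := by
    simp only [m5_T4, Finset.mul_sum, Finset.sum_mul]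
    rw [Finset.sum_comm]
    refine Finset.sum_congr rfl fun σ _ => Finset.sum_congr rfl fun v _ => ?_
    ring
  rw [h2, norm_mul]
  have h3 : ‖∑ σ : Perm (Fin 4), ((Perm.sign σ : ℤ) : ℂ) *
        ∑ v : Fin 4 → Fin m, T4 T (v ∘ σ) * ∏ a, X a (v a)‖ ≤
      ∑ σ : Perm (Fin 4), ρ * ∏ a, nrm (X a) := by
    refine (norm_sum_le _ _).trans (Finset.sum_le_sum fun σ _ => ?_)
    rw [norm_mul]
    have h4 : ‖((Perm.sign σ : ℤ) : ℂ)‖ = 1 := by
      rcases Int.units_eq_one_or (Perm.sign σ) with hs | hs <;> rw [hs] <;> simp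
    rw [h4, one_mul]
    exact h1 σ
  rw [Finset.sum_const, Finset.card_univ, Fintype.card_perm, Fintype.card_fin, nsmul_eq_mul] at h3
  have h5 : ‖(1 / 24 : ℂ)‖ = 1 / 24 := by norm_num
  have h6 : ((Nat.factorial 4 : ℕ) : ℝ) = 24 := by norm_num [Nat.factorial]
  rw [h6] at h3
  rw [h5]
  linarith

/-- zero-freeness for arbitrary quartic forms on all `N + N` modes -/
theorem zero_free_maj (hN : 1 ≤ N) {T : R4 (N + N)} {ρ : ℝ} (hρ : 0 ≤ ρ) (hb : RB T ρ)
    {lam : ℕ} (hlam : (4 * N : ℝ) ≤ Real.exp lam)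
    (hsmall : 16 * Real.exp 1 ^ 2 * (17 * (6 * (lam + 5)) ^ 2 * (5 + lam)) * (4 * N) * (4 * ρ) ≤
      1 / 100) : ellg T vac ≠ 0 := by
  have h := zero_freeg hN (altz_alt T) hρ (altz_RB hb) hlam hsmall
  unfold ellg at h ⊢
  rw [Vg_altz] at h
  exact h

end Pool.Agent.H46P
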